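import Pool.Agent.Work.MP_9fb703_gl.Interface

/-!
# Block ACN: all eigenpairs modulo prime powers
-/

set_option autoImplicit false

namespace Pool.GLU

open Matrix

/-- the bilinear expression -/
def ACN_E (b : Fin 2 → Matrix (Fin 4) (Fin 4) ℤ) {R : Type} [CommRing R] (μ : Fin 2 → R)
    (x : Fin 4 → R) : Fin 4 → R := μ 0 • jv b x 0 + μ 1 • jv b x 1

theorem ACN_apply (b : Fin 2 → Matrix (Fin 4) (Fin 4) ℤ) {R : Type} [CommRing R] (μ : Fin 2 → R)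
    (x : Fin 4 → R) (k : Fin 4) : ACN_E b μ x k =
      ∑ l, (μ 0 * (((b 0 + (b 0)ᵀ) k l : ℤ) : R) + μ 1 * (((b 1 + (b 1)ᵀ) k l : ℤ) : R)) * x l := by
  have h : ∀ i, jv b x i k = ∑ l, (((b i + (b i)ᵀ) k l : ℤ) : R) * x l := fun i => rfl
  show μ 0 * jv b x 0 k + μ 1 * jv b x 1 k = _
  rw [h, h, Finset.mul_sum, Finset.mul_sum, ← Finset.sum_add_distrib]
  refine Finset.sum_congr rfl fun l _ => ?_
  ring

theorem ACN_cast (b : Fin 2 → Matrix (Fin 4) (Fin 4) ℤ) {R : Type} [CommRing R] (μ : Fin 2 → ℤ)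
    (x : Fin 4 → ℤ) (k : Fin 4) : ((ACN_E b μ x k : ℤ) : R) =
      ACN_E b (fun i => (μ i : R)) (fun l => (x l : R)) k := by
  rw [ACN_apply, ACN_apply]
  push_cast
  rfl

theorem ACN_left (b : Fin 2 → Matrix (Fin 4) (Fin 4) ℤ) (μ : Fin 2 → ℤ) (x : Fin 4 → ℤ) (c : ℤ)
    (k : Fin 4) : ACN_E b (fun i => c * μ i) x k = c * ACN_E b μ x k := by
  rw [ACN_apply, ACN_apply, Finset.mul_sum]
  refine Finset.sum_congr rfl fun l _ => ?_
  ring

theorem ACN_right (b : Fin 2 → Matrix (Fin 4) (Fin 4) ℤ) (μ : Fin 2 → ℤ) (x : Fin 4 → ℤ) (c : ℤ)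
    (k : Fin 4) : ACN_E b μ (fun l => c * x l) k = c * ACN_E b μ x k := by
  rw [ACN_apply, ACN_apply, Finset.mul_sum]
  refine Finset.sum_congr rfl fun l _ => ?_
  ring

theorem ACN_dvd (b : Fin 2 → Matrix (Fin 4) (Fin 4) ℤ) (n : ℕ) (μ : Fin 2 → ℤ) (x : Fin 4 → ℤ)
    (k : Fin 4) : ((n : ℤ) ∣ ACN_E b μ x k) ↔
      ACN_E b (fun i => (μ i : ZMod n)) (fun l => (x l : ZMod n)) k = 0 := by
  rw [← ACN_cast, ZMod.intCast_zmod_eq_zero_iff_dvd]

/-- the box -/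
noncomputable def ACN_B (n k : ℕ) : Finset (Fin k → ℤ) := Fintype.piFinset fun _ => Finset.Ico (0 : ℤ) n

theorem ACN_mem {n k : ℕ} {f : Fin k → ℤ} : f ∈ ACN_B n k ↔ ∀ i, 0 ≤ f i ∧ f i < n := by
  unfold ACN_B
  rw [Fintype.mem_piFinset]
  simp only [Finset.mem_Ico]

theorem ACN_card (n k : ℕ) : (ACN_B n k).card = n ^ k := by
  unfold ACN_B
  rw [Fintype.card_piFinset]
  simp

open Classical in
/-- all pairs -/
noncomputable def ACN_A (b : Fin 2 → Matrix (Fin 4) (Fin 4) ℤ) (n : ℕ) :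
    Finset ((Fin 2 → ℤ) × (Fin 4 → ℤ)) :=
  (ACN_B n 2 ×ˢ ACN_B n 4).filter fun z => ∀ k, (n : ℤ) ∣ ACN_E b z.1 z.2 k

open Classical in
/-- pairs with the first component primitive -/
noncomputable def ACN_P (b : Fin 2 → Matrix (Fin 4) (Fin 4) ℤ) (p n : ℕ) :
    Finset ((Fin 2 → ℤ) × (Fin 4 → ℤ)) :=
  (ACN_A b n).filter fun z => ∃ i, ¬ (p : ℤ) ∣ z.1 i

open Classical in
/-- pairs with both components primitive -/
noncomputable def ACN_S (b : Fin 2 → Matrix (Fin 4) (Fin 4) ℤ) (p n : ℕ) :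
    Finset ((Fin 2 → ℤ) × (Fin 4 → ℤ)) :=
  (ACN_P b p n).filter fun z => ∃ i, ¬ (p : ℤ) ∣ z.2 i

theorem ACN_memA {b : Fin 2 → Matrix (Fin 4) (Fin 4) ℤ} {n : ℕ}
    {z : (Fin 2 → ℤ) × (Fin 4 → ℤ)} : z ∈ ACN_A b n ↔ (∀ i, 0 ≤ z.1 i ∧ z.1 i < n) ∧
      (∀ i, 0 ≤ z.2 i ∧ z.2 i < n) ∧ ∀ k, (n : ℤ) ∣ ACN_E b z.1 z.2 k := by
  unfold ACN_A
  rw [Finset.mem_filter, Finset.mem_product, ACN_mem, ACN_mem, and_assoc]

theorem ACN_memP {b : Fin 2 → Matrix (Fin 4) (Fin 4) ℤ} {p n : ℕ}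
    {z : (Fin 2 → ℤ) × (Fin 4 → ℤ)} : z ∈ ACN_P b p n ↔
      z ∈ ACN_A b n ∧ ∃ i, ¬ (p : ℤ) ∣ z.1 i := by
  unfold ACN_P
  rw [Finset.mem_filter]

theorem ACN_memS {b : Fin 2 → Matrix (Fin 4) (Fin 4) ℤ} {p n : ℕ}
    {z : (Fin 2 → ℤ) × (Fin 4 → ℤ)} : z ∈ ACN_S b p n ↔
      z ∈ ACN_P b p n ∧ ∃ i, ¬ (p : ℤ) ∣ z.2 i := by
  unfold ACN_S
  rw [Finset.mem_filter]

/-- reduction of the first component -/
theorem ACN_mod1 (b : Fin 2 → Matrix (Fin 4) (Fin 4) ℤ) (n : ℕ) (μ : Fin 2 → ℤ) (x : Fin 4 → ℤ)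
    (k : Fin 4) (h : (n : ℤ) ∣ ACN_E b μ x k) : (n : ℤ) ∣ ACN_E b (fun i => μ i % n) x k := by
  rw [ACN_dvd] at h ⊢
  rw [← h]
  congr 1
  funext i
  exact ZMod.intCast_mod (μ i) n

theorem ACN_mod2 (b : Fin 2 → Matrix (Fin 4) (Fin 4) ℤ) (n : ℕ) (μ : Fin 2 → ℤ) (x : Fin 4 → ℤ)
    (k : Fin 4) (h : (n : ℤ) ∣ ACN_E b μ x k) : (n : ℤ) ∣ ACN_E b μ (fun l => x l % n) k := by
  rw [ACN_dvd] at h ⊢
  rw [← h]
  congr 1
  funext i
  exact ZMod.intCast_mod (x i) n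

theorem ACN_div (n p : ℕ) (hp : 0 < p) {a : ℤ} (h0 : 0 ≤ a) (h1 : a < ((p * n : ℕ) : ℤ)) :
    0 ≤ a / p ∧ a / p < n := by
  have hp' : (0 : ℤ) < p := by exact_mod_cast hp
  refine ⟨Int.ediv_nonneg h0 hp'.le, ?_⟩
  refine Int.ediv_lt_of_lt_mul hp' ?_
  push_cast at h1
  linarith [mul_comm (n : ℤ) (p : ℤ)]

theorem ACN_div' (n p : ℕ) (hn : 0 < n) {a : ℤ} (h0 : 0 ≤ a) (h1 : a < ((p * n : ℕ) : ℤ)) :
    0 ≤ a / n ∧ a / n < p := by
  have hn' : (0 : ℤ) < n := by exact_mod_cast hn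
  refine ⟨Int.ediv_nonneg h0 hn'.le, ?_⟩
  refine Int.ediv_lt_of_lt_mul hn' ?_
  push_cast at h1
  linarith

theorem ACN_mod (n : ℕ) (hn : 0 < n) (a : ℤ) : 0 ≤ a % n ∧ a % n < n := by
  have hn' : (0 : ℤ) < n := by exact_mod_cast hn
  exact ⟨Int.emod_nonneg a hn'.ne', Int.emod_lt_of_pos a hn'⟩

/-- the recursion for all pairs -/
theorem ACN_C (b : Fin 2 → Matrix (Fin 4) (Fin 4) ℤ) (p n : ℕ) (hp : 0 < p) (hn : 0 < n) :
    (ACN_A b (p * n)).card ≤ (ACN_P b p (p * n)).card + (ACN_A b n).card * p ^ 4 := by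
  classical
  have hp' : (p : ℤ) ≠ 0 := by exact_mod_cast hp.ne'
  rw [← ACN_card p 4, ← Finset.card_product]
  have hsplit := Finset.card_filter_add_card_filter_not (s := ACN_A b (p * n))
    (fun z => ∃ i, ¬ (p : ℤ) ∣ z.1 i)
  have e1 : (ACN_P b p (p * n)).card =
      ((ACN_A b (p * n)).filter fun z => ∃ i, ¬ (p : ℤ) ∣ z.1 i).card := by
    unfold ACN_P
    congr
  rw [e1, ← hsplit]
  refine Nat.add_le_add_left ?_ _
  refine Finset.card_le_card_of_injOn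
    (fun z => ((fun i => z.1 i / p, fun l => z.2 l % n), fun l => z.2 l / n)) ?_ ?_
  · intro z hz
    rw [Finset.mem_coe, Finset.mem_filter, ACN_memA] at hz
    obtain ⟨⟨h1, h2, h3⟩, h4⟩ := hz
    push Not at h4
    rw [Finset.mem_coe, Finset.mem_product, ACN_memA, ACN_mem]
    refine ⟨⟨fun i => ACN_div n p hp (h1 i).1 (h1 i).2, fun l => ACN_mod n hn _, fun k => ?_⟩,
      fun l => ACN_div' n p hn (h2 l).1 (h2 l).2⟩
    refine ACN_mod2 b n _ z.2 k ?_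
    have h5 : z.1 = fun i => (p : ℤ) * (z.1 i / p) := by
      funext i
      exact (Int.mul_ediv_cancel' (h4 i)).symm
    have h6 := h3 k
    rw [h5, ACN_left] at h6
    push_cast at h6
    exact Int.dvd_of_mul_dvd_mul_left hp' h6
  · intro z hz z' hz' heq
    rw [Finset.mem_coe, Finset.mem_filter, ACN_memA] at hz hz'
    have h4 := hz.2
    have h4' := hz'.2
    push Not at h4 h4'
    simp only [Prod.mk.injEq] at heq
    obtain ⟨⟨g1, g2⟩, g3⟩ := heq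
    refine Prod.ext ?_ ?_
    · funext i
      rw [← Int.mul_ediv_cancel' (h4 i), ← Int.mul_ediv_cancel' (h4' i)]
      exact congrArg (fun t => (p : ℤ) * t) (congrFun g1 i)
    · funext l
      have g4 := congrFun g2 l
      have g5 := congrFun g3 l
      rw [← Int.emod_add_mul_ediv (z.2 l) n, ← Int.emod_add_mul_ediv (z'.2 l) n, g4, g5]

/-- the recursion for the pairs with primitive first component -/
theorem ACN_D (b : Fin 2 → Matrix (Fin 4) (Fin 4) ℤ) (p n : ℕ) (hp : 0 < p) (hn : 0 < n)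
    (hpn : p ∣ n) :
    (ACN_P b p (p * n)).card ≤ (ACN_S b p (p * n)).card + (ACN_P b p n).card * p ^ 2 := by
  classical
  have hp' : (p : ℤ) ≠ 0 := by exact_mod_cast hp.ne'
  rw [← ACN_card p 2, ← Finset.card_product]
  have hsplit := Finset.card_filter_add_card_filter_not (s := ACN_P b p (p * n))
    (fun z => ∃ i, ¬ (p : ℤ) ∣ z.2 i)
  have e1 : (ACN_S b p (p * n)).card =
      ((ACN_P b p (p * n)).filter fun z => ∃ i, ¬ (p : ℤ) ∣ z.2 i).card := by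
    unfold ACN_S
    congr
  rw [e1, ← hsplit]
  refine Nat.add_le_add_left ?_ _
  refine Finset.card_le_card_of_injOn
    (fun z => ((fun i => z.1 i % n, fun l => z.2 l / p), fun i => z.1 i / n)) ?_ ?_
  · intro z hz
    rw [Finset.mem_coe, Finset.mem_filter, ACN_memP, ACN_memA] at hz
    obtain ⟨⟨⟨h1, h2, h3⟩, ⟨i0, hi0⟩⟩, h4⟩ := hz
    push Not at h4
    rw [Finset.mem_coe, Finset.mem_product, ACN_memP, ACN_memA, ACN_mem]
    refine ⟨⟨⟨fun i => ACN_mod n hn _, fun l => ACN_div n p hp (h2 l).1 (h2 l).2, fun k => ?_⟩,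
      ⟨i0, ?_⟩⟩, fun i => ACN_div' n p hn (h1 i).1 (h1 i).2⟩
    · refine ACN_mod1 b n z.1 _ k ?_
      have h5 : z.2 = fun i => (p : ℤ) * (z.2 i / p) := by
        funext i
        exact (Int.mul_ediv_cancel' (h4 i)).symm
      have h6 := h3 k
      rw [h5, ACN_right] at h6
      push_cast at h6
      exact Int.dvd_of_mul_dvd_mul_left hp' h6
    · intro hd
      apply hi0
      rw [← Int.emod_add_mul_ediv (z.1 i0) n]
      have hpn' : (p : ℤ) ∣ n := by exact_mod_cast hpn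
      exact dvd_add hd (hpn'.mul_right _)
  · intro z hz z' hz' heq
    rw [Finset.mem_coe, Finset.mem_filter] at hz hz'
    have h4 := hz.2
    have h4' := hz'.2
    push Not at h4 h4'
    simp only [Prod.mk.injEq] at heq
    obtain ⟨⟨g2, g1⟩, g3⟩ := heq
    refine Prod.ext ?_ ?_
    · funext l
      have g4 := congrFun g2 l
      have g5 := congrFun g3 l
      rw [← Int.emod_add_mul_ediv (z.1 l) n, ← Int.emod_add_mul_ediv (z'.1 l) n, g4, g5]
    · funext i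
      rw [← Int.mul_ediv_cancel' (h4 i), ← Int.mul_ediv_cancel' (h4' i)]
      exact congrArg (fun t => (p : ℤ) * t) (congrFun g1 i)

/-- the first step -/
theorem ACN_D0 (b : Fin 2 → Matrix (Fin 4) (Fin 4) ℤ) (p : ℕ) :
    (ACN_P b p p).card ≤ (ACN_S b p p).card + p ^ 2 := by
  classical
  rw [← ACN_card p 2]
  have hsplit := Finset.card_filter_add_card_filter_not (s := ACN_P b p p)
    (fun z => ∃ i, ¬ (p : ℤ) ∣ z.2 i)
  have e1 : (ACN_S b p p).card =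
      ((ACN_P b p p).filter fun z => ∃ i, ¬ (p : ℤ) ∣ z.2 i).card := by
    unfold ACN_S
    congr
  rw [e1, ← hsplit]
  refine Nat.add_le_add_left ?_ _
  refine Finset.card_le_card_of_injOn (fun z => z.1) ?_ ?_
  · intro z hz
    rw [Finset.mem_coe, Finset.mem_filter, ACN_memP, ACN_memA] at hz
    rw [Finset.mem_coe, ACN_mem]
    exact hz.1.1.1
  · intro z hz z' hz' heq
    rw [Finset.mem_coe, Finset.mem_filter, ACN_memP, ACN_memA] at hz hz'
    have h4 := hz.2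
    have h4' := hz'.2
    push Not at h4 h4'
    refine Prod.ext heq ?_
    funext l
    have a1 := hz.1.1.2.1 l
    have a2 := hz'.1.1.2.1 l
    rw [Int.eq_zero_of_dvd_of_nonneg_of_lt a1.1 a1.2 (h4 l),
      Int.eq_zero_of_dvd_of_nonneg_of_lt a2.1 a2.2 (h4' l)]

/-- comparison with the residue classes: all pairs -/
theorem ACN_toA (b : Fin 2 → Matrix (Fin 4) (Fin 4) ℤ) (n : ℕ) [NeZero n] :
    Nat.card {z : (Fin 2 → ZMod n) × (Fin 4 → ZMod n) //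
      z.1 0 • jv b z.2 0 + z.1 1 • jv b z.2 1 = 0} ≤ (ACN_A b n).card := by
  classical
  have h0 : (ACN_A b n).card = Nat.card (ACN_A b n) := by
    rw [Nat.card_eq_fintype_card, Fintype.card_coe]
  rw [h0]
  refine Nat.card_le_card_of_injective (fun z => ⟨(fun i => ((z.1.1 i).val : ℤ),
    fun l => ((z.1.2 l).val : ℤ)), ?_⟩) ?_
  · rw [ACN_memA]
    refine ⟨fun i => ⟨Int.natCast_nonneg _, ?_⟩, fun i => ⟨Int.natCast_nonneg _, ?_⟩, fun k => ?_⟩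
    · show (((z.1.1 i).val : ℕ) : ℤ) < n
      exact_mod_cast ZMod.val_lt (z.1.1 i)
    · show (((z.1.2 i).val : ℕ) : ℤ) < n
      exact_mod_cast ZMod.val_lt (z.1.2 i)
    · rw [ACN_dvd]
      have e1 : (fun i => ((((z.1.1 i).val : ℕ) : ℤ) : ZMod n)) = z.1.1 := by
        funext i
        rw [Int.cast_natCast, ZMod.natCast_zmod_val]
      have e2 : (fun i => ((((z.1.2 i).val : ℕ) : ℤ) : ZMod n)) = z.1.2 := by
        funext i
        rw [Int.cast_natCast, ZMod.natCast_zmod_val]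
      show ACN_E b (fun i => ((((z.1.1 i).val : ℕ) : ℤ) : ZMod n))
        (fun i => ((((z.1.2 i).val : ℕ) : ℤ) : ZMod n)) k = 0
      rw [e1, e2]
      exact congrFun z.2 k
  · intro z z' heq
    have h1 := congrArg Subtype.val heq
    simp only [Prod.mk.injEq] at h1
    refine Subtype.ext (Prod.ext ?_ ?_)
    · funext i
      exact ZMod.val_injective n (by exact_mod_cast congrFun h1.1 i)
    · funext i
      exact ZMod.val_injective n (by exact_mod_cast congrFun h1.2 i)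

theorem ACN_inj {n : ℕ} {a a' : ℤ} (h0 : 0 ≤ a) (h1 : a < n) (h0' : 0 ≤ a') (h1' : a' < n)
    (h : (a : ZMod n) = (a' : ZMod n)) : a = a' := by
  rw [ZMod.intCast_eq_intCast_iff] at h
  have h2 : a % n = a' % n := h
  rwa [Int.emod_eq_of_lt h0 h1, Int.emod_eq_of_lt h0' h1'] at h2

theorem ACN_unit {p : ℕ} (hp : p.Prime) (j : ℕ) {a : ℤ} (h : ¬ (p : ℤ) ∣ a) :
    IsUnit (a : ZMod (p ^ j)) := by
  rw [ZMod.coe_int_isUnit_iff_isCoprime]
  have h1 : IsCoprime (p : ℤ) a := (Nat.prime_iff_prime_int.1 hp).coprime_iff_not_dvd.2 h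
  push_cast
  exact h1.pow_left

/-- comparison with the residue classes: primitive pairs -/
theorem ACN_toS (b : Fin 2 → Matrix (Fin 4) (Fin 4) ℤ) (p : ℕ) (hp : p.Prime) (j : ℕ) :
    (ACN_S b p (p ^ j)).card ≤ Nat.card {z : (Fin 2 → ZMod (p ^ j)) × (Fin 4 → ZMod (p ^ j)) //
      (∃ i, IsUnit (z.1 i)) ∧ (∃ i, IsUnit (z.2 i)) ∧
      z.1 0 • jv b z.2 0 + z.1 1 • jv b z.2 1 = 0} := by
  classical
  haveI : NeZero (p ^ j) := ⟨(pow_pos hp.pos j).ne'⟩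
  have h0 : (ACN_S b p (p ^ j)).card = Nat.card (ACN_S b p (p ^ j)) := by
    rw [Nat.card_eq_fintype_card, Fintype.card_coe]
  rw [h0]
  refine Nat.card_le_card_of_injective (fun z => ⟨(fun i => ((z.1.1 i : ℤ) : ZMod (p ^ j)),
    fun l => ((z.1.2 l : ℤ) : ZMod (p ^ j))), ?_⟩) ?_
  · have hz := z.2
    rw [ACN_memS, ACN_memP, ACN_memA] at hz
    obtain ⟨⟨⟨h1, h2, h3⟩, ⟨i, hi⟩⟩, ⟨l, hl⟩⟩ := hz
    refine ⟨⟨i, ACN_unit hp j hi⟩, ⟨l, ACN_unit hp j hl⟩, ?_⟩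
    funext k
    exact (ACN_dvd b (p ^ j) z.1.1 z.1.2 k).1 (h3 k)
  · intro z z' heq
    have hz := z.2
    have hz' := z'.2
    rw [ACN_memS, ACN_memP, ACN_memA] at hz hz'
    have h1 := congrArg Subtype.val heq
    simp only [Prod.mk.injEq] at h1
    refine Subtype.ext (Prod.ext ?_ ?_)
    · funext i
      have a1 := hz.1.1.1 i
      have a2 := hz'.1.1.1 i
      exact ACN_inj a1.1 a1.2 a2.1 a2.2 (congrFun h1.1 i)
    · funext i
      have a1 := hz.1.1.2.1 i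
      have a2 := hz'.1.1.2.1 i
      exact ACN_inj a1.1 a1.2 a2.1 a2.2 (congrFun h1.2 i)

theorem ACN_A0 (b : Fin 2 → Matrix (Fin 4) (Fin 4) ℤ) : (ACN_A b 1).card ≤ 1 := by
  refine (Finset.card_filter_le _ _).trans ?_
  rw [Finset.card_product, ACN_card, ACN_card]
  norm_num

/-- the numerical induction -/
theorem ACN_num (p : ℕ) (hp : 2 ≤ p) (A P S : ℕ → ℕ) (hS : ∀ j, 1 ≤ j → S j ≤ 4 * p ^ (2 * j))
    (hP1 : P 1 ≤ S 1 + p ^ 2) (hP : ∀ j, 1 ≤ j → P (j + 1) ≤ S (j + 1) + P j * p ^ 2)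
    (hA0 : A 0 ≤ 1) (hA : ∀ j, A (j + 1) ≤ P (j + 1) + A j * p ^ 4) (j : ℕ) :
    A j * p ^ 2 + (6 * j + 9) * p ^ (2 * j) ≤ p ^ (4 * j) * (p ^ 2 + 10) := by
  have hPb : ∀ j, P (j + 1) ≤ (5 + 4 * j) * p ^ (2 * (j + 1)) := by
    intro j
    induction j with
    | zero =>
      have h1 := hS 1 le_rfl
      have e : p ^ (2 * 1) = p ^ 2 := by norm_num
      rw [e] at h1
      simp only [Nat.mul_zero, Nat.add_zero, Nat.zero_add, Nat.mul_one]
      linarith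
    | succ j ih =>
      have h1 := hS (j + 1 + 1) (by omega)
      have h2 := hP (j + 1) (by omega)
      have e : p ^ (2 * (j + 1 + 1)) = p ^ (2 * (j + 1)) * p ^ 2 := by
        rw [← pow_add]
        ring_nf
      rw [e] at h1 ⊢
      have h3 : P (j + 1) * p ^ 2 ≤ (5 + 4 * j) * p ^ (2 * (j + 1)) * p ^ 2 :=
        Nat.mul_le_mul_right _ ih
      nlinarith
  have hp2 : 4 ≤ p ^ 2 := by nlinarith
  induction j with
  | zero =>
    simp only [Nat.mul_zero, pow_zero, Nat.mul_one, Nat.zero_add, Nat.one_mul]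
    nlinarith
  | succ j ih =>
    have h1 := hA j
    have h2 := hPb j
    have e1 : p ^ (2 * (j + 1)) = p ^ (2 * j) * p ^ 2 := by
      rw [← pow_add]
      ring_nf
    have e2 : p ^ (4 * (j + 1)) = p ^ (4 * j) * p ^ 4 := by
      rw [← pow_add]
      ring_nf
    rw [e1] at h2 ⊢
    rw [e2]
    have h3 : A (j + 1) * p ^ 2 ≤
        ((5 + 4 * j) * (p ^ (2 * j) * p ^ 2) + A j * p ^ 4) * p ^ 2 :=
      Nat.mul_le_mul_right _ (h1.trans (Nat.add_le_add_right h2 _))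
    have h4 := Nat.mul_le_mul_right (p ^ 4) ih
    have h5 : (6 * j + 15) * (p ^ (2 * j) * p ^ 2) + (5 + 4 * j) * (p ^ (2 * j) * p ^ 2) * p ^ 2 ≤
        (6 * j + 9) * p ^ (2 * j) * p ^ 4 := by
      have h6 : 6 * j + 15 + (5 + 4 * j) * p ^ 2 ≤ (6 * j + 9) * p ^ 2 := by nlinarith
      have h7 := Nat.mul_le_mul_right (p ^ (2 * j) * p ^ 2) h6
      calc (6 * j + 15) * (p ^ (2 * j) * p ^ 2) + (5 + 4 * j) * (p ^ (2 * j) * p ^ 2) * p ^ 2
          = (6 * j + 15 + (5 + 4 * j) * p ^ 2) * (p ^ (2 * j) * p ^ 2) := by ring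
        _ ≤ (6 * j + 9) * p ^ 2 * (p ^ (2 * j) * p ^ 2) := h7
        _ = (6 * j + 9) * p ^ (2 * j) * p ^ 4 := by ring
    calc A (j + 1) * p ^ 2 + (6 * (j + 1) + 9) * (p ^ (2 * j) * p ^ 2)
        ≤ ((5 + 4 * j) * (p ^ (2 * j) * p ^ 2) + A j * p ^ 4) * p ^ 2 +
          (6 * (j + 1) + 9) * (p ^ (2 * j) * p ^ 2) := Nat.add_le_add_right h3 _
      _ = ((6 * j + 15) * (p ^ (2 * j) * p ^ 2) +
          (5 + 4 * j) * (p ^ (2 * j) * p ^ 2) * p ^ 2) + A j * p ^ 2 * p ^ 4 := by ring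
      _ ≤ (6 * j + 9) * p ^ (2 * j) * p ^ 4 + A j * p ^ 2 * p ^ 4 := Nat.add_le_add_right h5 _
      _ = (A j * p ^ 2 + (6 * j + 9) * p ^ (2 * j)) * p ^ 4 := by ring
      _ ≤ p ^ (4 * j) * (p ^ 2 + 10) * p ^ 4 := h4
      _ = p ^ (4 * j) * p ^ 4 * (p ^ 2 + 10) := by ring

theorem p_ACN (hLFT : Stmt_LFT) : Stmt_ACN := by
  intro b hb
  obtain ⟨P, hP⟩ := hLFT b hb
  refine ⟨P, fun p hp hPp j => ?_⟩
  haveI : NeZero (p ^ j) := ⟨(pow_pos hp.pos j).ne'⟩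
  have hnum := ACN_num p hp.two_le (fun j => (ACN_A b (p ^ j)).card)
    (fun j => (ACN_P b p (p ^ j)).card) (fun j => (ACN_S b p (p ^ j)).card)
    (fun j hj => (ACN_toS b p hp j).trans (hP p hp hPp j hj))
    (by
      simp only [pow_one]
      exact ACN_D0 b p)
    (fun j hj => by
      simp only [pow_succ' p j]
      exact ACN_D b p (p ^ j) hp.pos (pow_pos hp.pos j) (dvd_pow_self p (by omega)))
    (by
      simp only [pow_zero]
      exact ACN_A0 b)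
    (fun j => by
      simp only [pow_succ' p j]
      exact ACN_C b p (p ^ j) hp.pos (pow_pos hp.pos j)) j
  have h1 := Nat.mul_le_mul_right (p ^ 2) (ACN_toA b (p ^ j))
  exact h1.trans ((Nat.le_add_right _ _).trans hnum)

end Pool.GLU
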