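import Pool.Agent.Work.MP_9fb703_gl.Interface2

/-!
# MP_9fb703_nt, THEOREM GLUE, block AS1
-/

set_option autoImplicit false

namespace Pool.GLU

open Matrix Polynomial MeasureTheory

theorem AS1_app (z y ξ a b ν : ℝ) (ha : 0 < a) (hb : 0 < b) (h1 : |z - a * ξ| ≤ a * ν)
    (h2 : |ξ - b⁻¹ * y| ≤ 3 * ν) : |b / a * z - y| ≤ 4 * ν * b := by
  have e1 : b / a * z - y = b / a * (z - a * ξ) + b * (ξ - b⁻¹ * y) := by
    field_simp
    ring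
  have h3 : |b / a * (z - a * ξ)| ≤ b * ν := by
    rw [abs_mul, abs_of_pos (div_pos hb ha)]
    calc b / a * |z - a * ξ| ≤ b / a * (a * ν) :=
          mul_le_mul_of_nonneg_left h1 (div_pos hb ha).le
      _ = b * ν := by field_simp
  have h4 : |b * (ξ - b⁻¹ * y)| ≤ b * (3 * ν) := by
    rw [abs_mul, abs_of_pos hb]
    exact mul_le_mul_of_nonneg_left h2 hb.le
  rw [e1]
  refine (abs_add_le _ _).trans ?_
  linarith

theorem AS1_pad (p N : ℕ) [Fact p.Prime] (V : ℕ) (z x₀ : ℤ) (x : ℤ_[p]) (hV : p ^ N ∣ V)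
    (hz : (V : ℤ) ∣ z - x₀) (hx : (p : ℤ_[p]) ^ N ∣ (x₀ : ℤ_[p]) - x) :
    ‖((z : ℤ) : ℤ_[p]) - x‖ ≤ (p : ℝ) ^ (-(N : ℤ)) := by
  rw [PadicInt.norm_le_pow_iff_mem_span_pow, Ideal.mem_span_singleton]
  have h1 : ((p ^ N : ℕ) : ℤ) ∣ z - x₀ := (Int.natCast_dvd_natCast.2 hV).trans hz
  obtain ⟨k, hk⟩ := h1
  have h2 : (p : ℤ_[p]) ^ N ∣ (z : ℤ_[p]) - (x₀ : ℤ_[p]) := by
    refine ⟨(k : ℤ_[p]), ?_⟩
    rw [← Int.cast_sub, hk]
    push_cast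
    ring
  have h3 : (z : ℤ_[p]) - x = ((z : ℤ_[p]) - (x₀ : ℤ_[p])) + ((x₀ : ℤ_[p]) - x) := by ring
  rw [h3]
  exact dvd_add h2 hx

theorem p_AS1 : Stmt_AS1 := by
  intro b c N L U A B V W M x₀ w₀ ξ y ω v s x w hN hA hAB hBA hs hsB hξ hω hVW hxw hSol
  obtain ⟨S, hS, hz⟩ := hSol
  have hA1 : (1 : ℝ) ≤ A := by exact_mod_cast hA
  have hsA : (1 : ℝ) ≤ Real.sqrt A := Real.one_le_sqrt.2 hA1
  have hB : (0 : ℝ) < B := by linarith
  have hN0 : (0 : ℝ) < N := by exact_mod_cast hN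
  have hsB0 : 0 < s * B := mul_pos hs hB
  set h : ℝ := max ‖y‖ (Real.sqrt A * ‖v‖) with hh
  have hh1 : ‖y‖ ≤ h := le_max_left _ _
  have hh2 : Real.sqrt A * ‖v‖ ≤ h := le_max_right _ _
  have hh0 : 0 ≤ h := (norm_nonneg y).trans hh1
  have hsB2 : s * B ≤ 2 * h := by
    rw [hsB]
    refine max_le (by linarith) ?_
    calc (B : ℝ) * ‖v‖ ≤ 2 * Real.sqrt A * ‖v‖ := mul_le_mul_of_nonneg_right hBA (norm_nonneg v)
      _ = 2 * (Real.sqrt A * ‖v‖) := by ring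
      _ ≤ 2 * h := by linarith
  have hkey : 4 * (1 / (8 * (N : ℝ))) * (s * B) ≤ 1 / N * h := by
    have e1 : 4 * (1 / (8 * (N : ℝ))) * (s * B) = 1 / N * (s * B / 2) := by
      field_simp
      ring
    rw [e1]
    exact mul_le_mul_of_nonneg_left (by linarith) (by positivity)
  refine ⟨S, hS, fun z hzS => ?_⟩
  obtain ⟨h1, h2, h3, h4, h5, h6, t, ht, h7, h8⟩ := hz z hzS
  refine ⟨h1, h4, h5, h6, ⟨s / t, div_pos hs ht, fun j => ?_, fun j => ?_⟩, ?_⟩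
  · have e1 : s / t = s * B / (t * B) := by
      field_simp
    rw [e1]
    refine (AS1_app _ _ (ξ j) (t * B) (s * B) (1 / (8 * (N : ℝ))) (mul_pos ht hB) hsB0 (h7 j)
      ?_).trans hkey
    have e2 := norm_le_pi_norm (ξ - (s * B)⁻¹ • y) j
    rw [Real.norm_eq_abs] at e2
    exact e2.trans hξ
  · have e2 := norm_le_pi_norm (ω - s⁻¹ • v) j
    rw [Real.norm_eq_abs] at e2
    have e3 := AS1_app _ (v j) (ω j) t s (1 / (8 * (N : ℝ))) ht hs (h8 j) (e2.trans hω)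
    refine le_trans ?_ hkey
    calc Real.sqrt A * |s / t * (z.2 j : ℝ) - v j|
        ≤ B * (4 * (1 / (8 * (N : ℝ))) * s) := mul_le_mul hAB e3 (abs_nonneg _) hB.le
      _ = 4 * (1 / (8 * (N : ℝ))) * (s * B) := by ring
  · intro p _ hp
    have hpp : p.Prime := Fact.out
    obtain ⟨hV, hW⟩ := hVW p hpp hp
    obtain ⟨hx, hw⟩ := hxw p hp
    exact ⟨fun j => AS1_pad p N V _ _ _ hV (h2 j) (hx j),
      fun j => AS1_pad p N W _ _ _ hW (h3 j) (hw j)⟩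

end Pool.GLU
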