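import Pool.Agent.Work.MP_9fb703_gl.Interface

/-!
# MP_9fb703_nt, THEOREM GLUE, block CEL (helper25): the cell theorem
-/

set_option autoImplicit false

namespace Pool.GLU

open Matrix Polynomial

/-- sums of cardinalities as the cardinality of a set of pairs -/
theorem CEL_pairs {X Y : Type} (C : Finset X) (F : X → Finset Y) (P : Set (X × Y))
    (h : ∀ z, z ∈ P ↔ z.1 ∈ C ∧ z.2 ∈ F z.1) : P.ncard = ∑ x ∈ C, (F x).card := by
  classical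
  have h1 : P = ↑((C.sigma F).map (Equiv.sigmaEquivProd X Y).toEmbedding) := by
    ext z
    rw [h z]
    simp only [Finset.coe_map, Set.mem_image, Finset.mem_coe, Finset.mem_sigma]
    constructor
    · rintro ⟨h1, h2⟩
      exact ⟨⟨z.1, z.2⟩, ⟨h1, h2⟩, rfl⟩
    · rintro ⟨y, ⟨h1, h2⟩, rfl⟩
      exact ⟨h1, h2⟩
  rw [h1, Set.ncard_coe_finset, Finset.card_map, Finset.card_sigma]

theorem CEL_hom (c : Fin 2 → Matrix (Fin 2) (Fin 2) ℤ) (t : ℝ) (ht : t ≠ 0) (w : Fin 2 → ℤ)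
    (i : Fin 2) : qv c (sc t w) i = ((qv c w i : ℤ) : ℝ) / t ^ 2 := by
  simp only [qv, sc, Matrix.mulVec, dotProduct, Matrix.map_apply, Fin.sum_univ_two, Int.cast_id]
  push_cast
  field_simp

theorem CEL_norm (c : Fin 2 → Matrix (Fin 2) (Fin 2) ℤ) (t κ : ℝ) (ht : 0 < t) (w : Fin 2 → ℤ)
    (h : κ ≤ ‖qv c (sc t w)‖) : κ * t ^ 2 ≤ ‖sc 1 (qv c w)‖ := by
  have h1 : sc 1 (qv c w) = t ^ 2 • qv c (sc t w) := by
    funext j
    rw [Pi.smul_apply, CEL_hom c t ht.ne' w j, smul_eq_mul]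
    simp only [sc, div_one]
    field_simp
  rw [h1, norm_smul, Real.norm_eq_abs, abs_of_pos (by positivity : (0 : ℝ) < t ^ 2), mul_comm κ]
  exact mul_le_mul_of_nonneg_left h (by positivity)

/-- integers of a residue class in an interval -/
theorem CEL_grid (W : ℕ) (hW : 0 < W) (a : ℤ) (x l : ℝ) (hl : 0 ≤ l) : ∃ G : Finset ℤ,
    (∀ k : ℤ, (W : ℤ) ∣ k - a → x ≤ k → (k : ℝ) ≤ x + l → k ∈ G) ∧
    (G.card : ℝ) ≤ l / W + 1 := by
  classical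
  have hW' : (0 : ℝ) < W := by exact_mod_cast hW
  refine ⟨(Finset.Icc ⌈(x - a) / W⌉ ⌊(x + l - a) / W⌋).image (fun t => a + W * t), ?_, ?_⟩
  · rintro k ⟨q, hq⟩ h1 h2
    rw [Finset.mem_image]
    have hk : (k : ℝ) = a + W * q := by
      have : k = a + W * q := by linarith
      rw [this]
      push_cast
      ring
    refine ⟨q, Finset.mem_Icc.mpr ⟨?_, ?_⟩, by linarith⟩
    · apply Int.ceil_le.mpr
      rw [div_le_iff₀ hW']
      linarith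
    · apply Int.le_floor.mpr
      rw [le_div_iff₀ hW']
      linarith
  · have h1 : ((Finset.Icc ⌈(x - a) / W⌉ ⌊(x + l - a) / W⌋).image
        (fun t => a + (W : ℤ) * t)).card ≤ (⌊(x + l - a) / W⌋ + 1 - ⌈(x - a) / W⌉).toNat := by
      refine Finset.card_image_le.trans ?_
      rw [Int.card_Icc]
    have h2 : (((Finset.Icc ⌈(x - a) / W⌉ ⌊(x + l - a) / W⌋).image
        (fun t => a + (W : ℤ) * t)).card : ℝ) ≤
        ((⌊(x + l - a) / W⌋ + 1 - ⌈(x - a) / W⌉).toNat : ℝ) := by exact_mod_cast h1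
    refine h2.trans ?_
    have h3 : 0 ≤ l / W + 1 := by positivity
    rcases le_total 0 (⌊(x + l - a) / W⌋ + 1 - ⌈(x - a) / W⌉) with h4 | h4
    · have h5 : (((⌊(x + l - a) / W⌋ + 1 - ⌈(x - a) / W⌉).toNat : ℤ) : ℝ)
          = ((⌊(x + l - a) / W⌋ + 1 - ⌈(x - a) / W⌉ : ℤ) : ℝ) := by
        rw [Int.toNat_of_nonneg h4]
      rw [Int.cast_natCast] at h5
      rw [h5]
      push_cast
      have h6 := Int.floor_le ((x + l - a) / W)
      have h7 := Int.le_ceil ((x - a) / W)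
      have h8 : (x + l - a) / W = (x - a) / W + l / W := by
        field_simp
        ring
      linarith
    · rw [Int.toNat_of_nonpos h4]
      simpa using h3

theorem CEL_CB (α : Matrix (Fin 2) (Fin 2) ℝ) (θ : ℝ) (hθ : 0 < θ) (W : ℕ) (hW : 0 < W)
    (M₀ : Matrix (Fin 2) (Fin 2) ℤ) (B : ℕ) : ∃ C : Finset (Matrix (Fin 2) (Fin 2) ℤ),
    (∀ M, M ∈ C ↔ M ∈ CB α θ W M₀ B) ∧ (C.card : ℝ) ≤ (θ * (B : ℝ) ^ 2 / W + 1) ^ 4 := by
  classical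
  have hgrid : ∀ i j, ∃ G : Finset ℤ, (∀ k : ℤ, (W : ℤ) ∣ k - M₀ i j →
      α i j * (B : ℝ) ^ 2 ≤ k → (k : ℝ) ≤ α i j * (B : ℝ) ^ 2 + θ * (B : ℝ) ^ 2 → k ∈ G) ∧
      (G.card : ℝ) ≤ θ * (B : ℝ) ^ 2 / W + 1 := fun i j =>
    CEL_grid W hW (M₀ i j) (α i j * (B : ℝ) ^ 2) (θ * (B : ℝ) ^ 2) (by positivity)
  choose G hG1 hG2 using hgrid
  let Pf : Finset (Fin 2 → Fin 2 → ℤ) :=
    Fintype.piFinset fun i => Fintype.piFinset fun j => G i j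
  have hsub : ∀ M : Matrix (Fin 2) (Fin 2) ℤ, M ∈ CB α θ W M₀ B → M ∈ Pf := by
    intro M hM
    have h1 : ∀ i j, M i j ∈ G i j := by
      intro i j
      apply hG1 i j _ (hM.1 i j) (hM.2 i j).1
      have := (hM.2 i j).2
      linarith
    exact Fintype.mem_piFinset.mpr fun i => Fintype.mem_piFinset.mpr fun j => h1 i j
  have hPc : Pf.card = ∏ i, ∏ j, (G i j).card := by
    simp only [Pf, Fintype.card_piFinset]
  refine ⟨Pf.filter fun M => M ∈ CB α θ W M₀ B, ?_, ?_⟩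
  · intro M
    rw [Finset.mem_filter]
    exact ⟨fun h => h.2, fun h => ⟨hsub M h, h⟩⟩
  · have h1 : (Pf.filter fun M => M ∈ CB α θ W M₀ B).card ≤ ∏ i, ∏ j, (G i j).card := by
      exact (Finset.card_filter_le _ _).trans hPc.le
    have h2 : ((Pf.filter fun M => M ∈ CB α θ W M₀ B).card : ℝ)
        ≤ ∏ i, ∏ j, ((G i j).card : ℝ) := by exact_mod_cast h1
    refine h2.trans ?_
    have h3 : (∏ i : Fin 2, ∏ j : Fin 2, ((G i j).card : ℝ))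
        ≤ ∏ i : Fin 2, ∏ j : Fin 2, (θ * (B : ℝ) ^ 2 / W + 1) := by
      apply Finset.prod_le_prod
      · intro i _
        exact Finset.prod_nonneg fun j _ => Nat.cast_nonneg _
      · intro i _
        apply Finset.prod_le_prod
        · intro j _
          exact Nat.cast_nonneg _
        · intro j _
          exact hG2 i j
    refine h3.trans (le_of_eq ?_)
    rw [Fin.prod_univ_two, Fin.prod_univ_two]
    ring

theorem CEL_fin (ξ : Fin 4 → ℝ) (τ t : ℝ) (ht : 0 < t) :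
    {x : Fin 4 → ℤ | sc t x ∈ Metric.closedBall ξ τ}.Finite := by
  have h1 : (Set.pi Set.univ fun j : Fin 4 =>
      Set.Icc ⌊t * (ξ j - τ)⌋ ⌈t * (ξ j + τ)⌉).Finite :=
    Set.Finite.pi fun j => Set.finite_Icc _ _
  apply h1.subset
  intro x hx j _
  have h2 : ‖sc t x - ξ‖ ≤ τ := by
    rw [← dist_eq_norm]
    exact hx
  have h3 : |(x j : ℝ) / t - ξ j| ≤ τ := (norm_le_pi_norm (sc t x - ξ) j).trans h2
  rw [abs_le] at h3
  have e : (x j : ℝ) = t * ((x j : ℝ) / t) := by field_simp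
  constructor
  · have h4 : t * (ξ j - τ) ≤ (x j : ℝ) := by
      rw [e]
      exact mul_le_mul_of_nonneg_left (by linarith [h3.1]) ht.le
    have h5 := (Int.floor_le (t * (ξ j - τ))).trans h4
    exact_mod_cast h5
  · have h4 : (x j : ℝ) ≤ t * (ξ j + τ) := by
      rw [e]
      exact mul_le_mul_of_nonneg_left (by linarith [h3.2]) ht.le
    have h5 := h4.trans (Int.le_ceil (t * (ξ j + τ)))
    exact_mod_cast h5

theorem CEL_kap (b : Fin 2 → Matrix (Fin 4) (Fin 4) ℤ) (m V' : ℕ) (x₀ : Fin 4 → ℤ) (hm : 0 < m)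
    (hV : 0 < V') : 0 < kap b m V' x₀ := by
  have hW : 0 < m ^ 2 * V' := by positivity
  have hW' : (0 : ℤ) < ((m ^ 2 * V' : ℕ) : ℤ) := by exact_mod_cast hW
  have hfin : {x : Fin 4 → ℤ | (∀ j, 0 ≤ x j ∧ x j < ((m ^ 2 * V' : ℕ) : ℤ)) ∧
      (∀ j, ((m * V' : ℕ) : ℤ) ∣ x j - x₀ j) ∧
      ∀ i, ((m ^ 2 * V' : ℕ) : ℤ) ∣ qv b x i - qv b x₀ i}.Finite := by
    have h1 : (Set.pi Set.univ fun _ : Fin 4 =>
        Set.Icc (0 : ℤ) ((m ^ 2 * V' : ℕ) : ℤ)).Finite := Set.Finite.pi fun j => Set.finite_Icc _ _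
    apply h1.subset
    intro x hx j _
    exact ⟨(hx.1 j).1, (hx.1 j).2.le⟩
  unfold kap
  rw [Set.ncard_pos hfin]
  · refine ⟨fun j => x₀ j % ((m ^ 2 * V' : ℕ) : ℤ), ?_, ?_, ?_⟩
    · intro j
      exact ⟨Int.emod_nonneg _ hW'.ne', Int.emod_lt_of_pos _ hW'⟩
    · intro j
      have h1 : ((m ^ 2 * V' : ℕ) : ℤ) ∣ x₀ j % ((m ^ 2 * V' : ℕ) : ℤ) - x₀ j :=
        Int.ModEq.dvd (Int.mod_modEq (x₀ j) ((m ^ 2 * V' : ℕ) : ℤ)).symm
      refine dvd_trans ?_ h1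
      exact_mod_cast (⟨m, by ring⟩ : m * V' ∣ m ^ 2 * V')
    · intro i
      have h1 : ∀ j, ((m ^ 2 * V' : ℕ) : ℤ) ∣ x₀ j % ((m ^ 2 * V' : ℕ) : ℤ) - x₀ j :=
        fun j => Int.ModEq.dvd (Int.mod_modEq (x₀ j) ((m ^ 2 * V' : ℕ) : ℤ)).symm
      set y : Fin 4 → ℤ := fun j => x₀ j % ((m ^ 2 * V' : ℕ) : ℤ) with hy
      have h2 : qv b y i - qv b x₀ i = ∑ k, ∑ l, (b i k l) *
          (y k * (y l - x₀ l) + (y k - x₀ k) * x₀ l) := by
        simp only [qv, Matrix.mulVec, dotProduct, Matrix.map_apply, Int.cast_id]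
        rw [← Finset.sum_sub_distrib]
        apply Finset.sum_congr rfl
        intro k _
        rw [Finset.mul_sum, Finset.mul_sum, ← Finset.sum_sub_distrib]
        apply Finset.sum_congr rfl
        intro l _
        ring
      rw [h2]
      apply Finset.dvd_sum
      intro k _
      apply Finset.dvd_sum
      intro l _
      apply Dvd.dvd.mul_left
      exact dvd_add (Dvd.dvd.mul_left (h1 l) _) (Dvd.dvd.mul_right (h1 k) _)

theorem CEL_eta (b : Fin 2 → Matrix (Fin 4) (Fin 4) ℤ) (c : Fin 2 → Matrix (Fin 2) (Fin 2) ℤ)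
    (M' : Matrix (Fin 2) (Fin 2) ℝ) (ξ : Fin 4 → ℝ) (ω : Fin 2 → ℝ) (hZ : Zer b c M' ξ ω)
    (hφ : qv c ω ≠ 0) (r ν : ℝ) (hr : 0 < r) (hν : 0 < ν) : ∃ η : ℝ, 0 < η ∧ η ≤ ν ∧
    (∀ (M : Matrix (Fin 2) (Fin 2) ℝ) (ω' : Fin 2 → ℝ), (∀ i j, |M i j - M' i j| ≤ η) →
      ‖ω' - ω‖ ≤ η → M *ᵥ qv c ω' ∈ Metric.ball (qv b ξ) r) ∧
    ∀ ω' : Fin 2 → ℝ, ‖ω' - ω‖ ≤ η → ‖qv c ω‖ / 2 ≤ ‖qv c ω'‖ := by
  have hc1 : Continuous fun w : Fin 2 → ℝ => qv c w := by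
    apply continuous_pi
    intro i
    simp only [qv, Matrix.mulVec, dotProduct]
    fun_prop
  have hc2 : Continuous fun p : (Fin 2 → Fin 2 → ℝ) × (Fin 2 → ℝ) =>
      (Matrix.of p.1) *ᵥ qv c p.2 := by
    apply continuous_pi
    intro i
    simp only [Matrix.mulVec, dotProduct, Matrix.of_apply]
    apply continuous_finsetSum
    intro j _
    apply Continuous.mul
    · fun_prop
    · exact (continuous_apply j).comp (hc1.comp continuous_snd)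
  obtain ⟨δ₁, hδ₁, h1⟩ := Metric.continuous_iff.mp hc2 (fun i j => M' i j, ω) r hr
  obtain ⟨δ₂, hδ₂, h2⟩ := Metric.continuous_iff.mp hc1 ω (‖qv c ω‖ / 2)
    (half_pos (norm_pos_iff.mpr hφ))
  refine ⟨min ν (min (δ₁ / 2) (δ₂ / 2)), by positivity, min_le_left _ _, ?_, ?_⟩
  · intro M ω' hM hω'
    have h3 := h1 (fun i j => M i j, ω') (by
      rw [Prod.dist_eq, max_lt_iff]
      constructor
      · refine lt_of_le_of_lt (b := δ₁ / 2) ?_ (by linarith)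
        rw [dist_pi_le_iff (by positivity)]
        intro i
        rw [dist_pi_le_iff (by positivity)]
        intro j
        rw [Real.dist_eq]
        exact (hM i j).trans ((min_le_right _ _).trans (min_le_left _ _))
      · refine lt_of_le_of_lt (b := δ₁ / 2) ?_ (by linarith)
        rw [dist_eq_norm]
        exact hω'.trans ((min_le_right _ _).trans (min_le_left _ _)))
    have h4 : qv b ξ = M' *ᵥ qv c ω := hZ
    rw [Metric.mem_ball, h4]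
    exact h3
  · intro ω' hω'
    have h3 := h2 ω' (by
      refine lt_of_le_of_lt (b := δ₂ / 2) ?_ (by linarith)
      rw [dist_eq_norm]
      exact hω'.trans ((min_le_right _ _).trans (min_le_right _ _)))
    rw [dist_eq_norm] at h3
    have h4 := norm_sub_norm_le (qv c ω) (qv c ω')
    rw [norm_sub_rev] at h4
    linarith

theorem CEL_div (x T y : ℝ) (hT : T ≠ 0) : x - T * y = T * (x / T - y) := by
  field_simp

theorem CEL_prim (b : Fin 2 → Matrix (Fin 4) (Fin 4) ℤ) (c : Fin 2 → Matrix (Fin 2) (Fin 2) ℤ)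
    (P₀ m V' : ℕ) (M₀ : Matrix (Fin 2) (Fin 2) ℤ) (x₀ : Fin 4 → ℤ) (w₀ : Fin 2 → ℤ)
    (hLD : LD b c P₀ m V' M₀ x₀ w₀) (w : Fin 2 → ℤ) (hw : Adm P₀ (m ^ 2 * V') w₀ w)
    (x : Fin 4 → ℤ) (hx : ∀ j, ((m * V' : ℕ) : ℤ) ∣ x j - x₀ j) (d : ℤ) (h1 : ∀ j, d ∣ x j)
    (h2 : ∀ j, d ∣ w j) : IsUnit d := by
  by_contra hd
  rw [Int.isUnit_iff_natAbs_eq] at hd
  obtain ⟨p, hp, hpd⟩ := Nat.exists_prime_and_dvd hd
  have hpd' : (p : ℤ) ∣ d := Int.natCast_dvd.mpr hpd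
  rcases lt_or_ge P₀ p with hlt | hle
  · exact hw.2 p hp hlt ⟨hpd'.trans (h2 0), hpd'.trans (h2 1)⟩
  · have hV := hLD.small p hp hle
    have hV1 : (p : ℤ) ∣ ((m * V' : ℕ) : ℤ) := by exact_mod_cast Dvd.dvd.mul_left hV m
    have hV2 : (p : ℤ) ∣ ((m ^ 2 * V' : ℕ) : ℤ) := by exact_mod_cast Dvd.dvd.mul_left hV (m ^ 2)
    rcases hLD.prim p hp hle with ⟨j, hj⟩ | ⟨j, hj⟩
    · apply hj
      have h3 := (hpd'.trans (h1 j))
      have h4 := hV1.trans (hx j)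
      have h5 := dvd_sub h3 h4
      rwa [sub_sub_cancel] at h5
    · apply hj
      have h3 := (hpd'.trans (h2 j))
      have h4 := hV2.trans (hw.1 j)
      have h5 := dvd_sub h3 h4
      rwa [sub_sub_cancel] at h5

theorem CEL_alg (δ A S ν₀ B8 n Z K1 K' δ' : ℝ) (hδ0 : 0 < δ) (hA : 0 < A)
    (hν : 0 < ν₀) (hB : 0 < B8) (hK : 0 < K1) (hSA : S * ν₀ ≤ (1 + δ) ^ 3 * A ^ 2)
    (hd1 : δ' ≤ δ * A) (hδ1 : δ ≤ 1 / 2) (hd2 : δ' + K' / K1 ≤ δ * S) (hZn : Z ≤ n)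
    (hn : n ≤ (1 + δ) * (ν₀ * B8))
    (hmain : (K1 * ((A - δ') * B8)) ^ 2 ≤
      (n - Z) * (K1 ^ 2 * ((S + δ') * B8) + K1 * (K' * B8))) :
    Z ≤ 7 * δ * (ν₀ * B8) := by
  have hnZ : 0 ≤ n - Z := by linarith
  have e1 : K1 ^ 2 * ((S + δ') * B8) + K1 * (K' * B8)
      = K1 ^ 2 * ((S + (δ' + K' / K1)) * B8) := by
    field_simp
    ring
  have h1 : K1 ^ 2 * B8 * ((A - δ') ^ 2 * B8) ≤
      K1 ^ 2 * B8 * ((n - Z) * (S + (δ' + K' / K1))) := by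
    rw [e1] at hmain
    calc K1 ^ 2 * B8 * ((A - δ') ^ 2 * B8) = (K1 * ((A - δ') * B8)) ^ 2 := by ring
      _ ≤ (n - Z) * (K1 ^ 2 * ((S + (δ' + K' / K1)) * B8)) := hmain
      _ = K1 ^ 2 * B8 * ((n - Z) * (S + (δ' + K' / K1))) := by ring
  have h2 : (A - δ') ^ 2 * B8 ≤ (n - Z) * (S + (δ' + K' / K1)) :=
    le_of_mul_le_mul_left h1 (by positivity)
  have h3 : (n - Z) * (S + (δ' + K' / K1)) ≤ (n - Z) * ((1 + δ) * S) :=
    mul_le_mul_of_nonneg_left (by linarith) hnZ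
  have h4 : ((1 - δ) * A) ^ 2 ≤ (A - δ') ^ 2 := by
    apply pow_le_pow_left₀
    · exact mul_nonneg (by linarith) hA.le
    · linarith
  have h5 : ((1 - δ) * A) ^ 2 * B8 ≤ (n - Z) * ((1 + δ) * S) :=
    (mul_le_mul_of_nonneg_right h4 hB.le).trans (h2.trans h3)
  have h6 : ((1 - δ) * A) ^ 2 * B8 * ν₀ ≤ (n - Z) * ((1 + δ) * S) * ν₀ :=
    mul_le_mul_of_nonneg_right h5 hν.le
  have h7 : (n - Z) * ((1 + δ) * S) * ν₀ ≤ (n - Z) * ((1 + δ) ^ 4 * A ^ 2) := by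
    have : (n - Z) * (1 + δ) * (S * ν₀) ≤ (n - Z) * (1 + δ) * ((1 + δ) ^ 3 * A ^ 2) :=
      mul_le_mul_of_nonneg_left hSA (mul_nonneg hnZ (by linarith))
    calc (n - Z) * ((1 + δ) * S) * ν₀ = (n - Z) * (1 + δ) * (S * ν₀) := by ring
      _ ≤ (n - Z) * (1 + δ) * ((1 + δ) ^ 3 * A ^ 2) := this
      _ = (n - Z) * ((1 + δ) ^ 4 * A ^ 2) := by ring
  have h8 : A ^ 2 * ((1 - δ) ^ 2 * (ν₀ * B8)) ≤ A ^ 2 * ((n - Z) * (1 + δ) ^ 4) := by
    calc A ^ 2 * ((1 - δ) ^ 2 * (ν₀ * B8)) = ((1 - δ) * A) ^ 2 * B8 * ν₀ := by ring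
      _ ≤ (n - Z) * ((1 + δ) ^ 4 * A ^ 2) := h6.trans h7
      _ = A ^ 2 * ((n - Z) * (1 + δ) ^ 4) := by ring
  have h9 : (1 - δ) ^ 2 * (ν₀ * B8) ≤ (n - Z) * (1 + δ) ^ 4 :=
    le_of_mul_le_mul_left h8 (by positivity)
  have h10 : (1 - 6 * δ) * (1 + δ) ^ 4 ≤ (1 - δ) ^ 2 := by
    have e2 : (1 - δ) ^ 2 - (1 - 6 * δ) * (1 + δ) ^ 4
        = 19 * δ ^ 2 + 32 * δ ^ 3 + 23 * δ ^ 4 + 6 * δ ^ 5 := by ring
    have : 0 ≤ 19 * δ ^ 2 + 32 * δ ^ 3 + 23 * δ ^ 4 + 6 * δ ^ 5 := by positivity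
    linarith
  have hN : 0 < ν₀ * B8 := mul_pos hν hB
  have h11 : (1 + δ) ^ 4 * ((1 - 6 * δ) * (ν₀ * B8)) ≤ (1 + δ) ^ 4 * (n - Z) := by
    have := mul_le_mul_of_nonneg_right h10 hN.le
    linarith
  have h12 : (1 - 6 * δ) * (ν₀ * B8) ≤ n - Z := le_of_mul_le_mul_left h11 (by positivity)
  linarith

theorem p_CEL (hCOI : Stmt_COI) (hCHA : Stmt_CHA) (hFMO : Stmt_FMO) (hSMO : Stmt_SMO)
    (hDGO : Stmt_DGO) (hSEQ : Stmt_SEQ) (hCSQ : Stmt_CSQ) : Stmt_CEL := by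
  classical
  intro b c hb hc M' ξ ω hZer hGen hω ν ε L hν hε
  obtain ⟨δ, hδ0, hδ1, hδ2⟩ : ∃ δ : ℝ, 0 < δ ∧ δ ≤ 1 / 2 ∧ L * (7 * δ) ≤ ε := by
    refine ⟨min (1 / 2) (ε / (7 * (L + 1))), by positivity, min_le_left _ _, ?_⟩
    have h1 := min_le_right (1 / 2 : ℝ) (ε / (7 * (L + 1)))
    have h2 : (L : ℝ) * (7 * min (1 / 2) (ε / (7 * (L + 1)))) ≤ L * (7 * (ε / (7 * (L + 1)))) :=
      mul_le_mul_of_nonneg_left (by linarith) (Nat.cast_nonneg L)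
    refine h2.trans ?_
    have h3 : (L : ℝ) * (7 * (ε / (7 * (L + 1)))) = ε * (L / (L + 1)) := by
      field_simp
    rw [h3]
    have h4 : (L : ℝ) / (L + 1) ≤ 1 := by
      rw [div_le_one (by positivity)]
      linarith
    nlinarith
  obtain ⟨τ₀, hτ₀, hD⟩ := hDGO b c hb hc ξ hGen
  obtain ⟨P₁, hS⟩ := hSMO b c hb hc
  obtain ⟨D, D', s₀, s₁, r, hCht, hs, hDτ⟩ := hCHA b ξ hGen.1 (min τ₀ ν) (lt_min hτ₀ hν) δ hδ0
  have hφ : qv c ω ≠ 0 := (hCOI c).1 ℝ ω (by exact_mod_cast hc) hω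
  have hκ : 0 < ‖qv c ω‖ / 2 := half_pos (norm_pos_iff.mpr hφ)
  obtain ⟨η, hη0, hην, hη1, hη2⟩ := CEL_eta b c M' ξ ω hZer hφ r ν hCht.r0 hν
  refine ⟨η, max P₁ (max (res c).natAbs (⌈20 / δ⌉₊ + 1)), hη0, ?_⟩
  intro P₀ m V' M₀ x₀ w₀ hP hLD α θ hθ hα
  have hP1 : P₁ ≤ P₀ := (le_max_left _ _).trans hP
  have hP2 : (res c).natAbs ≤ P₀ := ((le_max_left _ _).trans (le_max_right _ _)).trans hP
  have hP3 : ⌈20 / δ⌉₊ + 1 ≤ P₀ := ((le_max_right _ _).trans (le_max_right _ _)).trans hP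
  have hres : |res c| ≤ (P₀ : ℤ) := by
    rw [Int.abs_eq_natAbs]
    exact_mod_cast hP2
  have hP0pos : (0 : ℝ) < P₀ := by
    have : 0 < P₀ := by omega
    exact_mod_cast this
  have h20 : 20 / (P₀ : ℝ) ≤ δ := by
    rw [div_le_iff₀ hP0pos]
    have h1 : 20 / δ ≤ (P₀ : ℝ) := (Nat.le_ceil _).trans (by
      have : ⌈20 / δ⌉₊ ≤ P₀ := by omega
      exact_mod_cast this)
    rw [div_le_iff₀ hδ0] at h1
    linarith
  have hm := hLD.m0
  have hV := hLD.V0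
  have hW : 0 < m ^ 2 * V' := by positivity
  have hWr : (0 : ℝ) < ((m ^ 2 * V' : ℕ) : ℝ) := by exact_mod_cast hW
  have hkap : (0 : ℝ) < (kap b m V' x₀ : ℝ) := by exact_mod_cast CEL_kap b m V' x₀ hm hV
  have hs0 := hCht.s0
  have hs1 : 0 < s₁ := hs0.trans_le hCht.s1
  obtain ⟨K', hK'0, hK'⟩ := hD P₀ m V' M₀ x₀ w₀ θ (‖qv c ω‖ / 2) α hLD hres hθ hκ
  obtain ⟨A, hAdef⟩ : ∃ A : ℝ, A = (kap b m V' x₀ : ℝ) * s₀ * θ ^ 4 /
      ((m ^ 2 * V' : ℕ) : ℝ) ^ 6 := ⟨_, rfl⟩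
  obtain ⟨S, hSdef⟩ : ∃ S : ℝ, S = (kap b m V' x₀ : ℝ) ^ 2 * s₁ ^ 2 * (1 + 20 / (P₀ : ℝ)) *
      θ ^ 4 / ((m ^ 2 * V' : ℕ) : ℝ) ^ 8 := ⟨_, rfl⟩
  have hA0 : 0 < A := by
    rw [hAdef]
    positivity
  have hS0 : 0 < S := by
    rw [hSdef]
    positivity
  have hν₀ : 0 < (θ / ((m ^ 2 * V' : ℕ) : ℝ)) ^ 4 := by positivity
  have hSA : S * (θ / ((m ^ 2 * V' : ℕ) : ℝ)) ^ 4 ≤ (1 + δ) ^ 3 * A ^ 2 := by
    have e1 : S * (θ / ((m ^ 2 * V' : ℕ) : ℝ)) ^ 4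
        = (s₁ ^ 2 * (1 + 20 / (P₀ : ℝ))) *
          ((kap b m V' x₀ : ℝ) ^ 2 * θ ^ 8 / ((m ^ 2 * V' : ℕ) : ℝ) ^ 12) := by
      rw [hSdef]
      field_simp
    have e2 : (1 + δ) ^ 3 * A ^ 2 = ((1 + δ) ^ 3 * s₀ ^ 2) *
          ((kap b m V' x₀ : ℝ) ^ 2 * θ ^ 8 / ((m ^ 2 * V' : ℕ) : ℝ) ^ 12) := by
      rw [hAdef]
      field_simp
    rw [e1, e2]
    apply mul_le_mul_of_nonneg_right _ (by positivity)
    have h1 : s₁ ^ 2 ≤ ((1 + δ) * s₀) ^ 2 := pow_le_pow_left₀ hs1.le hs 2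
    calc s₁ ^ 2 * (1 + 20 / (P₀ : ℝ)) ≤ ((1 + δ) * s₀) ^ 2 * (1 + δ) :=
          mul_le_mul h1 (by linarith) (by positivity) (by positivity)
      _ = (1 + δ) ^ 3 * s₀ ^ 2 := by ring
  obtain ⟨δ', hδ'0, hδ'1, hδ'2⟩ : ∃ δ' : ℝ, 0 < δ' ∧ δ' ≤ δ * A ∧ δ' ≤ δ * S / 2 :=
    ⟨min (δ * A) (δ * S / 2), by positivity, min_le_left _ _, min_le_right _ _⟩
  obtain ⟨K₁, hK₁0, hK₁⟩ : ∃ K₁ : ℕ, 0 < K₁ ∧ K' / (K₁ : ℝ) ≤ δ * S / 2 := by
    obtain ⟨K₁, hK₁⟩ := exists_nat_gt (K' / (δ * S / 2))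
    have hpos : 0 < K' / (δ * S / 2) := by positivity
    have hKpos : (0 : ℝ) < K₁ := hpos.trans hK₁
    refine ⟨K₁, by exact_mod_cast hKpos, ?_⟩
    rw [div_lt_iff₀ (by positivity)] at hK₁
    rw [div_le_iff₀ hKpos]
    linarith
  have hK₁r : (0 : ℝ) < K₁ := by exact_mod_cast hK₁0
  have hWp : ∀ p : ℕ, p.Prime → p ∣ m ^ 2 * V' → p ≤ P₀ := by
    intro p hp hpW
    apply hLD.only p hp
    rcases hp.dvd_mul.mp hpW with h1 | h1
    · exact Dvd.dvd.mul_right (hp.dvd_of_dvd_pow h1) _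
    · exact Dvd.dvd.mul_left h1 _
  obtain ⟨T, hTcard, hT, hTw⟩ := hSEQ c hc P₀ (m ^ 2 * V') w₀ ω η (L * K₁) hW hWp hω hη0
  obtain ⟨e⟩ : Nonempty (Fin L × Fin K₁ ↪ T) := by
    apply Function.Embedding.nonempty_of_card_le
    simpa using hTcard
  have htex : ∀ w : Fin 2 → ℤ, ∃ t : ℝ, 1 ≤ t ∧ (w ∈ T → ‖sc t w - ω‖ ≤ η) := by
    intro w
    by_cases hw : w ∈ T
    · obtain ⟨-, -, t, ht1, ht2⟩ := hT w hw
      exact ⟨t, ht1, fun _ => ht2⟩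
    · exact ⟨1, le_refl _, fun h => absurd h hw⟩
  choose t ht1 ht2 using htex
  have ht0 : ∀ w, 0 < t w := fun w => lt_of_lt_of_le one_pos (ht1 w)
  have hball : ∀ w ∈ T, ∀ M : Matrix (Fin 2) (Fin 2) ℝ,
      (∀ i j, α i j ≤ M i j ∧ M i j ≤ α i j + θ) →
      M *ᵥ qv c (sc (t w) w) ∈ Metric.ball (qv b ξ) r := by
    intro w hw M hM
    apply hη1 M _ _ (ht2 w hw)
    intro i j
    have h1 := hα i j
    have h2 := hM i j
    rw [abs_le] at *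
    have h3 := abs_le.mp h1.2
    constructor <;> linarith [h1.1.1, h1.1.2, h3.1, h3.2, h2.1, h2.2]
  -- eventual bounds
  have E1 : ∀ᶠ B : ℕ in Filter.atTop, ∀ w ∈ T, (A - δ') * (B : ℝ) ^ 8 ≤
      (Set.ncard {z : Matrix (Fin 2) (Fin 2) ℤ × (Fin 4 → ℤ) |
        z.1 ∈ CB α θ (m ^ 2 * V') M₀ B ∧
        z.2 ∈ Rw b c (m * V') x₀ D (t w * B) w z.1} : ℝ) := by
    rw [Filter.eventually_all_finset]
    intro w hw
    rw [hAdef]
    exact Filter.eventually_atTop.mpr (hFMO b c hc ξ D D' s₀ s₁ r hCht P₀ m V' M₀ x₀ w₀ w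
      (t w) θ α hLD hres (hT w hw).1 (ht0 w) hθ (hball w hw) δ' hδ'0)
  have E2 : ∀ᶠ B : ℕ in Filter.atTop, ∀ w ∈ T, ∀ w' ∈ T, w ≠ w' →
      (Set.ncard {z : Matrix (Fin 2) (Fin 2) ℤ × (Fin 4 → ℤ) × (Fin 4 → ℤ) |
          z.1 ∈ CB α θ (m ^ 2 * V') M₀ B ∧ z.2.1 ∈ Rw b c (m * V') x₀ D (t w * B) w z.1 ∧
          z.2.2 ∈ Rw b c (m * V') x₀ D (t w' * B) w' z.1} : ℝ) ≤ (S + δ') * (B : ℝ) ^ 8 := by
    rw [Filter.eventually_all_finset]
    intro w hw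
    rw [Filter.eventually_all_finset]
    intro w' hw'
    by_cases hww : w = w'
    · exact Filter.Eventually.of_forall fun B h => absurd hww h
    · rw [hSdef]
      have h1 := Filter.eventually_atTop.mpr (hS ξ D D' s₀ s₁ r hCht P₀ m V' M₀ x₀ w₀ w w'
        (t w) (t w') θ α hP1 hLD (hT w hw).1 (hT w' hw').1 (hTw w hw w' hw' hww) (ht0 w)
        (ht0 w') hθ δ' hδ'0)
      exact h1.mono fun B h _ => h
  have E3 : ∀ᶠ B : ℕ in Filter.atTop, ∀ w ∈ T,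
      (Set.ncard {z : Matrix (Fin 2) (Fin 2) ℤ × (Fin 4 → ℤ) × (Fin 4 → ℤ) |
          z.1 ∈ CB α θ (m ^ 2 * V') M₀ B ∧
          z.2.1 ∈ Rw b c (m * V') x₀ (Metric.closedBall ξ τ₀) (t w * B) w z.1 ∧
          z.2.2 ∈ Rw b c (m * V') x₀ (Metric.closedBall ξ τ₀) (t w * B) w z.1} : ℝ) ≤
        K' * (B : ℝ) ^ 8 := by
    rw [Filter.eventually_all_finset]
    intro w hw
    exact Filter.eventually_atTop.mpr (hK' w (t w) (hT w hw).1 (ht1 w)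
      (CEL_norm c (t w) _ (ht0 w) w (hη2 _ (ht2 w hw))))
  have E4 : ∀ᶠ B : ℕ in Filter.atTop, 0 < B := Filter.eventually_gt_atTop 0
  have E5 : ∀ᶠ B : ℕ in Filter.atTop, (θ * (B : ℝ) ^ 2 / ((m ^ 2 * V' : ℕ) : ℝ) + 1) ^ 4 ≤
      (1 + δ) * (θ * (B : ℝ) ^ 2 / ((m ^ 2 * V' : ℕ) : ℝ)) ^ 4 := by
    filter_upwards [Filter.eventually_ge_atTop
      (⌈15 / δ * ((m ^ 2 * V' : ℕ) : ℝ) / θ⌉₊ + 1)] with B hB
    have hB1 : (1 : ℝ) ≤ B := by
      have : 1 ≤ B := by omega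
      exact_mod_cast this
    have hB2 : 15 / δ * ((m ^ 2 * V' : ℕ) : ℝ) / θ ≤ (B : ℝ) := (Nat.le_ceil _).trans (by
      have : ⌈15 / δ * ((m ^ 2 * V' : ℕ) : ℝ) / θ⌉₊ ≤ B := by omega
      exact_mod_cast this)
    have hB3 : 15 / δ * ((m ^ 2 * V' : ℕ) : ℝ) / θ ≤ (B : ℝ) ^ 2 := by nlinarith
    obtain ⟨y, hy⟩ : ∃ y : ℝ, y = θ * (B : ℝ) ^ 2 / ((m ^ 2 * V' : ℕ) : ℝ) := ⟨_, rfl⟩
    rw [← hy]
    have hy1 : 15 / δ ≤ y := by
      rw [hy, le_div_iff₀ hWr]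
      rw [div_le_iff₀ hθ] at hB3
      linarith
    have hy2 : 15 ≤ δ * y := by
      rw [div_le_iff₀ hδ0] at hy1
      linarith
    have hy3 : 1 ≤ y := by nlinarith
    have h1 : (y + 1) ^ 4 ≤ y ^ 4 + 15 * y ^ 3 := by nlinarith [pow_le_pow_left₀ zero_le_one hy3 2, pow_le_pow_left₀ zero_le_one hy3 3, mul_nonneg (sub_nonneg.mpr hy3) (sub_nonneg.mpr hy3), pow_pos (lt_of_lt_of_le one_pos hy3) 3, pow_pos (lt_of_lt_of_le one_pos hy3) 2]
    have h2 : 15 * y ^ 3 ≤ δ * y * y ^ 3 := mul_le_mul_of_nonneg_right hy2 (by positivity)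
    calc (y + 1) ^ 4 ≤ y ^ 4 + 15 * y ^ 3 := h1
      _ ≤ y ^ 4 + δ * y * y ^ 3 := by linarith
      _ = (1 + δ) * y ^ 4 := by ring
  obtain ⟨B₀, hB₀⟩ := Filter.eventually_atTop.mp (E1.and (E2.and (E3.and (E4.and E5))))
  refine ⟨T.sup fun w => Finset.univ.sup fun j => (w j).natAbs, B₀, ?_⟩
  intro B hB
  obtain ⟨F1, F2, F3, F4, F5⟩ := hB₀ B hB
  have hBr : (0 : ℝ) < B := by exact_mod_cast F4
  obtain ⟨C, hC1, hC2⟩ := CEL_CB α θ hθ (m ^ 2 * V') hW M₀ B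
  have hRb : ∀ w M, (Rw b c (m * V') x₀ (Metric.closedBall ξ τ₀) (t w * B) w M).Finite := by
    intro w M
    apply (CEL_fin ξ τ₀ (t w * B) (mul_pos (ht0 w) hBr)).subset
    exact fun x hx => hx.2.1
  have hDb : D ⊆ Metric.closedBall ξ τ₀ :=
    hDτ.trans (Metric.closedBall_subset_closedBall (min_le_left _ _))
  have hRsub : ∀ w M, Rw b c (m * V') x₀ D (t w * B) w M ⊆
      Rw b c (m * V') x₀ (Metric.closedBall ξ τ₀) (t w * B) w M := by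
    intro w M x hx
    exact ⟨hx.1, hDb hx.2.1, hx.2.2⟩
  have hRf : ∀ w M, (Rw b c (m * V') x₀ D (t w * B) w M).Finite := fun w M =>
    (hRb w M).subset (hRsub w M)
  obtain ⟨F, hFmem⟩ : ∃ F : (Fin 2 → ℤ) → Matrix (Fin 2) (Fin 2) ℤ → Finset (Fin 4 → ℤ),
      ∀ w M x, x ∈ F w M ↔ x ∈ Rw b c (m * V') x₀ D (t w * B) w M :=
    ⟨fun w M => (hRf w M).toFinset, fun w M x => (hRf w M).mem_toFinset⟩
  obtain ⟨G, hGmem⟩ : ∃ G : (Fin 2 → ℤ) → Matrix (Fin 2) (Fin 2) ℤ → Finset (Fin 4 → ℤ),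
      ∀ w M x, x ∈ G w M ↔ x ∈ Rw b c (m * V') x₀ (Metric.closedBall ξ τ₀) (t w * B) w M :=
    ⟨fun w M => (hRb w M).toFinset, fun w M x => (hRb w M).mem_toFinset⟩
  have hFG : ∀ w M, (F w M).card ≤ (G w M).card := by
    intro w M
    apply Finset.card_le_card
    intro x hx
    exact (hGmem w M x).mpr (hRsub w M ((hFmem w M x).mp hx))
  have hB8 : (0 : ℝ) < (B : ℝ) ^ 8 := by positivity
  have hsum1 : ∀ w ∈ T, (A - δ') * (B : ℝ) ^ 8 ≤ ∑ M ∈ C, ((F w M).card : ℝ) := by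
    intro w hw
    have h1 := F1 w hw
    rw [CEL_pairs C (F w) _ (fun z => by
      rw [hC1, hFmem]
      rfl)] at h1
    push_cast at h1
    exact h1
  have hsum2 : ∀ w ∈ T, ∀ w' ∈ T, w ≠ w' →
      ∑ M ∈ C, ((F w M).card : ℝ) * ((F w' M).card : ℝ) ≤ (S + δ') * (B : ℝ) ^ 8 := by
    intro w hw w' hw' hne
    have h1 := F2 w hw w' hw' hne
    rw [CEL_pairs C (fun M => F w M ×ˢ F w' M) _ (fun z => by
      rw [hC1, Finset.mem_product, hFmem, hFmem]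
      rfl)] at h1
    simp only [Finset.card_product] at h1
    push_cast at h1
    exact h1
  have hsum3 : ∀ w ∈ T, ∑ M ∈ C, ((F w M).card : ℝ) ^ 2 ≤ K' * (B : ℝ) ^ 8 := by
    intro w hw
    have h1 := F3 w hw
    rw [CEL_pairs C (fun M => G w M ×ˢ G w M) _ (fun z => by
      rw [hC1, Finset.mem_product, hGmem, hGmem]
      rfl)] at h1
    simp only [Finset.card_product] at h1
    push_cast at h1
    refine (Finset.sum_le_sum fun M _ => ?_).trans h1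
    have h2 : ((F w M).card : ℝ) ≤ (G w M).card := by exact_mod_cast hFG w M
    rw [sq]
    exact mul_le_mul h2 h2 (Nat.cast_nonneg _) (Nat.cast_nonneg _)
  have hcardC : (C.card : ℝ) ≤ (1 + δ) * ((θ / ((m ^ 2 * V' : ℕ) : ℝ)) ^ 4 * (B : ℝ) ^ 8) := by
    refine hC2.trans (F5.trans (le_of_eq ?_))
    field_simp
  -- the groups
  have hinj : ∀ l : Fin L, Function.Injective fun k : Fin K₁ => ((e (l, k) : T) : Fin 2 → ℤ) := by
    intro l k k' h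
    have h1 := e.injective (Subtype.ext h)
    exact (Prod.mk.inj h1).2
  let Tl : Fin L → Finset (Fin 2 → ℤ) := fun l =>
    (Finset.univ : Finset (Fin K₁)).map ⟨fun k => ((e (l, k) : T) : Fin 2 → ℤ), hinj l⟩
  have hTl : ∀ l, ∀ w ∈ Tl l, w ∈ T := by
    intro l w hw
    obtain ⟨k, -, rfl⟩ := Finset.mem_map.mp hw
    exact (e (l, k)).2
  have hTlc : ∀ l, (Tl l).card = K₁ := by
    intro l
    rw [Finset.card_map, Finset.card_univ, Fintype.card_fin]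
  let Z : Fin L → Finset (Matrix (Fin 2) (Fin 2) ℤ) := fun l =>
    C.filter fun M => ∀ w ∈ Tl l, F w M = ∅
  have hZ : ∀ l, ((Z l).card : ℝ) ≤
      7 * δ * ((θ / ((m ^ 2 * V' : ℕ) : ℝ)) ^ 4 * (B : ℝ) ^ 8) := by
    intro l
    have hZC : Z l ⊆ C := Finset.filter_subset _ _
    have h1 := hCSQ _ _ C (Tl l) (fun w M => ((F w M).card : ℝ)) ((A - δ') * (B : ℝ) ^ 8)
      ((S + δ') * (B : ℝ) ^ 8) (K' * (B : ℝ) ^ 8) (fun w _ M _ => Nat.cast_nonneg _)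
      (mul_nonneg (by nlinarith) hB8.le) (fun w hw => hsum1 w (hTl l w hw))
      (fun w hw w' hw' hne => hsum2 w (hTl l w hw) w' (hTl l w' hw') hne)
      (fun w hw => hsum3 w (hTl l w hw)) (mul_nonneg (by linarith) hB8.le)
      (mul_nonneg hK'0.le hB8.le) (Z l) hZC (fun M hM w hw => by
        rw [(Finset.mem_filter.mp hM).2 w hw]
        simp)
    rw [hTlc] at h1
    exact CEL_alg δ A S _ ((B : ℝ) ^ 8) C.card (Z l).card K₁ K' δ' hδ0 hA0 hν₀ hB8 hK₁r hSA hδ'1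
      hδ1 (by linarith) (by exact_mod_cast Finset.card_le_card hZC) hcardC h1
  -- the exceptional set
  have hsub : {M | M ∈ CB α θ (m ^ 2 * V') M₀ B ∧
      ¬ Sol b c (m * V') (m ^ 2 * V') x₀ w₀ ξ ω ν L
        (T.sup fun w => Finset.univ.sup fun j => (w j).natAbs) B M} ⊆
      ↑((Finset.univ : Finset (Fin L)).biUnion Z) := by
    rintro M ⟨hM1, hM2⟩
    by_contra hcon
    apply hM2
    have hne : ∀ l : Fin L, ∃ (k : Fin K₁) (x : Fin 4 → ℤ), x ∈ F ((e (l, k) : T) : Fin 2 → ℤ) M := by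
      intro l
      by_contra hno
      apply hcon
      rw [Finset.mem_coe, Finset.mem_biUnion]
      refine ⟨l, Finset.mem_univ _, Finset.mem_filter.mpr ⟨(hC1 M).mpr hM1, ?_⟩⟩
      intro w hw
      obtain ⟨k, -, rfl⟩ := Finset.mem_map.mp hw
      rw [Finset.eq_empty_iff_forall_notMem]
      intro x hx
      exact hno ⟨k, x, hx⟩
    choose k x hx using hne
    have hginj : Function.Injective fun l : Fin L =>
        ((x l, ((e (l, k l) : T) : Fin 2 → ℤ)) : (Fin 4 → ℤ) × (Fin 2 → ℤ)) := by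
      intro l l' h
      have h1 := (Prod.mk.inj h).2
      have h2 := e.injective (Subtype.ext h1)
      exact (Prod.mk.inj h2).1
    refine ⟨(Finset.univ : Finset (Fin L)).map ⟨_, hginj⟩, ?_, ?_⟩
    · rw [Finset.card_map, Finset.card_univ, Fintype.card_fin]
    · intro z hz
      obtain ⟨l, -, rfl⟩ := Finset.mem_map.mp hz
      have hwT : ((e (l, k l) : T) : Fin 2 → ℤ) ∈ T := (e (l, k l)).2
      have hR := (hFmem _ M (x l)).mp (hx l)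
      have hTl' := hT _ hwT
      have htB : 0 < t ((e (l, k l) : T) : Fin 2 → ℤ) * B := mul_pos (ht0 _) hBr
      refine ⟨hR.2.2, hR.1, hTl'.1.1, hTl'.2.1, ?_, ?_, t ((e (l, k l) : T) : Fin 2 → ℤ),
        ht0 _, ?_, ?_⟩
      · intro j
        have h1 : (((e (l, k l) : T) : Fin 2 → ℤ) j).natAbs ≤
            Finset.univ.sup fun j => (((e (l, k l) : T) : Fin 2 → ℤ) j).natAbs :=
          Finset.le_sup (f := fun j => (((e (l, k l) : T) : Fin 2 → ℤ) j).natAbs)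
            (Finset.mem_univ j)
        have h2 : (Finset.univ.sup fun j => (((e (l, k l) : T) : Fin 2 → ℤ) j).natAbs) ≤
            T.sup fun w => Finset.univ.sup fun j => (w j).natAbs :=
          Finset.le_sup (f := fun w : Fin 2 → ℤ => Finset.univ.sup fun j => (w j).natAbs) hwT
        show |((e (l, k l) : T) : Fin 2 → ℤ) j| ≤ _
        rw [Int.abs_eq_natAbs]
        exact_mod_cast h1.trans h2
      · intro d h1 h2
        exact CEL_prim b c P₀ m V' M₀ x₀ w₀ hLD _ hTl'.1 (x l) hR.1 d h1 h2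
      · intro j
        have h1 : ‖sc (t ((e (l, k l) : T) : Fin 2 → ℤ) * B) (x l) - ξ‖ ≤ ν := by
          rw [← dist_eq_norm]
          have := hDτ hR.2.1
          exact (Metric.mem_closedBall.mp this).trans (min_le_right _ _)
        have h2 : |(x l j : ℝ) / (t ((e (l, k l) : T) : Fin 2 → ℤ) * B) - ξ j| ≤ ν :=
          (norm_le_pi_norm _ j).trans h1
        show |(x l j : ℝ) - t ((e (l, k l) : T) : Fin 2 → ℤ) * B * ξ j| ≤
          t ((e (l, k l) : T) : Fin 2 → ℤ) * B * ν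
        have e1 : (x l j : ℝ) - t ((e (l, k l) : T) : Fin 2 → ℤ) * B * ξ j
            = (t ((e (l, k l) : T) : Fin 2 → ℤ) * B) *
              ((x l j : ℝ) / (t ((e (l, k l) : T) : Fin 2 → ℤ) * B) - ξ j) :=
          CEL_div _ _ _ htB.ne'
        rw [e1, abs_mul, abs_of_pos htB]
        exact mul_le_mul_of_nonneg_left h2 htB.le
      · intro j
        have h1 := (ht2 _ hwT).trans hην
        have h2 : |(((e (l, k l) : T) : Fin 2 → ℤ) j : ℝ) / t ((e (l, k l) : T) : Fin 2 → ℤ)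
            - ω j| ≤ ν := (norm_le_pi_norm _ j).trans h1
        show |(((e (l, k l) : T) : Fin 2 → ℤ) j : ℝ) - t ((e (l, k l) : T) : Fin 2 → ℤ) * ω j| ≤
          t ((e (l, k l) : T) : Fin 2 → ℤ) * ν
        have ht := ht0 ((e (l, k l) : T) : Fin 2 → ℤ)
        have e1 : (((e (l, k l) : T) : Fin 2 → ℤ) j : ℝ)
              - t ((e (l, k l) : T) : Fin 2 → ℤ) * ω j
            = t ((e (l, k l) : T) : Fin 2 → ℤ) *
              ((((e (l, k l) : T) : Fin 2 → ℤ) j : ℝ) / t ((e (l, k l) : T) : Fin 2 → ℤ)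
                - ω j) := CEL_div _ _ _ ht.ne'
        rw [e1, abs_mul, abs_of_pos ht]
        exact mul_le_mul_of_nonneg_left h2 ht.le
  have hcard1 : Set.ncard {M | M ∈ CB α θ (m ^ 2 * V') M₀ B ∧
      ¬ Sol b c (m * V') (m ^ 2 * V') x₀ w₀ ξ ω ν L
        (T.sup fun w => Finset.univ.sup fun j => (w j).natAbs) B M} ≤ ∑ l : Fin L, (Z l).card := by
    refine (Set.ncard_le_ncard hsub (Finset.finite_toSet _)).trans ?_
    rw [Set.ncard_coe_finset]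
    exact Finset.card_biUnion_le
  have hcard2 : (Set.ncard {M | M ∈ CB α θ (m ^ 2 * V') M₀ B ∧
      ¬ Sol b c (m * V') (m ^ 2 * V') x₀ w₀ ξ ω ν L
        (T.sup fun w => Finset.univ.sup fun j => (w j).natAbs) B M} : ℝ) ≤
      ∑ l : Fin L, ((Z l).card : ℝ) := by exact_mod_cast hcard1
  refine hcard2.trans ((Finset.sum_le_sum fun l _ => hZ l).trans ?_)
  rw [Finset.sum_const, Finset.card_univ, Fintype.card_fin, nsmul_eq_mul]
  have e1 : (θ * (B : ℝ) ^ 2 / ((m ^ 2 * V' : ℕ) : ℝ)) ^ 4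
      = (θ / ((m ^ 2 * V' : ℕ) : ℝ)) ^ 4 * (B : ℝ) ^ 8 := by
    field_simp
  rw [e1]
  calc (L : ℝ) * (7 * δ * ((θ / ((m ^ 2 * V' : ℕ) : ℝ)) ^ 4 * (B : ℝ) ^ 8))
      = (L * (7 * δ)) * ((θ / ((m ^ 2 * V' : ℕ) : ℝ)) ^ 4 * (B : ℝ) ^ 8) := by ring
    _ ≤ ε * ((θ / ((m ^ 2 * V' : ℕ) : ℝ)) ^ 4 * (B : ℝ) ^ 8) :=
        mul_le_mul_of_nonneg_right hδ2 (by positivity)

end Pool.GLU
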