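import Pool.Agent.Work.MP_9fb703_gl.Interface

/-! Block CHA of THEOREM GLUE: charts (helper41). -/

set_option autoImplicit false

namespace Pool.GLU

open Matrix MeasureTheory

theorem CHA_cyl (S : Set (Fin 2 → ℝ)) (hS : MeasurableSet S) (I : Fin 2 → Set ℝ)
    (hI : ∀ i, MeasurableSet (I i)) :
    volume {y : Fin 4 → ℝ | (fun i : Fin 2 => y (Fin.castAdd 2 i)) ∈ S ∧
      ∀ i : Fin 2, y (Fin.natAdd 2 i) ∈ I i} = volume S * (volume (I 0) * volume (I 1)) := by
  let e0 : Fin 2 ⊕ Fin 2 ≃ Fin 4 := finSumFinEquiv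
  let e1 : ((Fin 2 ⊕ Fin 2) → ℝ) ≃ᵐ (Fin 4 → ℝ) :=
    MeasurableEquiv.piCongrLeft (fun _ : Fin 4 => ℝ) e0
  let e2 : ((Fin 2 ⊕ Fin 2) → ℝ) ≃ᵐ (Fin 2 → ℝ) × (Fin 2 → ℝ) :=
    MeasurableEquiv.sumPiEquivProdPi (fun _ : Fin 2 ⊕ Fin 2 => ℝ)
  have h1 : MeasurePreserving e1 volume volume :=
    volume_measurePreserving_piCongrLeft (fun _ : Fin 4 => ℝ) e0
  have h2 : MeasurePreserving e2 volume volume :=
    volume_measurePreserving_sumPiEquivProdPi (fun _ : Fin 2 ⊕ Fin 2 => ℝ)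
  have h3 : MeasurePreserving (e1.symm.trans e2) volume volume := (h1.symm e1).trans h2
  have h4 : {y : Fin 4 → ℝ | (fun i : Fin 2 => y (Fin.castAdd 2 i)) ∈ S ∧
      ∀ i : Fin 2, y (Fin.natAdd 2 i) ∈ I i}
      = (e1.symm.trans e2) ⁻¹' (S ×ˢ (Set.univ.pi I)) := by
    ext y
    simp only [Set.mem_ofPred_eq, Set.mem_preimage, Set.mem_prod, Set.mem_univ_pi]
    rfl
  rw [h4, h3.measure_preimage ((hS.prod (MeasurableSet.univ_pi hI)).nullMeasurableSet),
    Measure.volume_eq_prod, Measure.prod_prod, volume_pi_pi, Fin.prod_univ_two]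

theorem CHA_der (A : Matrix (Fin 4) (Fin 4) ℝ) (x : Fin 4 → ℝ) :
    HasFDerivAt (fun y : Fin 4 → ℝ => y ⬝ᵥ (A *ᵥ y))
      (∑ j, ((A + Aᵀ) *ᵥ x) j • (ContinuousLinearMap.proj j : (Fin 4 → ℝ) →L[ℝ] ℝ)) x := by
  have h : (fun y : Fin 4 → ℝ => y ⬝ᵥ (A *ᵥ y))
      = fun y : Fin 4 → ℝ => ∑ j, ∑ k, A j k * (y j * y k) := by
    funext y
    simp only [dotProduct, mulVec, Finset.mul_sum]
    refine Finset.sum_congr rfl (fun j _ => Finset.sum_congr rfl (fun k _ => ?_))
    ring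
  rw [h]
  have h1 : HasFDerivAt (fun y : Fin 4 → ℝ => ∑ j, ∑ k, A j k * (y j * y k))
      (∑ j, ∑ k, A j k • (x j • (ContinuousLinearMap.proj k : (Fin 4 → ℝ) →L[ℝ] ℝ)
        + x k • (ContinuousLinearMap.proj j : (Fin 4 → ℝ) →L[ℝ] ℝ))) x := by
    refine HasFDerivAt.fun_sum (fun j _ => HasFDerivAt.fun_sum (fun k _ => ?_))
    exact ((hasFDerivAt_apply j x).mul (hasFDerivAt_apply k x)).const_mul (A j k)
  refine h1.congr_fderiv ?_
  ext v
  simp only [_root_.sum_apply, _root_.smul_apply,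
    _root_.add_apply, ContinuousLinearMap.proj_apply, smul_eq_mul, mulVec,
    dotProduct, Matrix.add_apply, Matrix.transpose_apply, Fin.sum_univ_four]
  ring

/-- the chart -/
def CHA_psi (b : Fin 2 → Matrix (Fin 4) (Fin 4) ℤ) (r : Fin 2 → Fin 4 → ℝ) (x : Fin 4 → ℝ) :
    Fin 4 → ℝ :=
  Fin.append (qv b x) (fun k => r k ⬝ᵥ x)

/-- its Jacobian matrix -/
def CHA_mat (b : Fin 2 → Matrix (Fin 4) (Fin 4) ℤ) (r : Fin 2 → Fin 4 → ℝ) (x : Fin 4 → ℝ) :
    Matrix (Fin 4) (Fin 4) ℝ :=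
  Matrix.of (Fin.append (jv b x) r)

noncomputable def CHA_d (b : Fin 2 → Matrix (Fin 4) (Fin 4) ℤ) (r : Fin 2 → Fin 4 → ℝ)
    (x : Fin 4 → ℝ) : (Fin 4 → ℝ) →L[ℝ] (Fin 4 → ℝ) :=
  LinearMap.toContinuousLinearMap (Matrix.toLin' (CHA_mat b r x))

theorem CHA_hasd (b : Fin 2 → Matrix (Fin 4) (Fin 4) ℤ) (r : Fin 2 → Fin 4 → ℝ)
    (x : Fin 4 → ℝ) : HasFDerivAt (CHA_psi b r) (CHA_d b r x) x := by
  rw [hasFDerivAt_pi']
  intro i
  refine Fin.addCases (m := 2) (n := 2) (fun k => ?_) (fun k => ?_) i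
  · have h1 : (fun y : Fin 4 → ℝ => CHA_psi b r y (Fin.castAdd 2 k))
        = fun y : Fin 4 → ℝ => y ⬝ᵥ ((b k).map (Int.cast : ℤ → ℝ) *ᵥ y) := by
      funext y
      simp only [CHA_psi, Fin.append_left, qv]
    rw [h1]
    refine (CHA_der ((b k).map (Int.cast : ℤ → ℝ)) x).congr_fderiv ?_
    ext v
    simp only [_root_.sum_apply, _root_.smul_apply,
      ContinuousLinearMap.proj_apply, smul_eq_mul, CHA_d, ContinuousLinearMap.comp_apply,
      LinearMap.coe_toContinuousLinearMap', Matrix.toLin'_apply]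
    have h2 : (CHA_mat b r x *ᵥ v) (Fin.castAdd 2 k) = jv b x k ⬝ᵥ v := by
      simp only [mulVec, CHA_mat]
      congr 1
      funext j
      simp only [Matrix.of_apply, Fin.append_left]
    rw [h2]
    have h3 : jv b x k
        = ((b k).map (Int.cast : ℤ → ℝ) + ((b k).map (Int.cast : ℤ → ℝ))ᵀ) *ᵥ x := by
      simp only [jv]
      congr 1
      ext i j
      simp
    rw [h3]
    simp only [dotProduct]
  · have h1 : (fun y : Fin 4 → ℝ => CHA_psi b r y (Fin.natAdd 2 k))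
        = fun y : Fin 4 → ℝ => ((ContinuousLinearMap.proj (Fin.natAdd 2 k) :
            (Fin 4 → ℝ) →L[ℝ] ℝ).comp (CHA_d b r x)) y := by
      funext y
      simp only [CHA_psi, Fin.append_right, CHA_d, ContinuousLinearMap.comp_apply,
        LinearMap.coe_toContinuousLinearMap', Matrix.toLin'_apply, ContinuousLinearMap.proj_apply,
        mulVec, CHA_mat]
      congr 1
      funext j
      simp only [Matrix.of_apply, Fin.append_right]
    rw [h1]
    exact ContinuousLinearMap.hasFDerivAt _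

theorem CHA_cd (b : Fin 2 → Matrix (Fin 4) (Fin 4) ℤ) (r : Fin 2 → Fin 4 → ℝ) :
    ContDiff ℝ 1 (CHA_psi b r) := by
  rw [contDiff_pi]
  intro i
  refine Fin.addCases (m := 2) (n := 2) (fun k => ?_) (fun k => ?_) i
  · have h1 : (fun y : Fin 4 → ℝ => CHA_psi b r y (Fin.castAdd 2 k))
        = fun y : Fin 4 → ℝ => ∑ j, y j * ∑ l, ((b k j l : ℤ) : ℝ) * y l := by
      funext y
      simp only [CHA_psi, Fin.append_left, qv, dotProduct, mulVec, Matrix.map_apply]
    rw [h1]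
    fun_prop
  · have h1 : (fun y : Fin 4 → ℝ => CHA_psi b r y (Fin.natAdd 2 k))
        = fun y : Fin 4 → ℝ => ∑ j, r k j * y j := by
      funext y
      simp only [CHA_psi, Fin.append_right, dotProduct]
    rw [h1]
    fun_prop

theorem CHA_detc (b : Fin 2 → Matrix (Fin 4) (Fin 4) ℤ) (r : Fin 2 → Fin 4 → ℝ) :
    Continuous (fun x => (CHA_mat b r x).det) := by
  apply Continuous.matrix_det
  refine continuous_pi (fun i => continuous_pi (fun j => ?_))
  refine Fin.addCases (m := 2) (n := 2) (fun k => ?_) (fun k => ?_) i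
  · have h1 : (fun y : Fin 4 → ℝ => CHA_mat b r y (Fin.castAdd 2 k) j)
        = fun y : Fin 4 → ℝ => ∑ l, (((b k + (b k)ᵀ) j l : ℤ) : ℝ) * y l := by
      funext y
      simp only [CHA_mat, Matrix.of_apply, Fin.append_left, jv, mulVec, dotProduct,
        Matrix.map_apply]
    rw [h1]
    fun_prop
  · have h1 : (fun y : Fin 4 → ℝ => CHA_mat b r y (Fin.natAdd 2 k) j) = fun _ => r k j := by
      funext y
      simp only [CHA_mat, Matrix.of_apply, Fin.append_right]
    rw [h1]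
    exact continuous_const

theorem CHA_ext (v : Fin 2 → Fin 4 → ℝ) (hv : LinearIndependent ℝ v) :
    ∃ r : Fin 2 → Fin 4 → ℝ, LinearIndependent ℝ (Fin.append v r : Fin 4 → Fin 4 → ℝ) := by
  obtain ⟨x, hx⟩ := exists_linearIndependent_snoc_of_lt_finrank hv (by simp)
  obtain ⟨y, hy⟩ := exists_linearIndependent_snoc_of_lt_finrank hx (by simp)
  refine ⟨![x, y], ?_⟩
  have h1 : (Fin.append v ![x, y] : Fin 4 → Fin 4 → ℝ)
      = (Fin.snoc (Fin.snoc v x : Fin 3 → Fin 4 → ℝ) y : Fin 4 → Fin 4 → ℝ) := by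
    funext i
    fin_cases i <;> rfl
  rw [h1]
  exact hy

theorem CHA_qpsi (b : Fin 2 → Matrix (Fin 4) (Fin 4) ℤ) (r : Fin 2 → Fin 4 → ℝ)
    (x : Fin 4 → ℝ) : (fun i : Fin 2 => CHA_psi b r x (Fin.castAdd 2 i)) = qv b x := by
  funext i
  simp only [CHA_psi, Fin.append_left]

theorem CHA_qcont (b : Fin 2 → Matrix (Fin 4) (Fin 4) ℤ) :
    Continuous (fun x : Fin 4 → ℝ => qv b x) := by
  refine continuous_pi (fun k => ?_)
  have h1 : (fun y : Fin 4 → ℝ => qv b y k)
      = fun y : Fin 4 → ℝ => ∑ j, y j * ∑ l, ((b k j l : ℤ) : ℝ) * y l := by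
    funext y
    simp only [qv, dotProduct, mulVec, Matrix.map_apply]
  rw [h1]
  fun_prop

theorem p_CHA : Stmt_CHA := by
  intro b ξ hli τ hτ δ hδ
  obtain ⟨r, hr⟩ := CHA_ext (jv b ξ) hli
  -- the determinant at `ξ`
  have hdet : (CHA_mat b r ξ).det ≠ 0 := by
    have h1 : LinearIndependent ℝ (CHA_mat b r ξ).row := hr
    rw [Matrix.linearIndependent_rows_iff_isUnit, Matrix.isUnit_iff_isUnit_det] at h1
    exact h1.ne_zero
  set d : (Fin 4 → ℝ) → ℝ := fun x => |(CHA_mat b r x).det| with hd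
  have hdc : Continuous d := (CHA_detc b r).abs
  have hd0 : 0 < d ξ := abs_pos.2 hdet
  -- the numbers
  obtain ⟨η, hη0, hη1⟩ : ∃ η : ℝ, 0 < η ∧ (1 + η) * (1 + η) ≤ 1 + δ := by
    refine ⟨min 1 (δ / 3), lt_min one_pos (by positivity), ?_⟩
    have h1 : min 1 (δ / 3) ≤ 1 := min_le_left _ _
    have h2 : min 1 (δ / 3) ≤ δ / 3 := min_le_right _ _
    have h3 : 0 < min 1 (δ / 3) := lt_min one_pos (by positivity)
    nlinarith
  have hlo : d ξ / (1 + η) < d ξ := by
    rw [div_lt_iff₀ (by linarith)]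
    nlinarith
  have hhi : d ξ < d ξ * (1 + η) := by nlinarith
  -- the local inverse
  have hs : HasStrictFDerivAt (CHA_psi b r) (CHA_d b r ξ) ξ :=
    (CHA_cd b r).contDiffAt.hasStrictFDerivAt' (CHA_hasd b r ξ) one_ne_zero
  have hunit : IsUnit (LinearMap.det (CHA_d b r ξ : (Fin 4 → ℝ) →ₗ[ℝ] (Fin 4 → ℝ))) := by
    have h1 : (CHA_d b r ξ : (Fin 4 → ℝ) →ₗ[ℝ] (Fin 4 → ℝ)) = Matrix.toLin' (CHA_mat b r ξ) := by
      rfl
    rw [h1, LinearMap.det_toLin']
    exact isUnit_iff_ne_zero.2 hdet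
  set L : (Fin 4 → ℝ) ≃L[ℝ] (Fin 4 → ℝ) :=
    ContinuousLinearMap.toContinuousLinearEquivOfDetNeZero (CHA_d b r ξ)
      (isUnit_iff_ne_zero.1 hunit) with hL
  have hs' : HasStrictFDerivAt (CHA_psi b r) (L : (Fin 4 → ℝ) →L[ℝ] (Fin 4 → ℝ)) ξ := by
    have h1 : (L : (Fin 4 → ℝ) →L[ℝ] (Fin 4 → ℝ)) = CHA_d b r ξ := by
      ext v i
      rfl
    rw [h1]
    exact hs
  set e := hs'.toOpenPartialHomeomorph (CHA_psi b r) with he
  have hec : ∀ x, e x = CHA_psi b r x := fun x => rfl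
  -- the open set
  set U : Set (Fin 4 → ℝ) := e.source ∩ (Metric.ball ξ τ ∩
    {x | d ξ / (1 + η) < d x ∧ d x < d ξ * (1 + η)}) with hU
  have hU2 : IsOpen (Metric.ball ξ τ ∩ {x | d ξ / (1 + η) < d x ∧ d x < d ξ * (1 + η)}) :=
    Metric.isOpen_ball.inter ((isOpen_lt continuous_const hdc).inter
      (isOpen_lt hdc continuous_const))
  have hUo : IsOpen U := e.open_source.inter hU2
  have hξU : ξ ∈ U :=
    ⟨hs'.mem_toOpenPartialHomeomorph_source, Metric.mem_ball_self hτ, hlo, hhi⟩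
  have hUs : U ⊆ e.source := Set.inter_subset_left
  have hV : IsOpen (e '' U) := e.isOpen_image_of_subset_source hUo hUs
  have hξV : e ξ ∈ e '' U := ⟨ξ, hξU, rfl⟩
  obtain ⟨s, hs0, hsV⟩ := Metric.nhds_basis_closedBall.mem_iff.1 (hV.mem_nhds hξV)
  have hinj : Set.InjOn (CHA_psi b r) U := fun x hx y hy h => e.injOn (hUs hx) (hUs hy) h
  set D : Set (Fin 4 → ℝ) := U ∩ (CHA_psi b r) ⁻¹' (Metric.closedBall (e ξ) s) with hD
  set D' : Set (Fin 4 → ℝ) := U ∩ (CHA_psi b r) ⁻¹' (Metric.ball (e ξ) s) with hD'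
  have hcont : Continuous (CHA_psi b r) := (CHA_cd b r).continuous
  have hDc : IsCompact D := by
    have h1 : D = e.symm '' (Metric.closedBall (e ξ) s) := by
      ext x
      constructor
      · rintro ⟨h1, h2⟩
        exact ⟨e x, h2, e.left_inv (hUs h1)⟩
      · rintro ⟨y, hy, rfl⟩
        obtain ⟨z, hz, rfl⟩ := hsV hy
        rw [e.left_inv (hUs hz)]
        exact ⟨hz, hy⟩
    rw [h1]
    refine (isCompact_closedBall _ _).image_of_continuousOn (e.continuousOn_symm.mono ?_)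
    intro y hy
    obtain ⟨z, hz, rfl⟩ := hsV hy
    exact e.map_source (hUs hz)
  have hD'o : IsOpen D' := hUo.inter (Metric.isOpen_ball.preimage hcont)
  have hvol : ∀ A : Set (Fin 4 → ℝ), MeasurableSet A → A ⊆ U →
      ∫⁻ x in A, ENNReal.ofReal (d x) = volume (CHA_psi b r '' A) := by
    intro A hA hAU
    rw [← lintegral_abs_det_fderiv_eq_addHaar_image volume hA
      (fun x _ => (CHA_hasd b r x).hasFDerivWithinAt) (hinj.mono hAU)]
    refine lintegral_congr (fun x => ?_)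
    have h1 : (CHA_d b r x).det = (CHA_mat b r x).det := by
      show LinearMap.det (CHA_d b r x : (Fin 4 → ℝ) →ₗ[ℝ] (Fin 4 → ℝ)) = _
      have h1 : (CHA_d b r x : (Fin 4 → ℝ) →ₗ[ℝ] (Fin 4 → ℝ)) = Matrix.toLin' (CHA_mat b r x) := by
        rfl
      rw [h1, LinearMap.det_toLin']
    rw [h1]
  have hq : Continuous (fun x : Fin 4 → ℝ => qv b x) := CHA_qcont b
  have hlo0 : 0 < d ξ / (1 + η) := by positivity
  have hhi0 : 0 < d ξ * (1 + η) := by positivity
  refine ⟨D, D', (2 * s) ^ 2 / (d ξ * (1 + η)), (2 * s) ^ 2 / (d ξ / (1 + η)), s, ?_, ?_, ?_⟩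
  · refine ⟨hDc, hD'o, ?_, by positivity, ?_, hs0, ?_, ?_⟩
    · exact Set.inter_subset_inter_right _ (Set.preimage_mono Metric.ball_subset_closedBall)
    · exact div_le_div_of_nonneg_left (by positivity) hlo0 (hlo.trans hhi).le
    · intro S hS
      set A : Set (Fin 4 → ℝ) := D ∩ {x | qv b x ∈ S} with hA
      have hAm : MeasurableSet A := hDc.measurableSet.inter (hq.measurable hS)
      have hAU : A ⊆ U := fun x hx => hx.1.1
      have h1 : ENNReal.ofReal (d ξ / (1 + η)) * volume A ≤ ∫⁻ x in A, ENNReal.ofReal (d x) := by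
        rw [← setLIntegral_const]
        refine setLIntegral_mono' hAm (fun x hx => ENNReal.ofReal_le_ofReal ?_)
        exact (hAU hx).2.2.1.le
      have h2 : volume (CHA_psi b r '' A)
          ≤ volume S * (ENNReal.ofReal (2 * s) * ENNReal.ofReal (2 * s)) := by
        have h3 := CHA_cyl S hS
          (fun i => Metric.closedBall (e ξ (Fin.natAdd 2 i)) s)
          (fun i => Metric.isClosed_closedBall.measurableSet)
        simp only [Real.volume_closedBall] at h3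
        rw [← h3]
        refine measure_mono ?_
        rintro _ ⟨x, hx, rfl⟩
        refine ⟨?_, fun i => ?_⟩
        · rw [CHA_qpsi]; exact hx.2
        · have h4 : CHA_psi b r x ∈ Metric.closedBall (e ξ) s := hx.1.2
          rw [closedBall_pi _ hs0.le] at h4
          exact h4 (Fin.natAdd 2 i) (Set.mem_univ _)
      rw [← hvol A hAm hAU] at h2
      have h5 := h1.trans h2
      have h6 : ENNReal.ofReal ((2 * s) ^ 2 / (d ξ / (1 + η)))
          = ENNReal.ofReal (2 * s) * ENNReal.ofReal (2 * s) / ENNReal.ofReal (d ξ / (1 + η)) := by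
        rw [ENNReal.ofReal_div_of_pos hlo0, ← ENNReal.ofReal_mul (by positivity), pow_two]
      rw [h6, mul_comm, ← mul_div_assoc, ENNReal.le_div_iff_mul_le]
      · rw [mul_comm]; exact h5
      · left; exact (ENNReal.ofReal_pos.2 hlo0).ne'
      · left; exact ENNReal.ofReal_ne_top
    · intro S hS hSb
      set A : Set (Fin 4 → ℝ) := D' ∩ {x | qv b x ∈ S} with hA
      have hAm : MeasurableSet A := hD'o.measurableSet.inter (hq.measurable hS)
      have hAU : A ⊆ U := fun x hx => hx.1.1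
      have h1 : ∫⁻ x in A, ENNReal.ofReal (d x) ≤ ENNReal.ofReal (d ξ * (1 + η)) * volume A := by
        rw [← setLIntegral_const]
        refine setLIntegral_mono' hAm (fun x hx => ENNReal.ofReal_le_ofReal ?_)
        exact (hAU hx).2.2.2.le
      have h2 : volume S * (ENNReal.ofReal (2 * s) * ENNReal.ofReal (2 * s))
          ≤ volume (CHA_psi b r '' A) := by
        have h3 := CHA_cyl S hS
          (fun i => Metric.ball (e ξ (Fin.natAdd 2 i)) s)
          (fun i => Metric.isOpen_ball.measurableSet)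
        simp only [Real.volume_ball] at h3
        rw [← h3]
        refine measure_mono ?_
        rintro y ⟨hy1, hy2⟩
        have h4 : y ∈ Metric.ball (e ξ) s := by
          rw [ball_pi _ hs0]
          intro i _
          refine Fin.addCases (m := 2) (n := 2) (fun k => ?_) (fun k => ?_) i
          · have h5 := hSb hy1
            rw [← CHA_qpsi b r ξ, ball_pi _ hs0] at h5
            exact h5 k (Set.mem_univ _)
          · exact hy2 k
        obtain ⟨x, hx, hxy⟩ := hsV (Metric.ball_subset_closedBall h4)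
        refine ⟨x, ⟨⟨hx, ?_⟩, ?_⟩, hxy⟩
        · show CHA_psi b r x ∈ Metric.ball (e ξ) s
          rw [← hec x, hxy]; exact h4
        · show qv b x ∈ S
          rw [← CHA_qpsi b r x, ← hec x, hxy]; exact hy1
      rw [← hvol A hAm hAU] at h2
      have h5 := h2.trans h1
      have h6 : ENNReal.ofReal ((2 * s) ^ 2 / (d ξ * (1 + η)))
          = ENNReal.ofReal (2 * s) * ENNReal.ofReal (2 * s) / ENNReal.ofReal (d ξ * (1 + η)) := by
        rw [ENNReal.ofReal_div_of_pos hhi0, ← ENNReal.ofReal_mul (by positivity), pow_two]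
      rw [h6, mul_comm, ← mul_div_assoc, ENNReal.div_le_iff_le_mul]
      · rw [mul_comm (volume A)]; exact h5
      · left; exact (ENNReal.ofReal_pos.2 hhi0).ne'
      · left; exact ENNReal.ofReal_ne_top
  · have h1 : (2 * s) ^ 2 / (d ξ / (1 + η))
        = ((1 + η) * (1 + η)) * ((2 * s) ^ 2 / (d ξ * (1 + η))) := by
      field_simp
    rw [h1]
    exact mul_le_mul_of_nonneg_right hη1 (by positivity)
  · intro x hx
    exact Metric.ball_subset_closedBall hx.1.2.1

end Pool.GLU
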