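import Pool.Agent.Work.MP_9fb703_gl.Interface

/-! # Block CN1: eigenpairs modulo `p` -/

set_option autoImplicit false

namespace Pool.GLU

open Matrix Polynomial

theorem CN1_eval {K : Type} [Field K] (A B : Matrix (Fin 4) (Fin 4) K) (t : K) :
    Polynomial.eval t ((X : K[X]) • A.map C + B.map C).det = (t • A + B).det := by
  rw [← Polynomial.coe_evalRingHom, RingHom.map_det]
  congr 1
  ext i j
  simp [Matrix.map_apply]
  ring

theorem CN1_roots {K : Type} [Field K] (A B : Matrix (Fin 4) (Fin 4) K) (hA : A.det ≠ 0) :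
    ((X : K[X]) • A.map C + B.map C).det ≠ 0 ∧
      Multiset.card ((X : K[X]) • A.map C + B.map C).det.roots ≤ 4 := by
  have h1 := Polynomial.natDegree_det_X_add_C_le A B
  have h2 := Polynomial.coeff_det_X_add_C_card A B
  rw [Fintype.card_fin] at h1 h2
  refine ⟨fun h => ?_, (Polynomial.card_roots' _).trans h1⟩
  rw [h, Polynomial.coeff_zero] at h2
  exact hA h2.symm

theorem p_CN1 (hSIM : Stmt_SIM) : Stmt_CN1 := by
  classical
  intro b hb
  obtain ⟨P, hP⟩ := hSIM b hb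
  refine ⟨max P ((b 0 + (b 0)ᵀ).det.natAbs + 1), fun p hp hpP => ?_⟩
  have : Fact p.Prime := ⟨hp⟩
  have hP1 : P ≤ p := le_trans (le_max_left _ _) hpP
  have hP2 : (b 0 + (b 0)ᵀ).det.natAbs < p :=
    lt_of_lt_of_le (Nat.lt_succ_self _) (le_trans (le_max_right _ _) hpP)
  have key := hP (ZMod p) (Or.inr (by rw [ZMod.ringChar_zmod_n p]; exact hP1))
  set S : Fin 2 → Matrix (Fin 4) (Fin 4) (ZMod p) :=
    fun i => (b i + (b i)ᵀ).map (Int.cast : ℤ → ZMod p) with hS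
  have hjv : ∀ (x : Fin 4 → ZMod p) (i : Fin 2), jv b x i = S i *ᵥ x := fun x i => rfl
  have hdet : (S 0).det ≠ 0 := by
    have h1 : (S 0).det = (((b 0 + (b 0)ᵀ).det : ℤ) : ZMod p) := by
      have h := (Int.castRingHom (ZMod p)).map_det (b 0 + (b 0)ᵀ)
      exact h.symm
    rw [h1, Ne, ZMod.intCast_zmod_eq_zero_iff_dvd]
    intro hdvd
    have h2 : p ∣ (b 0 + (b 0)ᵀ).det.natAbs := Int.natCast_dvd.1 hdvd
    exact absurd (Nat.le_of_dvd (Int.natAbs_pos.2 hb.det0) h2) (not_le.2 hP2)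
  set g : (ZMod p)[X] := ((X : (ZMod p)[X]) • (S 0).map C + (S 1).map C).det with hg
  obtain ⟨hg0, hgr⟩ := CN1_roots (S 0) (S 1) hdet
  rw [← hg] at hg0 hgr
  -- a solution for each `μ`
  have hc : ∀ μ : Fin 2 → ZMod p, ∃ c : Fin 4 → ZMod p,
      (∃ x : Fin 4 → ZMod p, x ≠ 0 ∧ μ 0 • jv b x 0 + μ 1 • jv b x 1 = 0) →
        c ≠ 0 ∧ μ 0 • jv b c 0 + μ 1 • jv b c 1 = 0 := by
    intro μ
    by_cases h : ∃ x : Fin 4 → ZMod p, x ≠ 0 ∧ μ 0 • jv b x 0 + μ 1 • jv b x 1 = 0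
    · obtain ⟨c, hc⟩ := h
      exact ⟨c, fun _ => hc⟩
    · exact ⟨0, fun h' => absurd h' h⟩
  choose c hc using hc
  let T : Type := {z : (Fin 2 → ZMod p) × (Fin 4 → ZMod p) // z.1 ≠ 0 ∧ z.2 ≠ 0 ∧
      z.1 0 • jv b z.2 0 + z.1 1 • jv b z.2 1 = 0}
  have hmap : ∀ z : T, ∃ y : {t : ZMod p // t ∈ g.roots.toFinset} × (ZMod p × ZMod p),
      z.1.1 1 = y.2.1 ∧ z.1.1 0 = y.1.1 * y.2.1 ∧ z.1.2 = y.2.2 • c z.1.1 := by
    rintro ⟨⟨μ, x⟩, hμ, hx, hz⟩
    simp only at hμ hx hz ⊢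
    have hμ1 : μ 1 ≠ 0 := by
      intro h0
      have hμ0 : μ 0 ≠ 0 := by
        intro h
        apply hμ
        funext i
        fin_cases i
        · exact h
        · exact h0
      rw [h0, zero_smul, add_zero, hjv] at hz
      have h1 : S 0 *ᵥ x = 0 := by
        have := smul_eq_zero.1 hz
        exact this.resolve_left hμ0
      exact hdet (Matrix.exists_mulVec_eq_zero_iff.1 ⟨x, hx, h1⟩)
    have hroot : μ 0 / μ 1 ∈ g.roots.toFinset := by
      rw [Multiset.mem_toFinset, Polynomial.mem_roots hg0, Polynomial.IsRoot.def, hg, CN1_eval]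
      refine Matrix.exists_mulVec_eq_zero_iff.1 ⟨x, hx, ?_⟩
      rw [hjv, hjv] at hz
      have h1 : μ 1 • (((μ 0 / μ 1) • S 0 + S 1) *ᵥ x) = 0 := by
        rw [Matrix.add_mulVec, Matrix.smul_mulVec, smul_add, smul_smul,
          mul_div_cancel₀ _ hμ1]
        exact hz
      exact (smul_eq_zero.1 h1).resolve_left hμ1
    obtain ⟨hc1, hc2⟩ := hc μ ⟨x, hx, hz⟩
    obtain ⟨-, h3⟩ := key μ (c μ) hμ hc1 hc2
    obtain ⟨t, ht⟩ := h3 x hz
    exact ⟨⟨⟨μ 0 / μ 1, hroot⟩, μ 1, t⟩, rfl, (div_mul_cancel₀ _ hμ1).symm, ht⟩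
  choose Φ h1 h2 h3 using hmap
  have hinj : Function.Injective Φ := by
    intro z z' h
    have e1 : z.1.1 = z'.1.1 := by
      funext i
      fin_cases i
      · exact (h2 z).trans (by rw [h]; exact (h2 z').symm)
      · exact (h1 z).trans (by rw [h]; exact (h1 z').symm)
    have e2 : z.1.2 = z'.1.2 := by
      rw [h3 z, h3 z', h, e1]
    exact Subtype.ext (Prod.ext e1 e2)
  have hcard := Nat.card_le_card_of_injective Φ hinj
  refine hcard.trans ?_
  rw [Nat.card_prod, Nat.card_prod, Nat.card_eq_fintype_card, Nat.card_eq_fintype_card,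
    Fintype.card_coe, ZMod.card]
  have h4 : g.roots.toFinset.card ≤ 4 := (Multiset.toFinset_card_le _).trans hgr
  calc g.roots.toFinset.card * (p * p) ≤ 4 * (p * p) := Nat.mul_le_mul_right _ h4
    _ = 4 * p ^ 2 := by ring

end Pool.GLU
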