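import Pool.Agent.Work.MP_9fb703_gl.Interface

/-! # MP_9fb703_nt, THEOREM GLUE, block COI -/

set_option autoImplicit false

namespace Pool.GLU

open Matrix

theorem COI_qv (c : Fin 2 → Matrix (Fin 2) (Fin 2) ℤ) {R : Type} [CommRing R] (w : Fin 2 → R)
    (i : Fin 2) :
    qv c w i = w 0 * ((c i 0 0 : R) * w 0 + (c i 0 1 : R) * w 1) +
      w 1 * ((c i 1 0 : R) * w 0 + (c i 1 1 : R) * w 1) := by
  simp [qv, Matrix.mulVec, dotProduct, Fin.sum_univ_two]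

theorem COI_bez (c : Fin 2 → Matrix (Fin 2) (Fin 2) ℤ) {R : Type} [CommRing R] (w : Fin 2 → R)
    (j : Fin 2) : ∃ α β : R, ((res c : ℤ) : R) * w j ^ 3 = α * qv c w 0 + β * qv c w 1 := by
  fin_cases j
  · refine ⟨?_, ?_, ?_⟩
    · exact (((c 0 0 0 : R) * c 1 1 1 - c 1 0 0 * c 0 1 1) * w 0 -
          ((c 0 0 1 + c 0 1 0) * c 1 1 1 - (c 1 0 1 + c 1 1 0) * c 0 1 1) * w 1) * c 1 1 1 -
        ((c 0 0 1 + c 0 1 0) * c 1 1 1 - (c 1 0 1 + c 1 1 0) * c 0 1 1) * w 0 *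
          (c 1 0 1 + c 1 1 0)
    · exact -(((c 0 0 0 : R) * c 1 1 1 - c 1 0 0 * c 0 1 1) * w 0 -
          ((c 0 0 1 + c 0 1 0) * c 1 1 1 - (c 1 0 1 + c 1 1 0) * c 0 1 1) * w 1) * c 0 1 1 +
        ((c 0 0 1 + c 0 1 0) * c 1 1 1 - (c 1 0 1 + c 1 1 0) * c 0 1 1) * w 0 *
          (c 0 0 1 + c 0 1 0)
    · rw [COI_qv, COI_qv]
      simp only [res, Fin.zero_eta, Int.cast_sub, Int.cast_pow, Int.cast_mul, Int.cast_add]
      ring
  · refine ⟨?_, ?_, ?_⟩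
    · exact -(((c 0 0 0 : R) * c 1 1 1 - c 1 0 0 * c 0 1 1) * w 1 -
          (c 0 0 0 * (c 1 0 1 + c 1 1 0) - c 1 0 0 * (c 0 0 1 + c 0 1 0)) * w 0) * c 1 0 0 +
        (c 0 0 0 * (c 1 0 1 + c 1 1 0) - c 1 0 0 * (c 0 0 1 + c 0 1 0)) * w 1 *
          (c 1 0 1 + c 1 1 0)
    · exact (((c 0 0 0 : R) * c 1 1 1 - c 1 0 0 * c 0 1 1) * w 1 -
          (c 0 0 0 * (c 1 0 1 + c 1 1 0) - c 1 0 0 * (c 0 0 1 + c 0 1 0)) * w 0) * c 0 0 0 -
        (c 0 0 0 * (c 1 0 1 + c 1 1 0) - c 1 0 0 * (c 0 0 1 + c 0 1 0)) * w 1 *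
          (c 0 0 1 + c 0 1 0)
    · rw [COI_qv, COI_qv]
      simp only [res, Fin.mk_one, Int.cast_sub, Int.cast_pow, Int.cast_mul, Int.cast_add]
      ring

theorem p_COI : Stmt_COI := by
  intro c
  refine ⟨?_, ?_⟩
  · intro K _ w hres hw hq
    apply hw
    funext j
    obtain ⟨α, β, h⟩ := COI_bez c w j
    have h0 : qv c w 0 = 0 := by rw [hq]; rfl
    have h1 : qv c w 1 = 0 := by rw [hq]; rfl
    rw [h0, h1, mul_zero, mul_zero, add_zero] at h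
    rcases mul_eq_zero.mp h with h | h
    · exact absurd h hres
    · simpa using pow_eq_zero_iff (by norm_num) |>.mp h
  · intro p w hp hres hq j
    obtain ⟨α, β, h⟩ := COI_bez c w j
    have hp' : Prime (p : ℤ) := Nat.prime_iff_prime_int.mp hp
    have hd : (p : ℤ) ∣ res c * w j ^ 3 := by
      have h' : res c * w j ^ 3 = α * qv c w 0 + β * qv c w 1 := by simpa using h
      rw [h']
      exact dvd_add (Dvd.dvd.mul_left (hq 0) _) (Dvd.dvd.mul_left (hq 1) _)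
    rcases hp'.dvd_or_dvd hd with h2 | h2
    · exact absurd h2 hres
    · exact hp'.dvd_of_dvd_pow h2

end Pool.GLU
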