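import Pool.Agent.Work.MP_9fb703_gl.Interface

/-!
# MP_9fb703_nt, THEOREM GLUE: block DGO (the diagonal moment)
-/

set_option autoImplicit false

namespace Pool.GLU

open Matrix

/-- integers in one class modulo `g` in an interval of length `D` -/
theorem DGO_cnt (T : Finset ℤ) (g : ℤ) (hg : 0 < g) (D : ℝ)
    (hc : ∀ a ∈ T, ∀ a' ∈ T, g ∣ a - a') (hD : ∀ a ∈ T, ∀ a' ∈ T, ((a - a' : ℤ) : ℝ) ≤ D) :
    T.card ≤ ⌊D / g⌋₊ + 1 := by
  rcases T.eq_empty_or_nonempty with hT | hT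
  · rw [hT, Finset.card_empty]
    exact Nat.zero_le _
  · have h0 : T.min' hT ∈ T := T.min'_mem hT
    have hgr : (0 : ℝ) < g := by exact_mod_cast hg
    have h1 : T.card ≤ (Finset.range (⌊D / g⌋₊ + 1)).card := by
      refine Finset.card_le_card_of_injOn (fun a => ((a - T.min' hT) / g).toNat) ?_ ?_
      · intro a ha
        have ha' : a ∈ T := ha
        obtain ⟨q, hq⟩ := hc a ha' _ h0
        have hq1 : (a - T.min' hT) / g = q := by
          rw [hq, Int.mul_ediv_cancel_left _ hg.ne']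
        have hmin : T.min' hT ≤ a := T.min'_le a ha'
        have hq0 : 0 ≤ q := by
          by_contra hcon
          have : g * q < 0 := mul_neg_of_pos_of_neg hg (not_le.1 hcon)
          omega
        have hq2 : (q : ℝ) ≤ D / g := by
          rw [le_div_iff₀ hgr]
          have h2 := hD a ha' _ h0
          rw [hq] at h2
          push_cast at h2
          linarith
        have hq3 : ((q.toNat : ℕ) : ℝ) = (q : ℝ) := by
          exact_mod_cast Int.toNat_of_nonneg hq0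
        simp only [Finset.coe_range, Set.mem_Iio, hq1]
        have h3 : q.toNat ≤ ⌊D / g⌋₊ := Nat.le_floor (by rw [hq3]; exact hq2)
        omega
      · intro a ha a' ha' h
        have ha1 : a ∈ T := ha
        have ha1' : a' ∈ T := ha'
        obtain ⟨q, hq⟩ := hc a ha1 _ h0
        obtain ⟨q', hq'⟩ := hc a' ha1' _ h0
        have e1 : (a - T.min' hT) / g = q := by
          rw [hq, Int.mul_ediv_cancel_left _ hg.ne']
        have e2 : (a' - T.min' hT) / g = q' := by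
          rw [hq', Int.mul_ediv_cancel_left _ hg.ne']
        have hmin : T.min' hT ≤ a := T.min'_le a ha1
        have hmin' : T.min' hT ≤ a' := T.min'_le a' ha1'
        have hq0 : 0 ≤ q := by
          by_contra hcon
          have : g * q < 0 := mul_neg_of_pos_of_neg hg (not_le.1 hcon)
          omega
        have hq0' : 0 ≤ q' := by
          by_contra hcon
          have : g * q' < 0 := mul_neg_of_pos_of_neg hg (not_le.1 hcon)
          omega
        simp only [e1, e2] at h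
        have h4 : q = q' := by omega
        rw [h4] at hq
        omega
    rwa [Finset.card_range] at h1

/-- matrices with a given product with `φ` -/
theorem DGO_row (φ : Fin 2 → ℤ) (k l : Fin 2) (hkl : k ≠ l) (u v : ℤ) (G : ℕ)
    (hcop : Int.gcd u v = 1) (hG : 0 < G) (hk : φ k = u * G) (hl : φ l = v * G) (hu : u ≠ 0)
    (A : ℝ) (S : Finset (Matrix (Fin 2) (Fin 2) ℤ))
    (hS : ∀ M ∈ S, ∀ M' ∈ S, M *ᵥ φ = M' *ᵥ φ) (hA : ∀ M ∈ S, ∀ i j, |(M i j : ℝ)| ≤ A) :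
    S.card ≤ (⌊2 * A / |u|⌋₊ + 1) ^ 2 := by
  classical
  have hmul : ∀ (M : Matrix (Fin 2) (Fin 2) ℤ) i, (M *ᵥ φ) i = M i k * φ k + M i l * φ l := by
    intro M i
    rw [Matrix.mulVec, dotProduct, Fin.sum_univ_two]
    fin_cases k <;> fin_cases l
    · exact absurd rfl hkl
    · rfl
    · exact add_comm _ _
    · exact absurd rfl hkl
  have hcase : ∀ j : Fin 2, j = k ∨ j = l := by
    intro j
    fin_cases k <;> fin_cases l <;> fin_cases j <;> simp_all
  have hG0 : (G : ℤ) ≠ 0 := by exact_mod_cast hG.ne'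
  have hrel : ∀ M ∈ S, ∀ M' ∈ S, ∀ i, (M i k - M' i k) * u + (M i l - M' i l) * v = 0 := by
    intro M hM M' hM' i
    have h1 := congrFun (hS M hM M' hM') i
    rw [hmul, hmul, hk, hl] at h1
    have h2 : ((M i k - M' i k) * u + (M i l - M' i l) * v) * (G : ℤ) = 0 := by linarith
    rcases mul_eq_zero.1 h2 with h3 | h3
    · exact h3
    · exact absurd h3 hG0
  have hT : ∀ i, (S.image fun M => M i l).card ≤ ⌊2 * A / |u|⌋₊ + 1 := by
    intro i
    have h1 := DGO_cnt (S.image fun M => M i l) |u| (abs_pos.2 hu) (2 * A) ?_ ?_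
    · exact h1
    · intro a ha a' ha'
      obtain ⟨M, hM, rfl⟩ := Finset.mem_image.1 ha
      obtain ⟨M', hM', rfl⟩ := Finset.mem_image.1 ha'
      have h2 := hrel M hM M' hM' i
      rw [abs_dvd]
      have h3 : u ∣ (M i l - M' i l) * v := ⟨-(M i k - M' i k), by linarith⟩
      exact Int.dvd_of_dvd_mul_left_of_gcd_one h3 hcop
    · intro a ha a' ha'
      obtain ⟨M, hM, rfl⟩ := Finset.mem_image.1 ha
      obtain ⟨M', hM', rfl⟩ := Finset.mem_image.1 ha'
      have h2 := (abs_le.1 (hA M hM i l)).2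
      have h3 := (abs_le.1 (hA M' hM' i l)).1
      push_cast
      linarith
  have hinj : S.card ≤ ((S.image fun M => M 0 l) ×ˢ (S.image fun M => M 1 l)).card := by
    refine Finset.card_le_card_of_injOn (fun M => (M 0 l, M 1 l)) ?_ ?_
    · intro M hM
      simp only [Finset.coe_product, Set.mem_prod]
      exact ⟨Finset.mem_coe.2 (Finset.mem_image.2 ⟨M, hM, rfl⟩),
        Finset.mem_coe.2 (Finset.mem_image.2 ⟨M, hM, rfl⟩)⟩
    · intro M hM M' hM' h
      simp only [Prod.mk.injEq] at h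
      have hl2 : ∀ i, M i l = M' i l := by
        intro i
        fin_cases i
        · exact h.1
        · exact h.2
      ext i j
      rcases hcase j with rfl | rfl
      · have h2 := hrel M hM M' hM' i
        rw [hl2 i, sub_self, zero_mul, add_zero] at h2
        rcases mul_eq_zero.1 h2 with h3 | h3
        · linarith
        · exact absurd h3 hu
      · exact hl2 i
  calc S.card ≤ ((S.image fun M => M 0 l) ×ˢ (S.image fun M => M 1 l)).card := hinj
    _ = (S.image fun M => M 0 l).card * (S.image fun M => M 1 l).card := Finset.card_product _ _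
    _ ≤ (⌊2 * A / |u|⌋₊ + 1) * (⌊2 * A / |u|⌋₊ + 1) := Nat.mul_le_mul (hT 0) (hT 1)
    _ = (⌊2 * A / |u|⌋₊ + 1) ^ 2 := (sq _).symm

theorem DGO_cong (c : Fin 2 → Matrix (Fin 2) (Fin 2) ℤ) (W : ℤ) (w w₀ : Fin 2 → ℤ)
    (h : ∀ j, W ∣ w j - w₀ j) (i : Fin 2) : W ∣ qv c w i - qv c w₀ i := by
  have e : ∀ z : Fin 2 → ℤ, qv c z i = z 0 * (c i 0 0 * z 0 + c i 0 1 * z 1) +
      z 1 * (c i 1 0 * z 0 + c i 1 1 * z 1) := by
    intro z
    simp [qv, dotProduct, Matrix.mulVec, Fin.sum_univ_two]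
  obtain ⟨d0, h0⟩ := h 0
  obtain ⟨d1, h1⟩ := h 1
  have e0 : w 0 = w₀ 0 + W * d0 := by linarith
  have e1 : w 1 = w₀ 1 + W * d1 := by linarith
  rw [e, e, e0, e1]
  refine ⟨d0 * (c i 0 0 * (w₀ 0 + W * d0) + c i 0 1 * (w₀ 1 + W * d1)) +
    w₀ 0 * (c i 0 0 * d0 + c i 0 1 * d1) +
    (d1 * (c i 1 0 * (w₀ 0 + W * d0) + c i 1 1 * (w₀ 1 + W * d1)) +
    w₀ 1 * (c i 1 0 * d0 + c i 1 1 * d1)), ?_⟩
  ring

/-- the gcd of the two values divides `W` -/
theorem DGO_gcd (hC : Stmt_COI) {b : Fin 2 → Matrix (Fin 4) (Fin 4) ℤ}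
    {c : Fin 2 → Matrix (Fin 2) (Fin 2) ℤ} (hres : res c ≠ 0) {P₀ m V' : ℕ}
    {M₀ : Matrix (Fin 2) (Fin 2) ℤ} {x₀ : Fin 4 → ℤ} {w₀ w : Fin 2 → ℤ}
    (hL : LD b c P₀ m V' M₀ x₀ w₀) (hP : |res c| ≤ P₀) (hw : Adm P₀ (m ^ 2 * V') w₀ w)
    (G : ℕ) (hG : ∀ i, (G : ℤ) ∣ qv c w i) : G ∣ m ^ 2 * V' := by
  rw [Nat.dvd_iff_prime_pow_dvd_dvd]
  intro p k hp hpk
  rcases Nat.eq_zero_or_pos k with hk | hk
  · rw [hk, pow_zero]
    exact one_dvd _
  have hpG : p ∣ G := (dvd_pow_self p hk.ne').trans hpk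
  have hpi : ∀ i, (p : ℤ) ∣ qv c w i := fun i =>
    (Int.natCast_dvd_natCast.2 hpG).trans (hG i)
  have hpP : p ≤ P₀ := by
    by_contra hcon
    have hlt : P₀ < p := not_le.1 hcon
    have hnd : ¬ (p : ℤ) ∣ res c := by
      intro hd
      have h1 := Int.le_of_dvd (abs_pos.2 hres) ((dvd_abs _ _).2 hd)
      have h2 : (P₀ : ℤ) < p := by exact_mod_cast hlt
      linarith
    have h3 := (hC c).2 p w hp hnd hpi
    exact hw.2 p hp hlt ⟨h3 0, h3 1⟩
  obtain ⟨i, hi⟩ := hL.con p hp hpP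
  have hW : p ^ (m ^ 2 * V').factorization p ∣ m ^ 2 * V' := Nat.ordProj_dvd _ _
  have hi' : ¬ ((p ^ (m ^ 2 * V').factorization p : ℕ) : ℤ) ∣ qv c w i := by
    intro hd
    have h1 : ((p ^ (m ^ 2 * V').factorization p : ℕ) : ℤ) ∣ qv c w i - qv c w₀ i :=
      (Int.natCast_dvd_natCast.2 hW).trans (DGO_cong c _ w w₀ hw.1 i)
    have h2 := dvd_sub hd h1
    rw [sub_sub_cancel] at h2
    exact hi h2
  have hkv : k ≤ (m ^ 2 * V').factorization p := by
    by_contra hcon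
    have hlt : (m ^ 2 * V').factorization p ≤ k := (not_le.1 hcon).le
    have h1 : p ^ (m ^ 2 * V').factorization p ∣ G := (pow_dvd_pow p hlt).trans hpk
    exact hi' ((Int.natCast_dvd_natCast.2 h1).trans (hG i))
  exact (pow_dvd_pow p hkv).trans hW

theorem p_DGO (hA : Stmt_DIA) (hC : Stmt_COI) : Stmt_DGO := by
  classical
  intro b c hb hres ξ hξ
  obtain ⟨τ, K₁, hτ, hK₁⟩ := hA b ξ hb hξ
  refine ⟨τ, hτ, ?_⟩
  intro P₀ m V' M₀ x₀ w₀ θ κ α hL hP hθ hκ
  obtain ⟨W, hW⟩ : ∃ W : ℕ, W = m ^ 2 * V' := ⟨_, rfl⟩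
  have hW0 : 0 < W := by
    rw [hW]
    exact Nat.mul_pos (pow_pos hL.m0 2) hL.V0
  have hWr : (0 : ℝ) < W := by exact_mod_cast hW0
  obtain ⟨A₀, hA₀⟩ : ∃ A₀ : ℝ, A₀ = θ + ∑ i, ∑ j, |α i j| := ⟨_, rfl⟩
  have hα : ∀ i j, |α i j| + θ ≤ A₀ := by
    intro i j
    have h1 : |α i j| ≤ ∑ j, |α i j| :=
      Finset.single_le_sum (f := fun j => |α i j|) (fun j _ => abs_nonneg _) (Finset.mem_univ j)
    have h2 : ∑ j, |α i j| ≤ ∑ i, ∑ j, |α i j| :=
      Finset.single_le_sum (f := fun i => ∑ j, |α i j|)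
        (fun i _ => Finset.sum_nonneg fun j _ => abs_nonneg _) (Finset.mem_univ i)
    rw [hA₀]
    linarith
  have hA0 : 0 < A₀ := by
    have h1 := hα 0 0
    have h2 := abs_nonneg (α 0 0)
    linarith
  refine ⟨9 * |K₁| * (A₀ * W / κ) ^ 2 + 1, by positivity, ?_⟩
  intro w t hw ht hφ
  -- the large value
  obtain ⟨k, l, hkl, hk⟩ : ∃ k l : Fin 2, k ≠ l ∧ ‖sc 1 (qv c w)‖ ≤ |((qv c w k : ℤ) : ℝ)| := by
    have h0 : ∀ i, ‖sc 1 (qv c w) i‖ = |((qv c w i : ℤ) : ℝ)| := by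
      intro i
      rw [sc, div_one, Real.norm_eq_abs]
    rcases le_total |((qv c w 0 : ℤ) : ℝ)| |((qv c w 1 : ℤ) : ℝ)| with h | h
    · refine ⟨1, 0, by decide, ?_⟩
      rw [pi_norm_le_iff_of_nonneg (abs_nonneg _)]
      intro i
      rw [h0]
      fin_cases i
      · exact h
      · exact le_refl _
    · refine ⟨0, 1, by decide, ?_⟩
      rw [pi_norm_le_iff_of_nonneg (abs_nonneg _)]
      intro i
      rw [h0]
      fin_cases i
      · exact le_refl _
      · exact h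
  have ht0 : 0 < t := lt_of_lt_of_le zero_lt_one ht
  have hκt : κ * t ^ 2 ≤ |((qv c w k : ℤ) : ℝ)| := hφ.trans hk
  have hψ : 0 < |((qv c w k : ℤ) : ℝ)| := lt_of_lt_of_le (by positivity) hκt
  have hne : qv c w k ≠ 0 := by
    intro h
    rw [h, Int.cast_zero, abs_zero] at hψ
    exact lt_irrefl _ hψ
  -- the gcd
  obtain ⟨G, hG⟩ : ∃ G : ℕ, G = Int.gcd (qv c w k) (qv c w l) := ⟨_, rfl⟩
  have hG0 : 0 < G := by
    rw [hG]
    exact Int.gcd_pos_of_ne_zero_left _ hne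
  have hcase : ∀ j : Fin 2, j = k ∨ j = l := by
    intro j
    fin_cases k <;> fin_cases l <;> fin_cases j <;> simp_all
  have hGd : ∀ i, (G : ℤ) ∣ qv c w i := by
    intro i
    rcases hcase i with h | h
    · rw [h, hG]
      exact Int.gcd_dvd_left _ _
    · rw [h, hG]
      exact Int.gcd_dvd_right _ _
  have hGW : G ≤ W := by
    rw [hW]
    exact Nat.le_of_dvd (by rw [← hW]; exact hW0) (DGO_gcd hC hres hL hP hw G hGd)
  obtain ⟨u, hu⟩ : ∃ u : ℤ, u = qv c w k / G := ⟨_, rfl⟩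
  obtain ⟨v, hv⟩ : ∃ v : ℤ, v = qv c w l / G := ⟨_, rfl⟩
  have huk : qv c w k = u * G := by
    rw [hu]
    exact (Int.ediv_mul_cancel (hGd k)).symm
  have hvl : qv c w l = v * G := by
    rw [hv]
    exact (Int.ediv_mul_cancel (hGd l)).symm
  have hcop : Int.gcd u v = 1 := by
    rw [hu, hv, hG]
    exact Int.gcd_div_gcd_div_gcd (by rw [← hG]; exact hG0)
  have hu0 : u ≠ 0 := by
    intro h
    rw [h, zero_mul] at huk
    exact hne huk
  have hur : (0 : ℝ) < |(u : ℝ)| := by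
    rw [abs_pos]
    exact_mod_cast hu0
  have huW : |((qv c w k : ℤ) : ℝ)| ≤ |(u : ℝ)| * W := by
    have h1 : ((qv c w k : ℤ) : ℝ) = u * G := by exact_mod_cast huk
    rw [h1, abs_mul, Nat.abs_cast]
    exact mul_le_mul_of_nonneg_left (by exact_mod_cast hGW) hur.le
  refine ⟨⌈|((qv c w k : ℤ) : ℝ)| / (A₀ * W)⌉₊ + 1, ?_⟩
  intro B hB
  have hB1 : 1 ≤ B := by omega
  have hBr : (1 : ℝ) ≤ B := by exact_mod_cast hB1
  have hBbig : |((qv c w k : ℤ) : ℝ)| ≤ A₀ * (B : ℝ) ^ 2 * W := by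
    have h1 : |((qv c w k : ℤ) : ℝ)| / (A₀ * W) ≤ B := by
      refine (Nat.le_ceil _).trans ?_
      exact_mod_cast (Nat.le_succ _).trans hB
    rw [div_le_iff₀ (by positivity)] at h1
    have h2 : (B : ℝ) ≤ (B : ℝ) ^ 2 := by nlinarith
    calc |((qv c w k : ℤ) : ℝ)| ≤ B * (A₀ * W) := h1
      _ ≤ (B : ℝ) ^ 2 * (A₀ * W) := mul_le_mul_of_nonneg_right h2 (by positivity)
      _ = A₀ * (B : ℝ) ^ 2 * W := by ring
  -- the set
  obtain ⟨Z, hZ⟩ : ∃ Z : Set (Matrix (Fin 2) (Fin 2) ℤ × (Fin 4 → ℤ) × (Fin 4 → ℤ)),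
      Z = {z | z.1 ∈ CB α θ (m ^ 2 * V') M₀ B ∧
        z.2.1 ∈ Rw b c (m * V') x₀ (Metric.closedBall ξ τ) (t * B) w z.1 ∧
        z.2.2 ∈ Rw b c (m * V') x₀ (Metric.closedBall ξ τ) (t * B) w z.1} := ⟨_, rfl⟩
  rw [← hZ]
  have hK0 : 0 ≤ 9 * |K₁| * (A₀ * W / κ) ^ 2 + 1 := by positivity
  by_cases hfin : Z.Finite
  swap
  · have h1 : Z.ncard = 0 := Set.Infinite.ncard hfin
    rw [h1, Nat.cast_zero]
    positivity
  rw [Set.ncard_eq_toFinset_card Z hfin]
  have hmem : ∀ z, z ∈ hfin.toFinset → z.1 ∈ CB α θ (m ^ 2 * V') M₀ B ∧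
        z.2.1 ∈ Rw b c (m * V') x₀ (Metric.closedBall ξ τ) (t * B) w z.1 ∧
        z.2.2 ∈ Rw b c (m * V') x₀ (Metric.closedBall ξ τ) (t * B) w z.1 := by
    intro z hz
    have h1 := hfin.mem_toFinset.1 hz
    rw [hZ] at h1
    exact h1
  obtain ⟨N, hN⟩ : ∃ N : ℕ, N = ⌊2 * (A₀ * (B : ℝ) ^ 2) / |(u : ℝ)|⌋₊ + 1 := ⟨_, rfl⟩
  have hfib : hfin.toFinset.card ≤ N ^ 2 * (hfin.toFinset.image fun z => z.2).card := by
    refine Finset.card_le_mul_card_image _ _ ?_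
    intro p _
    have h1 : (hfin.toFinset.filter fun z => z.2 = p).card =
        ((hfin.toFinset.filter fun z => z.2 = p).image fun z => z.1).card := by
      symm
      refine Finset.card_image_of_injOn ?_
      intro z hz z' hz' h
      have e1 := (Finset.mem_filter.1 hz).2
      have e2 := (Finset.mem_filter.1 hz').2
      exact Prod.ext h (e1.trans e2.symm)
    rw [h1, hN]
    have h2 := DGO_row (qv c w) k l hkl u v G hcop hG0 huk hvl hu0 (A₀ * (B : ℝ) ^ 2)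
      ((hfin.toFinset.filter fun z => z.2 = p).image fun z => z.1) ?_ ?_
    · push_cast at h2
      exact h2
    · intro M hM M' hM'
      obtain ⟨z, hz, rfl⟩ := Finset.mem_image.1 hM
      obtain ⟨z', hz', rfl⟩ := Finset.mem_image.1 hM'
      obtain ⟨hz1, hz2⟩ := Finset.mem_filter.1 hz
      obtain ⟨hz1', hz2'⟩ := Finset.mem_filter.1 hz'
      have e1 : qv b z.2.1 = z.1 *ᵥ qv c w := (hmem z hz1).2.1.2.2
      have e2 : qv b z'.2.1 = z'.1 *ᵥ qv c w := (hmem z' hz1').2.1.2.2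
      rw [← e1, ← e2, hz2, hz2']
    · intro M hM i j
      obtain ⟨z, hz, rfl⟩ := Finset.mem_image.1 hM
      obtain ⟨hz1, hz2⟩ := Finset.mem_filter.1 hz
      obtain ⟨h3, h4⟩ := (hmem z hz1).1.2 i j
      have hB2 : (0 : ℝ) ≤ (B : ℝ) ^ 2 := by positivity
      have h5 : α i j * (B : ℝ) ^ 2 ≥ -(|α i j| * (B : ℝ) ^ 2) := by
        have := neg_abs_le (α i j)
        nlinarith
      have h6 : (α i j + θ) * (B : ℝ) ^ 2 ≤ A₀ * (B : ℝ) ^ 2 := by
        refine mul_le_mul_of_nonneg_right ?_ hB2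
        have := le_abs_self (α i j)
        have := hα i j
        linarith
      have h7 : |α i j| * (B : ℝ) ^ 2 ≤ A₀ * (B : ℝ) ^ 2 := by
        refine mul_le_mul_of_nonneg_right ?_ hB2
        have := hα i j
        linarith
      rw [abs_le]
      constructor <;> linarith
  have htB : 1 ≤ t * (B : ℝ) := by nlinarith
  have hpairs : ((hfin.toFinset.image fun z => z.2).card : ℝ) ≤ K₁ * (t * B) ^ 4 := by
    refine hK₁ (t * B) htB _ ?_
    intro p hp
    obtain ⟨z, hz, rfl⟩ := Finset.mem_image.1 hp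
    obtain ⟨h1, h2, h3⟩ := hmem z hz
    refine ⟨?_, ?_, ?_⟩
    · have h4 := h2.2.1
      rw [Metric.mem_closedBall, dist_eq_norm] at h4
      exact h4
    · have h4 := h3.2.1
      rw [Metric.mem_closedBall, dist_eq_norm] at h4
      exact h4
    · exact h2.2.2.trans h3.2.2.symm
  -- the bound for N
  have hN1 : (N : ℝ) ≤ 3 * (A₀ * (B : ℝ) ^ 2 * W / (κ * t ^ 2)) := by
    have hAB : 0 ≤ A₀ * (B : ℝ) ^ 2 := by positivity
    have h1 : (N : ℝ) ≤ 2 * (A₀ * (B : ℝ) ^ 2) / |(u : ℝ)| + 1 := by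
      rw [hN]
      push_cast
      have := Nat.floor_le (a := 2 * (A₀ * (B : ℝ) ^ 2) / |(u : ℝ)|) (by positivity)
      linarith
    have h2 : 2 * (A₀ * (B : ℝ) ^ 2) / |(u : ℝ)| ≤
        2 * (A₀ * (B : ℝ) ^ 2 * W / |((qv c w k : ℤ) : ℝ)|) := by
      rw [mul_div_assoc, mul_le_mul_iff_right₀ (by norm_num : (0 : ℝ) < 2),
        div_le_div_iff₀ hur hψ]
      calc A₀ * (B : ℝ) ^ 2 * |((qv c w k : ℤ) : ℝ)| ≤ A₀ * (B : ℝ) ^ 2 * (|(u : ℝ)| * W) :=
            mul_le_mul_of_nonneg_left huW hAB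
        _ = A₀ * (B : ℝ) ^ 2 * W * |(u : ℝ)| := by ring
    have h3 : 1 ≤ A₀ * (B : ℝ) ^ 2 * W / |((qv c w k : ℤ) : ℝ)| := by
      rw [le_div_iff₀ hψ, one_mul]
      exact hBbig
    have h4 : A₀ * (B : ℝ) ^ 2 * W / |((qv c w k : ℤ) : ℝ)| ≤ A₀ * (B : ℝ) ^ 2 * W / (κ * t ^ 2) :=
      div_le_div_of_nonneg_left (by positivity) (by positivity) hκt
    linarith
  have hN0 : (0 : ℝ) ≤ N := Nat.cast_nonneg _
  calc (hfin.toFinset.card : ℝ)
      ≤ (N : ℝ) ^ 2 * ((hfin.toFinset.image fun z => z.2).card : ℝ) := by exact_mod_cast hfib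
    _ ≤ (N : ℝ) ^ 2 * (|K₁| * (t * B) ^ 4) := by
        refine mul_le_mul_of_nonneg_left (hpairs.trans ?_) (by positivity)
        exact mul_le_mul_of_nonneg_right (le_abs_self _) (by positivity)
    _ ≤ (3 * (A₀ * (B : ℝ) ^ 2 * W / (κ * t ^ 2))) ^ 2 * (|K₁| * (t * B) ^ 4) := by
        refine mul_le_mul_of_nonneg_right ?_ (by positivity)
        exact pow_le_pow_left₀ hN0 hN1 2
    _ = 9 * |K₁| * (A₀ * W / κ) ^ 2 * (B : ℝ) ^ 8 := by
        field_simp
        ring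
    _ ≤ (9 * |K₁| * (A₀ * W / κ) ^ 2 + 1) * (B : ℝ) ^ 8 := by
        refine mul_le_mul_of_nonneg_right ?_ (by positivity)
        linarith

end Pool.GLU
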