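import Pool.Agent.Work.MP_9fb703_gl.Interface

/-!
# Block DIA (helper1): pairs `(x, x')` with `q(x) = q(x')`
-/

set_option autoImplicit false

namespace Pool.GLU

open Matrix Polynomial MeasureTheory

theorem DIA_prim (v : Fin 4 → ℤ) (hv : v ≠ 0) : ∃ (s : ℕ) (w : Fin 4 → ℤ), 0 < s ∧
    (∀ j, v j = s * w j) ∧ ∀ d : ℤ, (∀ j, d ∣ w j) → IsUnit d := by
  obtain ⟨w, hw, hg⟩ := Finset.extract_gcd (s := Finset.univ) v ⟨0, Finset.mem_univ _⟩
  have hnn : 0 ≤ Finset.univ.gcd v := Int.nonneg_of_normalize_eq_self Finset.normalize_gcd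
  have hne : Finset.univ.gcd v ≠ 0 := by
    intro h
    rw [Finset.gcd_eq_zero_iff] at h
    exact hv (funext fun j => h j (Finset.mem_univ _))
  obtain ⟨s, hs⟩ := Int.eq_ofNat_of_zero_le hnn
  refine ⟨s, w, ?_, fun j => ?_, fun d hd => ?_⟩
  · rcases Nat.eq_zero_or_pos s with h | h
    · subst h
      exact absurd hs (by simpa using hne)
    · exact h
  · rw [← hs]
    exact hw j (Finset.mem_univ _)
  · have h1 : d ∣ Finset.univ.gcd w := Finset.dvd_gcd fun j _ => hd j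
    rw [hg] at h1
    exact isUnit_of_dvd_one h1

theorem DIA_id (b : Fin 2 → Matrix (Fin 4) (Fin 4) ℤ) (x x' : Fin 4 → ℤ) (i : Fin 2) :
    jv b (fun j => x j - x' j) i ⬝ᵥ (fun j => x j + x' j) = 2 * (qv b x i - qv b x' i) := by
  simp only [jv, qv, dotProduct, mulVec, Fin.sum_univ_four, Matrix.map_apply, Matrix.add_apply,
    transpose_apply, Int.cast_id]
  ring

theorem DIA_scale (b : Fin 2 → Matrix (Fin 4) (Fin 4) ℤ) (s t : ℤ) (y z : Fin 4 → ℤ)
    (i : Fin 2) :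
    jv b (fun j => s * y j) i ⬝ᵥ (fun j => t * z j) = s * t * (jv b y i ⬝ᵥ z) := by
  simp only [jv, dotProduct, mulVec, Fin.sum_univ_four, Matrix.map_apply, Matrix.add_apply,
    transpose_apply, Int.cast_id]
  ring

/-- the largest coordinate -/
def DIA_mx (v : Fin 4 → ℤ) : ℕ := Finset.univ.sup fun j => (v j).natAbs

theorem DIA_mx_le (v : Fin 4 → ℤ) (j : Fin 4) : |v j| ≤ (DIA_mx v : ℤ) := by
  rw [Int.abs_eq_natAbs]
  exact_mod_cast Finset.le_sup (f := fun j => (v j).natAbs) (Finset.mem_univ j)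

theorem DIA_mx_eq (v : Fin 4 → ℤ) : ∃ j, |v j| = (DIA_mx v : ℤ) := by
  obtain ⟨j, -, hj⟩ := Finset.exists_mem_eq_sup Finset.univ ⟨(0 : Fin 4), Finset.mem_univ _⟩
    fun j => (v j).natAbs
  refine ⟨j, ?_⟩
  rw [Int.abs_eq_natAbs]
  exact_mod_cast hj.symm

theorem DIA_geom (I : ℕ) : (∑ i ∈ Finset.range I, 2 ^ i) + 1 = 2 ^ I := by
  induction I with
  | zero => simp
  | succ n ih =>
    rw [Finset.sum_range_succ, pow_succ]
    omega

theorem DIA_floor {R X : ℝ} {a : ℤ} (h : |(a : ℝ)| ≤ R * X) : |a| ≤ ((⌊R * X⌋₊ : ℕ) : ℤ) := by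
  rw [Int.abs_eq_natAbs]
  have h1 : a.natAbs ≤ ⌊R * X⌋₊ := by
    apply Nat.le_floor
    rw [Nat.cast_natAbs, Int.cast_abs]
    exact h
  exact_mod_cast h1

theorem p_DIA (hNPR : Stmt_NPR) : Stmt_DIA := by
  intro b ξ hb hξ
  classical
  obtain ⟨τ₀, K₀, hτ₀, hN⟩ := hNPR b ξ hb hξ
  have hξ0 : ξ ≠ 0 := by
    rintro rfl
    have h1 := hξ.1
    have h2 : jv b (0 : Fin 4 → ℝ) 0 = 0 := by
      simp [jv]
    exact h1.ne_zero 0 h2
  have hξn : 0 < ‖ξ‖ := norm_pos_iff.2 hξ0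
  set τ := min τ₀ (‖ξ‖ / 2) with hτ
  have hτ0 : 0 < τ := lt_min hτ₀ (by positivity)
  have hττ₀ : τ ≤ τ₀ := min_le_left _ _
  have hτξ : τ ≤ ‖ξ‖ / 2 := min_le_right _ _
  set R := ‖ξ‖ + τ with hR
  have hR0 : 0 < R := by positivity
  refine ⟨τ, (2 * R + 1) ^ 4 + 4 * K₀ * (2 * R) ^ 4, hτ0, fun X hX F hF => ?_⟩
  have hX0 : 0 < X := by linarith
  -- size of the coordinates
  have hsize : ∀ x : Fin 4 → ℤ, ‖sc X x - ξ‖ ≤ τ → ∀ j, |(x j : ℝ)| ≤ R * X := by
    intro x hx j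
    have h1 : ‖sc X x‖ ≤ R := by
      calc ‖sc X x‖ = ‖(sc X x - ξ) + ξ‖ := by rw [sub_add_cancel]
        _ ≤ ‖sc X x - ξ‖ + ‖ξ‖ := norm_add_le _ _
        _ ≤ τ + ‖ξ‖ := by linarith
        _ = R := by rw [hR]; ring
    have h2 : ‖(sc X x) j‖ ≤ R := (norm_le_pi_norm (sc X x) j).trans h1
    simp only [sc, Real.norm_eq_abs, abs_div, abs_of_pos hX0] at h2
    rwa [div_le_iff₀ hX0] at h2
  choose! s p hs hv hp using DIA_prim
  -- the two parts
  set F₀ := F.filter fun z => z.1 = z.2 with hF₀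
  set F₁ := F.filter fun z => ¬ z.1 = z.2 with hF₁
  have hcard : F.card = F₀.card + F₁.card := (Finset.card_filter_add_card_filter_not _).symm
  -- part one
  have h0 : (F₀.card : ℝ) ≤ ((2 * R + 1) * X) ^ 4 := by
    set L := ⌊R * X⌋₊ with hL
    have hLr : (L : ℝ) ≤ R * X := Nat.floor_le (by positivity)
    have h1 : F₀.card ≤ (Fintype.piFinset fun _ : Fin 4 => Finset.Icc (-(L : ℤ)) (L : ℤ)).card := by
      refine Finset.card_le_card_of_injOn (fun z => z.1) ?_ ?_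
      · intro z hz
        have hz' := Finset.mem_filter.1 hz
        refine Fintype.mem_piFinset.2 fun j => ?_
        rw [Finset.mem_Icc, ← abs_le]
        exact DIA_floor (hsize z.1 (hF z hz'.1).1 j)
      · intro z hz z' hz' h
        have e1 := (Finset.mem_filter.1 hz).2
        have e2 := (Finset.mem_filter.1 hz').2
        have h' : z.1 = z'.1 := h
        exact Prod.ext h' (by rw [← e1, ← e2]; exact h')
    rw [Fintype.card_piFinset_const, Int.card_Icc] at h1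
    have h2 : ((L : ℤ) + 1 - -(L : ℤ)).toNat = 2 * L + 1 := by omega
    rw [h2] at h1
    calc (F₀.card : ℝ) ≤ (((2 * L + 1) ^ 4 : ℕ) : ℝ) := by exact_mod_cast h1
      _ = (2 * (L : ℝ) + 1) ^ 4 := by push_cast; ring
      _ ≤ ((2 * R + 1) * X) ^ 4 := by
          gcongr
          nlinarith
  -- part two
  set L := ⌊2 * R * X⌋₊ with hL
  have hLr : (L : ℝ) ≤ 2 * R * X := Nat.floor_le (by positivity)
  set Y : (Fin 4 → ℤ) × (Fin 4 → ℤ) → Fin 4 → ℤ := fun z j => z.1 j - z.2 j with hY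
  set Z : (Fin 4 → ℤ) × (Fin 4 → ℤ) → Fin 4 → ℤ := fun z j => z.1 j + z.2 j with hZ
  set cl : (Fin 4 → ℤ) × (Fin 4 → ℤ) → ℕ × ℕ :=
    fun z => (Nat.log 2 (DIA_mx (p (Y z))), Nat.log 2 (DIA_mx (p (Z z)))) with hcl
  -- facts
  have hYL : ∀ z ∈ F, ∀ j, |Y z j| ≤ (L : ℤ) := by
    intro z hz j
    apply DIA_floor
    have h1 := hsize z.1 (hF z hz).1 j
    have h2 := hsize z.2 (hF z hz).2.1 j
    simp only [hY]
    push_cast
    calc |(z.1 j : ℝ) - (z.2 j : ℝ)| ≤ |(z.1 j : ℝ)| + |(z.2 j : ℝ)| := abs_sub _ _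
      _ ≤ 2 * R * X := by linarith
  have hZL : ∀ z ∈ F, ∀ j, |Z z j| ≤ (L : ℤ) := by
    intro z hz j
    apply DIA_floor
    have h1 := hsize z.1 (hF z hz).1 j
    have h2 := hsize z.2 (hF z hz).2.1 j
    simp only [hZ]
    push_cast
    calc |(z.1 j : ℝ) + (z.2 j : ℝ)| ≤ |(z.1 j : ℝ)| + |(z.2 j : ℝ)| := abs_add_le _ _
      _ ≤ 2 * R * X := by linarith
  have hcone : ∀ z ∈ F, ‖sc 1 (Z z) - (2 * X) • ξ‖ ≤ 2 * X * τ := by
    intro z hz
    have h1 := (hF z hz).1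
    have h2 := (hF z hz).2.1
    have h3 : sc 1 (Z z) - (2 * X) • ξ = X • ((sc X z.1 - ξ) + (sc X z.2 - ξ)) := by
      funext j
      simp only [sc, hZ, Pi.sub_apply, Pi.smul_apply, Pi.add_apply, smul_eq_mul]
      push_cast
      field_simp
      ring
    rw [h3, norm_smul, Real.norm_eq_abs, abs_of_pos hX0]
    have h4 := norm_add_le (sc X z.1 - ξ) (sc X z.2 - ξ)
    calc X * ‖(sc X z.1 - ξ) + (sc X z.2 - ξ)‖ ≤ X * (2 * τ) := by
          gcongr
          linarith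
      _ = 2 * X * τ := by ring
  have hZ0 : ∀ z ∈ F, Z z ≠ 0 := by
    intro z hz h
    have h1 := hcone z hz
    have h2 : sc 1 (Z z) = 0 := by
      rw [h]
      funext j
      simp [sc]
    rw [h2, zero_sub, norm_neg, norm_smul, Real.norm_eq_abs, abs_of_pos (by positivity)] at h1
    have h3 : ‖ξ‖ ≤ τ := le_of_mul_le_mul_left h1 (by positivity)
    linarith
  have hY0 : ∀ z ∈ F₁, Y z ≠ 0 := by
    intro z hz h
    apply (Finset.mem_filter.1 hz).2
    funext j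
    exact sub_eq_zero.1 (congrFun h j)
  have hbd : ∀ (v : Fin 4 → ℤ), v ≠ 0 → (∀ j, |v j| ≤ (L : ℤ)) →
      2 ^ Nat.log 2 (DIA_mx (p v)) ≤ DIA_mx (p v) ∧
        s v * 2 ^ Nat.log 2 (DIA_mx (p v)) ≤ L ∧ (∀ j, |p v j| < 2 * ((2 ^ Nat.log 2 (DIA_mx (p v)) : ℕ) : ℤ)) ∧
        ∃ j, ((2 ^ Nat.log 2 (DIA_mx (p v)) : ℕ) : ℤ) ≤ |p v j| := by
    intro v hv0 hvL
    have hm0 : DIA_mx (p v) ≠ 0 := by
      intro h
      apply hv0
      funext j
      have h1 := DIA_mx_le (p v) j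
      rw [h] at h1
      have h2 : p v j = 0 := abs_nonpos_iff.1 (by exact_mod_cast h1)
      rw [hv v hv0 j, h2, mul_zero]
      rfl
    have h1 : 2 ^ Nat.log 2 (DIA_mx (p v)) ≤ DIA_mx (p v) := Nat.pow_log_le_self 2 hm0
    have h2 : DIA_mx (p v) < 2 ^ (Nat.log 2 (DIA_mx (p v)) + 1) :=
      Nat.lt_pow_succ_log_self (by norm_num) _
    obtain ⟨j, hj⟩ := DIA_mx_eq (p v)
    refine ⟨h1, ?_, fun i => ?_, j, ?_⟩
    · have h3 : (s v : ℤ) * (DIA_mx (p v) : ℤ) ≤ L := by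
        have h4 := hvL j
        rw [hv v hv0 j, abs_mul, hj, Nat.abs_cast] at h4
        exact h4
      have h5 : s v * DIA_mx (p v) ≤ L := by exact_mod_cast h3
      exact (Nat.mul_le_mul_left _ h1).trans h5
    · refine (DIA_mx_le (p v) i).trans_lt ?_
      rw [pow_succ] at h2
      have : (DIA_mx (p v) : ℤ) < ((2 ^ Nat.log 2 (DIA_mx (p v)) * 2 : ℕ) : ℤ) := by exact_mod_cast h2
      rw [Nat.cast_mul] at this
      push_cast at this ⊢
      linarith
    · rw [hj]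
      exact_mod_cast h1
  set I := Nat.log 2 L + 1 with hI
  have hclI : ∀ z ∈ F₁, cl z ∈ Finset.range I ×ˢ Finset.range I := by
    intro z hz
    have hzF := (Finset.mem_filter.1 hz).1
    have a1 := (hbd (Y z) (hY0 z hz) (hYL z hzF)).2.1
    have a2 := (hbd (Z z) (hZ0 z hzF) (hZL z hzF)).2.1
    have b1 := hs (Y z) (hY0 z hz)
    have b2 := hs (Z z) (hZ0 z hzF)
    have c1 : 2 ^ Nat.log 2 (DIA_mx (p (Y z))) ≤ L := le_trans (Nat.le_mul_of_pos_left _ b1) a1
    have c2 : 2 ^ Nat.log 2 (DIA_mx (p (Z z))) ≤ L := le_trans (Nat.le_mul_of_pos_left _ b2) a2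
    rw [Finset.mem_product, Finset.mem_range, Finset.mem_range]
    have d1 : Nat.log 2 (DIA_mx (p (Y z))) ≤ Nat.log 2 L := by
      have := Nat.log_mono_right (b := 2) c1
      rwa [Nat.log_pow (by norm_num)] at this
    have d2 : Nat.log 2 (DIA_mx (p (Z z))) ≤ Nat.log 2 L := by
      have := Nat.log_mono_right (b := 2) c2
      rwa [Nat.log_pow (by norm_num)] at this
    exact ⟨by simp only [hcl]; omega, by simp only [hcl]; omega⟩
  have hfib : ∀ i j : ℕ, (F₁.filter fun z => cl z = (i, j)).card ≤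
      K₀ * (L * 2 ^ i) * (L * 2 ^ j) := by
    intro i j
    set G := F₁.filter fun z => cl z = (i, j) with hG
    set P := G.image fun z => (p (Y z), p (Z z)) with hP
    have hGF : ∀ z ∈ G, z ∈ F₁ ∧ z ∈ F ∧ Nat.log 2 (DIA_mx (p (Y z))) = i ∧
        Nat.log 2 (DIA_mx (p (Z z))) = j := by
      intro z hz
      have h1 := Finset.mem_filter.1 hz
      have h2 := Prod.ext_iff.1 h1.2
      exact ⟨h1.1, (Finset.mem_filter.1 h1.1).1, h2.1, h2.2⟩
    have hPc : P.card ≤ K₀ * (2 ^ i) ^ 2 * (2 ^ j) ^ 2 := by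
      refine hN (2 ^ i) (2 ^ j) P (by positivity) (by positivity) ?_
      intro u hu
      obtain ⟨z, hz, rfl⟩ := Finset.mem_image.1 hu
      obtain ⟨z1, zF, e1, e2⟩ := hGF z hz
      obtain ⟨-, -, a3, a4⟩ := hbd (Y z) (hY0 z z1) (hYL z zF)
      obtain ⟨-, -, c3, c4⟩ := hbd (Z z) (hZ0 z zF) (hZL z zF)
      rw [e1] at a3 a4
      rw [e2] at c3 c4
      refine ⟨fun k => ?_, a3, a4, c3, c4, hp _ (hY0 z z1), hp _ (hZ0 z zF), ?_⟩
      · have f1 : Y z = fun j => (s (Y z) : ℤ) * p (Y z) j := funext (hv (Y z) (hY0 z z1))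
        have f2 : Z z = fun j => (s (Z z) : ℤ) * p (Z z) j := funext (hv (Z z) (hZ0 z zF))
        have f3 := DIA_id b z.1 z.2 k
        have f4 : jv b (Y z) k ⬝ᵥ Z z = 0 := by
          rw [(hF z zF).2.2, sub_self, mul_zero] at f3
          exact f3
        rw [f1, f2, DIA_scale] at f4
        rcases mul_eq_zero.1 f4 with f5 | f5
        · exfalso
          have g1 := hs (Y z) (hY0 z z1)
          have g2 := hs (Z z) (hZ0 z zF)
          rcases mul_eq_zero.1 f5 with f6 | f6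
          · omega
          · omega
        · exact f5
      · have g2 := hs (Z z) (hZ0 z zF)
        have g3 : (0 : ℝ) < (s (Z z) : ℝ) := by exact_mod_cast g2
        refine ⟨2 * X / s (Z z), by positivity, ?_⟩
        have f7 : sc 1 (p (Z z)) - (2 * X / (s (Z z) : ℝ)) • ξ =
            ((s (Z z) : ℝ)⁻¹) • (sc 1 (Z z) - (2 * X) • ξ) := by
          funext l
          simp only [sc, Pi.sub_apply, Pi.smul_apply, smul_eq_mul]
          rw [hv (Z z) (hZ0 z zF) l]
          push_cast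
          field_simp
        rw [f7, norm_smul, Real.norm_eq_abs, abs_of_pos (by positivity)]
        calc (s (Z z) : ℝ)⁻¹ * ‖sc 1 (Z z) - (2 * X) • ξ‖
            ≤ (s (Z z) : ℝ)⁻¹ * (2 * X * τ) := by
              gcongr
              exact hcone z zF
          _ = 2 * X / (s (Z z) : ℝ) * τ := by
              field_simp
          _ ≤ 2 * X / (s (Z z) : ℝ) * τ₀ := by gcongr
    have hGc : G.card ≤ ((Finset.Icc 1 (L / 2 ^ i) ×ˢ Finset.Icc 1 (L / 2 ^ j)) ×ˢ P).card := by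
      refine Finset.card_le_card_of_injOn
        (fun z => ((s (Y z), s (Z z)), (p (Y z), p (Z z)))) ?_ ?_
      · intro z hz
        obtain ⟨z1, zF, e1, e2⟩ := hGF z hz
        obtain ⟨-, a2, -, -⟩ := hbd (Y z) (hY0 z z1) (hYL z zF)
        obtain ⟨-, c2, -, -⟩ := hbd (Z z) (hZ0 z zF) (hZL z zF)
        rw [e1] at a2
        rw [e2] at c2
        have g1 := hs (Y z) (hY0 z z1)
        have g2 := hs (Z z) (hZ0 z zF)
        refine Finset.mem_product.2 ⟨Finset.mem_product.2 ⟨?_, ?_⟩, Finset.mem_image_of_mem _ hz⟩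
        · exact Finset.mem_Icc.2 ⟨g1, (Nat.le_div_iff_mul_le (by positivity)).2 a2⟩
        · exact Finset.mem_Icc.2 ⟨g2, (Nat.le_div_iff_mul_le (by positivity)).2 c2⟩
      · intro z hz z' hz' h
        obtain ⟨z1, zF, -, -⟩ := hGF z hz
        obtain ⟨z1', zF', -, -⟩ := hGF z' hz'
        simp only [Prod.mk.injEq] at h
        obtain ⟨⟨h1, h2⟩, h3, h4⟩ := h
        have k1 : ∀ j, Y z j = Y z' j := by
          intro j
          rw [hv (Y z) (hY0 z z1) j, hv (Y z') (hY0 z' z1') j, h1, h3]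
        have k2 : ∀ j, Z z j = Z z' j := by
          intro j
          rw [hv (Z z) (hZ0 z zF) j, hv (Z z') (hZ0 z' zF') j, h2, h4]
        refine Prod.ext (funext fun j => ?_) (funext fun j => ?_)
        · have l1 := k1 j
          have l2 := k2 j
          simp only [hY, hZ] at l1 l2
          omega
        · have l1 := k1 j
          have l2 := k2 j
          simp only [hY, hZ] at l1 l2
          omega
    rw [Finset.card_product, Finset.card_product, Nat.card_Icc, Nat.card_Icc,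
      Nat.add_sub_cancel, Nat.add_sub_cancel] at hGc
    calc G.card ≤ L / 2 ^ i * (L / 2 ^ j) * P.card := hGc
      _ ≤ L / 2 ^ i * (L / 2 ^ j) * (K₀ * (2 ^ i) ^ 2 * (2 ^ j) ^ 2) := Nat.mul_le_mul_left _ hPc
      _ = K₀ * ((L / 2 ^ i * 2 ^ i) * 2 ^ i) * ((L / 2 ^ j * 2 ^ j) * 2 ^ j) := by ring
      _ ≤ K₀ * (L * 2 ^ i) * (L * 2 ^ j) := by
          gcongr
          · exact Nat.div_mul_le_self _ _
          · exact Nat.div_mul_le_self _ _
  have h1 : F₁.card ≤ K₀ * L ^ 2 * (2 * L) ^ 2 := by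
    rcases Nat.eq_zero_or_pos L with hL0 | hLpos
    · -- then there is no pair
      have hempty : F₁ = ∅ := by
        rw [Finset.eq_empty_iff_forall_notMem]
        intro z hz
        have hzF := (Finset.mem_filter.1 hz).1
        apply hY0 z hz
        funext j
        have h2 := hYL z hzF j
        rw [hL0] at h2
        exact abs_nonpos_iff.1 (by exact_mod_cast h2)
      rw [hempty, Finset.card_empty]
      exact Nat.zero_le _
    · rw [Finset.card_eq_sum_card_fiberwise hclI, Finset.sum_product]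
      have hgeo : ∑ i ∈ Finset.range I, 2 ^ i ≤ 2 * L := by
        have h3 := DIA_geom I
        have h4 : 2 ^ I ≤ 2 * L := by
          rw [hI, pow_succ]
          have := Nat.pow_log_le_self 2 hLpos.ne'
          omega
        omega
      calc ∑ i ∈ Finset.range I, ∑ j ∈ Finset.range I, (F₁.filter fun z => cl z = (i, j)).card
          ≤ ∑ i ∈ Finset.range I, ∑ j ∈ Finset.range I, K₀ * (L * 2 ^ i) * (L * 2 ^ j) :=
            Finset.sum_le_sum fun i _ => Finset.sum_le_sum fun j _ => hfib i j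
        _ = K₀ * L ^ 2 * ((∑ i ∈ Finset.range I, 2 ^ i) * ∑ j ∈ Finset.range I, 2 ^ j) := by
            rw [Finset.sum_mul_sum, Finset.mul_sum]
            refine Finset.sum_congr rfl fun i _ => ?_
            rw [Finset.mul_sum]
            refine Finset.sum_congr rfl fun j _ => ?_
            ring
        _ ≤ K₀ * L ^ 2 * ((2 * L) * (2 * L)) := by gcongr
        _ = K₀ * L ^ 2 * (2 * L) ^ 2 := by ring
  have h1r : (F₁.card : ℝ) ≤ 4 * K₀ * (2 * R) ^ 4 * X ^ 4 := by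
    calc (F₁.card : ℝ) ≤ ((K₀ * L ^ 2 * (2 * L) ^ 2 : ℕ) : ℝ) := by exact_mod_cast h1
      _ = 4 * K₀ * (L : ℝ) ^ 4 := by push_cast; ring
      _ ≤ 4 * K₀ * (2 * R * X) ^ 4 := by gcongr
      _ = 4 * K₀ * (2 * R) ^ 4 * X ^ 4 := by ring
  calc (F.card : ℝ) = (F₀.card : ℝ) + (F₁.card : ℝ) := by rw [hcard]; push_cast; ring
    _ ≤ ((2 * R + 1) * X) ^ 4 + 4 * K₀ * (2 * R) ^ 4 * X ^ 4 := add_le_add h0 h1r
    _ = ((2 * R + 1) ^ 4 + 4 * K₀ * (2 * R) ^ 4) * X ^ 4 := by ring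

end Pool.GLU
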