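import Pool.Agent.Work.MP_9fb703_gl.Interface

set_option autoImplicit false

namespace Pool.GLU

open Matrix Polynomial

theorem DNZ_ex (A0 A1 B0 B1 C0 C1 : ℤ)
    (h : (A0 * C1 - A1 * C0) ^ 2 - (A0 * B1 - A1 * B0) * (B0 * C1 - B1 * C0) ≠ 0) :
    ∃ z0 z1 y0 y1 : ℤ, y0 * z1 - y1 * z0 ≠ 0 ∧
      (B0 * z0 + B1 * z1) ^ 2 - 4 * ((A0 * z0 + A1 * z1) * (C0 * z0 + C1 * z1)) ≠ 0 := by
  by_contra hc
  push Not at hc
  have h1 := hc 1 0 0 1 (by norm_num)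
  have h2 := hc 0 1 1 0 (by norm_num)
  have h3 := hc 1 1 1 0 (by norm_num)
  have h4 : B0 * B1 = 2 * (A0 * C1 + A1 * C0) :=
    mul_left_cancel₀ (two_ne_zero) (by linear_combination h3 - h1 - h2)
  have h5 : (A0 * C1 - A1 * C0) ^ 2 = 0 := by
    have h6 : (4 : ℤ) * (A0 * C1 - A1 * C0) ^ 2 = 4 * 0 := by
      linear_combination (-(B0 * B1 + 2 * (A0 * C1 + A1 * C0))) * h4 + B1 ^ 2 * h1 +
        4 * A0 * C0 * h2
    exact mul_left_cancel₀ (by norm_num) h6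
  exact h (by linear_combination (-1 : ℤ) * h5 - (A0 * C1 + A1 * C0) * h4 + A0 * C0 * h2 +
    A1 * C1 * h1)

/-- the matrix of the second determinant -/
def DNZ_D (b : Fin 2 → Matrix (Fin 4) (Fin 4) ℤ) (c : Fin 2 → Matrix (Fin 2) (Fin 2) ℤ)
    {R : Type} [CommRing R] (M : Matrix (Fin 2) (Fin 2) R) : Matrix (Fin 4) (Fin 4) R :=
  (((c 0 0 1 + c 0 1 0 : ℤ) : R) • Xm b M 0 + ((c 1 0 1 + c 1 1 0 : ℤ) : R) • Xm b M 1) ^ 2
    - (4 : R) • ((((c 0 0 0 : ℤ) : R) • Xm b M 0 + ((c 1 0 0 : ℤ) : R) • Xm b M 1) *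
      (((c 0 1 1 : ℤ) : R) • Xm b M 0 + ((c 1 1 1 : ℤ) : R) • Xm b M 1))

theorem DNZ_smul {R S : Type} [CommRing R] [CommRing S] (f : R →+* S) {n : ℕ} (r : R)
    (A : Matrix (Fin n) (Fin n) R) : f.mapMatrix (r • A) = f r • f.mapMatrix A := by
  ext i j
  simp

theorem DNZ_Xm (b : Fin 2 → Matrix (Fin 4) (Fin 4) ℤ) {R S : Type} [CommRing R] [CommRing S]
    (f : R →+* S) (M : Matrix (Fin 2) (Fin 2) R) (j : Fin 2) :
    f.mapMatrix (Xm b M j) = Xm b (f.mapMatrix M) j := by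
  unfold Xm
  rw [map_sub, DNZ_smul, DNZ_smul, map_one, map_mul, map_intCast]
  congr 2
  ext a c
  simp

theorem DNZ_Dmap (b : Fin 2 → Matrix (Fin 4) (Fin 4) ℤ) (c : Fin 2 → Matrix (Fin 2) (Fin 2) ℤ)
    {R S : Type} [CommRing R] [CommRing S] (f : R →+* S) (M : Matrix (Fin 2) (Fin 2) R) :
    f.mapMatrix (DNZ_D b c M) = DNZ_D b c (f.mapMatrix M) := by
  unfold DNZ_D
  simp only [map_sub, map_pow, map_add, map_mul, DNZ_smul, DNZ_Xm, map_intCast, map_ofNat]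

theorem DNZ_map (b : Fin 2 → Matrix (Fin 4) (Fin 4) ℤ) (c : Fin 2 → Matrix (Fin 2) (Fin 2) ℤ)
    {R S : Type} [CommRing R] [CommRing S] (f : R →+* S) (M : Matrix (Fin 2) (Fin 2) R) :
    f (Dl b c M) = Dl b c (f.mapMatrix M) := by
  show f (M.det * (DNZ_D b c M).det) = (f.mapMatrix M).det * (DNZ_D b c (f.mapMatrix M)).det
  rw [map_mul, RingHom.map_det, RingHom.map_det, DNZ_Dmap]

theorem DNZ_zero (b : Fin 2 → Matrix (Fin 4) (Fin 4) ℤ) (c : Fin 2 → Matrix (Fin 2) (Fin 2) ℤ)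
    (z0 z1 : ℤ) : DNZ_D b c !![0, 0; z0, z1] =
      ((b 0 + (b 0)ᵀ).det ^ 2 * (((c 0 0 1 + c 0 1 0) * z0 + (c 1 0 1 + c 1 1 0) * z1) ^ 2 -
        4 * ((c 0 0 0 * z0 + c 1 0 0 * z1) * (c 0 1 1 * z0 + c 1 1 1 * z1)))) •
        (1 : Matrix (Fin 4) (Fin 4) ℤ) := by
  have h0 : Xm b !![0, 0; z0, z1] 0 = (z0 * (b 0 + (b 0)ᵀ).det) • (1 : Matrix (Fin 4) (Fin 4) ℤ) := by
    simp [Xm]
  have h1 : Xm b !![0, 0; z0, z1] 1 = (z1 * (b 0 + (b 0)ᵀ).det) • (1 : Matrix (Fin 4) (Fin 4) ℤ) := by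
    simp [Xm]
  unfold DNZ_D
  rw [h0, h1]
  simp only [Int.cast_id, smul_smul, ← add_smul, pow_two, Matrix.mul_smul,
    Matrix.mul_one, ← sub_smul]
  congr 1
  ring

theorem p_DNZ : Stmt_DNZ := by
  intro b c hb hc
  refine ⟨Dl b c (fun i j => MvPolynomial.X (i, j)), ?_, ?_⟩
  · obtain ⟨z0, z1, y0, y1, hy, hz⟩ := DNZ_ex (c 0 0 0) (c 1 0 0) (c 0 0 1 + c 0 1 0)
      (c 1 0 1 + c 1 1 0) (c 0 1 1) (c 1 1 1) hc
    intro h0
    set M : Matrix (Fin 2) (Fin 2) ℤ[X] := !![X * C y0, X * C y1; C z0, C z1] with hM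
    have h1 : Dl b c M = 0 := by
      have h2 := DNZ_map b c (MvPolynomial.aeval (R := ℤ)
        (fun z : Fin 2 × Fin 2 => M z.1 z.2)).toRingHom (fun i j => MvPolynomial.X (i, j))
      rw [h0, map_zero] at h2
      rw [h2]
      congr 1
      ext i j : 2
      simp
    have h3 : M.det * (DNZ_D b c M).det = 0 := h1
    rcases mul_eq_zero.1 h3 with h4 | h4
    · have h5 : M.det = X * C (y0 * z1 - y1 * z0) := by
        rw [hM, Matrix.det_fin_two_of, map_sub, map_mul, map_mul]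
        ring
      rw [h5] at h4
      rcases mul_eq_zero.1 h4 with h6 | h6
      · exact X_ne_zero h6
      · exact hy (C_eq_zero.1 h6)
    · have h5 : (DNZ_D b c ((evalRingHom (0 : ℤ)).mapMatrix M)).det = 0 := by
        rw [← DNZ_Dmap, ← RingHom.map_det, h4, map_zero]
      have h6 : (evalRingHom (0 : ℤ)).mapMatrix M = !![0, 0; z0, z1] := by
        ext i j
        fin_cases i <;> fin_cases j <;> simp [hM]
      rw [h6, DNZ_zero, Matrix.det_smul, Matrix.det_one, mul_one, Fintype.card_fin] at h5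
      have h7 := pow_eq_zero_iff (n := 4) (by norm_num) |>.1 h5
      rcases mul_eq_zero.1 h7 with h8 | h8
      · exact hb.det0 (pow_eq_zero_iff (n := 2) (by norm_num) |>.1 h8)
      · exact hz h8
  · intro R _ M
    have h2 := DNZ_map b c (MvPolynomial.aeval (R := ℤ)
      (fun z : Fin 2 × Fin 2 => M z.1 z.2)).toRingHom (fun i j => MvPolynomial.X (i, j))
    have h3 : (MvPolynomial.aeval (R := ℤ)
      (fun z : Fin 2 × Fin 2 => M z.1 z.2)).toRingHom.mapMatrix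
        (fun i j => MvPolynomial.X (i, j)) = M := by
      ext i j
      simp
    rw [h3] at h2
    exact h2

end Pool.GLU
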