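import Pool.Agent.Work.MP_9fb703_gl.Interface

set_option autoImplicit false

namespace Pool.GLU

open Finset in
theorem DUA_vec (n : ℕ) [NeZero n] {k : ℕ} (c : Fin k → ZMod n) :
    ∑ z : Fin k → ZMod n, ZMod.stdAddChar (c ⬝ᵥ z) = if c = 0 then (n : ℂ) ^ k else 0 := by
  have h1 : ∀ z : Fin k → ZMod n, (ZMod.stdAddChar (c ⬝ᵥ z) : ℂ) =
      ∏ j, ZMod.stdAddChar (z j * c j) := by
    intro z
    have h0 : ∀ (s : Finset (Fin k)) (g : Fin k → ZMod n),
        (ZMod.stdAddChar (∑ j ∈ s, g j) : ℂ) = ∏ j ∈ s, ZMod.stdAddChar (g j) := by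
      intro s g
      induction s using Finset.induction_on with
      | empty => simp
      | insert a s ha ih => rw [Finset.sum_insert ha, Finset.prod_insert ha, AddChar.map_add_eq_mul, ih]
    rw [dotProduct, h0]
    exact Finset.prod_congr rfl fun j _ => by rw [mul_comm]
  have h2 : ∀ j : Fin k, ∑ t : ZMod n, (ZMod.stdAddChar (t * c j) : ℂ) =
      if c j = 0 then (n : ℂ) else 0 := by
    intro j
    rw [AddChar.sum_mulShift (c j) (ZMod.isPrimitive_stdAddChar n)]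
    simp [ZMod.card]
  calc ∑ z : Fin k → ZMod n, (ZMod.stdAddChar (c ⬝ᵥ z) : ℂ)
      = ∑ z : Fin k → ZMod n, ∏ j, ZMod.stdAddChar (z j * c j) := Finset.sum_congr rfl fun z _ => h1 z
    _ = ∏ j, ∑ t : ZMod n, (ZMod.stdAddChar (t * c j) : ℂ) := by
        rw [Finset.prod_univ_sum]
        simp [Fintype.piFinset_univ]
    _ = ∏ j, (if c j = 0 then (n : ℂ) else 0) := Finset.prod_congr rfl fun j _ => h2 j
    _ = if c = 0 then (n : ℂ) ^ k else 0 := by
        by_cases hc : c = 0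
        · simp [hc]
        · rw [if_neg hc]
          obtain ⟨j, hj⟩ := Function.ne_iff.1 hc
          exact Finset.prod_eq_zero (Finset.mem_univ j) (if_neg (by simpa using hj))

open Finset in
theorem p_DUA : Stmt_DUA := by
  intro n _ u v
  classical
  have hn : (n : ℂ) ≠ 0 := by exact_mod_cast NeZero.ne n
  have key : ((n : ℂ) ^ 2) * (Nat.card {z : Fin 4 → ZMod n // u ⬝ᵥ z = 0 ∧ v ⬝ᵥ z = 0} : ℂ) =
      ((n : ℂ) ^ 4) * (Nat.card {μ : Fin 2 → ZMod n // μ 0 • u + μ 1 • v = 0} : ℂ) := by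
    have e1 : ∑ z : Fin 4 → ZMod n, ∑ μ : Fin 2 → ZMod n,
        (ZMod.stdAddChar ((![u ⬝ᵥ z, v ⬝ᵥ z] : Fin 2 → ZMod n) ⬝ᵥ μ) : ℂ) =
        ((n : ℂ) ^ 2) * (Nat.card {z : Fin 4 → ZMod n // u ⬝ᵥ z = 0 ∧ v ⬝ᵥ z = 0} : ℂ) := by
      rw [Nat.card_eq_fintype_card, Fintype.card_subtype]
      rw [Finset.card_eq_sum_ones, Nat.cast_sum, Finset.mul_sum, Finset.sum_filter]
      refine Finset.sum_congr rfl fun z _ => ?_
      rw [DUA_vec]
      have : ((![u ⬝ᵥ z, v ⬝ᵥ z] : Fin 2 → ZMod n) = 0) ↔ (u ⬝ᵥ z = 0 ∧ v ⬝ᵥ z = 0) := by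
        constructor
        · intro h
          exact ⟨by simpa using congrFun h 0, by simpa using congrFun h 1⟩
        · rintro ⟨h0, h1⟩
          funext i
          fin_cases i
          · simpa using h0
          · simpa using h1
      by_cases h : u ⬝ᵥ z = 0 ∧ v ⬝ᵥ z = 0
      · rw [if_pos (this.2 h), if_pos h]; simp
      · rw [if_neg (fun h' => h (this.1 h')), if_neg h]
    have e2 : ∑ μ : Fin 2 → ZMod n, ∑ z : Fin 4 → ZMod n,
        (ZMod.stdAddChar ((μ 0 • u + μ 1 • v) ⬝ᵥ z) : ℂ) =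
        ((n : ℂ) ^ 4) * (Nat.card {μ : Fin 2 → ZMod n // μ 0 • u + μ 1 • v = 0} : ℂ) := by
      rw [Nat.card_eq_fintype_card, Fintype.card_subtype]
      rw [Finset.card_eq_sum_ones, Nat.cast_sum, Finset.mul_sum, Finset.sum_filter]
      refine Finset.sum_congr rfl fun μ _ => ?_
      rw [DUA_vec]
      by_cases h : μ 0 • u + μ 1 • v = 0
      · rw [if_pos h, if_pos h]; simp
      · rw [if_neg h, if_neg h]
    rw [← e1, ← e2, Finset.sum_comm]
    refine Finset.sum_congr rfl fun μ _ => Finset.sum_congr rfl fun z _ => ?_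
    congr 1
    simp only [dotProduct, Fin.sum_univ_two, Fin.sum_univ_four, Matrix.cons_val_zero,
      Matrix.cons_val_one, Pi.add_apply, Pi.smul_apply, smul_eq_mul]
    ring
  have h3 : (n : ℂ) ^ 4 = (n : ℂ) ^ 2 * (n : ℂ) ^ 2 := by ring
  rw [h3, mul_assoc] at key
  have h4 := mul_left_cancel₀ (pow_ne_zero 2 hn) key
  exact_mod_cast h4

end Pool.GLU
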