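import Pool.Agent.Work.MP_9fb703_gl.Interface

/-! Block FMO (helper98): the first moment. -/

set_option autoImplicit false

namespace Pool.GLU

open Matrix Polynomial MeasureTheory

/-! ### Quadratic forms -/

theorem FMO_qv {n : ℕ} (b : Fin 2 → Matrix (Fin n) (Fin n) ℤ) {R : Type} [CommRing R]
    (x : Fin n → R) (i : Fin 2) : qv b x i = ∑ j, ∑ k, x j * (((b i j k : ℤ) : R) * x k) := by
  simp only [qv, dotProduct, mulVec, Matrix.map_apply, Finset.mul_sum]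

theorem FMO_qv_cast {n : ℕ} (b : Fin 2 → Matrix (Fin n) (Fin n) ℤ) (x : Fin n → ℤ) (s : ℝ)
    (i : Fin 2) : qv b (fun j => (x j : ℝ) / s) i = ((qv b x i : ℤ) : ℝ) / s ^ 2 := by
  rw [FMO_qv, FMO_qv]
  push_cast
  rw [Finset.sum_div]
  refine Finset.sum_congr rfl fun j _ => ?_
  rw [Finset.sum_div]
  refine Finset.sum_congr rfl fun k _ => ?_
  field_simp

theorem FMO_qv_smul {n : ℕ} (b : Fin 2 → Matrix (Fin n) (Fin n) ℤ) (x : Fin n → ℝ) (s : ℝ) :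
    qv b (s • x) = s ^ 2 • qv b x := by
  funext i
  rw [Pi.smul_apply, FMO_qv, FMO_qv, smul_eq_mul, Finset.mul_sum]
  refine Finset.sum_congr rfl fun j _ => ?_
  rw [Finset.mul_sum]
  refine Finset.sum_congr rfl fun k _ => ?_
  simp only [Pi.smul_apply, smul_eq_mul]
  ring

theorem FMO_qv_cont {n : ℕ} (b : Fin 2 → Matrix (Fin n) (Fin n) ℤ) :
    Continuous fun x : Fin n → ℝ => qv b x := by
  refine continuous_pi fun i => ?_
  have : (fun x : Fin n → ℝ => qv b x i) =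
      fun x => ∑ j, ∑ k, x j * (((b i j k : ℤ) : ℝ) * x k) := by
    funext x
    exact FMO_qv b x i
  rw [this]
  fun_prop

theorem FMO_qv_mod {n : ℕ} (b : Fin 2 → Matrix (Fin n) (Fin n) ℤ) (N : ℤ) (x y : Fin n → ℤ)
    (h : ∀ j, N ∣ x j - y j) (i : Fin 2) : N ∣ qv b x i - qv b y i := by
  rw [FMO_qv, FMO_qv, ← Finset.sum_sub_distrib]
  simp only [Int.cast_id]
  refine Finset.dvd_sum fun j _ => ?_
  rw [← Finset.sum_sub_distrib]
  refine Finset.dvd_sum fun k _ => ?_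
  have e : x j * (b i j k * x k) - y j * (b i j k * y k) =
      (x j - y j) * (b i j k * x k) + (y j * b i j k) * (x k - y k) := by
    ring
  rw [e]
  exact dvd_add (Dvd.dvd.mul_right (h j) _) (Dvd.dvd.mul_left (h k) _)

/-! ### The volume of the set of parameters -/

theorem FMO_det (a b c d : ℝ) : LinearMap.det
    (LinearMap.prod (a • LinearMap.fst ℝ (Fin 2 → ℝ) (Fin 2 → ℝ) + b • LinearMap.snd ℝ _ _)
      (c • LinearMap.fst ℝ (Fin 2 → ℝ) (Fin 2 → ℝ) + d • LinearMap.snd ℝ _ _)) =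
    (a * d - b * c) ^ 2 := by
  rw [← LinearMap.det_toMatrix ((Pi.basisFun ℝ (Fin 2)).prod (Pi.basisFun ℝ (Fin 2)))]
  have h : LinearMap.toMatrix ((Pi.basisFun ℝ (Fin 2)).prod (Pi.basisFun ℝ (Fin 2)))
      ((Pi.basisFun ℝ (Fin 2)).prod (Pi.basisFun ℝ (Fin 2)))
      (LinearMap.prod (a • LinearMap.fst ℝ (Fin 2 → ℝ) (Fin 2 → ℝ) + b • LinearMap.snd ℝ _ _)
      (c • LinearMap.fst ℝ (Fin 2 → ℝ) (Fin 2 → ℝ) + d • LinearMap.snd ℝ _ _)) =
      Matrix.fromBlocks (a • (1 : Matrix (Fin 2) (Fin 2) ℝ)) (b • 1) (c • 1) (d • 1) := by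
    ext i j
    rw [LinearMap.toMatrix_apply]
    rcases i with i | i <;> rcases j with j | j <;>
      simp [Matrix.one_apply, Pi.single_apply]
  have h2 : Matrix.fromBlocks (a • (1 : Matrix (Fin 2) (Fin 2) ℝ)) (b • 1) (c • 1) (d • 1) =
      Matrix.submatrix !![a, 0, b, 0; 0, a, 0, b; c, 0, d, 0; 0, c, 0, d]
        (finSumFinEquiv : Fin 2 ⊕ Fin 2 ≃ Fin 4) (finSumFinEquiv : Fin 2 ⊕ Fin 2 ≃ Fin 4) := by
    ext i j
    rcases i with i | i <;> rcases j with j | j <;> fin_cases i <;> fin_cases j <;>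
      simp [finSumFinEquiv]
  rw [h, h2, Matrix.det_submatrix_equiv_self]
  simp [Matrix.det_succ_row_zero, Fin.sum_univ_succ, Fin.succAbove]
  ring

/-- the parameters `(ρ, T)` of the matrices in the cube -/
def FMO_S (α : Matrix (Fin 2) (Fin 2) ℝ) (θ G p q u0 u1 : ℝ) :
    Set ((Fin 2 → ℝ) × (Fin 2 → ℝ)) :=
  {z | ∀ i, (α i 0 < z.1 i / G * p - z.2 i * u1 ∧ z.1 i / G * p - z.2 i * u1 < α i 0 + θ) ∧
    (α i 1 < z.1 i / G * q + z.2 i * u0 ∧ z.1 i / G * q + z.2 i * u0 < α i 1 + θ)}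

theorem FMO_open (α : Matrix (Fin 2) (Fin 2) ℝ) (θ G p q u0 u1 : ℝ) :
    IsOpen (FMO_S α θ G p q u0 u1) := by
  have e : FMO_S α θ G p q u0 u1 = ⋂ i : Fin 2,
      {z : (Fin 2 → ℝ) × (Fin 2 → ℝ) | (α i 0 < z.1 i / G * p - z.2 i * u1 ∧
        z.1 i / G * p - z.2 i * u1 < α i 0 + θ) ∧
      (α i 1 < z.1 i / G * q + z.2 i * u0 ∧ z.1 i / G * q + z.2 i * u0 < α i 1 + θ)} := by
    ext z
    simp [FMO_S]
  rw [e]
  refine isOpen_iInter_of_finite fun i => ?_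
  refine IsOpen.and (IsOpen.and ?_ ?_) (IsOpen.and ?_ ?_)
  · exact isOpen_lt (by fun_prop) (by fun_prop)
  · exact isOpen_lt (by fun_prop) (by fun_prop)
  · exact isOpen_lt (by fun_prop) (by fun_prop)
  · exact isOpen_lt (by fun_prop) (by fun_prop)

theorem FMO_vol (α : Matrix (Fin 2) (Fin 2) ℝ) (θ G p q u0 u1 : ℝ) (hG : 0 < G) (hθ : 0 < θ)
    (h : u0 * p + u1 * q = 1) :
    volume (FMO_S α θ G p q u0 u1) = ENNReal.ofReal (G ^ 2 * θ ^ 4) := by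
  obtain ⟨f, hf⟩ : ∃ f : ((Fin 2 → ℝ) × (Fin 2 → ℝ)) →ₗ[ℝ] ((Fin 2 → ℝ) × (Fin 2 → ℝ)),
      f = LinearMap.prod ((p / G) • LinearMap.fst ℝ (Fin 2 → ℝ) (Fin 2 → ℝ) +
        (-u1) • LinearMap.snd ℝ _ _) ((q / G) • LinearMap.fst ℝ (Fin 2 → ℝ) (Fin 2 → ℝ) +
        u0 • LinearMap.snd ℝ _ _) := ⟨_, rfl⟩
  have hdet : LinearMap.det f = (G ^ 2)⁻¹ := by
    rw [hf, FMO_det]
    have : p / G * u0 - -u1 * (q / G) = (u0 * p + u1 * q) / G := by
      field_simp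
      ring
    rw [this, h, div_pow, one_pow, one_div]
  have hdet0 : LinearMap.det f ≠ 0 := by
    rw [hdet]
    positivity
  have e : FMO_S α θ G p q u0 u1 = f ⁻¹' ((Set.pi Set.univ fun i => Set.Ioo (α i 0) (α i 0 + θ)) ×ˢ
      (Set.pi Set.univ fun i => Set.Ioo (α i 1) (α i 1 + θ))) := by
    ext z
    have e1 : ∀ i, (f z).1 i = z.1 i / G * p - z.2 i * u1 := by
      intro i
      rw [hf]
      simp
      ring
    have e2 : ∀ i, (f z).2 i = z.1 i / G * q + z.2 i * u0 := by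
      intro i
      rw [hf]
      simp
      ring
    simp only [FMO_S, Set.mem_ofPred_eq, Set.mem_preimage, Set.mem_prod, Set.mem_pi, Set.mem_univ,
      forall_true_left, Set.mem_Ioo, e1, e2]
    constructor
    · intro hz
      exact ⟨fun i => (hz i).1, fun i => (hz i).2⟩
    · intro hz i
      exact ⟨hz.1 i, hz.2 i⟩
  have hH : (volume : Measure ((Fin 2 → ℝ) × (Fin 2 → ℝ))).IsAddHaarMeasure :=
    Measure.prod.instIsAddHaarMeasure _ _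
  rw [e, Measure.addHaar_preimage_linearMap _ hdet0, Measure.volume_eq_prod, Measure.prod_prod,
    Real.volume_pi_Ioo, Real.volume_pi_Ioo, hdet, inv_inv]
  simp only [add_sub_cancel_left, Finset.prod_const, Finset.card_univ, Fintype.card_fin]
  rw [abs_of_pos (by positivity), ← ENNReal.ofReal_pow hθ.le, ← ENNReal.ofReal_mul (by positivity),
    ← ENNReal.ofReal_mul (by positivity)]
  congr 1
  ring

/-- Bezout for the content of `φ(w)`. -/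
theorem FMO_bez (x y : ℤ) (G : ℕ) (hG : G = Int.gcd x y) (h0 : 0 < G) :
    ∃ u0 u1 p q : ℤ, x = G * u0 ∧ y = G * u1 ∧ u0 * p + u1 * q = 1 := by
  obtain ⟨u0, h1⟩ : (G : ℤ) ∣ x := by rw [hG]; exact Int.gcd_dvd_left ..
  obtain ⟨u1, h2⟩ : (G : ℤ) ∣ y := by rw [hG]; exact Int.gcd_dvd_right ..
  refine ⟨u0, u1, Int.gcdA x y, Int.gcdB x y, h1, h2, ?_⟩
  have h3 := Int.gcd_eq_gcd_ab x y
  rw [← hG] at h3
  have h4 : (G : ℤ) * (u0 * Int.gcdA x y + u1 * Int.gcdB x y) = G * 1 := by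
    rw [mul_one]
    conv_rhs => rw [h3]
    conv_rhs => rw [show x * Int.gcdA x y + y * Int.gcdB x y =
      (G * u0) * Int.gcdA x y + (G * u1) * Int.gcdB x y by rw [← h1, ← h2]]
    ring
  have hG' : (G : ℤ) ≠ 0 := by exact_mod_cast h0.ne'
  exact mul_left_cancel₀ hG' h4

/-! ### Counting -/

theorem FMO_cnt {K X Y : Type} (F : Finset K) (A : K → Set X) (T : Set Y) (hT : T.Finite)
    (Ψ : X → Y) (hm : ∀ κ ∈ F, ∀ v ∈ A κ, Ψ v ∈ T)
    (hinj : ∀ κ ∈ F, ∀ κ' ∈ F, ∀ v ∈ A κ, ∀ v' ∈ A κ', Ψ v = Ψ v' → κ = κ' ∧ v = v') :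
    ∑ κ ∈ F, (A κ).ncard ≤ T.ncard := by
  classical
  have hfin : ∀ κ ∈ F, (A κ).Finite := fun κ hκ =>
    Set.Finite.of_injOn (f := Ψ) (fun v hv => hm κ hκ v hv)
      (fun v hv v' hv' h => (hinj κ hκ κ hκ v hv v' hv' h).2) hT
  let A' : K → Finset X := fun κ => if h : (A κ).Finite then h.toFinset else ∅
  have h1 : ∀ κ ∈ F, (A κ).ncard = (A' κ).card := by
    intro κ hκ
    have h2 : A' κ = (hfin κ hκ).toFinset := dif_pos (hfin κ hκ)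
    rw [h2, Set.ncard_eq_toFinset_card _ (hfin κ hκ)]
  have h3 : ∀ κ ∈ F, ∀ v, v ∈ A' κ ↔ v ∈ A κ := by
    intro κ hκ v
    have h2 : A' κ = (hfin κ hκ).toFinset := dif_pos (hfin κ hκ)
    rw [h2, Set.Finite.mem_toFinset]
  rw [Finset.sum_congr rfl h1, ← Finset.card_sigma, Set.ncard_eq_toFinset_card _ hT]
  refine Finset.card_le_card_of_injOn (fun z => Ψ z.2) ?_ ?_
  · rintro ⟨κ, v⟩ hz
    have hz' := Finset.mem_sigma.1 (Finset.mem_coe.1 hz)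
    rw [Finset.mem_coe, Set.Finite.mem_toFinset]
    exact hm κ hz'.1 v ((h3 κ hz'.1 v).1 hz'.2)
  · rintro ⟨κ, v⟩ hz ⟨κ', v'⟩ hz' h
    have h4 := Finset.mem_sigma.1 (Finset.mem_coe.1 hz)
    have h5 := Finset.mem_sigma.1 (Finset.mem_coe.1 hz')
    obtain ⟨e1, e2⟩ := hinj κ h4.1 κ' h5.1 v ((h3 κ h4.1 v).1 h4.2) v'
      ((h3 κ' h5.1 v').1 h5.2) h
    subst e1
    subst e2
    rfl

theorem FMO_tfin (b : Fin 2 → Matrix (Fin 4) (Fin 4) ℤ) (c : Fin 2 → Matrix (Fin 2) (Fin 2) ℤ)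
    (D : Set (Fin 4 → ℝ)) (ρ : ℝ) (hD : ∀ x ∈ D, ‖x‖ ≤ ρ) (V W : ℕ) (x₀ : Fin 4 → ℤ) (t : ℝ)
    (ht : 0 < t) (w : Fin 2 → ℤ) (M₀ : Matrix (Fin 2) (Fin 2) ℤ) (α : Matrix (Fin 2) (Fin 2) ℝ)
    (θ : ℝ) (B : ℕ) :
    {z : Matrix (Fin 2) (Fin 2) ℤ × (Fin 4 → ℤ) | z.1 ∈ CB α θ W M₀ B ∧
      z.2 ∈ Rw b c V x₀ D t w z.1}.Finite := by
  have h1 : (Set.Icc (fun i j => ⌈α i j * (B : ℝ) ^ 2⌉ : Fin 2 → Fin 2 → ℤ)
      (fun i j => ⌊(α i j + θ) * (B : ℝ) ^ 2⌋)).Finite := Set.finite_Icc _ _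
  have h2 : (Set.Icc (fun _ => ⌈-(ρ * t)⌉ : Fin 4 → ℤ) (fun _ => ⌊ρ * t⌋)).Finite :=
    Set.finite_Icc _ _
  refine Set.Finite.of_injOn (f := fun z : Matrix (Fin 2) (Fin 2) ℤ × (Fin 4 → ℤ) =>
    ((fun i j => z.1 i j : Fin 2 → Fin 2 → ℤ), z.2)) ?_ ?_ (h1.prod h2)
  · rintro ⟨M, x⟩ ⟨hM, hx⟩
    obtain ⟨-, hM2⟩ := hM
    obtain ⟨-, hx2, -⟩ := hx
    refine ⟨⟨fun i j => Int.ceil_le.2 (hM2 i j).1, fun i j => Int.le_floor.2 (hM2 i j).2⟩, ?_⟩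
    have h3 := hD _ hx2
    have h4 : ∀ j, |(x j : ℝ)| ≤ ρ * t := by
      intro j
      have h5 := (norm_le_pi_norm (sc t x) j).trans h3
      rw [Real.norm_eq_abs] at h5
      unfold sc at h5
      rw [abs_div, abs_of_pos ht, div_le_iff₀ ht] at h5
      exact h5
    exact ⟨fun j => Int.ceil_le.2 (abs_le.1 (h4 j)).1, fun j => Int.le_floor.2 (abs_le.1 (h4 j)).2⟩
  · rintro ⟨M, x⟩ _ ⟨M', x'⟩ _ h
    simp only [Prod.mk.injEq] at h
    refine Prod.ext ?_ h.2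
    ext i j
    exact congrFun (congrFun h.1 i) j

/-- the matrix with parameters `y`, `τ` -/
def FMO_M (p q u0 u1 : ℤ) (y τ : Fin 2 → ℤ) : Matrix (Fin 2) (Fin 2) ℤ :=
  Matrix.of fun i j => if j = 0 then y i * p - τ i * u1 else y i * q + τ i * u0

theorem FMO_M0 (p q u0 u1 : ℤ) (y τ : Fin 2 → ℤ) (i : Fin 2) :
    FMO_M p q u0 u1 y τ i 0 = y i * p - τ i * u1 := by
  simp [FMO_M]

theorem FMO_M1 (p q u0 u1 : ℤ) (y τ : Fin 2 → ℤ) (i : Fin 2) :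
    FMO_M p q u0 u1 y τ i 1 = y i * q + τ i * u0 := by
  simp [FMO_M]

/-- the arithmetic of one lattice point -/
theorem FMO_pt (b : Fin 2 → Matrix (Fin 4) (Fin 4) ℤ) (c : Fin 2 → Matrix (Fin 2) (Fin 2) ℤ)
    (W G : ℕ) (hG : 0 < G) (M₀ : Matrix (Fin 2) (Fin 2) ℤ) (w : Fin 2 → ℤ)
    (u0 u1 p q : ℤ) (hu0 : qv c w 0 = G * u0) (hu1 : qv c w 1 = G * u1)
    (hpq : u0 * p + u1 * q = 1) (x κ : Fin 4 → ℤ) (τ : Fin 2 → ℤ)
    (hκ : ∀ i, ((W * G : ℕ) : ℤ) ∣ qv b κ i - (M₀ *ᵥ qv c w) i)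
    (hx : ∀ j, ((W * G : ℕ) : ℤ) ∣ x j - κ j)
    (hτ : ∀ i, (W : ℤ) ∣ τ i - (M₀ i 1 * p - M₀ i 0 * q)) :
    (∀ i, qv b x i = G * (qv b x i / G)) ∧
    (∀ i j, (W : ℤ) ∣ FMO_M p q u0 u1 (fun i => qv b x i / G) τ i j - M₀ i j) ∧
    Zer b c (FMO_M p q u0 u1 (fun i => qv b x i / G) τ) x w := by
  have hGz : (G : ℤ) ≠ 0 := by exact_mod_cast hG.ne'
  have h1 : ∀ i, (M₀ *ᵥ qv c w) i = G * (M₀ i 0 * u0 + M₀ i 1 * u1) := by
    intro i
    simp only [mulVec, dotProduct, Fin.sum_univ_two, hu0, hu1]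
    ring
  have h2 : ∀ i, ((W * G : ℕ) : ℤ) ∣ qv b x i - G * (M₀ i 0 * u0 + M₀ i 1 * u1) := by
    intro i
    have h3 := FMO_qv_mod b _ x κ hx i
    have h4 := dvd_add h3 (hκ i)
    rw [h1] at h4
    have e : qv b x i - qv b κ i + (qv b κ i - G * (M₀ i 0 * u0 + M₀ i 1 * u1)) =
        qv b x i - G * (M₀ i 0 * u0 + M₀ i 1 * u1) := by ring
    rwa [e] at h4
  have h3 : ∀ i, qv b x i = G * (qv b x i / G) := by
    intro i
    have h4 : (G : ℤ) ∣ qv b x i := by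
      have h5 : (G : ℤ) ∣ qv b x i - G * (M₀ i 0 * u0 + M₀ i 1 * u1) :=
        Dvd.dvd.trans (by push_cast; exact Dvd.intro_left _ rfl) (h2 i)
      have h6 := dvd_add h5 (Dvd.intro (M₀ i 0 * u0 + M₀ i 1 * u1) (rfl :
        (G : ℤ) * (M₀ i 0 * u0 + M₀ i 1 * u1) = _))
      rwa [sub_add_cancel] at h6
    exact (Int.mul_ediv_cancel' h4).symm
  have h4 : ∀ i, (W : ℤ) ∣ qv b x i / G - (M₀ i 0 * u0 + M₀ i 1 * u1) := by
    intro i
    have h5 := h2 i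
    rw [h3 i] at h5
    have e : (G : ℤ) * (qv b x i / G) - G * (M₀ i 0 * u0 + M₀ i 1 * u1) =
        (qv b x i / G - (M₀ i 0 * u0 + M₀ i 1 * u1)) * G := by ring
    rw [e] at h5
    push_cast at h5
    exact Int.dvd_of_mul_dvd_mul_right hGz h5
  refine ⟨h3, ?_, ?_⟩
  · intro i j
    fin_cases j
    · show (W : ℤ) ∣ FMO_M p q u0 u1 (fun i => qv b x i / G) τ i 0 - M₀ i 0
      rw [FMO_M0]
      have e : qv b x i / G * p - τ i * u1 - M₀ i 0 =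
          (qv b x i / G - (M₀ i 0 * u0 + M₀ i 1 * u1)) * p -
            (τ i - (M₀ i 1 * p - M₀ i 0 * q)) * u1 := by
        linear_combination (M₀ i 0) * hpq
      rw [e]
      exact dvd_sub (Dvd.dvd.mul_right (h4 i) _) (Dvd.dvd.mul_right (hτ i) _)
    · show (W : ℤ) ∣ FMO_M p q u0 u1 (fun i => qv b x i / G) τ i 1 - M₀ i 1
      rw [FMO_M1]
      have e : qv b x i / G * q + τ i * u0 - M₀ i 1 =
          (qv b x i / G - (M₀ i 0 * u0 + M₀ i 1 * u1)) * q +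
            (τ i - (M₀ i 1 * p - M₀ i 0 * q)) * u0 := by
        linear_combination (M₀ i 1) * hpq
      rw [e]
      exact dvd_add (Dvd.dvd.mul_right (h4 i) _) (Dvd.dvd.mul_right (hτ i) _)
  · unfold Zer
    funext i
    simp only [mulVec, dotProduct, Fin.sum_univ_two]
    rw [FMO_M0, FMO_M1, hu0, hu1]
    have h5 := h3 i
    linear_combination h5 - (G : ℤ) * (qv b x i / G) * hpq

theorem p_FMO (hRCF : Stmt_RCF) (hLPT : Stmt_LPT) (hSCL : Stmt_SCL) : Stmt_FMO := by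
  intro b c hres ξ D D' s₀ s₁ r hC P₀ m V' M₀ x₀ w₀ w t θ α hLD hP hAdm ht hθ hcube ε hε
  obtain ⟨G, hGdef⟩ : ∃ G : ℕ, G = Int.gcd (qv c w 0) (qv c w 1) := ⟨_, rfl⟩
  obtain ⟨hG0, hKc⟩ := hRCF b c hres P₀ m V' M₀ x₀ w₀ w hLD hP hAdm G hGdef
  obtain ⟨u0, u1, p, q, hu0, hu1, hpq⟩ := FMO_bez _ _ G hGdef hG0
  obtain ⟨W, hW⟩ : ∃ W : ℕ, W = m ^ 2 * V' := ⟨_, rfl⟩
  have hVW : m * V' ∣ W := ⟨m, by rw [hW]; ring⟩
  have hW0 : 0 < W := by
    rw [hW]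
    exact Nat.mul_pos (pow_pos hLD.m0 2) hLD.V0
  rw [← hW] at hKc ⊢
  have hGr : (0 : ℝ) < G := by exact_mod_cast hG0
  have hWr : (0 : ℝ) < W := by exact_mod_cast hW0
  have hpqr : (u0 : ℝ) * p + u1 * q = 1 := by exact_mod_cast hpq
  -- the classes
  obtain ⟨KK, hKK⟩ : ∃ KK : Set (Fin 4 → ℤ), KK = {x : Fin 4 → ℤ |
      (∀ j, 0 ≤ x j ∧ x j < ((W * G : ℕ) : ℤ)) ∧ (∀ j, ((m * V' : ℕ) : ℤ) ∣ x j - x₀ j) ∧
      ∀ i, ((W * G : ℕ) : ℤ) ∣ qv b x i - (M₀ *ᵥ qv c w) i} := ⟨_, rfl⟩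
  rw [← hKK] at hKc
  have hKf : KK.Finite := by
    refine Set.Finite.subset (Set.finite_Icc (fun _ => 0 : Fin 4 → ℤ) (fun _ => ((W * G : ℕ) : ℤ)))
      ?_
    intro x hx
    rw [hKK] at hx
    exact ⟨fun j => (hx.1 j).1, fun j => (hx.1 j).2.le⟩
  obtain ⟨F, hF⟩ : ∃ F : Finset (Fin 4 → ℤ), F = hKf.toFinset := ⟨_, rfl⟩
  have hFm : ∀ κ, κ ∈ F ↔ κ ∈ KK := fun κ => by rw [hF, Set.Finite.mem_toFinset]
  have hFc : F.card = kap b m V' x₀ * G ^ 2 := by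
    rw [← hKc, Set.ncard_eq_toFinset_card _ hKf, hF]
  -- the region
  obtain ⟨S, hS⟩ : ∃ S, S = FMO_S α θ (G : ℝ) (p : ℝ) (q : ℝ) (u0 : ℝ) (u1 : ℝ) := ⟨_, rfl⟩
  have hSo : IsOpen S := by rw [hS]; exact FMO_open _ _ _ _ _ _ _
  have hSv : volume S = ENNReal.ofReal ((G : ℝ) ^ 2 * θ ^ 4) := by
    rw [hS]
    exact FMO_vol α θ G p q u0 u1 hGr hθ hpqr
  have hqsc : ∀ j, qv c (sc t w) j = ((qv c w j : ℤ) : ℝ) / t ^ 2 := fun j => FMO_qv_cast c w t j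
  have hScon : ∀ z ∈ S, (t ^ 2)⁻¹ • z.1 ∈ Metric.ball (qv b ξ) r := by
    intro z hz
    rw [hS] at hz
    have h1 := hcube (Matrix.of fun i j => if j = 0 then z.1 i / G * p - z.2 i * u1
      else z.1 i / G * q + z.2 i * u0) ?_
    · have e : (Matrix.of fun i j : Fin 2 => if j = 0 then z.1 i / G * p - z.2 i * u1
          else z.1 i / G * q + z.2 i * u0) *ᵥ qv c (sc t w) = (t ^ 2)⁻¹ • z.1 := by
        funext i
        simp only [mulVec, dotProduct, Fin.sum_univ_two, Matrix.of_apply, hqsc, hu0, hu1,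
          if_true, one_ne_zero, if_false, Pi.smul_apply, smul_eq_mul]
        push_cast
        have h2 : (z.1 i / G * p - z.2 i * u1) * (G * u0 / t ^ 2) +
            (z.1 i / G * q + z.2 i * u0) * (G * u1 / t ^ 2) =
            (t ^ 2)⁻¹ * z.1 i * (u0 * p + u1 * q) := by
          field_simp
          ring
        rw [h2, hpqr, mul_one]
      rwa [e] at h1
    · intro i j
      have h2 := hz i
      fin_cases j
      · simp only [Matrix.of_apply]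
        exact ⟨h2.1.1.le, h2.1.2.le⟩
      · simp only [Matrix.of_apply]
        exact ⟨h2.2.1.le, h2.2.2.le⟩
  have hvol := hSCL b ξ D D' s₀ s₁ r hC t ht S hSo.measurableSet hScon
  obtain ⟨R, hR⟩ : ∃ R : Set ((Fin 4 → ℝ) × (Fin 2 → ℝ)),
      R = {z | t⁻¹ • z.1 ∈ D' ∧ (qv b z.1, z.2) ∈ S} := ⟨_, rfl⟩
  rw [← hR] at hvol
  have hRo : IsOpen R := by
    rw [hR]
    refine IsOpen.and ?_ ?_
    · exact hC.oD.preimage (continuous_fst.const_smul t⁻¹)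
    · exact hSo.preimage (((FMO_qv_cont b).comp continuous_fst).prodMk continuous_snd)
  obtain ⟨R', hR'⟩ : ∃ R' : Set (Fin 4 ⊕ Fin 2 → ℝ),
      R' = {v | ((fun j => v (Sum.inl j) : Fin 4 → ℝ), (fun j => v (Sum.inr j) : Fin 2 → ℝ)) ∈ R} :=
    ⟨_, rfl⟩
  have hR'o : IsOpen R' := by
    rw [hR']
    exact hRo.preimage (by fun_prop)
  have hR'v : volume R' = volume R := by
    have h1 := (volume_measurePreserving_sumPiEquivProdPi
      (fun _ : Fin 4 ⊕ Fin 2 => ℝ)).measure_preimage hRo.measurableSet.nullMeasurableSet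
    rw [← h1, hR']
    rfl
  -- bounded
  obtain ⟨rD, hrD⟩ := hC.cD.isBounded.exists_norm_le
  obtain ⟨Aα, hAα⟩ : ∃ Aα : ℝ, ∀ i j, |α i j| ≤ Aα := by
    refine ⟨∑ i, ∑ j, |α i j|, fun i j => ?_⟩
    exact (Finset.single_le_sum (f := fun j => |α i j|) (fun _ _ => abs_nonneg _)
      (Finset.mem_univ j)).trans (Finset.single_le_sum (f := fun i => ∑ j, |α i j|)
      (fun _ _ => Finset.sum_nonneg fun _ _ => abs_nonneg _) (Finset.mem_univ i))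
  have hR'b : Bornology.IsBounded R' := by
    rw [Metric.isBounded_iff_subset_closedBall 0]
    refine ⟨|t * rD| + (|(p : ℝ)| + |(q : ℝ)|) * (Aα + θ), fun v hv => ?_⟩
    have hA0 : 0 ≤ Aα := (abs_nonneg _).trans (hAα 0 0)
    have hN2 : 0 ≤ (|(p : ℝ)| + |(q : ℝ)|) * (Aα + θ) := by positivity
    rw [mem_closedBall_zero_iff, pi_norm_le_iff_of_nonneg (by positivity)]
    rw [hR', Set.mem_ofPred_eq, hR] at hv
    obtain ⟨hv1, hv2⟩ := hv
    intro i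
    rcases i with j | i
    · have h1 := hrD _ (hC.sub hv1)
      have h2 := (norm_le_pi_norm (t⁻¹ • (fun j => v (Sum.inl j) : Fin 4 → ℝ)) j).trans h1
      rw [Pi.smul_apply, smul_eq_mul, Real.norm_eq_abs, abs_mul, abs_inv, abs_of_pos ht,
        inv_mul_le_iff₀ ht] at h2
      rw [Real.norm_eq_abs]
      have h3 : t * rD ≤ |t * rD| := le_abs_self _
      linarith
    · rw [hS] at hv2
      have h1 := hv2 i
      simp only at h1
      set ρ := qv b (fun j => v (Sum.inl j) : Fin 4 → ℝ) i with hρ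
      set T := v (Sum.inr i) with hT
      have e : T = p * (ρ / G * q + T * u0) - q * (ρ / G * p - T * u1) := by
        linear_combination (-T) * hpqr
      have b0 : |ρ / G * p - T * u1| ≤ Aα + θ := by
        have h2 := hAα i 0
        rw [abs_le] at h2 ⊢
        constructor <;> linarith [h1.1.1, h1.1.2, h2.1, h2.2]
      have b1 : |ρ / G * q + T * u0| ≤ Aα + θ := by
        have h2 := hAα i 1
        rw [abs_le] at h2 ⊢
        constructor <;> linarith [h1.2.1, h1.2.2, h2.1, h2.2]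
      have h3 : |T| ≤ |(p : ℝ)| * (Aα + θ) + |(q : ℝ)| * (Aα + θ) := by
        conv_lhs => rw [e]
        refine (abs_sub _ _).trans ?_
        rw [abs_mul, abs_mul]
        exact add_le_add (mul_le_mul_of_nonneg_left b1 (abs_nonneg _))
          (mul_le_mul_of_nonneg_left b0 (abs_nonneg _))
      rw [Real.norm_eq_abs]
      have h4 : 0 ≤ |t * rD| := abs_nonneg _
      linarith
  have hvolR : s₀ * ((G : ℝ) ^ 2 * θ ^ 4) ≤ (volume R').toReal := by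
    have hfin : volume R' ≠ ⊤ := hR'b.measure_lt_top.ne
    rw [← hR'v, hSv, ← ENNReal.ofReal_mul hC.s0.le] at hvol
    exact (ENNReal.ofReal_le_iff_le_toReal hfin).1 hvol
  -- the lattice points
  obtain ⟨ε', hε'⟩ : ∃ ε' : ℝ, ε' = ε / ((kap b m V' x₀ : ℝ) + 1) := ⟨_, rfl⟩
  have hε'0 : 0 < ε' := by rw [hε']; positivity
  have hL : ∀ κ : Fin 4 → ℤ, ∃ B₀ : ℕ, ∀ B : ℕ, B₀ ≤ B →
      ((volume R').toReal - ε') * (B : ℝ) ^ 8 ≤
      (Set.ncard {x : Fin 4 ⊕ Fin 2 → ℤ |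
        (∀ i, ((Sum.elim (fun _ => W * G) (fun _ => W) i : ℕ) : ℤ) ∣ x i -
          (Sum.elim κ (fun i => M₀ i 1 * p - M₀ i 0 * q) i : ℤ)) ∧
        (fun i => (x i : ℝ) / (B : ℝ) ^ (Sum.elim (fun _ => 1) (fun _ => 2) i : ℕ)) ∈ R'} : ℝ) *
      (((W : ℝ) * G) ^ 4 * (W : ℝ) ^ 2) := by
    intro κ
    obtain ⟨B₀, hB₀⟩ := (hLPT (Fin 4 ⊕ Fin 2) (Sum.elim (fun _ => W * G) (fun _ => W))
      (Sum.elim κ (fun i => M₀ i 1 * p - M₀ i 0 * q)) (Sum.elim (fun _ => 1) (fun _ => 2)) R'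
      (by
        rintro (i | i)
        · exact Nat.mul_pos hW0 hG0
        · exact hW0)
      (by
        rintro (i | i)
        · exact le_refl 1
        · exact one_le_two)).2 hR'o hR'b ε' hε'0
    refine ⟨B₀, fun B hB => ?_⟩
    have h1 := hB₀ B hB
    have e1 : ∑ i : Fin 4 ⊕ Fin 2, (Sum.elim (fun _ => 1) (fun _ => 2) i : ℕ) = 8 := by
      rw [Fintype.sum_sum_type]
      simp
    have e2 : ∏ i : Fin 4 ⊕ Fin 2, ((Sum.elim (fun _ => W * G) (fun _ => W) i : ℕ) : ℝ) =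
        ((W : ℝ) * G) ^ 4 * (W : ℝ) ^ 2 := by
      rw [Fintype.prod_sum_type]
      simp
    rw [e1, e2] at h1
    exact h1
  choose Bf hBf using hL
  refine ⟨F.sup Bf + 1, fun B hB => ?_⟩
  have hB1 : 1 ≤ B := by omega
  have hBr : (0 : ℝ) < B := by exact_mod_cast hB1
  have hTf := FMO_tfin b c D rD hrD (m * V') W x₀ (t * B) (mul_pos ht hBr) w M₀ α θ B
  set T : Set (Matrix (Fin 2) (Fin 2) ℤ × (Fin 4 → ℤ)) := {z | z.1 ∈ CB α θ W M₀ B ∧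
      z.2 ∈ Rw b c (m * V') x₀ D (t * B) w z.1} with hTdef
  obtain ⟨A, hA⟩ : ∃ A : (Fin 4 → ℤ) → Set (Fin 4 ⊕ Fin 2 → ℤ), A = fun κ =>
      {x : Fin 4 ⊕ Fin 2 → ℤ |
        (∀ i, ((Sum.elim (fun _ => W * G) (fun _ => W) i : ℕ) : ℤ) ∣ x i -
          (Sum.elim κ (fun i => M₀ i 1 * p - M₀ i 0 * q) i : ℤ)) ∧
        (fun i => (x i : ℝ) / (B : ℝ) ^ (Sum.elim (fun _ => 1) (fun _ => 2) i : ℕ)) ∈ R'} :=
    ⟨_, rfl⟩
  have hcnt : ∑ κ ∈ F, (A κ).ncard ≤ T.ncard := by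
    refine FMO_cnt F A T hTf (fun v => (FMO_M p q u0 u1
      (fun i => qv b (fun j => v (Sum.inl j)) i / G) (fun i => v (Sum.inr i)),
      fun j => v (Sum.inl j))) ?_ ?_
    · intro κ hκ v hv
      have hκ' := (hFm κ).1 hκ
      rw [hKK] at hκ'
      obtain ⟨-, hκ2, hκ3⟩ := hκ'
      rw [hA] at hv
      obtain ⟨hv1, hv2⟩ := hv
      have hx : ∀ j, ((W * G : ℕ) : ℤ) ∣ v (Sum.inl j) - κ j := fun j => hv1 (Sum.inl j)
      have hτ : ∀ i, (W : ℤ) ∣ v (Sum.inr i) - (M₀ i 1 * p - M₀ i 0 * q) := fun i =>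
        hv1 (Sum.inr i)
      obtain ⟨g1, g2, g3⟩ := FMO_pt b c W G hG0 M₀ w u0 u1 p q hu0 hu1 hpq
        (fun j => v (Sum.inl j)) κ (fun i => v (Sum.inr i)) hκ3 hx hτ
      rw [hR', Set.mem_ofPred_eq, hR] at hv2
      obtain ⟨hv3, hv4⟩ := hv2
      have e1 : (fun j => (v (Sum.inl j) : ℝ) / (B : ℝ) ^ (1 : ℕ) : Fin 4 → ℝ) =
          fun j => (v (Sum.inl j) : ℝ) / B := by
        funext j
        rw [pow_one]
      have hv3' : t⁻¹ • (fun j => (v (Sum.inl j) : ℝ) / B : Fin 4 → ℝ) ∈ D' := by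
        rw [← e1]
        exact hv3
      have hv4' : (qv b (fun j => (v (Sum.inl j) : ℝ) / B : Fin 4 → ℝ),
          (fun i => (v (Sum.inr i) : ℝ) / (B : ℝ) ^ 2 : Fin 2 → ℝ)) ∈ S := by
        rw [← e1]
        exact hv4
      rw [hS] at hv4'
      have hq : ∀ i, qv b (fun j => (v (Sum.inl j) : ℝ) / B : Fin 4 → ℝ) i =
          (G : ℝ) * ((qv b (fun j => v (Sum.inl j) : Fin 4 → ℤ) i / (G : ℤ) : ℤ) : ℝ) /
            (B : ℝ) ^ 2 := by
        intro i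
        rw [FMO_qv_cast b (fun j => v (Sum.inl j)) B i]
        congr 1
        exact_mod_cast g1 i
      refine ⟨⟨g2, ?_⟩, ?_, ?_, g3⟩
      · intro i j
        have h1 := hv4' i
        simp only [hq] at h1
        have hB2 : (0 : ℝ) < (B : ℝ) ^ 2 := by positivity
        fin_cases j
        · show α i 0 * (B : ℝ) ^ 2 ≤ ((FMO_M p q u0 u1 _ _ i 0 : ℤ) : ℝ) ∧
            ((FMO_M p q u0 u1 _ _ i 0 : ℤ) : ℝ) ≤ (α i 0 + θ) * (B : ℝ) ^ 2
          rw [FMO_M0]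
          push_cast
          have e2 : (G : ℝ) * ((qv b (fun j => v (Sum.inl j) : Fin 4 → ℤ) i / (G : ℤ) : ℤ) : ℝ) /
              (B : ℝ) ^ 2 / G * p - (v (Sum.inr i) : ℝ) / (B : ℝ) ^ 2 * u1 =
              (((qv b (fun j => v (Sum.inl j) : Fin 4 → ℤ) i / (G : ℤ) : ℤ) : ℝ) * p -
                (v (Sum.inr i) : ℝ) * u1) / (B : ℝ) ^ 2 := by
            field_simp
          rw [e2, lt_div_iff₀ hB2, div_lt_iff₀ hB2] at h1
          exact ⟨h1.1.1.le, h1.1.2.le⟩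
        · show α i 1 * (B : ℝ) ^ 2 ≤ ((FMO_M p q u0 u1 _ _ i 1 : ℤ) : ℝ) ∧
            ((FMO_M p q u0 u1 _ _ i 1 : ℤ) : ℝ) ≤ (α i 1 + θ) * (B : ℝ) ^ 2
          rw [FMO_M1]
          push_cast
          have e2 : (G : ℝ) * ((qv b (fun j => v (Sum.inl j) : Fin 4 → ℤ) i / (G : ℤ) : ℤ) : ℝ) /
              (B : ℝ) ^ 2 / G * q + (v (Sum.inr i) : ℝ) / (B : ℝ) ^ 2 * u0 =
              (((qv b (fun j => v (Sum.inl j) : Fin 4 → ℤ) i / (G : ℤ) : ℤ) : ℝ) * q +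
                (v (Sum.inr i) : ℝ) * u0) / (B : ℝ) ^ 2 := by
            field_simp
          rw [e2, lt_div_iff₀ hB2, div_lt_iff₀ hB2] at h1
          exact ⟨h1.2.1.le, h1.2.2.le⟩
      · intro j
        have h1 : ((m * V' : ℕ) : ℤ) ∣ ((W * G : ℕ) : ℤ) := by
          exact_mod_cast Dvd.dvd.mul_right hVW G
        have h2 := dvd_add (h1.trans (hx j)) (hκ2 j)
        rwa [sub_add_sub_cancel] at h2
      · have h1 : sc (t * B) (fun j => v (Sum.inl j)) =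
            t⁻¹ • (fun j => (v (Sum.inl j) : ℝ) / B : Fin 4 → ℝ) := by
          funext j
          simp only [sc, Pi.smul_apply, smul_eq_mul]
          field_simp
        rw [h1]
        exact hC.sub hv3'
    · intro κ hκ κ' hκ' v hv v' hv' h
      have k1 := (hFm κ).1 hκ
      have k2 := (hFm κ').1 hκ'
      rw [hKK] at k1 k2
      rw [hA] at hv hv'
      obtain ⟨hv1, -⟩ := hv
      obtain ⟨hv2, -⟩ := hv'
      have h1 := congrArg Prod.snd h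
      have h2 := congrArg Prod.fst h
      simp only at h1 h2
      have hx : ∀ j, v (Sum.inl j) = v' (Sum.inl j) := fun j => congrFun h1 j
      constructor
      · funext j
        have d1 : ((W * G : ℕ) : ℤ) ∣ v (Sum.inl j) - κ j := hv1 (Sum.inl j)
        have d2 : ((W * G : ℕ) : ℤ) ∣ v' (Sum.inl j) - κ' j := hv2 (Sum.inl j)
        have d3 : ((W * G : ℕ) : ℤ) ∣ κ j - κ' j := by
          have := dvd_sub d2 d1
          rwa [hx j, sub_sub_sub_cancel_left] at this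
        have b1 := k1.1 j
        have b2 := k2.1 j
        have d4 := Int.eq_zero_of_abs_lt_dvd d3 (by
          rw [abs_lt]
          constructor <;> linarith [b1.1, b1.2, b2.1, b2.2])
        linarith
      · funext i
        rcases i with j | i
        · exact hx j
        · have m0 := congrFun (congrFun h2 i) 0
          have m1 := congrFun (congrFun h2 i) 1
          rw [FMO_M0, FMO_M0] at m0
          rw [FMO_M1, FMO_M1] at m1
          have e1 : qv b (fun j => v (Sum.inl j)) i = qv b (fun j => v' (Sum.inl j)) i := by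
            rw [h1]
          rw [e1] at m0 m1
          linear_combination p * m1 - q * m0 - (v (Sum.inr i) - v' (Sum.inr i)) * hpq
  have hsum : (F.card : ℝ) * (((volume R').toReal - ε') * (B : ℝ) ^ 8) ≤
      (T.ncard : ℝ) * (((W : ℝ) * G) ^ 4 * (W : ℝ) ^ 2) := by
    have h1 : ∑ _κ ∈ F, (((volume R').toReal - ε') * (B : ℝ) ^ 8) ≤
        ∑ κ ∈ F, ((A κ).ncard : ℝ) * (((W : ℝ) * G) ^ 4 * (W : ℝ) ^ 2) := by
      refine Finset.sum_le_sum fun κ hκ => ?_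
      have h2 : Bf κ ≤ F.sup Bf := Finset.le_sup hκ
      have h3 := hBf κ B (by omega)
      rw [hA]
      exact h3
    rw [Finset.sum_const, nsmul_eq_mul, ← Finset.sum_mul] at h1
    refine h1.trans (mul_le_mul_of_nonneg_right ?_ (by positivity))
    exact_mod_cast hcnt
  rw [hFc] at hsum
  push_cast at hsum
  set k : ℝ := (kap b m V' x₀ : ℝ) with hk
  have hk0 : 0 ≤ k := Nat.cast_nonneg _
  have hB8 : (0 : ℝ) < (B : ℝ) ^ 8 := by positivity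
  have h1 : k * (G : ℝ) ^ 2 * ((s₀ * ((G : ℝ) ^ 2 * θ ^ 4) - ε') * (B : ℝ) ^ 8) ≤
      (T.ncard : ℝ) * (((W : ℝ) * G) ^ 4 * (W : ℝ) ^ 2) := by
    refine le_trans ?_ hsum
    refine mul_le_mul_of_nonneg_left ?_ (by positivity)
    exact mul_le_mul_of_nonneg_right (by linarith) hB8.le
  have h2 : k * ε' ≤ ε := by
    rw [hε', mul_div_assoc', div_le_iff₀ (by positivity)]
    nlinarith
  have hG1 : (1 : ℝ) ≤ G := by exact_mod_cast hG0
  have hW1 : (1 : ℝ) ≤ W := by exact_mod_cast hW0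
  have h3 : (G : ℝ) ^ 2 * (k * ε') ≤ (W : ℝ) ^ 6 * (G : ℝ) ^ 4 * ε := by
    have h4 : (G : ℝ) ^ 2 * (k * ε') ≤ (G : ℝ) ^ 2 * ε := mul_le_mul_of_nonneg_left h2 (by positivity)
    have h5 : (G : ℝ) ^ 2 ≤ (W : ℝ) ^ 6 * (G : ℝ) ^ 4 := by
      have h6 : (1 : ℝ) ≤ (W : ℝ) ^ 6 := one_le_pow₀ hW1
      have h7 : (G : ℝ) ^ 2 ≤ (G : ℝ) ^ 4 := pow_le_pow_right₀ hG1 (by norm_num)
      calc (G : ℝ) ^ 2 ≤ (G : ℝ) ^ 4 := h7
        _ = 1 * (G : ℝ) ^ 4 := (one_mul _).symm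
        _ ≤ (W : ℝ) ^ 6 * (G : ℝ) ^ 4 := mul_le_mul_of_nonneg_right h6 (by positivity)
    exact h4.trans (mul_le_mul_of_nonneg_right h5 hε.le)
  have hWG : (0 : ℝ) < (W : ℝ) ^ 6 * (G : ℝ) ^ 4 := by positivity
  refine le_of_mul_le_mul_right ?_ hWG
  have e1 : (k * s₀ * θ ^ 4 / (W : ℝ) ^ 6 - ε) * (B : ℝ) ^ 8 * ((W : ℝ) ^ 6 * (G : ℝ) ^ 4) =
      (k * s₀ * θ ^ 4 * (G : ℝ) ^ 4 - (W : ℝ) ^ 6 * (G : ℝ) ^ 4 * ε) * (B : ℝ) ^ 8 := by
    field_simp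
  have e2 : k * (G : ℝ) ^ 2 * ((s₀ * ((G : ℝ) ^ 2 * θ ^ 4) - ε') * (B : ℝ) ^ 8) =
      (k * s₀ * θ ^ 4 * (G : ℝ) ^ 4 - (G : ℝ) ^ 2 * (k * ε')) * (B : ℝ) ^ 8 := by
    ring
  have e3 : (T.ncard : ℝ) * (((W : ℝ) * G) ^ 4 * (W : ℝ) ^ 2) =
      (T.ncard : ℝ) * ((W : ℝ) ^ 6 * (G : ℝ) ^ 4) := by
    ring
  rw [e1, ← e3]
  rw [e2] at h1
  refine le_trans ?_ h1
  exact mul_le_mul_of_nonneg_right (by linarith) hB8.le

end Pool.GLU
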