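import Pool.Agent.Work.MP_9fb703_gl.Interface

/-!
# Block GEN: real generic points
-/

set_option autoImplicit false

namespace Pool.GLU

open Matrix Polynomial MeasureTheory
open scoped Topology

theorem GEN_sym (b : Fin 2 → Matrix (Fin 4) (Fin 4) ℤ) (i : Fin 2) (x y : Fin 4 → ℝ) :
    jv b x i ⬝ᵥ y = jv b y i ⬝ᵥ x := by
  unfold jv
  simp only [dotProduct, mulVec, Matrix.map_apply, Matrix.add_apply, Matrix.transpose_apply,
    Finset.sum_mul]
  rw [Finset.sum_comm]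
  refine Finset.sum_congr rfl fun j _ => Finset.sum_congr rfl fun k _ => ?_
  push_cast
  ring

theorem GEN_two (b : Fin 2 → Matrix (Fin 4) (Fin 4) ℤ) (i : Fin 2) (x : Fin 4 → ℝ) :
    jv b x i ⬝ᵥ x = 2 * qv b x i := by
  unfold jv qv
  simp only [dotProduct, mulVec, Matrix.map_apply, Matrix.add_apply, Matrix.transpose_apply,
    Finset.sum_mul, Finset.mul_sum]
  have h : ∀ j k : Fin 4, ((((b i) j k + (b i) k j : ℤ) : ℝ) * x k * x j) =
      x j * (((b i) j k : ℝ) * x k) + x k * (((b i) k j : ℝ) * x j) := by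
    intro j k
    push_cast
    ring
  simp only [h, Finset.sum_add_distrib]
  rw [Finset.sum_comm (f := fun j k => x k * (((b i) k j : ℝ) * x j))]
  simp only [← Finset.sum_add_distrib]
  refine Finset.sum_congr rfl fun j _ => Finset.sum_congr rfl fun k _ => ?_
  ring

theorem GEN_lin (b : Fin 2 → Matrix (Fin 4) (Fin 4) ℤ) (i : Fin 2) (t : ℝ) (x : Fin 4 → ℝ) :
    jv b (t • x) i = t • jv b x i := by
  unfold jv
  rw [mulVec_smul]

theorem GEN_qderiv (b : Fin 2 → Matrix (Fin 4) (Fin 4) ℤ) (x : Fin 4 → ℝ) (i : Fin 2) :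
    ∃ D : (Fin 4 → ℝ) →L[ℝ] ℝ, HasStrictFDerivAt (fun y => qv b y i) D x ∧
      ∀ h, D h = jv b x i ⬝ᵥ h := by
  set A : Matrix (Fin 4) (Fin 4) ℝ := (b i).map (Int.cast : ℤ → ℝ) with hA
  have h1 : ∀ j : Fin 4, HasStrictFDerivAt (fun y : Fin 4 → ℝ => y j * (A *ᵥ y) j)
      (x j • (ContinuousLinearMap.proj j).comp (Matrix.toLin' A).toContinuousLinearMap +
        (A *ᵥ x) j • ContinuousLinearMap.proj (R := ℝ) (φ := fun _ : Fin 4 => ℝ) j) x := by
    intro j
    have h2 : HasStrictFDerivAt (fun y : Fin 4 → ℝ => y j)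
        (ContinuousLinearMap.proj (R := ℝ) (φ := fun _ : Fin 4 => ℝ) j) x :=
      (ContinuousLinearMap.proj (R := ℝ) (φ := fun _ : Fin 4 => ℝ) j).hasStrictFDerivAt
    have h3 : HasStrictFDerivAt (fun y : Fin 4 → ℝ => (A *ᵥ y) j)
        ((ContinuousLinearMap.proj (R := ℝ) (φ := fun _ : Fin 4 => ℝ) j).comp
          (Matrix.toLin' A).toContinuousLinearMap) x :=
      ((ContinuousLinearMap.proj (R := ℝ) (φ := fun _ : Fin 4 => ℝ) j).comp
          (Matrix.toLin' A).toContinuousLinearMap).hasStrictFDerivAt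
    exact h2.mul h3
  refine ⟨∑ j, (x j • (ContinuousLinearMap.proj j).comp (Matrix.toLin' A).toContinuousLinearMap +
        (A *ᵥ x) j • ContinuousLinearMap.proj (R := ℝ) (φ := fun _ : Fin 4 => ℝ) j), ?_, ?_⟩
  · show HasStrictFDerivAt (fun y : Fin 4 → ℝ => ∑ j, y j * (A *ᵥ y) j) _ x
    exact HasStrictFDerivAt.fun_sum fun j _ => h1 j
  · intro h
    rw [_root_.sum_apply]
    simp only [_root_.add_apply, _root_.smul_apply,
      ContinuousLinearMap.comp_apply, ContinuousLinearMap.proj_apply, smul_eq_mul,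
      LinearMap.coe_toContinuousLinearMap', Matrix.toLin'_apply]
    unfold jv
    simp only [dotProduct, mulVec, Matrix.map_apply, Matrix.add_apply, Matrix.transpose_apply,
      Finset.sum_mul, Finset.mul_sum, hA, Finset.sum_add_distrib]
    have h4 : ∀ j k : Fin 4, ((((b i) j k + (b i) k j : ℤ) : ℝ) * x k * h j) =
        ((b i) j k : ℝ) * x k * h j + x k * (((b i) k j : ℝ) * h j) := by
      intro j k
      push_cast
      ring
    simp only [h4, Finset.sum_add_distrib]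
    rw [Finset.sum_comm (f := fun j k => x k * (((b i) k j : ℝ) * h j)), add_comm]

theorem GEN_step (b : Fin 2 → Matrix (Fin 4) (Fin 4) ℤ) (x e : Fin 4 → ℝ) (θ : ℝ)
    (hx : LinearIndependent ℝ (jv b x)) (hθ : jv b e 1 = θ • jv b e 0)
    (he : jv b e 0 ⬝ᵥ e ≠ 0) (hex : jv b e 0 ⬝ᵥ x = 0) (U : Set (Fin 4 → ℝ)) (hU : U ∈ 𝓝 x) :
    ∃ x' ∈ U, qv b x' = qv b x ∧ jv b e 0 ⬝ᵥ x' ≠ 0 := by
  obtain ⟨D0, hD0, hD0'⟩ := GEN_qderiv b x 0
  obtain ⟨D1, hD1, hD1'⟩ := GEN_qderiv b x 1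
  set L : (Fin 4 → ℝ) →ₗ[ℝ] ℝ := dotProductBilin ℝ ℝ (jv b e 0) with hL
  set L' : (Fin 4 → ℝ) →L[ℝ] ℝ := L.toContinuousLinearMap with hL'
  have hL0 : ∀ y, L' y = jv b e 0 ⬝ᵥ y := fun y => rfl
  have hD : HasStrictFDerivAt (fun y => (qv b y 0, qv b y 1, L' y)) (D0.prod (D1.prod L')) x :=
    hD0.prodMk (hD1.prodMk L'.hasStrictFDerivAt)
  have hDe0 : D0 e = 0 := by
    rw [hD0', GEN_sym, hex]
  have hDe1 : D1 e = 0 := by
    rw [hD1', GEN_sym, hθ, smul_dotProduct, hex, smul_zero]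
  have hsur2 : ∀ r : Fin 2 → ℝ, ∃ h : Fin 4 → ℝ, D0 h = r 0 ∧ D1 h = r 1 := by
    set M : (Fin 4 → ℝ) →ₗ[ℝ] (Fin 2 → ℝ) :=
      LinearMap.pi fun i => if i = 0 then (D0 : (Fin 4 → ℝ) →ₗ[ℝ] ℝ) else D1 with hM
    have htop : LinearMap.range M = ⊤ := by
      by_contra hne
      obtain ⟨f, hf0, hf⟩ := Submodule.exists_le_ker_of_lt_top _ (lt_top_iff_ne_top.2 hne)
      apply hf0
      have hc : ∀ r : Fin 2 → ℝ, f r = r 0 * f ![1, 0] + r 1 * f ![0, 1] := by
        intro r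
        have hr : r = r 0 • ![1, 0] + r 1 • ![0, 1] := by
          funext i
          fin_cases i <;> simp
        conv_lhs => rw [hr, map_add, map_smul, map_smul]
        rfl
      have hz : f ![1, 0] • jv b x 0 + f ![0, 1] • jv b x 1 = 0 := by
        have h1 : ∀ h : Fin 4 → ℝ,
            (f ![1, 0] • jv b x 0 + f ![0, 1] • jv b x 1) ⬝ᵥ h = 0 := by
          intro h
          have h2 : f (M h) = 0 := hf ⟨h, rfl⟩
          rw [hc] at h2
          have h3 : M h 0 = jv b x 0 ⬝ᵥ h := by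
            rw [← hD0' h]
            simp [hM]
          have h4 : M h 1 = jv b x 1 ⬝ᵥ h := by
            rw [← hD1' h]
            simp [hM]
          rw [h3, h4] at h2
          rw [add_dotProduct, smul_dotProduct, smul_dotProduct, smul_eq_mul, smul_eq_mul]
          linarith
        funext j
        have h5 := h1 (Pi.single j 1)
        rw [dotProduct_single_one] at h5
        exact h5
      have hli := Fintype.linearIndependent_iff.1 hx ![f ![1, 0], f ![0, 1]] (by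
        rw [Fin.sum_univ_two]
        exact hz)
      have h6 : f ![1, 0] = 0 := hli 0
      have h7 : f ![0, 1] = 0 := hli 1
      refine LinearMap.ext fun r => ?_
      rw [hc r, h6, h7, mul_zero, mul_zero, add_zero]
      rfl
    intro r
    obtain ⟨h, hh⟩ := LinearMap.range_eq_top.1 htop r
    refine ⟨h, ?_, ?_⟩
    · have := congrFun hh 0
      simpa [hM] using this
    · have := congrFun hh 1
      simpa [hM] using this
  have hsur : (D0.prod (D1.prod L')).range = ⊤ := by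
    rw [LinearMap.range_eq_top]
    rintro ⟨r0, r1, s⟩
    obtain ⟨h, h0, h1⟩ := hsur2 ![r0, r1]
    refine ⟨h + ((s - L' h) / (jv b e 0 ⬝ᵥ e)) • e, ?_⟩
    have h2 : L' (h + ((s - L' h) / (jv b e 0 ⬝ᵥ e)) • e) = s := by
      rw [map_add, map_smul, hL0 e, smul_eq_mul, div_mul_cancel₀ _ he]
      ring
    have h3 : D0 (h + ((s - L' h) / (jv b e 0 ⬝ᵥ e)) • e) = r0 := by
      rw [map_add, map_smul, hDe0, smul_zero, add_zero, h0]
      rfl
    have h4 : D1 (h + ((s - L' h) / (jv b e 0 ⬝ᵥ e)) • e) = r1 := by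
      rw [map_add, map_smul, hDe1, smul_zero, add_zero, h1]
      rfl
    show (D0 _, D1 _, L' _) = (r0, r1, s)
    rw [h2, h3, h4]
  have hmap := hD.map_nhds_eq_of_surj hsur
  have hmem : (fun y => (qv b y 0, qv b y 1, L' y)) '' U ∈ 𝓝 (qv b x 0, qv b x 1, L' x) := by
    rw [← hmap]
    exact Filter.image_mem_map hU
  have hLx : L' x = 0 := hex
  have ht : Filter.Tendsto (fun s : ℝ => (qv b x 0, qv b x 1, s)) (𝓝[≠] 0)
      (𝓝 (qv b x 0, qv b x 1, L' x)) := by
    rw [hLx]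
    have hc : Continuous fun s : ℝ => (qv b x 0, qv b x 1, s) := by fun_prop
    exact (hc.tendsto 0).mono_left nhdsWithin_le_nhds
  obtain ⟨s, ⟨x', hx'U, hx'⟩, hs⟩ :=
    ((ht.eventually hmem).and self_mem_nhdsWithin).exists
  simp only [Prod.mk.injEq] at hx'
  refine ⟨x', hx'U, ?_, ?_⟩
  · funext i
    fin_cases i
    · exact hx'.1
    · exact hx'.2.1
  · rw [← hL0, hx'.2.2]
    exact hs

theorem p_GEN (hS : Stmt_SIM) : Stmt_GEN := by
  intro b hb x hx ε hε
  obtain ⟨P, hP⟩ := hS b hb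
  have hsim := hP ℝ (Or.inl ringChar.eq_zero)
  set S₀ : Matrix (Fin 4) (Fin 4) ℝ := (b 0 + (b 0)ᵀ).map (Int.cast : ℤ → ℝ) with hS₀
  set S₁ : Matrix (Fin 4) (Fin 4) ℝ := (b 1 + (b 1)ᵀ).map (Int.cast : ℤ → ℝ) with hS₁
  have hdet : S₀.det ≠ 0 := by
    have h1 : S₀.det = (((b 0 + (b 0)ᵀ).det : ℤ) : ℝ) := by
      rw [hS₀]
      exact (Int.cast_det _).symm
    rw [h1]
    exact_mod_cast hb.det0
  have hj0 : ∀ e : Fin 4 → ℝ, jv b e 0 = S₀ *ᵥ e := fun e => rfl
  have hj1 : ∀ e : Fin 4 → ℝ, jv b e 1 = S₁ *ᵥ e := fun e => rfl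
  have hinj : ∀ e : Fin 4 → ℝ, jv b e 0 = 0 → e = 0 := by
    intro e he
    rw [hj0] at he
    exact Matrix.eq_zero_of_mulVec_eq_zero hdet he
  set Λ : Set ℝ := {θ | ∃ e : Fin 4 → ℝ, e ≠ 0 ∧ jv b e 1 = θ • jv b e 0} with hΛ
  have hfin : Λ.Finite := by
    have h1 : Λ ⊆ {θ | Module.End.HasEigenvalue (Matrix.toLin' (S₀⁻¹ * S₁)) θ} := by
      rintro θ ⟨e, he, hθ⟩
      refine Module.End.hasEigenvalue_of_hasEigenvector (x := e) ?_
      rw [Module.End.hasEigenvector_iff]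
      refine ⟨?_, he⟩
      rw [Module.End.mem_eigenspace_iff, Matrix.toLin'_apply, ← Matrix.mulVec_mulVec, ← hj1, hθ,
        hj0, Matrix.mulVec_smul, Matrix.mulVec_mulVec,
        Matrix.nonsing_inv_mul _ (isUnit_iff_ne_zero.2 hdet), Matrix.one_mulVec]
    exact (Module.End.finite_hasEigenvalue _).subset h1
  have hex : ∀ θ : ℝ, ∃ e : Fin 4 → ℝ, θ ∈ Λ → e ≠ 0 ∧ jv b e 1 = θ • jv b e 0 := by
    intro θ
    by_cases hθ : θ ∈ Λ
    · obtain ⟨e, he⟩ := hθ
      exact ⟨e, fun _ => he⟩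
    · exact ⟨0, fun h => absurd h hθ⟩
  choose E hE using hex
  have hEq : ∀ θ ∈ Λ, jv b (E θ) 0 ⬝ᵥ E θ ≠ 0 := by
    intro θ hθ h0
    obtain ⟨h1, h2⟩ := hE θ hθ
    have h3 := (hsim ![-θ, 1] (E θ) (by
      intro h
      have := congrFun h 1
      simp at this) h1 (by
      rw [h2]
      simp)).1
    apply h3
    have h4 : qv b (E θ) 0 = 0 := by
      have := GEN_two b 0 (E θ)
      linarith
    have h5 : qv b (E θ) 1 = 0 := by
      have h6 := GEN_two b 1 (E θ)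
      rw [h2, smul_dotProduct, h0, smul_zero] at h6
      linarith
    funext i
    fin_cases i
    · exact h4
    · exact h5
  -- induction over the eigenvalues
  have hind : ∀ F : Finset ℝ, (↑F ⊆ Λ) → ∀ ε : ℝ, 0 < ε → ∃ x' : Fin 4 → ℝ, qv b x' = qv b x ∧
      LinearIndependent ℝ (jv b x') ∧ (∀ θ ∈ F, jv b (E θ) 0 ⬝ᵥ x' ≠ 0) ∧ ‖x' - x‖ < ε := by
    classical
    intro F
    induction F using Finset.induction_on with
    | empty =>
      intro _ ε hε
      exact ⟨x, rfl, hx, by simp, by simpa using hε⟩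
    | insert θ F hθF ih =>
      intro hF ε hε
      have hθ : θ ∈ Λ := hF (by simp)
      have hF' : ↑F ⊆ Λ := fun a ha => hF (by simp [Finset.mem_coe.1 ha])
      obtain ⟨x₁, h1, h2, h3, h4⟩ := ih hF' ε hε
      by_cases h0 : jv b (E θ) 0 ⬝ᵥ x₁ = 0
      · have hU1 : ∀ᶠ y in 𝓝 x₁, LinearIndependent ℝ (jv b y) := by
          have hc : Continuous fun y : Fin 4 → ℝ => jv b y := by
            unfold jv
            fun_prop
          exact hc.continuousAt.eventually (isOpen_setOfPred_linearIndependent.mem_nhds h2)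
        have hU2 : ∀ᶠ y in 𝓝 x₁, ∀ θ' ∈ F, jv b (E θ') 0 ⬝ᵥ y ≠ 0 := by
          rw [Filter.eventually_all_finset]
          intro θ' hθ'
          have hc : Continuous fun y : Fin 4 → ℝ => jv b (E θ') 0 ⬝ᵥ y := by fun_prop
          exact hc.continuousAt.eventually_ne (h3 θ' hθ')
        have hU3 : ∀ᶠ y in 𝓝 x₁, ‖y - x‖ < ε := by
          have hc : Continuous fun y : Fin 4 → ℝ => ‖y - x‖ := by fun_prop
          exact hc.continuousAt.eventually (Iio_mem_nhds h4)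
        obtain ⟨x', ⟨hx1, hx2, hx3⟩, hx4, hx5⟩ := GEN_step b x₁ (E θ) θ h2 (hE θ hθ).2
          (hEq θ hθ) h0 _ (hU1.and (hU2.and hU3))
        refine ⟨x', hx4.trans h1, hx1, ?_, hx3⟩
        intro θ' hθ'
        rcases Finset.mem_insert.1 hθ' with h | h
        · rw [h]
          exact hx5
        · exact hx2 θ' h
      · refine ⟨x₁, h1, h2, ?_, h4⟩
        intro θ' hθ'
        rcases Finset.mem_insert.1 hθ' with h | h
        · rw [h]
          exact h0
        · exact h3 θ' h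
  obtain ⟨x', h1, h2, h3, h4⟩ := hind hfin.toFinset (by simp) ε hε
  refine ⟨x', h1, ⟨h2, ?_⟩, h4⟩
  rintro e he ⟨μ, hμ, hμe⟩
  have hμ1 : μ 1 ≠ 0 := by
    intro h
    rw [h, zero_smul, add_zero] at hμe
    rcases smul_eq_zero.1 hμe with h5 | h5
    · apply hμ
      funext i
      fin_cases i
      · exact h5
      · exact h
    · exact he (hinj e h5)
  have hrel : jv b e 1 = (-(μ 0 / μ 1)) • jv b e 0 := by
    have h5 : μ 1 • jv b e 1 = -(μ 0 • jv b e 0) := by
      rw [eq_neg_iff_add_eq_zero, add_comm]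
      exact hμe
    have h6 : jv b e 1 = (μ 1)⁻¹ • (μ 1 • jv b e 1) := by
      rw [smul_smul, inv_mul_cancel₀ hμ1, one_smul]
    rw [h6, h5, smul_neg, smul_smul, neg_smul]
    congr 2
    field_simp
  set θ : ℝ := -(μ 0 / μ 1) with hθdef
  have hθ : θ ∈ Λ := ⟨e, he, hrel⟩
  obtain ⟨hE1, hE2⟩ := hE θ hθ
  have hμE : μ 0 • jv b (E θ) 0 + μ 1 • jv b (E θ) 1 = 0 := by
    rw [hE2, smul_smul, ← add_smul]
    have : μ 0 + μ 1 * θ = 0 := by
      rw [hθdef]
      field_simp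
      ring
    rw [this, zero_smul]
  obtain ⟨t, ht⟩ := (hsim μ (E θ) hμ hE1 hμE).2 e hμe
  have ht0 : t ≠ 0 := by
    intro h
    rw [h, zero_smul] at ht
    exact he ht
  refine ⟨0, ?_⟩
  rw [ht, GEN_lin, smul_dotProduct, smul_eq_mul]
  exact mul_ne_zero ht0 (h3 θ (by simpa using hθ))

end Pool.GLU
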