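import Pool.Agent.Work.MP_9fb703_gl.Interface

set_option autoImplicit false

namespace Pool.GLU

open Matrix Polynomial MeasureTheory

theorem GS1_bezout {n : ℕ} (y : Fin n → ℤ) (h : ∀ d : ℤ, (∀ j, d ∣ y j) → IsUnit d) :
    ∃ a : Fin n → ℤ, ∑ j, a j * y j = 1 := by
  obtain ⟨d, hd⟩ := (IsPrincipalIdealRing.principal (Ideal.span (Set.range y))).principal
  have h1 : ∀ j, d ∣ y j := by
    intro j
    have h2 : y j ∈ Ideal.span (Set.range y) := Ideal.subset_span ⟨j, rfl⟩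
    rw [hd] at h2
    exact Ideal.mem_span_singleton.1 h2
  have h2 : Ideal.span (Set.range y) = ⊤ := by
    rw [hd]
    exact Ideal.span_singleton_eq_top.2 (h d h1)
  have h3 : (1 : ℤ) ∈ Ideal.span (Set.range y) := by
    rw [h2]
    trivial
  exact (Ideal.mem_span_range_iff_exists_fun).1 h3

theorem GS1_omega (n m : ℕ) (hn : 0 < n) (hm : 0 < m) :
    (n ^ m.primeFactors.card) ^ 2 ≤ (n ^ 2) ^ (n ^ 2) * m := by
  have h0 : (n ^ m.primeFactors.card) ^ 2 = ∏ _p ∈ m.primeFactors, n ^ 2 := by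
    rw [Finset.prod_const, ← pow_mul, ← pow_mul, mul_comm]
  rw [h0]
  have h1 : ∏ _p ∈ m.primeFactors, n ^ 2 ≤
      ∏ p ∈ m.primeFactors, (if p < n ^ 2 then n ^ 2 else 1) * p := by
    refine Finset.prod_le_prod' fun p hp => ?_
    have hp1 : 1 ≤ p := (Nat.prime_of_mem_primeFactors hp).one_le
    split_ifs with h
    · exact Nat.le_mul_of_pos_right _ hp1
    · rw [one_mul]
      exact not_lt.1 h
  rw [Finset.prod_mul_distrib] at h1
  have h2 : ∏ p ∈ m.primeFactors, p ≤ m := Nat.le_of_dvd hm (Nat.prod_primeFactors_dvd m)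
  have h3 : ∏ p ∈ m.primeFactors, (if p < n ^ 2 then n ^ 2 else 1) ≤ (n ^ 2) ^ (n ^ 2) := by
    rw [← Finset.prod_filter, Finset.prod_const]
    refine Nat.pow_le_pow_right (by positivity) ?_
    calc (m.primeFactors.filter fun p => p < n ^ 2).card ≤ (Finset.range (n ^ 2)).card :=
          Finset.card_le_card fun p hp => Finset.mem_range.2 (Finset.mem_filter.1 hp).2
      _ = n ^ 2 := Finset.card_range _
  exact h1.trans (Nat.mul_le_mul h3 h2)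

theorem GS1_sum3 (N : ℕ) :
    ∑ m ∈ Finset.range (N + 1), Real.sqrt m / (m : ℝ) ≤ 2 * Real.sqrt N := by
  induction N with
  | zero => simp
  | succ N ih =>
    rw [Finset.sum_range_succ]
    obtain ⟨a, ha⟩ : ∃ a : ℝ, a = Real.sqrt N := ⟨_, rfl⟩
    obtain ⟨c, hc⟩ : ∃ c : ℝ, c = Real.sqrt ((N + 1 : ℕ) : ℝ) := ⟨_, rfl⟩
    have ha0 : 0 ≤ a := by rw [ha]; exact Real.sqrt_nonneg _
    have hc0 : 0 < c := by
      rw [hc]
      exact Real.sqrt_pos.2 (by positivity)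
    have ha2 : a ^ 2 = N := by rw [ha]; exact Real.sq_sqrt (by positivity)
    have hc2 : c ^ 2 = ((N + 1 : ℕ) : ℝ) := by rw [hc]; exact Real.sq_sqrt (by positivity)
    have hac : c ^ 2 = a ^ 2 + 1 := by rw [ha2, hc2]; push_cast; ring
    rw [← ha] at ih
    rw [← hc, ← hc2]
    have h1 : c / c ^ 2 = 1 / c := by
      field_simp
    have h2 : a ≤ c := by nlinarith
    have h3 : 1 / c ≤ 2 * (c - a) := by
      rw [div_le_iff₀ hc0]
      nlinarith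
    rw [h1]
    linarith

theorem GS1_sum4 (N : ℕ) :
    ∑ m ∈ Finset.range (N + 2), Real.sqrt m / (m : ℝ) ^ 2 ≤
      3 - 2 / Real.sqrt ((N + 1 : ℕ) : ℝ) := by
  induction N with
  | zero =>
    rw [Finset.sum_range_succ, Finset.sum_range_succ]
    norm_num
  | succ N ih =>
    rw [Finset.sum_range_succ]
    obtain ⟨a, ha⟩ : ∃ a : ℝ, a = Real.sqrt ((N + 1 : ℕ) : ℝ) := ⟨_, rfl⟩
    obtain ⟨c, hc⟩ : ∃ c : ℝ, c = Real.sqrt ((N + 1 + 1 : ℕ) : ℝ) := ⟨_, rfl⟩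
    have ha0 : 0 < a := by
      rw [ha]
      exact Real.sqrt_pos.2 (by positivity)
    have hc0 : 0 < c := by
      rw [hc]
      exact Real.sqrt_pos.2 (by positivity)
    have ha2 : a ^ 2 = ((N + 1 : ℕ) : ℝ) := by rw [ha]; exact Real.sq_sqrt (by positivity)
    have hc2 : c ^ 2 = ((N + 1 + 1 : ℕ) : ℝ) := by rw [hc]; exact Real.sq_sqrt (by positivity)
    have hac : c ^ 2 = a ^ 2 + 1 := by rw [ha2, hc2]; push_cast; ring
    rw [← ha] at ih
    have h0 : ((N + 2 : ℕ) : ℝ) = c ^ 2 := hc2.symm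
    rw [← hc, h0]
    have h2 : a ≤ c := by nlinarith
    have h3 : c / (c ^ 2) ^ 2 ≤ 2 / a - 2 / c := by
      have h4 : 2 / a - 2 / c = 2 * (c - a) / (a * c) := by
        field_simp
      have h5 : c / (c ^ 2) ^ 2 = 1 / c ^ 3 := by
        field_simp
      have h6 : (c - a) * (c + a) = 1 := by nlinarith
      rw [h4, h5, div_le_div_iff₀ (by positivity) (by positivity)]
      have h7 : 0 < c + a := by positivity
      have h8 : a * c * (c + a) ≤ 2 * c ^ 3 := by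
        have h9 : a * (c + a) ≤ c * (c + c) := mul_le_mul h2 (by linarith) h7.le hc0.le
        nlinarith
      have h9 : 1 * (a * c) * (c + a) ≤ 2 * (c - a) * c ^ 3 * (c + a) := by
        have h10 : 2 * (c - a) * c ^ 3 * (c + a) = 2 * c ^ 3 * ((c - a) * (c + a)) := by ring
        rw [h10, h6]
        linarith
      exact le_of_mul_le_mul_right h9 h7
    linarith

/-- one class -/
theorem GS1_class {n : ℕ} (T : Matrix (Fin n) (Fin n) ℤ) (K' : ℕ)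
    (hK' : ∀ (g Y : ℕ) (y₀ : Fin n → ℤ) (μ : ℤ),
      0 < g → 0 < Y → (∀ j, |y₀ j| ≤ Y) → (∀ d : ℤ, (∀ j, d ∣ y₀ j) → IsUnit d) →
      (∀ i, (g : ℤ) ∣ (T *ᵥ y₀) i - μ * y₀ i) →
      (Matrix.of fun i j : Fin n => ((T ^ (i : ℕ)) *ᵥ y₀) j).det ≠ 0 →
      Set.ncard {y : Fin n → ℤ | (∀ j, |y j| ≤ Y) ∧ ∃ lam : ℤ, ∀ j, (g : ℤ) ∣ y j - lam * y₀ j} *
        g ^ (n - 1) ≤ K' * Y ^ n)
    (m E Y : ℕ) (hm : 0 < m) (hE : 0 < E) (hY : 0 < Y) (s : Finset (Fin n → ℤ))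
    (y₀ : Fin n → ℤ) (μ : ℤ) (hy₀ : ∀ j, |y₀ j| ≤ Y)
    (hprim : ∀ d : ℤ, (∀ j, d ∣ y₀ j) → IsUnit d)
    (hμ : ∀ i, (m : ℤ) ∣ (T *ᵥ y₀) i - μ * y₀ i)
    (hdet : (Matrix.of fun i j : Fin n => ((T ^ (i : ℕ)) *ᵥ y₀) j).det ≠ 0)
    (hs : ∀ y ∈ s, (∀ j, |y j| ≤ Y) ∧ ∀ k l, (m : ℤ) ∣ (E : ℤ) * (y₀ k * y l - y₀ l * y k)) :
    s.card * m ^ (n - 1) ≤ (K' * E ^ (n - 1)) * Y ^ n := by
  obtain ⟨g, e, hge, hmg, hEe⟩ := Nat.exists_coprime m E
  obtain ⟨d, hd⟩ : ∃ d : ℕ, d = Nat.gcd m E := ⟨_, rfl⟩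
  rw [← hd] at hmg hEe
  have hd0 : 0 < d := by
    rw [hd]
    exact Nat.gcd_pos_of_pos_left _ hm
  have hg0 : 0 < g := Nat.pos_of_ne_zero fun h => by
    rw [h, zero_mul] at hmg
    omega
  have hdE : d ≤ E := by
    rw [hd]
    exact Nat.le_of_dvd hE (Nat.gcd_dvd_right m E)
  have hd0' : (d : ℤ) ≠ 0 := by exact_mod_cast hd0.ne'
  have hgm : (g : ℤ) ∣ (m : ℤ) := by
    rw [hmg]
    push_cast
    exact dvd_mul_right _ _
  obtain ⟨a, ha⟩ := GS1_bezout y₀ hprim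
  have h1 := hK' g Y y₀ μ hg0 hY hy₀ hprim (fun i => hgm.trans (hμ i)) hdet
  have hfin : Set.Finite {y : Fin n → ℤ | (∀ j, |y j| ≤ Y) ∧
      ∃ lam : ℤ, ∀ j, (g : ℤ) ∣ y j - lam * y₀ j} := by
    refine (Set.finite_Icc (fun _ : Fin n => -(Y : ℤ)) (fun _ => (Y : ℤ))).subset ?_
    rintro y ⟨hy, -⟩
    exact ⟨fun j => (abs_le.1 (hy j)).1, fun j => (abs_le.1 (hy j)).2⟩
  have hsub : (s : Set (Fin n → ℤ)) ⊆ {y : Fin n → ℤ | (∀ j, |y j| ≤ Y) ∧
      ∃ lam : ℤ, ∀ j, (g : ℤ) ∣ y j - lam * y₀ j} := by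
    intro y hy
    obtain ⟨hy1, hy2⟩ := hs y hy
    refine ⟨hy1, ∑ k, a k * y k, fun j => ?_⟩
    have h2 : ∀ k l, (g : ℤ) ∣ y₀ k * y l - y₀ l * y k := by
      intro k l
      have h3 := hy2 k l
      rw [hmg, hEe] at h3
      push_cast at h3
      have h4 : (g : ℤ) * d ∣ ((e : ℤ) * (y₀ k * y l - y₀ l * y k)) * d := by
        have h5 : (e : ℤ) * d * (y₀ k * y l - y₀ l * y k) =
            ((e : ℤ) * (y₀ k * y l - y₀ l * y k)) * d := by ring
        rwa [h5] at h3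
      have h6 : (g : ℤ) ∣ (e : ℤ) * (y₀ k * y l - y₀ l * y k) :=
        (mul_dvd_mul_iff_right hd0').1 h4
      exact (Nat.isCoprime_iff_coprime.2 hge).dvd_of_dvd_mul_left h6
    have h3 : y j - (∑ k, a k * y k) * y₀ j = ∑ k, a k * (y₀ k * y j - y₀ j * y k) := by
      have h4 : y j = (∑ k, a k * y₀ k) * y j := by rw [ha, one_mul]
      conv_lhs => rw [h4]
      rw [Finset.sum_mul, Finset.sum_mul, ← Finset.sum_sub_distrib]
      exact Finset.sum_congr rfl fun k _ => by ring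
    rw [h3]
    exact Finset.dvd_sum fun k _ => (h2 k j).mul_left _
  have h2 : s.card ≤ Set.ncard {y : Fin n → ℤ | (∀ j, |y j| ≤ Y) ∧
      ∃ lam : ℤ, ∀ j, (g : ℤ) ∣ y j - lam * y₀ j} := by
    rw [← Set.ncard_coe_finset s]
    exact Set.ncard_le_ncard hsub hfin
  calc s.card * m ^ (n - 1) = (s.card * g ^ (n - 1)) * d ^ (n - 1) := by
        rw [hmg, mul_pow]
        ring
    _ ≤ (K' * Y ^ n) * E ^ (n - 1) :=
        Nat.mul_le_mul ((Nat.mul_le_mul_right _ h2).trans h1) (Nat.pow_le_pow_left hdE _)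
    _ = (K' * E ^ (n - 1)) * Y ^ n := by ring

/-- all vectors with a given value of `g` -/
theorem GS1_count {n : ℕ} (T : Matrix (Fin n) (Fin n) ℤ) (K' : ℕ)
    (hK' : ∀ (g Y : ℕ) (y₀ : Fin n → ℤ) (μ : ℤ),
      0 < g → 0 < Y → (∀ j, |y₀ j| ≤ Y) → (∀ d : ℤ, (∀ j, d ∣ y₀ j) → IsUnit d) →
      (∀ i, (g : ℤ) ∣ (T *ᵥ y₀) i - μ * y₀ i) →
      (Matrix.of fun i j : Fin n => ((T ^ (i : ℕ)) *ᵥ y₀) j).det ≠ 0 →
      Set.ncard {y : Fin n → ℤ | (∀ j, |y j| ≤ Y) ∧ ∃ lam : ℤ, ∀ j, (g : ℤ) ∣ y j - lam * y₀ j} *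
        g ^ (n - 1) ≤ K' * Y ^ n)
    (K m E Y : ℕ) (hm : 0 < m) (hE : 0 < E) (hY : 0 < Y) (lab : (Fin n → ℤ) → ℕ)
    (hlab : ∀ y : Fin n → ℤ, (∀ d : ℤ, (∀ j, d ∣ y j) → IsUnit d) →
        (∀ k l, (m : ℤ) ∣ y k * (T *ᵥ y) l - y l * (T *ᵥ y) k) →
        lab y < K * n ^ m.primeFactors.card ∧
        (∃ μ : ℤ, ∀ i, (m : ℤ) ∣ (T *ᵥ y) i - μ * y i) ∧
        ∀ y' : Fin n → ℤ, (∀ d : ℤ, (∀ j, d ∣ y' j) → IsUnit d) →
          (∀ k l, (m : ℤ) ∣ y' k * (T *ᵥ y') l - y' l * (T *ᵥ y') k) → lab y' = lab y →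
          ∀ k l, (m : ℤ) ∣ (E : ℤ) * (y k * y' l - y l * y' k))
    (s : Finset (Fin n → ℤ))
    (hs : ∀ y ∈ s, (∀ j, |y j| ≤ Y) ∧ (∀ d : ℤ, (∀ j, d ∣ y j) → IsUnit d) ∧
      (∀ k l, (m : ℤ) ∣ y k * (T *ᵥ y) l - y l * (T *ᵥ y) k) ∧
      (Matrix.of fun i j : Fin n => ((T ^ (i : ℕ)) *ᵥ y) j).det ≠ 0) :
    s.card * m ^ (n - 1) ≤
      (K * n ^ m.primeFactors.card) * ((K' * E ^ (n - 1)) * Y ^ n) := by
  classical
  have hm' : 0 < m ^ (n - 1) := by positivity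
  have h1 : ∀ a ∈ s.image lab, (s.filter fun y => lab y = a).card ≤
      ((K' * E ^ (n - 1)) * Y ^ n) / m ^ (n - 1) := by
    intro a ha
    obtain ⟨y₀, hy₀, rfl⟩ := Finset.mem_image.1 ha
    obtain ⟨h2, h3, h4, h5⟩ := hs y₀ hy₀
    obtain ⟨-, ⟨μ, hμ⟩, h6⟩ := hlab y₀ h3 h4
    rw [Nat.le_div_iff_mul_le hm']
    refine GS1_class T K' hK' m E Y hm hE hY _ y₀ μ h2 h3 hμ h5 (fun y hy => ?_)
    obtain ⟨hy1, hy2⟩ := Finset.mem_filter.1 hy
    obtain ⟨h7, h8, h9, -⟩ := hs y hy1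
    exact ⟨h7, h6 y h8 h9 hy2⟩
  have h2 := Finset.card_le_mul_card_image s _ h1
  have h3 : (s.image lab).card ≤ K * n ^ m.primeFactors.card := by
    calc (s.image lab).card ≤ (Finset.range (K * n ^ m.primeFactors.card)).card := by
          refine Finset.card_le_card fun a ha => ?_
          obtain ⟨y₀, hy₀, rfl⟩ := Finset.mem_image.1 ha
          obtain ⟨h2, h3, h4, h5⟩ := hs y₀ hy₀
          exact Finset.mem_range.2 (hlab y₀ h3 h4).1
      _ = K * n ^ m.primeFactors.card := Finset.card_range _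
  calc s.card * m ^ (n - 1) ≤
        (((K' * E ^ (n - 1)) * Y ^ n) / m ^ (n - 1) * (s.image lab).card) * m ^ (n - 1) :=
        Nat.mul_le_mul_right _ h2
    _ = (((K' * E ^ (n - 1)) * Y ^ n) / m ^ (n - 1) * m ^ (n - 1)) * (s.image lab).card := by
        ring
    _ ≤ ((K' * E ^ (n - 1)) * Y ^ n) * (K * n ^ m.primeFactors.card) :=
        Nat.mul_le_mul (Nat.div_mul_le_self _ _) h3
    _ = (K * n ^ m.primeFactors.card) * ((K' * E ^ (n - 1)) * Y ^ n) := by ring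

theorem GS1_minor {n : ℕ} (hn : 2 ≤ n) (T : Matrix (Fin n) (Fin n) ℤ) (y : Fin n → ℤ)
    (hprim : ∀ d : ℤ, (∀ j, d ∣ y j) → IsUnit d)
    (hdet : (Matrix.of fun i j : Fin n => ((T ^ (i : ℕ)) *ᵥ y) j).det ≠ 0) :
    ∃ k l, y k * (T *ᵥ y) l - y l * (T *ᵥ y) k ≠ 0 := by
  by_contra hcon
  push Not at hcon
  have hy : ∃ k, y k ≠ 0 := by
    by_contra h
    push Not at h
    have h1 := hprim 0 (fun j => by rw [h j])
    exact not_isUnit_zero h1
  obtain ⟨k, hk⟩ := hy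
  obtain ⟨i0, hi0⟩ : ∃ i0 : Fin n, (i0 : ℕ) = 0 := ⟨⟨0, by omega⟩, rfl⟩
  obtain ⟨i1, hi1⟩ : ∃ i1 : Fin n, (i1 : ℕ) = 1 := ⟨⟨1, by omega⟩, rfl⟩
  have hne : i1 ≠ i0 := fun h => by
    rw [h, hi0] at hi1
    omega
  apply hdet
  rw [← Matrix.exists_vecMul_eq_zero_iff]
  refine ⟨Pi.single i1 (y k) - Pi.single i0 ((T *ᵥ y) k), ?_, ?_⟩
  · intro h
    have h1 := congrFun h i1
    rw [Pi.sub_apply, Pi.single_eq_same, Pi.single_eq_of_ne hne, sub_zero, Pi.zero_apply] at h1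
    exact hk h1
  · rw [sub_vecMul, single_vecMul, single_vecMul]
    funext l
    simp only [Pi.sub_apply, Pi.smul_apply, Matrix.row, Matrix.of_apply, hi0, hi1, pow_one,
      pow_zero, one_mulVec, smul_eq_mul, Pi.zero_apply]
    have h1 := hcon k l
    linarith

theorem GS1_bound {n : ℕ} (T : Matrix (Fin n) (Fin n) ℤ) (Y : ℕ) (y : Fin n → ℤ)
    (hy : ∀ j, |y j| ≤ Y) (k l : Fin n) :
    |y k * (T *ᵥ y) l - y l * (T *ᵥ y) k| ≤ (2 * ∑ i, ∑ j, |T i j|) * (Y : ℤ) ^ 2 := by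
  have hY0 : (0 : ℤ) ≤ Y := Int.natCast_nonneg Y
  have h1 : ∀ l, |(T *ᵥ y) l| ≤ (∑ i, ∑ j, |T i j|) * (Y : ℤ) := by
    intro l
    calc |(T *ᵥ y) l| = |∑ j, T l j * y j| := rfl
      _ ≤ ∑ j, |T l j * y j| := Finset.abs_sum_le_sum_abs _ _
      _ ≤ ∑ j, |T l j| * (Y : ℤ) := by
          refine Finset.sum_le_sum fun j _ => ?_
          rw [abs_mul]
          exact mul_le_mul_of_nonneg_left (hy j) (abs_nonneg _)
      _ = (∑ j, |T l j|) * (Y : ℤ) := by rw [Finset.sum_mul]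
      _ ≤ (∑ i, ∑ j, |T i j|) * (Y : ℤ) := by
          refine mul_le_mul_of_nonneg_right ?_ hY0
          exact Finset.single_le_sum (f := fun i => ∑ j, |T i j|)
            (fun i _ => Finset.sum_nonneg fun j _ => abs_nonneg _) (Finset.mem_univ l)
  have h2 : ∀ k l, |y k * (T *ᵥ y) l| ≤ (∑ i, ∑ j, |T i j|) * (Y : ℤ) ^ 2 := by
    intro k l
    rw [abs_mul]
    calc |y k| * |(T *ᵥ y) l| ≤ (Y : ℤ) * ((∑ i, ∑ j, |T i j|) * (Y : ℤ)) :=
          mul_le_mul (hy k) (h1 l) (abs_nonneg _) hY0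
      _ = (∑ i, ∑ j, |T i j|) * (Y : ℤ) ^ 2 := by ring
  have h3 := abs_sub (y k * (T *ᵥ y) l) (y l * (T *ᵥ y) k)
  have h4 := h2 k l
  have h5 := h2 l k
  linarith

/-- block GS1 -/
theorem p_GS1 (hLAB : Stmt_LAB) (hCYC : Stmt_CYC) : Stmt_GS1 := by
  intro n hn T hT
  classical
  have hn0 : 0 < n := by omega
  have hn2 : 2 ≤ n := by omega
  obtain ⟨K, E, hE, hLAB'⟩ := hLAB n hn T hT
  obtain ⟨K', hK'⟩ := hCYC n T hn0
  obtain ⟨C₃, hC₃⟩ : ∃ C₃ : ℕ, (C₃ : ℤ) = 2 * ∑ i, ∑ j, |T i j| :=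
    ⟨(2 * ∑ i, ∑ j, |T i j|).toNat, Int.toNat_of_nonneg (by positivity)⟩
  obtain ⟨C₂, hC₂⟩ : ∃ C₂ : ℝ, C₂ = Real.sqrt (((n ^ 2) ^ (n ^ 2) : ℕ) : ℝ) := ⟨_, rfl⟩
  have hC₂0 : 0 ≤ C₂ := by rw [hC₂]; exact Real.sqrt_nonneg _
  obtain ⟨A, hA⟩ : ∃ A : ℝ, A = K * C₂ * (K' * (E : ℝ) ^ (n - 1)) := ⟨_, rfl⟩
  have hA0 : 0 ≤ A := by rw [hA]; positivity
  have hom : ∀ m : ℕ, 0 < m → ((n ^ m.primeFactors.card : ℕ) : ℝ) ≤ C₂ * Real.sqrt m := by
    intro m hm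
    rw [hC₂, ← Real.sqrt_mul (by positivity)]
    refine Real.le_sqrt_of_sq_le ?_
    exact_mod_cast GS1_omega n m hn0 hm
  refine ⟨⌈A * (3 + 2 * Real.sqrt C₃)⌉₊, fun Y hY F g hF => ?_⟩
  have hYr : (1 : ℝ) ≤ Y := by exact_mod_cast hY
  have hgG : ∀ y ∈ F, g y ∈ Finset.range (C₃ * Y ^ 2 + 1) := by
    intro y hy
    obtain ⟨h1, h2, h3, h4⟩ := hF y hy
    obtain ⟨k, l, hkl⟩ := GS1_minor hn2 T y h2 h4
    have h5 := GS1_bound T Y y h1 k l
    rw [← hC₃] at h5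
    have h6 : (g y : ℤ) ≤ |y k * (T *ᵥ y) l - y l * (T *ᵥ y) k| :=
      Int.le_of_dvd (abs_pos.2 hkl) ((dvd_abs _ _).2 (h3 k l))
    have h7 : (g y : ℤ) ≤ ((C₃ * Y ^ 2 : ℕ) : ℤ) := by
      push_cast
      exact h6.trans h5
    rw [Finset.mem_range]
    have h8 : g y ≤ C₃ * Y ^ 2 := by exact_mod_cast h7
    omega
  have hcount : ∀ m : ℕ, ∑ y ∈ F with g y = m, (g y : ℝ) ≤
      A * (Y : ℝ) ^ n * (Real.sqrt m / (m : ℝ) ^ (n - 2)) := by
    intro m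
    have h1 : ∑ y ∈ F with g y = m, (g y : ℝ) = ((F.filter fun y => g y = m).card : ℝ) * m := by
      rw [Finset.sum_congr rfl (fun y hy => by rw [(Finset.mem_filter.1 hy).2]),
        Finset.sum_const, nsmul_eq_mul]
    rw [h1]
    rcases Nat.eq_zero_or_pos m with hm | hm
    · subst hm
      simp
    · obtain ⟨lab, hlab⟩ := hLAB' m hm
      have h2 := GS1_count T K' hK' K m E Y hm hE hY lab hlab (F.filter fun y => g y = m)
        (fun y hy => by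
          obtain ⟨hy1, hy2⟩ := Finset.mem_filter.1 hy
          obtain ⟨h3, h4, h5, h6⟩ := hF y hy1
          rw [hy2] at h5
          exact ⟨h3, h4, h5, h6⟩)
      have hmr : (0 : ℝ) < m := by exact_mod_cast hm
      have h3 : (((F.filter fun y => g y = m).card * m ^ (n - 1) : ℕ) : ℝ) ≤
          (((K * n ^ m.primeFactors.card) * ((K' * E ^ (n - 1)) * Y ^ n) : ℕ) : ℝ) := by
        exact_mod_cast h2
      have h4 := hom m hm
      have h5 : (((F.filter fun y => g y = m).card : ℝ) * m) * (m : ℝ) ^ (n - 2) ≤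
          A * (Y : ℝ) ^ n * Real.sqrt m := by
        have h6 : (((F.filter fun y => g y = m).card : ℝ) * m) * (m : ℝ) ^ (n - 2) =
            (((F.filter fun y => g y = m).card * m ^ (n - 1) : ℕ) : ℝ) := by
          have h7 : n - 1 = (n - 2) + 1 := by omega
          rw [h7]
          push_cast
          ring
        rw [h6]
        refine h3.trans ?_
        have h8 : (((K * n ^ m.primeFactors.card) * ((K' * E ^ (n - 1)) * Y ^ n) : ℕ) : ℝ) =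
            (K * (K' * (E : ℝ) ^ (n - 1)) * (Y : ℝ) ^ n) *
              ((n ^ m.primeFactors.card : ℕ) : ℝ) := by
          push_cast
          ring
        rw [h8, hA]
        have h9 := mul_le_mul_of_nonneg_left h4
          (show (0 : ℝ) ≤ K * (K' * (E : ℝ) ^ (n - 1)) * (Y : ℝ) ^ n by positivity)
        refine h9.trans (le_of_eq ?_)
        ring
      rw [mul_div_assoc', le_div_iff₀ (by positivity)]
      exact h5
  have main : (∑ y ∈ F, (g y : ℝ)) ≤ A * (3 + 2 * Real.sqrt C₃) * (Y : ℝ) ^ 4 := by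
    rw [← Finset.sum_fiberwise_of_maps_to hgG]
    calc ∑ m ∈ Finset.range (C₃ * Y ^ 2 + 1), ∑ y ∈ F with g y = m, (g y : ℝ)
        ≤ ∑ m ∈ Finset.range (C₃ * Y ^ 2 + 1),
            A * (Y : ℝ) ^ n * (Real.sqrt m / (m : ℝ) ^ (n - 2)) :=
          Finset.sum_le_sum fun m _ => hcount m
      _ = A * (Y : ℝ) ^ n *
            ∑ m ∈ Finset.range (C₃ * Y ^ 2 + 1), Real.sqrt m / (m : ℝ) ^ (n - 2) := by
          rw [Finset.mul_sum]
      _ ≤ A * (3 + 2 * Real.sqrt C₃) * (Y : ℝ) ^ 4 := by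
          have hs0 : 0 ≤ Real.sqrt C₃ := Real.sqrt_nonneg _
          rcases hn with hn | hn
          · subst hn
            have h1 := GS1_sum3 (C₃ * Y ^ 2)
            have h2 : Real.sqrt ((C₃ * Y ^ 2 : ℕ) : ℝ) = Real.sqrt C₃ * Y := by
              push_cast
              rw [Real.sqrt_mul (by positivity), Real.sqrt_sq (by positivity)]
            rw [h2] at h1
            have h3 : ∑ m ∈ Finset.range (C₃ * Y ^ 2 + 1), Real.sqrt m / (m : ℝ) ^ (3 - 2) =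
                ∑ m ∈ Finset.range (C₃ * Y ^ 2 + 1), Real.sqrt m / (m : ℝ) :=
              Finset.sum_congr rfl fun m _ => by norm_num
            rw [h3]
            have h4 := mul_le_mul_of_nonneg_left h1
              (show (0 : ℝ) ≤ A * (Y : ℝ) ^ 3 by positivity)
            refine h4.trans ?_
            have h5 : A * (Y : ℝ) ^ 3 * (2 * (Real.sqrt C₃ * Y)) =
                A * (2 * Real.sqrt C₃) * (Y : ℝ) ^ 4 := by ring
            rw [h5]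
            refine mul_le_mul_of_nonneg_right (mul_le_mul_of_nonneg_left ?_ hA0) (by positivity)
            linarith
          · subst hn
            have h1 : ∑ m ∈ Finset.range (C₃ * Y ^ 2 + 1), Real.sqrt m / (m : ℝ) ^ (4 - 2) ≤ 3 := by
              have h2 := GS1_sum4 (C₃ * Y ^ 2)
              have h3 : ∑ m ∈ Finset.range (C₃ * Y ^ 2 + 1), Real.sqrt m / (m : ℝ) ^ (4 - 2) ≤
                  ∑ m ∈ Finset.range (C₃ * Y ^ 2 + 2), Real.sqrt m / (m : ℝ) ^ 2 := by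
                refine Finset.sum_le_sum_of_subset_of_nonneg ?_ fun m _ _ => by positivity
                exact Finset.range_subset_range.2 (by omega)
              have h4 : 0 ≤ 2 / Real.sqrt ((C₃ * Y ^ 2 + 1 : ℕ) : ℝ) := by positivity
              linarith
            have h4 := mul_le_mul_of_nonneg_left h1
              (show (0 : ℝ) ≤ A * (Y : ℝ) ^ 4 by positivity)
            refine h4.trans ?_
            have h5 : A * (Y : ℝ) ^ 4 * 3 = A * 3 * (Y : ℝ) ^ 4 := by ring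
            rw [h5]
            refine mul_le_mul_of_nonneg_right (mul_le_mul_of_nonneg_left ?_ hA0) (by positivity)
            linarith
  have h1 : ((∑ y ∈ F, g y : ℕ) : ℝ) ≤
      ((⌈A * (3 + 2 * Real.sqrt C₃)⌉₊ * Y ^ 4 : ℕ) : ℝ) := by
    push_cast
    exact main.trans (mul_le_mul_of_nonneg_right (Nat.le_ceil _) (by positivity))
  exact_mod_cast h1

end Pool.GLU
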