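import Pool.Agent.Work.MP_9fb703_gl.Interface

/-!
# MP_9fb703_nt, THEOREM GLUE, block GSM (helper40)
-/

set_option autoImplicit false

namespace Pool.GLU

open Matrix Polynomial

/-- statement for `T` of size `n` -/
def GSM_P (n : ℕ) : Prop :=
  ∀ T : Matrix (Fin n) (Fin n) ℤ, (T.charpoly.map (Int.castRingHom ℚ)).Separable →
    ∃ K : ℕ, ∀ Y : ℕ, 0 < Y → ∀ (F : Finset (Fin n → ℤ)) (g : (Fin n → ℤ) → ℕ),
      (∀ y ∈ F, (∀ j, |y j| ≤ Y) ∧ (∀ d : ℤ, (∀ j, d ∣ y j) → IsUnit d) ∧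
        (∀ k l, (g y : ℤ) ∣ y k * (T *ᵥ y) l - y l * (T *ᵥ y) k) ∧
        ∃ k l, y k * (T *ᵥ y) l - y l * (T *ᵥ y) k ≠ 0) →
      ∑ y ∈ F, g y ≤ K * Y ^ 4

/-- minors of `(A u, A v)` -/
theorem GSM_min {m n : ℕ} (A : Matrix (Fin m) (Fin n) ℤ) (u v : Fin n → ℤ) (k l : Fin m) :
    (A *ᵥ u) k * (A *ᵥ v) l - (A *ᵥ u) l * (A *ᵥ v) k =
      ∑ a, ∑ b, A k a * A l b * (u a * v b - u b * v a) := by
  have h1 : (A *ᵥ u) k * (A *ᵥ v) l = ∑ a, ∑ b, A k a * A l b * (u a * v b) := by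
    simp only [Matrix.mulVec, dotProduct]
    rw [Finset.sum_mul_sum]
    refine Finset.sum_congr rfl fun a _ => Finset.sum_congr rfl fun b _ => ?_
    ring
  have h2 : (A *ᵥ u) l * (A *ᵥ v) k = ∑ a, ∑ b, A k a * A l b * (u b * v a) := by
    simp only [Matrix.mulVec, dotProduct]
    rw [Finset.sum_mul_sum, Finset.sum_comm]
    refine Finset.sum_congr rfl fun a _ => Finset.sum_congr rfl fun b _ => ?_
    ring
  rw [h1, h2, ← Finset.sum_sub_distrib]
  refine Finset.sum_congr rfl fun a _ => ?_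
  rw [← Finset.sum_sub_distrib]
  refine Finset.sum_congr rfl fun b _ => ?_
  ring

/-- splitting a saturated sublattice off -/
theorem GSM_lat {n : ℕ} (f : (Fin n → ℤ) →ₗ[ℤ] ℂ) (hf : f ≠ 0) :
    ∃ (k : ℕ) (U : Matrix (Fin n) (Fin k) ℤ) (V : Matrix (Fin k) (Fin n) ℤ), k < n ∧
      V * U = 1 ∧ (∀ y, f y = 0 → U *ᵥ (V *ᵥ y) = y) ∧ ∀ x, f (U *ᵥ x) = 0 := by
  classical
  let W : Submodule ℤ (Fin n → ℤ) := LinearMap.ker f
  let R : Submodule ℤ ℂ := LinearMap.range f
  have : Module.Finite ℤ R := Module.Finite.range f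
  have : Module.Free ℤ R := inferInstance
  obtain ⟨s, hs⟩ := Module.projective_lifting_property f.rangeRestrict
    (LinearMap.id : R →ₗ[ℤ] R) f.surjective_rangeRestrict
  have hs' : ∀ r : R, f (s r) = (r : ℂ) := by
    intro r
    have := congrArg (fun g : R →ₗ[ℤ] R => ((g r : R) : ℂ)) hs
    simpa using this
  let p0 : (Fin n → ℤ) →ₗ[ℤ] (Fin n → ℤ) := LinearMap.id - s ∘ₗ f.rangeRestrict
  have hp0 : ∀ v, p0 v ∈ W := by
    intro v
    rw [LinearMap.mem_ker]
    simp only [p0, LinearMap.sub_apply, LinearMap.id_apply, LinearMap.comp_apply, map_sub, hs']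
    simp
  let p : (Fin n → ℤ) →ₗ[ℤ] W := p0.codRestrict W hp0
  have hpW : ∀ v (hv : v ∈ W), p v = ⟨v, hv⟩ := by
    intro v hv
    apply Subtype.ext
    have h0 : f.rangeRestrict v = 0 := by
      apply Subtype.ext
      simpa using LinearMap.mem_ker.mp hv
    show p0 v = v
    simp [p0, h0]
  let k := Module.finrank ℤ W
  let B : Module.Basis (Fin k) ℤ W := Module.finBasis ℤ W
  let U : Matrix (Fin n) (Fin k) ℤ := Matrix.of fun i j => (B j : Fin n → ℤ) i
  let V : Matrix (Fin k) (Fin n) ℤ := LinearMap.toMatrix' (B.equivFun.toLinearMap ∘ₗ p)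
  have hV : ∀ y, V *ᵥ y = B.equivFun (p y) := by
    intro y
    show LinearMap.toMatrix' (B.equivFun.toLinearMap ∘ₗ p) *ᵥ y = _
    rw [LinearMap.toMatrix'_mulVec]
    rfl
  have hU : ∀ x : Fin k → ℤ, U *ᵥ x = ((B.equivFun.symm x : W) : Fin n → ℤ) := by
    intro x
    rw [B.equivFun_symm_apply]
    funext i
    simp only [U, Matrix.mulVec, dotProduct, Matrix.of_apply]
    rw [Submodule.coe_sum, Finset.sum_apply]
    refine Finset.sum_congr rfl fun j _ => ?_
    simp [mul_comm]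
  refine ⟨k, U, V, ?_, ?_, ?_, ?_⟩
  · have h1 := Submodule.finrank_quotient_add_finrank W
    have h2 : Module.finrank ℤ (Fin n → ℤ) = n := Module.finrank_fin_fun ℤ
    have h3 : Module.finrank ℤ ((Fin n → ℤ) ⧸ W) = Module.finrank ℤ R :=
      LinearEquiv.finrank_eq f.quotKerEquivRange
    have h4 : 0 < Module.finrank ℤ R := by
      rw [Module.finrank_pos_iff]
      by_contra hcon
      rw [not_nontrivial_iff_subsingleton] at hcon
      apply hf
      ext v
      have := Subsingleton.elim (f.rangeRestrict (Pi.single v 1)) 0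
      have := congrArg (Subtype.val) this
      simpa using this
    show k < n
    omega
  · apply Matrix.toLin'.injective
    apply LinearMap.ext
    intro x
    simp only [Matrix.toLin'_apply, ← Matrix.mulVec_mulVec]
    rw [hU, hV, hpW _ (B.equivFun.symm x).2, Matrix.one_mulVec]
    exact B.equivFun.apply_symm_apply x
  · intro y hy
    have hy' : y ∈ W := LinearMap.mem_ker.mpr hy
    rw [hU, hV, hpW y hy']
    simp
  · intro x
    rw [hU]
    exact LinearMap.mem_ker.mp (B.equivFun.symm x).2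

/-- the characteristic polynomial on a stable direct summand -/
theorem GSM_chd {n k : ℕ} (T : Matrix (Fin n) (Fin n) ℤ) (U : Matrix (Fin n) (Fin k) ℤ)
    (V : Matrix (Fin k) (Fin n) ℤ) (h1 : V * U = 1) (h2 : U * (V * (T * U)) = T * U) :
    (V * (T * U)).charpoly ∣ T.charpoly := by
  classical
  set U' : Matrix (Fin n) (Fin k) ℤ[X] := U.map C with hU'
  set V' : Matrix (Fin k) (Fin n) ℤ[X] := V.map C with hV'
  set T' : Matrix (Fin n) (Fin n) ℤ[X] := T.map C with hT'
  have e1 : V' * U' = 1 := by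
    rw [hV', hU', ← Matrix.map_mul, h1]
    simp
  have e2 : U' * (V' * (T' * U')) = T' * U' := by
    rw [hV', hU', hT', ← Matrix.map_mul, ← Matrix.map_mul, ← Matrix.map_mul, h2]
  set A : Matrix (Fin n) (Fin n) ℤ[X] := Matrix.charmatrix T with hA
  have hA' : A = (X : ℤ[X]) • (1 : Matrix (Fin n) (Fin n) ℤ[X]) - T' := by
    rw [hA, Matrix.charmatrix]
    congr 1
    ext i j : 2
    simp [Matrix.scalar_apply, Matrix.diagonal_apply, Matrix.one_apply]
  set E : Matrix (Fin n) (Fin n) ℤ[X] := U' * V' with hE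
  have e3 : E * U' = U' := by
    rw [hE, Matrix.mul_assoc, e1, Matrix.mul_one]
  have e4 : E * E = E := by
    rw [hE, ← Matrix.mul_assoc, ← hE, e3]
  have e5 : E * (A * E) = A * E := by
    have : E * (T' * E) = T' * E := by
      have : E * (T' * U') = T' * U' := by
        rw [hE, Matrix.mul_assoc]
        exact e2
      calc E * (T' * E) = E * (T' * U') * V' := by
            rw [hE]; simp only [Matrix.mul_assoc]
        _ = T' * U' * V' := by rw [this]
        _ = T' * E := by rw [hE, Matrix.mul_assoc]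
    rw [hA', Matrix.sub_mul, Matrix.mul_sub, this, Matrix.smul_mul, Matrix.one_mul,
      Matrix.mul_smul, e4]
  have e6 : A = (E + A * (1 - E)) * (A * E + (1 - E)) := by
    have a1 : (1 - E) * (A * E) = 0 := by
      rw [Matrix.sub_mul, Matrix.one_mul, e5, sub_self]
    have a2 : (1 - E) * (1 - E) = 1 - E := by
      rw [Matrix.sub_mul, Matrix.one_mul, Matrix.mul_sub, Matrix.mul_one, e4]
      simp
    have a3 : E * (1 - E) = 0 := by
      rw [Matrix.mul_sub, Matrix.mul_one, e4, sub_self]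
    rw [Matrix.add_mul, Matrix.mul_add, Matrix.mul_add, Matrix.mul_assoc A (1 - E) (A * E), a1,
      Matrix.mul_assoc A (1 - E) (1 - E), a2, a3, e5, Matrix.mul_zero, Matrix.mul_sub,
      Matrix.mul_one]
    simp
  have e7 : (A * E + (1 - E)).det = (V * (T * U)).charpoly := by
    have b1 : A * E + (1 - E) = 1 + ((A - 1) * U') * V' := by
      rw [Matrix.mul_assoc, ← hE, Matrix.sub_mul, Matrix.one_mul]
      abel
    rw [b1, Matrix.det_one_add_mul_comm]
    have b2 : 1 + V' * ((A - 1) * U') = Matrix.charmatrix (V * (T * U)) := by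
      have b4 : C.mapMatrix (V * (T * U)) = V' * (T' * U') := by
        rw [hV', hU', hT', ← Matrix.map_mul, ← Matrix.map_mul]
        rfl
      rw [Matrix.sub_mul, Matrix.mul_sub, Matrix.one_mul, e1, hA', Matrix.sub_mul, Matrix.mul_sub,
        Matrix.smul_mul, Matrix.one_mul, Matrix.mul_smul, e1, Matrix.charmatrix, b4]
      have b3 : (X : ℤ[X]) • (1 : Matrix (Fin k) (Fin k) ℤ[X]) =
          (Matrix.scalar (Fin k)) (X : ℤ[X]) := by
        ext i j : 2
        simp [Matrix.scalar_apply, Matrix.diagonal_apply, Matrix.one_apply]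
      rw [b3]
      abel
    rw [b2, Matrix.charpoly]
  rw [← e7, Matrix.charpoly, ← hA]
  conv_rhs => rw [e6, Matrix.det_mul]
  exact Dvd.intro_left _ rfl

/-- non cyclic vectors are killed by an eigenform -/
theorem GSM_nc {n : ℕ} (T : Matrix (Fin n) (Fin n) ℤ)
    (hsep : (T.charpoly.map (Int.castRingHom ℚ)).Separable) :
    ∃ (R : Finset ℂ) (f : ℂ → (Fin n → ℤ) →ₗ[ℤ] ℂ), (∀ z ∈ R, f z ≠ 0 ∧
      ∀ y, f z (T *ᵥ y) = z * f z y) ∧ ∀ y : Fin n → ℤ,
      (Matrix.of fun i j : Fin n => ((T ^ (i : ℕ)) *ᵥ y) j).det = 0 → ∃ z ∈ R, f z y = 0 := by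
  classical
  set χ : ℂ[X] := (T.map (Int.cast : ℤ → ℂ)).charpoly with hχ
  have hχ1 : χ = (T.charpoly.map (Int.castRingHom ℚ)).map (algebraMap ℚ ℂ) := by
    rw [hχ, Polynomial.map_map]
    have : (algebraMap ℚ ℂ).comp (Int.castRingHom ℚ) = Int.castRingHom ℂ := RingHom.ext_int _ _
    rw [this, ← Matrix.charpoly_map]
    rfl
  have hχs : χ.Separable := by
    rw [hχ1]
    exact hsep.map
  have hdeg : χ.natDegree = n := by
    rw [hχ, Matrix.charpoly_natDegree_eq_dim]
    simp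
  have hχ0 : χ ≠ 0 := (Matrix.charpoly_monic _).ne_zero
  have hcard : χ.roots.toFinset.card = n := by
    rw [Multiset.toFinset_card_of_nodup (Polynomial.nodup_roots hχs)]
    rw [← hdeg]
    exact (IsAlgClosed.splits χ).natDegree_eq_card_roots.symm
  have hex : ∀ z : ℂ, z ∈ χ.roots.toFinset → ∃ v : Fin n → ℂ, v ≠ 0 ∧
      v ᵥ* (T.map (Int.cast : ℤ → ℂ)) = z • v := by
    intro z hz
    have hz' : χ.eval z = 0 := by
      have := (Polynomial.mem_roots hχ0).mp (Multiset.mem_toFinset.mp hz)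
      exact this
    rw [hχ, Matrix.eval_charpoly] at hz'
    obtain ⟨v, hv, hv2⟩ := Matrix.exists_vecMul_eq_zero_iff.mpr hz'
    refine ⟨v, hv, ?_⟩
    rw [Matrix.vecMul_sub, sub_eq_zero] at hv2
    rw [← hv2]
    funext i
    simp [Matrix.scalar_apply, Matrix.vecMul_diagonal, mul_comm]
  choose! v hv0 hv using hex
  let f : ℂ → (Fin n → ℤ) →ₗ[ℤ] ℂ := fun z =>
    { toFun := fun y => ∑ j, v z j * (y j : ℂ)
      map_add' := by
        intro a b
        rw [← Finset.sum_add_distrib]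
        refine Finset.sum_congr rfl fun j _ => ?_
        simp only [Pi.add_apply, Int.cast_add]
        ring
      map_smul' := by
        intro a b
        simp only [Pi.smul_apply, smul_eq_mul, Int.cast_mul, RingHom.id_apply, zsmul_eq_mul]
        rw [Finset.mul_sum]
        refine Finset.sum_congr rfl fun j _ => ?_
        ring }
  have hfa : ∀ z y, f z y = v z ⬝ᵥ (fun j => (y j : ℂ)) := fun z y => rfl
  have hfT : ∀ z ∈ χ.roots.toFinset, ∀ y, f z (T *ᵥ y) = z * f z y := by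
    intro z hz y
    have h1 : (fun j => (((T *ᵥ y) j : ℤ) : ℂ)) =
        (T.map (Int.cast : ℤ → ℂ)) *ᵥ (fun j => (y j : ℂ)) := by
      funext j
      simp [Matrix.mulVec, dotProduct, Matrix.map_apply]
    rw [hfa, h1, Matrix.dotProduct_mulVec, hv z hz, smul_dotProduct, hfa, smul_eq_mul]
  refine ⟨χ.roots.toFinset, f, ?_, ?_⟩
  · intro z hz
    refine ⟨?_, hfT z hz⟩
    intro h0
    apply hv0 z hz
    funext j
    have := congrArg (fun g : (Fin n → ℤ) →ₗ[ℤ] ℂ => g (Pi.single j 1)) h0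
    simp only [hfa, LinearMap.zero_apply] at this
    have h2 : (fun i => (((Pi.single j 1 : Fin n → ℤ) i : ℤ) : ℂ)) = Pi.single j (1 : ℂ) := by
      funext i
      by_cases hij : i = j
      · subst hij; simp
      · simp [Pi.single_eq_of_ne hij]
    rw [h2] at this
    simpa using this
  · intro y hy
    obtain ⟨c, hc0, hc⟩ := Matrix.exists_vecMul_eq_zero_iff.mpr hy
    by_contra hcon
    push Not at hcon
    have hpow : ∀ z ∈ χ.roots.toFinset, ∀ i : ℕ, f z ((T ^ i) *ᵥ y) = z ^ i * f z y := by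
      intro z hz i
      induction i with
      | zero => simp
      | succ i ih =>
        rw [pow_succ', ← Matrix.mulVec_mulVec, hfT z hz, ih]
        ring
    have hp0 : (∑ i : Fin n, C ((c i : ℤ) : ℂ) * (X : ℂ[X]) ^ (i : ℕ)) = 0 := by
      apply Polynomial.eq_zero_of_degree_lt_of_eval_finset_eq_zero χ.roots.toFinset
      · rw [hcard]
        exact Polynomial.degree_sum_fin_lt _
      · intro z hz
        have h1 : (∑ i : Fin n, ((c i : ℤ) : ℂ) * z ^ (i : ℕ)) * f z y = 0 := by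
          have h2 : ∑ i : Fin n, c i • ((T ^ (i : ℕ)) *ᵥ y) = 0 := by
            funext j
            have := congrFun hc j
            simp only [Matrix.vecMul, dotProduct, Matrix.of_apply, Pi.zero_apply] at this
            simp only [Finset.sum_apply, Pi.smul_apply, smul_eq_mul, Pi.zero_apply]
            exact this
          have h3 := congrArg (f z) h2
          rw [map_sum, map_zero] at h3
          rw [Finset.sum_mul, ← h3]
          refine Finset.sum_congr rfl fun i _ => ?_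
          rw [map_zsmul, hpow z hz, zsmul_eq_mul]
          ring
        have h4 : (∑ i : Fin n, ((c i : ℤ) : ℂ) * z ^ (i : ℕ)) = 0 := by
          rcases mul_eq_zero.mp h1 with h | h
          · exact h
          · exact absurd h (hcon z hz)
        rw [Polynomial.eval_finsetSum]
        simpa using h4
    apply hc0
    funext i
    have h5 := congrArg (fun p : ℂ[X] => p.coeff (i : ℕ)) hp0
    simp only [Polynomial.finsetSum_coeff, Polynomial.coeff_C_mul, Polynomial.coeff_X_pow,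
      Polynomial.coeff_zero] at h5
    rw [Finset.sum_eq_single i] at h5
    · simpa using h5
    · intro j _ hj
      have : ¬ ((i : ℕ) = (j : ℕ)) := fun h => hj (Fin.ext h.symm)
      simp [this]
    · intro h
      exact absurd (Finset.mem_univ i) h

/-- crude bound -/
theorem GSM_bd {m n : ℕ} (A : Matrix (Fin m) (Fin n) ℤ) (y : Fin n → ℤ) (Y : ℕ)
    (hy : ∀ j, |y j| ≤ Y) (i : Fin m) :
    |(A *ᵥ y) i| ≤ ((1 + ∑ i, ∑ j, (A i j).natAbs) * Y : ℕ) := by
  have h1 : |(A *ᵥ y) i| ≤ ∑ j, |A i j| * (Y : ℤ) := by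
    show |∑ j, A i j * y j| ≤ _
    refine (Finset.abs_sum_le_sum_abs _ _).trans (Finset.sum_le_sum fun j _ => ?_)
    rw [abs_mul]
    exact mul_le_mul_of_nonneg_left (hy j) (abs_nonneg _)
  refine h1.trans ?_
  rw [← Finset.sum_mul]
  push_cast
  refine mul_le_mul_of_nonneg_right ?_ (by positivity)
  have h2 : ∑ j, |A i j| ≤ ∑ i, ∑ j, |A i j| :=
    Finset.single_le_sum (f := fun i => ∑ j, |A i j|)
      (fun i _ => Finset.sum_nonneg fun j _ => abs_nonneg _) (Finset.mem_univ i)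
  linarith

theorem GSM_bU {α β : Type*} [DecidableEq α] [DecidableEq β] (s : Finset α) (t : α → Finset β)
    (g : β → ℕ) : ∑ y ∈ s.biUnion t, g y ≤ ∑ z ∈ s, ∑ y ∈ t z, g y := by
  induction s using Finset.induction_on with
  | empty => simp
  | insert a s ha ih =>
    rw [Finset.biUnion_insert, Finset.sum_insert ha]
    have := Finset.sum_union_inter (s₁ := t a) (s₂ := s.biUnion t) (f := g)
    omega

/-- the step of the induction -/
theorem GSM_step (hGS : Stmt_GS1) (n : ℕ) (hn : n = 3 ∨ n = 4) (ih : ∀ k, k < n → GSM_P k) :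
    GSM_P n := by
  classical
  intro T hsep
  obtain ⟨K₀, hK₀⟩ := hGS n hn T hsep
  obtain ⟨R, f, hR, hnc⟩ := GSM_nc T hsep
  have key : ∀ z ∈ R, ∃ K : ℕ, ∀ Y : ℕ, 0 < Y → ∀ (F : Finset (Fin n → ℤ))
      (g : (Fin n → ℤ) → ℕ), (∀ y ∈ F, (∀ j, |y j| ≤ Y) ∧ (∀ d : ℤ, (∀ j, d ∣ y j) → IsUnit d) ∧
        (∀ k l, (g y : ℤ) ∣ y k * (T *ᵥ y) l - y l * (T *ᵥ y) k) ∧
        ∃ k l, y k * (T *ᵥ y) l - y l * (T *ᵥ y) k ≠ 0) → (∀ y ∈ F, f z y = 0) →
      ∑ y ∈ F, g y ≤ K * Y ^ 4 := by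
    intro z hz
    obtain ⟨hz0, hzT⟩ := hR z hz
    obtain ⟨k, U, V, hk, hVU, hUV, hU⟩ := GSM_lat (f z) hz0
    have h2 : U * (V * (T * U)) = T * U := by
      apply Matrix.toLin'.injective
      apply LinearMap.ext
      intro x
      simp only [Matrix.toLin'_apply, ← Matrix.mulVec_mulVec]
      apply hUV
      rw [hzT, hU, mul_zero]
    set T' := V * (T * U) with hT'
    have hsep' : (T'.charpoly.map (Int.castRingHom ℚ)).Separable :=
      hsep.of_dvd (Polynomial.map_dvd _ (GSM_chd T U V hVU h2))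
    obtain ⟨K, hK⟩ := ih k hk T' hsep'
    set c : ℕ := 1 + ∑ i, ∑ j, (V i j).natAbs with hc
    refine ⟨K * c ^ 4, ?_⟩
    intro Y hY F g hF hFz
    have hinj : Set.InjOn (fun y => V *ᵥ y) (F : Set (Fin n → ℤ)) := by
      intro a ha b hb hab
      have hab' : V *ᵥ a = V *ᵥ b := hab
      rw [← hUV a (hFz a ha), ← hUV b (hFz b hb), hab']
    have e1 : ∑ y ∈ F, g y = ∑ x ∈ F.image (fun y => V *ᵥ y), g (U *ᵥ x) := by
      rw [Finset.sum_image hinj]
      refine Finset.sum_congr rfl fun y hy => ?_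
      rw [hUV y (hFz y hy)]
    rw [e1]
    have hcY : 0 < c * Y := by positivity
    refine (hK (c * Y) hcY (F.image (fun y => V *ᵥ y)) (fun x => g (U *ᵥ x)) ?_).trans
      (le_of_eq (by ring))
    intro x hx
    obtain ⟨y, hy, rfl⟩ := Finset.mem_image.mp hx
    obtain ⟨y1, y2, y3, y4⟩ := hF y hy
    have hUVy := hUV y (hFz y hy)
    have hTx : T' *ᵥ (V *ᵥ y) = V *ᵥ (T *ᵥ y) := by
      rw [hT', ← Matrix.mulVec_mulVec, ← Matrix.mulVec_mulVec, hUVy]
    have hUT : U *ᵥ (V *ᵥ (T *ᵥ y)) = T *ᵥ y := by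
      apply hUV
      rw [hzT, hFz y hy, mul_zero]
    refine ⟨?_, ?_, ?_, ?_⟩
    · intro j
      have := GSM_bd V y Y y1 j
      rw [← hc] at this
      exact this
    · intro d hd
      apply y2
      intro j
      have : y j = (U *ᵥ (V *ᵥ y)) j := by rw [hUVy]
      rw [this]
      show d ∣ ∑ i, U j i * (V *ᵥ y) i
      exact Finset.dvd_sum fun i _ => Dvd.dvd.mul_left (hd i) _
    · intro k' l'
      show ((g (U *ᵥ (V *ᵥ y)) : ℕ) : ℤ) ∣ _
      rw [hTx, hUVy]
      rw [show (V *ᵥ y) k' * (V *ᵥ (T *ᵥ y)) l' - (V *ᵥ y) l' * (V *ᵥ (T *ᵥ y)) k' = _ from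
        GSM_min V y (T *ᵥ y) k' l']
      exact Finset.dvd_sum fun a _ => Finset.dvd_sum fun b _ => Dvd.dvd.mul_left (y3 a b) _
    · by_contra hcon
      push Not at hcon
      obtain ⟨k', l', hkl⟩ := y4
      apply hkl
      have e2 := GSM_min U (V *ᵥ y) (V *ᵥ (T *ᵥ y)) k' l'
      rw [hUVy, hUT] at e2
      rw [e2]
      refine Finset.sum_eq_zero fun a _ => Finset.sum_eq_zero fun b _ => ?_
      have := hcon a b
      rw [hTx] at this
      rw [this, mul_zero]
  choose! K hK using key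
  refine ⟨K₀ + ∑ z ∈ R, K z, ?_⟩
  intro Y hY F g hF
  set F₀ := F.filter (fun y => (Matrix.of fun i j : Fin n => ((T ^ (i : ℕ)) *ᵥ y) j).det ≠ 0)
    with hF₀
  have h1 : ∑ y ∈ F₀, g y ≤ K₀ * Y ^ 4 := by
    apply hK₀ Y hY
    intro y hy
    rw [hF₀, Finset.mem_filter] at hy
    obtain ⟨y1, y2, y3, y4⟩ := hF y hy.1
    exact ⟨y1, y2, y3, hy.2⟩
  have h2 : ∑ y ∈ F, g y ≤ ∑ y ∈ F₀, g y + ∑ z ∈ R, ∑ y ∈ F.filter (fun y => f z y = 0), g y := by
    rw [← Finset.sum_filter_add_sum_filter_not F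
      (fun y => (Matrix.of fun i j : Fin n => ((T ^ (i : ℕ)) *ᵥ y) j).det ≠ 0)]
    refine Nat.add_le_add_left ?_ _
    calc ∑ y ∈ F.filter (fun y => ¬ (Matrix.of fun i j : Fin n =>
          ((T ^ (i : ℕ)) *ᵥ y) j).det ≠ 0), g y
        ≤ ∑ y ∈ R.biUnion (fun z => F.filter (fun y => f z y = 0)), g y := by
          apply Finset.sum_le_sum_of_subset
          intro y hy
          rw [Finset.mem_filter, not_not] at hy
          obtain ⟨z, hz, hzy⟩ := hnc y hy.2
          rw [Finset.mem_biUnion]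
          exact ⟨z, hz, Finset.mem_filter.mpr ⟨hy.1, hzy⟩⟩
      _ ≤ ∑ z ∈ R, ∑ y ∈ F.filter (fun y => f z y = 0), g y := by
          exact GSM_bU _ _ _
  refine h2.trans ?_
  rw [Nat.add_mul, Finset.sum_mul]
  refine Nat.add_le_add h1 (Finset.sum_le_sum fun z hz => ?_)
  apply hK z hz Y hY
  · intro y hy
    exact hF y (Finset.mem_filter.mp hy).1
  · intro y hy
    exact (Finset.mem_filter.mp hy).2

theorem GSM_P0 : GSM_P 0 := by
  intro T _
  refine ⟨0, fun Y _ F g hF => ?_⟩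
  rw [Finset.sum_eq_zero]
  · simp
  · intro y hy
    obtain ⟨-, -, -, k, -⟩ := hF y hy
    exact k.elim0

theorem GSM_P1 : GSM_P 1 := by
  intro T _
  refine ⟨0, fun Y _ F g hF => ?_⟩
  rw [Finset.sum_eq_zero]
  · simp
  · intro y hy
    obtain ⟨-, -, -, k, l, hkl⟩ := hF y hy
    exfalso
    apply hkl
    rw [Subsingleton.elim k l]
    ring

theorem GSM_P2 : GSM_P 2 := by
  classical
  intro T _
  set c : ℕ := 1 + ∑ i, ∑ j, (T i j).natAbs with hc
  refine ⟨18 * c, fun Y hY F g hF => ?_⟩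
  have h1 : ∀ y ∈ F, g y ≤ 2 * c * Y ^ 2 := by
    intro y hy
    obtain ⟨y1, -, y3, k, l, hkl⟩ := hF y hy
    have e1 : |y k * (T *ᵥ y) l - y l * (T *ᵥ y) k| ≤ 2 * c * Y ^ 2 := by
      have a1 := GSM_bd T y Y y1 k
      have a2 := GSM_bd T y Y y1 l
      rw [← hc] at a1 a2
      push_cast at a1 a2
      have b1 : |y k * (T *ᵥ y) l| ≤ Y * (c * Y) := by
        rw [abs_mul]
        exact mul_le_mul (y1 k) a2 (abs_nonneg _) (by positivity)
      have b2 : |y l * (T *ᵥ y) k| ≤ Y * (c * Y) := by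
        rw [abs_mul]
        exact mul_le_mul (y1 l) a1 (abs_nonneg _) (by positivity)
      calc |y k * (T *ᵥ y) l - y l * (T *ᵥ y) k| ≤ |y k * (T *ᵥ y) l| + |y l * (T *ᵥ y) k| :=
            abs_sub _ _
        _ ≤ Y * (c * Y) + Y * (c * Y) := add_le_add b1 b2
        _ = 2 * c * Y ^ 2 := by ring
    have e2 := Int.le_of_dvd (abs_pos.mpr hkl) ((dvd_abs _ _).mpr (y3 k l))
    have e3 := e2.trans e1
    exact_mod_cast e3
  have h2 : F.card ≤ 9 * Y ^ 2 := by
    have hsub : F ⊆ Fintype.piFinset (fun _ : Fin 2 => Finset.Icc (-(Y : ℤ)) Y) := by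
      intro y hy
      rw [Fintype.mem_piFinset]
      intro j
      have := (hF y hy).1 j
      rw [Finset.mem_Icc]
      exact abs_le.mp this
    refine (Finset.card_le_card hsub).trans ?_
    rw [Fintype.card_piFinset]
    simp only [Int.card_Icc, Finset.prod_const, Finset.card_univ, Fintype.card_fin]
    have : ((Y : ℤ) + 1 - -(Y : ℤ)).toNat = 2 * Y + 1 := by omega
    rw [this]
    nlinarith
  calc ∑ y ∈ F, g y ≤ ∑ _y ∈ F, 2 * c * Y ^ 2 := Finset.sum_le_sum h1
    _ = F.card * (2 * c * Y ^ 2) := by rw [Finset.sum_const, smul_eq_mul]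
    _ ≤ (9 * Y ^ 2) * (2 * c * Y ^ 2) := Nat.mul_le_mul_right _ h2
    _ = 18 * c * Y ^ 4 := by ring

theorem p_GSM (hTMX : Stmt_TMX) (hGS : Stmt_GS1) : Stmt_GSM := by
  intro b hb
  obtain ⟨T, hT, hTy⟩ := hTMX b hb
  have h3 : GSM_P 3 := GSM_step hGS 3 (Or.inl rfl) (by
    intro k hk
    interval_cases k
    · exact GSM_P0
    · exact GSM_P1
    · exact GSM_P2)
  have h4 : GSM_P 4 := GSM_step hGS 4 (Or.inr rfl) (by
    intro k hk
    interval_cases k
    · exact GSM_P0
    · exact GSM_P1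
    · exact GSM_P2
    · exact h3)
  obtain ⟨K, hK⟩ := h4 T hT
  refine ⟨K, fun Y hY F g hF => hK Y hY F g ?_⟩
  intro y hy
  obtain ⟨y1, y2, y3, y4⟩ := hF y hy
  obtain ⟨t1, t2⟩ := hTy y
  exact ⟨y1, y2, t1 _ y3, t2 y4⟩

end Pool.GLU
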