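import Pool.Agent.Work.MP_9fb703_gl.Interface

/-!
# MP_9fb703_nt, THEOREM GLUE, block HEN: equidistribution
-/

set_option autoImplicit false

namespace Pool.GLU

open Matrix

/-- The box of side `L`. -/
def HEN_box (L : ℕ) : Set (Fin 4 → ℤ) := {x | ∀ j, 0 ≤ x j ∧ x j < (L : ℤ)}

theorem HEN_box_finite (L : ℕ) : (HEN_box L).Finite := by
  have : HEN_box L = Set.pi Set.univ (fun _ : Fin 4 => Set.Ico (0 : ℤ) L) := by
    ext x
    simp [HEN_box, Set.mem_pi]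
  rw [this]
  exact Set.Finite.pi fun _ => Set.finite_Ico _ _

/-- Periodic sets. -/
def HEN_per (L : ℕ) (A : Set (Fin 4 → ℤ)) : Prop :=
  ∀ x z : Fin 4 → ℤ, x ∈ A → (fun j => x j + L * z j) ∈ A

theorem HEN_shift_le (L : ℕ) (hL : 0 < L) (A B : Set (Fin 4 → ℤ)) (hB : HEN_per L B)
    (v : Fin 4 → ℤ) (hAB : ∀ x ∈ A, (fun j => x j + v j) ∈ B) :
    (HEN_box L ∩ A).ncard ≤ (HEN_box L ∩ B).ncard := by
  refine Set.ncard_le_ncard_of_injOn (fun x j => (x j + v j) % (L : ℤ)) ?_ ?_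
    ((HEN_box_finite L).inter_of_left _)
  · rintro x ⟨hx, hxA⟩
    refine ⟨fun j => ⟨Int.emod_nonneg _ (by omega), Int.emod_lt_of_pos _ (by omega)⟩, ?_⟩
    have h1 := hB _ (fun j => -((x j + v j) / (L : ℤ))) (hAB x hxA)
    have h2 : (fun j => (x j + v j) % (L : ℤ)) =
        (fun j => (fun j => x j + v j) j + L * (fun j => -((x j + v j) / (L : ℤ))) j) := by
      funext j
      simp only
      rw [Int.emod_def]
      ring
    rw [h2]
    exact h1
  · rintro x ⟨hx, -⟩ y ⟨hy, -⟩ hxy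
    funext j
    have h1 : (x j + v j) % (L : ℤ) = (y j + v j) % (L : ℤ) := congrFun hxy j
    have h2 : x j % (L : ℤ) = y j % (L : ℤ) := by
      have h3 : (x j + v j) ≡ (y j + v j) [ZMOD L] := h1
      exact Int.ModEq.add_right_cancel' _ h3
    rwa [Int.emod_eq_of_lt (hx j).1 (hx j).2, Int.emod_eq_of_lt (hy j).1 (hy j).2] at h2

theorem HEN_scale (L p : ℕ) (hL : 0 < L) (A : Set (Fin 4 → ℤ)) (hA : HEN_per L A) :
    (HEN_box (L * p) ∩ A).ncard = p ^ 4 * (HEN_box L ∩ A).ncard := by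
  let F : (Fin 4 → ℤ) × (Fin 4 → Fin p) → (Fin 4 → ℤ) :=
    fun z j => z.1 j + L * ((z.2 j : ℕ) : ℤ)
  have hLz : (0 : ℤ) < L := by exact_mod_cast hL
  have h1 : HEN_box (L * p) ∩ A = F '' ((HEN_box L ∩ A) ×ˢ Set.univ) := by
    ext x
    constructor
    · rintro ⟨hx, hxA⟩
      have h2 : ∀ j, (x j / (L : ℤ)).toNat < p := by
        intro j
        have h3 : x j / (L : ℤ) < p := by
          rw [Int.ediv_lt_iff_lt_mul hLz]
          have := (hx j).2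
          push_cast at this
          linarith
        have h4 : 0 ≤ x j / (L : ℤ) := Int.ediv_nonneg (hx j).1 hLz.le
        omega
      refine ⟨(fun j => x j % (L : ℤ), fun j => ⟨(x j / (L : ℤ)).toNat, h2 j⟩),
        ⟨⟨fun j => ⟨Int.emod_nonneg _ hLz.ne', Int.emod_lt_of_pos _ hLz⟩, ?_⟩,
          Set.mem_univ _⟩, ?_⟩
      · have h3 := hA x (fun j => -(x j / (L : ℤ))) hxA
        have h4 : (fun j => x j % (L : ℤ)) = (fun j => x j + L * (fun j => -(x j / (L : ℤ))) j) := by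
          funext j
          simp only
          rw [Int.emod_def]
          ring
        show (fun j => x j % (L : ℤ)) ∈ A
        rw [h4]
        exact h3
      · funext j
        show x j % (L : ℤ) + L * (((x j / (L : ℤ)).toNat : ℕ) : ℤ) = x j
        rw [Int.toNat_of_nonneg (Int.ediv_nonneg (hx j).1 hLz.le)]
        exact Int.emod_add_mul_ediv _ _
    · rintro ⟨⟨y, u⟩, ⟨⟨hy, hyA⟩, -⟩, rfl⟩
      refine ⟨fun j => ⟨?_, ?_⟩, hA y (fun j => ((u j : ℕ) : ℤ)) hyA⟩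
      · have := (hy j).1
        show 0 ≤ y j + L * ((u j : ℕ) : ℤ)
        positivity
      · have h2 := (hy j).2
        have h3 : ((u j : ℕ) : ℤ) + 1 ≤ p := by exact_mod_cast (u j).2
        show y j + L * ((u j : ℕ) : ℤ) < ((L * p : ℕ) : ℤ)
        push_cast
        nlinarith
  have hinj : Set.InjOn F ((HEN_box L ∩ A) ×ˢ Set.univ) := by
    rintro ⟨y, u⟩ ⟨⟨hy, -⟩, -⟩ ⟨y', u'⟩ ⟨⟨hy', -⟩, -⟩ h
    have h2 : ∀ j, y j = y' j ∧ u j = u' j := by
      intro j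
      have h3 : y j + L * ((u j : ℕ) : ℤ) = y' j + L * ((u' j : ℕ) : ℤ) := congrFun h j
      have h4 : y j = y' j := by
        have h5 : (y j + L * ((u j : ℕ) : ℤ)) % L = (y' j + L * ((u' j : ℕ) : ℤ)) % L := by rw [h3]
        rwa [Int.add_mul_emod_self_left, Int.add_mul_emod_self_left,
          Int.emod_eq_of_lt (hy j).1 (hy j).2, Int.emod_eq_of_lt (hy' j).1 (hy' j).2] at h5
      refine ⟨h4, Fin.ext ?_⟩
      rw [h4] at h3
      have h5 : (L : ℤ) * ((u j : ℕ) : ℤ) = L * ((u' j : ℕ) : ℤ) := by linarith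
      have h6 := mul_left_cancel₀ hLz.ne' h5
      exact_mod_cast h6
    exact Prod.ext (funext fun j => (h2 j).1) (funext fun j => (h2 j).2)
  rw [h1, hinj.ncard_image, Set.ncard_prod, Set.ncard_univ, Nat.card_eq_fintype_card,
    Fintype.card_fun, Fintype.card_fin, Fintype.card_fin, mul_comm]

/-- The set of HEN. -/
def HEN_A (b : Fin 2 → Matrix (Fin 4) (Fin 4) ℤ) (m V' : ℕ) (x₀ : Fin 4 → ℤ) (k : ℕ)
    (ρ : Fin 2 → ℤ) : Set (Fin 4 → ℤ) :=
  {x | (∀ j, ((m * V' : ℕ) : ℤ) ∣ x j - x₀ j) ∧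
    ∀ i, ((m ^ 2 * V' * k : ℕ) : ℤ) ∣ qv b x i - qv b x₀ i - ((m ^ 2 * V' : ℕ) : ℤ) * ρ i}

/-- Expansion of `q(x + c z)`. -/
theorem HEN_exp (b : Fin 2 → Matrix (Fin 4) (Fin 4) ℤ) (x z : Fin 4 → ℤ) (c : ℤ) (i : Fin 2) :
    qv b (fun j => x j + c * z j) i =
      qv b x i + c * (jv b x i ⬝ᵥ z) + c ^ 2 * qv b z i := by
  have h0 : (fun j => x j + c * z j) = x + c • z := by
    funext j
    simp
  have h1 : (b i + (b i)ᵀ).map (Int.cast : ℤ → ℤ) = b i + (b i)ᵀ := by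
    ext k l
    simp
  have h2 : (b i).map (Int.cast : ℤ → ℤ) = b i := by
    ext k l
    simp
  rw [h0]
  unfold qv jv
  rw [h1, h2]
  have h3 : (b i + (b i)ᵀ) *ᵥ x ⬝ᵥ z = x ⬝ᵥ (b i *ᵥ z) + z ⬝ᵥ (b i *ᵥ x) := by
    rw [add_mulVec, add_dotProduct, mulVec_transpose, ← dotProduct_mulVec,
      dotProduct_comm (b i *ᵥ x) z, add_comm]
  rw [h3, mulVec_add, mulVec_smul, dotProduct_add, add_dotProduct, add_dotProduct,
    dotProduct_smul, dotProduct_smul, smul_dotProduct, smul_dotProduct]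
  simp only [smul_eq_mul]
  ring

theorem HEN_per_A (b : Fin 2 → Matrix (Fin 4) (Fin 4) ℤ) (m V' : ℕ) (x₀ : Fin 4 → ℤ) (k : ℕ)
    (ρ : Fin 2 → ℤ) : HEN_per (m ^ 2 * V' * k) (HEN_A b m V' x₀ k ρ) := by
  rintro x z ⟨h1, h2⟩
  refine ⟨fun j => ?_, fun i => ?_⟩
  · have h3 : ((m * V' : ℕ) : ℤ) ∣ ((m ^ 2 * V' * k : ℕ) : ℤ) * z j := by
      refine Dvd.dvd.mul_right ?_ _
      exact_mod_cast (⟨m * k, by ring⟩ : m * V' ∣ m ^ 2 * V' * k)
    have h4 := dvd_add (h1 j) h3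
    have h5 : x j - x₀ j + ((m ^ 2 * V' * k : ℕ) : ℤ) * z j =
        x j + ((m ^ 2 * V' * k : ℕ) : ℤ) * z j - x₀ j := by ring
    rwa [h5] at h4
  · rw [HEN_exp]
    have h4 := dvd_add (h2 i) (Dvd.intro (jv b x i ⬝ᵥ z +
      ((m ^ 2 * V' * k : ℕ) : ℤ) * qv b z i) rfl :
      ((m ^ 2 * V' * k : ℕ) : ℤ) ∣ ((m ^ 2 * V' * k : ℕ) : ℤ) * (jv b x i ⬝ᵥ z +
      ((m ^ 2 * V' * k : ℕ) : ℤ) * qv b z i))
    refine (dvd_iff_dvd_of_dvd_sub ?_).1 h4
    refine ⟨0, ?_⟩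
    ring

/-- The translation by `V k z`. -/
theorem HEN_tr (b : Fin 2 → Matrix (Fin 4) (Fin 4) ℤ) (m V' : ℕ) (x₀ : Fin 4 → ℤ) (k p : ℕ)
    (hpV : p ∣ V') (ρ σ : Fin 2 → ℤ) (z : Fin 4 → ℤ)
    (hz : ∀ i, ((m * p : ℕ) : ℤ) ∣ jv b x₀ i ⬝ᵥ z - m * σ i) (x : Fin 4 → ℤ)
    (hx : x ∈ HEN_A b m V' x₀ (k * p) ρ) :
    (fun j => x j + ((m * V' * k : ℕ) : ℤ) * z j) ∈
      HEN_A b m V' x₀ (k * p) (fun i => ρ i + k * σ i) := by
  obtain ⟨h1, h2⟩ := hx
  refine ⟨fun j => ?_, fun i => ?_⟩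
  · have h3 : ((m * V' : ℕ) : ℤ) ∣ ((m * V' * k : ℕ) : ℤ) * z j := by
      refine Dvd.dvd.mul_right ?_ _
      exact_mod_cast (⟨k, by ring⟩ : m * V' ∣ m * V' * k)
    have h4 := dvd_add (h1 j) h3
    have h5 : x j - x₀ j + ((m * V' * k : ℕ) : ℤ) * z j =
        x j + ((m * V' * k : ℕ) : ℤ) * z j - x₀ j := by ring
    rwa [h5] at h4
  · rw [HEN_exp]
    choose t ht using h1
    obtain ⟨s, hs⟩ := hz i
    obtain ⟨u, hu⟩ := h2 i
    obtain ⟨v, hv⟩ := hpV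
    -- `J(x)·z = J(x₀)·z + V J(t)·z`
    have hJ : jv b x i ⬝ᵥ z = jv b x₀ i ⬝ᵥ z + ((m * V' : ℕ) : ℤ) * (jv b t i ⬝ᵥ z) := by
      have h3 : x = x₀ + ((m * V' : ℕ) : ℤ) • t := by
        funext j
        simp only [Pi.add_apply, Pi.smul_apply, smul_eq_mul]
        linarith [ht j]
      rw [h3]
      unfold jv
      rw [mulVec_add, mulVec_smul, add_dotProduct, smul_dotProduct, smul_eq_mul]
    have h4 : jv b x₀ i ⬝ᵥ z = m * σ i + ((m * p : ℕ) : ℤ) * s := by linarith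
    have h5 : qv b x i = qv b x₀ i + ((m ^ 2 * V' : ℕ) : ℤ) * ρ i +
        ((m ^ 2 * V' * (k * p) : ℕ) : ℤ) * u := by linarith
    rw [hJ, h4, h5]
    refine ⟨u + s + v * (jv b t i ⬝ᵥ z) + k * v * qv b z i, ?_⟩
    rw [hv]
    push_cast
    ring

theorem HEN_step (b : Fin 2 → Matrix (Fin 4) (Fin 4) ℤ) (m V' : ℕ) (x₀ : Fin 4 → ℤ) (hm : 0 < m)
    (hV' : 0 < V') (hreg : Reg b m V' x₀) (k p : ℕ) (hk : 0 < k) (hp : p.Prime) (hpV : p ∣ V')
    (N : ℕ) (ρ : Fin 2 → ℤ)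
    (ih : (HEN_box (m ^ 2 * V' * k) ∩ HEN_A b m V' x₀ k ρ).ncard = N * k ^ 2) :
    (HEN_box (m ^ 2 * V' * (k * p)) ∩ HEN_A b m V' x₀ (k * p) ρ).ncard = N * (k * p) ^ 2 := by
  classical
  have hp0 : 0 < p := hp.pos
  have : NeZero p := ⟨hp0.ne'⟩
  set L : ℕ := m ^ 2 * V' * (k * p) with hL
  have hL0 : 0 < L := by positivity
  -- all shifts have the same number
  have hshift : ∀ σ : Fin 2 → ℤ,
      (HEN_box L ∩ HEN_A b m V' x₀ (k * p) (fun i => ρ i + k * σ i)).ncard =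
        (HEN_box L ∩ HEN_A b m V' x₀ (k * p) ρ).ncard := by
    intro σ
    obtain ⟨z, hz⟩ := hreg p hp hpV σ
    refine le_antisymm ?_ ?_
    · refine HEN_shift_le L hL0 _ _ (HEN_per_A b m V' x₀ (k * p) ρ)
        (fun j => ((m * V' * k : ℕ) : ℤ) * (-z j)) fun x hx => ?_
      have h1 := HEN_tr b m V' x₀ k p hpV (fun i => ρ i + k * σ i) (fun i => -σ i)
        (fun j => -z j) (fun i => by
          have h2 : (jv b x₀ i ⬝ᵥ fun j => -z j) - m * (fun i => -σ i) i =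
              -(jv b x₀ i ⬝ᵥ z - m * σ i) := by
            have h3 : (jv b x₀ i ⬝ᵥ fun j => -z j) = -(jv b x₀ i ⬝ᵥ z) := by
              have : (fun j => -z j) = -z := rfl
              rw [this, dotProduct_neg]
            rw [h3]
            ring
          rw [h2]
          exact (hz i).neg_right) x hx
      have h4 : (fun i => (fun i => ρ i + k * σ i) i + k * (fun i => -σ i) i) = ρ := by
        funext i
        simp
      rw [h4] at h1
      exact h1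
    · exact HEN_shift_le L hL0 _ _ (HEN_per_A b m V' x₀ (k * p) _)
        (fun j => ((m * V' * k : ℕ) : ℤ) * z j) fun x hx =>
          HEN_tr b m V' x₀ k p hpV ρ σ z hz x hx
  -- the total
  have htot : (HEN_box L ∩ HEN_A b m V' x₀ k ρ).ncard = p ^ 4 * (N * k ^ 2) := by
    have h1 := HEN_scale (m ^ 2 * V' * k) p (by positivity) (HEN_A b m V' x₀ k ρ)
      (HEN_per_A b m V' x₀ k ρ)
    rw [ih] at h1
    have h2 : m ^ 2 * V' * k * p = L := by rw [hL]; ring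
    rwa [h2] at h1
  have hfin : (HEN_box L ∩ HEN_A b m V' x₀ k ρ).Finite := (HEN_box_finite L).inter_of_left _
  have hW0 : ((m ^ 2 * V' * k : ℕ) : ℤ) ≠ 0 := by positivity
  -- the fibration
  let g : (Fin 4 → ℤ) → (Fin 2 → ZMod p) := fun x i =>
    (((qv b x i - qv b x₀ i - ((m ^ 2 * V' : ℕ) : ℤ) * ρ i) / ((m ^ 2 * V' * k : ℕ) : ℤ) : ℤ) :
      ZMod p)
  have hfib : ∀ u : Fin 2 → ZMod p, (hfin.toFinset.filter fun x => g x = u).card =
      (HEN_box L ∩ HEN_A b m V' x₀ (k * p) ρ).ncard := by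
    intro u
    rw [← hshift fun i => ((u i).val : ℤ), ← Set.ncard_coe_finset]
    congr 1
    ext x
    simp only [Finset.coe_filter, Set.Finite.mem_toFinset, Set.mem_ofPred_eq, Set.mem_inter_iff]
    have key : ∀ i, (((m ^ 2 * V' * k : ℕ) : ℤ) ∣ qv b x i - qv b x₀ i -
        ((m ^ 2 * V' : ℕ) : ℤ) * ρ i) → (g x i = u i ↔ ((m ^ 2 * V' * (k * p) : ℕ) : ℤ) ∣
          qv b x i - qv b x₀ i - ((m ^ 2 * V' : ℕ) : ℤ) * (ρ i + k * ((u i).val : ℤ))) := by
      intro i hi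
      obtain ⟨t, ht⟩ := hi
      have h1 : g x i = (t : ZMod p) := by
        show (((qv b x i - qv b x₀ i - ((m ^ 2 * V' : ℕ) : ℤ) * ρ i) /
          ((m ^ 2 * V' * k : ℕ) : ℤ) : ℤ) : ZMod p) = _
        rw [ht, Int.mul_ediv_cancel_left _ hW0]
      have h2 : qv b x i - qv b x₀ i - ((m ^ 2 * V' : ℕ) : ℤ) * (ρ i + k * ((u i).val : ℤ)) =
          ((m ^ 2 * V' * k : ℕ) : ℤ) * (t - ((u i).val : ℤ)) := by
        have : qv b x i - qv b x₀ i - ((m ^ 2 * V' : ℕ) : ℤ) * (ρ i + k * ((u i).val : ℤ)) =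
          (qv b x i - qv b x₀ i - ((m ^ 2 * V' : ℕ) : ℤ) * ρ i) -
            ((m ^ 2 * V' : ℕ) : ℤ) * (k * ((u i).val : ℤ)) := by ring
        rw [this, ht]
        push_cast
        ring
      have h3 : ((m ^ 2 * V' * (k * p) : ℕ) : ℤ) = ((m ^ 2 * V' * k : ℕ) : ℤ) * (p : ℤ) := by
        push_cast
        ring
      rw [h1, h2, h3, mul_dvd_mul_iff_left hW0]
      have h4 : u i = (((u i).val : ℤ) : ZMod p) := by
        rw [Int.cast_natCast, ZMod.natCast_zmod_val]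
      rw [h4, ZMod.intCast_eq_intCast_iff_dvd_sub, ← h4]
      constructor
      · intro h
        rw [← neg_sub]
        exact h.neg_right
      · intro h
        rw [← neg_sub]
        exact h.neg_right
    constructor
    · rintro ⟨⟨hb, hA⟩, hg⟩
      exact ⟨hb, hA.1, fun i => (key i (hA.2 i)).1 (congrFun hg i)⟩
    · rintro ⟨hb, hA⟩
      have h1 : ∀ i, ((m ^ 2 * V' * k : ℕ) : ℤ) ∣ qv b x i - qv b x₀ i -
          ((m ^ 2 * V' : ℕ) : ℤ) * ρ i := by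
        intro i
        have h2 : ((m ^ 2 * V' * k : ℕ) : ℤ) ∣ ((m ^ 2 * V' * (k * p) : ℕ) : ℤ) := by
          exact_mod_cast (⟨p, by ring⟩ : m ^ 2 * V' * k ∣ m ^ 2 * V' * (k * p))
        have h3 := h2.trans (hA.2 i)
        refine (dvd_iff_dvd_of_dvd_sub ⟨-((u i).val : ℤ), ?_⟩).1 h3
        push_cast
        ring
      exact ⟨⟨hb, hA.1, h1⟩, funext fun i => (key i (h1 i)).2 (hA.2 i)⟩
  have hsum := Finset.card_eq_sum_card_fiberwise (s := hfin.toFinset) (t := Finset.univ) (f := g)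
    (fun x _ => Finset.mem_coe.2 (Finset.mem_univ _))
  rw [Finset.sum_congr rfl fun u _ => hfib u, Finset.sum_const, Finset.card_univ,
    ← Set.ncard_eq_toFinset_card _ hfin, htot] at hsum
  rw [Fintype.card_fun, ZMod.card, Fintype.card_fin, smul_eq_mul] at hsum
  have h5 : p ^ 2 * (p ^ 2 * (N * k ^ 2)) =
      p ^ 2 * (HEN_box L ∩ HEN_A b m V' x₀ (k * p) ρ).ncard := by
    rw [← hsum]
    ring
  have h6 := Nat.eq_of_mul_eq_mul_left (by positivity : 0 < p ^ 2) h5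
  rw [← h6]
  ring

theorem p_HEN : Stmt_HEN := by
  intro b m V' x₀ hm hV' hreg
  -- reformulation
  have hkap : kap b m V' x₀ = (HEN_box (m ^ 2 * V' * 1) ∩ HEN_A b m V' x₀ 1 0).ncard := by
    unfold kap
    congr 1
    ext x
    simp only [HEN_box, HEN_A, Set.mem_ofPred_eq, Set.mem_inter_iff, mul_one, Pi.zero_apply,
      mul_zero, sub_zero]
  suffices H : ∀ k : ℕ, 0 < k → (∀ p : ℕ, p.Prime → p ∣ k → p ∣ V') → ∀ ρ : Fin 2 → ℤ,
      (HEN_box (m ^ 2 * V' * k) ∩ HEN_A b m V' x₀ k ρ).ncard = kap b m V' x₀ * k ^ 2 by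
    intro k hk hkV ρ
    exact H k hk hkV ρ
  intro k
  induction k using Nat.strong_induction_on with
  | _ k ih =>
    intro hk hkV ρ
    rcases Nat.lt_or_ge k 2 with h1 | h1
    · have h2 : k = 1 := by omega
      subst h2
      rw [hkap, one_pow, Nat.mul_one (Set.ncard _)]
      refine congrArg Set.ncard ?_
      ext x
      simp only [HEN_A, Set.mem_inter_iff, Set.mem_ofPred_eq, mul_one, Pi.zero_apply, mul_zero,
        sub_zero]
      refine and_congr_right fun _ => and_congr_right fun _ => forall_congr' fun i => ?_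
      exact (dvd_iff_dvd_of_dvd_sub ⟨-ρ i, by ring⟩)
    · have hp : (Nat.minFac k).Prime := Nat.minFac_prime (by omega)
      obtain ⟨c, hc⟩ := Nat.minFac_dvd k
      have hc0 : 0 < c := by
        rcases Nat.eq_zero_or_pos c with h2 | h2
        · rw [h2, mul_zero] at hc
          omega
        · exact h2
      have hck : c < k := by
        have := hp.two_le
        nlinarith
      have h2 := ih c hck hc0 (fun p hp hpc => hkV p hp (hc ▸ hpc.mul_left _)) ρ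
      have h3 := HEN_step b m V' x₀ hm hV' hreg c (Nat.minFac k) hc0 hp
        (hkV _ hp (Nat.minFac_dvd k)) (kap b m V' x₀) ρ h2
      have h4 : c * Nat.minFac k = k := by rw [mul_comm]; exact hc.symm
      rwa [h4] at h3

end Pool.GLU
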