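import Pool.Agent.Work.MP_9fb703_gl.Interface

/-!
# Block LAB (helper10): labels of the primitive vectors with `g ∣ y ∧ Ty`
-/

set_option autoImplicit false

namespace Pool.GLU

open Matrix Polynomial MeasureTheory

/-- derivative of a determinant, column by column -/
lemma LAB_der {n : ℕ} (A : Matrix (Fin n) (Fin n) ℤ[X]) :
    derivative A.det = ∑ i, (A.updateCol i (fun k => derivative (A k i))).det := by
  have e1 : ∀ i, (A.updateCol i (fun k => derivative (A k i))).det =
      ∑ σ : Equiv.Perm (Fin n), ((Equiv.Perm.sign σ : ℤ) : ℤ[X]) *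
        ((∏ j ∈ Finset.univ.erase i, A (σ j) j) * derivative (A (σ i) i)) := by
    intro i
    rw [Matrix.det_apply']
    refine Finset.sum_congr rfl fun σ _ => ?_
    congr 1
    rw [← Finset.prod_erase_mul _ _ (Finset.mem_univ i)]
    congr 1
    · refine Finset.prod_congr rfl fun j hj => ?_
      rw [Matrix.updateCol_ne (Finset.ne_of_mem_erase hj)]
    · rw [Matrix.updateCol_self]
  simp_rw [e1]
  rw [Finset.sum_comm, Matrix.det_apply', derivative_sum]
  refine Finset.sum_congr rfl fun σ _ => ?_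
  rw [derivative_intCast_mul, derivative_prod_finset, Finset.mul_sum]

/-- the derivative of the characteristic polynomial is the trace of the adjugate -/
lemma LAB_adj {n : ℕ} (T : Matrix (Fin n) (Fin n) ℤ) (μ : ℤ) :
    (derivative T.charpoly).eval μ = (Matrix.scalar (Fin n) μ - T).adjugate.trace := by
  have e1 : derivative T.charpoly = (charmatrix T).adjugate.trace := by
    rw [Matrix.charpoly, LAB_der, Matrix.trace]
    refine Finset.sum_congr rfl fun i _ => ?_
    rw [Matrix.diag_apply, ← Matrix.transpose_apply (charmatrix T).adjugate,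
      Matrix.adjugate_transpose, Matrix.adjugate_apply, Matrix.updateRow_transpose,
      Matrix.det_transpose]
    congr 2
    funext k
    rw [charmatrix_apply, derivative_sub, derivative_C, sub_zero]
    by_cases h : k = i
    · subst h
      simp
    · rw [Matrix.diagonal_apply_ne _ h, Pi.single_eq_of_ne h]
      simp
  have e2 : (Matrix.scalar (Fin n) μ - T) = (Polynomial.evalRingHom μ).mapMatrix (charmatrix T) := by
    ext i j
    rw [RingHom.mapMatrix_apply, Matrix.map_apply, charmatrix_apply, Matrix.sub_apply,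
      Matrix.scalar_apply]
    by_cases h : i = j
    · subst h
      rw [Matrix.diagonal_apply_eq, Matrix.diagonal_apply_eq]
      simp
    · rw [Matrix.diagonal_apply_ne _ h, Matrix.diagonal_apply_ne _ h]
      simp
  rw [e1, e2, ← RingHom.map_adjugate, Matrix.trace, Matrix.trace, ← Polynomial.coe_evalRingHom,
    map_sum]
  rfl

/-- clearing denominators in the Bezout identity -/
lemma LAB_bez (f : ℤ[X]) (hf : (f.map (Int.castRingHom ℚ)).Separable) :
    ∃ (u v : ℤ[X]) (D : ℕ), 0 < D ∧ u * f + v * derivative f = C (D : ℤ) := by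
  obtain ⟨a, b, hab⟩ := hf
  obtain ⟨d, hd, h1⟩ := IsLocalization.integerNormalization_spec (nonZeroDivisors ℤ) a
  obtain ⟨e, he, h2⟩ := IsLocalization.integerNormalization_spec (nonZeroDivisors ℤ) b
  set A := IsLocalization.integerNormalization (nonZeroDivisors ℤ) a with hA
  set B := IsLocalization.integerNormalization (nonZeroDivisors ℤ) b with hB
  have hd0 : d ≠ 0 := nonZeroDivisors.ne_zero hd
  have he0 : e ≠ 0 := nonZeroDivisors.ne_zero he
  have h1' : A.map (Int.castRingHom ℚ) = C (d : ℚ) * a := by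
    have : A.map (algebraMap ℤ ℚ) = d • a := h1
    rw [show (Int.castRingHom ℚ) = algebraMap ℤ ℚ from rfl, this, zsmul_eq_mul]
    simp
  have h2' : B.map (Int.castRingHom ℚ) = C (e : ℚ) * b := by
    have : B.map (algebraMap ℤ ℚ) = e • b := h2
    rw [show (Int.castRingHom ℚ) = algebraMap ℤ ℚ from rfl, this, zsmul_eq_mul]
    simp
  refine ⟨C (d * e ^ 2) * A, C (d ^ 2 * e) * B, (d ^ 2 * e ^ 2).natAbs, ?_, ?_⟩
  · exact Int.natAbs_pos.mpr (mul_ne_zero (pow_ne_zero _ hd0) (pow_ne_zero _ he0))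
  · have hpos : ((d ^ 2 * e ^ 2).natAbs : ℤ) = d ^ 2 * e ^ 2 :=
      Int.natAbs_of_nonneg (by positivity)
    rw [hpos]
    apply Polynomial.map_injective (Int.castRingHom ℚ) Int.cast_injective
    rw [Polynomial.map_add, Polynomial.map_mul, Polynomial.map_mul, Polynomial.map_mul,
      Polynomial.map_mul, h1', h2', ← Polynomial.derivative_map, Polynomial.map_C,
      Polynomial.map_C, Polynomial.map_C]
    have c1 : C ((Int.castRingHom ℚ) (d * e ^ 2)) = C (d : ℚ) * C (e : ℚ) ^ 2 := by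
      rw [← C_pow, ← C_mul]; simp
    have c2 : C ((Int.castRingHom ℚ) (d ^ 2 * e)) = C (d : ℚ) ^ 2 * C (e : ℚ) := by
      rw [← C_pow, ← C_mul]; simp
    have c3 : C ((Int.castRingHom ℚ) (d ^ 2 * e ^ 2)) = C (d : ℚ) ^ 2 * C (e : ℚ) ^ 2 := by
      rw [← C_pow, ← C_pow, ← C_mul]; simp
    rw [c1, c2, c3]
    linear_combination (C (d : ℚ) ^ 2 * C (e : ℚ) ^ 2) * hab

/-- a polynomial in `T` applied to an approximate eigenvector -/
lemma LAB_app {n : ℕ} (T : Matrix (Fin n) (Fin n) ℤ) (g μ : ℤ) (y : Fin n → ℤ)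
    (h : ∀ i, g ∣ (T *ᵥ y) i - μ * y i) (p : ℤ[X]) (i : Fin n) :
    g ∣ (aeval T p *ᵥ y) i - p.eval μ * y i := by
  obtain ⟨q, hq⟩ := X_sub_C_dvd_sub_C_eval (p := p) (a := μ)
  have e1 : aeval T p = aeval T (C (p.eval μ)) + aeval T q * aeval T (X - C μ) := by
    rw [← map_mul, ← map_add]
    congr 1
    linear_combination hq
  have e2 : aeval T (C (p.eval μ)) *ᵥ y = p.eval μ • y := by
    rw [aeval_C, Algebra.algebraMap_eq_smul_one, Matrix.smul_mulVec, Matrix.one_mulVec]
  have e3 : ∀ j, (aeval T (X - C μ) *ᵥ y) j = (T *ᵥ y) j - μ * y j := by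
    intro j
    rw [map_sub, aeval_X, aeval_C, Matrix.sub_mulVec, Algebra.algebraMap_eq_smul_one,
      Matrix.smul_mulVec, Matrix.one_mulVec]
    simp
  rw [e1, Matrix.add_mulVec, e2, ← Matrix.mulVec_mulVec]
  simp only [Pi.add_apply, Pi.smul_apply, smul_eq_mul, add_sub_cancel_left]
  rw [Matrix.mulVec, dotProduct]
  refine Finset.dvd_sum fun j _ => ?_
  rw [e3]
  exact Dvd.dvd.mul_left (h j) _

/-- Bezout for a primitive vector -/
lemma LAB_prim {n : ℕ} (y : Fin n → ℤ) (h : ∀ d : ℤ, (∀ j, d ∣ y j) → IsUnit d) :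
    ∃ a : Fin n → ℤ, ∑ j, a j * y j = 1 := by
  obtain ⟨d, hd⟩ := (IsPrincipalIdealRing.principal (Ideal.span (Set.range y))).principal
  have hd' : Ideal.span (Set.range y) = Ideal.span {d} := hd
  have hu : IsUnit d := by
    apply h
    intro j
    rw [← Ideal.mem_span_singleton, ← hd']
    exact Ideal.subset_span ⟨j, rfl⟩
  have h1 : (1 : ℤ) ∈ Ideal.span (Set.range y) := by
    rw [hd', Ideal.mem_span_singleton]
    exact hu.dvd
  obtain ⟨a, ha⟩ := Ideal.mem_span_range_iff_exists_fun.mp h1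
  exact ⟨a, ha⟩

/-- the approximate eigenvalue -/
lemma LAB_mu {n : ℕ} (T : Matrix (Fin n) (Fin n) ℤ) (g : ℤ) (y : Fin n → ℤ)
    (h : ∀ d : ℤ, (∀ j, d ∣ y j) → IsUnit d)
    (hg : ∀ k l, g ∣ y k * (T *ᵥ y) l - y l * (T *ᵥ y) k) :
    ∃ μ : ℤ, (∀ i, g ∣ (T *ᵥ y) i - μ * y i) ∧ g ∣ T.charpoly.eval μ := by
  obtain ⟨a, ha⟩ := LAB_prim y h
  have h1 : ∀ i, g ∣ (T *ᵥ y) i - (∑ j, a j * (T *ᵥ y) j) * y i := by
    intro i
    have : (T *ᵥ y) i - (∑ j, a j * (T *ᵥ y) j) * y i =
        ∑ j, a j * (y j * (T *ᵥ y) i - y i * (T *ᵥ y) j) := by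
      have : (T *ᵥ y) i = ∑ j, a j * y j * (T *ᵥ y) i := by
        rw [← Finset.sum_mul, ha, one_mul]
      rw [Finset.sum_mul]
      conv_lhs => rw [this]
      rw [← Finset.sum_sub_distrib]
      refine Finset.sum_congr rfl fun j _ => ?_
      ring
    rw [this]
    exact Finset.dvd_sum fun j _ => Dvd.dvd.mul_left (hg j i) _
  refine ⟨_, h1, ?_⟩
  set μ := ∑ j, a j * (T *ᵥ y) j with hμ
  have h2 : ∀ i, g ∣ T.charpoly.eval μ * y i := by
    intro i
    have := LAB_app T g μ y h1 T.charpoly i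
    rw [Matrix.aeval_self_charpoly, Matrix.zero_mulVec, Pi.zero_apply, zero_sub, dvd_neg] at this
    exact this
  have h3 : T.charpoly.eval μ = ∑ j, a j * (T.charpoly.eval μ * y j) := by
    calc T.charpoly.eval μ = T.charpoly.eval μ * ∑ j, a j * y j := by rw [ha, mul_one]
      _ = _ := by
        rw [Finset.mul_sum]
        exact Finset.sum_congr rfl fun j _ => by ring
  rw [h3]
  exact Finset.dvd_sum fun j _ => Dvd.dvd.mul_left (h2 j) _

/-- the separation of the roots modulo `g` -/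
lemma LAB_sep (f u v : ℤ[X]) (D : ℤ) (hD : u * f + v * derivative f = C D) (g : ℕ)
    (r : ℤ) (hr : ∀ p : ℕ, p.Prime → p ∣ g → (p : ℤ) ∣ r) (μ μ' : ℤ)
    (h1 : (g : ℤ) ∣ f.eval μ) (h2 : (g : ℤ) ∣ f.eval μ') (h3 : D * r ∣ μ' - μ) :
    (g : ℤ) ∣ D * (μ' - μ) := by
  obtain ⟨e, he⟩ := h3
  obtain ⟨s, hs⟩ := f.binomExpansion μ (μ' - μ)
  rw [add_sub_cancel] at hs
  have hev : u.eval μ * f.eval μ + v.eval μ * (derivative f).eval μ = D := by
    have := congrArg (Polynomial.eval μ) hD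
    simpa using this
  have key : (g : ℤ) ∣ (1 + r * (e * (v.eval μ * s))) * (D * (μ' - μ)) := by
    have e1 : (1 + r * (e * (v.eval μ * s))) * (D * (μ' - μ)) =
        v.eval μ * f.eval μ' - v.eval μ * f.eval μ + u.eval μ * (μ' - μ) * f.eval μ := by
      rw [hs]
      linear_combination (-(μ' - μ)) * hev + (-(v.eval μ * s * (μ' - μ))) * he
    rw [e1]
    exact dvd_add (dvd_sub (Dvd.dvd.mul_left h2 _) (Dvd.dvd.mul_left h1 _))
      (Dvd.dvd.mul_left h1 _)
  have hco : IsCoprime (g : ℤ) (1 + r * (e * (v.eval μ * s))) := by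
    rw [Int.isCoprime_iff_gcd_eq_one, Int.gcd_eq_natAbs_gcd_natAbs, Int.natAbs_natCast]
    by_contra hne
    obtain ⟨p, hp, hpd⟩ := Nat.exists_prime_and_dvd hne
    have hp1 : p ∣ g := hpd.trans (Nat.gcd_dvd_left _ _)
    have hp2 : (p : ℤ) ∣ 1 + r * (e * (v.eval μ * s)) :=
      Int.natCast_dvd.mpr (hpd.trans (Nat.gcd_dvd_right _ _))
    have hp3 : (p : ℤ) ∣ r * (e * (v.eval μ * s)) := Dvd.dvd.mul_right (hr p hp hp1) _
    have hp4 : (p : ℤ) ∣ 1 := (dvd_add_left hp3).mp hp2
    exact hp.one_lt.ne' (by exact_mod_cast Int.eq_one_of_dvd_one (by positivity) hp4)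
  exact hco.dvd_of_dvd_mul_left key

/-- at most `n` roots modulo a prime -/
lemma LAB_root {n : ℕ} (f : ℤ[X]) (hf : f.Monic) (hn : f.natDegree = n) (p : ℕ) (hp : p.Prime) :
    ((Finset.range p).filter (fun r : ℕ => (p : ℤ) ∣ f.eval (r : ℤ))).card ≤ n := by
  have := Fact.mk hp
  have hF : (f.map (Int.castRingHom (ZMod p))).Monic := hf.map _
  have hd : (f.map (Int.castRingHom (ZMod p))).natDegree = n := by
    rw [hf.natDegree_map, hn]
  calc ((Finset.range p).filter (fun r : ℕ => (p : ℤ) ∣ f.eval (r : ℤ))).card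
      ≤ (f.map (Int.castRingHom (ZMod p))).roots.toFinset.card := by
        refine Finset.card_le_card_of_injOn (fun r : ℕ => (r : ZMod p)) ?_ ?_
        · intro r hr
          rw [Finset.coe_filter] at hr
          obtain ⟨_, h2⟩ := hr
          rw [Finset.mem_coe, Multiset.mem_toFinset, mem_roots hF.ne_zero, IsRoot.def,
            Polynomial.eval_map]
          have h3 : ((f.eval (r : ℤ) : ℤ) : ZMod p) = 0 := (ZMod.intCast_zmod_eq_zero_iff_dvd _ _).mpr h2
          have h4 : (Int.castRingHom (ZMod p)) (f.eval (r : ℤ)) =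
              f.eval₂ (Int.castRingHom (ZMod p)) ((Int.castRingHom (ZMod p)) (r : ℤ)) :=
            (Polynomial.hom_eval₂ f (RingHom.id ℤ) (Int.castRingHom (ZMod p)) (r : ℤ))
          rw [eq_intCast, h3] at h4
          simpa using h4.symm
        · intro r hr r' hr' h
          rw [Finset.coe_filter] at hr hr'
          have := (ZMod.natCast_eq_natCast_iff' r r' p).mp h
          rwa [Nat.mod_eq_of_lt (Finset.mem_range.mp hr.1),
            Nat.mod_eq_of_lt (Finset.mem_range.mp hr'.1)] at this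
    _ ≤ _ := (Multiset.toFinset_card_le _).trans ((card_roots' _).trans hd.le)

/-- at most `n ^ ω` roots modulo the product of `ω` primes -/
lemma LAB_cnt {n : ℕ} (f : ℤ[X]) (hf : f.Monic) (hn : f.natDegree = n) (S : Finset ℕ)
    (hS : ∀ p ∈ S, p.Prime) :
    ((Finset.range (∏ p ∈ S, p)).filter
      (fun r : ℕ => ((∏ p ∈ S, p : ℕ) : ℤ) ∣ f.eval (r : ℤ))).card ≤ n ^ S.card := by
  calc ((Finset.range (∏ p ∈ S, p)).filter
      (fun r : ℕ => ((∏ p ∈ S, p : ℕ) : ℤ) ∣ f.eval (r : ℤ))).card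
      ≤ (S.pi (fun p => (Finset.range p).filter (fun r : ℕ => (p : ℤ) ∣ f.eval (r : ℤ)))).card := by
        refine Finset.card_le_card_of_injOn (fun r p _ => r % p) ?_ ?_
        · intro r hr
          rw [Finset.coe_filter] at hr
          obtain ⟨_, h2⟩ := hr
          rw [Finset.mem_coe, Finset.mem_pi]
          intro p hp
          rw [Finset.mem_filter, Finset.mem_range]
          refine ⟨Nat.mod_lt _ (hS p hp).pos, ?_⟩
          have h3 : (p : ℤ) ∣ f.eval (r : ℤ) :=
            (Int.natCast_dvd_natCast.mpr (Finset.dvd_prod_of_mem _ hp)).trans h2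
          have h4 : ((r : ℤ) - ((r % p : ℕ) : ℤ)) ∣ f.eval (r : ℤ) - f.eval ((r % p : ℕ) : ℤ) :=
            Polynomial.sub_dvd_eval_sub _ _ _
          have h5 : (p : ℤ) ∣ (r : ℤ) - ((r % p : ℕ) : ℤ) := by
            rw [Int.natCast_mod]
            exact Int.dvd_self_sub_emod
          have h6 := h5.trans h4
          exact (dvd_sub_right h3).mp h6
        · intro r hr r' hr' h
          rw [Finset.coe_filter] at hr hr'
          have hr1 := Finset.mem_range.mp hr.1
          have hr2 := Finset.mem_range.mp hr'.1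
          have h7 : (∏ p ∈ S, p) ∣ ((r : ℤ) - r').natAbs := by
            refine Finset.prod_primes_dvd _ (fun p hp => (hS p hp).prime) fun p hp => ?_
            have h8 : r % p = r' % p := congrFun (congrFun h p) hp
            rw [← Int.natCast_dvd]
            exact (Nat.modEq_iff_dvd.mp (show r' ≡ r [MOD p] from h8.symm))
          by_contra hne
          have h9 : 0 < ((r : ℤ) - r').natAbs := by
            rw [Int.natAbs_pos]
            intro h0
            exact hne (by exact_mod_cast sub_eq_zero.mp h0)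
          have h10 := Nat.le_of_dvd h9 h7
          omega
    _ = ∏ p ∈ S, ((Finset.range p).filter (fun r : ℕ => (p : ℤ) ∣ f.eval (r : ℤ))).card :=
        Finset.card_pi _ _
    _ ≤ ∏ p ∈ S, n := Finset.prod_le_prod' fun p hp => LAB_root f hf hn p (hS p hp)
    _ = n ^ S.card := by rw [Finset.prod_const]

/-- an index of the elements of a finite set -/
lemma LAB_idx (R : Finset ℕ) (N : ℕ) (h : R.card ≤ N) :
    ∃ idx : ℕ → ℕ, (∀ r ∈ R, idx r < N) ∧ ∀ r ∈ R, ∀ r' ∈ R, idx r = idx r' → r = r' := by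
  classical
  refine ⟨fun r => if hr : r ∈ R then (R.equivFin ⟨r, hr⟩ : ℕ) else 0, ?_, ?_⟩
  · intro r hr
    simp only [hr, dif_pos]
    exact (R.equivFin ⟨r, hr⟩).isLt.trans_le h
  · intro r hr r' hr' he
    simp only [hr, hr', dif_pos] at he
    have := R.equivFin.injective (Fin.ext he)
    exact congrArg Subtype.val this

theorem p_LAB (hWED : Stmt_WED) : Stmt_LAB := by
  intro n hn T hT
  classical
  obtain ⟨u, v, D, hD0, hD⟩ := LAB_bez T.charpoly hT
  refine ⟨D, D ^ 2, by positivity, fun g hg => ?_⟩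
  set r := ∏ p ∈ g.primeFactors, p with hr
  have hr0 : 0 < r := Finset.prod_pos fun p hp => (Nat.prime_of_mem_primeFactors hp).pos
  have hrg : r ∣ g := Nat.prod_primeFactors_dvd g
  have hrp : ∀ p : ℕ, p.Prime → p ∣ g → (p : ℤ) ∣ (r : ℤ) := by
    intro p hp hpg
    exact Int.natCast_dvd_natCast.mpr
      (Finset.dvd_prod_of_mem _ (Nat.mem_primeFactors.mpr ⟨hp, hpg, hg.ne'⟩))
  have hcard := LAB_cnt T.charpoly T.charpoly_monic
    (show T.charpoly.natDegree = n by rw [Matrix.charpoly_natDegree_eq_dim, Fintype.card_fin])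
    g.primeFactors (fun p hp => Nat.prime_of_mem_primeFactors hp)
  obtain ⟨idx, hi1, hi2⟩ := LAB_idx _ _ hcard
  have hmu : ∀ y : Fin n → ℤ, ∃ μ : ℤ, (∀ d : ℤ, (∀ j, d ∣ y j) → IsUnit d) →
      (∀ k l, (g : ℤ) ∣ y k * (T *ᵥ y) l - y l * (T *ᵥ y) k) →
      (∀ i, (g : ℤ) ∣ (T *ᵥ y) i - μ * y i) ∧ (g : ℤ) ∣ T.charpoly.eval μ := by
    intro y
    by_cases h1 : (∀ d : ℤ, (∀ j, d ∣ y j) → IsUnit d)
    · by_cases h2 : (∀ k l, (g : ℤ) ∣ y k * (T *ᵥ y) l - y l * (T *ᵥ y) k)
      · obtain ⟨μ, h3⟩ := LAB_mu T g y h1 h2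
        exact ⟨μ, fun _ _ => h3⟩
      · exact ⟨0, fun _ h => absurd h h2⟩
    · exact ⟨0, fun h => absurd h h1⟩
  choose μ hμ using hmu
  have hDr : (0 : ℤ) < D * r := by positivity
  -- the residue of `μ` modulo `D r`
  have hm : ∀ y, ∃ m : ℕ, m < D * r ∧ ((D * r : ℕ) : ℤ) ∣ μ y - m := by
    intro y
    have h1 := Int.emod_nonneg (μ y) hDr.ne'
    refine ⟨(μ y % (D * r)).toNat, ?_, ?_⟩
    · have h2 := Int.emod_lt_of_pos (μ y) hDr
      zify
      rw [Int.toNat_of_nonneg h1]
      exact h2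
    · rw [Int.toNat_of_nonneg h1]
      push_cast
      exact Int.dvd_self_sub_emod
  choose m hm1 hm2 using hm
  have hmem : ∀ y : Fin n → ℤ, (∀ d : ℤ, (∀ j, d ∣ y j) → IsUnit d) →
      (∀ k l, (g : ℤ) ∣ y k * (T *ᵥ y) l - y l * (T *ᵥ y) k) →
      m y % r ∈ (Finset.range r).filter (fun s : ℕ => ((r : ℕ) : ℤ) ∣ T.charpoly.eval (s : ℤ)) := by
    intro y h1 h2
    rw [Finset.mem_filter, Finset.mem_range]
    refine ⟨Nat.mod_lt _ hr0, ?_⟩
    have h3 : (r : ℤ) ∣ T.charpoly.eval (μ y) :=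
      (Int.natCast_dvd_natCast.mpr hrg).trans (hμ y h1 h2).2
    have h4 : (μ y - ((m y % r : ℕ) : ℤ)) ∣
        T.charpoly.eval (μ y) - T.charpoly.eval ((m y % r : ℕ) : ℤ) :=
      Polynomial.sub_dvd_eval_sub _ _ _
    have h5 : (r : ℤ) ∣ μ y - ((m y % r : ℕ) : ℤ) := by
      have h6 : (r : ℤ) ∣ μ y - m y := by
        refine Dvd.dvd.trans ?_ (hm2 y)
        push_cast
        exact Dvd.intro_left _ rfl
      have h7 : (r : ℤ) ∣ (m y : ℤ) - ((m y % r : ℕ) : ℤ) := by
        rw [Int.natCast_mod]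
        exact Int.dvd_self_sub_emod
      have := dvd_add h6 h7
      simpa using this
    exact (dvd_sub_right h3).mp (h5.trans h4)
  refine ⟨fun y => idx (m y % r) * D + m y / r, fun y h1 h2 => ⟨?_, ⟨μ y, (hμ y h1 h2).1⟩, ?_⟩⟩
  · have h3 : idx (m y % r) < n ^ g.primeFactors.card := hi1 _ (hmem y h1 h2)
    have h4 : m y / r < D := Nat.div_lt_of_lt_mul (by rw [mul_comm]; exact hm1 y)
    calc idx (m y % r) * D + m y / r < idx (m y % r) * D + D := by omega
      _ = (idx (m y % r) + 1) * D := by ring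
      _ ≤ n ^ g.primeFactors.card * D := Nat.mul_le_mul_right _ h3
      _ = D * n ^ g.primeFactors.card := mul_comm _ _
  · intro y' h1' h2' hlab k l
    have h4 : m y / r < D := Nat.div_lt_of_lt_mul (by rw [mul_comm]; exact hm1 y)
    have h4' : m y' / r < D := Nat.div_lt_of_lt_mul (by rw [mul_comm]; exact hm1 y')
    have hlab' : idx (m y' % r) * D + m y' / r = idx (m y % r) * D + m y / r := hlab
    have e1 : m y' / r = m y / r := by
      have := congrArg (· % D) hlab'
      simpa [Nat.add_mod, Nat.mod_eq_of_lt h4, Nat.mod_eq_of_lt h4'] using this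
    have e2 : idx (m y' % r) = idx (m y % r) := by
      rw [e1] at hlab'
      exact Nat.eq_of_mul_eq_mul_right hD0 (Nat.add_right_cancel hlab')
    have e3 : m y' % r = m y % r := hi2 _ (hmem y' h1' h2') _ (hmem y h1 h2) e2
    have e4 : m y' = m y := by
      rw [← Nat.div_add_mod (m y') r, e1, e3, Nat.div_add_mod]
    have h5 : (D : ℤ) * r ∣ μ y' - μ y := by
      have h6 := hm2 y
      have h7 := hm2 y'
      rw [e4] at h7
      have := dvd_sub h7 h6
      push_cast at this
      have e5 : μ y' - (m y : ℤ) - (μ y - (m y : ℤ)) = μ y' - μ y := by ring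
      rwa [e5] at this
    have h6 : (g : ℤ) ∣ D * (μ y' - μ y) :=
      LAB_sep T.charpoly u v D hD g r hrp (μ y) (μ y') (hμ y h1 h2).2 (hμ y' h1' h2').2 h5
    have h7 := hWED n hn (Matrix.scalar (Fin n) (μ y) - T) g y ((D : ℤ) • y') (by
      intro i
      have h8 := (hμ y h1 h2).1 i
      have e6 : ((Matrix.scalar (Fin n) (μ y) - T) *ᵥ y) i = -((T *ᵥ y) i - μ y * y i) := by
        rw [Matrix.sub_mulVec, Matrix.scalar_apply, Pi.sub_apply, Matrix.mulVec_diagonal]
        ring
      rw [e6]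
      exact (dvd_neg).mpr h8) (by
      intro i
      have h8 := (hμ y' h1' h2').1 i
      have e6 : ((Matrix.scalar (Fin n) (μ y) - T) *ᵥ ((D : ℤ) • y')) i =
          -(D * ((T *ᵥ y') i - μ y' * y' i)) - (D * (μ y' - μ y)) * y' i := by
        rw [Matrix.sub_mulVec, Matrix.scalar_apply, Pi.sub_apply, Matrix.mulVec_diagonal,
          Matrix.mulVec_smul, Pi.smul_apply, Pi.smul_apply, smul_eq_mul, smul_eq_mul]
        ring
      rw [e6]
      exact dvd_sub ((dvd_neg).mpr (Dvd.dvd.mul_left h8 _)) (Dvd.dvd.mul_right h6 _)) k l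
    rw [← LAB_adj] at h7
    have hev : u.eval (μ y) * T.charpoly.eval (μ y) +
        v.eval (μ y) * (derivative T.charpoly).eval (μ y) = D := by
      have := congrArg (Polynomial.eval (μ y)) hD
      simpa using this
    have e7 : ((D ^ 2 : ℕ) : ℤ) * (y k * y' l - y l * y' k) =
        v.eval (μ y) * ((derivative T.charpoly).eval (μ y) *
          (y k * ((D : ℤ) • y') l - y l * ((D : ℤ) • y') k)) +
        (u.eval (μ y) * (D * (y k * y' l - y l * y' k))) * T.charpoly.eval (μ y) := by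
      rw [Pi.smul_apply, Pi.smul_apply, smul_eq_mul, smul_eq_mul]
      push_cast
      linear_combination (-(D * (y k * y' l - y l * y' k))) * hev
    rw [e7]
    exact dvd_add (Dvd.dvd.mul_left h7 _) (Dvd.dvd.mul_left (hμ y h1 h2).2 _)

end Pool.GLU
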