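import Pool.Agent.Work.MP_9fb703_gl.Interface

set_option autoImplicit false

namespace Pool.GLU

open Matrix Polynomial MeasureTheory

section LFT

variable (b : Fin 2 → Matrix (Fin 4) (Fin 4) ℤ)

theorem LFT_jv_map {R R' : Type} [CommRing R] [CommRing R'] (f : R →+* R') (x : Fin 4 → R)
    (i : Fin 2) : jv b (f ∘ x) i = f ∘ jv b x i := by
  have h : ((b i + (b i)ᵀ).map (Int.cast : ℤ → R)).map f =
      (b i + (b i)ᵀ).map (Int.cast : ℤ → R') := by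
    ext r s
    simp
  funext k
  simp only [jv, Function.comp_apply]
  rw [RingHom.map_mulVec, h]

theorem LFT_qv_map {R R' : Type} [CommRing R] [CommRing R'] (f : R →+* R') (x : Fin 4 → R)
    (i : Fin 2) : qv b (f ∘ x) i = f (qv b x i) := by
  have h : ((b i).map (Int.cast : ℤ → R)).map f = (b i).map (Int.cast : ℤ → R') := by
    ext r s
    simp
  simp only [qv]
  rw [RingHom.map_dotProduct]
  congr 1
  funext k
  rw [Function.comp_apply, RingHom.map_mulVec, h]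

theorem LFT_jv_add {R : Type} [CommRing R] (x y : Fin 4 → R) (i : Fin 2) :
    jv b (x + y) i = jv b x i + jv b y i := mulVec_add _ _ _

theorem LFT_jv_smul {R : Type} [CommRing R] (c : R) (x : Fin 4 → R) (i : Fin 2) :
    jv b (c • x) i = c • jv b x i := mulVec_smul _ _ _

theorem LFT_split {R : Type} [CommRing R] (x y : Fin 4 → R) (i : Fin 2) :
    y ⬝ᵥ jv b x i = y ⬝ᵥ ((b i).map (Int.cast : ℤ → R) *ᵥ x) +
      x ⬝ᵥ ((b i).map (Int.cast : ℤ → R) *ᵥ y) := by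
  have h1 : (b i + (b i)ᵀ).map (Int.cast : ℤ → R) =
      (b i).map (Int.cast : ℤ → R) + ((b i).map (Int.cast : ℤ → R))ᵀ := by
    ext r s
    simp
  rw [jv, h1, add_mulVec, dotProduct_add, dotProduct_transpose_mulVec]

theorem LFT_symm {R : Type} [CommRing R] (x y : Fin 4 → R) (i : Fin 2) :
    y ⬝ᵥ jv b x i = x ⬝ᵥ jv b y i := by
  rw [LFT_split, LFT_split, add_comm]

theorem LFT_self {R : Type} [CommRing R] (x : Fin 4 → R) (i : Fin 2) :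
    x ⬝ᵥ jv b x i = 2 * qv b x i := by
  rw [LFT_split, qv, two_mul]

/-- `μ₀ J(x)₀ + μ₁ J(x)₁` -/
def LFT_E {R : Type} [CommRing R] (μ : Fin 2 → R) (x : Fin 4 → R) : Fin 4 → R :=
  μ 0 • jv b x 0 + μ 1 • jv b x 1

theorem LFT_E_map {R R' : Type} [CommRing R] [CommRing R'] (f : R →+* R') (μ : Fin 2 → R)
    (x : Fin 4 → R) (k : Fin 4) : LFT_E b (f ∘ μ) (f ∘ x) k = f (LFT_E b μ x k) := by
  simp only [LFT_E, LFT_jv_map, Pi.add_apply, Pi.smul_apply, Function.comp_apply, smul_eq_mul,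
    map_add, map_mul]

theorem LFT_E_expand {R : Type} [CommRing R] (μ σ : Fin 2 → R) (x η : Fin 4 → R) (c : R)
    (k : Fin 4) : LFT_E b (fun i => μ i + c * σ i) (fun l => x l + c * η l) k =
      LFT_E b μ x k + c * ((LFT_E b σ x k + LFT_E b μ η k) + c * LFT_E b σ η k) := by
  have h1 : (fun l => x l + c * η l) = x + c • η := by
    funext l
    simp
  rw [h1]
  simp only [LFT_E, LFT_jv_add, LFT_jv_smul, Pi.add_apply, Pi.smul_apply, smul_eq_mul]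
  ring

theorem LFT_dot {R : Type} [CommRing R] (μ : Fin 2 → R) (x η : Fin 4 → R) :
    x ⬝ᵥ LFT_E b μ η = η ⬝ᵥ LFT_E b μ x := by
  simp only [LFT_E, dotProduct_add, dotProduct_smul]
  rw [LFT_symm b η x, LFT_symm b η x]

theorem LFT_field {K : Type} [Field K] (h2 : (2 : K) ≠ 0) (μ σ : Fin 2 → K) (x η : Fin 4 → K)
    (hμx : LFT_E b μ x = 0) (hker : ∀ x', LFT_E b μ x' = 0 → ∃ t : K, x' = t • x)
    (heq : LFT_E b σ x + LFT_E b μ η = 0) (i₁ i₀ : Fin 2) (hi : i₁ ≠ i₀) (hσ : σ i₁ = 0)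
    (hq : qv b x i₀ ≠ 0) (l₀ : Fin 4) (hl : x l₀ ≠ 0) (hη : η l₀ = 0) : σ = 0 ∧ η = 0 := by
  have h1 : x ⬝ᵥ LFT_E b μ η = 0 := by
    rw [LFT_dot, hμx, dotProduct_zero]
  have h3 : x ⬝ᵥ LFT_E b σ x = 2 * (σ 0 * qv b x 0 + σ 1 * qv b x 1) := by
    simp only [LFT_E, dotProduct_add, dotProduct_smul, smul_eq_mul]
    rw [LFT_self, LFT_self]
    ring
  have h4 : 2 * (σ 0 * qv b x 0 + σ 1 * qv b x 1) = 0 := by
    rw [← h3]
    have h5 := congrArg (fun v => x ⬝ᵥ v) heq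
    simp only [dotProduct_add, dotProduct_zero] at h5
    rwa [h1, add_zero] at h5
  have h5 : σ 0 * qv b x 0 + σ 1 * qv b x 1 = 0 := (mul_eq_zero.1 h4).resolve_left h2
  have hσ0 : σ = 0 := by
    have h6 : ∀ i, σ i = 0 := by
      fin_cases i₁ <;> fin_cases i₀
      · exact absurd rfl hi
      · have hs : σ 0 = 0 := hσ
        rw [hs, zero_mul, zero_add] at h5
        have hs1 : σ 1 = 0 := (mul_eq_zero.1 h5).resolve_right hq
        intro i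
        fin_cases i
        · exact hs
        · exact hs1
      · have hs : σ 1 = 0 := hσ
        rw [hs, zero_mul, add_zero] at h5
        have hs1 : σ 0 = 0 := (mul_eq_zero.1 h5).resolve_right hq
        intro i
        fin_cases i
        · exact hs1
        · exact hs
      · exact absurd rfl hi
    funext i
    exact h6 i
  refine ⟨hσ0, ?_⟩
  have h7 : LFT_E b σ x = 0 := by
    rw [hσ0]
    simp [LFT_E]
  rw [h7, zero_add] at heq
  obtain ⟨t, ht⟩ := hker η heq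
  have h8 : t * x l₀ = 0 := by
    rw [ht] at hη
    simpa using hη
  have h9 : t = 0 := (mul_eq_zero.1 h8).resolve_right hl
  rw [ht, h9, zero_smul]

/-- integers: cancellation of a prime power -/
theorem LFT_cancel (p j : ℕ) (hp : p.Prime) (hj : 1 ≤ j) (A B : ℤ)
    (h : ((p ^ (j + 1) : ℕ) : ℤ) ∣ ((p ^ j : ℕ) : ℤ) * (A + ((p ^ j : ℕ) : ℤ) * B)) :
    (p : ℤ) ∣ A := by
  have h1 : ((p ^ (j + 1) : ℕ) : ℤ) = ((p ^ j : ℕ) : ℤ) * (p : ℤ) := by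
    push_cast
    ring
  rw [h1] at h
  have h2 : ((p ^ j : ℕ) : ℤ) ≠ 0 := by
    exact_mod_cast pow_ne_zero j hp.ne_zero
  have h3 : (p : ℤ) ∣ A + ((p ^ j : ℕ) : ℤ) * B := (mul_dvd_mul_iff_left h2).1 h
  have h4 : (p : ℤ) ∣ ((p ^ j : ℕ) : ℤ) := by
    exact_mod_cast dvd_pow_self p (by omega)
  exact (dvd_add_left (h4.mul_right B)).1 h3

/-- the lifting step: injectivity -/
theorem LFT_inj (p j : ℕ) [Fact p.Prime] (hj : 1 ≤ j) (hp2 : (2 : ZMod p) ≠ 0)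
    (M M' : Fin 2 → ℤ) (X X' : Fin 4 → ℤ)
    (hE : ∀ k, ((p ^ (j + 1) : ℕ) : ℤ) ∣ LFT_E b M X k)
    (hE' : ∀ k, ((p ^ (j + 1) : ℕ) : ℤ) ∣ LFT_E b M' X' k)
    (hM : ∀ i, ((p ^ j : ℕ) : ℤ) ∣ M' i - M i) (hX : ∀ l, ((p ^ j : ℕ) : ℤ) ∣ X' l - X l)
    (hker : ∀ x' : Fin 4 → ZMod p, LFT_E b (Int.castRingHom (ZMod p) ∘ M) x' = 0 →
      ∃ t : ZMod p, x' = t • (Int.castRingHom (ZMod p) ∘ X))
    (i₁ i₀ : Fin 2) (hi : i₁ ≠ i₀) (hMi : M' i₁ = M i₁)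
    (hq : qv b (Int.castRingHom (ZMod p) ∘ X) i₀ ≠ 0) (l₀ : Fin 4)
    (hl : (Int.castRingHom (ZMod p) ∘ X) l₀ ≠ 0) (hXl : X' l₀ = X l₀) :
    (∀ i, ((p ^ (j + 1) : ℕ) : ℤ) ∣ M' i - M i) ∧ ∀ l, ((p ^ (j + 1) : ℕ) : ℤ) ∣ X' l - X l := by
  have hp : p.Prime := Fact.out
  choose σ hσ using hM
  choose η hη using hX
  have hn0 : ((p ^ j : ℕ) : ℤ) ≠ 0 := by
    exact_mod_cast pow_ne_zero j hp.ne_zero
  have hM' : M' = fun i => M i + ((p ^ j : ℕ) : ℤ) * σ i := by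
    funext i
    rw [← hσ i]
    ring
  have hX' : X' = fun l => X l + ((p ^ j : ℕ) : ℤ) * η l := by
    funext l
    rw [← hη l]
    ring
  have h1 : ∀ k, (p : ℤ) ∣ LFT_E b σ X k + LFT_E b M η k := by
    intro k
    refine LFT_cancel p j hp hj _ (LFT_E b σ η k) ?_
    have h2 := hE' k
    rw [hM', hX', LFT_E_expand] at h2
    exact (dvd_add_right (hE k)).1 h2
  have hpN : (p : ℤ) ∣ ((p ^ (j + 1) : ℕ) : ℤ) := by
    exact_mod_cast dvd_pow_self p (by omega)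
  have h2 : LFT_E b (Int.castRingHom (ZMod p) ∘ M) (Int.castRingHom (ZMod p) ∘ X) = 0 := by
    funext k
    rw [LFT_E_map]
    exact (ZMod.intCast_zmod_eq_zero_iff_dvd _ p).2 (hpN.trans (hE k))
  have h3 : LFT_E b (Int.castRingHom (ZMod p) ∘ σ) (Int.castRingHom (ZMod p) ∘ X) +
      LFT_E b (Int.castRingHom (ZMod p) ∘ M) (Int.castRingHom (ZMod p) ∘ η) = 0 := by
    funext k
    rw [Pi.add_apply, LFT_E_map, LFT_E_map, ← map_add]
    exact (ZMod.intCast_zmod_eq_zero_iff_dvd _ p).2 (h1 k)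
  have h4 : (Int.castRingHom (ZMod p) ∘ σ) i₁ = 0 := by
    have h5 := hσ i₁
    rw [hMi, sub_self] at h5
    have h6 : σ i₁ = 0 := (mul_eq_zero.1 h5.symm).resolve_left hn0
    rw [Function.comp_apply, h6, map_zero]
  have h5 : (Int.castRingHom (ZMod p) ∘ η) l₀ = 0 := by
    have h5 := hη l₀
    rw [hXl, sub_self] at h5
    have h6 : η l₀ = 0 := (mul_eq_zero.1 h5.symm).resolve_left hn0
    rw [Function.comp_apply, h6, map_zero]
  obtain ⟨h6, h7⟩ := LFT_field b hp2 _ _ _ _ h2 hker h3 i₁ i₀ hi h4 hq l₀ hl h5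
  have h8 : ((p ^ (j + 1) : ℕ) : ℤ) = ((p ^ j : ℕ) : ℤ) * (p : ℤ) := by
    push_cast
    ring
  refine ⟨fun i => ?_, fun l => ?_⟩
  · rw [hσ i, h8]
    refine mul_dvd_mul_left _ ?_
    exact (ZMod.intCast_zmod_eq_zero_iff_dvd _ p).1 (congrFun h6 i)
  · rw [hη l, h8]
    refine mul_dvd_mul_left _ ?_
    exact (ZMod.intCast_zmod_eq_zero_iff_dvd _ p).1 (congrFun h7 l)

/-- primitive eigenpairs modulo `n` -/
abbrev LFT_A (n : ℕ) : Type :=
  {z : (Fin 2 → ZMod n) × (Fin 4 → ZMod n) // (∃ i, IsUnit (z.1 i)) ∧ (∃ i, IsUnit (z.2 i)) ∧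
    z.1 0 • jv b z.2 0 + z.1 1 • jv b z.2 1 = 0}

/-- reduction -/
def LFT_red {n m : ℕ} (h : m ∣ n) (z : LFT_A b n) : LFT_A b m :=
  ⟨(ZMod.castHom h (ZMod m) ∘ z.1.1, ZMod.castHom h (ZMod m) ∘ z.1.2), by
    obtain ⟨⟨i, hi⟩, ⟨l, hl⟩, he⟩ := z.2
    refine ⟨⟨i, hi.map _⟩, ⟨l, hl.map _⟩, ?_⟩
    funext k
    have h1 := LFT_E_map b (ZMod.castHom h (ZMod m)) z.1.1 z.1.2 k
    have h2 : LFT_E b z.1.1 z.1.2 = 0 := he
    rw [h2, Pi.zero_apply, map_zero] at h1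
    exact h1⟩

theorem LFT_base (p : ℕ) (h1 : Nat.card {z : (Fin 2 → ZMod p) × (Fin 4 → ZMod p) //
    z.1 ≠ 0 ∧ z.2 ≠ 0 ∧ z.1 0 • jv b z.2 0 + z.1 1 • jv b z.2 1 = 0} ≤ 4 * p ^ 2)
    (hp : p.Prime) (n : ℕ) (hn : n = p) : Nat.card (LFT_A b n) ≤ 4 * p ^ 2 := by
  subst hn
  haveI : Fact n.Prime := ⟨hp⟩
  refine le_trans (Nat.card_le_card_of_injective
    (fun z : LFT_A b n => (⟨z.1, ?_, ?_, z.2.2.2⟩ :
      {z : (Fin 2 → ZMod n) × (Fin 4 → ZMod n) //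
        z.1 ≠ 0 ∧ z.2 ≠ 0 ∧ z.1 0 • jv b z.2 0 + z.1 1 • jv b z.2 1 = 0})) ?_) h1
  · obtain ⟨i, hi⟩ := z.2.1
    intro h0
    rw [h0] at hi
    exact hi.ne_zero rfl
  · obtain ⟨i, hi⟩ := z.2.2.1
    intro h0
    rw [h0] at hi
    exact hi.ne_zero rfl
  · intro z z' hz
    exact Subtype.ext (congrArg (fun w => w.1) hz)

theorem LFT_step (p j : ℕ) [Fact p.Prime] (hj : 1 ≤ j) (hp2 : (2 : ZMod p) ≠ 0)
    (hsim : ∀ (μ : Fin 2 → ZMod p) (x : Fin 4 → ZMod p), μ ≠ 0 → x ≠ 0 →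
      μ 0 • jv b x 0 + μ 1 • jv b x 1 = 0 → qv b x ≠ 0 ∧
      ∀ x' : Fin 4 → ZMod p, μ 0 • jv b x' 0 + μ 1 • jv b x' 1 = 0 → ∃ t : ZMod p, x' = t • x) :
    Nat.card (LFT_A b (p ^ (j + 1))) ≤ Nat.card (LFT_A b (p ^ j)) * (p * p) := by
  have hp : p.Prime := Fact.out
  haveI : NeZero (p ^ j) := ⟨pow_ne_zero _ hp.ne_zero⟩
  haveI : NeZero (p ^ (j + 1)) := ⟨pow_ne_zero _ hp.ne_zero⟩
  have hd1 : p ∣ p ^ j := dvd_pow_self p (by omega)
  have hd2 : p ^ j ∣ p ^ (j + 1) := pow_dvd_pow p (Nat.le_succ j)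
  have hsim' : ∀ w : LFT_A b p, qv b w.1.2 ≠ 0 ∧ w.1.2 ≠ 0 ∧
      ∀ x' : Fin 4 → ZMod p, LFT_E b w.1.1 x' = 0 → ∃ t : ZMod p, x' = t • w.1.2 := by
    intro w
    have h1 : w.1.1 ≠ 0 := by
      obtain ⟨i, hi⟩ := w.2.1
      intro h0
      rw [h0] at hi
      exact hi.ne_zero rfl
    have h2 : w.1.2 ≠ 0 := by
      obtain ⟨i, hi⟩ := w.2.2.1
      intro h0
      rw [h0] at hi
      exact hi.ne_zero rfl
    obtain ⟨h3, h4⟩ := hsim w.1.1 w.1.2 h1 h2 w.2.2.2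
    exact ⟨h3, h2, h4⟩
  have key : ∀ w : LFT_A b (p ^ j), ∃ (i₁ i₀ : Fin 2) (l₀ : Fin 4), i₁ ≠ i₀ ∧
      qv b (LFT_red b hd1 w).1.2 i₀ ≠ 0 ∧ (LFT_red b hd1 w).1.2 l₀ ≠ 0 := by
    intro w
    obtain ⟨h1, h2, -⟩ := hsim' (LFT_red b hd1 w)
    obtain ⟨i₀, hi₀⟩ := Function.ne_iff.1 h1
    obtain ⟨l₀, hl₀⟩ := Function.ne_iff.1 h2
    obtain ⟨i₁, hi₁⟩ := exists_ne i₀
    exact ⟨i₁, i₀, l₀, hi₁, hi₀, hl₀⟩
  choose i₁ i₀ l₀ h1 h2 h3 using key
  have hdig : ∀ a : ZMod (p ^ (j + 1)), a.val / p ^ j < p := by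
    intro a
    rw [Nat.div_lt_iff_lt_mul (Nat.pos_of_ne_zero (pow_ne_zero _ hp.ne_zero))]
    have h4 := ZMod.val_lt a
    have h5 : p ^ (j + 1) = p * p ^ j := by ring
    exact lt_of_lt_of_eq h4 h5
  let Φ : LFT_A b (p ^ (j + 1)) → LFT_A b (p ^ j) × Fin p × Fin p := fun z =>
    (LFT_red b hd2 z, ⟨(z.1.1 (i₁ (LFT_red b hd2 z))).val / p ^ j, hdig _⟩,
      ⟨(z.1.2 (l₀ (LFT_red b hd2 z))).val / p ^ j, hdig _⟩)
  have hcast : ∀ a : ZMod (p ^ (j + 1)), ZMod.castHom hd2 (ZMod (p ^ j)) a =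
      (((a.val : ℕ) : ℤ) : ZMod (p ^ j)) := by
    intro a
    conv_lhs => rw [← ZMod.natCast_zmod_val a]
    rw [map_natCast]
    simp
  have hcast1 : ∀ a : ZMod (p ^ j), ZMod.castHom hd1 (ZMod p) a =
      (((a.val : ℕ) : ℤ) : ZMod p) := by
    intro a
    conv_lhs => rw [← ZMod.natCast_zmod_val a]
    rw [map_natCast]
    simp
  have hself : ∀ a : ZMod (p ^ (j + 1)), (((a.val : ℕ) : ℤ) : ZMod (p ^ (j + 1))) = a := by
    intro a
    rw [Int.cast_natCast, ZMod.natCast_zmod_val]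
  have hval : ∀ a a' : ZMod (p ^ (j + 1)),
      ZMod.castHom hd2 (ZMod (p ^ j)) a = ZMod.castHom hd2 (ZMod (p ^ j)) a' →
      a.val / p ^ j = a'.val / p ^ j → a.val = a'.val := by
    intro a a' h4 h5
    rw [hcast, hcast, Int.cast_natCast, Int.cast_natCast, ZMod.natCast_eq_natCast_iff'] at h4
    rw [← Nat.div_add_mod a.val (p ^ j), ← Nat.div_add_mod a'.val (p ^ j), h4, h5]
  have hE : ∀ (z : LFT_A b (p ^ (j + 1))) (k : Fin 4), ((p ^ (j + 1) : ℕ) : ℤ) ∣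
      LFT_E b (fun i => (((z.1.1 i).val : ℕ) : ℤ)) (fun l => (((z.1.2 l).val : ℕ) : ℤ)) k := by
    intro z k
    have h4 := LFT_E_map b (Int.castRingHom (ZMod (p ^ (j + 1))))
      (fun i => (((z.1.1 i).val : ℕ) : ℤ)) (fun l => (((z.1.2 l).val : ℕ) : ℤ)) k
    have h5 : (Int.castRingHom (ZMod (p ^ (j + 1))) ∘ fun i => (((z.1.1 i).val : ℕ) : ℤ)) =
        z.1.1 := by
      funext i
      exact hself _
    have h6 : (Int.castRingHom (ZMod (p ^ (j + 1))) ∘ fun l => (((z.1.2 l).val : ℕ) : ℤ)) =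
        z.1.2 := by
      funext l
      exact hself _
    rw [h5, h6] at h4
    have h7 : LFT_E b z.1.1 z.1.2 = 0 := z.2.2.2
    rw [h7] at h4
    exact (ZMod.intCast_zmod_eq_zero_iff_dvd _ _).1 h4.symm
  have hΦ : Function.Injective Φ := by
    intro z z' hz
    have hz1 : LFT_red b hd2 z = LFT_red b hd2 z' := congrArg (fun w => w.1) hz
    have hz2 : (z.1.1 (i₁ (LFT_red b hd2 z))).val / p ^ j =
        (z'.1.1 (i₁ (LFT_red b hd2 z'))).val / p ^ j := congrArg (fun w => w.2.1.1) hz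
    have hz3 : (z.1.2 (l₀ (LFT_red b hd2 z))).val / p ^ j =
        (z'.1.2 (l₀ (LFT_red b hd2 z'))).val / p ^ j := congrArg (fun w => w.2.2.1) hz
    rw [← hz1] at hz2 hz3
    have hr1 : ∀ i, ZMod.castHom hd2 (ZMod (p ^ j)) (z.1.1 i) =
        ZMod.castHom hd2 (ZMod (p ^ j)) (z'.1.1 i) := by
      intro i
      exact congrArg (fun w : LFT_A b (p ^ j) => w.1.1 i) hz1
    have hr2 : ∀ l, ZMod.castHom hd2 (ZMod (p ^ j)) (z.1.2 l) =
        ZMod.castHom hd2 (ZMod (p ^ j)) (z'.1.2 l) := by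
      intro l
      exact congrArg (fun w : LFT_A b (p ^ j) => w.1.2 l) hz1
    have hw1 : (Int.castRingHom (ZMod p) ∘ fun i => (((z.1.1 i).val : ℕ) : ℤ)) =
        (LFT_red b hd1 (LFT_red b hd2 z)).1.1 := by
      funext i
      change (((z.1.1 i).val : ℕ) : ℤ) = ZMod.castHom hd1 (ZMod p)
        (ZMod.castHom hd2 (ZMod (p ^ j)) (z.1.1 i))
      rw [hcast, map_intCast]
    have hw2 : (Int.castRingHom (ZMod p) ∘ fun l => (((z.1.2 l).val : ℕ) : ℤ)) =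
        (LFT_red b hd1 (LFT_red b hd2 z)).1.2 := by
      funext l
      change (((z.1.2 l).val : ℕ) : ℤ) = ZMod.castHom hd1 (ZMod p)
        (ZMod.castHom hd2 (ZMod (p ^ j)) (z.1.2 l))
      rw [hcast, map_intCast]
    obtain ⟨h4, h5⟩ := LFT_inj b p j hj hp2
      (fun i => (((z.1.1 i).val : ℕ) : ℤ)) (fun i => (((z'.1.1 i).val : ℕ) : ℤ))
      (fun l => (((z.1.2 l).val : ℕ) : ℤ)) (fun l => (((z'.1.2 l).val : ℕ) : ℤ))
      (hE z) (hE z')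
      (fun i => (ZMod.intCast_eq_intCast_iff_dvd_sub _ _ _).1 (by
        rw [← hcast, ← hcast]
        exact hr1 i))
      (fun l => (ZMod.intCast_eq_intCast_iff_dvd_sub _ _ _).1 (by
        rw [← hcast, ← hcast]
        exact hr2 l))
      (by
        rw [hw1, hw2]
        exact (hsim' _).2.2)
      (i₁ (LFT_red b hd2 z)) (i₀ (LFT_red b hd2 z)) (h1 _)
      (congrArg Int.ofNat (hval _ _ (hr1 _) hz2)).symm
      (by
        rw [hw2]
        exact h2 _)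
      (l₀ (LFT_red b hd2 z))
      (by
        rw [hw2]
        exact h3 _)
      (congrArg Int.ofNat (hval _ _ (hr2 _) hz3)).symm
    refine Subtype.ext (Prod.ext ?_ ?_)
    · funext i
      have h6 := (ZMod.intCast_eq_intCast_iff_dvd_sub _ _ _).2 (h4 i)
      rwa [hself, hself] at h6
    · funext l
      have h6 := (ZMod.intCast_eq_intCast_iff_dvd_sub _ _ _).2 (h5 l)
      rwa [hself, hself] at h6
  have h4 := Nat.card_le_card_of_injective Φ hΦ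
  rwa [Nat.card_prod, Nat.card_prod, Nat.card_fin] at h4

end LFT

/-- block LFT -/
theorem p_LFT (hCN1 : Stmt_CN1) (hSIM : Stmt_SIM) : Stmt_LFT := by
  intro b hb
  obtain ⟨P₁, hP₁⟩ := hCN1 b hb
  obtain ⟨P₂, hP₂⟩ := hSIM b hb
  refine ⟨max P₁ (max P₂ 3), fun p hp hPp j hj => ?_⟩
  haveI : Fact p.Prime := ⟨hp⟩
  have hp1 : P₁ ≤ p := (le_max_left _ _).trans hPp
  have hp2 : P₂ ≤ p := (le_max_left _ _).trans ((le_max_right _ _).trans hPp)
  have hp3 : 3 ≤ p := (le_max_right _ _).trans ((le_max_right _ _).trans hPp)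
  have h2 : (2 : ZMod p) ≠ 0 := by
    intro h0
    have h1 : ((2 : ℕ) : ZMod p) = 0 := by exact_mod_cast h0
    rw [ZMod.natCast_eq_zero_iff] at h1
    have := Nat.le_of_dvd (by norm_num) h1
    omega
  have hsim := hP₂ (ZMod p) (Or.inr (by rw [ZMod.ringChar_zmod_n]; exact hp2))
  change Nat.card (LFT_A b (p ^ j)) ≤ 4 * p ^ (2 * j)
  induction j, hj using Nat.le_induction with
  | base => exact LFT_base b p (hP₁ p hp hp1) hp (p ^ 1) (pow_one p)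
  | succ j hj ih =>
    calc Nat.card (LFT_A b (p ^ (j + 1))) ≤ Nat.card (LFT_A b (p ^ j)) * (p * p) :=
          LFT_step b p j hj h2 hsim
      _ ≤ (4 * p ^ (2 * j)) * (p * p) := Nat.mul_le_mul_right _ ih
      _ = 4 * p ^ (2 * (j + 1)) := by ring

end Pool.GLU
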