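import Pool.Agent.Work.MP_9fb703_gl.Interface

/-! MP_9fb703_nt, THEOREM GLUE, block LOC: good zeros are dense. -/

set_option autoImplicit false

namespace Pool.GLU

open Matrix Polynomial Filter Topology

section alg

variable {n : ℕ} (b : Fin 2 → Matrix (Fin n) (Fin n) ℤ) {R : Type} [CommRing R]

theorem LOC_jv (x : Fin n → R) (i : Fin 2) :
    jv b x i = (b i).map (Int.cast : ℤ → R) *ᵥ x + ((b i).map (Int.cast : ℤ → R))ᵀ *ᵥ x := by
  have h : (b i + (b i)ᵀ).map (Int.cast : ℤ → R) =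
      (b i).map (Int.cast : ℤ → R) + ((b i).map (Int.cast : ℤ → R))ᵀ := by
    ext k l
    simp
  unfold jv
  rw [h, add_mulVec]

theorem LOC_jdot (x h : Fin n → R) (i : Fin 2) :
    jv b x i ⬝ᵥ h = h ⬝ᵥ ((b i).map (Int.cast : ℤ → R) *ᵥ x) +
      x ⬝ᵥ ((b i).map (Int.cast : ℤ → R) *ᵥ h) := by
  rw [LOC_jv, add_dotProduct, dotProduct_comm, mulVec_transpose, ← dotProduct_mulVec]

theorem LOC_symm (x y : Fin n → R) (i : Fin 2) : jv b x i ⬝ᵥ y = jv b y i ⬝ᵥ x := by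
  rw [LOC_jdot, LOC_jdot, add_comm]

theorem LOC_self (x : Fin n → R) (i : Fin 2) : jv b x i ⬝ᵥ x = 2 * qv b x i := by
  rw [LOC_jdot]
  unfold qv
  ring

theorem LOC_add (x h : Fin n → R) (i : Fin 2) :
    qv b (x + h) i = qv b x i + jv b x i ⬝ᵥ h + qv b h i := by
  rw [LOC_jdot]
  unfold qv
  rw [mulVec_add, dotProduct_add, add_dotProduct, add_dotProduct]
  ring

theorem LOC_qsmul (t : R) (x : Fin n → R) (i : Fin 2) : qv b (t • x) i = t ^ 2 * qv b x i := by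
  unfold qv
  rw [mulVec_smul, dotProduct_smul, smul_dotProduct, smul_eq_mul, smul_eq_mul]
  ring

theorem LOC_jadd (x h : Fin n → R) : jv b (x + h) = jv b x + jv b h := by
  funext i
  rw [Pi.add_apply]
  unfold jv
  rw [mulVec_add]

theorem LOC_jsmul (t : R) (x : Fin n → R) (i : Fin 2) : jv b (t • x) i = t • jv b x i := by
  unfold jv
  rw [mulVec_smul]

theorem LOC_q0 (i : Fin 2) : qv b (0 : Fin n → R) i = 0 := by
  unfold qv
  rw [zero_dotProduct]

/-- the map in two directions -/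
theorem LOC_two (t e : R) (x y : Fin n → R) (i : Fin 2) (h : jv b x i ⬝ᵥ y = 0) :
    qv b (t • x + e • y) i = t ^ 2 * qv b x i + e ^ 2 * qv b y i := by
  rw [LOC_add, LOC_qsmul, LOC_qsmul, LOC_jsmul, dotProduct_smul, smul_dotProduct, h, smul_zero,
    smul_zero, add_zero]

end alg

section ana

variable {K : Type} [NontriviallyNormedField K] [CompleteSpace K] [CharZero K]
  (b : Fin 2 → Matrix (Fin 4) (Fin 4) ℤ)

omit [CompleteSpace K] [CharZero K] in
theorem LOC_jcont : Continuous (fun x : Fin 4 → K => jv b x) := by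
  refine continuous_pi fun i => ?_
  exact Continuous.matrix_mulVec continuous_const continuous_id

/-- the derivative of `q` -/
def LOC_L (x : Fin 4 → K) : (Fin 4 → K) →ₗ[K] (Fin 2 → K) where
  toFun h := fun i => jv b x i ⬝ᵥ h
  map_add' h h' := by
    funext i
    simp [dotProduct_add]
  map_smul' t h := by
    funext i
    simp [dotProduct_smul]

theorem LOC_strict (x : Fin 4 → K) :
    HasStrictFDerivAt (fun y : Fin 4 → K => qv b y)
      (LinearMap.toContinuousLinearMap (LOC_L b x)) x := by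
  rw [hasStrictFDerivAt_iff_isLittleO, Asymptotics.isLittleO_iff]
  intro ε hε
  have h2 : (2 : K) ≠ 0 := two_ne_zero
  -- the midpoint minus `x`
  have hm : Continuous (fun p : (Fin 4 → K) × (Fin 4 → K) =>
      jv b ((2 : K)⁻¹ • (p.1 + p.2) - x)) := by
    refine (LOC_jcont b).comp ?_
    exact (((continuous_fst.add continuous_snd).const_smul ((2 : K)⁻¹))).sub continuous_const
  have h0 : jv b ((2 : K)⁻¹ • (x + x) - x) = 0 := by
    have e1 : (2 : K)⁻¹ • (x + x) - x = 0 := by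
      rw [← two_smul K x, smul_smul, inv_mul_cancel₀ h2, one_smul, sub_self]
    rw [e1]
    funext i
    unfold jv
    rw [mulVec_zero]
    rfl
  have h3 : Tendsto (fun p : (Fin 4 → K) × (Fin 4 → K) =>
      ‖jv b ((2 : K)⁻¹ • (p.1 + p.2) - x)‖) (𝓝 (x, x)) (𝓝 0) := by
    have := (hm.norm).tendsto (x, x)
    simp only [h0, norm_zero] at this
    exact this
  have h4 : ∀ᶠ p : (Fin 4 → K) × (Fin 4 → K) in 𝓝 (x, x),
      ‖jv b ((2 : K)⁻¹ • (p.1 + p.2) - x)‖ < ε / 4 :=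
    h3.eventually (gt_mem_nhds (by positivity))
  filter_upwards [h4] with p hp
  have e2 : qv b p.1 - qv b p.2 - (LinearMap.toContinuousLinearMap (LOC_L b x)) (p.1 - p.2) =
      fun i => jv b ((2 : K)⁻¹ • (p.1 + p.2) - x) i ⬝ᵥ (p.1 - p.2) := by
    funext i
    obtain ⟨d, hd⟩ : ∃ d, d = p.1 - p.2 := ⟨_, rfl⟩
    have hd1 : p.1 = p.2 + d := by rw [hd]; abel
    have e3 : (2 : K)⁻¹ • (p.1 + p.2) - x = p.2 + (2 : K)⁻¹ • d + (-1 : K) • x := by
      rw [hd1]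
      funext k
      simp only [Pi.add_apply, Pi.sub_apply, Pi.smul_apply, smul_eq_mul]
      field_simp
      ring
    have e4 : (LinearMap.toContinuousLinearMap (LOC_L b x)) (p.1 - p.2) i =
        jv b x i ⬝ᵥ (p.1 - p.2) := rfl
    rw [Pi.sub_apply, Pi.sub_apply, e4, ← hd, e3, LOC_jadd, LOC_jadd, Pi.add_apply,
      Pi.add_apply, LOC_jsmul, LOC_jsmul, add_dotProduct, add_dotProduct, smul_dotProduct,
      smul_dotProduct, LOC_self, hd1, LOC_add]
    simp only [smul_eq_mul]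
    field_simp
    ring
  rw [e2]
  refine (pi_norm_le_iff_of_nonneg (by positivity)).mpr fun i => ?_
  calc ‖jv b ((2 : K)⁻¹ • (p.1 + p.2) - x) i ⬝ᵥ (p.1 - p.2)‖
      ≤ ∑ k, ‖jv b ((2 : K)⁻¹ • (p.1 + p.2) - x) i k * (p.1 - p.2) k‖ := norm_sum_le _ _
    _ ≤ ∑ _k : Fin 4, ε / 4 * ‖p.1 - p.2‖ := by
      refine Finset.sum_le_sum fun k _ => ?_
      rw [norm_mul]
      refine mul_le_mul ?_ (norm_le_pi_norm _ k) (norm_nonneg _) (by positivity)
      exact ((norm_le_pi_norm _ k).trans (norm_le_pi_norm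
        (jv b ((2 : K)⁻¹ • (p.1 + p.2) - x)) i)).trans hp.le
    _ = ε * ‖p.1 - p.2‖ := by
      rw [Finset.sum_const, Finset.card_univ, Fintype.card_fin, nsmul_eq_mul]
      push_cast
      ring

omit [CompleteSpace K] [CharZero K] in
theorem LOC_surj (x : Fin 4 → K) (hx : LinearIndependent K (jv b x)) :
    LinearMap.range (LOC_L b x) = ⊤ := by
  by_contra hne
  obtain ⟨f, hf, hker⟩ := Submodule.exists_le_ker_of_lt_top _ (lt_top_iff_ne_top.mpr hne)
  have hfx : ∀ y : Fin 2 → K, f y = y 0 * f (Pi.single 0 1) + y 1 * f (Pi.single 1 1) := by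
    intro y
    have e : y = y 0 • (Pi.single 0 1 : Fin 2 → K) + y 1 • (Pi.single 1 1 : Fin 2 → K) := by
      funext k
      fin_cases k <;> simp
    conv_lhs => rw [e]
    rw [map_add, map_smul, map_smul, smul_eq_mul, smul_eq_mul]
  have h1 : ∀ h : Fin 4 → K,
      (f (Pi.single 0 1) • jv b x 0 + f (Pi.single 1 1) • jv b x 1) ⬝ᵥ h = 0 := by
    intro h
    have h2 : f (LOC_L b x h) = 0 := hker ⟨h, rfl⟩
    rw [hfx] at h2
    rw [add_dotProduct, smul_dotProduct, smul_dotProduct, smul_eq_mul, smul_eq_mul]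
    have e0 : LOC_L b x h 0 = jv b x 0 ⬝ᵥ h := rfl
    have e1 : LOC_L b x h 1 = jv b x 1 ⬝ᵥ h := rfl
    rw [e0, e1] at h2
    rw [← h2]
    ring
  have h3 : f (Pi.single 0 1) • jv b x 0 + f (Pi.single 1 1) • jv b x 1 = 0 :=
    dotProduct_eq_zero _ h1
  have h4 := Fintype.linearIndependent_iff.mp hx (fun i => f (Pi.single i 1)) (by
    rw [Fin.sum_univ_two]
    exact h3)
  apply hf
  ext k
  fin_cases k
  · simpa using h4 0
  · simpa using h4 1

omit [CompleteSpace K] [CharZero K] in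
theorem LOC_qcont (c : Fin 2 → Matrix (Fin 2) (Fin 2) ℤ) (M : Matrix (Fin 2) (Fin 2) K) :
    Continuous (fun w : Fin 2 → K => M *ᵥ qv c w) := by
  refine Continuous.matrix_mulVec continuous_const (continuous_pi fun i => ?_)
  exact Continuous.dotProduct continuous_id (Continuous.matrix_mulVec continuous_const
    continuous_id)

/-- the case of a smooth point `x` with `w = 0` -/
theorem LOC_zero (c : Fin 2 → Matrix (Fin 2) (Fin 2) ℤ) (M : Matrix (Fin 2) (Fin 2) K)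
    (x : Fin 4 → K) (hx : LinearIndependent K (jv b x)) (hq : qv b x = 0) (ε : ℝ) (hε : 0 < ε) :
    ∃ (x' : Fin 4 → K) (w' : Fin 2 → K), Zer b c M x' w' ∧ LinearIndependent K (jv b x') ∧
      w' ≠ 0 ∧ ‖x' - x‖ < ε ∧ ‖w'‖ < ε := by
  have h1 := (LOC_strict b x).map_nhds_eq_of_surj (LOC_surj b x hx)
  have hU : {y : Fin 4 → K | ‖y - x‖ < ε ∧ LinearIndependent K (jv b y)} ∈ 𝓝 x := by
    refine inter_mem ?_ ?_
    · have : Metric.ball x ε ∈ 𝓝 x := Metric.ball_mem_nhds x hε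
      refine mem_of_superset this fun y hy => ?_
      rw [Metric.mem_ball, dist_eq_norm] at hy
      exact hy
    · have h2 : IsOpen {f : Fin 2 → Fin 4 → K | LinearIndependent K f} :=
        isOpen_setOfPred_linearIndependent
      exact (h2.preimage (LOC_jcont b)).mem_nhds hx
  have h3 := image_mem_map (m := fun y : Fin 4 → K => qv b y) hU
  rw [h1, hq] at h3
  have h4 := (LOC_qcont c M).tendsto 0
  have h5 : M *ᵥ qv c (0 : Fin 2 → K) = 0 := by
    have : qv c (0 : Fin 2 → K) = 0 := by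
      funext i
      exact LOC_q0 c i
    rw [this, mulVec_zero]
  rw [h5] at h4
  obtain ⟨δ, hδ, hδ'⟩ := Metric.mem_nhds_iff.mp (h4 h3)
  obtain ⟨t, ht0, ht⟩ := NormedField.exists_norm_lt K (lt_min hδ hε)
  have hn : ‖(Pi.single 0 t : Fin 2 → K)‖ = ‖t‖ := by
    rw [Pi.norm_single]
  have h6 : (Pi.single 0 t : Fin 2 → K) ∈ Metric.ball (0 : Fin 2 → K) δ := by
    rw [mem_ball_zero_iff, hn]
    exact ht.trans_le (min_le_left _ _)
  obtain ⟨y, ⟨hy1, hy2⟩, hy3⟩ := hδ' h6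
  refine ⟨y, Pi.single 0 t, hy3, hy2, ?_, hy1, ?_⟩
  · intro h
    have h7 : t = 0 := by simpa using congrFun h 0
    rw [h7, norm_zero] at ht0
    exact lt_irrefl _ ht0
  · rw [hn]
    exact ht.trans_le (min_le_right _ _)

omit [CharZero K] in
/-- two quadratic equations in two unknowns -/
theorem LOC_solve (Q R B C : Fin 2 → K) (hD : Q 0 * B 1 - Q 1 * B 0 ≠ 0) (h2 : (2 : K) ≠ 0)
    (T S E : Set K) (hT : T ∈ 𝓝 (1 : K)) (hS : S ∈ 𝓝 (0 : K)) (hE : E ∈ 𝓝 (0 : K)) :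
    ∃ t ∈ T, ∃ s ∈ S, ∃ e ∈ E, e ≠ 0 ∧
      ∀ i, t ^ 2 * Q i + e ^ 2 * R i = Q i + s * B i + s ^ 2 * C i := by
  -- the equation for `s`
  have f1 : HasStrictDerivAt (fun s : K => s * (B 0 * Q 1 - B 1 * Q 0) +
      s ^ 2 * (C 0 * Q 1 - C 1 * Q 0)) (B 0 * Q 1 - B 1 * Q 0) 0 := by
    have g1 : HasStrictDerivAt (fun s : K => s * (B 0 * Q 1 - B 1 * Q 0))
        (1 * (B 0 * Q 1 - B 1 * Q 0)) 0 := (hasStrictDerivAt_id (0 : K)).mul_const _
    have g2 : HasStrictDerivAt (fun s : K => s ^ 2 * (C 0 * Q 1 - C 1 * Q 0))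
        ((2 : ℕ) * (0 : K) ^ (2 - 1) * (C 0 * Q 1 - C 1 * Q 0)) 0 :=
      (hasStrictDerivAt_pow 2 (0 : K)).mul_const _
    have g3 := g1.add g2
    have e : 1 * (B 0 * Q 1 - B 1 * Q 0) +
        ((2 : ℕ) * (0 : K) ^ (2 - 1) * (C 0 * Q 1 - C 1 * Q 0)) = B 0 * Q 1 - B 1 * Q 0 := by
      simp
    rw [e] at g3
    exact g3
  have m1 := f1.map_nhds_eq (by
    intro h
    apply hD
    linear_combination -h)
  have f2 : HasStrictDerivAt (fun t : K => t ^ 2) ((2 : ℕ) * (1 : K) ^ (2 - 1)) 1 :=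
    hasStrictDerivAt_pow 2 (1 : K)
  have m2 := f2.map_nhds_eq (by simpa using h2)
  simp only [one_pow, zero_mul, ne_eq, OfNat.ofNat_ne_zero, not_false_eq_true, zero_pow,
    add_zero] at m1 m2
  have hT' := image_mem_map (m := fun t : K => t ^ 2) hT
  rw [m2] at hT'
  have hc : Continuous (fun p : K × K => 1 + (p.1 ^ 2 * (C 0 * B 1 - C 1 * B 0) -
      p.2 ^ 2 * (R 0 * B 1 - R 1 * B 0)) / (Q 0 * B 1 - Q 1 * B 0)) := by
    fun_prop
  have hc1 := hc.tendsto (0, 0)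
  simp only [ne_eq, OfNat.ofNat_ne_zero, not_false_eq_true, zero_pow, zero_mul, sub_zero,
    zero_div, add_zero] at hc1
  obtain ⟨S1, hS1, E1, hE1, hSE⟩ := mem_nhds_prod_iff.mp (hc1 hT')
  have hS' := image_mem_map (m := fun s : K => s * (B 0 * Q 1 - B 1 * Q 0) +
      s ^ 2 * (C 0 * Q 1 - C 1 * Q 0)) (inter_mem hS1 hS)
  rw [m1] at hS'
  have hd : Continuous (fun e : K => e ^ 2 * (R 0 * Q 1 - R 1 * Q 0)) := by fun_prop
  have hd1 := hd.tendsto 0
  simp only [ne_eq, OfNat.ofNat_ne_zero, not_false_eq_true, zero_pow, zero_mul] at hd1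
  have hE2 := hd1 hS'
  obtain ⟨δ, hδ, hδ'⟩ := Metric.mem_nhds_iff.mp (inter_mem (inter_mem hE1 hE) hE2)
  obtain ⟨e, he0, he⟩ := NormedField.exists_norm_lt K hδ
  have he1 : e ∈ Metric.ball (0 : K) δ := by
    rw [mem_ball_zero_iff]
    exact he
  obtain ⟨⟨he2, he3⟩, s, ⟨hs1, hs2⟩, hs3⟩ := hδ' he1
  have hse : (s, e) ∈ S1 ×ˢ E1 := ⟨hs1, he2⟩
  obtain ⟨t, ht1, ht2⟩ := hSE hse
  refine ⟨t, ht1, s, hs2, e, he3, norm_pos_iff.mp he0, ?_⟩
  simp only at hs3 ht2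
  have ht3 : t ^ 2 * (Q 0 * B 1 - Q 1 * B 0) = (Q 0 * B 1 - Q 1 * B 0) +
      (s ^ 2 * (C 0 * B 1 - C 1 * B 0) - e ^ 2 * (R 0 * B 1 - R 1 * B 0)) := by
    rw [ht2, add_mul, one_mul, div_mul_cancel₀ _ hD]
  obtain ⟨v, hv⟩ : ∃ v : Fin 2 → K, v = fun i =>
      t ^ 2 * Q i + e ^ 2 * R i - (Q i + s * B i + s ^ 2 * C i) := ⟨_, rfl⟩
  have hv1 : v 0 * Q 1 = v 1 * Q 0 := by
    rw [hv]
    linear_combination -hs3
  have hv2 : v 0 * B 1 = v 1 * B 0 := by
    rw [hv]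
    linear_combination ht3
  have hv3 : v 0 = 0 := by
    have : v 0 * (Q 0 * B 1 - Q 1 * B 0) = 0 := by linear_combination Q 0 * hv2 - B 0 * hv1
    exact (mul_eq_zero.mp this).resolve_right hD
  have hv4 : v 1 = 0 := by
    have : v 1 * (Q 0 * B 1 - Q 1 * B 0) = 0 := by linear_combination Q 1 * hv2 - B 1 * hv1
    exact (mul_eq_zero.mp this).resolve_right hD
  intro i
  have hv5 : v i = 0 := by
    fin_cases i
    · exact hv3
    · exact hv4
  rw [hv] at hv5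
  exact sub_eq_zero.mp hv5

end ana

section alg2

variable {K : Type} [Field K] (c : Fin 2 → Matrix (Fin 2) (Fin 2) ℤ)

theorem LOC_bin (w : Fin 2 → K) (j : Fin 2) : qv c w j =
    (c j 0 0 : K) * w 0 ^ 2 + ((c j 0 1 : K) + (c j 1 0 : K)) * (w 0 * w 1) +
      (c j 1 1 : K) * w 1 ^ 2 := by
  simp only [qv, mulVec, dotProduct, Fin.sum_univ_two, map_apply]
  ring

theorem LOC_bj0 (w : Fin 2 → K) (j : Fin 2) : jv c w j 0 =
    2 * (c j 0 0 : K) * w 0 + ((c j 0 1 : K) + (c j 1 0 : K)) * w 1 := by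
  simp only [jv, mulVec, dotProduct, Fin.sum_univ_two, map_apply, Matrix.add_apply,
    transpose_apply]
  push_cast
  ring

theorem LOC_bj1 (w : Fin 2 → K) (j : Fin 2) : jv c w j 1 =
    ((c j 0 1 : K) + (c j 1 0 : K)) * w 0 + 2 * (c j 1 1 : K) * w 1 := by
  simp only [jv, mulVec, dotProduct, Fin.sum_univ_two, map_apply, Matrix.add_apply,
    transpose_apply]
  push_cast
  ring

/-- the discriminant of `z · φ` is nonzero, so its gradient at `w ≠ 0` is nonzero -/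
theorem LOC_grad (z w : Fin 2 → K) (hw : w ≠ 0)
    (hd : (z 0 * ((c 0 0 1 : K) + (c 0 1 0 : K)) + z 1 * ((c 1 0 1 : K) + (c 1 1 0 : K))) ^ 2 -
      4 * ((z 0 * (c 0 0 0 : K) + z 1 * (c 1 0 0 : K)) *
        (z 0 * (c 0 1 1 : K) + z 1 * (c 1 1 1 : K))) ≠ 0) :
    ∃ k, z 0 * jv c w 0 k + z 1 * jv c w 1 k ≠ 0 := by
  by_contra hcon
  push Not at hcon
  have h0 := hcon 0
  have h1 := hcon 1
  rw [LOC_bj0, LOC_bj0] at h0
  rw [LOC_bj1, LOC_bj1] at h1
  apply hw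
  funext k
  fin_cases k
  · have : ((z 0 * ((c 0 0 1 : K) + (c 0 1 0 : K)) + z 1 * ((c 1 0 1 : K) + (c 1 1 0 : K))) ^ 2 -
      4 * ((z 0 * (c 0 0 0 : K) + z 1 * (c 1 0 0 : K)) *
        (z 0 * (c 0 1 1 : K) + z 1 * (c 1 1 1 : K)))) * w 0 = 0 := by
      linear_combination (z 0 * ((c 0 0 1 : K) + (c 0 1 0 : K)) +
        z 1 * ((c 1 0 1 : K) + (c 1 1 0 : K))) * h1 -
        2 * (z 0 * (c 0 1 1 : K) + z 1 * (c 1 1 1 : K)) * h0
    exact (mul_eq_zero.mp this).resolve_left hd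
  · have : ((z 0 * ((c 0 0 1 : K) + (c 0 1 0 : K)) + z 1 * ((c 1 0 1 : K) + (c 1 1 0 : K))) ^ 2 -
      4 * ((z 0 * (c 0 0 0 : K) + z 1 * (c 1 0 0 : K)) *
        (z 0 * (c 0 1 1 : K) + z 1 * (c 1 1 1 : K)))) * w 1 = 0 := by
      linear_combination (z 0 * ((c 0 0 1 : K) + (c 0 1 0 : K)) +
        z 1 * ((c 1 0 1 : K) + (c 1 1 0 : K))) * h0 -
        2 * (z 0 * (c 0 0 0 : K) + z 1 * (c 1 0 0 : K)) * h1
    exact (mul_eq_zero.mp this).resolve_left hd

theorem LOC_perp (v : Fin 4 → K) : ∃ y : Fin 4 → K, y ≠ 0 ∧ v ⬝ᵥ y = 0 := by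
  by_cases h : v 0 = 0
  · refine ⟨Pi.single 0 1, fun h1 => ?_, ?_⟩
    · have := congrFun h1 0
      simp at this
    · rw [dotProduct_single, h, zero_mul]
  · refine ⟨Pi.single 0 (-v 1) + Pi.single 1 (v 0), fun h1 => ?_, ?_⟩
    · have := congrFun h1 1
      simp at this
      exact h this
    · rw [dotProduct_add, dotProduct_single, dotProduct_single]
      ring

/-- the action of the second matrix of `Dl` on an eigenvector -/
theorem LOC_disc [CharZero K] (b : Fin 2 → Matrix (Fin 4) (Fin 4) ℤ) (hb : Nice b)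
    (M : Matrix (Fin 2) (Fin 2) K) (hM : Dl b c M ≠ 0) (μ : Fin 2 → K) (hμ : μ ≠ 0)
    (x : Fin 4 → K) (hx : x ≠ 0) (h : μ 0 • jv b x 0 + μ 1 • jv b x 1 = 0) :
    μ 1 ≠ 0 ∧ ∀ z : Fin 2 → K, (∀ j, z j = μ 0 * M 0 j + μ 1 * M 1 j) →
      (z 0 * ((c 0 0 1 : K) + (c 0 1 0 : K)) + z 1 * ((c 1 0 1 : K) + (c 1 1 0 : K))) ^ 2 -
      4 * ((z 0 * (c 0 0 0 : K) + z 1 * (c 1 0 0 : K)) *
        (z 0 * (c 0 1 1 : K) + z 1 * (c 1 1 1 : K))) ≠ 0 := by
  have hd0 : (((b 0 + (b 0)ᵀ).det : ℤ) : K) ≠ 0 := Int.cast_ne_zero.mpr hb.det0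
  obtain ⟨S₀, hS₀⟩ : ∃ S₀ : Matrix (Fin 4) (Fin 4) K,
      S₀ = (b 0 + (b 0)ᵀ).map (Int.cast : ℤ → K) := ⟨_, rfl⟩
  obtain ⟨S₁, hS₁⟩ : ∃ S₁ : Matrix (Fin 4) (Fin 4) K,
      S₁ = (b 1 + (b 1)ᵀ).map (Int.cast : ℤ → K) := ⟨_, rfl⟩
  have hdet : S₀.det = (((b 0 + (b 0)ᵀ).det : ℤ) : K) := by
    rw [hS₀]
    exact ((Int.castRingHom K).map_det _).symm
  have hj0 : jv b x 0 = S₀ *ᵥ x := by rw [hS₀]; rfl
  have hj1 : jv b x 1 = S₁ *ᵥ x := by rw [hS₁]; rfl
  have hTh : (Th b).map (Int.cast : ℤ → K) = S₀.adjugate * S₁ := by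
    unfold Th
    have e1 : ((b 0 + (b 0)ᵀ).adjugate * (b 1 + (b 1)ᵀ)).map (Int.cast : ℤ → K) =
        ((b 0 + (b 0)ᵀ).adjugate).map (Int.cast : ℤ → K) *
          (b 1 + (b 1)ᵀ).map (Int.cast : ℤ → K) := by
      exact Matrix.map_mul (f := Int.castRingHom K)
    have e2 : ((b 0 + (b 0)ᵀ).adjugate).map (Int.cast : ℤ → K) = S₀.adjugate := by
      rw [hS₀]
      exact (Int.castRingHom K).map_adjugate _
    rw [e1, e2, hS₁]
  rw [hj0, hj1] at h
  have hμ1 : μ 1 ≠ 0 := by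
    intro h1
    rw [h1, zero_smul, add_zero] at h
    have h0 : μ 0 ≠ 0 := by
      intro h0
      apply hμ
      funext k
      fin_cases k
      · exact h0
      · exact h1
    have h2 : S₀ *ᵥ x = 0 := (smul_eq_zero.mp h).resolve_left h0
    exact hx (eq_zero_of_mulVec_eq_zero (by rw [hdet]; exact hd0) h2)
  refine ⟨hμ1, fun z hz hdz => ?_⟩
  -- `X_j x`
  have hΘ : μ 1 • ((Th b).map (Int.cast : ℤ → K) *ᵥ x) = -(μ 0 * S₀.det) • x := by
    rw [hTh, ← mulVec_mulVec, ← mulVec_smul]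
    have e3 : μ 1 • (S₁ *ᵥ x) = -(μ 0 • (S₀ *ᵥ x)) := by
      rw [eq_neg_iff_add_eq_zero, add_comm]
      exact h
    rw [e3, mulVec_neg, mulVec_smul, mulVec_mulVec, adjugate_mul, smul_mulVec, one_mulVec,
      smul_smul, neg_smul]
  have hX : ∀ j, Xm b M j *ᵥ x = (S₀.det * z j / μ 1) • x := by
    intro j
    have e4 : μ 1 • (Xm b M j *ᵥ x) = (S₀.det * z j) • x := by
      unfold Xm
      rw [sub_mulVec, smul_mulVec, smul_mulVec, one_mulVec, smul_sub, smul_comm (μ 1) (M 0 j),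
        hΘ, hz, ← hdet, smul_smul, smul_smul, ← sub_smul]
      congr 1
      ring
    have e5 : Xm b M j *ᵥ x = (μ 1)⁻¹ • (μ 1 • (Xm b M j *ᵥ x)) := by
      rw [smul_smul, inv_mul_cancel₀ hμ1, one_smul]
    rw [e5, e4, smul_smul]
    congr 1
    field_simp
  have hM2 := right_ne_zero_of_mul hM
  apply hM2
  rw [← exists_mulVec_eq_zero_iff]
  refine ⟨x, hx, ?_⟩
  have hlin : ∀ u v : ℤ, (((u : ℤ) : K) • Xm b M 0 + ((v : ℤ) : K) • Xm b M 1) *ᵥ x =
      ((S₀.det / μ 1) * (z 0 * (u : K) + z 1 * (v : K))) • x := by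
    intro u v
    rw [add_mulVec, smul_mulVec, smul_mulVec, hX, hX, smul_smul, smul_smul, ← add_smul]
    congr 1
    field_simp
  rw [sub_mulVec, pow_two, ← mulVec_mulVec, hlin, mulVec_smul, hlin, smul_mulVec,
    ← mulVec_mulVec, hlin, mulVec_smul, hlin, smul_smul, smul_smul, smul_smul, ← sub_smul]
  have e6 : (S₀.det / μ 1 * (z 0 * ((c 0 0 1 + c 0 1 0 : ℤ) : K) +
      z 1 * ((c 1 0 1 + c 1 1 0 : ℤ) : K))) * (S₀.det / μ 1 * (z 0 *
      ((c 0 0 1 + c 0 1 0 : ℤ) : K) + z 1 * ((c 1 0 1 + c 1 1 0 : ℤ) : K))) -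
      4 * (S₀.det / μ 1 * (z 0 * ((c 0 1 1 : ℤ) : K) + z 1 * ((c 1 1 1 : ℤ) : K))) *
      (S₀.det / μ 1 * (z 0 * ((c 0 0 0 : ℤ) : K) + z 1 * ((c 1 0 0 : ℤ) : K))) = 0 := by
    have e7 : (S₀.det / μ 1) ^ 2 * ((z 0 * ((c 0 0 1 : K) + (c 0 1 0 : K)) +
        z 1 * ((c 1 0 1 : K) + (c 1 1 0 : K))) ^ 2 -
        4 * ((z 0 * (c 0 0 0 : K) + z 1 * (c 1 0 0 : K)) *
        (z 0 * (c 0 1 1 : K) + z 1 * (c 1 1 1 : K)))) = 0 := by
      rw [hdz, mul_zero]
    rw [← e7]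
    push_cast
    ring
  rw [e6, zero_smul]

end alg2

section fin

variable {K : Type} [NontriviallyNormedField K] [CompleteSpace K] [CharZero K]

/-- the case of an eigenvector `x` -/
theorem LOC_sing (hSIM : Stmt_SIM) (b : Fin 2 → Matrix (Fin 4) (Fin 4) ℤ)
    (c : Fin 2 → Matrix (Fin 2) (Fin 2) ℤ) (hb : Nice b)
    (M : Matrix (Fin 2) (Fin 2) K) (hM : Dl b c M ≠ 0) (x : Fin 4 → K) (w : Fin 2 → K)
    (hZ : Zer b c M x w) (hx : x ≠ 0) (μ : Fin 2 → K) (hμ : μ ≠ 0)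
    (h : μ 0 • jv b x 0 + μ 1 • jv b x 1 = 0) (ε : ℝ) (hε : 0 < ε) :
    ∃ (x' : Fin 4 → K) (w' : Fin 2 → K), Zer b c M x' w' ∧ LinearIndependent K (jv b x') ∧
      w' ≠ 0 ∧ ‖x' - x‖ < ε ∧ ‖w' - w‖ < ε := by
  have h2 : (2 : K) ≠ 0 := two_ne_zero
  obtain ⟨P, hP⟩ := hSIM b hb
  have hP1 := hP K (Or.inl (ringChar.eq_zero)) μ x hμ hx h
  obtain ⟨hqx, hker⟩ := hP1
  obtain ⟨hμ1, hdisc⟩ := LOC_disc c b hb M hM μ hμ x hx h
  have hZ' : ∀ i, qv b x i = M i 0 * qv c w 0 + M i 1 * qv c w 1 := by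
    intro i
    have := congrFun hZ i
    rw [this]
    simp only [mulVec, dotProduct, Fin.sum_univ_two]
  have hw : w ≠ 0 := by
    intro hw
    apply hqx
    funext i
    rw [hZ' i, hw, LOC_q0, LOC_q0]
    simp
  have hμq : μ 0 * qv b x 0 + μ 1 * qv b x 1 = 0 := by
    have h3 : (μ 0 • jv b x 0 + μ 1 • jv b x 1) ⬝ᵥ x = 0 := by rw [h, zero_dotProduct]
    rw [add_dotProduct, smul_dotProduct, smul_dotProduct, LOC_self, LOC_self, smul_eq_mul,
      smul_eq_mul] at h3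
    have h4 : 2 * (μ 0 * qv b x 0 + μ 1 * qv b x 1) = 0 := by linear_combination h3
    exact (mul_eq_zero.mp h4).resolve_left h2
  have hQ0 : qv b x 0 ≠ 0 := by
    intro h0
    apply hqx
    rw [h0, mul_zero, zero_add] at hμq
    funext i
    fin_cases i
    · exact h0
    · exact (mul_eq_zero.mp hμq).resolve_left hμ1
  obtain ⟨z, hz⟩ : ∃ z : Fin 2 → K, ∀ j, z j = μ 0 * M 0 j + μ 1 * M 1 j :=
    ⟨fun j => μ 0 * M 0 j + μ 1 * M 1 j, fun j => rfl⟩
  obtain ⟨k, hk⟩ := LOC_grad c z w hw (hdisc z hz)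
  obtain ⟨y, hy, hxy⟩ := LOC_perp (jv b x 0)
  have hxy' : ∀ i, jv b x i ⬝ᵥ y = 0 := by
    have h5 : (μ 0 • jv b x 0 + μ 1 • jv b x 1) ⬝ᵥ y = 0 := by rw [h, zero_dotProduct]
    rw [add_dotProduct, smul_dotProduct, smul_dotProduct, hxy, smul_zero, zero_add,
      smul_eq_mul] at h5
    intro i
    fin_cases i
    · exact hxy
    · exact (mul_eq_zero.mp h5).resolve_left hμ1
  obtain ⟨B, hB⟩ : ∃ B : Fin 2 → K, ∀ i, B i = M i 0 * jv c w 0 k + M i 1 * jv c w 1 k :=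
    ⟨fun i => M i 0 * jv c w 0 k + M i 1 * jv c w 1 k, fun i => rfl⟩
  obtain ⟨v, hv⟩ : ∃ v : Fin 2 → K, v = Pi.single k 1 := ⟨_, rfl⟩
  obtain ⟨C, hC⟩ : ∃ C : Fin 2 → K, ∀ i, C i = M i 0 * qv c v 0 + M i 1 * qv c v 1 :=
    ⟨fun i => M i 0 * qv c v 0 + M i 1 * qv c v 1, fun i => rfl⟩
  have hD : qv b x 0 * B 1 - qv b x 1 * B 0 ≠ 0 := by
    intro h6
    have h7 : μ 1 * (qv b x 0 * B 1 - qv b x 1 * B 0) =
        qv b x 0 * (z 0 * jv c w 0 k + z 1 * jv c w 1 k) := by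
      rw [hB, hB, hz, hz]
      linear_combination -(M 0 0 * jv c w 0 k + M 0 1 * jv c w 1 k) * hμq
    rw [h6, mul_zero] at h7
    exact (mul_ne_zero hQ0 hk) h7.symm
  have hT : {t : K | t ≠ 0 ∧ ‖(t - 1) • x‖ < ε / 2} ∈ 𝓝 (1 : K) := by
    refine inter_mem (isOpen_ne.mem_nhds one_ne_zero) ?_
    have hc : Continuous (fun t : K => ‖(t - 1) • x‖) := by fun_prop
    have h8 := hc.tendsto 1
    simp only [sub_self, zero_smul, norm_zero] at h8
    exact h8.eventually (gt_mem_nhds (by positivity))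
  have hS : {s : K | ‖s • v‖ < ε ∧ w + s • v ≠ 0} ∈ 𝓝 (0 : K) := by
    refine inter_mem ?_ ?_
    · have hc : Continuous (fun s : K => ‖s • v‖) := by fun_prop
      have h8 := hc.tendsto 0
      simp only [zero_smul, norm_zero] at h8
      exact h8.eventually (gt_mem_nhds hε)
    · have hc : Continuous (fun s : K => w + s • v) := by fun_prop
      have h8 := hc.tendsto 0
      simp only [zero_smul, add_zero] at h8
      exact h8 (isOpen_ne.mem_nhds hw)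
  have hE : {e : K | ‖e • y‖ < ε / 2} ∈ 𝓝 (0 : K) := by
    have hc : Continuous (fun e : K => ‖e • y‖) := by fun_prop
    have h8 := hc.tendsto 0
    simp only [zero_smul, norm_zero] at h8
    exact h8.eventually (gt_mem_nhds (by positivity))
  obtain ⟨t, ⟨ht0, ht1⟩, s, ⟨hs1, hs2⟩, e, he1, he0, heq⟩ :=
    LOC_solve (fun i => qv b x i) (fun i => qv b y i) B C hD h2 _ _ _ hT hS hE
  refine ⟨t • x + e • y, w + s • v, ?_, ?_, hs2, ?_, ?_⟩
  · funext i
    rw [LOC_two b t e x y i (hxy' i), heq i]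
    have h9 : (M *ᵥ qv c (w + s • v)) i = M i 0 * qv c (w + s • v) 0 +
        M i 1 * qv c (w + s • v) 1 := by
      simp only [mulVec, dotProduct, Fin.sum_univ_two]
    have h10 : ∀ j, qv c (w + s • v) j = qv c w j + s * jv c w j k + s ^ 2 * qv c v j := by
      intro j
      rw [LOC_add, LOC_qsmul, dotProduct_smul, hv, dotProduct_single, mul_one, smul_eq_mul]
    rw [h9, h10, h10, hB, hC, hZ' i]
    ring
  · by_contra hli
    obtain ⟨g, hg, i₀, hi₀⟩ := Fintype.not_linearIndependent_iff.mp hli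
    rw [Fin.sum_univ_two] at hg
    have hp : ∀ i, jv b (t • x + e • y) i ⬝ᵥ x = 2 * t * qv b x i := by
      intro i
      rw [LOC_symm, dotProduct_add, dotProduct_smul, dotProduct_smul, LOC_self, hxy' i,
        smul_zero, add_zero, smul_eq_mul]
      ring
    have h11 : g 0 * qv b x 0 + g 1 * qv b x 1 = 0 := by
      have h12 : (g 0 • jv b (t • x + e • y) 0 + g 1 • jv b (t • x + e • y) 1) ⬝ᵥ x = 0 := by
        rw [hg, zero_dotProduct]
      rw [add_dotProduct, smul_dotProduct, smul_dotProduct, hp, hp, smul_eq_mul,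
        smul_eq_mul] at h12
      have h13 : (2 * t) * (g 0 * qv b x 0 + g 1 * qv b x 1) = 0 := by
        linear_combination h12
      exact (mul_eq_zero.mp h13).resolve_left (mul_ne_zero h2 ht0)
    have hg1 : g 1 ≠ 0 := by
      intro h14
      rw [h14, zero_mul, add_zero] at h11
      have h15 := (mul_eq_zero.mp h11).resolve_right hQ0
      fin_cases i₀
      · exact hi₀ h15
      · exact hi₀ h14
    have h16 : μ 1 * g 0 = g 1 * μ 0 := by
      have : qv b x 0 * (μ 1 * g 0 - g 1 * μ 0) = 0 := by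
        linear_combination μ 1 * h11 - g 1 * hμq
      exact sub_eq_zero.mp ((mul_eq_zero.mp this).resolve_left hQ0)
    have h17 : μ 0 • jv b (t • x + e • y) 0 + μ 1 • jv b (t • x + e • y) 1 = 0 := by
      have h18 : g 1 • (μ 0 • jv b (t • x + e • y) 0 + μ 1 • jv b (t • x + e • y) 1) = 0 := by
        rw [smul_add, smul_smul, smul_smul, ← h16, mul_comm (g 1) (μ 1), ← smul_smul,
          ← smul_smul, ← smul_add, hg, smul_zero]
      exact (smul_eq_zero.mp h18).resolve_left hg1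
    obtain ⟨a, ha⟩ := hker _ h17
    have h19 : e • y = (a - t) • x := by
      rw [sub_smul, ← ha]
      abel
    have h20 : (a - t) * (2 * qv b x 0) = 0 := by
      have h21 : jv b x 0 ⬝ᵥ (e • y) = jv b x 0 ⬝ᵥ ((a - t) • x) := by rw [h19]
      rw [dotProduct_smul, dotProduct_smul, hxy, LOC_self, smul_zero, smul_eq_mul] at h21
      exact h21.symm
    have h22 := (mul_eq_zero.mp h20).resolve_right (mul_ne_zero h2 hQ0)
    rw [h22, zero_smul] at h19
    rcases smul_eq_zero.mp h19 with h23 | h23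
    · exact he0 h23
    · exact hy h23
  · have h24 : t • x + e • y - x = (t - 1) • x + e • y := by
      rw [sub_smul, one_smul]
      abel
    rw [h24]
    calc ‖(t - 1) • x + e • y‖ ≤ ‖(t - 1) • x‖ + ‖e • y‖ := norm_add_le _ _
      _ < ε / 2 + ε / 2 := add_lt_add ht1 he1
      _ = ε := add_halves ε
  · rw [add_sub_cancel_left]
    exact hs1

end fin

theorem p_LOC (hSIM : Stmt_SIM) (hCOI : Stmt_COI) : Stmt_LOC := by
  intro b c hb hc K _ _ _ M x w hM hZ hxw ε hε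
  by_cases hli : LinearIndependent K (jv b x)
  · by_cases hw : w = 0
    · have hq : qv b x = 0 := by
        have h1 : qv b x = M *ᵥ qv c w := hZ
        rw [h1, hw]
        have h2 : qv c (0 : Fin 2 → K) = 0 := by
          funext i
          exact LOC_q0 c i
        rw [h2, mulVec_zero]
      obtain ⟨x', w', h1, h2, h3, h4, h5⟩ := LOC_zero b c M x hli hq ε hε
      refine ⟨x', w', h1, h2, h3, h4, ?_⟩
      rw [hw, sub_zero]
      exact h5
    · exact ⟨x, w, hZ, hli, hw, by rw [sub_self, norm_zero]; exact hε,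
        by rw [sub_self, norm_zero]; exact hε⟩
  · obtain ⟨μ, hμ, i₀, hi₀⟩ := Fintype.not_linearIndependent_iff.mp hli
    rw [Fin.sum_univ_two] at hμ
    have hμ0 : μ ≠ 0 := fun h => hi₀ (congrFun h i₀)
    have hx : x ≠ 0 := by
      intro hx
      have h1 : M *ᵥ qv c w = 0 := by
        have h2 : qv b x = M *ᵥ qv c w := hZ
        rw [← h2, hx]
        funext i
        exact LOC_q0 b i
      have h3 : qv c w = 0 := eq_zero_of_mulVec_eq_zero (left_ne_zero_of_mul hM) h1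
      have hw : w ≠ 0 := hxw.resolve_left fun h => h hx
      exact (hCOI c).1 K w (Int.cast_ne_zero.mpr hc) hw h3
    exact LOC_sing hSIM b c hb M hM x w hZ hx μ hμ0 hμ ε hε

end Pool.GLU
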