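import Pool.Agent.Work.MP_9fb703_gl.Interface

/-!
# Block LPT: lattice points in dilates
-/

set_option autoImplicit false

namespace Pool.GLU

open Matrix Polynomial MeasureTheory

section LPT

variable {ι : Type} [Fintype ι]

/-- The cell of the point `x`. -/
def LPT_cell (L : ι → ℕ) (e : ι → ℕ) (B : ℕ) (x : ι → ℤ) : Set (ι → ℝ) :=
  Set.pi Set.univ fun i => Set.Ico ((x i : ℝ) / (B : ℝ) ^ e i) (((x i : ℝ) + L i) / (B : ℝ) ^ e i)

theorem LPT_meas (L : ι → ℕ) (e : ι → ℕ) (B : ℕ) (x : ι → ℤ) :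
    MeasurableSet (LPT_cell L e B x) :=
  MeasurableSet.univ_pi fun _ => measurableSet_Ico

theorem LPT_vol (L : ι → ℕ) (e : ι → ℕ) (B : ℕ) (hB : 0 < B) (x : ι → ℤ) :
    volume (LPT_cell L e B x) =
      ENNReal.ofReal ((∏ i, (L i : ℝ)) / (B : ℝ) ^ ∑ i, e i) := by
  have hB' : (0 : ℝ) < (B : ℝ) := by exact_mod_cast hB
  unfold LPT_cell
  rw [Real.volume_pi_Ico, ← ENNReal.ofReal_prod_of_nonneg]
  · congr 1
    rw [← Finset.prod_pow_eq_pow_sum, ← Finset.prod_div_distrib]
    refine Finset.prod_congr rfl fun i _ => ?_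
    rw [← sub_div, add_sub_cancel_left]
  · intro i _
    rw [← sub_div, add_sub_cancel_left]
    positivity

theorem LPT_disj (L : ι → ℕ) (a : ι → ℤ) (e : ι → ℕ) (B : ℕ) (hB : 0 < B)
    (x x' : ι → ℤ) (hx : ∀ i, (L i : ℤ) ∣ x i - a i) (hx' : ∀ i, (L i : ℤ) ∣ x' i - a i)
    (hne : x ≠ x') : Disjoint (LPT_cell L e B x) (LPT_cell L e B x') := by
  rw [Set.disjoint_left]
  intro y hy hy'
  apply hne
  funext i
  have hB' : (0 : ℝ) < (B : ℝ) ^ e i := by
    have : (0 : ℝ) < (B : ℝ) := by exact_mod_cast hB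
    positivity
  obtain ⟨h1, h2⟩ := hy i (Set.mem_univ i)
  obtain ⟨h3, h4⟩ := hy' i (Set.mem_univ i)
  rw [div_le_iff₀ hB'] at h1 h3
  rw [lt_div_iff₀ hB'] at h2 h4
  have h5 : (x i : ℝ) < (x' i : ℝ) + L i := lt_of_le_of_lt h1 h4
  have h6 : (x' i : ℝ) < (x i : ℝ) + L i := lt_of_le_of_lt h3 h2
  have h7 : x i < x' i + (L i : ℤ) := by exact_mod_cast h5
  have h8 : x' i < x i + (L i : ℤ) := by exact_mod_cast h6
  have h9 : (L i : ℤ) ∣ x i - x' i := by
    have h := dvd_sub (hx i) (hx' i)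
    have e1 : x i - a i - (x' i - a i) = x i - x' i := by ring
    rwa [e1] at h
  have h10 : x i - x' i = 0 := by
    refine Int.eq_zero_of_abs_lt_dvd h9 ?_
    rw [abs_lt]
    constructor <;> linarith
  linarith

theorem LPT_dist (L : ι → ℕ) (e : ι → ℕ) (B : ℕ) (hB : 0 < B) (he : ∀ i, 1 ≤ e i) (δ : ℝ)
    (hδ : 0 < δ) (hBδ : (∑ i, (L i : ℝ)) / δ ≤ B) (x : ι → ℤ) (y : ι → ℝ)
    (hy : y ∈ LPT_cell L e B x) : dist y (fun i => (x i : ℝ) / (B : ℝ) ^ e i) ≤ δ := by
  have hB1 : (1 : ℝ) ≤ (B : ℝ) := by exact_mod_cast hB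
  rw [dist_pi_le_iff hδ.le]
  intro i
  have hB' : (0 : ℝ) < (B : ℝ) ^ e i := by positivity
  obtain ⟨h1, h2⟩ := hy i (Set.mem_univ i)
  rw [add_div] at h2
  have h3 : (L i : ℝ) / (B : ℝ) ^ e i ≤ δ := by
    rw [div_le_iff₀ hB']
    rw [div_le_iff₀ hδ] at hBδ
    have h4 : (L i : ℝ) ≤ ∑ i, (L i : ℝ) :=
      Finset.single_le_sum (f := fun i => (L i : ℝ)) (fun j _ => Nat.cast_nonneg _)
        (Finset.mem_univ i)
    have h5 : (B : ℝ) ≤ (B : ℝ) ^ e i := by
      have := pow_le_pow_right₀ hB1 (he i)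
      rwa [pow_one] at this
    have h6 := mul_le_mul_of_nonneg_right h5 hδ.le
    linarith
  rw [Real.dist_eq, abs_le]
  constructor <;> linarith

theorem LPT_fin (a : ι → ℤ) (L : ι → ℕ) (e : ι → ℕ) (B : ℕ) (hB : 0 < B) (R : Set (ι → ℝ))
    (hR : Bornology.IsBounded R) :
    {x : ι → ℤ | (∀ i, (L i : ℤ) ∣ x i - a i) ∧
        (fun i => (x i : ℝ) / (B : ℝ) ^ e i) ∈ R}.Finite := by
  obtain ⟨C, hC⟩ := hR.exists_norm_le
  have hB' : (0 : ℝ) < (B : ℝ) := by exact_mod_cast hB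
  refine Set.Finite.subset (Set.Finite.pi' (t := fun i : ι => Set.Icc (-⌈C * (B : ℝ) ^ e i⌉)
    ⌈C * (B : ℝ) ^ e i⌉) fun i => Set.finite_Icc _ _) ?_
  intro x hx i
  have h1 : |(x i : ℝ) / (B : ℝ) ^ e i| ≤ C :=
    (norm_le_pi_norm (fun i => (x i : ℝ) / (B : ℝ) ^ e i) i).trans (hC _ hx.2)
  have hBe : (0 : ℝ) < (B : ℝ) ^ e i := by positivity
  rw [abs_div, abs_of_pos hBe, div_le_iff₀ hBe, abs_le] at h1
  have h2 : C * (B : ℝ) ^ e i ≤ (⌈C * (B : ℝ) ^ e i⌉ : ℝ) := Int.le_ceil _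
  constructor
  · have : (-⌈C * (B : ℝ) ^ e i⌉ : ℝ) ≤ (x i : ℝ) := by linarith
    exact_mod_cast this
  · have : (x i : ℝ) ≤ (⌈C * (B : ℝ) ^ e i⌉ : ℝ) := by linarith
    exact_mod_cast this

end LPT

/-- Block LPT. -/
theorem p_LPT : Stmt_LPT := by
  intro ι _ L a e R hL he
  constructor
  · intro hR ε hε
    have hfinR : volume R ≠ ⊤ := hR.measure_lt_top.ne
    have htend := tendsto_measure_cthickening_of_isCompact (μ := (volume : Measure (ι → ℝ))) hR
    have hlt : volume R < volume R + ENNReal.ofReal ε :=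
      ENNReal.lt_add_right hfinR (by simpa using hε)
    have hev := htend.eventually (gt_mem_nhds hlt)
    obtain ⟨δ, hδ, hδb⟩ : ∃ δ : ℝ, 0 < δ ∧
        volume (Metric.cthickening δ R) < volume R + ENNReal.ofReal ε := by
      obtain ⟨r, hr, hball⟩ := Metric.eventually_nhds_iff.1 hev
      refine ⟨r / 2, by linarith, hball ?_⟩
      rw [Real.dist_eq, sub_zero, abs_of_pos (by linarith)]
      linarith
    refine ⟨⌈(∑ i, (L i : ℝ)) / δ⌉₊ + 1, ?_⟩
    intro B hB
    have hB0 : 0 < B := by omega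
    have hB' : (0 : ℝ) < (B : ℝ) := by exact_mod_cast hB0
    have hBδ : (∑ i, (L i : ℝ)) / δ ≤ B := by
      refine (Nat.le_ceil _).trans ?_
      have : ⌈(∑ i, (L i : ℝ)) / δ⌉₊ ≤ B := by omega
      exact_mod_cast this
    have hfin := LPT_fin a L e B hB0 R hR.isBounded
    rw [Set.ncard_eq_toFinset_card _ hfin]
    have hmu : volume (⋃ x ∈ hfin.toFinset, LPT_cell L e B x) =
        ∑ x ∈ hfin.toFinset, volume (LPT_cell L e B x) := by
      refine measure_biUnion_finset ?_ fun x _ => LPT_meas L e B x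
      intro x hx x' hx' hne
      rw [Finset.mem_coe, Set.Finite.mem_toFinset] at hx hx'
      exact LPT_disj L a e B hB0 x x' hx.1 hx'.1 hne
    have hsub : (⋃ x ∈ hfin.toFinset, LPT_cell L e B x) ⊆ Metric.cthickening δ R := by
      intro y hy
      simp only [Set.mem_iUnion] at hy
      obtain ⟨x, hx, hyx⟩ := hy
      rw [Set.Finite.mem_toFinset] at hx
      exact Metric.mem_cthickening_of_dist_le _ _ _ _ hx.2
        (LPT_dist L e B hB0 he δ hδ hBδ x y hyx)
    have hle := (measure_mono hsub).trans hδb.le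
    rw [hmu, Finset.sum_congr rfl fun x _ => LPT_vol L e B hB0 x, Finset.sum_const,
      nsmul_eq_mul] at hle
    have hc : 0 ≤ (∏ i, (L i : ℝ)) / (B : ℝ) ^ ∑ i, e i := by positivity
    have hle2 := ENNReal.toReal_mono (ENNReal.add_ne_top.2 ⟨hfinR, ENNReal.ofReal_ne_top⟩) hle
    rw [ENNReal.toReal_mul, ENNReal.toReal_natCast, ENNReal.toReal_ofReal hc,
      ENNReal.toReal_add hfinR ENNReal.ofReal_ne_top, ENNReal.toReal_ofReal hε.le,
      ← mul_div_assoc, div_le_iff₀ (by positivity)] at hle2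
    exact hle2
  · intro hR hRb ε hε
    have hfinR : volume R ≠ ⊤ := hRb.measure_lt_top.ne
    by_cases hcase : (volume R).toReal ≤ ε
    · refine ⟨0, fun B _ => ?_⟩
      have h1 : ((volume R).toReal - ε) * (B : ℝ) ^ ∑ i, e i ≤ 0 :=
        mul_nonpos_of_nonpos_of_nonneg (by linarith) (by positivity)
      refine h1.trans ?_
      positivity
    · rw [not_le] at hcase
      have hr : ENNReal.ofReal ((volume R).toReal - ε) < volume R := by
        rw [ENNReal.ofReal_lt_iff_lt_toReal (by linarith) hfinR]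
        linarith
      obtain ⟨K, hKR, hK, hKv⟩ := hR.exists_lt_isCompact hr
      obtain ⟨δ, hδ, hδK⟩ := hK.exists_thickening_subset_open hR hKR
      refine ⟨⌈(∑ i, (L i : ℝ)) / (δ / 2)⌉₊ + 1, ?_⟩
      intro B hB
      have hB0 : 0 < B := by omega
      have hB' : (0 : ℝ) < (B : ℝ) := by exact_mod_cast hB0
      have hBδ : (∑ i, (L i : ℝ)) / (δ / 2) ≤ B := by
        refine (Nat.le_ceil _).trans ?_
        have : ⌈(∑ i, (L i : ℝ)) / (δ / 2)⌉₊ ≤ B := by omega
        exact_mod_cast this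
      have hfin := LPT_fin a L e B hB0 R hRb
      rw [Set.ncard_eq_toFinset_card _ hfin]
      have hsub : K ⊆ ⋃ x ∈ hfin.toFinset, LPT_cell L e B x := by
        intro y hy
        have hxex : ∀ i, ∃ z : ℤ, (L i : ℤ) ∣ z - a i ∧ (z : ℝ) ≤ y i * (B : ℝ) ^ e i ∧
            y i * (B : ℝ) ^ e i < (z : ℝ) + L i := by
          intro i
          have hLi : (0 : ℝ) < (L i : ℝ) := by exact_mod_cast hL i
          refine ⟨a i + L i * ⌊(y i * (B : ℝ) ^ e i - a i) / L i⌋, ?_, ?_, ?_⟩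
          · exact ⟨⌊(y i * (B : ℝ) ^ e i - a i) / L i⌋, by ring⟩
          · have h1 := Int.floor_le ((y i * (B : ℝ) ^ e i - a i) / L i)
            rw [le_div_iff₀ hLi] at h1
            push_cast
            linarith
          · have h1 := Int.lt_floor_add_one ((y i * (B : ℝ) ^ e i - a i) / L i)
            rw [div_lt_iff₀ hLi] at h1
            push_cast
            linarith
        choose x hx1 hx2 hx3 using hxex
        have hyc : y ∈ LPT_cell L e B x := by
          intro i _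
          have hBe : (0 : ℝ) < (B : ℝ) ^ e i := by positivity
          constructor
          · rw [div_le_iff₀ hBe]
            exact hx2 i
          · rw [lt_div_iff₀ hBe]
            exact hx3 i
        have hd := LPT_dist L e B hB0 he (δ / 2) (by linarith) hBδ x y hyc
        simp only [Set.mem_iUnion]
        refine ⟨x, ?_, hyc⟩
        rw [Set.Finite.mem_toFinset]
        refine ⟨hx1, hδK ?_⟩
        rw [Metric.mem_thickening_iff]
        refine ⟨y, hy, ?_⟩
        rw [dist_comm]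
        linarith
      have hle : volume K ≤ ∑ x ∈ hfin.toFinset, volume (LPT_cell L e B x) :=
        (measure_mono hsub).trans (measure_biUnion_finset_le _ _)
      rw [Finset.sum_congr rfl fun x _ => LPT_vol L e B hB0 x, Finset.sum_const,
        nsmul_eq_mul] at hle
      have hc : 0 ≤ (∏ i, (L i : ℝ)) / (B : ℝ) ^ ∑ i, e i := by positivity
      have hle1 := hKv.le.trans hle
      have hle2 := ENNReal.toReal_mono
        (ENNReal.mul_ne_top (ENNReal.natCast_ne_top _) ENNReal.ofReal_ne_top) hle1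
      rw [ENNReal.toReal_mul, ENNReal.toReal_natCast, ENNReal.toReal_ofReal hc,
        ENNReal.toReal_ofReal (by linarith), ← mul_div_assoc, le_div_iff₀ (by positivity)] at hle2
      exact hle2

end Pool.GLU
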