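import Pool.Agent.Work.MP_9fb703_gl.Interface

set_option autoImplicit false

namespace Pool.GLU

open Matrix Polynomial MeasureTheory

/-- the gcd of the minors -/
noncomputable def NPR_g (b : Fin 2 → Matrix (Fin 4) (Fin 4) ℤ) (y : Fin 4 → ℤ) : ℕ :=
  ((Finset.univ : Finset (Fin 4 × Fin 4)).gcd fun p => mnr b y p.1 p.2).natAbs

theorem NPR_dvd (b : Fin 2 → Matrix (Fin 4) (Fin 4) ℤ) (y : Fin 4 → ℤ) (k l : Fin 4) :
    (NPR_g b y : ℤ) ∣ mnr b y k l :=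
  Int.natAbs_dvd.2 (Finset.gcd_dvd (f := fun p : Fin 4 × Fin 4 => mnr b y p.1 p.2)
    (Finset.mem_univ (k, l)))

theorem NPR_dvd' (b : Fin 2 → Matrix (Fin 4) (Fin 4) ℤ) (y : Fin 4 → ℤ) (d : ℤ)
    (h : ∀ k l, d ∣ mnr b y k l) : d ∣ (NPR_g b y : ℤ) :=
  Int.dvd_natAbs.2 (Finset.dvd_gcd fun p _ => h p.1 p.2)

theorem NPR_pos (b : Fin 2 → Matrix (Fin 4) (Fin 4) ℤ) (y : Fin 4 → ℤ)
    (h : ∃ k l, mnr b y k l ≠ 0) : 0 < NPR_g b y := by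
  obtain ⟨k, l, hkl⟩ := h
  apply Nat.pos_of_ne_zero
  intro h0
  have h1 := NPR_dvd b y k l
  rw [h0] at h1
  exact hkl (zero_dvd_iff.1 (by exact_mod_cast h1))

/-- one half: sum over the shorter vector -/
theorem NPR_half (hPRI : Stmt_PRI) (b : Fin 2 → Matrix (Fin 4) (Fin 4) ℤ) (K : ℕ)
    (hK : ∀ Y : ℕ, 0 < Y →
      ∀ (F : Finset (Fin 4 → ℤ)) (g : (Fin 4 → ℤ) → ℕ), (∀ y ∈ F, (∀ j, |y j| ≤ Y) ∧
        (∀ d : ℤ, (∀ j, d ∣ y j) → IsUnit d) ∧ (∀ k l, (g y : ℤ) ∣ mnr b y k l) ∧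
        ∃ k l, mnr b y k l ≠ 0) →
      ∑ y ∈ F, g y ≤ K * Y ^ 4) (κ : ℝ) (hκ : 0 < κ) (A B : ℕ) (hA : 0 < A) (hAB : A ≤ B)
    (F : Finset ((Fin 4 → ℤ) × (Fin 4 → ℤ)))
    (hF : ∀ p ∈ F, (∀ i, jv b p.1 i ⬝ᵥ p.2 = 0) ∧ (∀ j, |p.1 j| ≤ ((2 * A : ℕ) : ℤ)) ∧
      (∀ j, |p.2 j| ≤ ((2 * B : ℕ) : ℤ)) ∧ (∀ d : ℤ, (∀ j, d ∣ p.1 j) → IsUnit d) ∧
      (∀ d : ℤ, (∀ j, d ∣ p.2 j) → IsUnit d) ∧
      ∃ k l, κ * (A : ℝ) ^ 2 ≤ |((mnr b p.1 k l : ℤ) : ℝ)|) :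
    (F.card : ℝ) ≤ (32 * K + 1280 * K / κ) * (A : ℝ) ^ 2 * (B : ℝ) ^ 2 := by
  classical
  have hA' : (0 : ℝ) < A := by exact_mod_cast hA
  have hAB' : (A : ℝ) ≤ B := by exact_mod_cast hAB
  have hB' : (0 : ℝ) < B := lt_of_lt_of_le hA' hAB'
  have hpos : 0 < κ * (A : ℝ) ^ 2 := by positivity
  have hnz : ∀ p ∈ F, ∃ k l, mnr b p.1 k l ≠ 0 := by
    intro p hp
    obtain ⟨-, -, -, -, -, k, l, hkl⟩ := hF p hp
    refine ⟨k, l, ?_⟩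
    intro h0
    rw [h0] at hkl
    simp only [Int.cast_zero, abs_zero] at hkl
    linarith
  obtain ⟨F1, hF1⟩ : ∃ F1 : Finset (Fin 4 → ℤ), F1 = F.image Prod.fst := ⟨_, rfl⟩
  have hsum : ∑ y ∈ F1, NPR_g b y ≤ K * (2 * A) ^ 4 := by
    refine hK (2 * A) (by omega) F1 (NPR_g b) ?_
    intro y hy
    rw [hF1, Finset.mem_image] at hy
    obtain ⟨p, hp, rfl⟩ := hy
    exact ⟨(hF p hp).2.1, (hF p hp).2.2.2.1, NPR_dvd b p.1, hnz p hp⟩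
  have hcard : F.card = ∑ y ∈ F1, (F.filter fun p => p.1 = y).card := by
    rw [hF1]
    exact Finset.card_eq_sum_card_image Prod.fst F
  have hfib : ∀ y ∈ F1, (((F.filter fun p => p.1 = y).card : ℕ) : ℝ) ≤
      (2 + 80 * (B : ℝ) ^ 2 / (κ * (A : ℝ) ^ 2)) * (NPR_g b y : ℝ) := by
    intro y hy
    rw [hF1, Finset.mem_image] at hy
    obtain ⟨p, hp, hpy⟩ := hy
    obtain ⟨-, -, -, -, -, k, l, hkl⟩ := hF p hp
    have hg := NPR_pos b p.1 (hnz p hp)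
    rw [hpy] at hkl hg
    obtain ⟨P, hP⟩ : ∃ P : ℕ, P = (mnr b y k l).natAbs := ⟨_, rfl⟩
    have hPr : (P : ℝ) = |((mnr b y k l : ℤ) : ℝ)| := by
      rw [hP, Nat.cast_natAbs, Int.cast_abs]
    have hP1 : κ * (A : ℝ) ^ 2 ≤ P := by
      rw [hPr]
      exact hkl
    have hP0 : 0 < P := by
      have : (0 : ℝ) < P := hpos.trans_le hP1
      exact_mod_cast this
    have hci : (F.filter fun p => p.1 = y).card =
        ((F.filter fun p => p.1 = y).image Prod.snd).card := by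
      rw [Finset.card_image_of_injOn]
      intro u hu v hv huv
      rw [Finset.mem_coe, Finset.mem_filter] at hu hv
      exact Prod.ext (hu.2.trans hv.2.symm) huv
    have h1 := hPRI (jv b y 0) (jv b y 1) (NPR_g b y) P (2 * B)
      ((F.filter fun p => p.1 = y).image Prod.snd) hg hP0 (fun d hd => NPR_dvd' b y d hd)
      ⟨k, l, by
        change (P : ℤ) ≤ |mnr b y k l|
        rw [hP, Int.natCast_natAbs]⟩
      (by
        intro z hz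
        rw [Finset.mem_image] at hz
        obtain ⟨u, hu, rfl⟩ := hz
        rw [Finset.mem_filter] at hu
        obtain ⟨hu1, hu2⟩ := hu
        obtain ⟨f1, f2, f3, f4, f5, -⟩ := hF u hu1
        rw [hu2] at f1
        exact ⟨f3, f5, f1 0, f1 1⟩)
    rw [← hci] at h1
    have hg1 : (1 : ℝ) ≤ (NPR_g b y : ℝ) := by exact_mod_cast hg
    refine h1.trans ?_
    have h2 : 20 * ((2 * B : ℕ) : ℝ) ^ 2 * (NPR_g b y : ℝ) / P ≤
        80 * (B : ℝ) ^ 2 / (κ * (A : ℝ) ^ 2) * (NPR_g b y : ℝ) := by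
      have e1 : 20 * ((2 * B : ℕ) : ℝ) ^ 2 * (NPR_g b y : ℝ) / P =
          80 * (B : ℝ) ^ 2 * (NPR_g b y : ℝ) / P := by
        push_cast
        ring
      rw [e1, div_mul_eq_mul_div]
      exact div_le_div_of_nonneg_left (by positivity) hpos hP1
    linarith
  have h1 : (F.card : ℝ) ≤ (2 + 80 * (B : ℝ) ^ 2 / (κ * (A : ℝ) ^ 2)) *
      (∑ y ∈ F1, NPR_g b y : ℕ) := by
    rw [hcard, Nat.cast_sum, Nat.cast_sum, Finset.mul_sum]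
    exact Finset.sum_le_sum hfib
  have h2 : ((∑ y ∈ F1, NPR_g b y : ℕ) : ℝ) ≤ K * (2 * (A : ℝ)) ^ 4 := by exact_mod_cast hsum
  have h3 : (0 : ℝ) ≤ 2 + 80 * (B : ℝ) ^ 2 / (κ * (A : ℝ) ^ 2) := by positivity
  refine h1.trans ((mul_le_mul_of_nonneg_left h2 h3).trans ?_)
  have e2 : (2 + 80 * (B : ℝ) ^ 2 / (κ * (A : ℝ) ^ 2)) * (K * (2 * (A : ℝ)) ^ 4) =
      32 * K * (A : ℝ) ^ 2 * (A : ℝ) ^ 2 + 1280 * K / κ * (A : ℝ) ^ 2 * (B : ℝ) ^ 2 := by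
    field_simp
    ring
  rw [e2]
  have h4 : (A : ℝ) ^ 2 ≤ (B : ℝ) ^ 2 := pow_le_pow_left₀ hA'.le hAB' 2
  have h5 : 32 * (K : ℝ) * (A : ℝ) ^ 2 * (A : ℝ) ^ 2 ≤ 32 * K * (A : ℝ) ^ 2 * (B : ℝ) ^ 2 :=
    mul_le_mul_of_nonneg_left h4 (by positivity)
  linarith

theorem NPR_symm {R : Type} [CommRing R] (b : Fin 2 → Matrix (Fin 4) (Fin 4) ℤ) (y z : Fin 4 → R)
    (i : Fin 2) : jv b z i ⬝ᵥ y = jv b y i ⬝ᵥ z := by
  simp only [jv, Matrix.mulVec, dotProduct, Fin.sum_univ_four, Matrix.map_apply, Matrix.add_apply,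
    Matrix.transpose_apply]
  push_cast
  ring

theorem NPR_jv (b : Fin 2 → Matrix (Fin 4) (Fin 4) ℤ) (y : Fin 4 → ℤ) (i : Fin 2) (k : Fin 4) :
    jv b (sc 1 y) i k = ((jv b y i k : ℤ) : ℝ) := by
  simp only [jv, Matrix.mulVec, dotProduct, Fin.sum_univ_four, Matrix.map_apply, Matrix.add_apply,
    Matrix.transpose_apply, sc, div_one]
  push_cast
  ring

theorem NPR_mnr (b : Fin 2 → Matrix (Fin 4) (Fin 4) ℤ) (y : Fin 4 → ℤ) (k l : Fin 4) :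
    mnr b (sc 1 y) k l = ((mnr b y k l : ℤ) : ℝ) := by
  rw [mnr, mnr, NPR_jv, NPR_jv, NPR_jv, NPR_jv]
  push_cast
  ring

theorem NPR_dot (b : Fin 2 → Matrix (Fin 4) (Fin 4) ℤ) (y z : Fin 4 → ℤ) (i : Fin 2) :
    jv b (sc 1 y) i ⬝ᵥ sc 1 z = ((jv b y i ⬝ᵥ z : ℤ) : ℝ) := by
  simp only [dotProduct, Fin.sum_univ_four, NPR_jv, sc, div_one]
  push_cast
  ring

theorem NPR_norm (y : Fin 4 → ℤ) (A : ℕ) (h : ∃ j, (A : ℤ) ≤ |y j|) : (A : ℝ) ≤ ‖sc 1 y‖ := by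
  obtain ⟨j, hj⟩ := h
  refine le_trans ?_ (norm_le_pi_norm (sc 1 y) j)
  rw [sc, div_one, Real.norm_eq_abs]
  exact_mod_cast hj

theorem p_NPR (hGSM : Stmt_GSM) (hPRI : Stmt_PRI) (hREL : Stmt_REL) : Stmt_NPR := by
  classical
  intro b ξ hb hξ
  obtain ⟨κ, τ, hκ, hτ, -, hrel⟩ := hREL b ξ hξ
  obtain ⟨K, hK⟩ := hGSM b hb
  refine ⟨τ, ⌈32 * (K : ℝ) + 1280 * K / κ⌉₊, hτ, ?_⟩
  intro Y Z F hY hZ hF
  have hY' : (0 : ℝ) < Y := by exact_mod_cast hY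
  have hZ' : (0 : ℝ) < Z := by exact_mod_cast hZ
  -- minors
  have hm1 : ∀ z ∈ F, ∃ k l, κ * (Y : ℝ) ^ 2 ≤ |((mnr b z.1 k l : ℤ) : ℝ)| := by
    intro z hz
    obtain ⟨f1, f2, f3, f4, f5, f6, f7, t, ht, htt⟩ := hF z hz
    have hn := NPR_norm z.1 Y f3
    have hne : sc 1 z.1 ≠ 0 := by
      intro h0
      rw [h0, norm_zero] at hn
      linarith
    obtain ⟨k, l, hkl⟩ := (hrel (sc 1 z.2) t ht htt).2.2 (sc 1 z.1) hne (by
      intro i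
      rw [NPR_dot, f1 i, Int.cast_zero])
    refine ⟨k, l, ?_⟩
    rw [← NPR_mnr]
    exact (mul_le_mul_of_nonneg_left (pow_le_pow_left₀ hY'.le hn 2) hκ.le).trans hkl
  have hm2 : ∀ z ∈ F, ∃ k l, κ * (Z : ℝ) ^ 2 ≤ |((mnr b z.2 k l : ℤ) : ℝ)| := by
    intro z hz
    obtain ⟨f1, f2, f3, f4, f5, f6, f7, t, ht, htt⟩ := hF z hz
    have hn := NPR_norm z.2 Z f5
    obtain ⟨k, l, hkl⟩ := (hrel (sc 1 z.2) t ht htt).1
    refine ⟨k, l, ?_⟩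
    rw [← NPR_mnr]
    exact (mul_le_mul_of_nonneg_left (pow_le_pow_left₀ hZ'.le hn 2) hκ.le).trans hkl
  have key : (F.card : ℝ) ≤ (32 * K + 1280 * K / κ) * (Y : ℝ) ^ 2 * (Z : ℝ) ^ 2 := by
    rcases le_total Y Z with h | h
    · refine NPR_half hPRI b K hK κ hκ Y Z hY h F ?_
      intro z hz
      obtain ⟨f1, f2, f3, f4, f5, f6, f7, -⟩ := hF z hz
      refine ⟨f1, fun j => ?_, fun j => ?_, f6, f7, hm1 z hz⟩
      · have := f2 j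
        push_cast
        exact this.le
      · have := f4 j
        push_cast
        exact this.le
    · have h1 := NPR_half hPRI b K hK κ hκ Z Y hZ h (F.image Prod.swap) (by
        intro w hw
        rw [Finset.mem_image] at hw
        obtain ⟨z, hz, rfl⟩ := hw
        obtain ⟨f1, f2, f3, f4, f5, f6, f7, -⟩ := hF z hz
        refine ⟨fun i => ?_, fun j => ?_, fun j => ?_, f7, f6, hm2 z hz⟩
        · change jv b z.2 i ⬝ᵥ z.1 = 0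
          rw [NPR_symm]
          exact f1 i
        · have := f4 j
          push_cast
          exact this.le
        · have := f2 j
          push_cast
          exact this.le)
      rw [Finset.card_image_of_injective _ Prod.swap_injective] at h1
      refine h1.trans (le_of_eq ?_)
      ring
  have h2 : (32 * (K : ℝ) + 1280 * K / κ) * (Y : ℝ) ^ 2 * (Z : ℝ) ^ 2 ≤
      (⌈32 * (K : ℝ) + 1280 * K / κ⌉₊ : ℝ) * (Y : ℝ) ^ 2 * (Z : ℝ) ^ 2 := by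
    apply mul_le_mul_of_nonneg_right _ (by positivity)
    apply mul_le_mul_of_nonneg_right (Nat.le_ceil _) (by positivity)
  exact_mod_cast key.trans h2

end Pool.GLU
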