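import Pool.Agent.Work.MP_9fb703_gl.Interface

/-!
# Block NZP: a nonzero integer polynomial is rarely divisible by a large power of a prime
-/

set_option autoImplicit false

namespace Pool.GLU

open Matrix Polynomial MeasureTheory

theorem NZP_cancel (p : ℕ) (hp : p.Prime) (a m : ℕ) (u v : ℤ) (hu : ¬ (p : ℤ) ^ a ∣ u)
    (h : (p : ℤ) ^ (m + a) ∣ u * v) : (p : ℤ) ^ m ∣ v := by
  have hp' : Prime (p : ℤ) := Nat.prime_iff_prime_int.1 hp
  rw [pow_add, mul_comm ((p : ℤ) ^ m)] at h
  induction a generalizing u with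
  | zero => exact absurd (by simp) hu
  | succ a ih =>
    by_cases hpu : (p : ℤ) ∣ u
    · obtain ⟨w, rfl⟩ := hpu
      apply ih w
      · intro hw
        apply hu
        rw [pow_succ, mul_comm]
        exact mul_dvd_mul_left _ hw
      · rw [pow_succ, mul_comm ((p : ℤ) ^ a), mul_assoc, mul_assoc] at h
        exact (mul_dvd_mul_iff_left hp'.ne_zero).1 h
    · have h1 : (p : ℤ) ^ m ∣ u * v := (Dvd.intro_left _ rfl).trans h
      have hcop : IsCoprime ((p : ℤ) ^ m) u := by
        apply IsCoprime.pow_left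
        exact (Prime.coprime_iff_not_dvd hp').2 hpu
      exact hcop.dvd_of_dvd_mul_left h1

/-- if a polynomial of degree at most `D` is divisible by `p^(k + a D)` at more than `D` points
which are pairwise incongruent modulo `p^a`, its coefficients are divisible by `p^k` -/
theorem NZP_one (p : ℕ) (hp : p.Prime) (a k : ℕ) (D : ℕ) : ∀ (f : ℤ[X]), f.natDegree ≤ D →
    ∀ s : Finset ℤ, D < s.card → (∀ x ∈ s, ∀ y ∈ s, x ≠ y → ¬ (p : ℤ) ^ a ∣ x - y) →
    (∀ x ∈ s, (p : ℤ) ^ (k + a * D) ∣ f.eval x) → ∀ j, (p : ℤ) ^ k ∣ f.coeff j := by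
  induction D with
  | zero =>
    intro f hf s hs _ hd j
    obtain ⟨x, hx⟩ := Finset.card_pos.1 hs
    have h1 := hd x hx
    have h2 : f = C (f.coeff 0) := Polynomial.eq_C_of_natDegree_le_zero hf
    rw [mul_zero, add_zero, h2, Polynomial.eval_C] at h1
    rw [h2, Polynomial.coeff_C]
    split_ifs
    · exact h1
    · exact dvd_zero _
  | succ D ih =>
    intro f hf s hs hinc hd j
    obtain ⟨x₀, hx₀⟩ := Finset.card_pos.1 (Nat.zero_lt_of_lt hs)
    set g := f /ₘ (X - C x₀) with hg
    have hfg : f = C (f.eval x₀) + (X - C x₀) * g := by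
      have h1 := Polynomial.modByMonic_add_div f (q := X - C x₀)
      rw [Polynomial.modByMonic_X_sub_C_eq_C_eval] at h1
      exact h1.symm
    have hgd : g.natDegree ≤ D := by
      rw [hg, Polynomial.natDegree_divByMonic f (Polynomial.monic_X_sub_C x₀),
        Polynomial.natDegree_X_sub_C]
      omega
    have hgc : ∀ i, (p : ℤ) ^ k ∣ g.coeff i := by
      apply ih g hgd (s.erase x₀)
      · rw [Finset.card_erase_of_mem hx₀]
        omega
      · intro x hx y hy hxy
        exact hinc x (Finset.mem_of_mem_erase hx) y (Finset.mem_of_mem_erase hy) hxy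
      · intro x hx
        have hxs := Finset.mem_of_mem_erase hx
        have hne := Finset.ne_of_mem_erase hx
        have h2 : f.eval x = f.eval x₀ + (x - x₀) * g.eval x := by
          conv_lhs => rw [hfg]
          simp
        have h3 : (p : ℤ) ^ (k + a * D + a) ∣ (x - x₀) * g.eval x := by
          have h4 := dvd_sub (hd x hxs) (hd x₀ hx₀)
          rw [h2] at h4
          have h5 : k + a * (D + 1) = k + a * D + a := by ring
          rw [h5] at h4
          have h6 : f.eval x₀ + (x - x₀) * g.eval x - f.eval x₀ = (x - x₀) * g.eval x := by ring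
          rwa [h6] at h4
        exact NZP_cancel p hp a _ _ _ (hinc x hxs x₀ hx₀ hne) h3
    have h0 : (p : ℤ) ^ k ∣ f.eval x₀ :=
      (pow_dvd_pow _ (Nat.le_add_right _ _)).trans (hd x₀ hx₀)
    rw [hfg, Polynomial.coeff_add, sub_mul, Polynomial.coeff_sub]
    apply dvd_add
    · rw [Polynomial.coeff_C]
      split_ifs
      · exact h0
      · exact dvd_zero _
    · apply dvd_sub
      · cases j with
        | zero => rw [Polynomial.coeff_X_mul_zero]; exact dvd_zero _
        | succ j => rw [Polynomial.coeff_X_mul]; exact hgc j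
      · rw [Polynomial.coeff_C_mul]
        exact (hgc j).mul_left _

theorem NZP_fibre (p : ℕ) (hp : p.Prime) (a e : ℕ) (hae : a ≤ e) (r : ℤ) :
    ((Finset.Ico (0 : ℤ) ((p : ℤ) ^ e)).filter fun x => x % (p : ℤ) ^ a = r).card ≤
      p ^ (e - a) := by
  have hpa : (0 : ℤ) < (p : ℤ) ^ a := by
    have : (0 : ℤ) < p := by exact_mod_cast hp.pos
    positivity
  have hcard : (Finset.Ico (0 : ℤ) ((p : ℤ) ^ (e - a))).card = p ^ (e - a) := by
    rw [Int.card_Ico, sub_zero]
    exact_mod_cast Int.toNat_natCast (p ^ (e - a))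
  rw [← hcard]
  apply Finset.card_le_card_of_injOn (fun x => x / (p : ℤ) ^ a)
  · intro x hx
    simp only [Finset.coe_filter, Finset.mem_Ico, Set.mem_ofPred_eq] at hx
    simp only [Finset.coe_Ico, Set.mem_Ico]
    refine ⟨Int.ediv_nonneg hx.1.1 hpa.le, ?_⟩
    apply Int.ediv_lt_of_lt_mul hpa
    rw [← pow_add, Nat.sub_add_cancel hae]
    exact hx.1.2
  · intro x hx y hy hxy
    simp only [Finset.coe_filter, Finset.mem_Ico, Set.mem_ofPred_eq] at hx hy
    have h1 := Int.emod_add_mul_ediv x ((p : ℤ) ^ a)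
    have h2 := Int.emod_add_mul_ediv y ((p : ℤ) ^ a)
    simp only at hxy
    rw [hx.2, hxy] at h1
    rw [hy.2] at h2
    exact h1.symm.trans h2

theorem NZP_uni (p : ℕ) (hp : p.Prime) (a k h e D : ℕ) (f : ℤ[X]) (hf : f.natDegree ≤ D)
    (j : ℕ) (hj : ¬ (p : ℤ) ^ k ∣ f.coeff j) (hh : k + a * D ≤ h) (hae : a ≤ e) :
    ((Finset.Ico (0 : ℤ) ((p : ℤ) ^ e)).filter fun x => (p : ℤ) ^ h ∣ f.eval x).card ≤
      D * p ^ (e - a) := by
  classical
  set R := (Finset.Ico (0 : ℤ) ((p : ℤ) ^ e)).filter fun x => (p : ℤ) ^ h ∣ f.eval x with hR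
  set I := R.image fun x => x % (p : ℤ) ^ a with hI
  have hIcard : I.card ≤ D := by
    by_contra hcon
    push Not at hcon
    have hrep : ∀ r : ℤ, ∃ x : ℤ, r ∈ I → x ∈ R ∧ x % (p : ℤ) ^ a = r := by
      intro r
      by_cases hr : r ∈ I
      · obtain ⟨x, hx, hxr⟩ := Finset.mem_image.1 hr
        exact ⟨x, fun _ => ⟨hx, hxr⟩⟩
      · exact ⟨0, fun h => absurd h hr⟩
    choose g hg using hrep
    have hinj : Set.InjOn g I := by
      intro r hr r' hr' hrr
      rw [← (hg r hr).2, ← (hg r' hr').2, hrr]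
    apply hj
    apply NZP_one p hp a k D f hf (I.image g)
    · rw [Finset.card_image_of_injOn hinj]
      exact hcon
    · intro x hx y hy hxy hdvd
      obtain ⟨r, hr, rfl⟩ := Finset.mem_image.1 hx
      obtain ⟨r', hr', rfl⟩ := Finset.mem_image.1 hy
      apply hxy
      have h1 : g r % (p : ℤ) ^ a = g r' % (p : ℤ) ^ a := (Int.modEq_iff_dvd.2 hdvd).symm
      rw [(hg r hr).2, (hg r' hr').2] at h1
      rw [h1]
    · intro x hx
      obtain ⟨r, hr, rfl⟩ := Finset.mem_image.1 hx
      have h1 := (hg r hr).1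
      rw [hR, Finset.mem_filter] at h1
      exact (pow_dvd_pow _ hh).trans h1.2
  have h2 : R.card ≤ p ^ (e - a) * I.card := by
    apply Finset.card_le_mul_card_image
    intro r _
    refine le_trans (Finset.card_le_card ?_) (NZP_fibre p hp a e hae r)
    intro x hx
    rw [Finset.mem_filter] at hx ⊢
    rw [hR, Finset.mem_filter] at hx
    exact ⟨hx.1.1, hx.2⟩
  calc R.card ≤ p ^ (e - a) * I.card := h2
    _ ≤ p ^ (e - a) * D := Nat.mul_le_mul_left _ hIcard
    _ = D * p ^ (e - a) := mul_comm _ _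

/-- the box -/
noncomputable def NZP_box (n : ℕ) (q : ℤ) : Finset (Fin n → ℤ) := Fintype.piFinset fun _ => Finset.Ico 0 q

theorem NZP_mem_box (n : ℕ) (q : ℤ) (x : Fin n → ℤ) :
    x ∈ NZP_box n q ↔ ∀ i, 0 ≤ x i ∧ x i < q := by
  unfold NZP_box
  simp [Fintype.mem_piFinset]

theorem NZP_card_box (n p e : ℕ) : (NZP_box n ((p : ℤ) ^ e)).card = (p ^ e) ^ n := by
  unfold NZP_box
  rw [Fintype.card_piFinset]
  have h : (Finset.Ico (0 : ℤ) ((p : ℤ) ^ e)).card = p ^ e := by
    rw [Int.card_Ico, sub_zero]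
    exact_mod_cast Int.toNat_natCast (p ^ e)
  simp [h]

theorem NZP_fin (p : ℕ) (hp : p.Prime) (n : ℕ) : ∀ F : MvPolynomial (Fin n) ℤ, F ≠ 0 →
    ∀ ε : ℝ, 0 < ε → ∃ h : ℕ, ∀ e : ℕ, h ≤ e →
      (((NZP_box n ((p : ℤ) ^ e)).filter
        fun x => (p : ℤ) ^ h ∣ MvPolynomial.eval x F).card : ℝ) ≤ ε * ((p : ℝ) ^ e) ^ n := by
  induction n with
  | zero =>
    intro F hF ε hε
    have hFC := MvPolynomial.eq_C_of_isEmpty F
    set c := MvPolynomial.coeff 0 F with hc
    have hc0 : c ≠ 0 := by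
      intro h
      apply hF
      rw [hFC, h, MvPolynomial.C_0]
    obtain ⟨h, hh⟩ : ∃ h : ℕ, ¬ (p : ℤ) ^ h ∣ c := by
      refine ⟨c.natAbs, fun hd => ?_⟩
      have h1 := Int.le_of_dvd (abs_pos.2 hc0) ((dvd_abs _ _).2 hd)
      have h2 : c.natAbs < p ^ c.natAbs := Nat.lt_pow_self hp.one_lt
      have h3 : (c.natAbs : ℤ) < (p : ℤ) ^ c.natAbs := by exact_mod_cast h2
      rw [Int.natCast_natAbs] at h3
      exact absurd h1 (not_le.2 (by rwa [← Int.natCast_natAbs] at h3 ⊢))
    refine ⟨h, fun e _ => ?_⟩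
    have h4 : (NZP_box 0 ((p : ℤ) ^ e)).filter
        (fun x => (p : ℤ) ^ h ∣ MvPolynomial.eval x F) = ∅ := by
      apply Finset.filter_eq_empty_iff.2
      intro x _
      rw [hFC, MvPolynomial.eval_C]
      exact hh
    rw [h4, Finset.card_empty, Nat.cast_zero]
    positivity
  | succ n ih =>
    intro F hF ε hε
    set P := MvPolynomial.finSuccEquiv ℤ n F with hP
    have hP0 : P ≠ 0 := by
      rw [hP]
      exact (map_ne_zero_iff _ (MvPolynomial.finSuccEquiv ℤ n).injective).2 hF
    have hlead : P.leadingCoeff ≠ 0 := Polynomial.leadingCoeff_ne_zero.2 hP0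
    set D := P.natDegree with hD
    obtain ⟨k, hk⟩ := ih P.leadingCoeff hlead (ε / 2) (half_pos hε)
    obtain ⟨a, ha⟩ : ∃ a : ℕ, (D : ℝ) ≤ ε / 2 * (p : ℝ) ^ a := by
      have hp1 : (1 : ℝ) < p := by exact_mod_cast hp.one_lt
      obtain ⟨a, ha⟩ := pow_unbounded_of_one_lt ((D : ℝ) / (ε / 2)) hp1
      refine ⟨a, ?_⟩
      rw [div_lt_iff₀ (half_pos hε)] at ha
      linarith
    refine ⟨k + a * (D + 1), fun e he => ?_⟩
    set h := k + a * (D + 1) with hh
    have hke : k ≤ e := by
      have : k ≤ h := Nat.le_add_right _ _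
      omega
    have hae : a ≤ e := by
      have h1 : a ≤ a * (D + 1) := Nat.le_mul_of_pos_right _ (Nat.succ_pos _)
      omega
    have hkh : k + a * D ≤ h := by
      rw [hh, mul_add, mul_one]
      omega
    set q := (p : ℤ) ^ e with hq
    set S := (NZP_box (n + 1) q).filter
      fun x => (p : ℤ) ^ h ∣ MvPolynomial.eval x F with hS
    set bad := (NZP_box n q).filter
      fun y => (p : ℤ) ^ k ∣ MvPolynomial.eval y P.leadingCoeff with hbad
    have hfib : ∀ y ∈ NZP_box n q, (S.filter fun x => Fin.tail x = y).card ≤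
        (if y ∈ bad then p ^ e else 0) + D * p ^ (e - a) := by
      intro y hy
      set fy := P.map (MvPolynomial.eval y) with hfy
      have hle : (S.filter fun x => Fin.tail x = y).card ≤
          ((Finset.Ico (0 : ℤ) q).filter fun t => (p : ℤ) ^ h ∣ fy.eval t).card := by
        apply Finset.card_le_card_of_injOn (fun x => x 0)
        · intro x hx
          rw [Finset.mem_coe, Finset.mem_filter, hS, Finset.mem_filter, NZP_mem_box] at hx
          rw [Finset.mem_coe, Finset.mem_filter, Finset.mem_Ico]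
          refine ⟨hx.1.1 0, ?_⟩
          have h1 := hx.1.2
          have h2 : x = Fin.cons (x 0) y := by
            rw [← hx.2]
            exact (Fin.cons_self_tail x).symm
          rw [h2, MvPolynomial.eval_eq_eval_mv_eval'] at h1
          exact h1
        · intro x hx x' hx' hxx
          rw [Finset.mem_coe, Finset.mem_filter] at hx hx'
          simp only at hxx
          rw [← Fin.cons_self_tail x, ← Fin.cons_self_tail x', hx.2, hx'.2, hxx]
      refine hle.trans ?_
      by_cases hyb : y ∈ bad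
      · rw [if_pos hyb]
        refine (Finset.card_filter_le _ _).trans ?_
        rw [Int.card_Ico, sub_zero, hq]
        have h5 : ((p : ℤ) ^ e).toNat = p ^ e := by
          exact_mod_cast Int.toNat_natCast (p ^ e)
        rw [h5]
        exact Nat.le_add_right _ _
      · rw [if_neg hyb, zero_add]
        apply NZP_uni p hp a k h e D fy
        · exact Polynomial.natDegree_map_le
        · intro hd
          apply hyb
          rw [hbad, Finset.mem_filter]
          refine ⟨hy, ?_⟩
          have h6 : fy.coeff D = MvPolynomial.eval y P.leadingCoeff := by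
            rw [hfy, Polynomial.coeff_map]
            rfl
          rw [← h6]
          exact hd
        · exact hkh
        · exact hae
    have hmaps : ∀ x ∈ S, Fin.tail x ∈ NZP_box n q := by
      intro x hx
      rw [hS, Finset.mem_filter, NZP_mem_box] at hx
      rw [NZP_mem_box]
      intro i
      exact hx.1 i.succ
    have hScard : S.card ≤ bad.card * p ^ e + (p ^ e) ^ n * (D * p ^ (e - a)) := by
      rw [Finset.card_eq_sum_card_fiberwise hmaps]
      refine (Finset.sum_le_sum hfib).trans ?_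
      rw [Finset.sum_add_distrib, Finset.sum_const, hq, NZP_card_box, smul_eq_mul]
      apply Nat.add_le_add_right
      rw [← Finset.sum_filter, Finset.sum_const, smul_eq_mul]
      apply Nat.mul_le_mul_right
      apply Finset.card_le_card
      intro y hy
      exact (Finset.mem_filter.1 hy).2
    have hk' := hk e hke
    have hcast : (S.card : ℝ) ≤ bad.card * (p : ℝ) ^ e +
        ((p : ℝ) ^ e) ^ n * (D * (p : ℝ) ^ (e - a)) := by exact_mod_cast hScard
    have hpe : (0 : ℝ) < (p : ℝ) ^ e := by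
      have : (0 : ℝ) < p := by exact_mod_cast hp.pos
      positivity
    have h7 : (bad.card : ℝ) * (p : ℝ) ^ e ≤ ε / 2 * ((p : ℝ) ^ e) ^ n * (p : ℝ) ^ e :=
      mul_le_mul_of_nonneg_right hk' hpe.le
    have h8 : (D : ℝ) * (p : ℝ) ^ (e - a) ≤ ε / 2 * (p : ℝ) ^ e := by
      have h9 : (p : ℝ) ^ e = (p : ℝ) ^ a * (p : ℝ) ^ (e - a) := by
        rw [← pow_add, Nat.add_sub_cancel' hae]
      rw [h9, ← mul_assoc]
      apply mul_le_mul_of_nonneg_right ha
      positivity
    have h10 : ((p : ℝ) ^ e) ^ n * (D * (p : ℝ) ^ (e - a)) ≤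
        ((p : ℝ) ^ e) ^ n * (ε / 2 * (p : ℝ) ^ e) := mul_le_mul_of_nonneg_left h8 (by positivity)
    calc (S.card : ℝ) ≤ bad.card * (p : ℝ) ^ e +
        ((p : ℝ) ^ e) ^ n * (D * (p : ℝ) ^ (e - a)) := hcast
      _ ≤ ε / 2 * ((p : ℝ) ^ e) ^ n * (p : ℝ) ^ e +
        ((p : ℝ) ^ e) ^ n * (ε / 2 * (p : ℝ) ^ e) := add_le_add h7 h10
      _ = ε * ((p : ℝ) ^ e) ^ (n + 1) := by ring

theorem p_NZP : Stmt_NZP := by
  intro ι _ F hF p hp ε hε
  classical
  let σ : ι ≃ Fin (Fintype.card ι) := Fintype.equivFin ι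
  have h1 : MvPolynomial.rename σ F ≠ 0 :=
    (map_ne_zero_iff _ (MvPolynomial.rename_injective σ σ.injective)).2 hF
  obtain ⟨h, hh⟩ := NZP_fin p hp _ (MvPolynomial.rename σ F) h1 ε hε
  refine ⟨h, fun e he => ?_⟩
  refine le_trans ?_ (hh e he)
  have h2 : Set.ncard {x : ι → ℤ | (∀ i, 0 ≤ x i ∧ x i < (p : ℤ) ^ e) ∧
      (p : ℤ) ^ h ∣ MvPolynomial.eval x F} ≤
      Set.ncard ((((NZP_box (Fintype.card ι) ((p : ℤ) ^ e)).filter
        fun x => (p : ℤ) ^ h ∣ MvPolynomial.eval x (MvPolynomial.rename σ F)) :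
          Finset _) : Set (Fin (Fintype.card ι) → ℤ)) := by
    apply Set.ncard_le_ncard_of_injOn (fun x => x ∘ σ.symm)
    · rintro x ⟨hx1, hx2⟩
      rw [Finset.mem_coe, Finset.mem_filter, NZP_mem_box]
      refine ⟨fun i => hx1 _, ?_⟩
      rw [MvPolynomial.eval_rename]
      have h3 : (x ∘ σ.symm) ∘ σ = x := by
        funext i
        simp
      rw [h3]
      exact hx2
    · intro x _ y _ hxy
      funext i
      have := congrFun hxy (σ i)
      simpa using this
  rw [Set.ncard_coe_finset] at h2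
  exact_mod_cast h2

end Pool.GLU
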