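import Pool.Agent.Work.MP_9fb703_gl.Interface

/-!
# Block NZR: a nonzero polynomial is rarely small, real version
-/

set_option autoImplicit false

namespace Pool.GLU

open Matrix Polynomial MeasureTheory

theorem NZR_null_fin (n : ℕ) : ∀ F : MvPolynomial (Fin n) ℝ, F ≠ 0 →
    volume {x : Fin n → ℝ | MvPolynomial.eval x F = 0} = 0 := by
  induction n with
  | zero =>
    intro F hF
    have h1 : {x : Fin 0 → ℝ | MvPolynomial.eval x F = 0} = ∅ := by
      ext x
      simp only [Set.mem_ofPred_eq, Set.mem_empty_iff_false, iff_false]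
      rw [MvPolynomial.eq_C_of_isEmpty F, MvPolynomial.eval_C]
      intro h
      apply hF
      rw [MvPolynomial.eq_C_of_isEmpty F, h, MvPolynomial.C_0]
    rw [h1, measure_empty]
  | succ n ih =>
    intro F hF
    set P := MvPolynomial.finSuccEquiv ℝ n F with hP
    have hP0 : P ≠ 0 := by
      rw [hP]
      exact (map_ne_zero_iff _ (MvPolynomial.finSuccEquiv ℝ n).injective).2 hF
    have hlead : P.leadingCoeff ≠ 0 := Polynomial.leadingCoeff_ne_zero.2 hP0
    have hnull := ih P.leadingCoeff hlead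
    let T : Set (ℝ × (Fin n → ℝ)) :=
      {z | MvPolynomial.eval (Fin.cons z.1 z.2 : Fin (n + 1) → ℝ) F = 0}
    have hcons : Continuous fun z : ℝ × (Fin n → ℝ) => (Fin.cons z.1 z.2 : Fin (n + 1) → ℝ) := by
      apply continuous_pi
      intro i
      refine Fin.cases ?_ (fun j => ?_) i
      · exact continuous_fst
      · exact (continuous_apply j).comp continuous_snd
    have hT : MeasurableSet T :=
      (isClosed_eq ((MvPolynomial.continuous_eval F).comp hcons) continuous_const).measurableSet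
    have hmp := volume_preserving_piFinSuccAbove (fun _ : Fin (n + 1) => ℝ) 0
    have hpre : (MeasurableEquiv.piFinSuccAbove (fun _ : Fin (n + 1) => ℝ) 0) ⁻¹' T =
        {x : Fin (n + 1) → ℝ | MvPolynomial.eval x F = 0} := by
      ext x
      have h2 : (Fin.cons (x 0) (fun j : Fin n => x j.succ) : Fin (n + 1) → ℝ) = x :=
        Fin.cons_self_tail x
      change MvPolynomial.eval (Fin.cons (x 0) (fun j : Fin n => x j.succ) : Fin (n + 1) → ℝ) F = 0
        ↔ MvPolynomial.eval x F = 0
      rw [h2]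
    rw [← hpre, hmp.measure_preimage hT.nullMeasurableSet]
    change (volume.prod volume) T = 0
    rw [Measure.prod_apply_symm hT]
    rw [lintegral_congr_ae (g := fun _ => 0), lintegral_zero]
    have hae : ∀ᵐ y : Fin n → ℝ, MvPolynomial.eval y P.leadingCoeff ≠ 0 := by
      rw [ae_iff]
      simp only [not_not]
      exact hnull
    filter_upwards [hae] with y hy
    apply Set.Finite.measure_zero
    have hpy : P.map (MvPolynomial.eval y) ≠ 0 := by
      intro h
      apply hy
      have h3 := congrArg (fun Q : Polynomial ℝ => Q.coeff P.natDegree) h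
      simp only [Polynomial.coeff_map, Polynomial.coeff_zero] at h3
      exact h3
    apply (P.map (MvPolynomial.eval y)).roots.toFinset.finite_toSet.subset
    intro t ht
    rw [Finset.mem_coe, Multiset.mem_toFinset, Polynomial.mem_roots hpy, Polynomial.IsRoot]
    have h4 : MvPolynomial.eval (Fin.cons t y : Fin (n + 1) → ℝ) F = 0 := ht
    rw [MvPolynomial.eval_eq_eval_mv_eval'] at h4
    exact h4

theorem NZR_null (ι : Type) [Fintype ι] (F : MvPolynomial ι ℝ) (hF : F ≠ 0) :
    volume {x : ι → ℝ | MvPolynomial.eval x F = 0} = 0 := by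
  let e : ι ≃ Fin (Fintype.card ι) := Fintype.equivFin ι
  have h1 : MvPolynomial.rename e F ≠ 0 :=
    (map_ne_zero_iff _ (MvPolynomial.rename_injective e e.injective)).2 hF
  have h2 := NZR_null_fin _ (MvPolynomial.rename e F) h1
  have hmp := volume_measurePreserving_piCongrLeft (fun _ : Fin (Fintype.card ι) => ℝ) e
  have hcl : MeasurableSet {x : Fin (Fintype.card ι) → ℝ |
      MvPolynomial.eval x (MvPolynomial.rename e F) = 0} :=
    (isClosed_eq (MvPolynomial.continuous_eval _) continuous_const).measurableSet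
  rw [← hmp.measure_preimage hcl.nullMeasurableSet] at h2
  rw [← h2]
  congr 1
  ext x
  have h3 : (MeasurableEquiv.piCongrLeft (fun _ : Fin (Fintype.card ι) => ℝ) e x) ∘ e = x := by
    funext i
    exact Equiv.piCongrLeft_apply_apply (fun _ : Fin (Fintype.card ι) => ℝ) e x i
  change MvPolynomial.eval x F = 0 ↔ MvPolynomial.eval
    (MeasurableEquiv.piCongrLeft (fun _ : Fin (Fintype.card ι) => ℝ) e x)
      (MvPolynomial.rename e F) = 0
  rw [MvPolynomial.eval_rename, h3]

theorem p_NZR (h1 : Stmt_LPT) : Stmt_NZR := by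
  intro ι _ F hF ε hε
  classical
  set G : MvPolynomial ι ℝ := MvPolynomial.map (Int.castRingHom ℝ) F with hG
  have hG0 : G ≠ 0 :=
    (map_ne_zero_iff _ (MvPolynomial.map_injective (Int.castRingHom ℝ) Int.cast_injective)).2 hF
  have haev : ∀ y : ι → ℝ, MvPolynomial.aeval y F = MvPolynomial.eval y G := by
    intro y
    rw [hG, MvPolynomial.eval_map]
    rfl
  let K : ℕ → Set (ι → ℝ) := fun k =>
    (Set.univ.pi fun _ => Set.Icc (-1 : ℝ) 1) ∩ {y | |MvPolynomial.eval y G| ≤ 1 / ((k : ℝ) + 1)}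
  have hKc : ∀ k, IsCompact (K k) := fun k =>
    (isCompact_univ_pi fun _ => isCompact_Icc).inter_right
      (isClosed_le (MvPolynomial.continuous_eval G).abs continuous_const)
  have hanti : Antitone K := by
    intro k l hkl y hy
    refine ⟨hy.1, ?_⟩
    have h2 : |MvPolynomial.eval y G| ≤ 1 / ((l : ℝ) + 1) := hy.2
    have h3 : 1 / ((l : ℝ) + 1) ≤ 1 / ((k : ℝ) + 1) := by
      apply one_div_le_one_div_of_le (by positivity)
      have : (k : ℝ) ≤ l := by exact_mod_cast hkl
      linarith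
    exact h2.trans h3
  have hinter : volume (⋂ k, K k) = 0 := by
    apply measure_mono_null _ (NZR_null ι G hG0)
    intro y hy
    rw [Set.mem_iInter] at hy
    have h2 : |MvPolynomial.eval y G| ≤ 0 := by
      apply ge_of_tendsto' tendsto_one_div_add_atTop_nhds_zero_nat
      intro k
      exact (hy k).2
    exact abs_nonpos_iff.1 h2
  have htend := tendsto_measure_iInter_atTop (μ := (volume : Measure (ι → ℝ)))
    (fun k => (hKc k).measurableSet.nullMeasurableSet) hanti ⟨0, (hKc 0).measure_lt_top.ne⟩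
  rw [hinter] at htend
  have hev := htend.eventually (gt_mem_nhds (ENNReal.ofReal_pos.2 (half_pos hε)))
  obtain ⟨k, hk⟩ := hev.exists
  have hk' : (volume (K k)).toReal ≤ ε / 2 := by
    apply ENNReal.toReal_le_of_le_ofReal (half_pos hε).le
    exact le_of_lt hk
  obtain ⟨B₀, hB₀⟩ := (h1 ι (fun _ => 1) (fun _ => 0) (fun _ => 2) (K k)
    (fun _ => one_pos) (fun _ => one_le_two)).1 (hKc k) (ε / 2) (half_pos hε)
  refine ⟨1 / ((k : ℝ) + 1), max B₀ 1, by positivity, ?_⟩
  intro B hB
  have hB1 : 1 ≤ B := (le_max_right _ _).trans hB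
  have hBpos : (0 : ℝ) < (B : ℝ) ^ 2 := by
    have : (0 : ℝ) < B := by exact_mod_cast hB1
    positivity
  have h2 := hB₀ B ((le_max_left _ _).trans hB)
  have hfin : {x : ι → ℤ | (∀ i, ((1 : ℕ) : ℤ) ∣ x i - 0) ∧
      (fun i => (x i : ℝ) / (B : ℝ) ^ 2) ∈ K k}.Finite := by
    apply (Set.Finite.pi' (t := fun _ : ι => Set.Icc (-((B : ℤ) ^ 2)) ((B : ℤ) ^ 2))
      fun _ => Set.finite_Icc _ _).subset
    rintro x ⟨-, hx, -⟩ i
    have h3 := hx i (Set.mem_univ i)
    simp only [Set.mem_Icc] at h3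
    rw [le_div_iff₀ hBpos, div_le_iff₀ hBpos] at h3
    constructor
    · have h4 : (-((B : ℤ) ^ 2 : ℤ) : ℝ) ≤ (x i : ℝ) := by
        push_cast
        linarith [h3.1]
      exact_mod_cast h4
    · have h4 : (x i : ℝ) ≤ (((B : ℤ) ^ 2 : ℤ) : ℝ) := by
        push_cast
        linarith [h3.2]
      exact_mod_cast h4
  have hsub : {x : ι → ℤ | (∀ i, |(x i : ℝ)| ≤ (B : ℝ) ^ 2) ∧
      |MvPolynomial.aeval (fun i => (x i : ℝ) / (B : ℝ) ^ 2) F| < 1 / ((k : ℝ) + 1)} ⊆
      {x : ι → ℤ | (∀ i, ((1 : ℕ) : ℤ) ∣ x i - 0) ∧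
      (fun i => (x i : ℝ) / (B : ℝ) ^ 2) ∈ K k} := by
    rintro x ⟨hx1, hx2⟩
    refine ⟨fun i => by simp, ?_, ?_⟩
    · intro i _
      rw [Set.mem_Icc, le_div_iff₀ hBpos, div_le_iff₀ hBpos]
      have h3 := abs_le.1 (hx1 i)
      constructor <;> linarith [h3.1, h3.2]
    · rw [haev] at hx2
      exact hx2.le
  have hcard := Set.ncard_le_ncard hsub hfin
  have hcard' : (Set.ncard {x : ι → ℤ | (∀ i, |(x i : ℝ)| ≤ (B : ℝ) ^ 2) ∧
      |MvPolynomial.aeval (fun i => (x i : ℝ) / (B : ℝ) ^ 2) F| < 1 / ((k : ℝ) + 1)} : ℝ) ≤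
      (Set.ncard {x : ι → ℤ | (∀ i, ((1 : ℕ) : ℤ) ∣ x i - 0) ∧
      (fun i => (x i : ℝ) / (B : ℝ) ^ 2) ∈ K k} : ℝ) := by exact_mod_cast hcard
  refine hcard'.trans ?_
  simp only [Nat.cast_one, Finset.prod_const_one, mul_one, Finset.sum_const, smul_eq_mul] at h2
  simp only [Nat.cast_one]
  refine h2.trans ?_
  have h5 : (Finset.univ : Finset ι).card * 2 = 2 * Fintype.card ι := by
    rw [Finset.card_univ, mul_comm]
  rw [h5]
  apply mul_le_mul_of_nonneg_right _ (by positivity)
  linarith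

end Pool.GLU
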