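import Pool.Agent.Work.MP_9fb703_gl.Interface

set_option autoImplicit false

namespace Pool.GLU

open Matrix Polynomial MeasureTheory

/-! ### Functoriality -/

theorem PAW_qv {n : ℕ} (b : Fin 2 → Matrix (Fin n) (Fin n) ℤ) {R S : Type} [CommRing R]
    [CommRing S] (φ : R →+* S) (x : Fin n → R) (i : Fin 2) :
    qv b (fun j => φ (x j)) i = φ (qv b x i) := by
  simp only [qv, dotProduct, mulVec, Matrix.map_apply, map_sum, map_mul, map_intCast]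

theorem PAW_jv {n : ℕ} (b : Fin 2 → Matrix (Fin n) (Fin n) ℤ) {R S : Type} [CommRing R]
    [CommRing S] (φ : R →+* S) (x : Fin n → R) (i : Fin 2) (k : Fin n) :
    jv b (fun j => φ (x j)) i k = φ (jv b x i k) := by
  simp only [jv, dotProduct, mulVec, Matrix.map_apply, map_sum, map_mul, map_intCast]

theorem PAW_mnr {n : ℕ} (b : Fin 2 → Matrix (Fin n) (Fin n) ℤ) {R S : Type} [CommRing R]
    [CommRing S] (φ : R →+* S) (x : Fin n → R) (k l : Fin n) :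
    mnr b (fun j => φ (x j)) k l = φ (mnr b x k l) := by
  simp only [mnr, PAW_jv, map_sub, map_mul]

/-! ### `p`-adic congruences -/

theorem PAW_phi (p : ℕ) [Fact p.Prime] (e : ℕ) (a b : ℤ_[p]) :
    (p : ℤ_[p]) ^ e ∣ a - b ↔ PadicInt.toZModPow e a = PadicInt.toZModPow e b := by
  rw [← Ideal.mem_span_singleton, ← PadicInt.ker_toZModPow, RingHom.sub_mem_ker_iff]

theorem PAW_cqv {n : ℕ} (b : Fin 2 → Matrix (Fin n) (Fin n) ℤ) (p : ℕ) [Fact p.Prime] (e : ℕ)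
    (X : Fin n → ℤ) (x' : Fin n → ℤ_[p])
    (hX : ∀ j, (p : ℤ_[p]) ^ e ∣ (X j : ℤ_[p]) - x' j) (i : Fin 2) :
    PadicInt.toZModPow e ((qv b X i : ℤ) : ℤ_[p]) = PadicInt.toZModPow e (qv b x' i) := by
  have h : (fun j => PadicInt.toZModPow e ((X j : ℤ) : ℤ_[p])) =
      fun j => PadicInt.toZModPow e (x' j) := funext (fun j => (PAW_phi p e _ _).mp (hX j))
  have h1 : ((qv b X i : ℤ) : ℤ_[p]) = qv b (fun j => ((X j : ℤ) : ℤ_[p])) i :=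
    (PAW_qv b (Int.castRingHom ℤ_[p]) X i).symm
  rw [← PAW_qv b (PadicInt.toZModPow e) x' i, ← h, h1]
  exact (PAW_qv b (PadicInt.toZModPow e) (fun j => ((X j : ℤ) : ℤ_[p])) i).symm

theorem PAW_cmnr {n : ℕ} (b : Fin 2 → Matrix (Fin n) (Fin n) ℤ) (p : ℕ) [Fact p.Prime] (e : ℕ)
    (X : Fin n → ℤ) (x' : Fin n → ℤ_[p])
    (hX : ∀ j, (p : ℤ_[p]) ^ e ∣ (X j : ℤ_[p]) - x' j) (k l : Fin n) :
    PadicInt.toZModPow e ((mnr b X k l : ℤ) : ℤ_[p]) = PadicInt.toZModPow e (mnr b x' k l) := by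
  have h : (fun j => PadicInt.toZModPow e ((X j : ℤ) : ℤ_[p])) =
      fun j => PadicInt.toZModPow e (x' j) := funext (fun j => (PAW_phi p e _ _).mp (hX j))
  have h1 : ((mnr b X k l : ℤ) : ℤ_[p]) = mnr b (fun j => ((X j : ℤ) : ℤ_[p])) k l :=
    (PAW_mnr b (Int.castRingHom ℤ_[p]) X k l).symm
  rw [← PAW_mnr b (PadicInt.toZModPow e) x' k l, ← h, h1]
  exact (PAW_mnr b (PadicInt.toZModPow e) (fun j => ((X j : ℤ) : ℤ_[p])) k l).symm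

theorem PAW_dvd (p : ℕ) [Fact p.Prime] (e : ℕ) (a : ℤ) :
    (p : ℤ_[p]) ^ e ∣ (a : ℤ_[p]) ↔ ((p ^ e : ℕ) : ℤ) ∣ a := by
  rw [PadicInt.pow_p_dvd_int_iff]
  push_cast
  exact Iff.rfl

theorem PAW_ndvd (p : ℕ) [Fact p.Prime] (e c₀ : ℕ) (he : c₀ ≤ e) (a : ℤ) (y : ℤ_[p])
    (h : PadicInt.toZModPow e ((a : ℤ) : ℤ_[p]) = PadicInt.toZModPow e y)
    (hy : ¬ (p : ℤ_[p]) ^ c₀ ∣ y) : ¬ ((p ^ c₀ : ℕ) : ℤ) ∣ a := by
  intro h1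
  apply hy
  have h2 := (PAW_phi p e _ _).mpr h
  have h3 : (p : ℤ_[p]) ^ c₀ ∣ (a : ℤ_[p]) - y := dvd_trans (pow_dvd_pow _ he) h2
  have h4 : (p : ℤ_[p]) ^ c₀ ∣ (a : ℤ_[p]) := (PAW_dvd p c₀ a).mpr h1
  have h5 := dvd_sub h4 h3
  rwa [sub_sub_cancel] at h5

theorem PAW_close {n : ℕ} (p : ℕ) [Fact p.Prime] (e N₁ : ℕ) (hN : N₁ ≤ e) (x x' : Fin n → ℤ_[p])
    (X : Fin n → ℤ) (hx : ∀ j, (p : ℤ_[p]) ^ N₁ ∣ x' j - x j)
    (hX : ∀ j, (p : ℤ_[p]) ^ e ∣ (X j : ℤ_[p]) - x' j) (j : Fin n) :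
    (p : ℤ_[p]) ^ N₁ ∣ (X j : ℤ_[p]) - x j := by
  have h1 := dvd_add (dvd_trans (pow_dvd_pow (p : ℤ_[p]) hN) (hX j)) (hx j)
  rwa [sub_add_sub_cancel] at h1

theorem PAW_unit {n : ℕ} (p : ℕ) [Fact p.Prime] (N₁ : ℕ) (hN1 : 1 ≤ N₁) (x : Fin n → ℤ_[p])
    (X : Fin n → ℤ) (hX : ∀ j, (p : ℤ_[p]) ^ N₁ ∣ (X j : ℤ_[p]) - x j) (hu : ∃ j, ‖x j‖ = 1) :
    ∃ j, ¬ (p : ℤ) ∣ X j := by
  obtain ⟨j, hj⟩ := hu
  refine ⟨j, fun h => ?_⟩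
  have h1 : (p : ℤ_[p]) ∣ (X j : ℤ_[p]) - x j :=
    dvd_trans (dvd_pow_self _ (by omega)) (hX j)
  have h2 : (p : ℤ_[p]) ∣ (X j : ℤ_[p]) := by
    obtain ⟨k, hk⟩ := h
    refine ⟨((k : ℤ) : ℤ_[p]), ?_⟩
    rw [hk]
    push_cast
    rfl
  have h3 := dvd_sub h2 h1
  rw [sub_sub_cancel] at h3
  have h4 := (PadicInt.norm_lt_one_iff_dvd (x j)).mpr h3
  rw [hj] at h4
  exact lt_irrefl _ h4

theorem PAW_local (b : Fin 2 → Matrix (Fin 4) (Fin 4) ℤ) (c : Fin 2 → Matrix (Fin 2) (Fin 2) ℤ)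
    (p : ℕ) [Fact p.Prime] (e c₀ N₁ : ℕ) (M : Matrix (Fin 2) (Fin 2) ℤ) (x x' : Fin 4 → ℤ_[p])
    (w w' : Fin 2 → ℤ_[p]) (X : Fin 4 → ℤ) (Y : Fin 2 → ℤ) (he : c₀ + 1 ≤ e) (hN : N₁ ≤ e)
    (hN1 : 1 ≤ N₁) (hz : Zer b c (M.map (Int.cast : ℤ → ℤ_[p])) x' w')
    (hm : ∃ k l, ¬ ((p : ℤ_[p]) ^ (c₀ + 1) ∣ mnr b x' k l))
    (hq : ∃ i, ¬ ((p : ℤ_[p]) ^ (c₀ + 1) ∣ qv c w' i))
    (hx : ∀ j, (p : ℤ_[p]) ^ N₁ ∣ x' j - x j) (hw : ∀ j, (p : ℤ_[p]) ^ N₁ ∣ w' j - w j)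
    (hu : (∃ j, ‖x j‖ = 1) ∨ ∃ j, ‖w j‖ = 1)
    (hX : ∀ j, (p : ℤ_[p]) ^ e ∣ (X j : ℤ_[p]) - x' j)
    (hY : ∀ j, (p : ℤ_[p]) ^ e ∣ (Y j : ℤ_[p]) - w' j) :
    (∀ i, ((p ^ e : ℕ) : ℤ) ∣ qv b X i - (M *ᵥ qv c Y) i) ∧
    (∃ k l, ¬ ((p ^ (c₀ + 1) : ℕ) : ℤ) ∣ mnr b X k l) ∧
    (∃ i, ¬ ((p ^ (c₀ + 1) : ℕ) : ℤ) ∣ qv c Y i) ∧
    ((∃ j, ¬ (p : ℤ) ∣ X j) ∨ ∃ j, ¬ (p : ℤ) ∣ Y j) ∧
    (∀ j, (p : ℤ_[p]) ^ N₁ ∣ (X j : ℤ_[p]) - x j) ∧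
    ∀ j, (p : ℤ_[p]) ^ N₁ ∣ (Y j : ℤ_[p]) - w j := by
  have hXx := PAW_close p e N₁ hN x x' X hx hX
  have hYw := PAW_close p e N₁ hN w w' Y hw hY
  refine ⟨fun i => ?_, ?_, ?_, ?_, hXx, hYw⟩
  · rw [← PAW_dvd, Int.cast_sub, PAW_phi, PAW_cqv b p e X x' hX i]
    have h1 : qv b x' i = ((M.map (Int.cast : ℤ → ℤ_[p])) *ᵥ qv c w') i := congrFun hz i
    rw [h1]
    simp only [mulVec, dotProduct, Matrix.map_apply, map_sum, map_mul, Int.cast_sum,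
      Int.cast_mul]
    refine Finset.sum_congr rfl (fun j _ => ?_)
    rw [PAW_cqv c p e Y w' hY j]
  · obtain ⟨k, l, hkl⟩ := hm
    exact ⟨k, l, PAW_ndvd p e (c₀ + 1) he _ _ (PAW_cmnr b p e X x' hX k l) hkl⟩
  · obtain ⟨i, hi⟩ := hq
    exact ⟨i, PAW_ndvd p e (c₀ + 1) he _ _ (PAW_cqv c p e Y w' hY i) hi⟩
  · rcases hu with hu | hu
    · exact Or.inl (PAW_unit p N₁ hN1 x X hXx hu)
    · exact Or.inr (PAW_unit p N₁ hN1 w Y hYw hu)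

/-! ### Regularity -/

theorem PAW_inv (p : ℕ) (hp : p.Prime) (c : ℕ) : ∀ d : ℤ, ¬ ((p ^ (c + 1) : ℕ) : ℤ) ∣ d →
    ∃ s : ℤ, ((p ^ (c + 1) : ℕ) : ℤ) ∣ d * s - ((p ^ c : ℕ) : ℤ) := by
  have key : ∀ d : ℤ, ¬ (p : ℤ) ∣ d → ∃ s : ℤ, (p : ℤ) ∣ d * s - 1 := by
    intro d hd
    have hco : IsCoprime (p : ℤ) d := (Prime.coprime_iff_not_dvd (Nat.prime_iff_prime_int.mp hp)).mpr hd
    obtain ⟨u, v, huv⟩ := hco
    refine ⟨v, -u, ?_⟩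
    linear_combination huv
  induction c with
  | zero =>
    intro d hd
    have hd' : ¬ (p : ℤ) ∣ d := by
      intro h
      apply hd
      rw [zero_add, pow_one]
      exact h
    obtain ⟨s, hs⟩ := key d hd'
    refine ⟨s, ?_⟩
    rw [zero_add, pow_one, pow_zero, Nat.cast_one]
    exact hs
  | succ c ih =>
    intro d hd
    by_cases h : (p : ℤ) ∣ d
    · obtain ⟨d', hd'⟩ := h
      have h1 : ¬ ((p ^ (c + 1) : ℕ) : ℤ) ∣ d' := by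
        intro h2
        apply hd
        rw [hd', pow_succ, mul_comm (p ^ (c + 1)) p]
        push_cast at h2 ⊢
        exact mul_dvd_mul (dvd_refl _) h2
      obtain ⟨s, t, hs⟩ := ih d' h1
      refine ⟨s, t, ?_⟩
      rw [hd']
      push_cast at hs ⊢
      have : (p : ℤ) * (d' * s - (p : ℤ) ^ c) = (p : ℤ) * ((p : ℤ) ^ (c + 1) * t) := by rw [hs]
      calc (p : ℤ) * d' * s - (p : ℤ) ^ (c + 1) = (p : ℤ) * (d' * s - (p : ℤ) ^ c) := by ring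
        _ = (p : ℤ) * ((p : ℤ) ^ (c + 1) * t) := this
        _ = (p : ℤ) ^ (c + 1 + 1) * t := by ring
    · obtain ⟨s, t, hs⟩ := key d h
      refine ⟨(p : ℤ) ^ (c + 1) * s, t, ?_⟩
      push_cast
      calc d * ((p : ℤ) ^ (c + 1) * s) - (p : ℤ) ^ (c + 1) = (p : ℤ) ^ (c + 1) * (d * s - 1) := by
            ring
        _ = (p : ℤ) ^ (c + 1) * ((p : ℤ) * t) := by rw [hs]
        _ = (p : ℤ) ^ (c + 1 + 1) * t := by ring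

theorem PAW_reg (b : Fin 2 → Matrix (Fin 4) (Fin 4) ℤ) (p c₀ m' : ℕ) (hp : p.Prime)
    (X : Fin 4 → ℤ) (hm : ∃ k l, ¬ ((p ^ (c₀ + 1) : ℕ) : ℤ) ∣ mnr b X k l) (ρ : Fin 2 → ℤ) :
    ∃ z : Fin 4 → ℤ, ∀ i, ((p ^ (c₀ + 1) * m' : ℕ) : ℤ) ∣
      jv b X i ⬝ᵥ z - ((p ^ c₀ * m' : ℕ) : ℤ) * ρ i := by
  obtain ⟨k, l, hkl⟩ := hm
  obtain ⟨s, t, hs⟩ := PAW_inv p hp c₀ _ hkl
  refine ⟨((m' : ℤ) * s) • (Pi.single k (jv b X 1 l * ρ 0 - jv b X 0 l * ρ 1) +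
    Pi.single l (jv b X 0 k * ρ 1 - jv b X 1 k * ρ 0)), ?_⟩
  intro i
  rw [dotProduct_smul, dotProduct_add, dotProduct_single, dotProduct_single, smul_eq_mul]
  have h1 : jv b X i k * (jv b X 1 l * ρ 0 - jv b X 0 l * ρ 1) +
      jv b X i l * (jv b X 0 k * ρ 1 - jv b X 1 k * ρ 0) = mnr b X k l * ρ i := by
    unfold mnr
    fin_cases i
    · simp only [Fin.zero_eta, Fin.isValue]
      ring
    · simp only [Fin.mk_one, Fin.isValue]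
      ring
  rw [h1]
  refine ⟨t * ρ i, ?_⟩
  push_cast at hs ⊢
  calc (m' : ℤ) * s * (mnr b X k l * ρ i) - (p : ℤ) ^ c₀ * (m' : ℤ) * ρ i =
      (m' : ℤ) * ρ i * (mnr b X k l * s - (p : ℤ) ^ c₀) := by ring
    _ = (m' : ℤ) * ρ i * ((p : ℤ) ^ (c₀ + 1) * t) := by rw [hs]
    _ = (p : ℤ) ^ (c₀ + 1) * (m' : ℤ) * (t * ρ i) := by ring

/-! ### Chinese remainder theorem -/

theorem PAW_crt (Ps : Finset ℕ) (hPs : ∀ p ∈ Ps, p.Prime) (e : ℕ → ℕ) (a : ℕ → ℕ) :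
    ∃ z : ℤ, ∀ p ∈ Ps, ((p ^ e p : ℕ) : ℤ) ∣ z - (a p : ℤ) := by
  have h1 : ∀ i ∈ Ps, (fun p => p ^ e p) i ≠ 0 := fun i hi =>
    pow_ne_zero _ (hPs i hi).ne_zero
  have h2 : Set.Pairwise (Ps : Set ℕ) (Function.onFun Nat.Coprime (fun p => p ^ e p)) := by
    intro p hp q hq hpq
    exact Nat.Coprime.pow _ _ ((Nat.coprime_primes (hPs p hp) (hPs q hq)).mpr hpq)
  obtain ⟨k, hk⟩ := Nat.chineseRemainderOfFinset a (fun p => p ^ e p) Ps h1 h2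
  refine ⟨(k : ℤ), fun p hp => ?_⟩
  have h3 := hk p hp
  exact (Nat.modEq_iff_dvd.mp h3.symm)

/-! ### Counting -/

theorem PAW_eval {ι : Type} (F : MvPolynomial ι ℤ) (q : ℕ) (x y : ι → ℤ)
    (h : ∀ i, (q : ℤ) ∣ x i - y i) (hx : (q : ℤ) ∣ MvPolynomial.eval x F) :
    (q : ℤ) ∣ MvPolynomial.eval y F := by
  have key : ∀ z : ι → ℤ, ((MvPolynomial.eval z F : ℤ) : ZMod q) =
      MvPolynomial.eval₂ (Int.castRingHom (ZMod q)) (fun i => ((z i : ℤ) : ZMod q)) F := by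
    intro z
    have h1 := MvPolynomial.eval₂_comp_left (Int.castRingHom (ZMod q)) (RingHom.id ℤ) z F
    exact h1
  have h2 : (fun i => ((x i : ℤ) : ZMod q)) = fun i => ((y i : ℤ) : ZMod q) := by
    funext i
    rw [← sub_eq_zero, ← Int.cast_sub, ZMod.intCast_zmod_eq_zero_iff_dvd]
    exact h i
  rw [← ZMod.intCast_zmod_eq_zero_iff_dvd] at hx ⊢
  rw [key] at hx ⊢
  rw [← h2]
  exact hx

theorem PAW_box {ι : Type} [Fintype ι] (n : ℕ) :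
    {y : ι → ℤ | ∀ i, 0 ≤ y i ∧ y i < (n : ℤ)}.Finite ∧
    {y : ι → ℤ | ∀ i, 0 ≤ y i ∧ y i < (n : ℤ)}.ncard = n ^ Fintype.card ι := by
  classical
  have h1 : {y : ι → ℤ | ∀ i, 0 ≤ y i ∧ y i < (n : ℤ)} =
      ((Fintype.piFinset (fun _ : ι => Finset.Ico (0 : ℤ) (n : ℤ)) : Finset (ι → ℤ)) :
        Set (ι → ℤ)) := by
    ext y
    simp only [Set.mem_ofPred_eq, Finset.mem_coe, Fintype.mem_piFinset, Finset.mem_Ico]
  rw [h1]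
  refine ⟨Finset.finite_toSet _, ?_⟩
  rw [Set.ncard_coe_finset, Fintype.card_piFinset, Finset.prod_const, Finset.card_univ,
    Int.card_Ico, sub_zero, Int.toNat_natCast]

theorem PAW_count (F : MvPolynomial (Fin 2 × Fin 2) ℤ) (p h e k : ℕ) (hp : 0 < p) (hhe : h ≤ e)
    (ε : ℝ)
    (hb : (Set.ncard {x : Fin 2 × Fin 2 → ℤ | (∀ i, 0 ≤ x i ∧ x i < (p : ℤ) ^ e) ∧
        (p : ℤ) ^ h ∣ MvPolynomial.eval x F} : ℝ) ≤
        ε * ((p : ℝ) ^ e) ^ Fintype.card (Fin 2 × Fin 2)) :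
    (Set.ncard {M : Matrix (Fin 2) (Fin 2) ℤ |
      (p : ℤ) ^ h ∣ MvPolynomial.eval (fun z : Fin 2 × Fin 2 => M z.1 z.2) F ∧
      ∀ i j, 0 ≤ M i j ∧ M i j < ((p ^ e * k : ℕ) : ℤ)} : ℝ) ≤ ε * ((p ^ e * k : ℕ) : ℝ) ^ 4 := by
  have hn : 0 < ((p ^ e : ℕ) : ℤ) := by exact_mod_cast pow_pos hp e
  have hTfin : {x : Fin 2 × Fin 2 → ℤ | (∀ i, 0 ≤ x i ∧ x i < (p : ℤ) ^ e) ∧
        (p : ℤ) ^ h ∣ MvPolynomial.eval x F}.Finite := by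
    have h1 := (PAW_box (ι := Fin 2 × Fin 2) (p ^ e)).1
    push_cast at h1
    exact h1.subset (fun x hx => hx.1)
  have hle : Set.ncard {M : Matrix (Fin 2) (Fin 2) ℤ |
      (p : ℤ) ^ h ∣ MvPolynomial.eval (fun z : Fin 2 × Fin 2 => M z.1 z.2) F ∧
      ∀ i j, 0 ≤ M i j ∧ M i j < ((p ^ e * k : ℕ) : ℤ)} ≤
      Set.ncard ({x : Fin 2 × Fin 2 → ℤ | (∀ i, 0 ≤ x i ∧ x i < (p : ℤ) ^ e) ∧
        (p : ℤ) ^ h ∣ MvPolynomial.eval x F} ×ˢ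
        {y : Fin 2 × Fin 2 → ℤ | ∀ i, 0 ≤ y i ∧ y i < (k : ℤ)}) := by
    refine Set.ncard_le_ncard_of_injOn
      (fun M : Matrix (Fin 2) (Fin 2) ℤ => ((fun z : Fin 2 × Fin 2 => M z.1 z.2 % ((p ^ e : ℕ) : ℤ)),
        (fun z : Fin 2 × Fin 2 => M z.1 z.2 / ((p ^ e : ℕ) : ℤ)))) ?_ ?_
      (hTfin.prod (PAW_box (ι := Fin 2 × Fin 2) k).1)
    · rintro M ⟨hM1, hM2⟩
      refine Set.mem_prod.mpr ⟨⟨fun z => ⟨Int.emod_nonneg _ hn.ne', ?_⟩, ?_⟩, fun z => ⟨?_, ?_⟩⟩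
      · have := Int.emod_lt_of_pos (M z.1 z.2) hn
        push_cast at this ⊢
        exact this
      · have hq : (((p ^ h : ℕ) : ℕ) : ℤ) ∣
            MvPolynomial.eval (fun z : Fin 2 × Fin 2 => M z.1 z.2) F := by
          push_cast
          exact hM1
        have h2 := PAW_eval F (p ^ h) (fun z : Fin 2 × Fin 2 => M z.1 z.2)
          (fun z : Fin 2 × Fin 2 => M z.1 z.2 % ((p ^ e : ℕ) : ℤ)) (fun z => ?_) hq
        · push_cast at h2 ⊢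
          exact h2
        · have h3 : ((p ^ e : ℕ) : ℤ) ∣ M z.1 z.2 - M z.1 z.2 % ((p ^ e : ℕ) : ℤ) :=
            Int.dvd_self_sub_emod
          refine dvd_trans ?_ h3
          exact_mod_cast pow_dvd_pow p hhe
      · exact Int.ediv_nonneg (hM2 z.1 z.2).1 hn.le
      · have h1 := (hM2 z.1 z.2).2
        apply Int.ediv_lt_of_lt_mul hn
        push_cast at h1 ⊢
        linarith
    · intro M _ M' _ hMM
      have h1 := congrArg Prod.fst hMM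
      have h2 := congrArg Prod.snd hMM
      ext i j
      have h3 : M i j % ((p ^ e : ℕ) : ℤ) = M' i j % ((p ^ e : ℕ) : ℤ) := congrFun h1 (i, j)
      have h4 : M i j / ((p ^ e : ℕ) : ℤ) = M' i j / ((p ^ e : ℕ) : ℤ) := congrFun h2 (i, j)
      rw [← Int.emod_add_mul_ediv (M i j) ((p ^ e : ℕ) : ℤ),
        ← Int.emod_add_mul_ediv (M' i j) ((p ^ e : ℕ) : ℤ), h3, h4]
  rw [Set.ncard_prod, (PAW_box (ι := Fin 2 × Fin 2) k).2] at hle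
  have hcard : Fintype.card (Fin 2 × Fin 2) = 4 := by simp
  rw [hcard] at hle hb
  have h5 : (Set.ncard {M : Matrix (Fin 2) (Fin 2) ℤ |
      (p : ℤ) ^ h ∣ MvPolynomial.eval (fun z : Fin 2 × Fin 2 => M z.1 z.2) F ∧
      ∀ i j, 0 ≤ M i j ∧ M i j < ((p ^ e * k : ℕ) : ℤ)} : ℝ) ≤
      (Set.ncard {x : Fin 2 × Fin 2 → ℤ | (∀ i, 0 ≤ x i ∧ x i < (p : ℤ) ^ e) ∧
        (p : ℤ) ^ h ∣ MvPolynomial.eval x F} : ℝ) * (k : ℝ) ^ 4 := by exact_mod_cast hle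
  refine le_trans h5 (le_trans (mul_le_mul_of_nonneg_right hb (by positivity)) (le_of_eq ?_))
  push_cast
  ring

/-! ### The data -/

theorem PAW_Dl (b : Fin 2 → Matrix (Fin 4) (Fin 4) ℤ) (c : Fin 2 → Matrix (Fin 2) (Fin 2) ℤ)
    (F : MvPolynomial (Fin 2 × Fin 2) ℤ)
    (hF : ∀ (R : Type) [CommRing R] (M : Matrix (Fin 2) (Fin 2) R),
        MvPolynomial.aeval (fun z : Fin 2 × Fin 2 => M z.1 z.2) F = Dl b c M)
    (M : Matrix (Fin 2) (Fin 2) ℤ) :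
    MvPolynomial.eval (fun z : Fin 2 × Fin 2 => M z.1 z.2) F = Dl b c M ∧
    ∀ (p : ℕ) [Fact p.Prime], ((Dl b c M : ℤ) : ℤ_[p]) =
      Dl b c (M.map (Int.cast : ℤ → ℤ_[p])) := by
  have h0 : MvPolynomial.eval (fun z : Fin 2 × Fin 2 => M z.1 z.2) F = Dl b c M := by
    rw [← hF ℤ M]
    rfl
  refine ⟨h0, ?_⟩
  intro p _
  rw [← hF ℤ_[p] (M.map (Int.cast : ℤ → ℤ_[p])), ← h0]
  exact MvPolynomial.eval₂_comp_left (Int.castRingHom ℤ_[p]) (RingHom.id ℤ)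
    (fun z : Fin 2 × Fin 2 => M z.1 z.2) F

theorem PAW_appr (p : ℕ) [Fact p.Prime] (e : ℕ) (y : ℤ_[p]) (z : ℤ)
    (h : ((p ^ e : ℕ) : ℤ) ∣ z - (PadicInt.appr y e : ℤ)) :
    (p : ℤ_[p]) ^ e ∣ (z : ℤ_[p]) - y := by
  have h1 : (p : ℤ_[p]) ^ e ∣ ((z - (PadicInt.appr y e : ℤ) : ℤ) : ℤ_[p]) :=
    (PAW_dvd p e _).mpr h
  have h2 := Ideal.mem_span_singleton.mp (PadicInt.appr_spec e y)
  have h3 := dvd_sub h1 h2
  push_cast at h3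
  have h4 : (z : ℤ_[p]) - (PadicInt.appr y e : ℤ_[p]) - (y - (PadicInt.appr y e : ℤ_[p])) =
      (z : ℤ_[p]) - y := by ring
  rwa [h4] at h3

theorem p_PAW (hUNP : Stmt_UNP) (hNZP : Stmt_NZP) (hDNZ : Stmt_DNZ) (hCOI : Stmt_COI) :
    Stmt_PAW := by
  intro b c hb hc N P₀ ε hε
  obtain ⟨F, hF0, hF⟩ := hDNZ b c hb hc
  have hε' : 0 < ε / ((P₀ : ℝ) + 1) := by positivity
  -- the exponents
  have hH : ∀ p : ℕ, ∃ h : ℕ, p.Prime → ∀ e : ℕ, h ≤ e →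
      (Set.ncard {x : Fin 2 × Fin 2 → ℤ | (∀ i, 0 ≤ x i ∧ x i < (p : ℤ) ^ e) ∧
        (p : ℤ) ^ h ∣ MvPolynomial.eval x F} : ℝ) ≤
        ε / ((P₀ : ℝ) + 1) * ((p : ℝ) ^ e) ^ Fintype.card (Fin 2 × Fin 2) := by
    intro p
    by_cases hp : p.Prime
    · obtain ⟨h, hh⟩ := hNZP (Fin 2 × Fin 2) F hF0 p hp _ hε'
      exact ⟨h, fun _ => hh⟩
    · exact ⟨0, fun h => absurd h hp⟩
  choose h hh using hH
  have hC : ∀ p : ℕ, ∃ c₀ : ℕ, ∀ [Fact p.Prime],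
    ∀ (M : Matrix (Fin 2) (Fin 2) ℤ_[p]) (x : Fin 4 → ℤ_[p]) (w : Fin 2 → ℤ_[p]),
      ¬ ((p : ℤ_[p]) ^ (h p) ∣ Dl b c M) → Zer b c M x w → ((∃ j, ‖x j‖ = 1) ∨ ∃ j, ‖w j‖ = 1) →
      ∃ (x' : Fin 4 → ℤ_[p]) (w' : Fin 2 → ℤ_[p]), Zer b c M x' w' ∧
        (∃ k l, ¬ ((p : ℤ_[p]) ^ (c₀ + 1) ∣ mnr b x' k l)) ∧
        (∃ i, ¬ ((p : ℤ_[p]) ^ (c₀ + 1) ∣ qv c w' i)) ∧
        (∀ j, (p : ℤ_[p]) ^ (max N 1) ∣ x' j - x j) ∧
          ∀ j, (p : ℤ_[p]) ^ (max N 1) ∣ w' j - w j := by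
    intro p
    by_cases hp : p.Prime
    · haveI := Fact.mk hp
      obtain ⟨c₀, hc₀⟩ := hUNP b c hb hc p (h p) (max N 1)
      exact ⟨c₀, hc₀⟩
    · exact ⟨0, fun {inst} => absurd inst.out hp⟩
  choose c₀ hc₀ using hC
  -- the primes and the moduli
  set Ps : Finset ℕ := (Finset.range (P₀ + 1)).filter Nat.Prime with hPs
  have hPsp : ∀ p ∈ Ps, p.Prime := fun p hp => (Finset.mem_filter.mp hp).2
  have hPsle : ∀ p ∈ Ps, p ≤ P₀ := fun p hp => by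
    have := Finset.mem_range.mp (Finset.mem_filter.mp hp).1
    omega
  have hPsmem : ∀ p : ℕ, p.Prime → p ≤ P₀ → p ∈ Ps := fun p hp hle =>
    Finset.mem_filter.mpr ⟨Finset.mem_range.mpr (by omega), hp⟩
  set m : ℕ := ∏ p ∈ Ps, p ^ (c₀ p) with hm
  set V' : ℕ := ∏ p ∈ Ps, p ^ (max N 1 + h p + 2) with hV
  set e : ℕ → ℕ := fun p => 2 * c₀ p + (max N 1 + h p + 2) with he
  have hW : m ^ 2 * V' = ∏ p ∈ Ps, p ^ (e p) := by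
    rw [hm, hV, ← Finset.prod_pow, ← Finset.prod_mul_distrib]
    refine Finset.prod_congr rfl (fun p _ => ?_)
    rw [he, ← pow_mul, ← pow_add]
    congr 1
    ring
  have hm0 : 0 < m := Finset.prod_pos (fun p hp => pow_pos (hPsp p hp).pos _)
  have hV0 : 0 < V' := Finset.prod_pos (fun p hp => pow_pos (hPsp p hp).pos _)
  have hWpos : m ^ 2 * V' ≠ 0 := by positivity
  have hNV : ∀ p : ℕ, p.Prime → p ≤ P₀ → p ^ (max N 1 + h p + 2) ∣ V' := fun p hp hle =>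
    Finset.dvd_prod_of_mem (fun p => p ^ (max N 1 + h p + 2)) (hPsmem p hp hle)
  have heW : ∀ p : ℕ, p ∈ Ps → p ^ (e p) ∣ m ^ 2 * V' := fun p hp => by
    rw [hW]
    exact Finset.dvd_prod_of_mem (fun p => p ^ (e p)) hp
  have honly : ∀ p : ℕ, p.Prime → p ∣ m * V' → p ∈ Ps := by
    intro p hp hd
    have hpp : Prime p := Nat.prime_iff.mp hp
    rcases (Nat.Prime.dvd_mul hp).mp hd with h1 | h1
    · obtain ⟨q, hq, hpq⟩ := (Prime.dvd_finset_prod_iff hpp _).mp h1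
      have h2 := (Nat.prime_dvd_prime_iff_eq hp (hPsp q hq)).mp (hp.dvd_of_dvd_pow hpq)
      rw [h2]
      exact hq
    · obtain ⟨q, hq, hpq⟩ := (Prime.dvd_finset_prod_iff hpp _).mp h1
      have h2 := (Nat.prime_dvd_prime_iff_eq hp (hPsp q hq)).mp (hp.dvd_of_dvd_pow hpq)
      rw [h2]
      exact hq
  refine ⟨m, V', {M | ∃ p ∈ Ps, (p : ℤ) ^ (h p) ∣
      MvPolynomial.eval (fun z : Fin 2 × Fin 2 => M z.1 z.2) F}, hm0, hV0, ?_, ?_, ?_, ?_⟩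
  · intro p hp hle
    refine dvd_trans ?_ (dvd_mul_of_dvd_right (hNV p hp hle) m)
    exact pow_dvd_pow p (by have := le_max_left N 1; omega)
  · intro M M' hMM hM
    obtain ⟨p, hp, hd⟩ := hM
    refine ⟨p, hp, ?_⟩
    have h1 := PAW_eval F (p ^ (h p)) (fun z : Fin 2 × Fin 2 => M z.1 z.2)
      (fun z : Fin 2 × Fin 2 => M' z.1 z.2) (fun z => ?_) (by push_cast; exact hd)
    · push_cast at h1
      exact h1
    · refine dvd_trans ?_ (hMM z.1 z.2)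
      have h2 : p ^ (h p) ∣ m ^ 2 * V' := dvd_trans (pow_dvd_pow p (by rw [he]; dsimp only; omega))
        (heW p hp)
      exact_mod_cast h2
  · -- the number of the bad matrices
    have h1 : {M : Matrix (Fin 2) (Fin 2) ℤ | M ∈ {M : Matrix (Fin 2) (Fin 2) ℤ | ∃ p ∈ Ps,
        (p : ℤ) ^ (h p) ∣ MvPolynomial.eval (fun z : Fin 2 × Fin 2 => M z.1 z.2) F} ∧
        ∀ i j, 0 ≤ M i j ∧ M i j < ((m ^ 2 * V' : ℕ) : ℤ)} =
        ⋃ p ∈ Ps, {M : Matrix (Fin 2) (Fin 2) ℤ | (p : ℤ) ^ (h p) ∣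
          MvPolynomial.eval (fun z : Fin 2 × Fin 2 => M z.1 z.2) F ∧
          ∀ i j, 0 ≤ M i j ∧ M i j < ((m ^ 2 * V' : ℕ) : ℤ)} := by
      ext M
      simp only [Set.mem_iUnion, Set.mem_ofPred_eq, exists_prop]
      constructor
      · rintro ⟨⟨p, hp, hd⟩, hbx⟩
        exact ⟨p, hp, hd, hbx⟩
      · rintro ⟨p, hp, hd, hbx⟩
        exact ⟨⟨p, hp, hd⟩, hbx⟩
    rw [h1]
    have h2 : (∑ p ∈ Ps, (Set.ncard {M : Matrix (Fin 2) (Fin 2) ℤ | (p : ℤ) ^ (h p) ∣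
          MvPolynomial.eval (fun z : Fin 2 × Fin 2 => M z.1 z.2) F ∧
          ∀ i j, 0 ≤ M i j ∧ M i j < ((m ^ 2 * V' : ℕ) : ℤ)} : ℝ)) ≤
        ∑ p ∈ Ps, ε / ((P₀ : ℝ) + 1) * ((m ^ 2 * V' : ℕ) : ℝ) ^ 4 := by
      refine Finset.sum_le_sum (fun p hp => ?_)
      obtain ⟨k, hk⟩ := heW p hp
      rw [hk]
      have hhe : h p ≤ e p := by
        rw [he]
        dsimp only
        omega
      exact PAW_count F p (h p) (e p) k (hPsp p hp).pos hhe _ (hh p (hPsp p hp) (e p) hhe)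
    have h3 : (Ps.card : ℝ) ≤ (P₀ : ℝ) + 1 := by
      have h4 : Ps.card ≤ P₀ + 1 := by
        have := Finset.card_filter_le (Finset.range (P₀ + 1)) Nat.Prime
        rw [Finset.card_range] at this
        exact this
      exact_mod_cast h4
    have h5 := Finset.set_ncard_biUnion_le Ps (fun p => {M : Matrix (Fin 2) (Fin 2) ℤ |
      (p : ℤ) ^ (h p) ∣ MvPolynomial.eval (fun z : Fin 2 × Fin 2 => M z.1 z.2) F ∧
      ∀ i j, 0 ≤ M i j ∧ M i j < ((m ^ 2 * V' : ℕ) : ℤ)})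
    have h6 : ((⋃ p ∈ Ps, {M : Matrix (Fin 2) (Fin 2) ℤ | (p : ℤ) ^ (h p) ∣
          MvPolynomial.eval (fun z : Fin 2 × Fin 2 => M z.1 z.2) F ∧
          ∀ i j, 0 ≤ M i j ∧ M i j < ((m ^ 2 * V' : ℕ) : ℤ)}).ncard : ℝ) ≤
        ∑ p ∈ Ps, (Set.ncard {M : Matrix (Fin 2) (Fin 2) ℤ | (p : ℤ) ^ (h p) ∣
          MvPolynomial.eval (fun z : Fin 2 × Fin 2 => M z.1 z.2) F ∧
          ∀ i j, 0 ≤ M i j ∧ M i j < ((m ^ 2 * V' : ℕ) : ℤ)} : ℝ) := by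
      exact_mod_cast h5
    refine le_trans h6 (le_trans h2 ?_)
    rw [Finset.sum_const, nsmul_eq_mul]
    have h7 : (Ps.card : ℝ) * (ε / ((P₀ : ℝ) + 1)) ≤ ε := by
      have h8 : (Ps.card : ℝ) * (ε / ((P₀ : ℝ) + 1)) ≤
          ((P₀ : ℝ) + 1) * (ε / ((P₀ : ℝ) + 1)) := mul_le_mul_of_nonneg_right h3 hε'.le
      have h9 : ((P₀ : ℝ) + 1) * (ε / ((P₀ : ℝ) + 1)) = ε := by field_simp
      rw [h9] at h8
      exact h8
    calc (Ps.card : ℝ) * (ε / ((P₀ : ℝ) + 1) * ((m ^ 2 * V' : ℕ) : ℝ) ^ 4) =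
        ((Ps.card : ℝ) * (ε / ((P₀ : ℝ) + 1))) * ((m ^ 2 * V' : ℕ) : ℝ) ^ 4 := by ring
      _ ≤ ε * ((m ^ 2 * V' : ℕ) : ℝ) ^ 4 := mul_le_mul_of_nonneg_right h7 (by positivity)
  · -- the local data
    intro M hM x w hxw
    have hloc : ∀ p : ℕ, ∃ (a : Fin 4 → ℕ) (a' : Fin 2 → ℕ), p ∈ Ps →
        ∀ (X : Fin 4 → ℤ) (Y : Fin 2 → ℤ), (∀ j, ((p ^ e p : ℕ) : ℤ) ∣ X j - (a j : ℤ)) →
          (∀ j, ((p ^ e p : ℕ) : ℤ) ∣ Y j - (a' j : ℤ)) →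
          (∀ i, ((p ^ e p : ℕ) : ℤ) ∣ qv b X i - (M *ᵥ qv c Y) i) ∧
          (∃ k l, ¬ ((p ^ (c₀ p + 1) : ℕ) : ℤ) ∣ mnr b X k l) ∧
          (∃ i, ¬ ((p ^ (c₀ p + 1) : ℕ) : ℤ) ∣ qv c Y i) ∧
          ((∃ j, ¬ (p : ℤ) ∣ X j) ∨ ∃ j, ¬ (p : ℤ) ∣ Y j) ∧
          ∀ [Fact p.Prime], (∀ j, (p : ℤ_[p]) ^ (max N 1) ∣ (X j : ℤ_[p]) - x p j) ∧
            ∀ j, (p : ℤ_[p]) ^ (max N 1) ∣ (Y j : ℤ_[p]) - w p j := by
      intro p
      by_cases hp : p ∈ Ps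
      · haveI := Fact.mk (hPsp p hp)
        obtain ⟨hunit, hzer⟩ := hxw p (hPsle p hp)
        have hnd : ¬ ((p : ℤ_[p]) ^ (h p) ∣ Dl b c (M.map (Int.cast : ℤ → ℤ_[p]))) := by
          rw [← (PAW_Dl b c F hF M).2 p, PAW_dvd]
          intro hd
          apply hM
          refine ⟨p, hp, ?_⟩
          rw [(PAW_Dl b c F hF M).1]
          push_cast at hd
          exact hd
        obtain ⟨x', w', hz', hm', hq', hx', hw'⟩ := hc₀ p (M.map (Int.cast : ℤ → ℤ_[p])) (x p) (w p)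
          hnd hzer hunit
        refine ⟨fun j => PadicInt.appr (x' j) (e p), fun j => PadicInt.appr (w' j) (e p),
          fun _ X Y hX hY => ?_⟩
        obtain ⟨r1, r2, r3, r4, r5, r6⟩ := PAW_local b c p (e p) (c₀ p) (max N 1) M (x p) x' (w p)
          w' X Y (by rw [he]; dsimp only; omega) (by rw [he]; dsimp only; omega)
          (le_max_right _ _) hz' hm' hq' hx' hw' hunit
          (fun j => PAW_appr p (e p) (x' j) (X j) (hX j))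
          (fun j => PAW_appr p (e p) (w' j) (Y j) (hY j))
        exact ⟨r1, r2, r3, r4, fun {_} => ⟨r5, r6⟩⟩
      · exact ⟨fun _ => 0, fun _ => 0, fun hp' => absurd hp' hp⟩
    choose a a' haa using hloc
    have hX : ∀ j : Fin 4, ∃ z : ℤ, ∀ p ∈ Ps, ((p ^ e p : ℕ) : ℤ) ∣ z - (a p j : ℤ) :=
      fun j => PAW_crt Ps hPsp e (fun p => a p j)
    have hY : ∀ j : Fin 2, ∃ z : ℤ, ∀ p ∈ Ps, ((p ^ e p : ℕ) : ℤ) ∣ z - (a' p j : ℤ) :=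
      fun j => PAW_crt Ps hPsp e (fun p => a' p j)
    choose x₀ hx₀ using hX
    choose w₀ hw₀ using hY
    have hall : ∀ p ∈ Ps, _ := fun p hp =>
      haa p hp x₀ w₀ (fun j => hx₀ j p hp) (fun j => hw₀ j p hp)
    refine ⟨x₀, w₀, ⟨hm0, hV0, ?_, ?_, ?_, ?_, ?_, ?_⟩, ?_⟩
    · intro p hp hle
      refine dvd_trans (dvd_pow_self p ?_) (hNV p hp hle)
      omega
    · intro p hp hd
      exact hPsle p (honly p hp hd)
    · -- Reg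
      intro p hp hd ρ
      have hpPs : p ∈ Ps := honly p hp (dvd_mul_of_dvd_right hd m)
      obtain ⟨-, h2, -⟩ := hall p hpPs
      obtain ⟨z, hz⟩ := PAW_reg b p (c₀ p) (∏ q ∈ Ps.erase p, q ^ (c₀ q)) hp x₀ h2 ρ
      have h3 : p ^ (c₀ p) * ∏ q ∈ Ps.erase p, q ^ (c₀ q) = m := by
        rw [hm]
        exact Finset.mul_prod_erase Ps (fun q => q ^ (c₀ q)) hpPs
      have h4 : p ^ (c₀ p + 1) * ∏ q ∈ Ps.erase p, q ^ (c₀ q) = m * p := by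
        rw [← h3, pow_succ]
        ring
      refine ⟨z, fun i => ?_⟩
      have h5 := hz i
      rw [h3, h4] at h5
      exact h5
    · -- zer
      intro i
      rw [hW, Nat.cast_prod]
      refine Finset.prod_dvd_of_coprime ?_ (fun p hp => (hall p hp).1 i)
      intro p hp q hq hpq
      have h1 : Nat.Coprime (p ^ e p) (q ^ e q) :=
        Nat.Coprime.pow _ _ ((Nat.coprime_primes (hPsp p hp) (hPsp q hq)).mpr hpq)
      exact Nat.isCoprime_iff_coprime.mpr h1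
    · -- con
      intro p hp hle
      have hpPs : p ∈ Ps := hPsmem p hp hle
      obtain ⟨-, -, ⟨i, hi⟩, -⟩ := hall p hpPs
      refine ⟨i, fun hd => hi (dvd_trans ?_ hd)⟩
      have h1 : e p ≤ (m ^ 2 * V').factorization p :=
        (hp.pow_dvd_iff_le_factorization hWpos).mp (heW p hpPs)
      have h2 : c₀ p + 1 ≤ e p := by
        rw [he]
        dsimp only
        omega
      exact_mod_cast pow_dvd_pow p (le_trans h2 h1)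
    · -- prim
      intro p hp hle
      exact (hall p (hPsmem p hp hle)).2.2.2.1
    · intro p hpF hle
      have hpPs : p ∈ Ps := hPsmem p hpF.out hle
      obtain ⟨h1, h2⟩ := (hall p hpPs).2.2.2.2
      exact ⟨fun j => dvd_trans (pow_dvd_pow _ (le_max_left _ _)) (h1 j),
        fun j => dvd_trans (pow_dvd_pow _ (le_max_left _ _)) (h2 j)⟩

end Pool.GLU
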