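import Pool.Agent.Work.MP_9fb703_gl.Interface

/-! # Block PEN (helper71) -/

set_option autoImplicit false

namespace Pool.GLU

open Matrix Polynomial

/-- The derivative of `det (X A + B)`. -/
theorem PEN_der {n : Type} [Fintype n] [DecidableEq n] {R : Type} [CommRing R]
    (A B : Matrix n n R) (a : R) :
    (derivative (((X : R[X]) • A.map (C : R → R[X]) + B.map (C : R → R[X])).det)).eval a =
      trace (adjugate (a • A + B) * A) := by
  have hL : (derivative (((X : R[X]) • A.map (C : R → R[X]) + B.map (C : R → R[X])).det)).eval a =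
      ∑ σ : Equiv.Perm n, ((Equiv.Perm.sign σ : ℤ) : R) *
        ∑ j, (∏ i ∈ Finset.univ.erase j, (a * A (σ i) i + B (σ i) i)) * A (σ j) j := by
    rw [det_apply', derivative_sum, eval_finsetSum]
    refine Finset.sum_congr rfl fun σ _ => ?_
    have e1 : ((Equiv.Perm.sign σ : ℤ) : R[X]) = C ((Equiv.Perm.sign σ : ℤ) : R) := by simp
    have e2 : ∀ i, ((X : R[X]) • A.map (C : R → R[X]) + B.map (C : R → R[X])) (σ i) i =
        X * C (A (σ i) i) + C (B (σ i) i) := fun i => rfl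
    simp only [e2]
    rw [e1, derivative_C_mul, eval_C_mul, derivative_prod_finset, eval_finsetSum]
    congr 1
    refine Finset.sum_congr rfl fun j _ => ?_
    rw [eval_mul, eval_prod]
    congr 1
    · refine Finset.prod_congr rfl fun i _ => ?_
      rw [eval_add, eval_mul, eval_X, eval_C, eval_C]
    · simp
  have hR : ∀ j, (adjugate (a • A + B) * A) j j = ∑ σ : Equiv.Perm n,
      ((Equiv.Perm.sign σ : ℤ) : R) *
        ((∏ i ∈ Finset.univ.erase j, (a * A (σ i) i + B (σ i) i)) * A (σ j) j) := by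
    intro j
    have h1 : (adjugate (a • A + B) * A) j j = cramer (a • A + B) (fun i => A i j) j := by
      rw [cramer_eq_adjugate_mulVec]
      rfl
    rw [h1, cramer_apply, det_apply']
    refine Finset.sum_congr rfl fun σ _ => ?_
    congr 1
    rw [← Finset.prod_erase_mul _ _ (Finset.mem_univ j)]
    congr 1
    · refine Finset.prod_congr rfl fun i hi => ?_
      rw [updateCol_ne (Finset.ne_of_mem_erase hi)]
      rfl
    · rw [updateCol_self]
  rw [hL, trace]
  simp only [diag_apply, hR]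
  rw [Finset.sum_comm]
  refine Finset.sum_congr rfl fun σ _ => ?_
  rw [Finset.mul_sum]

/-- A singular matrix with zero adjugate has two independent kernel vectors. -/
theorem PEN_ker {n : Type} [Fintype n] [DecidableEq n] {K : Type} [Field K]
    (A : Matrix n n K) (h0 : A.det = 0) (h1 : A.adjugate = 0) :
    ∃ (i : n) (u v : n → K), A *ᵥ u = 0 ∧ A *ᵥ v = 0 ∧ u i ≠ 0 ∧ v i = 0 ∧ v ≠ 0 := by
  obtain ⟨u, hu, hAu⟩ := exists_mulVec_eq_zero_iff.2 h0
  obtain ⟨i, hi⟩ := Function.ne_iff.1 hu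
  have h2 : ∀ j, ∃ v : n → K, v ≠ 0 ∧ v i = 0 ∧ ∀ k, k ≠ j → (A *ᵥ v) k = 0 := by
    intro j
    have h3 : (A.updateRow j (Pi.single i 1)).det = 0 := by
      rw [← adjugate_apply, h1]
      rfl
    obtain ⟨v, hv, hAv⟩ := exists_mulVec_eq_zero_iff.2 h3
    refine ⟨v, hv, ?_, ?_⟩
    · have h4 := congrFun hAv j
      rw [mulVec, updateRow_self, single_one_dotProduct] at h4
      exact h4
    · intro k hk
      have h4 := congrFun hAv k
      rw [mulVec, updateRow_ne hk] at h4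
      exact h4
  choose v hv hvi hvk using h2
  by_cases h5 : ∃ j, (A *ᵥ v j) j = 0
  · obtain ⟨j, hj⟩ := h5
    refine ⟨i, u, v j, hAu, ?_, hi, hvi j, hv j⟩
    funext k
    by_cases hk : k = j
    · rw [hk, hj]
      rfl
    · exact hvk j k hk
  · exfalso
    push Not at h5
    -- `A` is surjective
    have h6 : ∃ w : n → K, w ≠ 0 ∧ w ᵥ* A = 0 := by
      rw [exists_vecMul_eq_zero_iff]
      exact h0
    obtain ⟨w, hw, hwA⟩ := h6
    obtain ⟨j, hj⟩ := Function.ne_iff.1 hw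
    have h7 : w ⬝ᵥ (A *ᵥ v j) = 0 := by
      rw [dotProduct_mulVec, hwA, zero_dotProduct]
    have h8 : w ⬝ᵥ (A *ᵥ v j) = w j * (A *ᵥ v j) j := by
      rw [dotProduct]
      refine Finset.sum_eq_single j (fun k _ hk => ?_) (fun h => absurd (Finset.mem_univ j) h)
      rw [hvk j k hk, mul_zero]
    rw [h8] at h7
    rcases mul_eq_zero.1 h7 with h9 | h9
    · exact hj h9
    · exact h5 j h9

/-- The key lemma: an isotropic kernel vector. -/
theorem PEN_key {n : Type} [Fintype n] [DecidableEq n] (A B : Matrix n n ℂ) (hA : Aᵀ = A)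
    (hB : Bᵀ = B) (h0 : A.det = 0) (h1 : trace (A.adjugate * B) = 0) :
    ∃ h : n → ℂ, h ≠ 0 ∧ A *ᵥ h = 0 ∧ h ⬝ᵥ (B *ᵥ h) = 0 := by
  have hsym : ∀ u v : n → ℂ, u ⬝ᵥ (B *ᵥ v) = v ⬝ᵥ (B *ᵥ u) := by
    intro u v
    rw [dotProduct_mulVec, ← mulVec_transpose, hB, dotProduct_comm]
  -- isotropic vectors in a plane
  have hpl : ∀ (i : n) (u v : n → ℂ), A *ᵥ u = 0 → A *ᵥ v = 0 → u i ≠ 0 → v i = 0 → v ≠ 0 →
      ∃ h : n → ℂ, h ≠ 0 ∧ A *ᵥ h = 0 ∧ h ⬝ᵥ (B *ᵥ h) = 0 := by
    intro i u v hu hv hi hvi hv0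
    by_cases hvv : v ⬝ᵥ (B *ᵥ v) = 0
    · exact ⟨v, hv0, hv, hvv⟩
    · obtain ⟨d, hd⟩ := IsAlgClosed.exists_pow_nat_eq
        ((u ⬝ᵥ (B *ᵥ v)) ^ 2 - (v ⬝ᵥ (B *ᵥ v)) * (u ⬝ᵥ (B *ᵥ u))) (n := 2) (by norm_num)
      refine ⟨u + ((-(u ⬝ᵥ (B *ᵥ v)) + d) / (v ⬝ᵥ (B *ᵥ v))) • v, ?_, ?_, ?_⟩
      · intro h
        have h2 := congrFun h i
        simp only [Pi.add_apply, Pi.smul_apply, hvi, smul_zero, add_zero, Pi.zero_apply] at h2
        exact hi h2
      · rw [mulVec_add, mulVec_smul, hu, hv, smul_zero, add_zero]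
      · rw [mulVec_add, mulVec_smul, add_dotProduct, dotProduct_add, dotProduct_add,
          smul_dotProduct, smul_dotProduct, dotProduct_smul, dotProduct_smul, hsym v u]
        simp only [smul_eq_mul]
        field_simp
        linear_combination hd
  by_cases hadj : A.adjugate = 0
  · obtain ⟨i, u, v, hu, hv, hi, hvi, hv0⟩ := PEN_ker A h0 hadj
    exact hpl i u v hu hv hi hvi hv0
  · -- a nonzero column of the adjugate
    obtain ⟨k, hk⟩ : ∃ k, (fun i => A.adjugate i k) ≠ 0 := by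
      by_contra hcon
      push Not at hcon
      apply hadj
      ext i k
      exact congrFun (hcon k) i
    set h : n → ℂ := fun i => A.adjugate i k with hh
    have hcol : ∀ j, A *ᵥ (fun i => A.adjugate i j) = 0 := by
      intro j
      have h2 := congrFun₂ (mul_adjugate A)
      funext i
      have h3 := h2 i j
      rw [h0, zero_smul] at h3
      exact h3
    have hadjT : ∀ i j, A.adjugate i j = A.adjugate j i := by
      intro i j
      have h2 := congrFun₂ (adjugate_transpose A) i j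
      rw [hA] at h2
      exact h2.symm
    obtain ⟨l, hl⟩ := Function.ne_iff.1 hk
    -- all columns are multiples of h, or there is a plane
    by_cases hall : ∀ j, (fun i => A.adjugate i j) = (A.adjugate l j / h l) • h
    · refine ⟨h, hk, hcol k, ?_⟩
      have hform : ∀ i j, A.adjugate i j = A.adjugate l l / (h l * h l) * (h i * h j) := by
        intro i j
        have e1 : A.adjugate i j = A.adjugate l j / h l * h i := congrFun (hall j) i
        have e2 : A.adjugate j l = A.adjugate l l / h l * h j := congrFun (hall l) j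
        rw [e1, hadjT l j, e2]
        have hl' : h l ≠ 0 := hl
        field_simp
      have hne : A.adjugate l l / (h l * h l) ≠ 0 := by
        intro h2
        apply hadj
        ext i j
        rw [hform, h2, zero_mul]
        rfl
      have h3 : trace (A.adjugate * B) = A.adjugate l l / (h l * h l) * (h ⬝ᵥ (B *ᵥ h)) := by
        rw [trace]
        simp only [diag_apply, mul_apply, dotProduct, mulVec]
        rw [Finset.mul_sum]
        rw [Finset.sum_comm]
        refine Finset.sum_congr rfl fun i _ => ?_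
        rw [Finset.mul_sum, Finset.mul_sum]
        refine Finset.sum_congr rfl fun j _ => ?_
        rw [hform j i]
        ring
      rw [h3] at h1
      rcases mul_eq_zero.1 h1 with h4 | h4
      · exact absurd h4 hne
      · exact h4
    · push Not at hall
      obtain ⟨j, hj⟩ := hall
      refine hpl l h ((fun i => A.adjugate i j) - (A.adjugate l j / h l) • h) (hcol k) ?_ hl ?_ ?_
      · rw [mulVec_sub, mulVec_smul, hcol j, hcol k, smul_zero, sub_zero]
      · have hl' : h l ≠ 0 := hl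
        simp only [Pi.sub_apply, Pi.smul_apply, smul_eq_mul]
        field_simp
        ring
      · exact sub_ne_zero.2 hj


/-- The symmetric matrices of the pencil, over `ℂ`. -/
noncomputable def PEN_S (b : Fin 2 → Matrix (Fin 4) (Fin 4) ℤ) (i : Fin 2) :
    Matrix (Fin 4) (Fin 4) ℂ := (b i + (b i)ᵀ).map (Int.cast : ℤ → ℂ)

theorem PEN_S_symm (b : Fin 2 → Matrix (Fin 4) (Fin 4) ℤ) (i : Fin 2) :
    (PEN_S b i)ᵀ = PEN_S b i := by
  ext j k
  simp only [PEN_S, transpose_apply, Matrix.map_apply, Matrix.add_apply]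
  rw [add_comm]

theorem PEN_jv (b : Fin 2 → Matrix (Fin 4) (Fin 4) ℤ) (x : Fin 4 → ℂ) (i : Fin 2) :
    jv b x i = PEN_S b i *ᵥ x := rfl

theorem PEN_qv (b : Fin 2 → Matrix (Fin 4) (Fin 4) ℤ) (x : Fin 4 → ℂ) (i : Fin 2) :
    x ⬝ᵥ (PEN_S b i *ᵥ x) = 2 * qv b x i := by
  have h1 : PEN_S b i = (b i).map (Int.cast : ℤ → ℂ) + ((b i).map (Int.cast : ℤ → ℂ))ᵀ := by
    ext j k
    simp [PEN_S]
  rw [h1, add_mulVec, dotProduct_add, mulVec_transpose, dotProduct_comm x (x ᵥ* _),
    ← dotProduct_mulVec, qv]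
  ring

/-- A smooth pencil has no singular isotropic vector. -/
theorem PEN_smo (b : Fin 2 → Matrix (Fin 4) (Fin 4) ℤ) (hb : Smo b) (μ ν : ℂ)
    (hμν : ¬ (μ = 0 ∧ ν = 0)) (h : Fin 4 → ℂ) (hh : h ≠ 0)
    (h1 : μ • PEN_S b 0 *ᵥ h + ν • PEN_S b 1 *ᵥ h = 0)
    (h2 : h ⬝ᵥ (PEN_S b 0 *ᵥ h) = 0) (h3 : h ⬝ᵥ (PEN_S b 1 *ᵥ h) = 0) : False := by
  have h4 : qv b h = 0 := by
    funext i
    have h5 := PEN_qv b h i
    fin_cases i
    · have h6 : (2 : ℂ) * qv b h 0 = 0 := by
        rw [← h2]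
        exact h5.symm
      rcases mul_eq_zero.1 h6 with h7 | h7
      · norm_num at h7
      · exact h7
    · have h6 : (2 : ℂ) * qv b h 1 = 0 := by
        rw [← h3]
        exact h5.symm
      rcases mul_eq_zero.1 h6 with h7 | h7
      · norm_num at h7
      · exact h7
  have h5 := Fintype.linearIndependent_iff.1 (hb h hh h4) ![μ, ν] (by
    rw [Fin.sum_univ_two]
    exact h1)
  exact hμν ⟨h5 0, h5 1⟩

theorem PEN_eval (A B : Matrix (Fin 4) (Fin 4) ℂ) (a : ℂ) :
    (((X : ℂ[X]) • A.map (C : ℂ → ℂ[X]) + B.map (C : ℂ → ℂ[X])).det).eval a =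
      (a • A + B).det := by
  rw [← coe_evalRingHom, RingHom.map_det]
  congr 1
  ext i j
  simp [RingHom.mapMatrix_apply]
  exact mul_comm _ _

theorem PEN_aev (p : ℤ[X]) (a : ℂ) :
    aeval a (p.map (Int.castRingHom ℚ)) = eval a (p.map (Int.castRingHom ℂ)) := by
  rw [aeval_def, eval₂_map, eval_map]
  congr 1

theorem PEN_fpol (b : Fin 2 → Matrix (Fin 4) (Fin 4) ℤ) :
    (fpol b).map (Int.castRingHom ℂ) =
      ((X : ℂ[X]) • (PEN_S b 0).map (C : ℂ → ℂ[X]) + (PEN_S b 1).map (C : ℂ → ℂ[X])).det := by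
  rw [fpol, ← coe_mapRingHom, RingHom.map_det]
  congr 1
  ext1 i j
  simp [RingHom.mapMatrix_apply, PEN_S]

theorem PEN_det (b : Fin 2 → Matrix (Fin 4) (Fin 4) ℤ) (i : Fin 2) :
    (PEN_S b i).det = (((b i + (b i)ᵀ).det : ℤ) : ℂ) := by
  have h1 := RingHom.map_det (Int.castRingHom ℂ) (b i + (b i)ᵀ)
  exact h1.symm

/-- the sheared pair -/
def PEN_b (b : Fin 2 → Matrix (Fin 4) (Fin 4) ℤ) (k : ℤ) : Fin 2 → Matrix (Fin 4) (Fin 4) ℤ :=
  fun i => if i = 0 then b 0 + k • b 1 else b 1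

theorem PEN_b0 (b : Fin 2 → Matrix (Fin 4) (Fin 4) ℤ) (k : ℤ) :
    PEN_S (PEN_b b k) 0 = (k : ℂ) • PEN_S b 1 + PEN_S b 0 := by
  ext i j
  simp only [PEN_S, PEN_b, if_true, transpose_apply, Matrix.map_apply, Matrix.add_apply,
    Matrix.smul_apply, smul_eq_mul]
  push_cast
  ring

theorem PEN_b1 (b : Fin 2 → Matrix (Fin 4) (Fin 4) ℤ) (k : ℤ) :
    PEN_S (PEN_b b k) 1 = PEN_S b 1 := rfl

theorem p_PEN : Stmt_PEN := by
  intro b hb
  have hinf : ∃ k : ℤ, (PEN_S (PEN_b b k) 0).det ≠ 0 := by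
    by_contra hcon
    push Not at hcon
    have hz : ∀ k : ℤ, (((X : ℂ[X]) • (PEN_S b 1).map (C : ℂ → ℂ[X]) +
        (PEN_S b 0).map (C : ℂ → ℂ[X])).det).eval (k : ℂ) = 0 := by
      intro k
      rw [PEN_eval, ← PEN_b0]
      exact hcon k
    have hg0 : ((X : ℂ[X]) • (PEN_S b 1).map (C : ℂ → ℂ[X]) +
        (PEN_S b 0).map (C : ℂ → ℂ[X])).det = 0 := by
      refine eq_zero_of_infinite_isRoot _ (Set.Infinite.mono ?_
        (Set.infinite_range_of_injective (Int.cast_injective (α := ℂ))))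
      rintro _ ⟨k, rfl⟩
      exact hz k
    have h1 : (PEN_S b 0).det = 0 := by
      have h2 := PEN_eval (PEN_S b 1) (PEN_S b 0) 0
      rw [hg0, eval_zero, zero_smul, zero_add] at h2
      exact h2.symm
    have h2 : trace ((PEN_S b 0).adjugate * PEN_S b 1) = 0 := by
      have h3 := PEN_der (PEN_S b 1) (PEN_S b 0) 0
      rw [hg0, derivative_zero, eval_zero, zero_smul, zero_add] at h3
      exact h3.symm
    obtain ⟨h, hh, hA, hB⟩ := PEN_key (PEN_S b 0) (PEN_S b 1) (PEN_S_symm b 0) (PEN_S_symm b 1)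
      h1 h2
    refine PEN_smo b hb 1 0 (by simp) h hh ?_ ?_ hB
    · rw [hA, smul_zero, zero_smul, add_zero]
    · rw [hA, dotProduct_zero]
  obtain ⟨k, hk⟩ := hinf
  refine ⟨k, ?_, ?_⟩
  · intro h0
    apply hk
    rw [PEN_det]
    have h1 : (PEN_b b k 0 + (PEN_b b k 0)ᵀ).det = 0 := h0
    rw [h1, Int.cast_zero]
  · change ((fpol (PEN_b b k)).map (Int.castRingHom ℚ)).Separable
    refine (isCoprime_iff_aeval_ne_zero_of_isAlgClosed ℚ ℂ _ _).2 ?_
    intro a
    by_contra hcon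
    push Not at hcon
    obtain ⟨h1, h2⟩ := hcon
    rw [PEN_aev, PEN_fpol, PEN_eval] at h1
    rw [derivative_map, PEN_aev, ← derivative_map, PEN_fpol, PEN_der] at h2
    obtain ⟨h, hh, hA, hB⟩ := PEN_key (a • PEN_S (PEN_b b k) 0 + PEN_S (PEN_b b k) 1)
      (PEN_S (PEN_b b k) 0) (by rw [transpose_add, transpose_smul, PEN_S_symm, PEN_S_symm])
      (PEN_S_symm _ 0) h1 h2
    have h3 : h ⬝ᵥ (PEN_S b 1 *ᵥ h) = 0 := by
      have h4 := congrArg (fun v => h ⬝ᵥ v) hA
      simp only [add_mulVec, smul_mulVec, dotProduct_add, dotProduct_smul, hB, smul_zero,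
        zero_add, dotProduct_zero] at h4
      exact h4
    have h4 : h ⬝ᵥ (PEN_S b 0 *ᵥ h) = 0 := by
      rw [PEN_b0, add_mulVec, smul_mulVec, dotProduct_add, dotProduct_smul, h3, smul_zero,
        zero_add] at hB
      exact hB
    refine PEN_smo b hb a (a * k + 1) ?_ h hh ?_ h4 h3
    · rintro ⟨h5, h6⟩
      rw [h5, zero_mul, zero_add] at h6
      exact one_ne_zero h6
    · rw [PEN_b0, PEN_b1] at hA
      rw [← smul_mulVec, ← smul_mulVec, ← add_mulVec, ← hA]
      congr 1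
      rw [smul_add, smul_smul, add_smul, one_smul]
      abel

end Pool.GLU
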