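import Pool.Agent.Work.MP_9fb703_gl.Interface

set_option autoImplicit false

namespace Pool.GLU

open Matrix

theorem PRI_gcd {ι : Type} (x : ι → ℤ) (G D m : ℤ) (hD : D ≠ 0)
    (hx : ∀ d : ℤ, (∀ i, d ∣ x i) → d ∣ G) (h : ∀ i, D ∣ m * x i) : D ∣ m * G := by
  have hpos : 0 < Int.gcd D m := Int.gcd_pos_of_ne_zero_left _ hD
  obtain ⟨e, D₁, m₁, he, hcop, hD₁, hm₁⟩ := Int.exists_gcd_one' hpos
  have he0 : (e : ℤ) ≠ 0 := by exact_mod_cast he.ne'
  have hc : IsCoprime D₁ m₁ := Int.isCoprime_iff_gcd_eq_one.mpr hcop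
  have h1 : ∀ i, D₁ ∣ x i := by
    intro i
    have h2 := h i
    rw [hD₁, hm₁] at h2
    have h3 : D₁ * (e : ℤ) ∣ (m₁ * x i) * (e : ℤ) := by
      have e1 : m₁ * (e : ℤ) * x i = (m₁ * x i) * (e : ℤ) := by ring
      rwa [e1] at h2
    exact hc.dvd_of_dvd_mul_left ((mul_dvd_mul_iff_right he0).mp h3)
  obtain ⟨c, hcG⟩ := hx D₁ h1
  refine ⟨m₁ * c, ?_⟩
  rw [hcG, hD₁, hm₁]
  ring

theorem PRI_par (w z : Fin 4 → ℤ) (hw : ∀ d : ℤ, (∀ j, d ∣ w j) → IsUnit d) (j : Fin 4)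
    (hj : w j ≠ 0) (h : ∀ a, z a * w j = z j * w a) : ∃ t : ℤ, ∀ a, z a = t * w a := by
  have h1 : w j ∣ z j * 1 := PRI_gcd w 1 (w j) (z j) hj
    (fun d hd => (hw d hd).dvd) (fun a => ⟨z a, by rw [← h a]; ring⟩)
  rw [mul_one] at h1
  obtain ⟨t, ht⟩ := h1
  refine ⟨t, fun a => ?_⟩
  have h2 := h a
  rw [ht] at h2
  have h3 : w j * z a = w j * (t * w a) := by linarith
  exact mul_left_cancel₀ hj h3

theorem PRI_rel (u v z w : Fin 4 → ℤ) (h1 : u ⬝ᵥ z = 0) (h2 : v ⬝ᵥ z = 0) (h3 : u ⬝ᵥ w = 0)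
    (h4 : v ⬝ᵥ w = 0) :
    (∀ c d, (u 0 * v 1 - u 1 * v 0) ∣ (z 2 * w 3 - z 3 * w 2) * (u c * v d - u d * v c)) ∧
    (u 0 * v 1 - u 1 * v 0 ≠ 0 → z 2 * w 3 - z 3 * w 2 = 0 → ∀ a b, z a * w b = z b * w a) := by
  simp only [dotProduct, Fin.sum_univ_four] at h1 h2 h3 h4
  have r13 : (z 2 * w 3 - z 3 * w 2) * (u 1 * v 3 - u 3 * v 1) +
      (u 0 * v 1 - u 1 * v 0) * (z 0 * w 2 - z 2 * w 0) = 0 := by
    linear_combination -(v 1 * z 2 * h3) + v 1 * w 2 * h1 + u 1 * z 2 * h4 - u 1 * w 2 * h2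
  have r12 : (z 2 * w 3 - z 3 * w 2) * (u 1 * v 2 - u 2 * v 1) -
      (u 0 * v 1 - u 1 * v 0) * (z 0 * w 3 - z 3 * w 0) = 0 := by
    linear_combination v 1 * z 3 * h3 - v 1 * w 3 * h1 - u 1 * z 3 * h4 + u 1 * w 3 * h2
  have r03 : (z 2 * w 3 - z 3 * w 2) * (u 0 * v 3 - u 3 * v 0) -
      (u 0 * v 1 - u 1 * v 0) * (z 1 * w 2 - z 2 * w 1) = 0 := by
    linear_combination -(v 0 * z 2 * h3) + v 0 * w 2 * h1 + u 0 * z 2 * h4 - u 0 * w 2 * h2
  have r02 : (z 2 * w 3 - z 3 * w 2) * (u 0 * v 2 - u 2 * v 0) +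
      (u 0 * v 1 - u 1 * v 0) * (z 1 * w 3 - z 3 * w 1) = 0 := by
    linear_combination v 0 * z 3 * h3 - v 0 * w 3 * h1 - u 0 * z 3 * h4 + u 0 * w 3 * h2
  have r23 : 2 * ((z 2 * w 3 - z 3 * w 2) * (u 2 * v 3 - u 3 * v 2) -
      (u 0 * v 1 - u 1 * v 0) * (z 0 * w 1 - z 1 * w 0)) = 0 := by
    linear_combination (v 0 * z 0 * h3 - v 0 * w 0 * h1 - u 0 * z 0 * h4 + u 0 * w 0 * h2) +
      (v 1 * z 1 * h3 - v 1 * w 1 * h1 - u 1 * z 1 * h4 + u 1 * w 1 * h2) -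
      (v 2 * z 2 * h3 - v 2 * w 2 * h1 - u 2 * z 2 * h4 + u 2 * w 2 * h2) -
      (v 3 * z 3 * h3 - v 3 * w 3 * h1 - u 3 * z 3 * h4 + u 3 * w 3 * h2)
  have r23' : (z 2 * w 3 - z 3 * w 2) * (u 2 * v 3 - u 3 * v 2) -
      (u 0 * v 1 - u 1 * v 0) * (z 0 * w 1 - z 1 * w 0) = 0 := by
    rcases mul_eq_zero.mp r23 with h | h
    · norm_num at h
    · exact h
  constructor
  · intro c d
    fin_cases c <;> fin_cases d
    · exact ⟨0, by simp⟩
    · exact ⟨z 2 * w 3 - z 3 * w 2, by simp; ring⟩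
    · exact ⟨-(z 1 * w 3 - z 3 * w 1), by simp; linarith [r02]⟩
    · exact ⟨(z 1 * w 2 - z 2 * w 1), by simp; linarith [r03]⟩
    · exact ⟨-(z 2 * w 3 - z 3 * w 2), by simp; ring⟩
    · exact ⟨0, by simp⟩
    · exact ⟨(z 0 * w 3 - z 3 * w 0), by simp; linarith [r12]⟩
    · exact ⟨-(z 0 * w 2 - z 2 * w 0), by simp; linarith [r13]⟩
    · exact ⟨(z 1 * w 3 - z 3 * w 1), by simp; linarith [r02]⟩
    · exact ⟨-(z 0 * w 3 - z 3 * w 0), by simp; linarith [r12]⟩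
    · exact ⟨0, by simp⟩
    · exact ⟨(z 0 * w 1 - z 1 * w 0), by simp; linarith [r23']⟩
    · exact ⟨-(z 1 * w 2 - z 2 * w 1), by simp; linarith [r03]⟩
    · exact ⟨(z 0 * w 2 - z 2 * w 0), by simp; linarith [r13]⟩
    · exact ⟨-(z 0 * w 1 - z 1 * w 0), by simp; linarith [r23']⟩
    · exact ⟨0, by simp⟩
  · intro hD hm
    rw [hm, zero_mul] at r13 r12 r03 r02 r23'
    have c13 : z 0 * w 2 - z 2 * w 0 = 0 := by
      rw [zero_add] at r13
      exact (mul_eq_zero.mp r13).resolve_left hD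
    have c12 : z 0 * w 3 - z 3 * w 0 = 0 := by
      rw [zero_sub, neg_eq_zero] at r12
      exact (mul_eq_zero.mp r12).resolve_left hD
    have c03 : z 1 * w 2 - z 2 * w 1 = 0 := by
      rw [zero_sub, neg_eq_zero] at r03
      exact (mul_eq_zero.mp r03).resolve_left hD
    have c02 : z 1 * w 3 - z 3 * w 1 = 0 := by
      rw [zero_add] at r02
      exact (mul_eq_zero.mp r02).resolve_left hD
    have c23 : z 0 * w 1 - z 1 * w 0 = 0 := by
      rw [zero_sub, neg_eq_zero] at r23'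
      exact (mul_eq_zero.mp r23').resolve_left hD
    intro a b
    fin_cases a <;> fin_cases b <;> simp <;> linarith

theorem PRI_perm : ∀ k l : Fin 4, k ≠ l → ∃ e : Equiv.Perm (Fin 4), e 0 = k ∧ e 1 = l := by
  decide

/-- the version with an arbitrary pair of indices -/
theorem PRI_rel2 (u v : Fin 4 → ℤ) (e : Equiv.Perm (Fin 4)) (z w : Fin 4 → ℤ) (h1 : u ⬝ᵥ z = 0)
    (h2 : v ⬝ᵥ z = 0) (h3 : u ⬝ᵥ w = 0) (h4 : v ⬝ᵥ w = 0) :
    (∀ c d, (u (e 0) * v (e 1) - u (e 1) * v (e 0)) ∣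
      (z (e 2) * w (e 3) - z (e 3) * w (e 2)) * (u c * v d - u d * v c)) ∧
    (u (e 0) * v (e 1) - u (e 1) * v (e 0) ≠ 0 → z (e 2) * w (e 3) - z (e 3) * w (e 2) = 0 →
      ∀ a b, z a * w b = z b * w a) := by
  have hc : ∀ x y : Fin 4 → ℤ, (x ∘ e) ⬝ᵥ (y ∘ e) = x ⬝ᵥ y := by
    intro x y
    simp only [dotProduct, Function.comp_apply]
    exact Equiv.sum_comp e (fun i => x i * y i)
  obtain ⟨h5, h6⟩ := PRI_rel (u ∘ e) (v ∘ e) (z ∘ e) (w ∘ e) (by rw [hc, h1]) (by rw [hc, h2])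
    (by rw [hc, h3]) (by rw [hc, h4])
  simp only [Function.comp_apply] at h5 h6
  refine ⟨fun c d => ?_, fun hD hm a b => ?_⟩
  · have h7 := h5 (e.symm c) (e.symm d)
    simpa using h7
  · have h7 := h6 hD hm (e.symm a) (e.symm b)
    simpa using h7

theorem PRI_floor (N Z : ℕ) (hN : 0 < N) (x : ℤ) (hx : |x| ≤ Z) :
    -((Z / N : ℕ) : ℤ) - 1 ≤ x / N ∧ x / N ≤ ((Z / N : ℕ) : ℤ) := by
  have hN' : (0 : ℤ) < N := by exact_mod_cast hN
  obtain ⟨h1, h2⟩ := abs_le.mp hx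
  constructor
  · rw [Int.le_ediv_iff_mul_le hN']
    have h3 : Z < (Z / N + 1) * N := by
      have := Nat.lt_succ_self (Z / N)
      have h4 := Nat.lt_mul_div_succ Z hN
      calc Z < N * (Z / N + 1) := h4
        _ = (Z / N + 1) * N := by ring
    have h4 : (Z : ℤ) < (((Z / N : ℕ) : ℤ) + 1) * N := by exact_mod_cast h3
    have e : (-((Z / N : ℕ) : ℤ) - 1) * (N : ℤ) = -((((Z / N : ℕ) : ℤ) + 1) * N) := by ring
    rw [e]
    linarith
  · rw [Int.natCast_div]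
    exact Int.ediv_le_ediv hN' h2

theorem PRI_inj (N : ℕ) (hN : 0 < N) (x y : ℤ) (h : x / N = y / N) : |x - y| < N := by
  have hN' : (0 : ℤ) < N := by exact_mod_cast hN
  have h1 := Int.emod_add_mul_ediv x N
  have h2 := Int.emod_add_mul_ediv y N
  have h3 := Int.emod_nonneg x hN'.ne'
  have h4 := Int.emod_nonneg y hN'.ne'
  have h5 := Int.emod_lt_of_pos x hN'
  have h6 := Int.emod_lt_of_pos y hN'
  rw [h] at h1
  rw [abs_lt]
  constructor <;> linarith

theorem p_PRI : Stmt_PRI := by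
  intro u v g P Z F hg hP hgcd hmin hF
  obtain ⟨k, l, hkl⟩ := hmin
  have hP' : (0 : ℤ) < P := by exact_mod_cast hP
  have hg' : (0 : ℤ) < g := by exact_mod_cast hg
  have hkl0 : k ≠ l := by
    rintro rfl
    have : u k * v k - u k * v k = 0 := sub_self _
    rw [this, abs_zero] at hkl
    linarith
  obtain ⟨e, he0, he1⟩ := PRI_perm k l hkl0
  set D : ℤ := u (e 0) * v (e 1) - u (e 1) * v (e 0) with hDdef
  have hDabs : (P : ℤ) ≤ |D| := by rw [hDdef, he0, he1]; exact hkl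
  have hD0 : D ≠ 0 := by
    intro h
    rw [h, abs_zero] at hDabs
    linarith
  rcases F.eq_empty_or_nonempty with hFe | ⟨w, hwF⟩
  · rw [hFe, Finset.card_empty, Nat.cast_zero]
    positivity
  obtain ⟨hwZ, hwp, hwu, hwv⟩ := hF w hwF
  obtain ⟨j, -, hj⟩ := Finset.exists_max_image (Finset.univ : Finset (Fin 4)) (fun j => |w j|)
    ⟨0, Finset.mem_univ 0⟩
  have hj' : ∀ i, |w i| ≤ |w j| := fun i => hj i (Finset.mem_univ i)
  have hwj : w j ≠ 0 := by
    intro h0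
    have h1 : ∀ i, w i = 0 := by
      intro i
      have := hj' i
      rw [h0, abs_zero] at this
      exact abs_nonpos_iff.mp this
    have h2 := hwp 0 fun i => by rw [h1 i]
    exact not_isUnit_zero h2
  set N : ℕ := (w j).natAbs with hN
  have hNabs : (N : ℤ) = |w j| := Int.natCast_natAbs (w j)
  have hN0 : 0 < N := Int.natAbs_pos.mpr hwj
  have hNZ : N ≤ Z := by
    have := hwZ j
    rw [← hNabs] at this
    exact_mod_cast this
  set mm : (Fin 4 → ℤ) → ℤ := fun z => z (e 2) * w (e 3) - z (e 3) * w (e 2) with hmm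
  -- the basic facts
  have fact1 : ∀ z, u ⬝ᵥ z = 0 → v ⬝ᵥ z = 0 → D ∣ mm z * g := by
    intro z hz1 hz2
    have h1 := (PRI_rel2 u v e z w hz1 hz2 hwu hwv).1
    refine PRI_gcd (fun q : Fin 4 × Fin 4 => u q.1 * v q.2 - u q.2 * v q.1) g D (mm z) hD0
      (fun d hd => hgcd d fun k l => hd (k, l)) fun q => h1 q.1 q.2
  have fact2 : ∀ z, u ⬝ᵥ z = 0 → v ⬝ᵥ z = 0 → mm z = 0 → ∃ t : ℤ, ∀ a, z a = t * w a := by
    intro z hz1 hz2 hz
    have h1 := (PRI_rel2 u v e z w hz1 hz2 hwu hwv).2 hD0 hz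
    exact PRI_par w z hwp j hwj fun a => h1 a j
  have hsplit := Finset.card_filter_add_card_filter_not (s := F) (fun z => mm z = 0)
  -- the parallel vectors
  have hpar : (F.filter (fun z => mm z = 0)).card ≤ 2 := by
    have hsub : F.filter (fun z => mm z = 0) ⊆ {w, -w} := by
      intro z hz
      rw [Finset.mem_filter] at hz
      obtain ⟨hzZ, hzp, hzu, hzv⟩ := hF z hz.1
      obtain ⟨t, ht⟩ := fact2 z hzu hzv hz.2
      have htu : IsUnit t := hzp t fun a => ⟨w a, ht a⟩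
      rw [Finset.mem_insert, Finset.mem_singleton]
      rcases Int.isUnit_iff.mp htu with h | h
      · left
        funext a
        rw [ht a, h, one_mul]
      · right
        funext a
        rw [ht a, h, Pi.neg_apply]
        ring
    exact (Finset.card_le_card hsub).trans Finset.card_le_two
  -- the other vectors
  set b : ℕ := 2 * Z * N * g / P with hb
  set B : Finset ℤ := (Finset.Icc (-(b : ℤ)) b).erase 0 with hB
  set Q : Finset ℤ := Finset.Icc (-((Z / N : ℕ) : ℤ) - 1) ((Z / N : ℕ) : ℤ) with hQ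
  have hBcard : B.card = 2 * b := by
    have h0 : ∀ q : ℕ, ((q : ℤ) + 1 - (-(q : ℤ))).toNat - 1 = 2 * q := by
      intro q
      omega
    have h1 : (0 : ℤ) ∈ Finset.Icc (-(b : ℤ)) b := by
      rw [Finset.mem_Icc]
      have := Int.natCast_nonneg b
      constructor <;> linarith
    rw [hB, Finset.card_erase_of_mem h1, Int.card_Icc]
    exact h0 _
  have hQcard : Q.card = 2 * (Z / N) + 2 := by
    have h0 : ∀ q : ℕ, ((q : ℤ) + 1 - (-(q : ℤ) - 1)).toNat = 2 * q + 2 := by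
      intro q
      omega
    rw [hQ, Int.card_Icc]
    exact h0 _
  have hmaps : ∀ z ∈ F.filter (fun z => ¬ mm z = 0), (mm z * g / D, z j / (N : ℤ)) ∈ B ×ˢ Q := by
    intro z hz
    rw [Finset.mem_filter] at hz
    obtain ⟨hzZ, hzp, hzu, hzv⟩ := hF z hz.1
    rw [Finset.mem_product]
    refine ⟨?_, Finset.mem_Icc.mpr (PRI_floor N Z hN0 (z j) (hzZ j))⟩
    obtain ⟨β, hβ⟩ := fact1 z hzu hzv
    have e1 : mm z * g / D = β := by
      rw [hβ]
      exact Int.mul_ediv_cancel_left β hD0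
    show mm z * g / D ∈ B
    rw [e1, hB, Finset.mem_erase, Finset.mem_Icc, ← abs_le]
    refine ⟨?_, ?_⟩
    · rintro rfl
      rw [mul_zero] at hβ
      rcases mul_eq_zero.mp hβ with h | h
      · exact hz.2 h
      · exact hg'.ne' h
    · have h1 : |mm z| ≤ 2 * Z * N := by
        have h2 : |mm z| ≤ |z (e 2)| * |w (e 3)| + |z (e 3)| * |w (e 2)| := by
          rw [← abs_mul, ← abs_mul]
          exact abs_sub _ _
        have h3 : |z (e 2)| * |w (e 3)| ≤ Z * N := by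
          rw [hNabs]
          exact mul_le_mul (hzZ _) (hj' _) (abs_nonneg _) (by positivity)
        have h4 : |z (e 3)| * |w (e 2)| ≤ Z * N := by
          rw [hNabs]
          exact mul_le_mul (hzZ _) (hj' _) (abs_nonneg _) (by positivity)
        linarith
      have h2 : |β| * P ≤ 2 * Z * N * g := by
        have h3 : |mm z| * g = |D| * |β| := by
          have := congrArg abs hβ
          rwa [abs_mul, abs_mul, abs_of_pos hg'] at this
        calc |β| * P ≤ |β| * |D| := mul_le_mul_of_nonneg_left hDabs (abs_nonneg _)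
          _ = |mm z| * g := by rw [h3]; ring
          _ ≤ 2 * Z * N * g := mul_le_mul_of_nonneg_right h1 hg'.le
      have h3 : β.natAbs ≤ b := by
        rw [hb, Nat.le_div_iff_mul_le hP]
        have h4 : ((β.natAbs * P : ℕ) : ℤ) ≤ ((2 * Z * N * g : ℕ) : ℤ) := by
          push_cast
          exact h2
        exact_mod_cast h4
      have h4 : ((β.natAbs : ℕ) : ℤ) ≤ (b : ℤ) := by exact_mod_cast h3
      rwa [Int.natCast_natAbs] at h4
  have hinj : Set.InjOn (fun z : Fin 4 → ℤ => (mm z * g / D, z j / (N : ℤ)))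
      (F.filter (fun z => ¬ mm z = 0) : Set (Fin 4 → ℤ)) := by
    intro z hz z' hz' hzz
    rw [Finset.mem_coe, Finset.mem_filter] at hz hz'
    obtain ⟨hzZ, hzp, hzu, hzv⟩ := hF z hz.1
    obtain ⟨hzZ', hzp', hzu', hzv'⟩ := hF z' hz'.1
    obtain ⟨hq1, hq2⟩ := Prod.mk.inj hzz
    have h1 := fact1 z hzu hzv
    have h2 := fact1 z' hzu' hzv'
    have h3 : mm z * g = mm z' * g := by
      have h4 := Int.ediv_mul_cancel h1
      have h5 := Int.ediv_mul_cancel h2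
      rw [← h4, ← h5]
      rw [show mm z * g / D = mm z' * g / D from hq1]
    have h4 : mm z = mm z' := mul_right_cancel₀ hg'.ne' h3
    have h5 : mm (z - z') = 0 := by
      have e1 : mm (z - z') = mm z - mm z' := by
        simp only [hmm, Pi.sub_apply]
        ring
      rw [e1, h4, sub_self]
    obtain ⟨t, ht⟩ := fact2 (z - z') (by rw [dotProduct_sub, hzu, hzu', sub_self])
      (by rw [dotProduct_sub, hzv, hzv', sub_self]) h5
    have h6 := PRI_inj N hN0 (z j) (z' j) hq2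
    have h7 : z j - z' j = t * w j := ht j
    rw [h7, abs_mul, ← hNabs] at h6
    have hN' : (0 : ℤ) < N := by exact_mod_cast hN0
    have h8 : |t| < 1 := by
      have h9 : |t| * (N : ℤ) < 1 * N := by linarith
      exact lt_of_mul_lt_mul_right h9 hN'.le
    have h9 : t = 0 := Int.abs_lt_one_iff.mp h8
    funext a
    have h10 := ht a
    rw [h9, zero_mul, Pi.sub_apply] at h10
    linarith
  have hcard : (F.filter (fun z => ¬ mm z = 0)).card ≤ 2 * b * (2 * (Z / N) + 2) := by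
    have h1 := Finset.card_le_card_of_injOn (t := B ×ˢ Q) _ hmaps hinj
    rwa [Finset.card_product, hBcard, hQcard] at h1
  -- real arithmetic
  have hPr : (0 : ℝ) < P := by exact_mod_cast hP
  have hNr : (0 : ℝ) < N := by exact_mod_cast hN0
  have hNZr : (N : ℝ) ≤ Z := by exact_mod_cast hNZ
  have hbr : (b : ℝ) ≤ 2 * Z * N * g / P := by
    rw [hb]
    have := @Nat.cast_div_le ℝ _ _ _ (2 * Z * N * g) P
    push_cast at this
    exact this
  have hZr : ((Z / N : ℕ) : ℝ) ≤ Z / N := Nat.cast_div_le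
  have h1N : 1 ≤ (Z : ℝ) / N := by
    rw [le_div_iff₀ hNr]
    linarith
  have h2 : ((2 * b * (2 * (Z / N) + 2) : ℕ) : ℝ) ≤ 16 * (Z : ℝ) ^ 2 * g / P := by
    push_cast
    calc 2 * (b : ℝ) * (2 * ((Z / N : ℕ) : ℝ) + 2)
        ≤ 2 * (2 * Z * N * g / P) * (4 * ((Z : ℝ) / N)) := by
          have h3 : 2 * ((Z / N : ℕ) : ℝ) + 2 ≤ 4 * ((Z : ℝ) / N) := by linarith
          have h4 : 0 ≤ 2 * ((Z / N : ℕ) : ℝ) + 2 := by positivity
          have h5 : 0 ≤ (b : ℝ) := Nat.cast_nonneg _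
          gcongr
      _ = 16 * (Z : ℝ) ^ 2 * g / P := by
          field_simp
          ring
  have h3 : (F.card : ℝ) ≤ 2 + 16 * (Z : ℝ) ^ 2 * g / P := by
    have h4 : F.card ≤ 2 + 2 * b * (2 * (Z / N) + 2) := by omega
    have h5 : (F.card : ℝ) ≤ ((2 + 2 * b * (2 * (Z / N) + 2) : ℕ) : ℝ) := by exact_mod_cast h4
    rw [Nat.cast_add] at h5
    have h6 : ((2 : ℕ) : ℝ) = 2 := by norm_num
    rw [h6] at h5
    linarith
  have h4 : 16 * (Z : ℝ) ^ 2 * g / P ≤ 20 * (Z : ℝ) ^ 2 * g / P := by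
    have : 0 ≤ (Z : ℝ) ^ 2 * g / P := by positivity
    have e1 : 20 * (Z : ℝ) ^ 2 * g / P - 16 * (Z : ℝ) ^ 2 * g / P = 4 * ((Z : ℝ) ^ 2 * g / P) := by
      ring
    linarith
  linarith

end Pool.GLU
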