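import Pool.Agent.Work.MP_9fb703_gl.Interface

/-!
# MP_9fb703_nt, THEOREM GLUE, block RCF: the residue classes of the first moment
-/

set_option autoImplicit false

namespace Pool.GLU

open Matrix

/-- Congruent arguments have congruent values. -/
theorem RCF_cong {n : ℕ} (c : Fin 2 → Matrix (Fin n) (Fin n) ℤ) (W : ℤ) (w v : Fin n → ℤ)
    (h : ∀ j, W ∣ w j - v j) (i : Fin 2) : W ∣ qv c w i - qv c v i := by
  unfold qv
  simp only [dotProduct, mulVec, ← Finset.sum_sub_distrib]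
  refine Finset.dvd_sum fun k _ => ?_
  have h1 : w k * ∑ l, (c i).map (Int.cast : ℤ → ℤ) k l * w l -
      v k * ∑ l, (c i).map (Int.cast : ℤ → ℤ) k l * v l =
      (w k - v k) * ∑ l, (c i).map (Int.cast : ℤ → ℤ) k l * w l +
      v k * ∑ l, (c i).map (Int.cast : ℤ → ℤ) k l * (w l - v l) := by
    have : ∑ l, (c i).map (Int.cast : ℤ → ℤ) k l * (w l - v l) =
        ∑ l, (c i).map (Int.cast : ℤ → ℤ) k l * w l -
          ∑ l, (c i).map (Int.cast : ℤ → ℤ) k l * v l := by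
      rw [← Finset.sum_sub_distrib]
      exact Finset.sum_congr rfl fun l _ => by ring
    rw [this]
    ring
  rw [h1]
  refine dvd_add ((h k).mul_right _) (Dvd.dvd.mul_left ?_ _)
  exact Finset.dvd_sum fun l _ => (h l).mul_left _

theorem p_RCF (hHEN : Stmt_HEN) (hCOI : Stmt_COI) : Stmt_RCF := by
  intro b c hres P₀ m V' M₀ x₀ w₀ w hLD hP₀ hAdm G hG
  -- large primes do not divide the values
  have hbig : ∀ p : ℕ, p.Prime → P₀ < p → ¬ (∀ i, (p : ℤ) ∣ qv c w i) := by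
    intro p hp hPp hdiv
    have h1 : ¬ (p : ℤ) ∣ res c := by
      intro h
      have h2 := Int.le_of_dvd (abs_pos.2 hres) ((dvd_abs _ _).2 h)
      omega
    have h2 := (hCOI c).2 p w hp h1 hdiv
    exact hAdm.2 p hp hPp ⟨h2 0, h2 1⟩
  have hGd : ∀ i, (G : ℤ) ∣ qv c w i := by
    intro i
    rw [hG]
    fin_cases i
    · exact Int.gcd_dvd_left _ _
    · exact Int.gcd_dvd_right _ _
  have hG0 : 0 < G := by
    rcases Nat.eq_zero_or_pos G with h | h
    · exfalso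
      obtain ⟨p, hp1, hp2⟩ := Nat.exists_infinite_primes (P₀ + 1)
      refine hbig p hp2 (by omega) fun i => ?_
      have h1 := hGd i
      rw [h, Nat.cast_zero, zero_dvd_iff] at h1
      rw [h1]
      exact dvd_zero _
    · exact h
  refine ⟨hG0, ?_⟩
  have hprimes : ∀ p : ℕ, p.Prime → p ∣ G → p ∣ V' := by
    intro p hp hpG
    rcases Nat.lt_or_ge P₀ p with h | h
    · exact absurd (fun i => (Int.natCast_dvd_natCast.2 hpG).trans (hGd i)) (hbig p hp h)
    · exact hLD.small p hp h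
  have hρ : ∀ i, ((m ^ 2 * V' : ℕ) : ℤ) ∣ (M₀ *ᵥ qv c w) i - qv b x₀ i := by
    intro i
    have h1 := hLD.zer i
    have h2 : ((m ^ 2 * V' : ℕ) : ℤ) ∣ (M₀ *ᵥ qv c w) i - (M₀ *ᵥ qv c w₀) i := by
      have h3 : (M₀ *ᵥ qv c w) i - (M₀ *ᵥ qv c w₀) i = ∑ j, M₀ i j * (qv c w j - qv c w₀ j) := by
        simp only [mulVec, dotProduct, ← Finset.sum_sub_distrib]
        exact Finset.sum_congr rfl fun l _ => by ring
      rw [h3]
      exact Finset.dvd_sum fun j _ => (RCF_cong c _ w w₀ hAdm.1 j).mul_left _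
    have h4 := dvd_sub h2 h1
    have h5 : (M₀ *ᵥ qv c w) i - (M₀ *ᵥ qv c w₀) i - (qv b x₀ i - (M₀ *ᵥ qv c w₀) i) =
        (M₀ *ᵥ qv c w) i - qv b x₀ i := by ring
    rwa [h5] at h4
  choose ρ hρ using hρ
  rw [← hHEN b m V' x₀ hLD.m0 hLD.V0 hLD.reg G hG0 hprimes ρ]
  congr 1
  ext x
  simp only [Set.mem_ofPred_eq]
  refine and_congr_right fun _ => and_congr_right fun _ => forall_congr' fun i => ?_
  have h1 : qv b x i - (M₀ *ᵥ qv c w) i =
      qv b x i - qv b x₀ i - ((m ^ 2 * V' : ℕ) : ℤ) * ρ i := by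
    rw [← hρ i]
    ring
  rw [h1]

end Pool.GLU
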