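import Pool.Agent.Work.MP_9fb703_gl.Interface

/-!
# MP_9fb703_nt, THEOREM GLUE, block RCT (helper40)
-/

set_option autoImplicit false

namespace Pool.GLU

open Matrix Polynomial

/-! ### General counting -/

theorem RCT_fib {α β : Type} (S : Set α) (hS : S.Finite) (f : α → β) (T : Set β)
    (hT : T.Finite) (K : ℕ) (h1 : ∀ x ∈ S, f x ∈ T)
    (h2 : ∀ t ∈ T, ({x ∈ S | f x = t}).ncard ≤ K) : S.ncard ≤ K * T.ncard := by
  classical
  have e1 := Finset.card_le_mul_card_image (f := f) hS.toFinset K (by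
    intro t ht
    obtain ⟨x, hx, rfl⟩ := Finset.mem_image.mp ht
    have hx' : x ∈ S := hS.mem_toFinset.mp hx
    refine le_trans ?_ (h2 (f x) (h1 x hx'))
    rw [← Set.ncard_coe_finset]
    apply Set.ncard_le_ncard
    · intro y hy
      simp only [Finset.coe_filter, Set.Finite.mem_toFinset, Set.mem_ofPred_eq] at hy
      exact hy
    · exact hS.subset fun y hy => hy.1)
  rw [← Set.ncard_coe_finset, hS.coe_toFinset] at e1
  refine e1.trans (Nat.mul_le_mul_left _ ?_)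
  rw [← Set.ncard_coe_finset]
  apply Set.ncard_le_ncard _ hT
  intro t ht
  obtain ⟨x, hx, rfl⟩ := Finset.mem_image.mp (Finset.mem_coe.mp ht)
  exact h1 x (hS.mem_toFinset.mp hx)

/-- the box -/
def RCT_B (N : ℕ) : Set ((Fin 4 → ℤ) × (Fin 4 → ℤ)) :=
  {z | (∀ j, 0 ≤ z.1 j ∧ z.1 j < (N : ℤ)) ∧ ∀ j, 0 ≤ z.2 j ∧ z.2 j < (N : ℤ)}

/-- reduction -/
def RCT_r (N : ℕ) (z : (Fin 4 → ℤ) × (Fin 4 → ℤ)) : (Fin 4 → ℤ) × (Fin 4 → ℤ) :=
  (fun j => z.1 j % (N : ℤ), fun j => z.2 j % (N : ℤ))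

theorem RCT_fin1 (N : ℤ) : {x : Fin 4 → ℤ | ∀ j, 0 ≤ x j ∧ x j < N}.Finite := by
  have : {x : Fin 4 → ℤ | ∀ j, 0 ≤ x j ∧ x j < N} = Set.univ.pi (fun _ => Set.Ico (0 : ℤ) N) := by
    ext x
    simp
  rw [this]
  exact Set.Finite.pi fun _ => Set.finite_Ico _ _

theorem RCT_fin (N : ℕ) : (RCT_B N).Finite := by
  have : RCT_B N = {x : Fin 4 → ℤ | ∀ j, 0 ≤ x j ∧ x j < (N : ℤ)} ×ˢ
      {x : Fin 4 → ℤ | ∀ j, 0 ≤ x j ∧ x j < (N : ℤ)} := by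
    ext z
    simp [RCT_B]
  rw [this]
  exact (RCT_fin1 _).prod (RCT_fin1 _)

theorem RCT_rB (N : ℕ) (hN : 0 < N) (z : (Fin 4 → ℤ) × (Fin 4 → ℤ)) : RCT_r N z ∈ RCT_B N := by
  have hN' : (0 : ℤ) < (N : ℤ) := by exact_mod_cast hN
  refine ⟨fun j => ⟨Int.emod_nonneg _ hN'.ne', Int.emod_lt_of_pos _ hN'⟩,
    fun j => ⟨Int.emod_nonneg _ hN'.ne', Int.emod_lt_of_pos _ hN'⟩⟩

theorem RCT_one (N₁ N₂ : ℕ) (hc : Nat.Coprime N₁ N₂) (a b : ℤ) (ha : 0 ≤ a ∧ a < (N₁ * N₂ : ℕ))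
    (hb : 0 ≤ b ∧ b < (N₁ * N₂ : ℕ)) (h1 : a % (N₁ : ℤ) = b % (N₁ : ℤ))
    (h2 : a % (N₂ : ℤ) = b % (N₂ : ℤ)) : a = b := by
  have d1 : (N₁ : ℤ) ∣ a - b := Int.ModEq.dvd (Eq.symm h1)
  have d2 : (N₂ : ℤ) ∣ a - b := Int.ModEq.dvd (Eq.symm h2)
  have hc' : IsCoprime (N₁ : ℤ) (N₂ : ℤ) := Nat.isCoprime_iff_coprime.mpr hc
  have d3 : (N₁ : ℤ) * (N₂ : ℤ) ∣ a - b := hc'.mul_dvd d1 d2
  have h3 : |a - b| < (N₁ : ℤ) * (N₂ : ℤ) := by
    rw [abs_lt]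
    push_cast at ha hb
    constructor <;> linarith [ha.1, ha.2, hb.1, hb.2]
  have := Int.eq_zero_of_abs_lt_dvd d3 h3
  linarith

theorem RCT_crt (S S₁ S₂ : Set ((Fin 4 → ℤ) × (Fin 4 → ℤ))) (N₁ N₂ : ℕ) (h₁ : 0 < N₁)
    (h₂ : 0 < N₂) (hc : Nat.Coprime N₁ N₂) (hS1 : ∀ z ∈ S, RCT_r N₁ z ∈ S₁)
    (hS2 : ∀ z ∈ S, RCT_r N₂ z ∈ S₂) :
    (S ∩ RCT_B (N₁ * N₂)).ncard ≤ (S₁ ∩ RCT_B N₁).ncard * (S₂ ∩ RCT_B N₂).ncard := by
  rw [← Set.ncard_prod]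
  refine Set.ncard_le_ncard_of_injOn (fun z => (RCT_r N₁ z, RCT_r N₂ z)) ?_ ?_ ?_
  · intro z hz
    exact ⟨⟨hS1 z hz.1, RCT_rB N₁ h₁ z⟩, ⟨hS2 z hz.1, RCT_rB N₂ h₂ z⟩⟩
  · intro z hz y hy hzy
    simp only [Prod.mk.injEq] at hzy
    obtain ⟨e1, e2⟩ := hzy
    have e11 := congrArg Prod.fst e1
    have e12 := congrArg Prod.snd e1
    have e21 := congrArg Prod.fst e2
    have e22 := congrArg Prod.snd e2
    apply Prod.ext
    · funext j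
      exact RCT_one N₁ N₂ hc _ _ (hz.2.1 j) (hy.2.1 j) (congrFun e11 j) (congrFun e21 j)
    · funext j
      exact RCT_one N₁ N₂ hc _ _ (hz.2.2 j) (hy.2.2 j) (congrFun e12 j) (congrFun e22 j)
  · exact ((RCT_fin _).subset Set.inter_subset_right).prod
      ((RCT_fin _).subset Set.inter_subset_right)

/-! ### Casting -/

theorem RCT_cast {n : ℕ} (b : Fin 2 → Matrix (Fin n) (Fin n) ℤ) (R : Type) [CommRing R]
    (x : Fin n → ℤ) (i : Fin 2) : ((qv b x i : ℤ) : R) = qv b (fun j => (x j : R)) i := by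
  simp [qv, Matrix.mulVec, dotProduct, Int.cast_sum, Int.cast_mul, Matrix.map_apply]

theorem RCT_con {n : ℕ} (b : Fin 2 → Matrix (Fin n) (Fin n) ℤ) (N : ℕ) (x y : Fin n → ℤ)
    (h : ∀ j, (N : ℤ) ∣ x j - y j) (i : Fin 2) : (N : ℤ) ∣ qv b x i - qv b y i := by
  rw [← ZMod.intCast_zmod_eq_zero_iff_dvd, Int.cast_sub, RCT_cast, RCT_cast, sub_eq_zero]
  congr 1
  funext j
  rw [ZMod.intCast_eq_intCast_iff_dvd_sub]
  have := h j
  rwa [dvd_sub_comm]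

theorem RCT_rdvd (N : ℕ) (a : ℤ) : (N : ℤ) ∣ a % (N : ℤ) - a := by
  rw [dvd_sub_comm]
  exact Int.dvd_self_sub_emod

/-! ### the image of a matrix of determinant zero -/

theorem RCT_H (n : ℕ) (hn : 0 < n) (a b a' b' : ZMod n) (h : a * b' = b * a') :
    ({z : ZMod n × ZMod n | ∃ s t : ZMod n, z = (s * a + t * b, s * a' + t * b')}).ncard ≤ n := by
  classical
  have : NeZero n := ⟨hn.ne'⟩
  set H := {z : ZMod n × ZMod n | ∃ s t : ZMod n, z = (s * a + t * b, s * a' + t * b')} with hH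
  set g : ℕ := Nat.gcd (Nat.gcd a.val b.val) n with hg
  have hgn : g ∣ n := Nat.gcd_dvd_right _ _
  have hg0 : 0 < g := Nat.pos_of_dvd_of_pos hgn hn
  have hga : g ∣ a.val := (Nat.gcd_dvd_left _ _).trans (Nat.gcd_dvd_left _ _)
  have hgb : g ∣ b.val := (Nat.gcd_dvd_left _ _).trans (Nat.gcd_dvd_right _ _)
  obtain ⟨k, hk⟩ := hgn
  have hk0 : 0 < k := by
    rcases Nat.eq_zero_or_pos k with h0 | h0
    · rw [h0, mul_zero] at hk; omega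
    · exact h0
  have hka : ∀ c : ZMod n, g ∣ c.val → (k : ZMod n) * c = 0 := by
    intro c ⟨c', hc'⟩
    have : c = ((c.val : ℕ) : ZMod n) := (ZMod.natCast_zmod_val c).symm
    rw [this, hc', ← Nat.cast_mul, show k * (g * c') = n * c' by rw [hk]; ring, Nat.cast_mul]
    simp
  have hkill : ∀ t : ZMod n, a * t = 0 → b * t = 0 → (g : ZMod n) * t = 0 := by
    intro t h1 h2
    have e1 : (g : ℤ) = (Nat.gcd a.val b.val : ℤ) * Nat.gcdA (Nat.gcd a.val b.val) n +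
        (n : ℤ) * Nat.gcdB (Nat.gcd a.val b.val) n := Nat.gcd_eq_gcd_ab _ _
    have e2 : ((Nat.gcd a.val b.val : ℕ) : ℤ) = (a.val : ℤ) * Nat.gcdA a.val b.val +
        (b.val : ℤ) * Nat.gcdB a.val b.val := Nat.gcd_eq_gcd_ab _ _
    have e3 : (g : ZMod n) = (a * (Nat.gcdA a.val b.val : ℤ) + b * (Nat.gcdB a.val b.val : ℤ)) *
        (Nat.gcdA (Nat.gcd a.val b.val) n : ℤ) := by
      have := congrArg (Int.cast : ℤ → ZMod n) e1
      rw [e2] at this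
      push_cast at this
      rw [ZMod.natCast_zmod_val, ZMod.natCast_zmod_val, ZMod.natCast_self] at this
      rw [this]
      ring
    rw [e3]
    linear_combination ((Nat.gcdA a.val b.val : ℤ) : ZMod n) *
      ((Nat.gcdA (Nat.gcd a.val b.val) n : ℤ) : ZMod n) * h1 +
      ((Nat.gcdB a.val b.val : ℤ) : ZMod n) *
      ((Nat.gcdA (Nat.gcd a.val b.val) n : ℤ) : ZMod n) * h2
  have cnt : ∀ m : ℕ, 0 < m → ({s : ZMod n | (m : ZMod n) * s = 0}).ncard ≤ m := by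
    intro m hm
    have := IsAddCyclic.card_nsmul_eq_zero_le (α := ZMod n) hm
    refine le_trans (le_of_eq ?_) this
    rw [← Set.ncard_coe_finset]
    congr 1
    ext s
    simp [nsmul_eq_mul]
  have main := RCT_fib H (Set.toFinite _) Prod.fst {s : ZMod n | (k : ZMod n) * s = 0}
    (Set.toFinite _) g (by
      rintro z ⟨s, t, rfl⟩
      show (k : ZMod n) * (s * a + t * b) = 0
      linear_combination s * hka a hga + t * hka b hgb) (by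
      intro s _
      rcases Set.eq_empty_or_nonempty {x ∈ H | x.1 = s} with h0 | ⟨z₀, hz₀⟩
      · rw [h0]; simp
      · refine le_trans ?_ (cnt g hg0)
        apply Set.ncard_le_ncard_of_injOn (fun z => z.2 - z₀.2)
        · intro z hz
          show (g : ZMod n) * (z.2 - z₀.2) = 0
          obtain ⟨⟨s1, t1, e1⟩, f1⟩ := hz
          obtain ⟨⟨s2, t2, e2⟩, f2⟩ := hz₀
          have c1 : z.1 = s1 * a + t1 * b := by rw [e1]
          have c2 : z.2 = s1 * a' + t1 * b' := by rw [e1]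
          have c3 : z₀.1 = s2 * a + t2 * b := by rw [e2]
          have c4 : z₀.2 = s2 * a' + t2 * b' := by rw [e2]
          have c5 : (s1 - s2) * a + (t1 - t2) * b = 0 := by
            have : z.1 = z₀.1 := by rw [f1, f2]
            rw [c1, c3] at this
            linear_combination this
          apply hkill
          · rw [c2, c4]
            linear_combination (t1 - t2) * h + a' * c5
          · rw [c2, c4]
            linear_combination -(s1 - s2) * h + b' * c5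
        · intro z hz y hy hzy
          have hzy' : z.2 - z₀.2 = y.2 - z₀.2 := hzy
          apply Prod.ext
          · rw [hz.2, hy.2]
          · exact sub_left_injective hzy')
  refine main.trans ?_
  calc g * ({s : ZMod n | (k : ZMod n) * s = 0}).ncard ≤ g * k := Nat.mul_le_mul_left _ (cnt k hk0)
    _ = n := hk.symm

/-- the unit `lam` -/
theorem RCT_lam (R : Type) [CommRing R] (a a' : Fin 2 → R) (h : a 0 * a' 1 = a 1 * a' 0)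
    (h1 : ∃ i, IsUnit (a i)) (h2 : ∃ i, IsUnit (a' i)) : ∃ lam : Rˣ, ∀ i, a i = (lam : R) * a' i := by
  have key : ∀ (x y x' y' : R), x * y' = y * x' → (IsUnit x ∨ IsUnit y) → IsUnit x' →
      ∃ lam : Rˣ, x = lam * x' ∧ y = lam * y' := by
    intro x y x' y' hxy hu hu'
    obtain ⟨u, rfl⟩ := hu'
    have e1 : x = (x * ↑u⁻¹) * (u : R) := by
      rw [mul_assoc, Units.inv_mul, mul_one]
    have e2 : y = (x * ↑u⁻¹) * y' := by
      calc y = (y * u) * ↑u⁻¹ := by rw [mul_assoc, Units.mul_inv, mul_one]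
        _ = (x * y') * ↑u⁻¹ := by rw [hxy]
        _ = (x * ↑u⁻¹) * y' := by ring
    have hl : IsUnit (x * (↑u⁻¹ : R)) := by
      rcases hu with hx | hy
      · exact hx.mul (Units.isUnit _)
      · rw [e2] at hy
        exact isUnit_of_mul_isUnit_left hy
    obtain ⟨l, hl⟩ := hl
    exact ⟨l, by rw [hl]; exact e1, by rw [hl]; exact e2⟩
  have hu : IsUnit (a 0) ∨ IsUnit (a 1) := by
    obtain ⟨i, hi⟩ := h1
    fin_cases i
    · exact Or.inl hi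
    · exact Or.inr hi
  obtain ⟨i, hi⟩ := h2
  fin_cases i
  · obtain ⟨l, h3, h4⟩ := key (a 0) (a 1) (a' 0) (a' 1) h hu hi
    refine ⟨l, fun i => ?_⟩
    fin_cases i
    · exact h3
    · exact h4
  · obtain ⟨l, h3, h4⟩ := key (a 1) (a 0) (a' 1) (a' 0) h.symm hu.symm hi
    refine ⟨l, fun i => ?_⟩
    fin_cases i
    · exact h4
    · exact h3

/-! ### the sets -/

/-- the set modulo `N` -/
def RCT_T (b : Fin 2 → Matrix (Fin 4) (Fin 4) ℤ) (c : Fin 2 → Matrix (Fin 2) (Fin 2) ℤ)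
    (w w' : Fin 2 → ℤ) (N : ℕ) : Set ((Fin 4 → ℤ) × (Fin 4 → ℤ)) :=
  {z | ∃ M : Matrix (Fin 2) (Fin 2) ℤ, ∀ i, (N : ℤ) ∣ qv b z.1 i - (M *ᵥ qv c w) i ∧
    (N : ℤ) ∣ qv b z.2 i - (M *ᵥ qv c w') i}

/-- the set modulo `W D` -/
def RCT_S (b : Fin 2 → Matrix (Fin 4) (Fin 4) ℤ) (c : Fin 2 → Matrix (Fin 2) (Fin 2) ℤ)
    (V W : ℕ) (M₀ : Matrix (Fin 2) (Fin 2) ℤ) (x₀ : Fin 4 → ℤ) (w w' : Fin 2 → ℤ) (D : ℕ) :
    Set ((Fin 4 → ℤ) × (Fin 4 → ℤ)) :=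
  {z | (∀ j, (V : ℤ) ∣ z.1 j - x₀ j) ∧ (∀ j, (V : ℤ) ∣ z.2 j - x₀ j) ∧
    ∃ M : Matrix (Fin 2) (Fin 2) ℤ, (∀ i j, (W : ℤ) ∣ M i j - M₀ i j) ∧
      ∀ i, ((W * D : ℕ) : ℤ) ∣ qv b z.1 i - (M *ᵥ qv c w) i ∧
        ((W * D : ℕ) : ℤ) ∣ qv b z.2 i - (M *ᵥ qv c w') i}

theorem RCT_rq (b : Fin 2 → Matrix (Fin 4) (Fin 4) ℤ) (N : ℕ) (x : Fin 4 → ℤ) (i : Fin 2) :
    (N : ℤ) ∣ qv b (fun j => x j % (N : ℤ)) i - qv b x i :=
  RCT_con b N _ _ (fun j => RCT_rdvd N (x j)) i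

theorem RCT_ST (b : Fin 2 → Matrix (Fin 4) (Fin 4) ℤ) (c : Fin 2 → Matrix (Fin 2) (Fin 2) ℤ)
    (V W : ℕ) (M₀ : Matrix (Fin 2) (Fin 2) ℤ) (x₀ : Fin 4 → ℤ) (w w' : Fin 2 → ℤ) (D N : ℕ)
    (hN : N ∣ W * D) : ∀ z ∈ RCT_S b c V W M₀ x₀ w w' D, RCT_r N z ∈ RCT_T b c w w' N := by
  rintro z ⟨-, -, M, -, hM⟩
  have hN' : (N : ℤ) ∣ ((W * D : ℕ) : ℤ) := Int.natCast_dvd_natCast.mpr hN
  refine ⟨M, fun i => ⟨?_, ?_⟩⟩
  · have := dvd_add (RCT_rq b N z.1 i) (hN'.trans (hM i).1)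
    rw [sub_add_sub_cancel] at this
    exact this
  · have := dvd_add (RCT_rq b N z.2 i) (hN'.trans (hM i).2)
    rw [sub_add_sub_cancel] at this
    exact this

theorem RCT_SS (b : Fin 2 → Matrix (Fin 4) (Fin 4) ℤ) (c : Fin 2 → Matrix (Fin 2) (Fin 2) ℤ)
    (V W : ℕ) (hVW : V ∣ W) (M₀ : Matrix (Fin 2) (Fin 2) ℤ) (x₀ : Fin 4 → ℤ) (w w' : Fin 2 → ℤ)
    (D D₁ : ℕ) (hD : D₁ ∣ D) : ∀ z ∈ RCT_S b c V W M₀ x₀ w w' D,
      RCT_r (W * D₁) z ∈ RCT_S b c V W M₀ x₀ w w' D₁ := by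
  rintro z ⟨h1, h2, M, hM0, hM⟩
  have hN' : ((W * D₁ : ℕ) : ℤ) ∣ ((W * D : ℕ) : ℤ) :=
    Int.natCast_dvd_natCast.mpr (Nat.mul_dvd_mul_left _ hD)
  have hV' : (V : ℤ) ∣ ((W * D₁ : ℕ) : ℤ) :=
    Int.natCast_dvd_natCast.mpr (hVW.trans (Nat.dvd_mul_right _ _))
  refine ⟨fun j => ?_, fun j => ?_, M, hM0, fun i => ⟨?_, ?_⟩⟩
  · have := dvd_add (hV'.trans (RCT_rdvd (W * D₁) (z.1 j))) (h1 j)
    rw [sub_add_sub_cancel] at this
    exact this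
  · have := dvd_add (hV'.trans (RCT_rdvd (W * D₁) (z.2 j))) (h2 j)
    rw [sub_add_sub_cancel] at this
    exact this
  · have := dvd_add (RCT_rq b (W * D₁) z.1 i) (hN'.trans (hM i).1)
    rw [sub_add_sub_cancel] at this
    exact this
  · have := dvd_add (RCT_rq b (W * D₁) z.2 i) (hN'.trans (hM i).2)
    rw [sub_add_sub_cancel] at this
    exact this

/-- the bound modulo `N` when `φ(w) = lam φ(w')` -/
theorem RCT_pj (b : Fin 2 → Matrix (Fin 4) (Fin 4) ℤ) (c : Fin 2 → Matrix (Fin 2) (Fin 2) ℤ)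
    (w w' : Fin 2 → ℤ) (N : ℕ) (hN : 0 < N) (lam : (ZMod N)ˣ)
    (hl : ∀ i, ((qv c w i : ℤ) : ZMod N) = (lam : ZMod N) * ((qv c w' i : ℤ) : ZMod N)) :
    (RCT_T b c w w' N ∩ RCT_B N).ncard ≤
      Nat.card {z : (Fin 4 → ZMod N) × (Fin 4 → ZMod N) //
        qv b z.1 = (lam : ZMod N) • qv b z.2} := by
  have : NeZero N := ⟨hN.ne'⟩
  have e0 : Nat.card {z : (Fin 4 → ZMod N) × (Fin 4 → ZMod N) //
        qv b z.1 = (lam : ZMod N) • qv b z.2} =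
      ({z : (Fin 4 → ZMod N) × (Fin 4 → ZMod N) |
        qv b z.1 = (lam : ZMod N) • qv b z.2}).ncard := Nat.card_coe_set_eq _
  rw [e0]
  refine Set.ncard_le_ncard_of_injOn
    (fun z => (fun j => ((z.1 j : ℤ) : ZMod N), fun j => ((z.2 j : ℤ) : ZMod N))) ?_ ?_
    (Set.toFinite _)
  · rintro z ⟨⟨M, hM⟩, -⟩
    show qv b (fun j => ((z.1 j : ℤ) : ZMod N)) =
      (lam : ZMod N) • qv b (fun j => ((z.2 j : ℤ) : ZMod N))
    funext i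
    have h1 := (ZMod.intCast_zmod_eq_zero_iff_dvd _ _).mpr (hM i).1
    have h2 := (ZMod.intCast_zmod_eq_zero_iff_dvd _ _).mpr (hM i).2
    rw [Int.cast_sub, sub_eq_zero, RCT_cast] at h1 h2
    rw [h1, Pi.smul_apply, smul_eq_mul, h2]
    simp only [Matrix.mulVec, dotProduct, Fin.sum_univ_two, Int.cast_add, Int.cast_mul, hl]
    ring
  · intro z hz y hy hzy
    have inj : ∀ a a' : ℤ, 0 ≤ a ∧ a < (N : ℤ) → 0 ≤ a' ∧ a' < (N : ℤ) →
        (a : ZMod N) = (a' : ZMod N) → a = a' := by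
      intro a a' h1 h2 h3
      rw [ZMod.intCast_eq_intCast_iff_dvd_sub] at h3
      have h4 : |a' - a| < (N : ℤ) := by
        rw [abs_lt]
        constructor <;> linarith [h1.1, h1.2, h2.1, h2.2]
      have := Int.eq_zero_of_abs_lt_dvd h3 h4
      linarith
    have e1 := congrArg Prod.fst hzy
    have e2 := congrArg Prod.snd hzy
    apply Prod.ext
    · funext j
      exact inj _ _ (hz.2.1 j) (hy.2.1 j) (congrFun e1 j)
    · funext j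
      exact inj _ _ (hz.2.2 j) (hy.2.2 j) (congrFun e2 j)

/-- the bound modulo `W n` -/
theorem RCT_W (hHEN : Stmt_HEN) (b : Fin 2 → Matrix (Fin 4) (Fin 4) ℤ)
    (c : Fin 2 → Matrix (Fin 2) (Fin 2) ℤ) (m V' : ℕ) (M₀ : Matrix (Fin 2) (Fin 2) ℤ)
    (x₀ : Fin 4 → ℤ) (w w' : Fin 2 → ℤ) (hm : 0 < m) (hV : 0 < V') (hreg : Reg b m V' x₀)
    (σ σ' : Fin 2 → ℤ)
    (hσ : ∀ i, (M₀ *ᵥ qv c w) i = qv b x₀ i + ((m ^ 2 * V' : ℕ) : ℤ) * σ i)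
    (hσ' : ∀ i, (M₀ *ᵥ qv c w') i = qv b x₀ i + ((m ^ 2 * V' : ℕ) : ℤ) * σ' i)
    (n : ℕ) (hn : 0 < n) (hnd : (n : ℤ) ∣ wdg c w w')
    (hnV : ∀ p : ℕ, p.Prime → p ∣ n → p ∣ V') :
    (RCT_S b c (m * V') (m ^ 2 * V') M₀ x₀ w w' n ∩ RCT_B (m ^ 2 * V' * n)).ncard ≤
      (kap b m V' x₀ * n ^ 2) ^ 2 * (n * n) := by
  have : NeZero n := ⟨hn.ne'⟩
  set W : ℕ := m ^ 2 * V' with hW
  have hW0 : 0 < W := by positivity
  have hW0' : (W : ℤ) ≠ 0 := by exact_mod_cast hW0.ne'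
  set a : ZMod n := ((qv c w 0 : ℤ) : ZMod n) with ha
  set b1 : ZMod n := ((qv c w 1 : ℤ) : ZMod n) with hb1
  set a' : ZMod n := ((qv c w' 0 : ℤ) : ZMod n) with ha'
  set b1' : ZMod n := ((qv c w' 1 : ℤ) : ZMod n) with hb1'
  have hdet : a * b1' = b1 * a' := by
    have h1 := (ZMod.intCast_zmod_eq_zero_iff_dvd _ _).mpr hnd
    rw [wdg] at h1
    push_cast at h1
    rw [← ha, ← hb1, ← ha', ← hb1'] at h1
    linear_combination h1
  set H := {z : ZMod n × ZMod n | ∃ s t : ZMod n, z = (s * a + t * b1, s * a' + t * b1')} with hH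
  have hHc : H.ncard ≤ n := RCT_H n hn a b1 a' b1' hdet
  let e : Fin 2 → (Fin 4 → ℤ) → ℤ := fun i x => (qv b x i - qv b x₀ i) / (W : ℤ)
  let T : Set ((ZMod n × ZMod n) × (ZMod n × ZMod n)) :=
    ((fun h => h + (((σ 0 : ℤ) : ZMod n), ((σ' 0 : ℤ) : ZMod n))) '' H) ×ˢ
    ((fun h => h + (((σ 1 : ℤ) : ZMod n), ((σ' 1 : ℤ) : ZMod n))) '' H)
  let f : (Fin 4 → ℤ) × (Fin 4 → ℤ) → (ZMod n × ZMod n) × (ZMod n × ZMod n) := fun z =>
    ((((e 0 z.1 : ℤ) : ZMod n), ((e 0 z.2 : ℤ) : ZMod n)),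
      (((e 1 z.1 : ℤ) : ZMod n), ((e 1 z.2 : ℤ) : ZMod n)))
  have hT : T.ncard ≤ n * n := by
    show (((fun h => h + (((σ 0 : ℤ) : ZMod n), ((σ' 0 : ℤ) : ZMod n))) '' H) ×ˢ
      ((fun h => h + (((σ 1 : ℤ) : ZMod n), ((σ' 1 : ℤ) : ZMod n))) '' H)).ncard ≤ n * n
    rw [Set.ncard_prod]
    exact Nat.mul_le_mul ((Set.ncard_image_le (Set.toFinite _)).trans hHc)
      ((Set.ncard_image_le (Set.toFinite _)).trans hHc)
  have hmul : ∀ (x : Fin 4 → ℤ) (v : Fin 2 → ℤ) (τ : Fin 2 → ℤ) (M : Matrix (Fin 2) (Fin 2) ℤ)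
      (N : Matrix (Fin 2) (Fin 2) ℤ), (∀ i j, M i j - M₀ i j = (W : ℤ) * N i j) →
      (∀ i, (M₀ *ᵥ qv c v) i = qv b x₀ i + (W : ℤ) * τ i) →
      (∀ i, ((W * n : ℕ) : ℤ) ∣ qv b x i - (M *ᵥ qv c v) i) → ∀ i,
      qv b x i - qv b x₀ i = (W : ℤ) * e i x ∧
      ((e i x : ℤ) : ZMod n) = ((N i 0 : ℤ) : ZMod n) * ((qv c v 0 : ℤ) : ZMod n) +
        ((N i 1 : ℤ) : ZMod n) * ((qv c v 1 : ℤ) : ZMod n) + ((τ i : ℤ) : ZMod n) := by
    intro x v τ M N hMN hτ hx i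
    obtain ⟨q, hq⟩ := hx i
    have e1 : (M *ᵥ qv c v) i = (M₀ *ᵥ qv c v) i + (W : ℤ) * (N i 0 * qv c v 0 + N i 1 * qv c v 1) := by
      simp only [Matrix.mulVec, dotProduct, Fin.sum_univ_two]
      have h0 := hMN i 0
      have h1 := hMN i 1
      linear_combination (qv c v 0) * h0 + (qv c v 1) * h1
    have e2 : qv b x i - qv b x₀ i = (W : ℤ) *
        (τ i + (N i 0 * qv c v 0 + N i 1 * qv c v 1) + n * q) := by
      rw [e1, hτ] at hq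
      push_cast at hq
      linear_combination hq
    have e3 : e i x = τ i + (N i 0 * qv c v 0 + N i 1 * qv c v 1) + n * q := by
      show (qv b x i - qv b x₀ i) / (W : ℤ) = _
      rw [e2, Int.mul_ediv_cancel_left _ hW0']
    refine ⟨by rw [e3]; exact e2, ?_⟩
    rw [e3]
    push_cast
    rw [ZMod.natCast_self]
    ring
  have hint : ∀ z ∈ RCT_S b c (m * V') W M₀ x₀ w w' n, ∃ N : Matrix (Fin 2) (Fin 2) ℤ,
      (∀ i, qv b z.1 i - qv b x₀ i = (W : ℤ) * e i z.1 ∧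
      ((e i z.1 : ℤ) : ZMod n) = ((N i 0 : ℤ) : ZMod n) * a +
        ((N i 1 : ℤ) : ZMod n) * b1 + ((σ i : ℤ) : ZMod n)) ∧
      (∀ i, qv b z.2 i - qv b x₀ i = (W : ℤ) * e i z.2 ∧
      ((e i z.2 : ℤ) : ZMod n) = ((N i 0 : ℤ) : ZMod n) * a' +
        ((N i 1 : ℤ) : ZMod n) * b1' + ((σ' i : ℤ) : ZMod n)) := by
    rintro z ⟨-, -, M, hM0, hM⟩
    choose N hN using hM0
    exact ⟨Matrix.of N, hmul z.1 w σ M (Matrix.of N) hN hσ (fun i => (hM i).1),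
      hmul z.2 w' σ' M (Matrix.of N) hN hσ' (fun i => (hM i).2)⟩
  have main := RCT_fib (RCT_S b c (m * V') W M₀ x₀ w w' n ∩ RCT_B (W * n))
    ((RCT_fin _).subset Set.inter_subset_right) f T (Set.toFinite _)
    ((kap b m V' x₀ * n ^ 2) ^ 2) (by
      intro z hz
      obtain ⟨N, hN1, hN2⟩ := hint z hz.1
      refine ⟨?_, ?_⟩
      · refine ⟨(((N 0 0 : ℤ) : ZMod n) * a + ((N 0 1 : ℤ) : ZMod n) * b1,
          ((N 0 0 : ℤ) : ZMod n) * a' + ((N 0 1 : ℤ) : ZMod n) * b1'), ⟨_, _, rfl⟩, ?_⟩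
        show (((N 0 0 : ℤ) : ZMod n) * a + ((N 0 1 : ℤ) : ZMod n) * b1,
          ((N 0 0 : ℤ) : ZMod n) * a' + ((N 0 1 : ℤ) : ZMod n) * b1') +
          (((σ 0 : ℤ) : ZMod n), ((σ' 0 : ℤ) : ZMod n)) =
          (((e 0 z.1 : ℤ) : ZMod n), ((e 0 z.2 : ℤ) : ZMod n))
        rw [(hN1 0).2, (hN2 0).2, Prod.mk_add_mk]
      · refine ⟨(((N 1 0 : ℤ) : ZMod n) * a + ((N 1 1 : ℤ) : ZMod n) * b1,
          ((N 1 0 : ℤ) : ZMod n) * a' + ((N 1 1 : ℤ) : ZMod n) * b1'), ⟨_, _, rfl⟩, ?_⟩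
        show (((N 1 0 : ℤ) : ZMod n) * a + ((N 1 1 : ℤ) : ZMod n) * b1,
          ((N 1 0 : ℤ) : ZMod n) * a' + ((N 1 1 : ℤ) : ZMod n) * b1') +
          (((σ 1 : ℤ) : ZMod n), ((σ' 1 : ℤ) : ZMod n)) =
          (((e 1 z.1 : ℤ) : ZMod n), ((e 1 z.2 : ℤ) : ZMod n))
        rw [(hN1 1).2, (hN2 1).2, Prod.mk_add_mk]) (by
      rintro ⟨⟨t00, t01⟩, ⟨t10, t11⟩⟩ _
      let ρ : Fin 2 → ℤ := ![(t00.val : ℤ), (t10.val : ℤ)]
      let ρ' : Fin 2 → ℤ := ![(t01.val : ℤ), (t11.val : ℤ)]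
      have H1 := hHEN b m V' x₀ hm hV hreg n hn hnV ρ
      have H2 := hHEN b m V' x₀ hm hV hreg n hn hnV ρ'
      rw [← hW] at H1 H2
      set A₁ := {x : Fin 4 → ℤ | (∀ j, 0 ≤ x j ∧ x j < ((W * n : ℕ) : ℤ)) ∧
        (∀ j, ((m * V' : ℕ) : ℤ) ∣ x j - x₀ j) ∧
        ∀ i, ((W * n : ℕ) : ℤ) ∣ qv b x i - qv b x₀ i - (W : ℤ) * ρ i} with hA₁
      set A₂ := {x : Fin 4 → ℤ | (∀ j, 0 ≤ x j ∧ x j < ((W * n : ℕ) : ℤ)) ∧
        (∀ j, ((m * V' : ℕ) : ℤ) ∣ x j - x₀ j) ∧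
        ∀ i, ((W * n : ℕ) : ℤ) ∣ qv b x i - qv b x₀ i - (W : ℤ) * ρ' i} with hA₂
      have hprod : (kap b m V' x₀ * n ^ 2) ^ 2 = (A₁ ×ˢ A₂).ncard := by
        rw [Set.ncard_prod, H1, H2, pow_two]
      rw [hprod]
      have hkey : ∀ (x : Fin 4 → ℤ) (i : Fin 2) (t : ZMod n),
          qv b x i - qv b x₀ i = (W : ℤ) * e i x → ((e i x : ℤ) : ZMod n) = t →
          ((W * n : ℕ) : ℤ) ∣ qv b x i - qv b x₀ i - (W : ℤ) * (t.val : ℤ) := by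
        intro x i t h1 h2
        have h3 : ((e i x : ℤ) : ZMod n) = (((t.val : ℕ) : ℤ) : ZMod n) := by
          rw [h2, Int.cast_natCast, ZMod.natCast_zmod_val]
        rw [ZMod.intCast_eq_intCast_iff_dvd_sub, dvd_sub_comm] at h3
        obtain ⟨q, hq⟩ := h3
        refine ⟨q, ?_⟩
        rw [h1, ← mul_sub, hq]
        push_cast
        ring
      apply Set.ncard_le_ncard
      · rintro z ⟨hz, hfz⟩
        obtain ⟨N, hN1, hN2⟩ := hint z hz.1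
        have g00 : ((e 0 z.1 : ℤ) : ZMod n) = t00 := congrArg (fun q => q.1.1) hfz
        have g01 : ((e 0 z.2 : ℤ) : ZMod n) = t01 := congrArg (fun q => q.1.2) hfz
        have g10 : ((e 1 z.1 : ℤ) : ZMod n) = t10 := congrArg (fun q => q.2.1) hfz
        have g11 : ((e 1 z.2 : ℤ) : ZMod n) = t11 := congrArg (fun q => q.2.2) hfz
        refine ⟨⟨hz.2.1, hz.1.1, fun i => ?_⟩, ⟨hz.2.2, hz.1.2.1, fun i => ?_⟩⟩
        · fin_cases i
          · exact hkey z.1 0 t00 (hN1 0).1 g00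
          · exact hkey z.1 1 t10 (hN1 1).1 g10
        · fin_cases i
          · exact hkey z.2 0 t01 (hN2 0).1 g01
          · exact hkey z.2 1 t11 (hN2 1).1 g11
      · exact ((RCT_fin1 _).subset fun x hx => hx.1).prod ((RCT_fin1 _).subset fun x hx => hx.1))
  exact main.trans (Nat.mul_le_mul_left _ hT)

/-- units modulo prime powers -/
theorem RCT_unit (p j : ℕ) (hp : p.Prime) (_hj : 0 < j) (x : ℤ) (hx : ¬ (p : ℤ) ∣ x) :
    IsUnit ((x : ℤ) : ZMod (p ^ j)) := by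
  rw [ZMod.coe_int_isUnit_iff_isCoprime]
  have h1 : IsCoprime (p : ℤ) x :=
    (Prime.coprime_iff_not_dvd (Nat.prime_iff_prime_int.mp hp)).mpr hx
  push_cast
  exact h1.pow_left

/-- the Euler product -/
theorem RCT_exp (P₀ : ℕ) (hP : 20 ≤ P₀) (s : Finset ℕ) (hs : ∀ p ∈ s, P₀ < p) :
    ∏ p ∈ s, (1 + 10 / (p : ℝ) ^ 2) ≤ 1 + 20 / (P₀ : ℝ) := by
  have hP' : (20 : ℝ) ≤ (P₀ : ℝ) := by exact_mod_cast hP
  have hP0 : (0 : ℝ) < (P₀ : ℝ) := by linarith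
  have h1 : ∏ p ∈ s, (1 + 10 / (p : ℝ) ^ 2) ≤ ∏ p ∈ s, Real.exp (10 / (p : ℝ) ^ 2) := by
    refine Finset.prod_le_prod (fun p _ => by positivity) (fun p _ => ?_)
    rw [add_comm]
    exact Real.add_one_le_exp _
  have h2 : ∑ p ∈ s, ((p : ℝ) ^ 2)⁻¹ ≤ (P₀ : ℝ)⁻¹ := by
    set n : ℕ := P₀ + s.sup id with hn
    have hsub : s ⊆ Finset.Ioc P₀ n := by
      intro p hp
      rw [Finset.mem_Ioc]
      have h3 : p ≤ s.sup id := Finset.le_sup (f := id) hp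
      exact ⟨hs p hp, by omega⟩
    calc ∑ p ∈ s, ((p : ℝ) ^ 2)⁻¹ ≤ ∑ p ∈ Finset.Ioc P₀ n, ((p : ℝ) ^ 2)⁻¹ :=
          Finset.sum_le_sum_of_subset_of_nonneg hsub fun _ _ _ => by positivity
      _ ≤ (P₀ : ℝ)⁻¹ - (n : ℝ)⁻¹ := sum_Ioc_inv_sq_le_sub (by omega) (by omega)
      _ ≤ (P₀ : ℝ)⁻¹ := by
          have : 0 ≤ (n : ℝ)⁻¹ := by positivity
          linarith
  rw [← Real.exp_sum] at h1
  have h3 : ∑ p ∈ s, 10 / (p : ℝ) ^ 2 ≤ 10 / (P₀ : ℝ) := by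
    have : ∑ p ∈ s, 10 / (p : ℝ) ^ 2 = 10 * ∑ p ∈ s, ((p : ℝ) ^ 2)⁻¹ := by
      rw [Finset.mul_sum]
      refine Finset.sum_congr rfl fun p _ => ?_
      rw [div_eq_mul_inv]
    rw [this, div_eq_mul_inv]
    linarith
  set t : ℝ := 10 / (P₀ : ℝ) with ht
  have ht0 : 0 ≤ t := by positivity
  have ht1 : t ≤ 1 / 2 := by
    rw [ht, div_le_div_iff₀ hP0 (by norm_num)]
    linarith
  have h4 : Real.exp t ≤ 1 / (1 - t) := Real.exp_bound_div_one_sub_of_interval ht0 (by linarith)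
  have h5 : 1 / (1 - t) ≤ 1 + 2 * t := by
    rw [div_le_iff₀ (by linarith)]
    nlinarith
  have h6 : 1 + 2 * t = 1 + 20 / (P₀ : ℝ) := by
    rw [ht]; ring
  calc ∏ p ∈ s, (1 + 10 / (p : ℝ) ^ 2) ≤ Real.exp (∑ p ∈ s, 10 / (p : ℝ) ^ 2) := h1
    _ ≤ Real.exp t := Real.exp_le_exp.mpr h3
    _ ≤ 1 + 2 * t := h4.trans h5
    _ = _ := h6

theorem p_RCT (hHEN : Stmt_HEN) (hPAI : Stmt_PAI) (hCOI : Stmt_COI) : Stmt_RCT := by
  classical
  intro b c hb hres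
  obtain ⟨P, hP⟩ := hPAI b hb
  refine ⟨max (max P (res c).natAbs) 20, ?_⟩
  intro P₀ m V' M₀ x₀ w₀ w w' hP₀ hLD hw hw' hwd
  have hP1 : P ≤ P₀ := (le_max_left _ _).trans ((le_max_left _ _).trans hP₀)
  have hP2 : (res c).natAbs ≤ P₀ := (le_max_right _ _).trans ((le_max_left _ _).trans hP₀)
  have hP3 : 20 ≤ P₀ := (le_max_right _ _).trans hP₀
  set W : ℕ := m ^ 2 * V' with hW
  have hm := hLD.m0
  have hV := hLD.V0
  have hW0 : 0 < W := by positivity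
  have hVW : m * V' ∣ W := ⟨m, by rw [hW]; ring⟩
  -- the integers `σ`
  have hsig : ∀ v : Fin 2 → ℤ, Adm P₀ W w₀ v → ∃ σ : Fin 2 → ℤ,
      ∀ i, (M₀ *ᵥ qv c v) i = qv b x₀ i + (W : ℤ) * σ i := by
    intro v hv
    have h1 : ∀ i, (W : ℤ) ∣ (M₀ *ᵥ qv c v) i - qv b x₀ i := by
      intro i
      have a1 := hLD.zer i
      rw [← hW] at a1
      have a2 : (W : ℤ) ∣ (M₀ *ᵥ qv c v) i - (M₀ *ᵥ qv c w₀) i := by
        have a3 : (M₀ *ᵥ qv c v) i - (M₀ *ᵥ qv c w₀) i = M₀ i 0 * (qv c v 0 - qv c w₀ 0) +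
            M₀ i 1 * (qv c v 1 - qv c w₀ 1) := by
          simp only [Matrix.mulVec, dotProduct, Fin.sum_univ_two]
          ring
        rw [a3]
        exact dvd_add (Dvd.dvd.mul_left (RCT_con c W v w₀ hv.1 0) _)
          (Dvd.dvd.mul_left (RCT_con c W v w₀ hv.1 1) _)
      have a4 := dvd_sub a2 a1
      have a5 : (M₀ *ᵥ qv c v) i - (M₀ *ᵥ qv c w₀) i - (qv b x₀ i - (M₀ *ᵥ qv c w₀) i) =
          (M₀ *ᵥ qv c v) i - qv b x₀ i := by ring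
      rwa [a5] at a4
    choose σ hσ using h1
    exact ⟨σ, fun i => by linarith [hσ i]⟩
  obtain ⟨σ, hσ⟩ := hsig w hw
  obtain ⟨σ', hσ'⟩ := hsig w' hw'
  set D : ℕ := (wdg c w w').natAbs with hD
  have hD0 : D ≠ 0 := Int.natAbs_ne_zero.mpr hwd
  have hDabs : |wdg c w w'| = (D : ℤ) := Int.abs_eq_natAbs _
  set e : ℕ → ℕ := fun p => D.factorization p with he
  set big : Finset ℕ := D.primeFactors.filter (fun p => P₀ < p) with hbig
  set sma : Finset ℕ := D.primeFactors.filter (fun p => ¬ P₀ < p) with hsma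
  set d₁ : ℕ := ∏ p ∈ sma, p ^ e p with hd₁
  have hDprod : D = d₁ * ∏ p ∈ big, p ^ e p := by
    have h1 : ∏ p ∈ D.primeFactors, p ^ e p = D := Nat.prod_factorization_pow_eq_self hD0
    rw [hd₁, mul_comm, hbig, hsma,
      Finset.prod_filter_mul_prod_filter_not D.primeFactors (fun p => P₀ < p) (fun p => p ^ e p),
      h1]
  have hd₁0 : 0 < d₁ := by
    rw [hd₁]
    exact Finset.prod_pos fun p hp =>
      pow_pos (Nat.prime_of_mem_primeFactors (Finset.mem_filter.mp hp).1).pos _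
  have hd₁V : ∀ p : ℕ, p.Prime → p ∣ d₁ → p ∣ V' ∧ ¬ P₀ < p := by
    intro p hp hpd
    rw [hd₁] at hpd
    obtain ⟨q, hq, hpq⟩ := (hp.prime.dvd_finsetProd_iff _).mp hpd
    have hq' := Finset.mem_filter.mp hq
    have := (Nat.prime_dvd_prime_iff_eq hp (Nat.prime_of_mem_primeFactors hq'.1)).mp
      (hp.dvd_of_dvd_pow hpq)
    subst this
    exact ⟨hLD.small p hp (by omega), hq'.2⟩
  have hd₁D : (d₁ : ℤ) ∣ wdg c w w' := by
    rw [Int.natCast_dvd, ← hD]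
    exact ⟨_, hDprod⟩
  -- the part modulo `W d₁`
  have hA := RCT_W hHEN b c m V' M₀ x₀ w w' hm hV hLD.reg σ σ' hσ hσ' d₁ hd₁0 hd₁D
    (fun p hp hpd => (hd₁V p hp hpd).1)
  rw [← hW] at hA
  -- the parts modulo `p ^ e p`
  have hpp : ∀ p ∈ big, p.Prime ∧ P₀ < p ∧ 0 < e p ∧ ((p ^ e p : ℕ) : ℤ) ∣ wdg c w w' := by
    intro p hp
    obtain ⟨hp1, hp2⟩ := Finset.mem_filter.mp hp
    have hpr := Nat.prime_of_mem_primeFactors hp1
    refine ⟨hpr, hp2, ?_, ?_⟩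
    · exact hpr.factorization_pos_of_dvd hD0 (Nat.dvd_of_mem_primeFactors hp1)
    · rw [Int.natCast_dvd, ← hD]
      exact Nat.ordProj_dvd D p
  have hnot : ∀ v : Fin 2 → ℤ, Adm P₀ W w₀ v → ∀ p : ℕ, p.Prime → P₀ < p →
      ∃ i, ¬ (p : ℤ) ∣ qv c v i := by
    intro v hv p hp hpP
    by_contra hcon
    push Not at hcon
    have h1 : ¬ (p : ℤ) ∣ res c := by
      intro h
      rw [Int.natCast_dvd] at h
      have := Nat.le_of_dvd (Int.natAbs_pos.mpr hres) h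
      omega
    have h2 := (hCOI c).2 p v hp h1 hcon
    exact hv.2 p hp hpP ⟨h2 0, h2 1⟩
  have hB : ∀ p ∈ big, ((RCT_T b c w w' (p ^ e p) ∩ RCT_B (p ^ e p)).ncard : ℝ) ≤
      ((p ^ e p : ℕ) : ℝ) ^ 6 * (1 + 10 / (p : ℝ) ^ 2) := by
    intro p hp
    obtain ⟨hpr, hpP, hep, hpd⟩ := hpp p hp
    obtain ⟨i, hi⟩ := hnot w hw p hpr hpP
    obtain ⟨k, hk⟩ := hnot w' hw' p hpr hpP
    have hN : 0 < p ^ e p := pow_pos hpr.pos _
    obtain ⟨lam, hlam⟩ := RCT_lam (ZMod (p ^ e p)) (fun i => ((qv c w i : ℤ) : ZMod (p ^ e p)))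
      (fun i => ((qv c w' i : ℤ) : ZMod (p ^ e p))) (by
        have h1 := (ZMod.intCast_zmod_eq_zero_iff_dvd _ _).mpr hpd
        rw [wdg] at h1
        rw [Int.cast_sub, Int.cast_mul, Int.cast_mul] at h1
        linear_combination h1)
      ⟨i, RCT_unit p (e p) hpr hep _ hi⟩ ⟨k, RCT_unit p (e p) hpr hep _ hk⟩
    have h1 := RCT_pj b c w w' (p ^ e p) hN lam hlam
    have h2 := hP p hpr (by omega) (e p) lam
    have h3 : (RCT_T b c w w' (p ^ e p) ∩ RCT_B (p ^ e p)).ncard * p ^ 2 ≤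
        p ^ (6 * e p) * (p ^ 2 + 10) := (Nat.mul_le_mul_right _ h1).trans h2
    have hp0 : (0 : ℝ) < (p : ℝ) := by exact_mod_cast hpr.pos
    have h4 : ((RCT_T b c w w' (p ^ e p) ∩ RCT_B (p ^ e p)).ncard : ℝ) * (p : ℝ) ^ 2 ≤
        (p : ℝ) ^ (6 * e p) * ((p : ℝ) ^ 2 + 10) := by exact_mod_cast h3
    have h5 : ((p ^ e p : ℕ) : ℝ) ^ 6 = (p : ℝ) ^ (6 * e p) := by
      push_cast
      rw [← pow_mul, mul_comm]
    rw [h5]
    have h6 : (p : ℝ) ^ (6 * e p) * (1 + 10 / (p : ℝ) ^ 2) =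
        (p : ℝ) ^ (6 * e p) * ((p : ℝ) ^ 2 + 10) / (p : ℝ) ^ 2 := by
      field_simp
    rw [h6, le_div_iff₀ (by positivity)]
    exact h4
  -- Chinese remainder theorem
  have hC : ∀ s : Finset ℕ, s ⊆ big →
      (RCT_S b c (m * V') W M₀ x₀ w w' (d₁ * ∏ p ∈ s, p ^ e p) ∩
        RCT_B (W * (d₁ * ∏ p ∈ s, p ^ e p))).ncard ≤
      (RCT_S b c (m * V') W M₀ x₀ w w' d₁ ∩ RCT_B (W * d₁)).ncard *
        ∏ p ∈ s, (RCT_T b c w w' (p ^ e p) ∩ RCT_B (p ^ e p)).ncard := by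
    intro s
    induction s using Finset.induction_on with
    | empty => intro _; simp
    | insert p s hps ih =>
      intro hsub
      have hsub' : s ⊆ big := fun q hq => hsub (Finset.mem_insert_of_mem hq)
      have hpb : p ∈ big := hsub (Finset.mem_insert_self _ _)
      obtain ⟨hpr, hpP, hep, hpd⟩ := hpp p hpb
      rw [Finset.prod_insert hps, Finset.prod_insert hps]
      set Q := ∏ q ∈ s, q ^ e q with hQ
      have hQ0 : 0 < Q := Finset.prod_pos fun q hq => pow_pos (hpp q (hsub' hq)).1.pos _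
      have hcop : Nat.Coprime (W * (d₁ * Q)) (p ^ e p) := by
        apply Nat.Coprime.pow_right
        rw [Nat.coprime_comm, Nat.Prime.coprime_iff_not_dvd hpr]
        intro hdv
        rcases (hpr.dvd_mul).mp hdv with h | h
        · have : p ∣ m * V' := by
            rw [hW] at h
            rcases (hpr.dvd_mul).mp h with h' | h'
            · exact Dvd.dvd.mul_right (hpr.dvd_of_dvd_pow h') _
            · exact Dvd.dvd.mul_left h' _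
          have := hLD.only p hpr this
          omega
        · rcases (hpr.dvd_mul).mp h with h' | h'
          · exact (hd₁V p hpr h').2 hpP
          · rw [hQ] at h'
            obtain ⟨q, hq, hpq⟩ := (hpr.prime.dvd_finsetProd_iff _).mp h'
            have := (Nat.prime_dvd_prime_iff_eq hpr (hpp q (hsub' hq)).1).mp
              (hpr.dvd_of_dvd_pow hpq)
            subst this
            exact hps hq
      have e1 : W * (d₁ * (p ^ e p * Q)) = W * (d₁ * Q) * p ^ e p := by ring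
      have e2 := RCT_crt (RCT_S b c (m * V') W M₀ x₀ w w' (d₁ * (p ^ e p * Q)))
        (RCT_S b c (m * V') W M₀ x₀ w w' (d₁ * Q)) (RCT_T b c w w' (p ^ e p))
        (W * (d₁ * Q)) (p ^ e p) (by positivity) (pow_pos hpr.pos _) hcop
        (RCT_SS b c (m * V') W hVW M₀ x₀ w w' _ _ ⟨p ^ e p, by ring⟩)
        (RCT_ST b c (m * V') W M₀ x₀ w w' _ _ ⟨W * (d₁ * Q), by ring⟩)
      rw [e1]
      refine e2.trans ?_
      calc _ ≤ ((RCT_S b c (m * V') W M₀ x₀ w w' d₁ ∩ RCT_B (W * d₁)).ncard *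
            ∏ p ∈ s, (RCT_T b c w w' (p ^ e p) ∩ RCT_B (p ^ e p)).ncard) *
            (RCT_T b c w w' (p ^ e p) ∩ RCT_B (p ^ e p)).ncard :=
            Nat.mul_le_mul_right _ (ih hsub')
        _ = _ := by ring
  have hC' := hC big (Finset.Subset.refl _)
  rw [← hDprod] at hC'
  -- the set of the statement
  have hset : Set.ncard {z : (Fin 4 → ℤ) × (Fin 4 → ℤ) |
        (∀ j, 0 ≤ z.1 j ∧ z.1 j < (W : ℤ) * |wdg c w w'|) ∧
        (∀ j, 0 ≤ z.2 j ∧ z.2 j < (W : ℤ) * |wdg c w w'|) ∧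
        (∀ j, ((m * V' : ℕ) : ℤ) ∣ z.1 j - x₀ j) ∧ (∀ j, ((m * V' : ℕ) : ℤ) ∣ z.2 j - x₀ j) ∧
        ∃ M : Matrix (Fin 2) (Fin 2) ℤ, (∀ i j, (W : ℤ) ∣ M i j - M₀ i j) ∧
          ∀ i, (W : ℤ) * wdg c w w' ∣ qv b z.1 i - (M *ᵥ qv c w) i ∧
            (W : ℤ) * wdg c w w' ∣ qv b z.2 i - (M *ᵥ qv c w') i} ≤
      (RCT_S b c (m * V') W M₀ x₀ w w' D ∩ RCT_B (W * D)).ncard := by
    apply Set.ncard_le_ncard _ ((RCT_fin _).subset Set.inter_subset_right)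
    rintro z ⟨z1, z2, z3, z4, M, hM0, hM⟩
    have hdv : ((W * D : ℕ) : ℤ) ∣ (W : ℤ) * wdg c w w' := by
      push_cast
      rw [hD, Int.natCast_natAbs]
      exact mul_dvd_mul_left _ ((abs_dvd _ _).mpr dvd_rfl)
    refine ⟨⟨z3, z4, M, hM0, fun i => ⟨hdv.trans (hM i).1, hdv.trans (hM i).2⟩⟩, ?_, ?_⟩
    · intro j
      have := z1 j
      rw [hDabs] at this
      push_cast
      exact this
    · intro j
      have := z2 j
      rw [hDabs] at this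
      push_cast
      exact this
  have htot := hset.trans (hC'.trans (Nat.mul_le_mul_right _ hA))
  have hR : ((Set.ncard {z : (Fin 4 → ℤ) × (Fin 4 → ℤ) |
        (∀ j, 0 ≤ z.1 j ∧ z.1 j < (W : ℤ) * |wdg c w w'|) ∧
        (∀ j, 0 ≤ z.2 j ∧ z.2 j < (W : ℤ) * |wdg c w w'|) ∧
        (∀ j, ((m * V' : ℕ) : ℤ) ∣ z.1 j - x₀ j) ∧ (∀ j, ((m * V' : ℕ) : ℤ) ∣ z.2 j - x₀ j) ∧
        ∃ M : Matrix (Fin 2) (Fin 2) ℤ, (∀ i j, (W : ℤ) ∣ M i j - M₀ i j) ∧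
          ∀ i, (W : ℤ) * wdg c w w' ∣ qv b z.1 i - (M *ᵥ qv c w) i ∧
            (W : ℤ) * wdg c w w' ∣ qv b z.2 i - (M *ᵥ qv c w') i} : ℕ) : ℝ) ≤
      ((kap b m V' x₀ : ℝ) * (d₁ : ℝ) ^ 2) ^ 2 * ((d₁ : ℝ) * (d₁ : ℝ)) *
        ∏ p ∈ big, ((RCT_T b c w w' (p ^ e p) ∩ RCT_B (p ^ e p)).ncard : ℝ) := by
    exact_mod_cast htot
  refine hR.trans ?_
  have hprod : ∏ p ∈ big, ((RCT_T b c w w' (p ^ e p) ∩ RCT_B (p ^ e p)).ncard : ℝ) ≤
      (∏ p ∈ big, ((p ^ e p : ℕ) : ℝ)) ^ 6 * (1 + 20 / (P₀ : ℝ)) := by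
    calc _ ≤ ∏ p ∈ big, (((p ^ e p : ℕ) : ℝ) ^ 6 * (1 + 10 / (p : ℝ) ^ 2)) :=
          Finset.prod_le_prod (fun p _ => by positivity) hB
      _ = (∏ p ∈ big, ((p ^ e p : ℕ) : ℝ)) ^ 6 * ∏ p ∈ big, (1 + 10 / (p : ℝ) ^ 2) := by
          rw [Finset.prod_mul_distrib, Finset.prod_pow]
      _ ≤ _ := mul_le_mul_of_nonneg_left
          (RCT_exp P₀ hP3 big fun p hp => (hpp p hp).2.1) (by positivity)
  have hDR : |((wdg c w w' : ℤ) : ℝ)| = (d₁ : ℝ) * ∏ p ∈ big, ((p ^ e p : ℕ) : ℝ) := by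
    rw [← Int.cast_abs, hDabs, Int.cast_natCast, hDprod]
    push_cast
    rfl
  rw [hDR]
  calc _ ≤ ((kap b m V' x₀ : ℝ) * (d₁ : ℝ) ^ 2) ^ 2 * ((d₁ : ℝ) * (d₁ : ℝ)) *
        ((∏ p ∈ big, ((p ^ e p : ℕ) : ℝ)) ^ 6 * (1 + 20 / (P₀ : ℝ))) :=
        mul_le_mul_of_nonneg_left hprod (by positivity)
    _ = _ := by ring

end Pool.GLU
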