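import Pool.Agent.Work.MP_9fb703_gl.Interface

/-!
Block RCV: uniform cells.
-/

set_option autoImplicit false

namespace Pool.GLU

open Matrix Polynomial

/-- the parameter space -/
abbrev RCV_X : Type := (Fin 2 → Fin 2 → ℝ) × (Fin 4 → ℝ) × (Fin 2 → ℝ)

theorem RCV_cont_qv {n : ℕ} (b : Fin 2 → Matrix (Fin n) (Fin n) ℤ) :
    Continuous fun x : Fin n → ℝ => qv b x := by
  refine continuous_pi fun i => ?_
  unfold qv
  exact Continuous.dotProduct continuous_id (Continuous.matrix_mulVec continuous_const continuous_id)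

theorem RCV_cont_jv {n : ℕ} (b : Fin 2 → Matrix (Fin n) (Fin n) ℤ) (i : Fin 2) (k : Fin n) :
    Continuous fun x : Fin n → ℝ => jv b x i k := by
  unfold jv
  exact (continuous_apply k).comp (Continuous.matrix_mulVec continuous_const continuous_id)

theorem RCV_jv_smul {n : ℕ} (b : Fin 2 → Matrix (Fin n) (Fin n) ℤ) (t : ℝ) (x : Fin n → ℝ)
    (i : Fin 2) : jv b (t • x) i = t • jv b x i := by
  unfold jv
  rw [Matrix.mulVec_smul]

/-- the compact set of zeros -/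
def RCV_Z (b : Fin 2 → Matrix (Fin 4) (Fin 4) ℤ) (c : Fin 2 → Matrix (Fin 2) (Fin 2) ℤ)
    (κ : ℝ) : Set RCV_X :=
  {p | (∀ i j, |p.1 i j| ≤ 1) ∧ Zer b c (Matrix.of p.1) p.2.1 p.2.2 ∧
    GenQ b c κ p.2.1 p.2.2 ∧ ‖p.2.1‖ ≤ 2 ∧ ‖p.2.2‖ ≤ 2}

theorem RCV_closed (b : Fin 2 → Matrix (Fin 4) (Fin 4) ℤ) (c : Fin 2 → Matrix (Fin 2) (Fin 2) ℤ)
    (κ : ℝ) : IsClosed (RCV_Z b c κ) := by
  have hM : ∀ i j, Continuous fun p : RCV_X => p.1 i j := by
    intro i j
    fun_prop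
  have hx : Continuous fun p : RCV_X => p.2.1 := by fun_prop
  have hw : Continuous fun p : RCV_X => p.2.2 := by fun_prop
  have h1 : IsClosed {p : RCV_X | ∀ i j, |p.1 i j| ≤ 1} := by
    simp only [Set.ofPred_forall]
    exact isClosed_iInter fun i => isClosed_iInter fun j =>
      isClosed_le (hM i j).abs continuous_const
  have h2 : IsClosed {p : RCV_X | Zer b c (Matrix.of p.1) p.2.1 p.2.2} := by
    unfold Zer
    refine isClosed_eq ((RCV_cont_qv b).comp hx) ?_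
    refine continuous_pi fun i => ?_
    simp only [Matrix.mulVec, dotProduct, Matrix.of_apply]
    refine continuous_finsetSum _ fun j _ => (hM i j).mul ?_
    exact (continuous_apply j).comp ((RCV_cont_qv c).comp hw)
  have h3 : IsClosed {p : RCV_X | GenQ b c κ p.2.1 p.2.2} := by
    have g1 : IsClosed {p : RCV_X | ∃ k l, κ ≤ |mnr b p.2.1 k l|} := by
      simp only [Set.ofPred_exists]
      refine isClosed_iUnion_of_finite fun k => isClosed_iUnion_of_finite fun l => ?_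
      refine isClosed_le continuous_const (Continuous.abs ?_)
      unfold mnr
      exact (((RCV_cont_jv b 0 k).comp hx).mul ((RCV_cont_jv b 1 l).comp hx)).sub
        (((RCV_cont_jv b 0 l).comp hx).mul ((RCV_cont_jv b 1 k).comp hx))
    have g2 : IsClosed {p : RCV_X | κ ≤ ‖qv c p.2.2‖} :=
      isClosed_le continuous_const ((RCV_cont_qv c).comp hw).norm
    have g3 : IsClosed {p : RCV_X | ∀ e : Fin 4 → ℝ, ‖e‖ = 1 → Eig b e →
        ∃ i, κ ≤ |jv b e i ⬝ᵥ p.2.1|} := by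
      simp only [Set.ofPred_forall]
      refine isClosed_iInter fun e => isClosed_iInter fun _ => isClosed_iInter fun _ => ?_
      simp only [Set.ofPred_exists]
      refine isClosed_iUnion_of_finite fun i => ?_
      exact isClosed_le continuous_const (Continuous.dotProduct continuous_const hx).abs
    exact g1.inter (g2.inter g3)
  have h4 : IsClosed {p : RCV_X | ‖p.2.1‖ ≤ 2} := isClosed_le hx.norm continuous_const
  have h5 : IsClosed {p : RCV_X | ‖p.2.2‖ ≤ 2} := isClosed_le hw.norm continuous_const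
  exact h1.inter (h2.inter (h3.inter (h4.inter h5)))

theorem RCV_compact (b : Fin 2 → Matrix (Fin 4) (Fin 4) ℤ)
    (c : Fin 2 → Matrix (Fin 2) (Fin 2) ℤ) (κ : ℝ) : IsCompact (RCV_Z b c κ) := by
  refine Metric.isCompact_of_isClosed_isBounded (RCV_closed b c κ) ?_
  refine (Metric.isBounded_closedBall (x := (0 : RCV_X)) (r := 2)).subset ?_
  rintro p ⟨h1, -, -, h4, h5⟩
  rw [mem_closedBall_zero_iff, Prod.norm_def, Prod.norm_def]
  refine max_le ?_ (max_le h4 h5)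
  rw [pi_norm_le_iff_of_nonneg (by norm_num)]
  intro i
  rw [pi_norm_le_iff_of_nonneg (by norm_num)]
  intro j
  rw [Real.norm_eq_abs]
  linarith [h1 i j]

theorem RCV_gen (b : Fin 2 → Matrix (Fin 4) (Fin 4) ℤ) (c : Fin 2 → Matrix (Fin 2) (Fin 2) ℤ)
    (κ : ℝ) (hκ : 0 < κ) (x : Fin 4 → ℝ) (w : Fin 2 → ℝ) (h : GenQ b c κ x w) :
    GenR b x ∧ w ≠ 0 := by
  obtain ⟨⟨k, l, h1⟩, h2, h3⟩ := h
  refine ⟨⟨?_, ?_⟩, ?_⟩
  · have hD : mnr b x k l ≠ 0 := by
      intro h0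
      rw [h0, abs_zero] at h1
      linarith
    rw [Fintype.linearIndependent_iff]
    intro g hg
    rw [Fin.sum_univ_two] at hg
    have e1 := congrFun hg k
    have e2 := congrFun hg l
    simp only [Pi.add_apply, Pi.smul_apply, smul_eq_mul, Pi.zero_apply] at e1 e2
    have e3 : g 0 * mnr b x k l = 0 := by
      unfold mnr
      linear_combination jv b x 1 l * e1 - jv b x 1 k * e2
    have e4 : g 1 * mnr b x k l = 0 := by
      unfold mnr
      linear_combination jv b x 0 k * e2 - jv b x 0 l * e1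
    intro i
    fin_cases i
    · exact (mul_eq_zero.1 e3).resolve_right hD
    · exact (mul_eq_zero.1 e4).resolve_right hD
  · intro e he hE
    have hn : 0 < ‖e‖ := norm_pos_iff.2 he
    have h4 : ‖(‖e‖⁻¹ • e)‖ = 1 := by
      rw [norm_smul, norm_inv, norm_norm, inv_mul_cancel₀ hn.ne']
    have h5 : Eig b (‖e‖⁻¹ • e) := by
      obtain ⟨μ, hμ, hμ'⟩ := hE
      refine ⟨μ, hμ, ?_⟩
      rw [RCV_jv_smul, RCV_jv_smul, smul_comm (μ 0), smul_comm (μ 1), ← smul_add, hμ', smul_zero]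
    obtain ⟨i, hi⟩ := h3 _ h4 h5
    refine ⟨i, fun h0 => ?_⟩
    rw [RCV_jv_smul, smul_dotProduct, h0, smul_zero, abs_zero] at hi
    linarith
  · rintro rfl
    have h6 : qv c (0 : Fin 2 → ℝ) = 0 := by
      funext i
      unfold qv
      rw [zero_dotProduct]
      rfl
    rw [h6, norm_zero] at h2
    linarith

theorem p_RCV (hCEL : Stmt_CEL) (_hCOI : Stmt_COI) : Stmt_RCV := by
  intro b c hb hc κ ν ε L hκ hν hε
  have hcel : ∀ a : RCV_X, a ∈ RCV_Z b c κ → ∃ (η : ℝ) (P₂ : ℕ), 0 < η ∧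
      ∀ (P₀ m V' : ℕ) (M₀ : Matrix (Fin 2) (Fin 2) ℤ) (x₀ : Fin 4 → ℤ)
      (w₀ : Fin 2 → ℤ), P₂ ≤ P₀ → LD b c P₀ m V' M₀ x₀ w₀ →
      ∀ (α : Matrix (Fin 2) (Fin 2) ℝ) (θ : ℝ), 0 < θ →
      (∀ i j, |α i j - a.1 i j| ≤ η ∧ |α i j + θ - a.1 i j| ≤ η) →
      ∃ U B₀ : ℕ, ∀ B : ℕ, B₀ ≤ B →
        (Set.ncard {M | M ∈ CB α θ (m ^ 2 * V') M₀ B ∧
          ¬ Sol b c (m * V') (m ^ 2 * V') x₀ w₀ a.2.1 a.2.2 ν L U B M} : ℝ) ≤
        ε * (θ * (B : ℝ) ^ 2 / ((m ^ 2 * V' : ℕ) : ℝ)) ^ 4 := by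
    rintro a ⟨-, h2, h3, -, -⟩
    obtain ⟨g1, g2⟩ := RCV_gen b c κ hκ _ _ h3
    exact hCEL b c hb hc (Matrix.of a.1) a.2.1 a.2.2 h2 g1 g2 ν ε L hν hε
  choose! η P hη hcel using hcel
  have hU : ∀ a ∈ RCV_Z b c κ, {p : RCV_X | (∀ i j, |p.1 i j - a.1 i j| < η a / 2) ∧
      ‖a.2.1 - p.2.1‖ < ν ∧ ‖a.2.2 - p.2.2‖ < ν} ∈ nhds a := by
    intro a ha
    have h0 : 0 < η a / 2 := half_pos (hη a ha)
    have g1 : IsOpen {p : RCV_X | ∀ i j, |p.1 i j - a.1 i j| < η a / 2} := by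
      simp only [Set.ofPred_forall]
      refine isOpen_iInter_of_finite fun i => isOpen_iInter_of_finite fun j => ?_
      exact isOpen_lt (by fun_prop) continuous_const
    have g2 : IsOpen {p : RCV_X | ‖a.2.1 - p.2.1‖ < ν} :=
      isOpen_lt (by fun_prop) continuous_const
    have g3 : IsOpen {p : RCV_X | ‖a.2.2 - p.2.2‖ < ν} :=
      isOpen_lt (by fun_prop) continuous_const
    refine IsOpen.mem_nhds (g1.inter (g2.inter g3)) ?_
    · refine ⟨fun i j => ?_, ?_, ?_⟩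
      · rw [sub_self, abs_zero]; exact h0
      · rw [sub_self, norm_zero]; exact hν
      · rw [sub_self, norm_zero]; exact hν
  obtain ⟨t, ht, hcov⟩ := (RCV_compact b c κ).elim_nhds_subcover _ hU
  obtain ⟨θ₀, hθ0, hθ⟩ : ∃ θ₀ : ℝ, 0 < θ₀ ∧ ∀ a ∈ t, θ₀ ≤ η a / 4 := by
    rcases t.eq_empty_or_nonempty with h | h
    · exact ⟨1, one_pos, fun a ha => by rw [h] at ha; exact absurd ha (Finset.notMem_empty a)⟩
    · obtain ⟨a₀, ha₀, hmin⟩ := t.exists_min_image (fun a => η a / 4) h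
      exact ⟨η a₀ / 4, by have := hη a₀ (ht a₀ ha₀); positivity, hmin⟩
  refine ⟨θ₀, t.sup P, hθ0, ?_⟩
  intro M' x w hM' hZ hG hx hw
  have hmem : ((M', x, w) : RCV_X) ∈ RCV_Z b c κ := ⟨hM', hZ, hG, hx, hw⟩
  have h1 := hcov hmem
  rw [Set.mem_iUnion₂] at h1
  obtain ⟨a, hat, h2, h3, h4⟩ := h1
  refine ⟨a.2.1, a.2.2, h3, h4, ?_⟩
  intro P₀ m V' M₀ x₀ w₀ hP hLD α θ hθpos hθle hα
  refine hcel a (ht a hat) P₀ m V' M₀ x₀ w₀ ((Finset.le_sup hat).trans hP) hLD α θ hθpos ?_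
  intro i j
  have h5 := hθ a hat
  have h6 := h2 i j
  have h7 := hα i j
  have h8 := hη a (ht a hat)
  have h6' : |M' i j - a.1 i j| < η a / 2 := h6
  rw [abs_lt] at h6'
  constructor
  · rw [abs_le]
    constructor <;> linarith [h6'.1, h6'.2, h7.1, h7.2]
  · rw [abs_le]
    constructor <;> linarith [h6'.1, h6'.2, h7.1, h7.2]

end Pool.GLU
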