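import Pool.Agent.Work.MP_9fb703_gl.Interface2

/-!
# Block RED: the shear of the pencil
-/

set_option autoImplicit false

namespace Pool.GLU

open Matrix Polynomial MeasureTheory

/-- the shear `g M`, `g = (1 k; 0 1)` -/
def RED_sh {R : Type} [CommRing R] (k : ℤ) (M : Matrix (Fin 2) (Fin 2) R) :
    Matrix (Fin 2) (Fin 2) R :=
  fun i j => if i = 0 then M 0 j + (k : R) * M 1 j else M 1 j

/-- the sheared pair -/
def RED_b (b : Fin 2 → Matrix (Fin 4) (Fin 4) ℤ) (k : ℤ) : Fin 2 → Matrix (Fin 4) (Fin 4) ℤ :=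
  fun i => if i = 0 then b 0 + k • b 1 else b 1

theorem RED_map {R : Type} [CommRing R] (k : ℤ) (M : Matrix (Fin 2) (Fin 2) ℤ) :
    (RED_sh k M).map (Int.cast : ℤ → R) = RED_sh k (M.map (Int.cast : ℤ → R)) := by
  ext i j
  simp only [Matrix.map_apply, RED_sh]
  split_ifs
  · push_cast
    rfl
  · rfl

theorem RED_id (k : ℤ) (M : Matrix (Fin 2) (Fin 2) ℤ) (i j : Fin 2) :
    RED_sh k M i j = if i = 0 then M 0 j + k * M 1 j else M 1 j := by
  simp only [RED_sh, Int.cast_id]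

theorem RED_qv {R : Type} [CommRing R] (b : Fin 2 → Matrix (Fin 4) (Fin 4) ℤ) (k : ℤ)
    (x : Fin 4 → R) :
    qv (RED_b b k) x 0 = qv b x 0 + (k : R) * qv b x 1 ∧ qv (RED_b b k) x 1 = qv b x 1 := by
  constructor
  · have h : (b 0 + k • b 1).map (Int.cast : ℤ → R) =
        (b 0).map (Int.cast : ℤ → R) + (k : R) • (b 1).map (Int.cast : ℤ → R) := by
      ext i j
      simp only [Matrix.map_apply, Matrix.add_apply, Matrix.smul_apply, smul_eq_mul]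
      push_cast
      rfl
    show x ⬝ᵥ ((b 0 + k • b 1).map (Int.cast : ℤ → R) *ᵥ x) = _
    rw [h, Matrix.add_mulVec, dotProduct_add, Matrix.smul_mulVec, dotProduct_smul, smul_eq_mul]
    rfl
  · rfl

theorem RED_zer {R : Type} [CommRing R] (b : Fin 2 → Matrix (Fin 4) (Fin 4) ℤ)
    (c : Fin 2 → Matrix (Fin 2) (Fin 2) ℤ) (k : ℤ) (M : Matrix (Fin 2) (Fin 2) R)
    (x : Fin 4 → R) (w : Fin 2 → R) :
    Zer (RED_b b k) c (RED_sh k M) x w ↔ Zer b c M x w := by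
  obtain ⟨h0, h1⟩ := RED_qv b k x
  have e0 : (RED_sh k M *ᵥ qv c w) 0 = (M *ᵥ qv c w) 0 + (k : R) * (M *ᵥ qv c w) 1 := by
    simp only [Matrix.mulVec, dotProduct, Fin.sum_univ_two, RED_sh, if_true]
    ring
  have e1 : (RED_sh k M *ᵥ qv c w) 1 = (M *ᵥ qv c w) 1 := by
    simp only [Matrix.mulVec, dotProduct, Fin.sum_univ_two, RED_sh, one_ne_zero, if_false]
  unfold Zer
  constructor
  · intro h
    have g0 := congrFun h 0
    have g1 := congrFun h 1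
    rw [h0, e0] at g0
    rw [h1, e1] at g1
    funext i
    fin_cases i
    · show qv b x 0 = (M *ᵥ qv c w) 0
      rw [g1] at g0
      exact add_right_cancel g0
    · exact g1
  · intro h
    funext i
    fin_cases i
    · show qv (RED_b b k) x 0 = (RED_sh k M *ᵥ qv c w) 0
      rw [h0, e0, h]
    · show qv (RED_b b k) x 1 = (RED_sh k M *ᵥ qv c w) 1
      rw [h1, e1, h]

theorem RED_bd (N A K : ℕ) (hN : 1 ≤ N) (hK : 1 ≤ K) (Y V : ℝ) (hY : 0 ≤ Y) (hV : 0 ≤ V) :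
    1 / ((N * K : ℕ) : ℝ) * max Y (Real.sqrt ((K * A : ℕ) : ℝ) * V) ≤
      1 / (N : ℝ) * max Y (Real.sqrt A * V) := by
  have hN' : (0 : ℝ) < N := by exact_mod_cast hN
  have hK' : (1 : ℝ) ≤ K := by exact_mod_cast hK
  have hK0 : (0 : ℝ) < K := by linarith
  have hs : Real.sqrt ((K * A : ℕ) : ℝ) ≤ K * Real.sqrt A := by
    rw [Nat.cast_mul, Real.sqrt_mul hK0.le]
    refine mul_le_mul_of_nonneg_right ?_ (Real.sqrt_nonneg _)
    rw [Real.sqrt_le_left hK0.le]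
    nlinarith
  have hm : max Y (Real.sqrt ((K * A : ℕ) : ℝ) * V) ≤ K * max Y (Real.sqrt A * V) := by
    refine max_le ?_ ?_
    · have h1 : Y ≤ max Y (Real.sqrt A * V) := le_max_left _ _
      have h2 : 0 ≤ max Y (Real.sqrt A * V) := hY.trans h1
      nlinarith
    · have h1 : Real.sqrt A * V ≤ max Y (Real.sqrt A * V) := le_max_right _ _
      calc Real.sqrt ((K * A : ℕ) : ℝ) * V ≤ K * Real.sqrt A * V :=
            mul_le_mul_of_nonneg_right hs hV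
        _ = K * (Real.sqrt A * V) := by ring
        _ ≤ K * max Y (Real.sqrt A * V) := mul_le_mul_of_nonneg_left h1 hK0.le
  calc 1 / ((N * K : ℕ) : ℝ) * max Y (Real.sqrt ((K * A : ℕ) : ℝ) * V)
      ≤ 1 / ((N * K : ℕ) : ℝ) * (K * max Y (Real.sqrt A * V)) :=
        mul_le_mul_of_nonneg_left hm (by positivity)
    _ = 1 / (N : ℝ) * max Y (Real.sqrt A * V) := by
        rw [Nat.cast_mul]
        field_simp

theorem RED_gd (b : Fin 2 → Matrix (Fin 4) (Fin 4) ℤ) (c : Fin 2 → Matrix (Fin 2) (Fin 2) ℤ)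
    (k : ℤ) (N L P U A K : ℕ) (hN : 1 ≤ N) (hK : 1 ≤ K) (M : Matrix (Fin 2) (Fin 2) ℤ)
    (h : Gd (RED_b b k) c (N * K) L P U (K * A) (RED_sh k M)) : Gd b c N L P U A M := by
  intro y v x w hne hz hp
  have hz' : Zer (RED_b b k) c ((RED_sh k M).map (Int.cast : ℤ → ℝ)) y v := by
    rw [RED_map, RED_zer]
    exact hz
  obtain ⟨S, hS, hS'⟩ := h y v x w hne hz' (fun p _ hpP => by
    obtain ⟨h1, h2⟩ := hp p hpP
    refine ⟨h1, ?_⟩
    rw [RED_map, RED_zer]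
    exact h2)
  refine ⟨S, hS, fun z hzS => ?_⟩
  obtain ⟨g1, g2, g3, g4, ⟨t, ht, g5, g6⟩, g7⟩ := hS' z hzS
  have hbd := RED_bd N A K hN hK ‖y‖ ‖v‖ (norm_nonneg _) (norm_nonneg _)
  refine ⟨(RED_zer b c k M z.1 z.2).1 g1, g2, g3, g4, ⟨t, ht, fun j => (g5 j).trans hbd,
    fun j => ?_⟩, fun p _ hpN => ?_⟩
  · refine le_trans ?_ ((g6 j).trans hbd)
    refine mul_le_mul_of_nonneg_right (Real.sqrt_le_sqrt ?_) (abs_nonneg _)
    have hA : A ≤ K * A := Nat.le_mul_of_pos_left A hK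
    exact_mod_cast hA
  · have hNK : N ≤ N * K := Nat.le_mul_of_pos_right N hK
    obtain ⟨q1, q2⟩ := g7 p (hpN.trans hNK)
    have hp1 : (1 : ℝ) ≤ p := by
      exact_mod_cast (Fact.out : p.Prime).one_lt.le
    have hpow : (p : ℝ) ^ (-((N * K : ℕ) : ℤ)) ≤ (p : ℝ) ^ (-(N : ℤ)) := by
      refine zpow_le_zpow_right₀ hp1 ?_
      have : (N : ℤ) ≤ ((N * K : ℕ) : ℤ) := by exact_mod_cast hNK
      omega
    exact ⟨fun j => (q1 j).trans hpow, fun j => (q2 j).trans hpow⟩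

theorem RED_fin (A : ℕ) : {M : Matrix (Fin 2) (Fin 2) ℤ | ∀ i j, |M i j| ≤ A}.Finite := by
  have h : {M : Fin 2 → Fin 2 → ℤ | ∀ i, M i ∈
      {f : Fin 2 → ℤ | ∀ j, f j ∈ Set.Icc (-(A : ℤ)) A}}.Finite :=
    Set.Finite.pi' fun _ => Set.Finite.pi' fun _ => Set.finite_Icc _ _
  refine h.subset fun M hM i j => ?_
  exact abs_le.1 (hM i j)

theorem RED_inj (k : ℤ) : Function.Injective (RED_sh (R := ℤ) k) := by
  intro M M' h
  have h1 : ∀ j, M 1 j = M' 1 j := by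
    intro j
    have := congrFun (congrFun h 1) j
    simpa [RED_id] using this
  have h0 : ∀ j, M 0 j = M' 0 j := by
    intro j
    have := congrFun (congrFun h 0) j
    rw [RED_id, RED_id, if_pos rfl, if_pos rfl, h1 j] at this
    exact add_right_cancel this
  ext i j
  fin_cases i
  · exact h0 j
  · exact h1 j

theorem p_RED : Stmt_RED := by
  intro b c k hM N L ε hN hε
  set K : ℕ := 1 + k.natAbs with hKdef
  have hK : 1 ≤ K := by omega
  have hK' : (1 : ℝ) ≤ K := by exact_mod_cast hK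
  have hK0 : (0 : ℝ) < K := by linarith
  have hKz : (K : ℤ) = 1 + |k| := by
    rw [hKdef]
    push_cast
    rfl
  have hM' : Main (RED_b b k) c := hM
  obtain ⟨P, U, A₀, hP, h⟩ := hM' (N * K) L (ε / (K : ℝ) ^ 4)
    (Nat.le_trans hN (Nat.le_mul_of_pos_right N hK)) (by positivity)
  refine ⟨P, U, A₀, (Nat.le_mul_of_pos_right N hK).trans hP, fun A hA => ?_⟩
  have h2 := h (K * A) (hA.trans (Nat.le_mul_of_pos_left A hK))
  have h3 : Set.ncard {M : Matrix (Fin 2) (Fin 2) ℤ | (∀ i j, |M i j| ≤ A) ∧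
      ¬ Gd b c N L P U A M} ≤
      Set.ncard {M : Matrix (Fin 2) (Fin 2) ℤ | (∀ i j, |M i j| ≤ ((K * A : ℕ) : ℤ)) ∧
      ¬ Gd (RED_b b k) c (N * K) L P U (K * A) M} := by
    refine Set.ncard_le_ncard_of_injOn (RED_sh k) ?_ (RED_inj k).injOn
      ((RED_fin (K * A)).subset fun M hM => hM.1)
    intro M hM
    obtain ⟨h4, h5⟩ := hM
    refine ⟨fun i j => ?_, fun h6 => h5 (RED_gd b c k N L P U A K hN hK M h6)⟩
    rw [RED_id]
    have hA0 : (0 : ℤ) ≤ A := Int.natCast_nonneg A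
    split_ifs
    · calc |M 0 j + k * M 1 j| ≤ |M 0 j| + |k * M 1 j| := abs_add_le _ _
        _ = |M 0 j| + |k| * |M 1 j| := by rw [abs_mul]
        _ ≤ A + |k| * A :=
            add_le_add (h4 0 j) (mul_le_mul_of_nonneg_left (h4 1 j) (abs_nonneg k))
        _ = ((K * A : ℕ) : ℤ) := by
            rw [Nat.cast_mul, hKz]
            ring
    · refine (h4 1 j).trans ?_
      exact_mod_cast Nat.le_mul_of_pos_left A hK
  have hA0 : (0 : ℝ) ≤ A := Nat.cast_nonneg A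
  have h4 : (2 * ((K * A : ℕ) : ℝ) + 1) ^ 4 ≤ (K : ℝ) ^ 4 * (2 * (A : ℝ) + 1) ^ 4 := by
    rw [← mul_pow]
    refine pow_le_pow_left₀ (by positivity) ?_ 4
    rw [Nat.cast_mul]
    nlinarith
  calc (Set.ncard {M : Matrix (Fin 2) (Fin 2) ℤ | (∀ i j, |M i j| ≤ A) ∧
      ¬ Gd b c N L P U A M} : ℝ)
      ≤ (Set.ncard {M : Matrix (Fin 2) (Fin 2) ℤ | (∀ i j, |M i j| ≤ ((K * A : ℕ) : ℤ)) ∧
      ¬ Gd (RED_b b k) c (N * K) L P U (K * A) M} : ℝ) := by exact_mod_cast h3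
    _ ≤ ε / (K : ℝ) ^ 4 * (2 * ((K * A : ℕ) : ℝ) + 1) ^ 4 := h2
    _ ≤ ε / (K : ℝ) ^ 4 * ((K : ℝ) ^ 4 * (2 * (A : ℝ) + 1) ^ 4) :=
        mul_le_mul_of_nonneg_left h4 (by positivity)
    _ = ε * (2 * (A : ℝ) + 1) ^ 4 := by
        field_simp

end Pool.GLU
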