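import Pool.Agent.Work.MP_9fb703_gl.Interface

/-! Block REL: relations, compactness (MP_9fb703_nt, THEOREM GLUE). -/

set_option autoImplicit false

namespace Pool.GLU

open Matrix Polynomial MeasureTheory

/-- sum of the absolute values of the minors -/
noncomputable def REL_P (b : Fin 2 → Matrix (Fin 4) (Fin 4) ℤ) (x : Fin 4 → ℝ) : ℝ :=
  ∑ k, ∑ l, |mnr b x k l|

lemma REL_jv_smul (b : Fin 2 → Matrix (Fin 4) (Fin 4) ℤ) (x : Fin 4 → ℝ) (s : ℝ) (i : Fin 2) :
    jv b (s • x) i = s • jv b x i := by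
  simp [jv, Matrix.mulVec_smul]

lemma REL_mnr_smul (b : Fin 2 → Matrix (Fin 4) (Fin 4) ℤ) (x : Fin 4 → ℝ) (s : ℝ) (k l : Fin 4) :
    mnr b (s • x) k l = s ^ 2 * mnr b x k l := by
  simp only [mnr, REL_jv_smul, Pi.smul_apply, smul_eq_mul]
  ring

lemma REL_jv_cont (b : Fin 2 → Matrix (Fin 4) (Fin 4) ℤ) (i : Fin 2) :
    Continuous (fun x : Fin 4 → ℝ => jv b x i) := by
  unfold jv
  exact Continuous.matrix_mulVec continuous_const continuous_id

lemma REL_mnr_cont (b : Fin 2 → Matrix (Fin 4) (Fin 4) ℤ) (k l : Fin 4) :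
    Continuous (fun x : Fin 4 → ℝ => mnr b x k l) := by
  have h := fun i : Fin 2 => REL_jv_cont b i
  have h2 : ∀ (i : Fin 2) (k : Fin 4), Continuous (fun x : Fin 4 → ℝ => jv b x i k) :=
    fun i k => (continuous_apply k).comp (h i)
  unfold mnr
  exact ((h2 0 k).mul (h2 1 l)).sub ((h2 0 l).mul (h2 1 k))

lemma REL_P_cont (b : Fin 2 → Matrix (Fin 4) (Fin 4) ℤ) : Continuous (REL_P b) := by
  unfold REL_P
  exact continuous_finset_sum _ fun k _ => continuous_finset_sum _ fun l _ =>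
    (REL_mnr_cont b k l).abs

lemma REL_P_nonneg (b : Fin 2 → Matrix (Fin 4) (Fin 4) ℤ) (x : Fin 4 → ℝ) : 0 ≤ REL_P b x :=
  Finset.sum_nonneg fun _ _ => Finset.sum_nonneg fun _ _ => abs_nonneg _

lemma REL_exists (b : Fin 2 → Matrix (Fin 4) (Fin 4) ℤ) (x : Fin 4 → ℝ) (c : ℝ)
    (h : 16 * c ≤ REL_P b x) : ∃ k l, c ≤ |mnr b x k l| := by
  by_contra hcon
  push Not at hcon
  have : REL_P b x < ∑ _k : Fin 4, ∑ _l : Fin 4, c := by
    unfold REL_P
    refine Finset.sum_lt_sum_of_nonempty Finset.univ_nonempty fun k _ => ?_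
    exact Finset.sum_lt_sum_of_nonempty Finset.univ_nonempty fun l _ => hcon k l
  have h2 : (∑ _k : Fin 4, ∑ _l : Fin 4, c) = 16 * c := by
    simp
    ring
  rw [h2] at this
  linarith

lemma REL_zero (b : Fin 2 → Matrix (Fin 4) (Fin 4) ℤ) (x : Fin 4 → ℝ) (h : REL_P b x = 0) :
    Eig b x := by
  have h1 : ∀ k l, mnr b x k l = 0 := by
    intro k l
    have a1 : (∑ l, |mnr b x k l|) = 0 :=
      (Finset.sum_eq_zero_iff_of_nonneg (fun k _ => Finset.sum_nonneg fun l _ => abs_nonneg _)).1 h k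
        (Finset.mem_univ _)
    exact abs_eq_zero.1 ((Finset.sum_eq_zero_iff_of_nonneg (fun l _ => abs_nonneg _)).1 a1 l
      (Finset.mem_univ _))
  by_cases hu : jv b x 0 = 0
  · refine ⟨![1, 0], ?_, ?_⟩
    · intro h0
      have := congrFun h0 0
      simp at this
    · simp [hu]
  · obtain ⟨k, hk⟩ : ∃ k, jv b x 0 k ≠ 0 := by
      by_contra hcon
      push Not at hcon
      exact hu (funext hcon)
    refine ⟨![jv b x 1 k, - jv b x 0 k], ?_, ?_⟩
    · intro h0
      have := congrFun h0 1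
      simp at this
      exact hk this
    · funext l
      have := h1 k l
      simp only [mnr] at this
      simp
      linarith

lemma REL_dep (b : Fin 2 → Matrix (Fin 4) (Fin 4) ℤ) (x : Fin 4 → ℝ)
    (h : LinearIndependent ℝ (jv b x)) : 0 < REL_P b x := by
  rcases (REL_P_nonneg b x).lt_or_eq with h1 | h1
  · exact h1
  · exfalso
    obtain ⟨μ, hμ, h2⟩ := REL_zero b x h1.symm
    rw [Fintype.linearIndependent_iff] at h
    have := h μ (by simpa [Fin.sum_univ_two] using h2)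
    exact hμ (funext this)

theorem p_REL : Stmt_REL := by
  intro b ξ hξ
  obtain ⟨hlin, hgen⟩ := hξ
  have hP := REL_dep b ξ hlin
  have hξ0 : ξ ≠ 0 := by
    intro h0
    have : REL_P b ξ = 0 := by
      subst h0
      simp [REL_P, mnr, jv]
    linarith
  have hξn : 0 < ‖ξ‖ := norm_pos_iff.2 hξ0
  -- compactness
  obtain ⟨m, hm, hK⟩ : ∃ m : ℝ, 0 < m ∧ ∀ y z : Fin 4 → ℝ, ‖y‖ = 1 → ‖z - ξ‖ ≤ 1 →
      (∀ i, jv b y i ⬝ᵥ z = 0) → m ≤ REL_P b y + ‖z - ξ‖ := by
    let K : Set ((Fin 4 → ℝ) × (Fin 4 → ℝ)) :=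
      {p | ‖p.1‖ = 1 ∧ ‖p.2 - ξ‖ ≤ 1 ∧ ∀ i, jv b p.1 i ⬝ᵥ p.2 = 0}
    have hKc : IsCompact K := by
      refine ((isCompact_closedBall (0 : Fin 4 → ℝ) 1).prod
        (isCompact_closedBall ξ 1)).of_isClosed_subset ?_ ?_
      · have c1 : IsClosed {p : (Fin 4 → ℝ) × (Fin 4 → ℝ) | ‖p.1‖ = 1} :=
          isClosed_eq (continuous_norm.comp continuous_fst) continuous_const
        have c2 : IsClosed {p : (Fin 4 → ℝ) × (Fin 4 → ℝ) | ‖p.2 - ξ‖ ≤ 1} :=
          isClosed_le (continuous_norm.comp (continuous_snd.sub continuous_const)) continuous_const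
        have c3 : IsClosed {p : (Fin 4 → ℝ) × (Fin 4 → ℝ) | ∀ i, jv b p.1 i ⬝ᵥ p.2 = 0} := by
          have : {p : (Fin 4 → ℝ) × (Fin 4 → ℝ) | ∀ i, jv b p.1 i ⬝ᵥ p.2 = 0} =
              ⋂ i, {p : (Fin 4 → ℝ) × (Fin 4 → ℝ) | jv b p.1 i ⬝ᵥ p.2 = 0} := by
            ext p
            simp
          rw [this]
          refine isClosed_iInter fun i => isClosed_eq ?_ continuous_const
          exact Continuous.dotProduct ((REL_jv_cont b i).comp continuous_fst) continuous_snd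
        exact c1.inter (c2.inter c3)
      · rintro ⟨y, z⟩ ⟨h1, h2, _⟩
        refine ⟨?_, ?_⟩
        · simpa [mem_closedBall_zero_iff] using h1.le
        · exact (mem_closedBall_iff_norm).2 h2
    let f : (Fin 4 → ℝ) × (Fin 4 → ℝ) → ℝ := fun p => REL_P b p.1 + ‖p.2 - ξ‖
    have hf : Continuous f :=
      ((REL_P_cont b).comp continuous_fst).add
        (continuous_norm.comp (continuous_snd.sub continuous_const))
    by_cases hne : K.Nonempty
    · obtain ⟨p, hp, hmin⟩ := hKc.exists_isMinOn hne hf.continuousOn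
      refine ⟨f p, ?_, ?_⟩
      · obtain ⟨h1, h2, h3⟩ := hp
        have a1 := REL_P_nonneg b p.1
        have a2 := norm_nonneg (p.2 - ξ)
        rcases (add_nonneg a1 a2).lt_or_eq with h4 | h4
        · exact h4
        · exfalso
          have b1 : REL_P b p.1 = 0 := by linarith
          have b2 : ‖p.2 - ξ‖ = 0 := by linarith
          have b3 : p.2 = ξ := by
            rw [norm_eq_zero, sub_eq_zero] at b2
            exact b2
          have hp0 : p.1 ≠ 0 := by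
            intro h0
            rw [h0] at h1
            simp at h1
          obtain ⟨i, hi⟩ := hgen p.1 hp0 (REL_zero b p.1 b1)
          exact hi (b3 ▸ h3 i)
      · intro y z h1 h2 h3
        have h5 : (y, z) ∈ K := ⟨h1, h2, h3⟩
        have h4 : f p ≤ f (y, z) := isMinOn_iff.1 hmin _ h5
        exact h4
    · refine ⟨1, one_pos, fun y z h1 h2 h3 => ?_⟩
      exact (hne ⟨(y, z), h1, h2, h3⟩).elim
  -- continuity of the minors at ξ
  obtain ⟨τ₁, hτ₁, hcont⟩ : ∃ τ₁ : ℝ, 0 < τ₁ ∧ ∀ z, ‖z - ξ‖ ≤ τ₁ → REL_P b ξ / 2 < REL_P b z := by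
    have hc := (REL_P_cont b).continuousAt (x := ξ)
    have : ∀ᶠ z in nhds ξ, REL_P b ξ / 2 < REL_P b z := hc.eventually (lt_mem_nhds (by linarith))
    obtain ⟨ε, hε, hball⟩ := Metric.eventually_nhds_iff.1 this
    refine ⟨ε / 2, by positivity, fun z hz => hball ?_⟩
    rw [dist_eq_norm]
    linarith
  set M : ℝ := ‖ξ‖ + 1 with hM
  have hMpos : 0 < M := by positivity
  set κ : ℝ := min (m / 32) (min (REL_P b ξ / (32 * M ^ 2)) (‖ξ‖ / 2)) with hκ
  set τ : ℝ := min (1 / 2) (min (m / 2) (min τ₁ (‖ξ‖ / 2))) with hτ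
  have k1 : κ ≤ m / 32 := min_le_left _ _
  have k2 : κ ≤ REL_P b ξ / (32 * M ^ 2) := (min_le_right _ _).trans (min_le_left _ _)
  have k3 : κ ≤ ‖ξ‖ / 2 := (min_le_right _ _).trans (min_le_right _ _)
  have k0 : 0 < κ := by
    rw [hκ]
    refine lt_min (by positivity) (lt_min (by positivity) (by positivity))
  have t1 : τ ≤ 1 / 2 := min_le_left _ _
  have t2 : τ ≤ m / 2 := (min_le_right _ _).trans (min_le_left _ _)
  have t3 : τ ≤ τ₁ := (min_le_right _ _).trans ((min_le_right _ _).trans (min_le_left _ _))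
  have t4 : τ ≤ ‖ξ‖ / 2 := (min_le_right _ _).trans ((min_le_right _ _).trans (min_le_right _ _))
  have t0 : 0 < τ := by
    rw [hτ]
    refine lt_min (by norm_num) (lt_min (by positivity) (lt_min hτ₁ (by positivity)))
  refine ⟨κ, τ, k0, t0, by linarith, ?_⟩
  intro z t ht hz
  set z' : Fin 4 → ℝ := t⁻¹ • z with hz'
  have hzz : z = t • z' := by
    rw [hz', smul_smul, mul_inv_cancel₀ ht.ne', one_smul]
  have hz1 : ‖z' - ξ‖ ≤ τ := by
    have e1 : z - t • ξ = t • (z' - ξ) := by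
      rw [smul_sub, ← hzz]
    rw [e1, norm_smul, Real.norm_of_nonneg ht.le] at hz
    exact le_of_mul_le_mul_left hz ht
  have hz2 : ‖z'‖ ≤ M := by
    have := norm_sub_norm_le z' ξ
    linarith
  have hz3 : ‖ξ‖ - τ ≤ ‖z'‖ := by
    have := norm_sub_norm_le ξ z'
    rw [norm_sub_rev] at this
    linarith
  have hzn : ‖z‖ = t * ‖z'‖ := by
    rw [hzz, norm_smul, Real.norm_of_nonneg ht.le]
  refine ⟨?_, ?_, ?_⟩
  · have h1 := hcont z' (hz1.trans t3)
    have h2 : 16 * (κ * ‖z'‖ ^ 2) ≤ REL_P b z' := by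
      have h3 : κ * ‖z'‖ ^ 2 ≤ REL_P b ξ / (32 * M ^ 2) * M ^ 2 := by
        gcongr
      have h4 : REL_P b ξ / (32 * M ^ 2) * M ^ 2 = REL_P b ξ / 32 := by
        field_simp
      rw [h4] at h3
      linarith
    obtain ⟨k, l, hkl⟩ := REL_exists b z' _ h2
    refine ⟨k, l, ?_⟩
    rw [hzz, REL_mnr_smul, norm_smul, Real.norm_of_nonneg ht.le, abs_mul, abs_of_nonneg (sq_nonneg t)]
    have : κ * (t * ‖z'‖) ^ 2 = t ^ 2 * (κ * ‖z'‖ ^ 2) := by ring
    rw [this]
    gcongr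
  · rw [hzn]
    gcongr
    linarith
  · intro y hy hyz
    have hyn : 0 < ‖y‖ := norm_pos_iff.2 hy
    set y' : Fin 4 → ℝ := ‖y‖⁻¹ • y with hy'
    have hyy : y = ‖y‖ • y' := by
      rw [hy', smul_smul, mul_inv_cancel₀ hyn.ne', one_smul]
    have hy1 : ‖y'‖ = 1 := by
      rw [hy', norm_smul, norm_inv, norm_norm, inv_mul_cancel₀ hyn.ne']
    have hB : ∀ i, jv b y' i ⬝ᵥ z' = 0 := by
      intro i
      rw [hy', hz', REL_jv_smul, smul_dotProduct, dotProduct_smul, hyz i]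
      simp
    have h1 := hK y' z' hy1 (by linarith) hB
    have h2 : 16 * κ ≤ REL_P b y' := by linarith
    obtain ⟨k, l, hkl⟩ := REL_exists b y' _ h2
    refine ⟨k, l, ?_⟩
    have h3 : mnr b y k l = ‖y‖ ^ 2 * mnr b y' k l := by
      conv_lhs => rw [hyy]
      rw [REL_mnr_smul]
    rw [h3, abs_mul, abs_of_nonneg (sq_nonneg _), mul_comm]
    gcongr

end Pool.GLU
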