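import Pool.Agent.Work.MP_9fb703_gl.Interface

/-! # Block RES (helper71) -/

set_option autoImplicit false

namespace Pool.GLU

open Matrix

/-- Two quadratic polynomials with vanishing resultant have a common root. -/
theorem RES_root (a b c a' b' c' : ℂ) (ha : a ≠ 0)
    (h : (a * c' - a' * c) ^ 2 - (a * b' - a' * b) * (b * c' - b' * c) = 0) :
    ∃ u : ℂ, a * u ^ 2 + b * u + c = 0 ∧ a' * u ^ 2 + b' * u + c' = 0 := by
  obtain ⟨d, hd⟩ := IsAlgClosed.exists_pow_nat_eq (b ^ 2 - 4 * a * c) (n := 2) (by norm_num)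
  have h1 : ∀ e : ℂ, e ^ 2 = b ^ 2 - 4 * a * c →
      a * ((-b + e) / (2 * a)) ^ 2 + b * ((-b + e) / (2 * a)) + c = 0 := by
    intro e he
    field_simp
    linear_combination he
  have s1 : a * ((-b + d) / (2 * a) + (-b + -d) / (2 * a)) = -b := by
    field_simp
    ring
  have s2 : a * ((-b + d) / (2 * a) * ((-b + -d) / (2 * a))) = c := by
    field_simp
    linear_combination -hd
  have h2 : a ^ 2 * (a' * ((-b + d) / (2 * a)) ^ 2 + b' * ((-b + d) / (2 * a)) + c') *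
      (a' * ((-b + -d) / (2 * a)) ^ 2 + b' * ((-b + -d) / (2 * a)) + c') = 0 := by
    generalize (-b + d) / (2 * a) = u at s1 s2 ⊢
    generalize (-b + -d) / (2 * a) = v at s1 s2 ⊢
    have e : a ^ 2 * (a' * u ^ 2 + b' * u + c') * (a' * v ^ 2 + b' * v + c') =
        a' ^ 2 * (a * (u * v)) ^ 2 + a' * b' * (a * (u * v)) * (a * (u + v)) +
        a' * c' * ((a * (u + v)) ^ 2 - 2 * a * (a * (u * v))) + b' ^ 2 * a * (a * (u * v)) +
        b' * c' * a * (a * (u + v)) + a ^ 2 * c' ^ 2 := by ring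
    rw [e, s1, s2]
    linear_combination h
  rcases mul_eq_zero.1 h2 with h3 | h3
  · rcases mul_eq_zero.1 h3 with h4 | h4
    · exact absurd h4 (pow_ne_zero 2 ha)
    · exact ⟨_, h1 d hd, h4⟩
  · exact ⟨_, h1 (-d) (by rw [neg_sq]; exact hd), h3⟩

theorem RES_qv (c : Fin 2 → Matrix (Fin 2) (Fin 2) ℤ) (u v : ℂ) (i : Fin 2) :
    qv c (![u, v] : Fin 2 → ℂ) i = (c i 0 0 : ℂ) * u ^ 2 + ((c i 0 1 : ℂ) + (c i 1 0 : ℂ)) * (u * v) +
      (c i 1 1 : ℂ) * v ^ 2 := by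
  simp only [qv, dotProduct, mulVec, Matrix.map_apply, Fin.sum_univ_two, Matrix.cons_val_zero,
    Matrix.cons_val_one]
  ring

theorem p_RES : Stmt_RES := by
  intro c hc hr
  have hrC : ((c 0 0 0 : ℂ) * (c 1 1 1 : ℂ) - (c 1 0 0 : ℂ) * (c 0 1 1 : ℂ)) ^ 2 -
      ((c 0 0 0 : ℂ) * ((c 1 0 1 : ℂ) + (c 1 1 0 : ℂ)) -
        (c 1 0 0 : ℂ) * ((c 0 0 1 : ℂ) + (c 0 1 0 : ℂ))) *
      (((c 0 0 1 : ℂ) + (c 0 1 0 : ℂ)) * (c 1 1 1 : ℂ) -
        ((c 1 0 1 : ℂ) + (c 1 1 0 : ℂ)) * (c 0 1 1 : ℂ)) = 0 := by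
    have h1 := congrArg (Int.cast : ℤ → ℂ) hr
    unfold res at h1
    push_cast at h1
    exact h1
  have hfin : ∀ u v : ℂ, ![u, v] ≠ 0 → (∀ i, (c i 0 0 : ℂ) * u ^ 2 +
      ((c i 0 1 : ℂ) + (c i 1 0 : ℂ)) * (u * v) + (c i 1 1 : ℂ) * v ^ 2 = 0) → False := by
    intro u v hw h
    refine hc ![u, v] hw ?_
    funext i
    rw [RES_qv]
    exact h i
  have hne : ∀ u : ℂ, (![u, 1] : Fin 2 → ℂ) ≠ 0 := by
    intro u h
    have := congrFun h 1
    simp at this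
  by_cases h0 : c 0 0 0 = 0
  · by_cases h1 : c 1 0 0 = 0
    · refine hfin 1 0 ?_ ?_
      · intro h
        have := congrFun h 0
        simp at this
      · intro i
        fin_cases i
        · simp [h0]
        · simp [h1]
    · have h1' : (c 1 0 0 : ℂ) ≠ 0 := by exact_mod_cast h1
      obtain ⟨u, hu1, hu2⟩ := RES_root (c 1 0 0 : ℂ) ((c 1 0 1 : ℂ) + (c 1 1 0 : ℂ)) (c 1 1 1 : ℂ)
        (c 0 0 0 : ℂ) ((c 0 0 1 : ℂ) + (c 0 1 0 : ℂ)) (c 0 1 1 : ℂ) h1'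
        (by linear_combination hrC)
      refine hfin u 1 (hne u) ?_
      intro i
      fin_cases i
      · simpa using hu2
      · simpa using hu1
  · have h0' : (c 0 0 0 : ℂ) ≠ 0 := by exact_mod_cast h0
    obtain ⟨u, hu1, hu2⟩ := RES_root (c 0 0 0 : ℂ) ((c 0 0 1 : ℂ) + (c 0 1 0 : ℂ)) (c 0 1 1 : ℂ)
      (c 1 0 0 : ℂ) ((c 1 0 1 : ℂ) + (c 1 1 0 : ℂ)) (c 1 1 1 : ℂ) h0' hrC
    refine hfin u 1 (hne u) ?_
    intro i
    fin_cases i
    · simpa using hu1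
    · simpa using hu2

end Pool.GLU
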