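import Pool.Agent.Work.MP_9fb703_gl.Interface

/-! Block SCL: scaled charts, lower bound with a parameter -/

set_option autoImplicit false

namespace Pool.GLU

open Matrix Polynomial MeasureTheory

theorem SCL_smul (b : Fin 2 → Matrix (Fin 4) (Fin 4) ℤ) (t : ℝ) (x : Fin 4 → ℝ) :
    qv b (t • x) = t ^ 2 • qv b x := by
  funext i
  simp only [qv, mulVec_smul, smul_dotProduct, dotProduct_smul, Pi.smul_apply, smul_eq_mul]
  ring

theorem SCL_cont (b : Fin 2 → Matrix (Fin 4) (Fin 4) ℤ) :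
    Continuous fun x : Fin 4 → ℝ => qv b x := by
  refine continuous_pi fun i => ?_
  simp only [qv, dotProduct, mulVec]
  fun_prop

theorem p_SCL : Stmt_SCL := by
  intro b ξ D D' s₀ s₁ r hC t ht S hS hball
  have hq := SCL_cont b
  have ht2 : (t ^ 2) ≠ 0 := pow_ne_zero 2 ht.ne'
  have hT : MeasurableSet {z : (Fin 4 → ℝ) × (Fin 2 → ℝ) | t⁻¹ • z.1 ∈ D' ∧
      (qv b z.1, z.2) ∈ S} := by
    refine MeasurableSet.inter ?_ ?_
    · have hc : Continuous fun z : (Fin 4 → ℝ) × (Fin 2 → ℝ) => t⁻¹ • z.1 :=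
        continuous_fst.const_smul t⁻¹
      exact (hC.oD.preimage hc).measurableSet
    · have hc : Continuous fun z : (Fin 4 → ℝ) × (Fin 2 → ℝ) => (qv b z.1, z.2) :=
        (hq.comp continuous_fst).prodMk continuous_snd
      exact hc.measurable hS
  rw [Measure.volume_eq_prod, Measure.volume_eq_prod, Measure.prod_apply_symm hS,
    Measure.prod_apply_symm hT, ← lintegral_const_mul _ (measurable_measure_prodMk_right hS)]
  refine lintegral_mono fun y => ?_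
  -- the slices
  set Sy : Set (Fin 2 → ℝ) := (fun u => (u, y)) ⁻¹' S with hSy
  have hSym : MeasurableSet Sy := measurable_prodMk_right hS
  set S' : Set (Fin 2 → ℝ) := (fun u => (t ^ 2) • u) ⁻¹' Sy with hS'
  have hS'm : MeasurableSet S' := (measurable_const_smul (t ^ 2)) hSym
  have hsub : S' ⊆ Metric.ball (qv b ξ) r := by
    intro u hu
    have h1 := hball ((t ^ 2) • u, y) hu
    simp only [smul_smul, inv_mul_cancel₀ ht2, one_smul] at h1
    exact h1
  have hlo := hC.lo S' hS'm hsub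
  have hslice : (fun x : Fin 4 → ℝ => (x, y)) ⁻¹' {z : (Fin 4 → ℝ) × (Fin 2 → ℝ) |
      t⁻¹ • z.1 ∈ D' ∧ (qv b z.1, z.2) ∈ S} =
      (fun x : Fin 4 → ℝ => t⁻¹ • x) ⁻¹' (D' ∩ {x | qv b x ∈ S'}) := by
    ext x
    have hx : (t ^ 2) • qv b (t⁻¹ • x) = qv b x := by
      rw [← SCL_smul, smul_smul, mul_inv_cancel₀ ht.ne', one_smul]
    constructor
    · rintro ⟨h1, h2⟩
      refine ⟨h1, ?_⟩
      change (t ^ 2) • qv b (t⁻¹ • x) ∈ Sy
      rw [hx]
      exact h2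
    · rintro ⟨h1, h2⟩
      refine ⟨h1, ?_⟩
      have h3 : (t ^ 2) • qv b (t⁻¹ • x) ∈ Sy := h2
      rw [hx] at h3
      exact h3
  have e1 : (volume : Measure (Fin 4 → ℝ)) ((fun x : Fin 4 → ℝ => t⁻¹ • x) ⁻¹'
      (D' ∩ {x | qv b x ∈ S'})) = ENNReal.ofReal (t ^ 4) * volume (D' ∩ {x | qv b x ∈ S'}) := by
    have h := Measure.addHaar_preimage_smul (volume : Measure (Fin 4 → ℝ)) (inv_ne_zero ht.ne')
      (D' ∩ {x | qv b x ∈ S'})
    rw [h]
    have hf : Module.finrank ℝ (Fin 4 → ℝ) = 4 := by simp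
    rw [hf, inv_pow, inv_inv, abs_of_pos (pow_pos ht 4)]
  have e2 : (volume : Measure (Fin 2 → ℝ)) S' = ENNReal.ofReal ((t ^ 4)⁻¹) * volume Sy := by
    have h := Measure.addHaar_preimage_smul (volume : Measure (Fin 2 → ℝ)) ht2 Sy
    rw [hS', h]
    have hf : Module.finrank ℝ (Fin 2 → ℝ) = 2 := by simp
    rw [hf, ← pow_mul, abs_of_pos (inv_pos.2 (pow_pos ht _))]
  rw [hslice, e1]
  have h4 : ENNReal.ofReal (t ^ 4) * ENNReal.ofReal ((t ^ 4)⁻¹) = 1 := by
    rw [← ENNReal.ofReal_mul (pow_pos ht 4).le, mul_inv_cancel₀ (pow_pos ht 4).ne',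
      ENNReal.ofReal_one]
  calc ENNReal.ofReal s₀ * volume Sy
      = ENNReal.ofReal (t ^ 4) * ENNReal.ofReal ((t ^ 4)⁻¹) * (ENNReal.ofReal s₀ * volume Sy) := by
        rw [h4, one_mul]
    _ = ENNReal.ofReal (t ^ 4) * (ENNReal.ofReal s₀ * (ENNReal.ofReal ((t ^ 4)⁻¹) * volume Sy)) := by
        ring
    _ = ENNReal.ofReal (t ^ 4) * (ENNReal.ofReal s₀ * volume S') := by rw [e2]
    _ ≤ ENNReal.ofReal (t ^ 4) * volume (D' ∩ {x | qv b x ∈ S'}) := by gcongr

end Pool.GLU
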