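import Pool.Agent.Work.MP_9fb703_gl.Interface

/-!
# Block SCU: upper bound for pairs and scaled charts
-/

set_option autoImplicit false

namespace Pool.GLU

open Matrix Polynomial MeasureTheory

theorem SCU_q_smul (b : Fin 2 → Matrix (Fin 4) (Fin 4) ℤ) (t : ℝ) (x : Fin 4 → ℝ) :
    qv b (t • x) = t ^ 2 • qv b x := by
  funext i
  simp only [qv, Pi.smul_apply, Matrix.mulVec_smul, dotProduct_smul, smul_dotProduct, smul_eq_mul]
  ring

theorem SCU_q_cont (b : Fin 2 → Matrix (Fin 4) (Fin 4) ℤ) :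
    Continuous fun x : Fin 4 → ℝ => qv b x := by
  refine continuous_pi fun i => ?_
  simp only [qv, dotProduct, Matrix.mulVec]
  fun_prop

theorem SCU_one (b : Fin 2 → Matrix (Fin 4) (Fin 4) ℤ) (ξ : Fin 4 → ℝ) (D D' : Set (Fin 4 → ℝ))
    (s₀ s₁ r : ℝ) (hC : Cht b ξ D D' s₀ s₁ r) (t : ℝ) (ht : 0 < t) (T : Set (Fin 2 → ℝ))
    (hT : MeasurableSet T) :
    volume {x : Fin 4 → ℝ | t⁻¹ • x ∈ D ∧ qv b x ∈ T} ≤ ENNReal.ofReal s₁ * volume T := by
  obtain ⟨T', hT'⟩ : ∃ T' : Set (Fin 2 → ℝ), T' = (fun z => t ^ 2 • z) ⁻¹' T := ⟨_, rfl⟩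
  have hT'm : MeasurableSet T' := by
    rw [hT']
    exact (measurable_const_smul (t ^ 2)) hT
  have e1 : {x : Fin 4 → ℝ | t⁻¹ • x ∈ D ∧ qv b x ∈ T} =
      (fun x => t⁻¹ • x) ⁻¹' (D ∩ {x | qv b x ∈ T'}) := by
    ext x
    have h1 : t ^ 2 • qv b (t⁻¹ • x) = qv b x := by
      rw [SCU_q_smul, smul_smul, ← mul_pow, mul_inv_cancel₀ ht.ne', one_pow, one_smul]
    simp only [Set.mem_setOf_eq, Set.mem_preimage, Set.mem_inter_iff, hT', h1]
  have e2 : volume T' = ENNReal.ofReal ((t ^ 4)⁻¹) * volume T := by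
    rw [hT', Measure.addHaar_preimage_smul volume (by positivity : t ^ 2 ≠ 0) T]
    congr 2
    rw [Module.finrank_fin_fun, ← pow_mul, abs_of_nonneg (by positivity)]
  have e3 : volume ((fun x : Fin 4 → ℝ => t⁻¹ • x) ⁻¹' (D ∩ {x | qv b x ∈ T'})) =
      ENNReal.ofReal (t ^ 4) * volume (D ∩ {x | qv b x ∈ T'}) := by
    rw [Measure.addHaar_preimage_smul volume (by positivity : t⁻¹ ≠ 0)]
    congr 2
    rw [Module.finrank_fin_fun, inv_pow, inv_inv, abs_of_nonneg (by positivity)]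
  rw [e1, e3]
  calc ENNReal.ofReal (t ^ 4) * volume (D ∩ {x | qv b x ∈ T'})
      ≤ ENNReal.ofReal (t ^ 4) * (ENNReal.ofReal s₁ * volume T') :=
        mul_le_mul_right (hC.up T' hT'm) _
    _ = ENNReal.ofReal s₁ * (ENNReal.ofReal (t ^ 4) * ENNReal.ofReal ((t ^ 4)⁻¹)) * volume T := by
        rw [e2]
        ring
    _ = ENNReal.ofReal s₁ * volume T := by
        rw [← ENNReal.ofReal_mul (by positivity), mul_inv_cancel₀ (by positivity),
          ENNReal.ofReal_one, mul_one]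

theorem p_SCU : Stmt_SCU := by
  intro b ξ D D' s₀ s₁ r hC t t' ht ht' S hS
  have hDm : MeasurableSet D := hC.cD.measurableSet
  have hqc := SCU_q_cont b
  have hs1 : 0 ≤ s₁ := hC.s0.le.trans hC.s1
  have hA : ∀ u : ℝ, MeasurableSet {x : Fin 4 → ℝ | u⁻¹ • x ∈ D} := fun u =>
    (measurable_const_smul (u⁻¹)) hDm
  -- the measurable set
  have hm : MeasurableSet {z : (Fin 4 → ℝ) × (Fin 4 → ℝ) | t⁻¹ • z.1 ∈ D ∧ t'⁻¹ • z.2 ∈ D ∧
      (qv b z.1, qv b z.2) ∈ S} := by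
    refine (measurable_fst (hA t)).inter ((measurable_snd (hA t')).inter ?_)
    have h1 : Measurable fun z : (Fin 4 → ℝ) × (Fin 4 → ℝ) => (qv b z.1, qv b z.2) :=
      ((hqc.comp continuous_fst).prodMk (hqc.comp continuous_snd)).measurable
    exact h1 hS
  obtain ⟨h, hh⟩ : ∃ h : (Fin 2 → ℝ) → ENNReal, h = fun u => volume (Prod.mk u ⁻¹' S) := ⟨_, rfl⟩
  have hhm : Measurable h := by
    rw [hh]
    exact measurable_measure_prodMk_left hS
  have hvS : volume S = ∫⁻ u, h u := by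
    rw [hh, Measure.volume_eq_prod, Measure.prod_apply hS]
  have hle : Measure.map (fun x : Fin 4 → ℝ => qv b x)
      (volume.restrict {x : Fin 4 → ℝ | t⁻¹ • x ∈ D}) ≤
      ENNReal.ofReal s₁ • (volume : Measure (Fin 2 → ℝ)) := by
    rw [Measure.le_iff]
    intro T hT
    rw [Measure.map_apply hqc.measurable hT, Measure.restrict_apply (hqc.measurable hT),
      Measure.smul_apply, smul_eq_mul]
    refine (le_of_eq ?_).trans (SCU_one b ξ D D' s₀ s₁ r hC t ht T hT)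
    congr 1
    ext x
    simp only [Set.mem_inter_iff, Set.mem_preimage, Set.mem_setOf_eq]
    exact and_comm
  rw [Measure.volume_eq_prod, Measure.prod_apply hm]
  calc ∫⁻ x : Fin 4 → ℝ, volume (Prod.mk x ⁻¹' {z : (Fin 4 → ℝ) × (Fin 4 → ℝ) | t⁻¹ • z.1 ∈ D ∧
        t'⁻¹ • z.2 ∈ D ∧ (qv b z.1, qv b z.2) ∈ S})
      ≤ ∫⁻ x : Fin 4 → ℝ, ({x : Fin 4 → ℝ | t⁻¹ • x ∈ D}).indicator
          (fun x => ENNReal.ofReal s₁ * h (qv b x)) x := by
        refine lintegral_mono fun x => ?_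
        by_cases hx : t⁻¹ • x ∈ D
        · rw [Set.indicator_of_mem (by exact hx), hh]
          refine (le_of_eq ?_).trans (SCU_one b ξ D D' s₀ s₁ r hC t' ht' (Prod.mk (qv b x) ⁻¹' S)
            (measurable_prodMk_left hS))
          congr 1
          ext y
          simp only [Set.mem_preimage, Set.mem_setOf_eq, hx, true_and]
        · rw [Set.indicator_of_notMem (by exact hx)]
          refine le_of_eq ?_
          have e : Prod.mk x ⁻¹' {z : (Fin 4 → ℝ) × (Fin 4 → ℝ) | t⁻¹ • z.1 ∈ D ∧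
              t'⁻¹ • z.2 ∈ D ∧ (qv b z.1, qv b z.2) ∈ S} = ∅ := by
            ext y
            simp only [Set.mem_preimage, Set.mem_setOf_eq, hx, false_and, Set.mem_empty_iff_false]
          rw [e, measure_empty]
    _ = ∫⁻ x in {x : Fin 4 → ℝ | t⁻¹ • x ∈ D}, ENNReal.ofReal s₁ * h (qv b x) := by
        rw [lintegral_indicator (hA t)]
    _ = ∫⁻ u, ENNReal.ofReal s₁ * h u ∂(Measure.map (fun x : Fin 4 → ℝ => qv b x)
          (volume.restrict {x : Fin 4 → ℝ | t⁻¹ • x ∈ D})) := by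
        rw [lintegral_map (hhm.const_mul _) hqc.measurable]
    _ ≤ ∫⁻ u, ENNReal.ofReal s₁ * h u ∂(ENNReal.ofReal s₁ • (volume : Measure (Fin 2 → ℝ))) :=
        lintegral_mono' hle le_rfl
    _ = ENNReal.ofReal (s₁ ^ 2) * volume S := by
        rw [lintegral_smul_measure, lintegral_const_mul _ hhm, ← hvS, smul_eq_mul, ← mul_assoc,
          ← ENNReal.ofReal_mul hs1, sq]

end Pool.GLU
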