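import Pool.Agent.Work.MP_9fb703_gl.Interface

/-!
# MP_9fb703_nt, THEOREM GLUE, block SEQ: infinitely many admissible `w` near the direction `ω`
-/

set_option autoImplicit false

namespace Pool.GLU

open Matrix Polynomial

/-- The binary form in coordinates. -/
theorem SEQ_qv (c : Fin 2 → Matrix (Fin 2) (Fin 2) ℤ) (w : Fin 2 → ℤ) (i : Fin 2) :
    qv c w i = c i 0 0 * w 0 ^ 2 + (c i 0 1 + c i 1 0) * (w 0 * w 1) + c i 1 1 * w 1 ^ 2 := by
  simp only [qv, Matrix.mulVec, dotProduct, Fin.sum_univ_two, Matrix.map_apply, Int.cast_id]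
  ring

/-- `φ(w) ≠ 0` for `w ≠ 0`. -/
theorem SEQ_ne (c : Fin 2 → Matrix (Fin 2) (Fin 2) ℤ) (hc : res c ≠ 0) (w : Fin 2 → ℤ)
    (hw : w ≠ 0) (h0 : qv c w 0 = 0) (h1 : qv c w 1 = 0) : False := by
  rw [SEQ_qv] at h0 h1
  have hw' : ¬ (w 0 = 0 ∧ w 1 = 0) := by
    rintro ⟨h2, h3⟩
    apply hw
    funext j
    fin_cases j
    · exact h2
    · exact h3
  apply hc
  unfold res
  by_cases hw0 : w 0 = 0
  · have hw1 : w 1 ≠ 0 := fun h => hw' ⟨hw0, h⟩
    rw [hw0] at h0 h1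
    have e0 : c 0 1 1 = 0 := by
      have h : c 0 1 1 * w 1 ^ 2 = 0 := by linear_combination h0
      exact (mul_eq_zero.1 h).resolve_right (pow_ne_zero 2 hw1)
    have e1 : c 1 1 1 = 0 := by
      have h : c 1 1 1 * w 1 ^ 2 = 0 := by linear_combination h1
      exact (mul_eq_zero.1 h).resolve_right (pow_ne_zero 2 hw1)
    rw [e0, e1]
    ring
  · by_cases hw1 : w 1 = 0
    · rw [hw1] at h0 h1
      have e0 : c 0 0 0 = 0 := by
        have h : c 0 0 0 * w 0 ^ 2 = 0 := by linear_combination h0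
        exact (mul_eq_zero.1 h).resolve_right (pow_ne_zero 2 hw0)
      have e1 : c 1 0 0 = 0 := by
        have h : c 1 0 0 * w 0 ^ 2 = 0 := by linear_combination h1
        exact (mul_eq_zero.1 h).resolve_right (pow_ne_zero 2 hw0)
      rw [e0, e1]
      ring
    · have k1 : (c 0 0 0 * c 1 1 1 - c 1 0 0 * c 0 1 1) * w 0 +
          ((c 0 0 1 + c 0 1 0) * c 1 1 1 - (c 1 0 1 + c 1 1 0) * c 0 1 1) * w 1 = 0 := by
        have h : w 0 * ((c 0 0 0 * c 1 1 1 - c 1 0 0 * c 0 1 1) * w 0 +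
            ((c 0 0 1 + c 0 1 0) * c 1 1 1 - (c 1 0 1 + c 1 1 0) * c 0 1 1) * w 1) = 0 := by
          linear_combination c 1 1 1 * h0 - c 0 1 1 * h1
        exact (mul_eq_zero.1 h).resolve_left hw0
      have k2 : (c 0 0 0 * (c 1 0 1 + c 1 1 0) - c 1 0 0 * (c 0 0 1 + c 0 1 0)) * w 0 +
          (c 0 0 0 * c 1 1 1 - c 1 0 0 * c 0 1 1) * w 1 = 0 := by
        have h : w 1 * ((c 0 0 0 * (c 1 0 1 + c 1 1 0) - c 1 0 0 * (c 0 0 1 + c 0 1 0)) * w 0 +
            (c 0 0 0 * c 1 1 1 - c 1 0 0 * c 0 1 1) * w 1) = 0 := by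
          linear_combination c 0 0 0 * h1 - c 1 0 0 * h0
        exact (mul_eq_zero.1 h).resolve_left hw1
      have k3 : w 0 * ((c 0 0 0 * c 1 1 1 - c 1 0 0 * c 0 1 1) ^ 2 -
          (c 0 0 0 * (c 1 0 1 + c 1 1 0) - c 1 0 0 * (c 0 0 1 + c 0 1 0)) *
          ((c 0 0 1 + c 0 1 0) * c 1 1 1 - (c 1 0 1 + c 1 1 0) * c 0 1 1)) = 0 := by
        linear_combination (c 0 0 0 * c 1 1 1 - c 1 0 0 * c 0 1 1) * k1 -
          ((c 0 0 1 + c 0 1 0) * c 1 1 1 - (c 1 0 1 + c 1 1 0) * c 0 1 1) * k2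
      exact (mul_eq_zero.1 k3).resolve_left hw0

/-- A quadratic equation with nonzero coefficients has finitely many solutions. -/
theorem SEQ_quad (A B D : ℤ) (h : ¬ (A = 0 ∧ B = 0 ∧ D = 0)) :
    Set.Finite {x : ℤ | A * x ^ 2 + B * x + D = 0} := by
  have hp : (C A * X ^ 2 + C B * X + C D : ℤ[X]) ≠ 0 := by
    intro h0
    apply h
    refine ⟨?_, ?_, ?_⟩
    · have h1 := congrArg (fun q : ℤ[X] => q.coeff 2) h0
      simp only [coeff_add, coeff_C_mul, coeff_X_pow, coeff_X, coeff_C, coeff_zero] at h1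
      norm_num at h1
      exact h1
    · have h1 := congrArg (fun q : ℤ[X] => q.coeff 1) h0
      simp only [coeff_add, coeff_C_mul, coeff_X_pow, coeff_X, coeff_C, coeff_zero] at h1
      norm_num at h1
      exact h1
    · have h1 := congrArg (fun q : ℤ[X] => q.coeff 0) h0
      simp only [coeff_add, coeff_C_mul, coeff_X_pow, coeff_X, coeff_C, coeff_zero] at h1
      norm_num at h1
      exact h1
  refine (Polynomial.finite_setOfPred_isRoot hp).subset ?_
  intro x hx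
  have hx' : A * x ^ 2 + B * x + D = 0 := hx
  show IsRoot (C A * X ^ 2 + C B * X + C D : ℤ[X]) x
  simp only [IsRoot, eval_add, eval_mul, eval_C, eval_pow, eval_X]
  exact hx'

/-- The fibres of `φ` on the line `{x a + y b}` are finite. -/
theorem SEQ_fin (c : Fin 2 → Matrix (Fin 2) (Fin 2) ℤ) (hc : res c ≠ 0) (u0 u1 : ℤ)
    (hu : ¬ (u0 = 0 ∧ u1 = 0)) (a b : Fin 2 → ℤ) (hab : a 0 * b 1 - a 1 * b 0 = 1) (y : ℤ)
    (hy : y ≠ 0) :
    Set.Finite {x : ℤ | u0 * qv c (fun j => x * a j + y * b j) 1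
      - u1 * qv c (fun j => x * a j + y * b j) 0 = 0} := by
  obtain ⟨P, hP⟩ : ∃ P, P = u0 * c 1 0 0 - u1 * c 0 0 0 := ⟨_, rfl⟩
  obtain ⟨Q, hQ⟩ : ∃ Q, Q = u0 * (c 1 0 1 + c 1 1 0) - u1 * (c 0 0 1 + c 0 1 0) := ⟨_, rfl⟩
  obtain ⟨R, hR⟩ : ∃ R, R = u0 * c 1 1 1 - u1 * c 0 1 1 := ⟨_, rfl⟩
  have hne : ¬ (P = 0 ∧ Q = 0 ∧ R = 0) := by
    rintro ⟨h1, h2, h3⟩
    rw [hP] at h1
    rw [hQ] at h2
    rw [hR] at h3
    have e0 : u0 * res c = 0 := by
      unfold res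
      linear_combination (c 0 0 0 * c 1 1 1 - c 1 0 0 * c 0 1 1) * (c 0 0 0 * h3 - c 0 1 1 * h1)
        - ((c 0 0 1 + c 0 1 0) * c 1 1 1 - (c 1 0 1 + c 1 1 0) * c 0 1 1) *
          (c 0 0 0 * h2 - (c 0 0 1 + c 0 1 0) * h1)
    have e1 : u1 * res c = 0 := by
      unfold res
      linear_combination (c 0 0 0 * c 1 1 1 - c 1 0 0 * c 0 1 1) * (c 1 0 0 * h3 - c 1 1 1 * h1)
        - ((c 0 0 1 + c 0 1 0) * c 1 1 1 - (c 1 0 1 + c 1 1 0) * c 0 1 1) *
          (c 1 0 0 * h2 - (c 1 0 1 + c 1 1 0) * h1)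
    exact hu ⟨(mul_eq_zero.1 e0).resolve_right hc, (mul_eq_zero.1 e1).resolve_right hc⟩
  have hq := SEQ_quad (P * a 0 ^ 2 + Q * (a 0 * a 1) + R * a 1 ^ 2)
    ((2 * P * (a 0 * b 0) + Q * (a 0 * b 1 + a 1 * b 0) + 2 * R * (a 1 * b 1)) * y)
    ((P * b 0 ^ 2 + Q * (b 0 * b 1) + R * b 1 ^ 2) * y ^ 2) (by
      rintro ⟨h1, h2, h3⟩
      replace h2 := (mul_eq_zero.1 h2).resolve_right hy
      replace h3 := (mul_eq_zero.1 h3).resolve_right (pow_ne_zero 2 hy)
      apply hne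
      refine ⟨?_, ?_, ?_⟩
      · have h4 : P * (a 0 * b 1 - a 1 * b 0) ^ 2 = 0 := by
          linear_combination b 1 ^ 2 * h1 - a 1 * b 1 * h2 + a 1 ^ 2 * h3
        rw [hab] at h4
        linarith
      · have h4 : Q * (a 0 * b 1 - a 1 * b 0) ^ 2 = 0 := by
          linear_combination (-2) * b 0 * b 1 * h1 + (a 0 * b 1 + a 1 * b 0) * h2
            - 2 * a 0 * a 1 * h3
        rw [hab] at h4
        linarith
      · have h4 : R * (a 0 * b 1 - a 1 * b 0) ^ 2 = 0 := by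
          linear_combination b 0 ^ 2 * h1 - a 0 * b 0 * h2 + a 0 ^ 2 * h3
        rw [hab] at h4
        linarith)
  refine hq.subset ?_
  intro x hx
  have hx' : u0 * qv c (fun j => x * a j + y * b j) 1
      - u1 * qv c (fun j => x * a j + y * b j) 0 = 0 := hx
  show (P * a 0 ^ 2 + Q * (a 0 * a 1) + R * a 1 ^ 2) * x ^ 2
    + ((2 * P * (a 0 * b 0) + Q * (a 0 * b 1 + a 1 * b 0) + 2 * R * (a 1 * b 1)) * y) * x
    + (P * b 0 ^ 2 + Q * (b 0 * b 1) + R * b 1 ^ 2) * y ^ 2 = 0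
  rw [SEQ_qv, SEQ_qv] at hx'
  rw [hP, hQ, hR]
  linear_combination hx'

/-- Greedy choice. -/
theorem SEQ_greedy {F : ℕ → ℕ → Prop} (hsym : ∀ m n, F m n → F n m)
    (hfin : ∀ n, Set.Finite {m | F n m}) (n₀ K : ℕ) :
    ∃ T : Finset ℕ, T.card = K ∧ (∀ n ∈ T, n₀ ≤ n) ∧
      ∀ n ∈ T, ∀ m ∈ T, n ≠ m → ¬ F n m := by
  classical
  induction K with
  | zero => exact ⟨∅, by simp, by simp, by simp⟩
  | succ K ih =>
    obtain ⟨T, h1, h2, h3⟩ := ih
    have hfinT : Set.Finite ((⋃ n ∈ T, {m | F n m}) ∪ (T : Set ℕ) ∪ Set.Iio n₀) :=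
      Set.Finite.union (Set.Finite.union
        (Set.Finite.biUnion T.finite_toSet (fun n _ => hfin n)) T.finite_toSet)
        (Set.finite_Iio n₀)
    obtain ⟨m, hm⟩ := hfinT.infinite_compl.nonempty
    have hm1 : ∀ n ∈ T, ¬ F n m := by
      intro n hn hF
      apply hm
      left
      left
      exact Set.mem_biUnion (show n ∈ (T : Set ℕ) from hn) hF
    have hm2 : m ∉ T := by
      intro h
      apply hm
      left
      right
      exact h
    have hm3 : n₀ ≤ m := by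
      by_contra h
      apply hm
      right
      exact not_le.1 h
    refine ⟨insert m T, ?_, ?_, ?_⟩
    · rw [Finset.card_insert_of_notMem hm2, h1]
    · intro n hn
      rcases Finset.mem_insert.1 hn with h | h
      · rw [h]
        exact hm3
      · exact h2 n h
    · intro n hn k hk hnk
      rcases Finset.mem_insert.1 hn with h | h
      · rcases Finset.mem_insert.1 hk with h' | h'
        · exact absurd (h.trans h'.symm) hnk
        · rw [h]
          exact fun hF => hm1 k h' (hsym _ _ hF)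
      · rcases Finset.mem_insert.1 hk with h' | h'
        · rw [h']
          exact hm1 n h
        · exact h3 n h k h' hnk

/-- A primitive vector close to the direction `ω`. -/
theorem SEQ_dir (ω : Fin 2 → ℝ) (hω : ω ≠ 0) (η : ℝ) (hη : 0 < η) :
    ∃ (a : Fin 2 → ℤ) (s : ℝ), IsCoprime (a 0) (a 1) ∧ 0 < s ∧
      ∀ j, |(a j : ℝ) / s - ω j| ≤ η := by
  obtain ⟨k, hk⟩ : ∃ k, ω k ≠ 0 := by
    by_contra h
    push Not at h
    exact hω (funext h)
  have hk' : 0 < |ω k| := abs_pos.2 hk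
  obtain ⟨N, hN⟩ := exists_nat_gt (max (1 / η) (1 / |ω k|))
  have hN1 : 1 / η < N := lt_of_le_of_lt (le_max_left _ _) hN
  have hN2 : 1 / |ω k| < N := lt_of_le_of_lt (le_max_right _ _) hN
  have hN0 : (0 : ℝ) < N := lt_trans (by positivity) hN1
  have hfl : ∀ j, |((⌊(N : ℝ) * ω j⌋ : ℤ) : ℝ) - N * ω j| < 1 := by
    intro j
    have h1 := Int.floor_le ((N : ℝ) * ω j)
    have h2 := Int.lt_floor_add_one ((N : ℝ) * ω j)
    rw [abs_lt]
    constructor <;> linarith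
  have hne : ⌊(N : ℝ) * ω k⌋ ≠ 0 := by
    intro h0
    have h1 := hfl k
    rw [h0, Int.cast_zero, zero_sub, abs_neg, abs_mul, abs_of_pos hN0] at h1
    rw [div_lt_iff₀ hk'] at hN2
    linarith
  have hgcd : 0 < Int.gcd ⌊(N : ℝ) * ω 0⌋ ⌊(N : ℝ) * ω 1⌋ := by
    rw [Int.gcd_pos_iff]
    fin_cases k
    · left
      exact hne
    · right
      exact hne
  obtain ⟨a0, a1, hcop, e0, e1⟩ := Int.exists_gcd_one hgcd
  obtain ⟨g, hg⟩ : ∃ g : ℕ, g = Int.gcd ⌊(N : ℝ) * ω 0⌋ ⌊(N : ℝ) * ω 1⌋ := ⟨_, rfl⟩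
  rw [← hg] at e0 e1 hgcd
  have hg0 : (0 : ℝ) < g := by exact_mod_cast hgcd
  refine ⟨![a0, a1], N / g, ?_, by positivity, ?_⟩
  · show IsCoprime a0 a1
    exact Int.isCoprime_iff_gcd_eq_one.2 hcop
  · have key : ∀ (x : ℤ) (j : Fin 2), ⌊(N : ℝ) * ω j⌋ = x * g →
        |(x : ℝ) / (N / g) - ω j| ≤ η := by
      intro x j hx
      have h1 := hfl j
      rw [hx, Int.cast_mul, Int.cast_natCast] at h1
      have h2 : (x : ℝ) / (N / g) - ω j = (x * g - N * ω j) / N := by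
        field_simp
      rw [h2, abs_div, abs_of_pos hN0, div_le_iff₀ hN0]
      rw [div_lt_iff₀ hη] at hN1
      linarith
    intro j
    fin_cases j
    · exact key a0 0 e0
    · exact key a1 1 e1

/-- **SEQ.** Infinitely many admissible `w` near the direction `ω`. -/
theorem p_SEQ : Stmt_SEQ := by
  classical
  intro c hc P₀ W w₀ ω η K hW hWp hω hη
  obtain ⟨a, s, hcop, hs, hclose⟩ := SEQ_dir ω hω (η / 4) (by positivity)
  -- a complement of `a`
  obtain ⟨b, hab⟩ : ∃ b : Fin 2 → ℤ, a 0 * b 1 - a 1 * b 0 = 1 := by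
    obtain ⟨u, v, huv⟩ := hcop
    refine ⟨![-v, u], ?_⟩
    show a 0 * u - a 1 * (-v) = 1
    linear_combination huv
  -- the second coordinate
  obtain ⟨x0, hx0⟩ : ∃ x0, x0 = w₀ 0 * b 1 - w₀ 1 * b 0 := ⟨_, rfl⟩
  obtain ⟨y0, hy0⟩ : ∃ y0, y0 = a 0 * w₀ 1 - a 1 * w₀ 0 := ⟨_, rfl⟩
  have hw0 : ∀ j, w₀ j = x0 * a j + y0 * b j := by
    intro j
    rw [hx0, hy0]
    fin_cases j
    · show w₀ 0 = (w₀ 0 * b 1 - w₀ 1 * b 0) * a 0 + (a 0 * w₀ 1 - a 1 * w₀ 0) * b 0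
      linear_combination (-(w₀ 0)) * hab
    · show w₀ 1 = (w₀ 0 * b 1 - w₀ 1 * b 0) * a 1 + (a 0 * w₀ 1 - a 1 * w₀ 0) * b 1
      linear_combination (-(w₀ 1)) * hab
  obtain ⟨y, hy, hyW⟩ : ∃ y : ℤ, y ≠ 0 ∧ (W : ℤ) ∣ y - y0 := by
    by_cases h : y0 = 0
    · exact ⟨W, by exact_mod_cast hW.ne', by rw [h, sub_zero]⟩
    · exact ⟨y0, h, by rw [sub_self]; exact dvd_zero _⟩
  -- the primes to avoid
  obtain ⟨Y, hY⟩ : ∃ Y : ℕ, Y = ∏ p ∈ y.natAbs.primeFactors.filter (fun p => P₀ < p), p :=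
    ⟨_, rfl⟩
  have hY0 : 0 < Y := by
    rw [hY]
    apply Finset.prod_pos
    intro p hp
    exact (Nat.prime_of_mem_primeFactors (Finset.mem_filter.1 hp).1).pos
  have hYW : Nat.Coprime W Y := by
    rw [hY]
    apply Nat.Coprime.prod_right
    intro p hp
    rw [Finset.mem_filter] at hp
    have hpp := Nat.prime_of_mem_primeFactors hp.1
    rw [Nat.coprime_comm, hpp.coprime_iff_not_dvd]
    intro h
    have h2 := hWp p hpp h
    omega
  have hYp : ∀ p : ℕ, p.Prime → P₀ < p → (p : ℤ) ∣ y → (p : ℤ) ∣ (Y : ℤ) := by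
    intro p hp hP hpy
    rw [hY]
    have h1 : p ∈ y.natAbs.primeFactors.filter (fun p => P₀ < p) := by
      rw [Finset.mem_filter, Nat.mem_primeFactors]
      exact ⟨⟨hp, Int.natCast_dvd.1 hpy, Int.natAbs_ne_zero.2 hy⟩, hP⟩
    exact Int.natCast_dvd_natCast.2 (Finset.dvd_prod_of_mem (fun p => p) h1)
  obtain ⟨x1, hx1, hx1'⟩ : ∃ x1 : ℤ, (W : ℤ) ∣ x1 - x0 ∧ (Y : ℤ) ∣ x1 - 1 := by
    obtain ⟨r, q, hrq⟩ := (Nat.isCoprime_iff_coprime (m := W) (n := Y)).2 hYW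
    refine ⟨x0 * (q * Y) + r * W, ⟨r - x0 * r, ?_⟩, ⟨x0 * q - q, ?_⟩⟩
    · linear_combination x0 * hrq
    · linear_combination hrq
  -- the sequence
  obtain ⟨X, hX⟩ : ∃ X : ℕ → ℤ, ∀ n, X n = x1 + n * (W * Y) := ⟨fun n => x1 + n * (W * Y), fun _ => rfl⟩
  have hWY : (0 : ℤ) < (W : ℤ) * Y := by positivity
  have hXinj : Function.Injective X := by
    intro n m h
    rw [hX, hX] at h
    have h2 : ((n : ℤ) - m) * (W * Y) = 0 := by linear_combination h
    have h3 := (mul_eq_zero.1 h2).resolve_right hWY.ne'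
    have h4 : (n : ℤ) = m := by linarith
    exact_mod_cast h4
  obtain ⟨w, hw⟩ : ∃ w : ℕ → Fin 2 → ℤ, ∀ n, w n = fun j => X n * a j + y * b j :=
    ⟨fun n j => X n * a j + y * b j, fun _ => rfl⟩
  have hwy : ∀ n, a 0 * w n 1 - a 1 * w n 0 = y := by
    intro n
    rw [hw]
    show a 0 * (X n * a 1 + y * b 1) - a 1 * (X n * a 0 + y * b 0) = y
    linear_combination y * hab
  have hwx : ∀ n, w n 0 * b 1 - w n 1 * b 0 = X n := by
    intro n
    rw [hw]
    show (X n * a 0 + y * b 0) * b 1 - (X n * a 1 + y * b 1) * b 0 = X n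
    linear_combination X n * hab
  have hwne : ∀ n, w n ≠ 0 := by
    intro n h
    apply hy
    rw [← hwy n, h]
    simp
  have hadm : ∀ n, Adm P₀ W w₀ (w n) := by
    intro n
    refine ⟨?_, ?_⟩
    · intro j
      have h1 : w n j - w₀ j = (X n - x0) * a j + (y - y0) * b j := by
        rw [hw0 j, hw]
        ring
      rw [h1]
      apply dvd_add
      · apply Dvd.dvd.mul_right
        have h2 : X n - x0 = (x1 - x0) + n * Y * W := by
          rw [hX]
          ring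
        rw [h2]
        exact dvd_add hx1 (Dvd.intro_left _ rfl)
      · exact hyW.mul_right _
    · rintro p hp hP ⟨h1, h2⟩
      have hpX : (p : ℤ) ∣ X n := by
        rw [← hwx n]
        exact dvd_sub (h1.mul_right _) (h2.mul_right _)
      have hpy : (p : ℤ) ∣ y := by
        rw [← hwy n]
        exact dvd_sub (h2.mul_left _) (h1.mul_left _)
      have hpY := hYp p hp hP hpy
      have h3 : (p : ℤ) ∣ X n - 1 := by
        have h4 : X n - 1 = (x1 - 1) + n * W * Y := by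
          rw [hX]
          ring
        rw [h4]
        exact dvd_add (hpY.trans hx1') (hpY.mul_left _)
      have h5 : (p : ℤ) ∣ 1 := by
        have h6 := dvd_sub hpX h3
        have h7 : X n - (X n - 1) = 1 := by ring
        rwa [h7] at h6
      have h8 : p ∣ 1 := by exact_mod_cast h5
      exact hp.one_lt.ne' (Nat.dvd_one.1 h8)
  -- large indices
  obtain ⟨B, hB⟩ : ∃ B : ℝ, B = |(b 0 : ℝ)| + |(b 1 : ℝ)| := ⟨_, rfl⟩
  have hBj : ∀ j, |(b j : ℝ)| ≤ B := by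
    intro j
    rw [hB]
    fin_cases j
    · show |(b 0 : ℝ)| ≤ _
      linarith [abs_nonneg (b 1 : ℝ)]
    · show |(b 1 : ℝ)| ≤ _
      linarith [abs_nonneg (b 0 : ℝ)]
  have hB0 : 0 ≤ B := le_trans (abs_nonneg _) (hBj 0)
  obtain ⟨n₀, hn₀⟩ := exists_nat_gt ((1 + 4 * |(y : ℝ)| * B / η) / s - x1)
  have hlarge : ∀ n, n₀ ≤ n → 1 + 4 * |(y : ℝ)| * B / η ≤ (X n : ℝ) * s := by
    intro n hn
    have h1 : (x1 : ℝ) + n ≤ X n := by
      have h2 : x1 + (n : ℤ) ≤ X n := by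
        rw [hX]
        have h3 : (n : ℤ) * 1 ≤ n * (W * Y) :=
          mul_le_mul_of_nonneg_left (by linarith) (by positivity)
        linarith
      exact_mod_cast h2
    have h4 : (n₀ : ℝ) ≤ n := by exact_mod_cast hn
    have h5 : (1 + 4 * |(y : ℝ)| * B / η) / s ≤ X n := by linarith
    rwa [div_le_iff₀ hs] at h5
  have hclose2 : ∀ n, n₀ ≤ n → ∃ t : ℝ, 1 ≤ t ∧ ‖sc t (w n) - ω‖ ≤ η := by
    intro n hn
    have h1 := hlarge n hn
    have h2 : 0 ≤ 4 * |(y : ℝ)| * B / η := by positivity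
    have ht : 1 ≤ (X n : ℝ) * s := by linarith
    have ht0 : 0 < (X n : ℝ) * s := by linarith
    have hXn : (X n : ℝ) ≠ 0 := by
      intro h
      rw [h, zero_mul] at ht0
      exact lt_irrefl _ ht0
    refine ⟨(X n : ℝ) * s, ht, ?_⟩
    rw [pi_norm_le_iff_of_nonneg hη.le]
    intro j
    have h3 : (sc ((X n : ℝ) * s) (w n) - ω) j
        = ((a j : ℝ) / s - ω j) + (y * b j) / ((X n : ℝ) * s) := by
      have h4 : (sc ((X n : ℝ) * s) (w n) - ω) j
          = ((X n * a j + y * b j : ℤ) : ℝ) / ((X n : ℝ) * s) - ω j := by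
        rw [hw]
        rfl
      rw [h4]
      push_cast
      field_simp
      ring
    rw [h3, Real.norm_eq_abs]
    have h5 : |(y * b j : ℝ) / ((X n : ℝ) * s)| ≤ η / 4 := by
      rw [abs_div, abs_of_pos ht0, div_le_iff₀ ht0, abs_mul]
      have h6 : |(y : ℝ)| * |(b j : ℝ)| ≤ |(y : ℝ)| * B :=
        mul_le_mul_of_nonneg_left (hBj j) (abs_nonneg _)
      have h7 : η / 4 * (4 * |(y : ℝ)| * B / η) = |(y : ℝ)| * B := by
        field_simp
      have h8 : η / 4 * (4 * |(y : ℝ)| * B / η) ≤ η / 4 * ((X n : ℝ) * s) :=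
        mul_le_mul_of_nonneg_left (by linarith) (by positivity)
      linarith
    have h9 := hclose j
    have h10 := abs_add_le ((a j : ℝ) / s - ω j) ((y * b j) / ((X n : ℝ) * s))
    linarith
  -- the greedy choice
  obtain ⟨T, hT1, hT2, hT3⟩ := SEQ_greedy (F := fun n m => wdg c (w n) (w m) = 0)
    (fun m n h => by
      have h' : wdg c (w m) (w n) = 0 := h
      show wdg c (w n) (w m) = 0
      unfold wdg at h' ⊢
      linear_combination (-1) * h')
    (fun n => by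
      have h1 := SEQ_fin c hc (qv c (w n) 0) (qv c (w n) 1)
        (fun h => SEQ_ne c hc (w n) (hwne n) h.1 h.2) a b hab y hy
      have h2 := h1.preimage (f := X) hXinj.injOn
      refine h2.subset ?_
      intro m hm
      have hm' : wdg c (w n) (w m) = 0 := hm
      unfold wdg at hm'
      show qv c (w n) 0 * qv c (fun j => X m * a j + y * b j) 1
        - qv c (w n) 1 * qv c (fun j => X m * a j + y * b j) 0 = 0
      rw [← hw m]
      exact hm') n₀ K
  have hinj : Set.InjOn w (T : Set ℕ) := by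
    intro n hn m hm h
    by_contra hnm
    apply hT3 n hn m hm hnm
    show wdg c (w n) (w m) = 0
    rw [h]
    unfold wdg
    ring
  refine ⟨T.image w, ?_, ?_, ?_⟩
  · rw [Finset.card_image_of_injOn hinj, hT1]
  · intro v hv
    obtain ⟨n, hn, rfl⟩ := Finset.mem_image.1 hv
    exact ⟨hadm n, hwne n, hclose2 n (hT2 n hn)⟩
  · intro v hv v' hv' hvv
    obtain ⟨n, hn, rfl⟩ := Finset.mem_image.1 hv
    obtain ⟨m, hm, rfl⟩ := Finset.mem_image.1 hv'
    exact hT3 n hn m hm (fun h => hvv (by rw [h]))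

end Pool.GLU
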