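import Pool.Agent.Work.MP_9fb703_gl.Interface

set_option autoImplicit false

namespace Pool.GLU

open Matrix Polynomial

theorem SIM_key {K : Type} [Field K] (S0 S1 : Matrix (Fin 4) (Fin 4) K) (F : K[X])
    (hF : F = ((X : K[X]) • S0.map (C : K → K[X]) + S1.map (C : K → K[X])).det) (ν : K)
    (x : Fin 4 → K) (hN : (ν • S0 + S1) *ᵥ x = 0) :
    (ν • S0 + S1).adjugate *ᵥ (S0 *ᵥ x) = (F.derivative.eval ν) • x := by
  set B : Matrix (Fin 4) (Fin 4) K[X] :=
    (X : K[X]) • S0.map (C : K → K[X]) + S1.map (C : K → K[X]) with hB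
  have hBx : B *ᵥ (fun i => C (x i)) =
      ((X : K[X]) - C ν) • (fun i => C ((S0 *ᵥ x) i)) := by
    have e0 : (S0.map (C : K → K[X])) *ᵥ (fun i => C (x i)) = fun i => C ((S0 *ᵥ x) i) := by
      funext i
      exact (RingHom.map_mulVec (C : K →+* K[X]) S0 x i).symm
    have e1 : (S1.map (C : K → K[X])) *ᵥ (fun i => C (x i)) = fun i => C ((S1 *ᵥ x) i) := by
      funext i
      exact (RingHom.map_mulVec (C : K →+* K[X]) S1 x i).symm
    rw [hB, Matrix.add_mulVec, Matrix.smul_mulVec, e0, e1]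
    funext i
    have h := congrFun hN i
    rw [Matrix.add_mulVec, Matrix.smul_mulVec] at h
    simp only [Pi.add_apply, Pi.smul_apply, smul_eq_mul, Pi.zero_apply] at h ⊢
    have h2 : (S1 *ᵥ x) i = -(ν * (S0 *ᵥ x) i) := by linear_combination h
    rw [h2, C_neg, C_mul]
    ring
  have hcr : B.adjugate *ᵥ (B *ᵥ (fun i => C (x i))) = B.det • (fun i => C (x i)) := by
    rw [Matrix.mulVec_mulVec, Matrix.adjugate_mul, Matrix.smul_mulVec, Matrix.one_mulVec]
  rw [hBx, Matrix.mulVec_smul] at hcr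
  funext k
  have hk := congrFun hcr k
  simp only [Pi.smul_apply, smul_eq_mul] at hk ⊢
  have hd := congrArg (fun p : K[X] => p.derivative.eval ν) hk
  simp only [derivative_mul, derivative_sub, derivative_X, derivative_C, sub_zero, one_mul,
    eval_add, eval_mul, eval_sub, eval_X, eval_C, sub_self, zero_mul, add_zero, mul_zero] at hd
  have he : (B.adjugate *ᵥ fun i => C ((S0 *ᵥ x) i)) k = (B.adjugate *ᵥ fun i => C ((S0 *ᵥ x) i)) k
    := rfl
  have hev : eval ν ((B.adjugate *ᵥ fun i => C ((S0 *ᵥ x) i)) k) =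
      ((ν • S0 + S1).adjugate *ᵥ (S0 *ᵥ x)) k := by
    have h3 := RingHom.map_mulVec (evalRingHom ν) B.adjugate (fun i => C ((S0 *ᵥ x) i)) k
    rw [coe_evalRingHom] at h3
    rw [h3]
    have h4 : B.adjugate.map (eval ν) = (ν • S0 + S1).adjugate := by
      have h5 := RingHom.map_adjugate (evalRingHom ν) B
      rw [RingHom.mapMatrix_apply, RingHom.mapMatrix_apply, coe_evalRingHom] at h5
      rw [h5]
      congr 1
      ext i j
      simp [hB]
      ring
    have h6 : (eval ν ∘ fun i => C ((S0 *ᵥ x) i)) = S0 *ᵥ x := by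
      funext i
      simp
    rw [h4, h6]
  rw [hev] at hd
  rw [hd, hF]

theorem SIM_core {K : Type} [Field K] (S0 S1 : Matrix (Fin 4) (Fin 4) K) (h0 : S0ᵀ = S0)
    (h1 : S1ᵀ = S1) (F : K[X])
    (hF : F = ((X : K[X]) • S0.map (C : K → K[X]) + S1.map (C : K → K[X])).det) (ν : K)
    (hd : F.derivative.eval ν ≠ 0) (x : Fin 4 → K) (hx : x ≠ 0)
    (hN : (ν • S0 + S1) *ᵥ x = 0) :
    x ⬝ᵥ (S0 *ᵥ x) ≠ 0 ∧
      ∀ x' : Fin 4 → K, (ν • S0 + S1) *ᵥ x' = 0 → ∃ t : K, x' = t • x := by
  have key := SIM_key S0 S1 F hF ν x hN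
  set N := ν • S0 + S1 with hNdef
  obtain ⟨i, hi⟩ : ∃ i, x i ≠ 0 := by
    by_contra h
    push Not at h
    exact hx (funext h)
  have hker : ∀ x' : Fin 4 → K, N *ᵥ x' = 0 → ∃ t : K, x' = t • x := by
    intro x' hx'
    by_cases hy : x' i • x - x i • x' = 0
    · refine ⟨x' i / x i, ?_⟩
      funext k
      have h2 := congrFun hy k
      simp only [Pi.sub_apply, Pi.smul_apply, smul_eq_mul, Pi.zero_apply] at h2 ⊢
      field_simp
      linear_combination -h2
    · exfalso
      have hrow : ∀ j, N.adjugate i j = 0 := by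
        intro j
        rw [Matrix.adjugate_apply]
        refine Matrix.exists_mulVec_eq_zero_iff.mp ⟨x' i • x - x i • x', hy, ?_⟩
        have hNy : N *ᵥ (x' i • x - x i • x') = 0 := by
          rw [Matrix.mulVec_sub, Matrix.mulVec_smul, Matrix.mulVec_smul, hN, hx']
          simp
        funext k
        by_cases hk : k = j
        · subst hk
          simp only [Matrix.mulVec, Matrix.updateRow_self]
          rw [single_dotProduct]
          simp [mul_comm]
        · have := congrFun hNy k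
          simp only [Matrix.mulVec] at this ⊢
          rw [Matrix.updateRow_ne hk]
          exact this
      have hki := congrFun key i
      rw [Matrix.mulVec] at hki
      simp only [dotProduct, hrow, zero_mul, Finset.sum_const_zero, Pi.smul_apply,
        smul_eq_mul] at hki
      rcases mul_eq_zero.mp hki.symm with h | h
      · exact hd h
      · exact hi h
  refine ⟨fun hs => ?_, hker⟩
  have hdet : N.det = 0 := Matrix.exists_mulVec_eq_zero_iff.mp ⟨x, hx, hN⟩
  have hNT : Nᵀ = N := by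
    rw [hNdef, Matrix.transpose_add, Matrix.transpose_smul, h0, h1]
  have hadjT : N.adjugateᵀ = N.adjugate := by
    rw [Matrix.adjugate_transpose, hNT]
  have hcol : ∀ j, ∃ t : K, (fun k => N.adjugate k j) = t • x := by
    intro j
    apply hker
    funext k
    have h2 := congrFun (congrFun (Matrix.mul_adjugate N) k) j
    rw [hdet, zero_smul] at h2
    simpa [Matrix.mul_apply, Matrix.mulVec, dotProduct] using h2
  choose t ht using hcol
  have hsym : ∀ j, t j * x i = t i * x j := by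
    intro j
    have e1 := congrFun (ht j) i
    have e2 := congrFun (ht i) j
    have e3 := congrFun (congrFun hadjT i) j
    simp only [Pi.smul_apply, smul_eq_mul] at e1 e2
    rw [Matrix.transpose_apply] at e3
    rw [← e1, ← e2, e3]
  have hki := congrFun key i
  rw [Matrix.mulVec] at hki
  simp only [dotProduct, Pi.smul_apply, smul_eq_mul] at hki
  have h5 : ∑ j, N.adjugate i j * (S0 *ᵥ x) j = t i * (x ⬝ᵥ (S0 *ᵥ x)) := by
    rw [dotProduct, Finset.mul_sum]
    refine Finset.sum_congr rfl fun j _ => ?_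
    have e1 := congrFun (ht j) i
    simp only [Pi.smul_apply, smul_eq_mul] at e1
    rw [e1, hsym j]
    ring
  rw [h5, hs, mul_zero] at hki
  rcases mul_eq_zero.mp hki.symm with h | h
  · exact hd h
  · exact hi h

theorem SIM_bez (f : ℤ[X]) (hf : (f.map (Int.castRingHom ℚ)).Separable) :
    ∃ (D : ℤ) (A A' : ℤ[X]), D ≠ 0 ∧ A * f + A' * derivative f = C D := by
  obtain ⟨a, a', h⟩ := hf
  obtain ⟨b1, hm1, hb1⟩ := IsLocalization.integerNormalization_spec (nonZeroDivisors ℤ) a
  obtain ⟨b2, hm2, hb2⟩ := IsLocalization.integerNormalization_spec (nonZeroDivisors ℤ) a'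
  have hne1 : b1 ≠ 0 := nonZeroDivisors.ne_zero hm1
  have hne2 : b2 ≠ 0 := nonZeroDivisors.ne_zero hm2
  refine ⟨(b1 : ℤ) * b2, C (b2 : ℤ) * IsLocalization.integerNormalization (nonZeroDivisors ℤ) a,
    C (b1 : ℤ) * IsLocalization.integerNormalization (nonZeroDivisors ℤ) a',
    mul_ne_zero hne1 hne2, ?_⟩
  have hinj : Function.Injective (Polynomial.map (Int.castRingHom ℚ)) :=
    Polynomial.map_injective _ Int.cast_injective
  apply hinj
  have e : algebraMap ℤ ℚ = Int.castRingHom ℚ := rfl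
  rw [e] at hb1 hb2
  rw [derivative_map] at h
  simp only [Polynomial.map_add, Polynomial.map_mul, hb1, hb2, Polynomial.map_C]
  have hz1 : ∀ (b : ℤ) (p : ℚ[X]), (b : ℤ) • p = C (Int.castRingHom ℚ b) * p := by
    intro b p
    rw [zsmul_eq_mul]
    simp
  rw [hz1, hz1]
  simp only [map_mul]
  linear_combination (C ((Int.castRingHom ℚ) (b1 : ℤ)) * C ((Int.castRingHom ℚ) (b2 : ℤ))) * h

theorem SIM_cast {K : Type} [Field K] (P : ℕ) (hK : ringChar K = 0 ∨ P ≤ ringChar K) (z : ℤ)
    (hz : z ≠ 0) (hzP : z.natAbs < P) : (z : K) ≠ 0 := by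
  intro h
  have h2 := (CharP.intCast_eq_zero_iff K (ringChar K) z).mp h
  rcases hK with h0 | h0
  · rw [h0] at h2
    simp only [Nat.cast_zero, zero_dvd_iff] at h2
    exact hz h2
  · have h3 := Int.natCast_dvd.mp h2
    have h4 := Nat.le_of_dvd (Int.natAbs_pos.mpr hz) h3
    omega

theorem p_SIM : Stmt_SIM := by
  intro b hb
  obtain ⟨D, A, A', hD, hAD⟩ := SIM_bez (fpol b) hb.sep
  refine ⟨D.natAbs + ((b 0 + (b 0)ᵀ).det).natAbs + 1, ?_⟩
  intro K _ hK μ x hμ hx hker
  set S0 : Matrix (Fin 4) (Fin 4) K := (b 0 + (b 0)ᵀ).map (Int.cast : ℤ → K) with hS0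
  set S1 : Matrix (Fin 4) (Fin 4) K := (b 1 + (b 1)ᵀ).map (Int.cast : ℤ → K) with hS1
  have hj0 : ∀ y : Fin 4 → K, jv b y 0 = S0 *ᵥ y := fun y => rfl
  have hj1 : ∀ y : Fin 4 → K, jv b y 1 = S1 *ᵥ y := fun y => rfl
  have hD' : ((D : ℤ) : K) ≠ 0 := SIM_cast _ hK D hD (by omega)
  have hdet' : S0.det ≠ 0 := by
    have h := SIM_cast _ hK ((b 0 + (b 0)ᵀ).det) hb.det0 (by omega)
    have e : S0.det = (((b 0 + (b 0)ᵀ).det : ℤ) : K) := by
      have := RingHom.map_det (Int.castRingHom K) (b 0 + (b 0)ᵀ)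
      rw [RingHom.mapMatrix_apply] at this
      exact this.symm
    rw [e]
    exact h
  have hμ1 : μ 1 ≠ 0 := by
    intro h1
    have hμ0 : μ 0 ≠ 0 := by
      intro h0
      apply hμ
      funext i
      fin_cases i
      · exact h0
      · exact h1
    rw [h1, zero_smul, add_zero, hj0] at hker
    have h2 : S0 *ᵥ x = 0 := by
      rcases smul_eq_zero.mp hker with h | h
      · exact absurd h hμ0
      · exact h
    exact hdet' (Matrix.exists_mulVec_eq_zero_iff.mp ⟨x, hx, h2⟩)
  set ν : K := μ 0 / μ 1 with hν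
  have hkiff : ∀ y : Fin 4 → K, μ 0 • jv b y 0 + μ 1 • jv b y 1 = 0 →
      (ν • S0 + S1) *ᵥ y = 0 := by
    intro y hy
    rw [hj0, hj1] at hy
    have e : (ν • S0 + S1) *ᵥ y = (μ 1)⁻¹ • (μ 0 • (S0 *ᵥ y) + μ 1 • (S1 *ᵥ y)) := by
      rw [Matrix.add_mulVec, Matrix.smul_mulVec, smul_add, smul_smul, smul_smul,
        inv_mul_cancel₀ hμ1, one_smul, hν, div_eq_inv_mul]
    rw [e, hy, smul_zero]
  have hN := hkiff x hker
  have hT : ∀ i : Fin 2, ((b i + (b i)ᵀ).map (Int.cast : ℤ → K))ᵀ =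
      (b i + (b i)ᵀ).map (Int.cast : ℤ → K) := by
    intro i
    rw [← Matrix.transpose_map, Matrix.transpose_add, Matrix.transpose_transpose, add_comm]
  have hF : (fpol b).map (Int.castRingHom K) =
      ((X : K[X]) • S0.map (C : K → K[X]) + S1.map (C : K → K[X])).det := by
    rw [fpol, ← Polynomial.coe_mapRingHom, RingHom.map_det]
    congr 1
    ext i j
    simp [hS0, hS1, RingHom.mapMatrix_apply, Matrix.map_apply]
  have hroot : eval ν ((fpol b).map (Int.castRingHom K)) = 0 := by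
    have hdN : (ν • S0 + S1).det = 0 := Matrix.exists_mulVec_eq_zero_iff.mp ⟨x, hx, hN⟩
    rw [hF, ← coe_evalRingHom, RingHom.map_det, ← hdN]
    congr 1
    ext i j
    simp [RingHom.mapMatrix_apply]
    ring
  have hder : eval ν (derivative ((fpol b).map (Int.castRingHom K))) ≠ 0 := by
    intro h0
    have h := congrArg (fun p : ℤ[X] => eval ν (p.map (Int.castRingHom K))) hAD
    simp only [Polynomial.map_add, Polynomial.map_mul, Polynomial.map_C, eval_add, eval_mul,
      eval_C, ← derivative_map] at h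
    rw [hroot, h0, mul_zero, mul_zero, add_zero] at h
    exact hD' h.symm
  obtain ⟨h1, h2⟩ := SIM_core S0 S1 (hT 0) (hT 1) _ hF ν hder x hx hN
  refine ⟨fun hq => h1 ?_, fun x' hx' => h2 x' (hkiff x' hx')⟩
  have hq0 := congrFun hq 0
  have e : S0 = (b 0).map (Int.cast : ℤ → K) + ((b 0).map (Int.cast : ℤ → K))ᵀ := by
    ext i j
    simp [hS0]
  have hq1 : x ⬝ᵥ ((b 0).map (Int.cast : ℤ → K) *ᵥ x) = 0 := hq0
  rw [e, Matrix.add_mulVec, dotProduct_add, hq1, Matrix.mulVec_transpose, dotProduct_comm,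
    ← Matrix.dotProduct_mulVec, hq1, add_zero]

end Pool.GLU
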