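import Pool.Agent.Work.MP_9fb703_gl.Interface

set_option autoImplicit false

namespace Pool.GLU

open Matrix Polynomial MeasureTheory
open scoped Pointwise

theorem SMO_qdvd (b : Fin 2 → Matrix (Fin 4) (Fin 4) ℤ) (L : ℤ) (x y : Fin 4 → ℤ)
    (h : ∀ j, L ∣ x j - y j) (i : Fin 2) : L ∣ qv b x i - qv b y i := by
  have e : qv b x i - qv b y i =
      ∑ j, ∑ k, b i j k * ((x j - y j) * x k + y j * (x k - y k)) := by
    simp only [qv, dotProduct, mulVec, Matrix.map_apply, Int.cast_id, Finset.mul_sum,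
      ← Finset.sum_sub_distrib]
    refine Finset.sum_congr rfl fun j _ => Finset.sum_congr rfl fun k _ => by ring
  rw [e]
  refine Finset.dvd_sum fun j _ => Finset.dvd_sum fun k _ => ?_
  exact Dvd.dvd.mul_left (dvd_add (Dvd.dvd.mul_right (h j) _) (Dvd.dvd.mul_left (h k) _)) _

theorem SMO_qscale {n : ℕ} (b : Fin 2 → Matrix (Fin n) (Fin n) ℤ) (s : ℝ) (x : Fin n → ℤ)
    (i : Fin 2) :
    qv b (fun j => s * (x j : ℝ)) i = s ^ 2 * ((qv b x i : ℤ) : ℝ) := by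
  simp only [qv, dotProduct, mulVec, Matrix.map_apply, Int.cast_id]
  push_cast
  simp only [Finset.mul_sum]
  refine Finset.sum_congr rfl fun j _ => Finset.sum_congr rfl fun k _ => by ring

theorem SMO_qcast {n : ℕ} (b : Fin 2 → Matrix (Fin n) (Fin n) ℤ) (x : Fin n → ℤ) (i : Fin 2) :
    qv b (fun j => (x j : ℝ)) i = ((qv b x i : ℤ) : ℝ) := by
  have := SMO_qscale b 1 x i
  simpa using this

theorem SMO_volrow (p0 p1 q0 q1 d : ℝ) (hd : d ≠ 0) (hde : d = p0 * q1 - p1 * q0)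
    (a0 a1 θ : ℝ) (hθ : 0 < θ) :
    volume {z : ℝ × ℝ | (a0 ≤ (z.1 * q1 - z.2 * p1) / d ∧ (z.1 * q1 - z.2 * p1) / d ≤ a0 + θ) ∧
      (a1 ≤ (z.2 * p0 - z.1 * q0) / d ∧ (z.2 * p0 - z.1 * q0) / d ≤ a1 + θ)} =
      ENNReal.ofReal (|d| * θ ^ 2) := by
  have hmp := (volume_preserving_finTwoArrow ℝ)
  rw [← hmp.measure_preimage_equiv]
  have hdet : (!![q1 / d, - p1 / d; - q0 / d, p0 / d] : Matrix (Fin 2) (Fin 2) ℝ).det = d⁻¹ := by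
    rw [Matrix.det_fin_two_of]
    field_simp
    rw [hde]; ring
  have hset : (MeasurableEquiv.finTwoArrow : (Fin 2 → ℝ) ≃ᵐ ℝ × ℝ) ⁻¹'
      {z : ℝ × ℝ | (a0 ≤ (z.1 * q1 - z.2 * p1) / d ∧ (z.1 * q1 - z.2 * p1) / d ≤ a0 + θ) ∧
      (a1 ≤ (z.2 * p0 - z.1 * q0) / d ∧ (z.2 * p0 - z.1 * q0) / d ≤ a1 + θ)} =
      (Matrix.toLin' (!![q1 / d, - p1 / d; - q0 / d, p0 / d] : Matrix (Fin 2) (Fin 2) ℝ)) ⁻¹'
        Set.Icc ![a0, a1] ![a0 + θ, a1 + θ] := by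
    ext v
    simp only [Set.mem_preimage, Set.mem_ofPred_eq, Set.mem_Icc, Pi.le_def, Fin.forall_fin_two,
      Matrix.toLin'_apply, MeasurableEquiv.finTwoArrow_apply]
    simp only [Matrix.mulVec, dotProduct, Fin.sum_univ_two, Matrix.of_apply, Matrix.cons_val',
      Matrix.cons_val_zero, Matrix.cons_val_one]
    have e1 : (v 0 * q1 - v 1 * p1) / d = q1 / d * v 0 + -p1 / d * v 1 := by ring
    have e2 : (v 1 * p0 - v 0 * q0) / d = -q0 / d * v 0 + p0 / d * v 1 := by ring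
    rw [e1, e2]
    tauto
  rw [hset, Measure.addHaar_preimage_linearMap, LinearMap.det_toLin', hdet]
  · rw [Real.volume_Icc_pi]
    simp only [Fin.prod_univ_two, Matrix.cons_val_zero, Matrix.cons_val_one, add_sub_cancel_left]
    rw [inv_inv, ← ENNReal.ofReal_mul hθ.le, ← ENNReal.ofReal_mul (abs_nonneg _)]
    congr 1; ring
  · rw [LinearMap.det_toLin', hdet]
    exact inv_ne_zero hd

/-- the pairs `(M φ, M φ')` with `M` in the cube -/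
def SMO_S (φ φ' : Fin 2 → ℝ) (d : ℝ) (α : Matrix (Fin 2) (Fin 2) ℝ) (θ : ℝ) :
    Set ((Fin 2 → ℝ) × (Fin 2 → ℝ)) :=
  {z | ∀ i, (α i 0 ≤ (z.1 i * φ' 1 - z.2 i * φ 1) / d ∧
      (z.1 i * φ' 1 - z.2 i * φ 1) / d ≤ α i 0 + θ) ∧
      (α i 1 ≤ (z.2 i * φ 0 - z.1 i * φ' 0) / d ∧ (z.2 i * φ 0 - z.1 i * φ' 0) / d ≤ α i 1 + θ)}

theorem SMO_volS (φ φ' : Fin 2 → ℝ) (d : ℝ) (hd : d ≠ 0) (hde : d = φ 0 * φ' 1 - φ 1 * φ' 0)
    (α : Matrix (Fin 2) (Fin 2) ℝ) (θ : ℝ) (hθ : 0 < θ) :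
    volume (SMO_S φ φ' d α θ) = ENNReal.ofReal (d ^ 2 * θ ^ 4) := by
  rw [← (volume_measurePreserving_arrowProdEquivProdArrow ℝ ℝ (Fin 2)).measure_preimage_equiv]
  have hset : (MeasurableEquiv.arrowProdEquivProdArrow ℝ ℝ (Fin 2)) ⁻¹' SMO_S φ φ' d α θ =
      Set.univ.pi (fun i => {z : ℝ × ℝ | (α i 0 ≤ (z.1 * φ' 1 - z.2 * φ 1) / d ∧
        (z.1 * φ' 1 - z.2 * φ 1) / d ≤ α i 0 + θ) ∧
      (α i 1 ≤ (z.2 * φ 0 - z.1 * φ' 0) / d ∧ (z.2 * φ 0 - z.1 * φ' 0) / d ≤ α i 1 + θ)}) := by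
    ext v
    simp [SMO_S, MeasurableEquiv.arrowProdEquivProdArrow, Equiv.arrowProdEquivProdArrow,
      Set.mem_pi]
  rw [hset, volume_pi_pi, Fin.prod_univ_two, SMO_volrow (φ 0) (φ 1) (φ' 0) (φ' 1) d hd hde _ _ _ hθ,
    SMO_volrow (φ 0) (φ 1) (φ' 0) (φ' 1) d hd hde _ _ _ hθ,
    ← ENNReal.ofReal_mul (by positivity)]
  congr 1
  rw [← sq_abs d]; ring

theorem SMO_closedS (φ φ' : Fin 2 → ℝ) (d : ℝ) (α : Matrix (Fin 2) (Fin 2) ℝ) (θ : ℝ) :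
    IsClosed (SMO_S φ φ' d α θ) := by
  have : SMO_S φ φ' d α θ = ⋂ i, {z | (α i 0 ≤ (z.1 i * φ' 1 - z.2 i * φ 1) / d ∧
      (z.1 i * φ' 1 - z.2 i * φ 1) / d ≤ α i 0 + θ) ∧
      (α i 1 ≤ (z.2 i * φ 0 - z.1 i * φ' 0) / d ∧
        (z.2 i * φ 0 - z.1 i * φ' 0) / d ≤ α i 1 + θ)} := by
    ext z; simp [SMO_S]
  rw [this]
  refine isClosed_iInter fun i => ?_
  refine IsClosed.and (IsClosed.and ?_ ?_) (IsClosed.and ?_ ?_)
  · exact isClosed_le (by fun_prop) (by fun_prop)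
  · exact isClosed_le (by fun_prop) (by fun_prop)
  · exact isClosed_le (by fun_prop) (by fun_prop)
  · exact isClosed_le (by fun_prop) (by fun_prop)

theorem SMO_contq {n : ℕ} (b : Fin 2 → Matrix (Fin n) (Fin n) ℤ) :
    Continuous (fun x : Fin n → ℝ => qv b x) := by
  refine continuous_pi fun i => ?_
  simp only [qv, dotProduct, mulVec]
  fun_prop

/-- the region of pairs in `ℝ⁸` -/
def SMO_R (b : Fin 2 → Matrix (Fin 4) (Fin 4) ℤ) (D : Set (Fin 4 → ℝ)) (t t' : ℝ)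
    (S : Set ((Fin 2 → ℝ) × (Fin 2 → ℝ))) : Set ((Fin 4 → ℝ) × (Fin 4 → ℝ)) :=
  {z | t⁻¹ • z.1 ∈ D ∧ t'⁻¹ • z.2 ∈ D ∧ (qv b z.1, qv b z.2) ∈ S}

theorem SMO_compR (b : Fin 2 → Matrix (Fin 4) (Fin 4) ℤ) (D : Set (Fin 4 → ℝ)) (t t' : ℝ)
    (S : Set ((Fin 2 → ℝ) × (Fin 2 → ℝ))) (hD : IsCompact D) (ht : 0 < t) (ht' : 0 < t')
    (hS : IsClosed S) : IsCompact (SMO_R b D t t' S) := by
  have hK : IsCompact ((t • D) ×ˢ (t' • D)) := (hD.smul t).prod (hD.smul t')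
  refine hK.of_isClosed_subset ?_ ?_
  · refine IsClosed.and ?_ (IsClosed.and ?_ ?_)
    · exact hD.isClosed.preimage (by fun_prop)
    · exact hD.isClosed.preimage (by fun_prop)
    · exact hS.preimage (((SMO_contq b).comp continuous_fst).prodMk
        ((SMO_contq b).comp continuous_snd))
  · rintro z ⟨h1, h2, -⟩
    exact ⟨(Set.mem_smul_set_iff_inv_smul_mem₀ ht.ne' _ _).2 h1,
      (Set.mem_smul_set_iff_inv_smul_mem₀ ht'.ne' _ _).2 h2⟩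

theorem SMO_fin (R : Set (Fin 4 ⊕ Fin 4 → ℝ)) (hR : IsCompact R) (B : ℕ) (hB : 1 ≤ B) :
    {x : Fin 4 ⊕ Fin 4 → ℤ | (fun i => (x i : ℝ) / (B : ℝ) ^ 1) ∈ R}.Finite := by
  obtain ⟨C, hC⟩ := hR.isBounded.exists_norm_le
  have hB' : (0 : ℝ) < B := by exact_mod_cast hB
  refine (Set.finite_Icc (fun _ : Fin 4 ⊕ Fin 4 => -⌈C * B⌉) (fun _ => ⌈C * B⌉)).subset ?_
  intro x hx
  have h1 : ∀ i, |(x i : ℝ)| ≤ C * B := by
    intro i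
    have h2 := (norm_le_pi_norm (fun i => (x i : ℝ) / (B : ℝ) ^ 1) i).trans (hC _ hx)
    rw [pow_one, Real.norm_eq_abs, abs_div, abs_of_pos hB', div_le_iff₀ hB'] at h2
    exact h2
  refine ⟨fun i => ?_, fun i => ?_⟩
  · have h3 : (-(⌈C * B⌉ : ℤ) : ℝ) ≤ x i := by
      have := (abs_le.1 (h1 i)).1
      have h4 := Int.le_ceil (C * B)
      linarith
    show -⌈C * B⌉ ≤ x i
    exact_mod_cast h3
  · have h3 : (x i : ℝ) ≤ (⌈C * B⌉ : ℤ) := (abs_le.1 (h1 i)).2.trans (Int.le_ceil _)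
    show x i ≤ ⌈C * B⌉
    exact_mod_cast h3

theorem SMO_det (b : Fin 2 → Matrix (Fin 4) (Fin 4) ℤ) (c : Fin 2 → Matrix (Fin 2) (Fin 2) ℤ)
    (M : Matrix (Fin 2) (Fin 2) ℤ) (x x' : Fin 4 → ℤ) (w w' : Fin 2 → ℤ) (h : Zer b c M x w)
    (h' : Zer b c M x' w') (i : Fin 2) :
    qv b x i * qv c w' 1 - qv b x' i * qv c w 1 = M i 0 * wdg c w w' ∧
      qv b x' i * qv c w 0 - qv b x i * qv c w' 0 = M i 1 * wdg c w w' := by
  have e1 : qv b x i = M i 0 * qv c w 0 + M i 1 * qv c w 1 := by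
    have := congrFun h i
    rw [this]; simp [mulVec, dotProduct, Fin.sum_univ_two]
  have e2 : qv b x' i = M i 0 * qv c w' 0 + M i 1 * qv c w' 1 := by
    have := congrFun h' i
    rw [this]; simp [mulVec, dotProduct, Fin.sum_univ_two]
  rw [e1, e2, wdg]
  constructor <;> ring

theorem p_SMO (hRCT : Stmt_RCT) (hLPT : Stmt_LPT) (hSCU : Stmt_SCU) : Stmt_SMO := by
  intro b c hN hres
  obtain ⟨P₁, hP₁⟩ := hRCT b c hN hres
  refine ⟨P₁, ?_⟩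
  intro ξ D D' s₀ s₁ r hC P₀ m V' M₀ x₀ w₀ w w' t t' θ α hP hLD hw hw' hd ht ht' hθ ε hε
  have hcl := hP₁ P₀ m V' M₀ x₀ w₀ w w' hP hLD hw hw' hd
  have hs1 : 0 < s₁ := hC.s0.trans_le hC.s1
  have hVW : m * V' ∣ m ^ 2 * V' := ⟨m, by ring⟩
  have hW0 : 0 < m ^ 2 * V' := Nat.mul_pos (pow_pos hLD.m0 2) hLD.V0
  obtain ⟨kp, hkp⟩ : ∃ kp : ℕ, kp = kap b m V' x₀ := ⟨_, rfl⟩
  rw [← hkp] at hcl ⊢
  obtain ⟨V, hV⟩ : ∃ V : ℕ, V = m * V' := ⟨_, rfl⟩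
  obtain ⟨W, hW⟩ : ∃ W : ℕ, W = m ^ 2 * V' := ⟨_, rfl⟩
  rw [← hW] at hcl hVW hW0 ⊢
  rw [← hV] at hcl hVW ⊢
  obtain ⟨d, hdd⟩ : ∃ d : ℤ, d = wdg c w w' := ⟨_, rfl⟩
  rw [← hdd] at hcl hd
  obtain ⟨L, hL⟩ : ∃ L : ℕ, L = W * d.natAbs := ⟨_, rfl⟩
  have hLd : (L : ℤ) = W * |d| := by
    rw [hL, Nat.cast_mul, Int.natCast_natAbs]
  have hL0 : 0 < L := by rw [hL]; exact Nat.mul_pos hW0 (Int.natAbs_pos.2 hd)
  have hLW : (W : ℤ) * d ∣ (L : ℤ) := by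
    rw [hLd]; exact mul_dvd_mul_left _ ((dvd_abs d d).2 dvd_rfl)
  have hVL : (V : ℤ) ∣ (L : ℤ) := by
    rw [hLd]; exact Dvd.dvd.mul_right (by exact_mod_cast hVW) _
  have hLpos : (0 : ℤ) < L := by exact_mod_cast hL0
  obtain ⟨Cl, hCl⟩ : ∃ Cl : Set ((Fin 4 → ℤ) × (Fin 4 → ℤ)), Cl =
      {z : (Fin 4 → ℤ) × (Fin 4 → ℤ) |
        (∀ j, 0 ≤ z.1 j ∧ z.1 j < (W : ℤ) * |d|) ∧
        (∀ j, 0 ≤ z.2 j ∧ z.2 j < (W : ℤ) * |d|) ∧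
        (∀ j, (V : ℤ) ∣ z.1 j - x₀ j) ∧ (∀ j, (V : ℤ) ∣ z.2 j - x₀ j) ∧
        ∃ M : Matrix (Fin 2) (Fin 2) ℤ, (∀ i j, (W : ℤ) ∣ M i j - M₀ i j) ∧
          ∀ i, (W : ℤ) * d ∣ qv b z.1 i - (M *ᵥ qv c w) i ∧
            (W : ℤ) * d ∣ qv b z.2 i - (M *ᵥ qv c w') i} := ⟨_, rfl⟩
  rw [← hCl] at hcl
  have hClfin : Cl.Finite := by
    refine ((Set.finite_Icc (fun _ : Fin 4 => (0 : ℤ)) (fun _ => (W : ℤ) * |d|)).prod
      (Set.finite_Icc (fun _ : Fin 4 => (0 : ℤ)) (fun _ => (W : ℤ) * |d|))).subset ?_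
    rw [hCl]
    rintro z ⟨h1, h2, -⟩
    exact ⟨⟨fun j => (h1 j).1, fun j => (h1 j).2.le⟩, ⟨fun j => (h2 j).1, fun j => (h2 j).2.le⟩⟩
  -- the region
  obtain ⟨φ, hφ⟩ : ∃ φ : Fin 2 → ℝ, φ = fun i => ((qv c w i : ℤ) : ℝ) := ⟨_, rfl⟩
  obtain ⟨φ', hφ'⟩ : ∃ φ : Fin 2 → ℝ, φ = fun i => ((qv c w' i : ℤ) : ℝ) := ⟨_, rfl⟩
  have hdR : (d : ℝ) ≠ 0 := by exact_mod_cast hd
  have hdφ : (d : ℝ) = φ 0 * φ' 1 - φ 1 * φ' 0 := by
    rw [hdd, wdg, hφ, hφ']; push_cast; ring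
  obtain ⟨S, hS⟩ : ∃ S, S = SMO_S φ φ' (d : ℝ) α θ := ⟨_, rfl⟩
  have hSc : IsClosed S := by rw [hS]; exact SMO_closedS _ _ _ _ _
  have hSv : volume S = ENNReal.ofReal ((d : ℝ) ^ 2 * θ ^ 4) := by
    rw [hS]; exact SMO_volS _ _ _ hdR hdφ _ _ hθ
  have hRc : IsCompact (SMO_R b D t t' S) := SMO_compR b D t t' S hC.cD ht ht' hSc
  have hRv : volume (SMO_R b D t t' S) ≤ ENNReal.ofReal (s₁ ^ 2 * ((d : ℝ) ^ 2 * θ ^ 4)) := by
    rw [ENNReal.ofReal_mul (by positivity), ← hSv]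
    exact hSCU b ξ D D' s₀ s₁ r hC t t' ht ht' S hSc.measurableSet
  obtain ⟨R, hR⟩ : ∃ R : Set (Fin 4 ⊕ Fin 4 → ℝ),
    R = {v | ((fun j => v (Sum.inl j)), (fun j => v (Sum.inr j))) ∈ SMO_R b D t t' S} := ⟨_, rfl⟩
  have hRc' : IsCompact R := by
    have : R = Homeomorph.sumArrowHomeomorphProdArrow ⁻¹' SMO_R b D t t' S := by
      rw [hR]; rfl
    rw [this, Homeomorph.isCompact_preimage]
    exact hRc
  have hRv' : (volume R).toReal ≤ s₁ ^ 2 * ((d : ℝ) ^ 2 * θ ^ 4) := by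
    have h1 : R = (MeasurableEquiv.sumPiEquivProdPi (fun _ : Fin 4 ⊕ Fin 4 => ℝ)) ⁻¹'
        SMO_R b D t t' S := by
      rw [hR]; rfl
    rw [h1, (volume_measurePreserving_sumPiEquivProdPi
      (fun _ : Fin 4 ⊕ Fin 4 => ℝ)).measure_preimage_equiv]
    exact ENNReal.toReal_le_of_le_ofReal (by positivity) hRv
  obtain ⟨ε', hε'⟩ : ∃ ε' : ℝ, ε' = ε * (L : ℝ) ^ 8 / ((Cl.ncard : ℝ) + 1) := ⟨_, rfl⟩
  have hLr : (0 : ℝ) < L := by exact_mod_cast hL0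
  have hε'0 : 0 < ε' := by rw [hε']; positivity
  have hlp : ∀ z₀ : (Fin 4 → ℤ) × (Fin 4 → ℤ), ∃ B₀ : ℕ, ∀ B : ℕ, B₀ ≤ B →
      (Set.ncard {x : Fin 4 ⊕ Fin 4 → ℤ | (∀ i, (L : ℤ) ∣ x i - Sum.elim z₀.1 z₀.2 i) ∧
        (fun i => (x i : ℝ) / (B : ℝ) ^ 1) ∈ R} : ℝ) * (L : ℝ) ^ 8 ≤
      ((volume R).toReal + ε') * (B : ℝ) ^ 8 := by
    intro z₀
    have := (hLPT (Fin 4 ⊕ Fin 4) (fun _ => L) (Sum.elim z₀.1 z₀.2) (fun _ => 1) R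
      (fun _ => hL0) (fun _ => le_rfl)).1 hRc' ε' hε'0
    simpa using this
  choose Bf hBf using hlp
  refine ⟨max 1 (hClfin.toFinset.sup Bf), fun B hB => ?_⟩
  have hB1 : 1 ≤ B := (le_max_left _ _).trans hB
  have hBr : (0 : ℝ) < B := by exact_mod_cast hB1
  have hBf' : ∀ z₀ ∈ Cl, Bf z₀ ≤ B := fun z₀ hz =>
    (Finset.le_sup (f := Bf) (hClfin.mem_toFinset.2 hz)).trans ((le_max_right _ _).trans hB)
  have hAfin : ∀ z₀ : (Fin 4 → ℤ) × (Fin 4 → ℤ),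
      {x : Fin 4 ⊕ Fin 4 → ℤ | (∀ i, (L : ℤ) ∣ x i - Sum.elim z₀.1 z₀.2 i) ∧
        (fun i => (x i : ℝ) / (B : ℝ) ^ 1) ∈ R}.Finite := fun z₀ =>
    (SMO_fin R hRc' B hB1).subset (fun x hx => hx.2)
  obtain ⟨T, hT⟩ : ∃ T : Set (Matrix (Fin 2) (Fin 2) ℤ × (Fin 4 → ℤ) × (Fin 4 → ℤ)), T =
      {z : Matrix (Fin 2) (Fin 2) ℤ × (Fin 4 → ℤ) × (Fin 4 → ℤ) |
          z.1 ∈ CB α θ W M₀ B ∧ z.2.1 ∈ Rw b c V x₀ D (t * B) w z.1 ∧
          z.2.2 ∈ Rw b c V x₀ D (t' * B) w' z.1} := ⟨_, rfl⟩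
  rw [← hT]
  have hinj : Set.InjOn (fun z : Matrix (Fin 2) (Fin 2) ℤ × (Fin 4 → ℤ) × (Fin 4 → ℤ) =>
      (Sum.elim z.2.1 z.2.2 : Fin 4 ⊕ Fin 4 → ℤ)) T := by
    rw [hT]
    rintro ⟨M, x, x'⟩ ⟨-, ⟨-, -, h1⟩, ⟨-, -, h2⟩⟩ ⟨M', y, y'⟩ ⟨-, ⟨-, -, h3⟩, ⟨-, -, h4⟩⟩ he
    simp only at h1 h2 h3 h4 he
    have hx : x = y := by
      funext j; exact congrFun he (Sum.inl j)
    have hx' : x' = y' := by
      funext j; exact congrFun he (Sum.inr j)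
    subst hx hx'
    have hM : M = M' := by
      ext i j
      have e1 := SMO_det b c M x x' w w' h1 h2 i
      have e2 := SMO_det b c M' x x' w w' h3 h4 i
      rw [← hdd] at e1 e2
      fin_cases j
      · exact mul_right_cancel₀ hd (e1.1.symm.trans e2.1)
      · exact mul_right_cancel₀ hd (e1.2.symm.trans e2.2)
    rw [hM]
  have himg : (fun z : Matrix (Fin 2) (Fin 2) ℤ × (Fin 4 → ℤ) × (Fin 4 → ℤ) =>
      (Sum.elim z.2.1 z.2.2 : Fin 4 ⊕ Fin 4 → ℤ)) '' T ⊆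
      ↑(hClfin.toFinset.biUnion (fun z₀ => (hAfin z₀).toFinset)) := by
    rintro _ ⟨⟨M, x, x'⟩, hz, rfl⟩
    rw [hT] at hz
    obtain ⟨⟨hM1, hM2⟩, ⟨hx1, hx2, hx3⟩, ⟨hy1, hy2, hy3⟩⟩ := hz
    simp only at hM1 hM2 hx1 hx2 hx3 hy1 hy2 hy3
    rw [Finset.mem_coe, Finset.mem_biUnion]
    have hmod : ∀ (y : Fin 4 → ℤ) (j : Fin 4), (L : ℤ) ∣ y j % (L : ℤ) - y j := fun y j => by
      rw [Int.emod_def]
      exact ⟨-(y j / L), by ring⟩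
    refine ⟨(fun j => x j % (L : ℤ), fun j => x' j % (L : ℤ)), ?_, ?_⟩
    · rw [hClfin.mem_toFinset, hCl]
      refine ⟨fun j => ?_, fun j => ?_, fun j => ?_, fun j => ?_, M, hM1, fun i => ⟨?_, ?_⟩⟩
      · rw [← hLd]; exact ⟨Int.emod_nonneg _ hLpos.ne', Int.emod_lt_of_pos _ hLpos⟩
      · rw [← hLd]; exact ⟨Int.emod_nonneg _ hLpos.ne', Int.emod_lt_of_pos _ hLpos⟩
      · have := dvd_add (hVL.trans (hmod x j)) (hx1 j)
        simpa using this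
      · have := dvd_add (hVL.trans (hmod x' j)) (hy1 j)
        simpa using this
      · have h5 := SMO_qdvd b L (fun j => x j % (L : ℤ)) x (hmod x) i
        have h6 := congrFun hx3 i
        rw [← h6]
        exact hLW.trans h5
      · have h5 := SMO_qdvd b L (fun j => x' j % (L : ℤ)) x' (hmod x') i
        have h6 := congrFun hy3 i
        rw [← h6]
        exact hLW.trans h5
    · rw [(hAfin _).mem_toFinset]
      refine ⟨?_, ?_⟩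
      · rintro (j | j)
        · have := hmod x j
          rw [← dvd_neg] at this
          simpa using this
        · have := hmod x' j
          rw [← dvd_neg] at this
          simpa using this
      · rw [hR]
        refine ⟨?_, ?_, ?_⟩
        · have : t⁻¹ • (fun j => (x j : ℝ) / (B : ℝ) ^ 1) = sc (t * B) x := by
            funext j
            simp only [Pi.smul_apply, smul_eq_mul, sc, pow_one]
            field_simp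
          show t⁻¹ • (fun j => (x j : ℝ) / (B : ℝ) ^ 1) ∈ D
          rw [this]; exact hx2
        · have : t'⁻¹ • (fun j => (x' j : ℝ) / (B : ℝ) ^ 1) = sc (t' * B) x' := by
            funext j
            simp only [Pi.smul_apply, smul_eq_mul, sc, pow_one]
            field_simp
          show t'⁻¹ • (fun j => (x' j : ℝ) / (B : ℝ) ^ 1) ∈ D
          rw [this]; exact hy2
        · rw [hS]
          intro i
          obtain ⟨e1, e2⟩ := SMO_det b c M x x' w w' hx3 hy3 i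
          have q1 : qv b (fun j => (x j : ℝ) / (B : ℝ) ^ 1) i =
              ((B : ℝ)⁻¹) ^ 2 * ((qv b x i : ℤ) : ℝ) := by
            rw [← SMO_qscale]
            congr 1
            funext j
            rw [pow_one, div_eq_inv_mul]
          have q2 : qv b (fun j => (x' j : ℝ) / (B : ℝ) ^ 1) i =
              ((B : ℝ)⁻¹) ^ 2 * ((qv b x' i : ℤ) : ℝ) := by
            rw [← SMO_qscale]
            congr 1
            funext j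
            rw [pow_one, div_eq_inv_mul]
          show (α i 0 ≤ (qv b (fun j => (x j : ℝ) / (B : ℝ) ^ 1) i * φ' 1 -
              qv b (fun j => (x' j : ℝ) / (B : ℝ) ^ 1) i * φ 1) / d ∧
            (qv b (fun j => (x j : ℝ) / (B : ℝ) ^ 1) i * φ' 1 -
              qv b (fun j => (x' j : ℝ) / (B : ℝ) ^ 1) i * φ 1) / d ≤ α i 0 + θ) ∧
            (α i 1 ≤ (qv b (fun j => (x' j : ℝ) / (B : ℝ) ^ 1) i * φ 0 -
              qv b (fun j => (x j : ℝ) / (B : ℝ) ^ 1) i * φ' 0) / d ∧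
            (qv b (fun j => (x' j : ℝ) / (B : ℝ) ^ 1) i * φ 0 -
              qv b (fun j => (x j : ℝ) / (B : ℝ) ^ 1) i * φ' 0) / d ≤ α i 1 + θ)
          rw [q1, q2, hφ, hφ']
          rw [← hdd] at e1 e2
          have e1' : ((qv b x i : ℤ) : ℝ) * ((qv c w' 1 : ℤ) : ℝ) -
              ((qv b x' i : ℤ) : ℝ) * ((qv c w 1 : ℤ) : ℝ) = (M i 0 : ℝ) * d := by
            exact_mod_cast e1
          have e2' : ((qv b x' i : ℤ) : ℝ) * ((qv c w 0 : ℤ) : ℝ) -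
              ((qv b x i : ℤ) : ℝ) * ((qv c w' 0 : ℤ) : ℝ) = (M i 1 : ℝ) * d := by
            exact_mod_cast e2
          have g1 : (((B : ℝ)⁻¹) ^ 2 * ((qv b x i : ℤ) : ℝ) * ((qv c w' 1 : ℤ) : ℝ) -
              ((B : ℝ)⁻¹) ^ 2 * ((qv b x' i : ℤ) : ℝ) * ((qv c w 1 : ℤ) : ℝ)) / d =
              (M i 0 : ℝ) / (B : ℝ) ^ 2 := by
            have : ((B : ℝ)⁻¹) ^ 2 * ((qv b x i : ℤ) : ℝ) * ((qv c w' 1 : ℤ) : ℝ) -
              ((B : ℝ)⁻¹) ^ 2 * ((qv b x' i : ℤ) : ℝ) * ((qv c w 1 : ℤ) : ℝ) =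
              ((B : ℝ)⁻¹) ^ 2 * ((M i 0 : ℝ) * d) := by rw [← e1']; ring
            rw [this]; field_simp
          have g2 : (((B : ℝ)⁻¹) ^ 2 * ((qv b x' i : ℤ) : ℝ) * ((qv c w 0 : ℤ) : ℝ) -
              ((B : ℝ)⁻¹) ^ 2 * ((qv b x i : ℤ) : ℝ) * ((qv c w' 0 : ℤ) : ℝ)) / d =
              (M i 1 : ℝ) / (B : ℝ) ^ 2 := by
            have : ((B : ℝ)⁻¹) ^ 2 * ((qv b x' i : ℤ) : ℝ) * ((qv c w 0 : ℤ) : ℝ) -
              ((B : ℝ)⁻¹) ^ 2 * ((qv b x i : ℤ) : ℝ) * ((qv c w' 0 : ℤ) : ℝ) =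
              ((B : ℝ)⁻¹) ^ 2 * ((M i 1 : ℝ) * d) := by rw [← e2']; ring
            rw [this]; field_simp
          simp only
          rw [g1, g2, le_div_iff₀ (by positivity), div_le_iff₀ (by positivity),
            le_div_iff₀ (by positivity), div_le_iff₀ (by positivity)]
          exact ⟨hM2 i 0, hM2 i 1⟩
  have hcard : (T.ncard : ℝ) ≤ ∑ z₀ ∈ hClfin.toFinset,
      (((hAfin z₀).toFinset.card : ℕ) : ℝ) := by
    rw [← hinj.ncard_image]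
    have h1 := Set.ncard_le_ncard himg (Finset.finite_toSet _)
    rw [Set.ncard_coe_finset] at h1
    have h2 := h1.trans Finset.card_biUnion_le
    exact_mod_cast h2
  have hsum : ∀ z₀ ∈ hClfin.toFinset, (((hAfin z₀).toFinset.card : ℕ) : ℝ) ≤
      (s₁ ^ 2 * ((d : ℝ) ^ 2 * θ ^ 4) + ε') * (B : ℝ) ^ 8 / (L : ℝ) ^ 8 := by
    intro z₀ hz₀
    have h1 := hBf z₀ B (hBf' z₀ (hClfin.mem_toFinset.1 hz₀))
    rw [Set.ncard_eq_toFinset_card _ (hAfin z₀)] at h1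
    rw [le_div_iff₀ (by positivity)]
    refine h1.trans ?_
    gcongr
  have htot : (T.ncard : ℝ) ≤ (Cl.ncard : ℝ) *
      ((s₁ ^ 2 * ((d : ℝ) ^ 2 * θ ^ 4) + ε') * (B : ℝ) ^ 8 / (L : ℝ) ^ 8) := by
    refine hcard.trans ((Finset.sum_le_sum hsum).trans (le_of_eq ?_))
    rw [Finset.sum_const, nsmul_eq_mul, Set.ncard_eq_toFinset_card _ hClfin]
  refine htot.trans ?_
  have hLr2 : (L : ℝ) = W * |(d : ℝ)| := by
    have : ((L : ℤ) : ℝ) = ((W * |d| : ℤ) : ℝ) := by rw [hLd]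
    push_cast at this
    exact_mod_cast this
  have hWr : (0 : ℝ) < W := by exact_mod_cast hW0
  have hda : 0 < |(d : ℝ)| := abs_pos.2 hdR
  have k1 : (Cl.ncard : ℝ) * (s₁ ^ 2 * ((d : ℝ) ^ 2 * θ ^ 4)) / (L : ℝ) ^ 8 ≤
      (kp : ℝ) ^ 2 * s₁ ^ 2 * (1 + 20 / (P₀ : ℝ)) * θ ^ 4 / (W : ℝ) ^ 8 := by
    rw [hLr2, div_le_div_iff₀ (by positivity) (by positivity)]
    calc (Cl.ncard : ℝ) * (s₁ ^ 2 * ((d : ℝ) ^ 2 * θ ^ 4)) * (W : ℝ) ^ 8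
        ≤ ((kp : ℝ) ^ 2 * |(d : ℝ)| ^ 6 * (1 + 20 / (P₀ : ℝ))) *
          (s₁ ^ 2 * ((d : ℝ) ^ 2 * θ ^ 4)) * (W : ℝ) ^ 8 := by gcongr
      _ = (kp : ℝ) ^ 2 * s₁ ^ 2 * (1 + 20 / (P₀ : ℝ)) * θ ^ 4 * ((W : ℝ) * |(d : ℝ)|) ^ 8 := by
          rw [← sq_abs (d : ℝ)]; ring
  have k2 : (Cl.ncard : ℝ) * ε' / (L : ℝ) ^ 8 ≤ ε := by
    rw [hε', div_le_iff₀ (by positivity), mul_div_assoc', div_le_iff₀ (by positivity)]
    nlinarith [mul_pos hε (pow_pos hLr 8)]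
  calc (Cl.ncard : ℝ) * ((s₁ ^ 2 * ((d : ℝ) ^ 2 * θ ^ 4) + ε') * (B : ℝ) ^ 8 / (L : ℝ) ^ 8)
      = ((Cl.ncard : ℝ) * (s₁ ^ 2 * ((d : ℝ) ^ 2 * θ ^ 4)) / (L : ℝ) ^ 8 +
        (Cl.ncard : ℝ) * ε' / (L : ℝ) ^ 8) * (B : ℝ) ^ 8 := by ring
    _ ≤ _ := by gcongr

end Pool.GLU
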