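import Pool.Agent.Work.MP_9fb703_gl.Interface

set_option autoImplicit false

namespace Pool.GLU

open Matrix Polynomial MeasureTheory

/-- the minors of `(A u, A v)` are combinations of the minors of `(u, v)` -/
theorem TMX_minor {n : ℕ} (A : Matrix (Fin n) (Fin n) ℤ) (u v : Fin n → ℤ) (k l : Fin n) :
    (A *ᵥ u) k * (A *ᵥ v) l - (A *ᵥ u) l * (A *ᵥ v) k =
      ∑ i, ∑ j, A k i * A l j * (u i * v j - u j * v i) := by
  have h1 : (A *ᵥ u) k * (A *ᵥ v) l = ∑ i, ∑ j, A k i * A l j * (u i * v j) := by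
    simp only [mulVec, dotProduct]
    rw [Finset.sum_mul_sum]
    refine Finset.sum_congr rfl fun i _ => Finset.sum_congr rfl fun j _ => ?_
    ring
  have h2 : (A *ᵥ u) l * (A *ᵥ v) k = ∑ i, ∑ j, A k i * A l j * (u j * v i) := by
    simp only [mulVec, dotProduct]
    rw [Finset.sum_mul_sum, Finset.sum_comm]
    refine Finset.sum_congr rfl fun i _ => Finset.sum_congr rfl fun j _ => ?_
    ring
  rw [h1, h2, ← Finset.sum_sub_distrib]
  refine Finset.sum_congr rfl fun i _ => ?_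
  rw [← Finset.sum_sub_distrib]
  exact Finset.sum_congr rfl fun j _ => by ring

theorem TMX_sep_comp (p : ℚ[X]) (a : ℚ) (ha : a ≠ 0) (hp : p.Separable) :
    (p.comp (C a * X)).Separable := by
  have h1 : IsCoprime (p.comp (C a * X)) ((derivative p).comp (C a * X)) :=
    IsCoprime.map hp (compRingHom (C a * X))
  have h2 : derivative (p.comp (C a * X)) = C a * (derivative p).comp (C a * X) := by
    rw [derivative_comp, derivative_C_mul, derivative_X, mul_one]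
  unfold Polynomial.Separable
  rw [h2]
  exact (isCoprime_mul_unit_left_right (isUnit_C.2 (isUnit_iff_ne_zero.2 ha)) _ _).2 h1

theorem TMX_sep_of_comp (p : ℚ[X]) (a : ℚ) (ha : a ≠ 0) (hp : (p.comp (C a * X)).Separable) :
    p.Separable := by
  have h1 := TMX_sep_comp _ a⁻¹ (inv_ne_zero ha) hp
  rw [comp_assoc] at h1
  have h2 : (C a * X : ℚ[X]).comp (C a⁻¹ * X) = X := by
    rw [mul_comp, C_comp, X_comp, ← mul_assoc, ← C_mul, mul_inv_cancel₀ ha, C_1, one_mul]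
  rwa [h2, comp_X] at h1

/-- the characteristic polynomial of `- det(S₀) adj(S₀) S₁` -/
theorem TMX_charpoly (S₀ S₁ : Matrix (Fin 4) (Fin 4) ℤ) :
    (-(S₀.det • (S₀.adjugate * S₁))).charpoly.comp (C (S₀.det ^ 2) * X) =
      C (S₀.det ^ 7) *
        ((X : ℤ[X]) • S₀.map (C : ℤ → ℤ[X]) + S₁.map (C : ℤ → ℤ[X])).det := by
  refine Polynomial.funext fun t => ?_
  rw [eval_comp, eval_mul, eval_C, eval_mul, eval_C, eval_X, Matrix.eval_charpoly]
  have h1 : eval t ((X : ℤ[X]) • S₀.map (C : ℤ → ℤ[X]) + S₁.map (C : ℤ → ℤ[X])).det =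
      (t • S₀ + S₁).det := by
    rw [← coe_evalRingHom, RingHom.map_det]
    congr 1
    ext i j
    simp [-zsmul_eq_mul]
  rw [h1]
  have h2 : Matrix.scalar (Fin 4) (S₀.det ^ 2 * t) - -(S₀.det • (S₀.adjugate * S₁)) =
      S₀.det • (S₀.adjugate * (t • S₀ + S₁)) := by
    rw [mul_add, Matrix.mul_smul, Matrix.adjugate_mul]
    ext i j
    simp only [Matrix.sub_apply, Matrix.neg_apply, Matrix.smul_apply, Matrix.add_apply,
      smul_eq_mul, Matrix.scalar_apply, Matrix.diagonal_apply, Matrix.one_apply]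
    split_ifs <;> ring
  rw [h2, det_smul, det_mul, det_adjugate, Fintype.card_fin]
  ring

/-- block TMX -/
theorem p_TMX : Stmt_TMX := by
  intro b hb
  obtain ⟨S₀, hS₀⟩ : ∃ S₀ : Matrix (Fin 4) (Fin 4) ℤ, S₀ = b 0 + (b 0)ᵀ := ⟨_, rfl⟩
  obtain ⟨S₁, hS₁⟩ : ∃ S₁ : Matrix (Fin 4) (Fin 4) ℤ, S₁ = b 1 + (b 1)ᵀ := ⟨_, rfl⟩
  have hD : S₀.det ≠ 0 := by rw [hS₀]; exact hb.det0
  refine ⟨-(S₀.det • (S₀.adjugate * S₁)), ?_, fun y => ?_⟩
  · have h1 := TMX_charpoly S₀ S₁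
    have h2 := congrArg (Polynomial.map (Int.castRingHom ℚ)) h1
    rw [Polynomial.map_comp, Polynomial.map_mul, Polynomial.map_mul, map_C, map_X, map_C] at h2
    have h3 : ((X : ℤ[X]) • S₀.map (C : ℤ → ℤ[X]) + S₁.map (C : ℤ → ℤ[X])).det = fpol b := by
      rw [hS₀, hS₁]
      rfl
    rw [h3] at h2
    have hDq : (Int.castRingHom ℚ) (S₀.det ^ 2) ≠ 0 := by
      simpa using hD
    have hDq7 : (Int.castRingHom ℚ) (S₀.det ^ 7) ≠ 0 := by
      simpa using hD
    refine TMX_sep_of_comp _ _ hDq ?_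
    rw [h2]
    exact Polynomial.Separable.unit_mul (isUnit_C.2 (isUnit_iff_ne_zero.2 hDq7)) hb.sep
  · have hu : ∀ i k, jv b y i k = ((b i + (b i)ᵀ) *ᵥ y) k := by
      intro i k
      have h1 : (b i + (b i)ᵀ).map (Int.cast : ℤ → ℤ) = b i + (b i)ᵀ := by
        ext r s
        simp
      rw [jv, h1]
    obtain ⟨Z, hZ⟩ : ∃ Z : Fin 4 → ℤ, Z = (S₀.adjugate * S₁) *ᵥ y := ⟨_, rfl⟩
    have hm : ∀ k l, mnr b y k l = (S₀ *ᵥ y) k * (S₁ *ᵥ y) l - (S₀ *ᵥ y) l * (S₁ *ᵥ y) k := by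
      intro k l
      rw [mnr, hu, hu, hu, hu, ← hS₀, ← hS₁]
    have hT : ∀ k, (-(S₀.det • (S₀.adjugate * S₁)) *ᵥ y) k = -(S₀.det * Z k) := by
      intro k
      rw [neg_mulVec, Pi.neg_apply, smul_mulVec, Pi.smul_apply, smul_eq_mul, ← hZ]
    have hAu : ∀ k, (S₀.adjugate *ᵥ (S₀ *ᵥ y)) k = S₀.det * y k := by
      intro k
      rw [mulVec_mulVec, adjugate_mul, smul_mulVec, one_mulVec, Pi.smul_apply, smul_eq_mul]
    have hAv : ∀ k, (S₀.adjugate *ᵥ (S₁ *ᵥ y)) k = Z k := by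
      intro k
      rw [mulVec_mulVec, ← hZ]
    have hSZ : ∀ k, (S₀ *ᵥ Z) k = S₀.det * (S₁ *ᵥ y) k := by
      intro k
      rw [hZ, mulVec_mulVec, ← mul_assoc, mul_adjugate, Matrix.smul_mul, one_mul, smul_mulVec,
        Pi.smul_apply, smul_eq_mul]
    have key : ∀ k l, y k * (-(S₀.det • (S₀.adjugate * S₁)) *ᵥ y) l -
        y l * (-(S₀.det • (S₀.adjugate * S₁)) *ᵥ y) k = -(S₀.det * (y k * Z l - y l * Z k)) := by
      intro k l
      rw [hT, hT]
      ring
    refine ⟨fun g hg k l => ?_, ?_⟩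
    · have h1 := TMX_minor S₀.adjugate (S₀ *ᵥ y) (S₁ *ᵥ y) k l
      rw [hAu, hAu, hAv, hAv] at h1
      have h2 : g ∣ S₀.det * y k * Z l - S₀.det * y l * Z k := by
        rw [h1]
        refine Finset.dvd_sum fun i _ => Finset.dvd_sum fun j _ => ?_
        refine Dvd.dvd.mul_left ?_ _
        have h3 := hg i j
        rwa [hm] at h3
      rw [key]
      have h4 : -(S₀.det * (y k * Z l - y l * Z k)) =
          -(S₀.det * y k * Z l - S₀.det * y l * Z k) := by ring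
      rw [h4]
      exact (dvd_neg).2 h2
    · rintro ⟨k, l, hkl⟩
      by_contra hcon
      push Not at hcon
      have h1 : ∀ i j, y i * Z j - y j * Z i = 0 := by
        intro i j
        have h2 := hcon i j
        rw [key, neg_eq_zero, mul_eq_zero] at h2
        exact h2.resolve_left hD
      have h3 := TMX_minor S₀ y Z k l
      rw [hSZ, hSZ] at h3
      have h4 : ∑ i, ∑ j, S₀ k i * S₀ l j * (y i * Z j - y j * Z i) = 0 :=
        Finset.sum_eq_zero fun i _ => Finset.sum_eq_zero fun j _ => by rw [h1, mul_zero]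
      rw [h4] at h3
      have h5 : S₀.det * mnr b y k l = 0 := by
        rw [hm, ← h3]
        ring
      exact hkl ((mul_eq_zero.1 h5).resolve_left hD)

end Pool.GLU
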