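import Pool.Agent.Work.MP_9fb703_gl.Interface

set_option autoImplicit false

namespace Pool.GLU

open Matrix Polynomial MeasureTheory

theorem UNP_ndvd (p : ℕ) [Fact p.Prime] (a : ℤ_[p]) (n : ℕ) :
    ¬ ((p : ℤ_[p]) ^ n ∣ a) ↔ (p : ℝ) ^ (-(n : ℤ)) < ‖a‖ := by
  rw [← not_le, PadicInt.norm_le_pow_iff_mem_span_pow, Ideal.mem_span_singleton]

section map

variable {R S : Type} [CommRing R] [CommRing S] (f : R →+* S)

theorem UNP_qv_map {n : ℕ} (b : Fin 2 → Matrix (Fin n) (Fin n) ℤ) (x : Fin n → R) (i : Fin 2) :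
    qv b (fun j => f (x j)) i = f (qv b x i) := by
  simp [qv, dotProduct, mulVec, map_sum]

theorem UNP_jv_map {n : ℕ} (b : Fin 2 → Matrix (Fin n) (Fin n) ℤ) (x : Fin n → R) (i : Fin 2)
    (k : Fin n) : jv b (fun j => f (x j)) i k = f (jv b x i k) := by
  simp [jv, dotProduct, mulVec, map_sum]

theorem UNP_mnr_map {n : ℕ} (b : Fin 2 → Matrix (Fin n) (Fin n) ℤ) (x : Fin n → R)
    (k l : Fin n) : mnr b (fun j => f (x j)) k l = f (mnr b x k l) := by
  simp only [mnr, UNP_jv_map, map_sub, map_mul]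

theorem UNP_Xm_map (b : Fin 2 → Matrix (Fin 4) (Fin 4) ℤ) (M : Matrix (Fin 2) (Fin 2) R)
    (j : Fin 2) : Xm b (M.map f) j = (Xm b M j).map f := by
  ext k l
  simp only [Xm, Matrix.sub_apply, Matrix.smul_apply, Matrix.map_apply, map_sub, smul_eq_mul,
    map_mul, map_intCast, Matrix.one_apply]
  split_ifs <;> simp

theorem UNP_Dl_map (b : Fin 2 → Matrix (Fin 4) (Fin 4) ℤ) (c : Fin 2 → Matrix (Fin 2) (Fin 2) ℤ)
    (M : Matrix (Fin 2) (Fin 2) R) : Dl b c (M.map f) = f (Dl b c M) := by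
  have hs : ∀ (a : ℤ) (A : Matrix (Fin 4) (Fin 4) R), ((a : ℤ) : S) • A.map f =
      f.mapMatrix (((a : ℤ) : R) • A) := by
    intro a A
    ext k l
    simp
  have h4 : ∀ (A : Matrix (Fin 4) (Fin 4) R), (4 : S) • f.mapMatrix A =
      f.mapMatrix ((4 : R) • A) := by
    intro A
    ext k l
    have h4' : f 4 = 4 := map_ofNat f 4
    simp [h4']
  unfold Dl
  simp only [UNP_Xm_map, hs, ← map_add, ← map_pow, ← map_mul, h4, ← map_sub]
  rw [← RingHom.map_det, ← RingHom.mapMatrix_apply, ← RingHom.map_det, ← map_mul]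

theorem UNP_Zer_map (hf : Function.Injective f) (b : Fin 2 → Matrix (Fin 4) (Fin 4) ℤ)
    (c : Fin 2 → Matrix (Fin 2) (Fin 2) ℤ)
    (M : Matrix (Fin 2) (Fin 2) R) (x : Fin 4 → R) (w : Fin 2 → R) :
    Zer b c (M.map f) (fun j => f (x j)) (fun j => f (w j)) ↔ Zer b c M x w := by
  have e1 : qv b (fun j => f (x j)) = fun i => f (qv b x i) := by
    funext i; exact UNP_qv_map f b x i
  have e2 : qv c (fun j => f (w j)) = fun i => f (qv c w i) := by
    funext i; exact UNP_qv_map f c w i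
  have e3 : M.map f *ᵥ qv c (fun j => f (w j)) = fun i => f ((M *ᵥ qv c w) i) := by
    rw [e2]; funext i
    simp [mulVec, dotProduct]
  unfold Zer
  rw [e1, e3]
  constructor
  · intro h
    funext i
    exact hf (congrFun h i)
  · intro h
    rw [h]

end map

theorem UNP_contq {K : Type} [CommRing K] [TopologicalSpace K] [IsTopologicalRing K] {n : ℕ}
    (b : Fin 2 → Matrix (Fin n) (Fin n) ℤ) : Continuous (fun x : Fin n → K => qv b x) := by
  refine continuous_pi fun i => ?_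
  simp only [qv, dotProduct, mulVec]
  fun_prop

theorem UNP_contm {K : Type} [CommRing K] [TopologicalSpace K] [IsTopologicalRing K] {n : ℕ}
    (b : Fin 2 → Matrix (Fin n) (Fin n) ℤ) (k l : Fin n) :
    Continuous (fun x : Fin n → K => mnr b x k l) := by
  simp only [mnr, jv, dotProduct, mulVec]
  fun_prop

theorem UNP_contD {K : Type} [CommRing K] [TopologicalSpace K] [IsTopologicalRing K]
    (b : Fin 2 → Matrix (Fin 4) (Fin 4) ℤ) (c : Fin 2 → Matrix (Fin 2) (Fin 2) ℤ) :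
    Continuous (fun M : Matrix (Fin 2) (Fin 2) K => Dl b c M) := by
  have hX : ∀ j, Continuous (fun M : Matrix (Fin 2) (Fin 2) K => Xm b M j) := by
    intro j
    unfold Xm
    fun_prop
  unfold Dl
  fun_prop

theorem UNP_minor {K : Type} [Field K] (b : Fin 2 → Matrix (Fin 4) (Fin 4) ℤ) (x : Fin 4 → K)
    (h : LinearIndependent K (jv b x)) : ∃ k l, mnr b x k l ≠ 0 := by
  by_contra hc
  push Not at hc
  have h0 : jv b x 0 ≠ 0 := h.ne_zero 0
  apply h0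
  funext l
  rw [Fintype.linearIndependent_iff] at h
  have h1 := h ![jv b x 1 l, - jv b x 0 l] (by
    rw [Fin.sum_univ_two]
    funext k
    have := hc k l
    simp only [mnr] at this
    simp only [Matrix.cons_val_zero, Matrix.cons_val_one, Pi.add_apply, Pi.smul_apply,
      smul_eq_mul, Pi.zero_apply]
    linear_combination this) 1
  simpa using h1

theorem UNP_surj {K : Type} [Field K] (b : Fin 2 → Matrix (Fin 4) (Fin 4) ℤ) (x : Fin 4 → K)
    (k l : Fin 4) (h : mnr b x k l ≠ 0) (ρ : Fin 2 → K) :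
    ∃ v : Fin 4 → K, ∀ i, jv b x i ⬝ᵥ v = ρ i := by
  refine ⟨Pi.single k ((ρ 0 * jv b x 1 l - ρ 1 * jv b x 0 l) / mnr b x k l) +
    Pi.single l ((jv b x 0 k * ρ 1 - jv b x 1 k * ρ 0) / mnr b x k l), ?_⟩
  rw [Fin.forall_fin_two]
  simp only [dotProduct_add, dotProduct_single]
  constructor
  · field_simp
    rw [mnr]; ring
  · field_simp
    rw [mnr]; ring

theorem UNP_strict {K : Type} [NontriviallyNormedField K] (b : Fin 2 → Matrix (Fin 4) (Fin 4) ℤ)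
    (x : Fin 4 → K) : ∃ A : (Fin 4 → K) →L[K] (Fin 2 → K),
      HasStrictFDerivAt (fun y => qv b y) A x ∧ ∀ h i, A h i = jv b x i ⬝ᵥ h := by
  refine ⟨ContinuousLinearMap.pi (fun i => ∑ j, ∑ k, ((b i j k : ℤ) : K) •
    (x j • ContinuousLinearMap.proj (R := K) (φ := fun _ : Fin 4 => K) k +
      x k • ContinuousLinearMap.proj (R := K) (φ := fun _ : Fin 4 => K) j)), ?_, ?_⟩
  · rw [hasStrictFDerivAt_pi]
    intro i
    have e : (fun y : Fin 4 → K => qv b y i) =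
        fun y => ∑ j, ∑ k, ((b i j k : ℤ) : K) * (y j * y k) := by
      funext y
      simp only [qv, dotProduct, mulVec, Matrix.map_apply, Finset.mul_sum]
      refine Finset.sum_congr rfl fun j _ => Finset.sum_congr rfl fun k _ => by ring
    rw [e]
    exact HasStrictFDerivAt.fun_sum fun j _ => HasStrictFDerivAt.fun_sum fun k _ =>
      ((hasStrictFDerivAt_apply j x).mul (hasStrictFDerivAt_apply k x)).const_mul _
  · intro h i
    simp only [ContinuousLinearMap.coe_pi', 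
      _root_.smul_apply, _root_.add_apply,
      ContinuousLinearMap.proj_apply, smul_eq_mul, jv, dotProduct, mulVec, Matrix.map_apply,
      Matrix.add_apply, Matrix.transpose_apply, Fin.sum_univ_four]
    push_cast
    ring

theorem UNP_dvd (p : ℕ) [Fact p.Prime] (a b : ℤ_[p]) (n : ℕ)
    (h : ‖(a : ℚ_[p]) - b‖ ≤ (p : ℝ) ^ (-(n : ℤ))) : (p : ℤ_[p]) ^ n ∣ a - b := by
  by_contra hc
  rw [UNP_ndvd, PadicInt.norm_def] at hc
  push_cast at hc
  exact absurd h (not_le.2 hc)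

theorem UNP_int (p : ℕ) [Fact p.Prime] {n : ℕ} (x : Fin n → ℤ_[p]) (y : Fin n → ℚ_[p])
    (h : ∀ j, ‖y j - (x j : ℚ_[p])‖ ≤ 1) : ∃ z : Fin n → ℤ_[p], (fun j => (z j : ℚ_[p])) = y := by
  have h1 : ∀ j, ‖y j‖ ≤ 1 := by
    intro j
    have h2 : y j = (y j - (x j : ℚ_[p])) + (x j : ℚ_[p]) := by ring
    rw [h2]
    exact (Padic.nonarchimedean _ _).trans (max_le (h j) (x j).2)
  exact ⟨fun j => ⟨y j, h1 j⟩, rfl⟩

theorem UNP_seq (p : ℕ) [Fact p.Prime] (Mn : ℕ → Matrix (Fin 2) (Fin 2) ℤ_[p])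
    (xn : ℕ → Fin 4 → ℤ_[p]) (wn : ℕ → Fin 2 → ℤ_[p]) :
    ∃ (M : Matrix (Fin 2) (Fin 2) ℤ_[p]) (x : Fin 4 → ℤ_[p]) (w : Fin 2 → ℤ_[p]) (φ : ℕ → ℕ),
      StrictMono φ ∧ Filter.Tendsto (fun n => Mn (φ n)) Filter.atTop (nhds M) ∧
      Filter.Tendsto (fun n => xn (φ n)) Filter.atTop (nhds x) ∧
      Filter.Tendsto (fun n => wn (φ n)) Filter.atTop (nhds w) := by
  obtain ⟨F, hF⟩ : ∃ F : ℕ → (Fin 2 → Fin 2 → ℤ_[p]) × (Fin 4 → ℤ_[p]) × (Fin 2 → ℤ_[p]),
    ∀ n, F n = (fun i j => Mn n i j, xn n, wn n) := ⟨_, fun _ => rfl⟩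
  obtain ⟨a, φ, hφ, hlim⟩ := CompactSpace.tendsto_subseq F
  have h1 : Filter.Tendsto (fun n => (F (φ n)).1) Filter.atTop (nhds a.1) := hlim.fst_nhds
  have h2 : Filter.Tendsto (fun n => (F (φ n)).2.1) Filter.atTop (nhds a.2.1) :=
    hlim.snd_nhds.fst_nhds
  have h3 : Filter.Tendsto (fun n => (F (φ n)).2.2) Filter.atTop (nhds a.2.2) :=
    hlim.snd_nhds.snd_nhds
  simp only [hF] at h1 h2 h3
  refine ⟨Matrix.of a.1, a.2.1, a.2.2, φ, hφ, ?_, h2, h3⟩
  have h4 : Continuous (fun g : Fin 2 → Fin 2 → ℤ_[p] => (Matrix.of g : Matrix (Fin 2) (Fin 2) ℤ_[p])) :=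
    continuous_matrix fun i j => by fun_prop
  have h5 := (h4.tendsto _).comp h1
  have h6 : (fun n => Mn (φ n)) = (fun g : Fin 2 → Fin 2 → ℤ_[p] =>
      (Matrix.of g : Matrix (Fin 2) (Fin 2) ℤ_[p])) ∘ fun n => fun i j => Mn (φ n) i j := by
    funext n
    ext i j
    rfl
  rw [h6]
  exact h5

theorem p_UNP (hLOC : Stmt_LOC) (hCOI : Stmt_COI) : Stmt_UNP := by
  intro b c hN hres p hp h N
  by_contra hcon
  have hc : ∀ n : ℕ, ∃ (M : Matrix (Fin 2) (Fin 2) ℤ_[p]) (x : Fin 4 → ℤ_[p]) (w : Fin 2 → ℤ_[p]),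
      ¬ ((p : ℤ_[p]) ^ h ∣ Dl b c M) ∧ Zer b c M x w ∧ ((∃ j, ‖x j‖ = 1) ∨ ∃ j, ‖w j‖ = 1) ∧
      ¬ ∃ (x' : Fin 4 → ℤ_[p]) (w' : Fin 2 → ℤ_[p]), Zer b c M x' w' ∧
        (∃ k l, ¬ ((p : ℤ_[p]) ^ (n + 1) ∣ mnr b x' k l)) ∧
        (∃ i, ¬ ((p : ℤ_[p]) ^ (n + 1) ∣ qv c w' i)) ∧
        (∀ j, (p : ℤ_[p]) ^ N ∣ x' j - x j) ∧ ∀ j, (p : ℤ_[p]) ^ N ∣ w' j - w j := by
    intro n
    by_contra hn
    exact hcon ⟨n, fun M x w h1 h2 h3 => by
      by_contra h4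
      exact hn ⟨M, x, w, h1, h2, h3, h4⟩⟩
  choose Mn xn wn h1 h2 h3 h4 using hc
  obtain ⟨M, x, w, φ, hφ, hM, hx, hw⟩ := UNP_seq p Mn xn wn
  have hp0 : (0 : ℝ) < p := by exact_mod_cast hp.out.pos
  have hp1 : (1 : ℝ) < p := by exact_mod_cast hp.out.one_lt
  -- the limit
  have hD : Dl b c M ≠ 0 := by
    have e1 : Filter.Tendsto (fun n => ‖Dl b c (Mn (φ n))‖) Filter.atTop
        (nhds ‖Dl b c M‖) :=
      (((UNP_contD b c).tendsto _).comp hM).norm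
    have e2 : (p : ℝ) ^ (-(h : ℤ)) ≤ ‖Dl b c M‖ :=
      ge_of_tendsto' e1 (fun n => ((UNP_ndvd p _ h).1 (h1 (φ n))).le)
    have e3 : 0 < (p : ℝ) ^ (-(h : ℤ)) := by positivity
    exact norm_pos_iff.1 (e3.trans_le e2)
  have hZ : Zer b c M x w := by
    have e1 : Filter.Tendsto (fun n => qv b (xn (φ n))) Filter.atTop (nhds (qv b x)) :=
      ((UNP_contq b).tendsto _).comp hx
    have e2 : Filter.Tendsto (fun n => Mn (φ n) *ᵥ qv c (wn (φ n))) Filter.atTop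
        (nhds (M *ᵥ qv c w)) := by
      have e3 : Filter.Tendsto (fun n => qv c (wn (φ n))) Filter.atTop (nhds (qv c w)) :=
        ((UNP_contq c).tendsto _).comp hw
      have e4 : Continuous (fun z : Matrix (Fin 2) (Fin 2) ℤ_[p] × (Fin 2 → ℤ_[p]) =>
          z.1 *ᵥ z.2) := by fun_prop
      have e5 := (e4.tendsto (M, qv c w)).comp (hM.prodMk_nhds e3)
      exact e5
    have e3 : (fun n => qv b (xn (φ n))) = (fun n => Mn (φ n) *ᵥ qv c (wn (φ n))) := by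
      funext n; exact h2 (φ n)
    rw [e3] at e1
    exact tendsto_nhds_unique e1 e2
  have hprim : (∃ j, ‖x j‖ = 1) ∨ ∃ j, ‖w j‖ = 1 := by
    have hcl : IsClosed {z : (Fin 4 → ℤ_[p]) × (Fin 2 → ℤ_[p]) |
        (∃ j, ‖z.1 j‖ = 1) ∨ ∃ j, ‖z.2 j‖ = 1} := by
      have : {z : (Fin 4 → ℤ_[p]) × (Fin 2 → ℤ_[p]) |
        (∃ j, ‖z.1 j‖ = 1) ∨ ∃ j, ‖z.2 j‖ = 1} =
        (⋃ j : Fin 4, {z : (Fin 4 → ℤ_[p]) × (Fin 2 → ℤ_[p]) | ‖z.1 j‖ = 1}) ∪
        (⋃ j : Fin 2, {z : (Fin 4 → ℤ_[p]) × (Fin 2 → ℤ_[p]) | ‖z.2 j‖ = 1}) := by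
        ext z; simp
      rw [this]
      refine IsClosed.union ?_ ?_
      · exact isClosed_iUnion_of_finite fun j => isClosed_eq (by fun_prop) (by fun_prop)
      · exact isClosed_iUnion_of_finite fun j => isClosed_eq (by fun_prop) (by fun_prop)
    exact hcl.mem_of_tendsto (hx.prodMk_nhds hw)
      (Filter.Eventually.of_forall fun n => h3 (φ n))
  -- the zero over `ℚ_p`
  have hinj : Function.Injective (PadicInt.Coe.ringHom : ℤ_[p] →+* ℚ_[p]) :=
    Subtype.coe_injective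
  obtain ⟨f, hf⟩ : ∃ f : ℤ_[p] →+* ℚ_[p], f = PadicInt.Coe.ringHom := ⟨_, rfl⟩
  rw [← hf] at hinj
  have hfc : ∀ a : ℤ_[p], f a = (a : ℚ_[p]) := fun a => by rw [hf]; rfl
  have hfcont : Continuous f := by
    have : (f : ℤ_[p] → ℚ_[p]) = Subtype.val := funext hfc
    rw [this]
    exact continuous_subtype_val
  obtain ⟨ε, hε⟩ : ∃ ε : ℝ, ε = (p : ℝ) ^ (-(N : ℤ)) := ⟨_, rfl⟩
  have hε0 : 0 < ε := by rw [hε]; positivity
  have hε1 : ε ≤ 1 := by
    rw [hε, _root_.zpow_neg, zpow_natCast]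
    exact inv_le_one_of_one_le₀ (one_le_pow₀ hp1.le)
  have hne : (fun j => f (x j)) ≠ 0 ∨ (fun j => f (w j)) ≠ 0 := by
    rcases hprim with ⟨j, hj⟩ | ⟨j, hj⟩
    · left
      intro h0
      have h5 : f (x j) = f 0 := by rw [map_zero]; exact congrFun h0 j
      rw [hinj h5, norm_zero] at hj
      exact zero_ne_one hj
    · right
      intro h0
      have h5 : f (w j) = f 0 := by rw [map_zero]; exact congrFun h0 j
      rw [hinj h5, norm_zero] at hj
      exact zero_ne_one hj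
  obtain ⟨x', w', hZ', hind, hw'0, hxx, hww⟩ := hLOC b c hN hres ℚ_[p]
    (M.map f) (fun j => f (x j)) (fun j => f (w j))
    (by rw [UNP_Dl_map]; exact (map_ne_zero_iff f hinj).2 hD)
    ((UNP_Zer_map f hinj b c _ _ _).2 hZ) hne ε hε0
  obtain ⟨w₁, hw₁⟩ := UNP_int p w w' (fun j => by
    have := (norm_le_pi_norm (w' - fun j => f (w j)) j).trans (hww.le.trans hε1)
    simpa [hfc] using this)
  have hw₁' : (fun j => f (w₁ j)) = w' := by rw [← hw₁]; funext j; exact hfc _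
  obtain ⟨i, hi⟩ : ∃ i, qv c w' i ≠ 0 := by
    have h5 := (hCOI c).1 ℚ_[p] w' (by exact_mod_cast hres) hw'0
    by_contra h6
    push Not at h6
    exact h5 (funext h6)
  obtain ⟨k, l, hkl⟩ := UNP_minor b x' hind
  obtain ⟨c₁, hc₁⟩ : ∃ c₁ : ℕ, (p : ℝ) ^ (-((c₁ + 1 : ℕ) : ℤ)) <
      min ‖mnr b x' k l‖ ‖qv c w' i‖ := by
    obtain ⟨n, hn⟩ := exists_pow_lt_of_lt_one (lt_min (norm_pos_iff.2 hkl) (norm_pos_iff.2 hi))
      (inv_lt_one_of_one_lt₀ hp1)
    refine ⟨n, lt_of_le_of_lt ?_ hn⟩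
    rw [_root_.zpow_neg, zpow_natCast, ← inv_pow]
    exact pow_le_pow_of_le_one (by positivity) (inv_lt_one_of_one_lt₀ hp1).le (Nat.le_succ n)
  obtain ⟨A, hA, hAv⟩ := UNP_strict b x'
  have hsurj : A.range = ⊤ := by
    rw [LinearMap.range_eq_top]
    intro ρ
    obtain ⟨v, hv⟩ := UNP_surj b x' k l hkl ρ
    refine ⟨v, ?_⟩
    funext i
    exact (hAv v i).trans (hv i)
  have hmap := hA.map_nhds_eq_of_surj hsurj
  have hU : {y : Fin 4 → ℚ_[p] | ‖y - x'‖ < ε ∧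
      (p : ℝ) ^ (-((c₁ + 1 : ℕ) : ℤ)) < ‖mnr b y k l‖} ∈ nhds x' := by
    refine Filter.inter_mem ?_ ?_
    · have : IsOpen {y : Fin 4 → ℚ_[p] | ‖y - x'‖ < ε} :=
        isOpen_lt (by fun_prop) (by fun_prop)
      exact this.mem_nhds (by simpa using hε0)
    · have : IsOpen {y : Fin 4 → ℚ_[p] | (p : ℝ) ^ (-((c₁ + 1 : ℕ) : ℤ)) < ‖mnr b y k l‖} :=
        isOpen_lt continuous_const (UNP_contm b k l).norm
      exact this.mem_nhds (hc₁.trans_le (min_le_left _ _))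
  have hU' := Filter.image_mem_map (m := fun y => qv b y) hU
  rw [hmap] at hU'
  have hlim' : Filter.Tendsto (fun n => (Mn (φ n)).map f *ᵥ qv c w') Filter.atTop
      (nhds (qv b x')) := by
    rw [show qv b x' = M.map f *ᵥ qv c w' from hZ']
    have e4 : Continuous (fun z : Matrix (Fin 2) (Fin 2) ℤ_[p] => z.map f *ᵥ qv c w') := by
      fun_prop
    exact (e4.tendsto _).comp hM
  have ev1 := hlim'.eventually hU'
  have ev2 : ∀ᶠ n in Filter.atTop, ‖xn (φ n) - x‖ < ε := by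
    have := (tendsto_iff_norm_sub_tendsto_zero.1 hx).eventually (gt_mem_nhds hε0)
    exact this
  have ev3 : ∀ᶠ n in Filter.atTop, ‖wn (φ n) - w‖ < ε := by
    have := (tendsto_iff_norm_sub_tendsto_zero.1 hw).eventually (gt_mem_nhds hε0)
    exact this
  have ev4 := hφ.tendsto_atTop.eventually (Filter.eventually_ge_atTop c₁)
  obtain ⟨n, ⟨y, ⟨hy1, hy2⟩, hy3⟩, hn2, hn3, hn4⟩ := (ev1.and (ev2.and (ev3.and ev4))).exists
  simp only at hy3
  have hyx : ∀ j, ‖y j - f (x j)‖ ≤ ε := by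
    intro j
    have e1 : y j - f (x j) = (y j - x' j) + (x' j - f (x j)) := by ring
    rw [e1]
    refine (Padic.nonarchimedean _ _).trans (max_le ?_ ?_)
    · exact (norm_le_pi_norm (y - x') j).trans hy1.le
    · exact (norm_le_pi_norm (x' - fun j => f (x j)) j).trans hxx.le
  obtain ⟨y₁, hy₁⟩ := UNP_int p x y (fun j => by
    have := (hyx j).trans hε1
    rwa [hfc] at this)
  have hy₁' : (fun j => f (y₁ j)) = y := by rw [← hy₁]; funext j; exact hfc _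
  have hpow : ∀ a : ℤ_[p], (p : ℝ) ^ (-((c₁ + 1 : ℕ) : ℤ)) < ‖f a‖ →
      ¬ ((p : ℤ_[p]) ^ (φ n + 1) ∣ a) := by
    intro a ha
    rw [UNP_ndvd, PadicInt.norm_def, ← hfc]
    refine lt_of_le_of_lt ?_ ha
    exact zpow_le_zpow_right₀ hp1.le (by push_cast; omega)
  apply h4 (φ n)
  refine ⟨y₁, w₁, ?_, ⟨k, l, ?_⟩, ⟨i, ?_⟩, ?_, ?_⟩
  · rw [← UNP_Zer_map f hinj, hy₁', hw₁']
    exact hy3
  · apply hpow
    rw [← UNP_mnr_map, hy₁']
    exact hy2
  · apply hpow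
    rw [← UNP_qv_map, hw₁']
    exact hc₁.trans_le (min_le_right _ _)
  · intro j
    apply UNP_dvd
    rw [← hfc, ← hfc, ← hε]
    have e1 : f (y₁ j) - f (xn (φ n) j) = (y j - f (x j)) + - (f (xn (φ n) j - x j)) := by
      rw [show y j = f (y₁ j) from (congrFun hy₁' j).symm, map_sub]; ring
    rw [e1]
    refine (Padic.nonarchimedean _ _).trans (max_le (hyx j) ?_)
    rw [norm_neg, hfc, ← PadicInt.norm_def]
    exact (norm_le_pi_norm (xn (φ n) - x) j).trans hn2.le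
  · intro j
    apply UNP_dvd
    rw [← hfc, ← hfc, ← hε]
    have e1 : f (w₁ j) - f (wn (φ n) j) = (w' j - f (w j)) + - (f (wn (φ n) j - w j)) := by
      rw [show w' j = f (w₁ j) from (congrFun hw₁' j).symm, map_sub]; ring
    rw [e1]
    refine (Padic.nonarchimedean _ _).trans (max_le ?_ ?_)
    · exact (norm_le_pi_norm (w' - fun j => f (w j)) j).trans hww.le
    rw [norm_neg, hfc, ← PadicInt.norm_def]
    exact (norm_le_pi_norm (wn (φ n) - w) j).trans hn3.le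

end Pool.GLU
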