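import Pool.Agent.Work.MP_9fb703_gl.Interface

/-!
# Block UNR: uniformity, real case
-/

open Matrix
namespace Pool.GLU
theorem unr_aux (X0 X1 : Matrix (Fin 2) (Fin 2) ℝ → Matrix (Fin 4) (Fin 4) ℝ) (h0 : Continuous X0)
    (h1 : Continuous X1) (a b c d e f : ℝ) :
    Continuous fun M : Matrix (Fin 2) (Fin 2) ℝ => M.det * ((a • X0 M + b • X1 M) ^ 2 -
      (4 : ℝ) • ((c • X0 M + d • X1 M) * (e • X0 M + f • X1 M))).det := by
  have k1 : Continuous fun M => (a • X0 M + b • X1 M) := (h0.const_smul a).add (h1.const_smul b)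
  have k2 : Continuous fun M => (c • X0 M + d • X1 M) := (h0.const_smul c).add (h1.const_smul d)
  have k3 : Continuous fun M => (e • X0 M + f • X1 M) := (h0.const_smul e).add (h1.const_smul f)
  have k4 : Continuous fun M => (a • X0 M + b • X1 M) ^ 2 -
      (4 : ℝ) • ((c • X0 M + d • X1 M) * (e • X0 M + f • X1 M)) := by
    simp only [pow_two]
    exact (k1.matrix_mul k1).sub ((k2.matrix_mul k3).const_smul (4 : ℝ))
  exact (Continuous.matrix_det continuous_id).mul (Continuous.matrix_det k4)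

theorem unr_dlc (b : Fin 2 → Matrix (Fin 4) (Fin 4) ℤ) (c : Fin 2 → Matrix (Fin 2) (Fin 2) ℤ) :
    Continuous fun M : Matrix (Fin 2) (Fin 2) ℝ => Dl b c M := by
  have hX : ∀ j, Continuous fun M : Matrix (Fin 2) (Fin 2) ℝ => Xm b M j := by
    intro j
    unfold Xm
    have h1 : Continuous fun M : Matrix (Fin 2) (Fin 2) ℝ => M 1 j := continuous_id.matrix_elem 1 j
    have h0 : Continuous fun M : Matrix (Fin 2) (Fin 2) ℝ => M 0 j := continuous_id.matrix_elem 0 j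
    exact ((h1.mul continuous_const).smul continuous_const).sub (h0.smul continuous_const)
  unfold Dl
  exact unr_aux _ _ (hX 0) (hX 1) _ _ _ _ _ _

theorem unr_qvc {n : ℕ} (b : Fin 2 → Matrix (Fin n) (Fin n) ℤ) :
    Continuous fun x : Fin n → ℝ => qv b x := by
  unfold qv
  refine continuous_pi fun i => ?_
  exact continuous_id.dotProduct (continuous_const.matrix_mulVec continuous_id)

theorem unr_jvc {n : ℕ} (b : Fin 2 → Matrix (Fin n) (Fin n) ℤ) :
    Continuous fun x : Fin n → ℝ => jv b x := by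
  unfold jv
  refine continuous_pi fun i => ?_
  exact continuous_const.matrix_mulVec continuous_id

theorem unr_minor (v : Fin 2 → Fin 4 → ℝ) (h : LinearIndependent ℝ v) :
    ∃ k l, v 0 k * v 1 l - v 0 l * v 1 k ≠ 0 := by
  rw [linearIndependent_fin2] at h
  obtain ⟨h1, h2⟩ := h
  by_contra hc
  push Not at hc
  obtain ⟨k, hk⟩ := Function.ne_iff.mp h1
  simp only [Pi.zero_apply] at hk
  refine h2 (v 0 k / v 1 k) ?_
  funext l
  have := hc k l
  simp only [Pi.smul_apply, smul_eq_mul]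
  field_simp
  linarith

theorem unr_deriv (b : Fin 2 → Matrix (Fin 4) (Fin 4) ℤ) (x : Fin 4 → ℝ) (hx : LinearIndependent ℝ (jv b x)) :
    Filter.map (fun y : Fin 4 → ℝ => qv b y) (nhds x) = nhds (qv b x) := by
  let L : Fin 4 → ((Fin 4 → ℝ) →L[ℝ] ℝ) := fun j => ContinuousLinearMap.proj j
  have hL : ∀ j, HasStrictFDerivAt (fun y : Fin 4 → ℝ => y j) (L j) x := fun j => hasStrictFDerivAt_apply j x
  have hq : ∀ i, HasStrictFDerivAt (fun y : Fin 4 → ℝ => qv b y i)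
      (∑ j, ∑ k, ((b i j k : ℤ) : ℝ) • (x j • L k + x k • L j)) x := by
    intro i
    have e : (fun y : Fin 4 → ℝ => qv b y i) =
        fun y => ∑ j, ∑ k, ((b i j k : ℤ) : ℝ) * (y j * y k) := by
      funext y
      simp only [qv, dotProduct, mulVec, Matrix.map_apply, Finset.mul_sum]
      refine Finset.sum_congr rfl fun j _ => Finset.sum_congr rfl fun k _ => ?_
      ring
    rw [e]
    exact HasStrictFDerivAt.fun_sum fun j _ => HasStrictFDerivAt.fun_sum fun k _ =>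
      ((hL j).mul (hL k)).const_mul _
  have hD : HasStrictFDerivAt (fun y : Fin 4 → ℝ => qv b y)
      (ContinuousLinearMap.pi fun i => ∑ j, ∑ k, ((b i j k : ℤ) : ℝ) • (x j • L k + x k • L j)) x :=
    hasStrictFDerivAt_pi.mpr hq
  have hval : ∀ (i : Fin 2) (y : Fin 4 → ℝ),
      (∑ j, ∑ k, ((b i j k : ℤ) : ℝ) • (x j • L k + x k • L j)) y = jv b x i ⬝ᵥ y := by
    intro i y
    simp only [L, jv, dotProduct, mulVec, Matrix.map_apply, Matrix.add_apply, Matrix.transpose_apply,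
      _root_.smul_apply, _root_.add_apply,
      ContinuousLinearMap.proj_apply, smul_eq_mul, Fin.sum_univ_four, Int.cast_add]
    ring
  obtain ⟨k, l, hkl⟩ := unr_minor _ hx
  have hne : k ≠ l := by
    rintro rfl
    exact hkl (sub_self _)
  apply hD.map_nhds_eq_of_surj
  rw [LinearMap.range_eq_top]
  intro y
  set m := jv b x 0 k * jv b x 1 l - jv b x 0 l * jv b x 1 k with hm
  refine ⟨Pi.single k ((y 0 * jv b x 1 l - y 1 * jv b x 0 l) / m) +
    Pi.single l ((-(y 0 * jv b x 1 k) + y 1 * jv b x 0 k) / m), ?_⟩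
  funext i
  change (∑ j, ∑ k, ((b i j k : ℤ) : ℝ) • (x j • L k + x k • L j)) _ = _
  rw [hval, dotProduct_add, dotProduct_single, dotProduct_single]
  fin_cases i
  · simp only [Fin.zero_eta, Fin.isValue]
    field_simp
    rw [hm]
    ring
  · simp only [Fin.mk_one, Fin.isValue]
    field_simp
    rw [hm]
    ring

/-- unit eigenvectors form a compact set -/
theorem unr_eig (b : Fin 2 → Matrix (Fin 4) (Fin 4) ℤ) :
    IsCompact {e : Fin 4 → ℝ | ‖e‖ = 1 ∧ Eig b e} := by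
  have hK : IsCompact ((Metric.sphere (0 : Fin 4 → ℝ) 1 ×ˢ Metric.sphere (0 : Fin 2 → ℝ) 1) ∩
      {p : (Fin 4 → ℝ) × (Fin 2 → ℝ) | p.2 0 • jv b p.1 0 + p.2 1 • jv b p.1 1 = 0}) := by
    refine IsCompact.inter_right ((isCompact_sphere _ _).prod (isCompact_sphere _ _)) ?_
    have hj : Continuous fun p : (Fin 4 → ℝ) × (Fin 2 → ℝ) => jv b p.1 :=
      (unr_jvc b).comp continuous_fst
    have h0 : Continuous fun p : (Fin 4 → ℝ) × (Fin 2 → ℝ) => p.2 0 • jv b p.1 0 :=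
      ((continuous_apply 0).comp continuous_snd).smul ((continuous_apply 0).comp hj)
    have h1 : Continuous fun p : (Fin 4 → ℝ) × (Fin 2 → ℝ) => p.2 1 • jv b p.1 1 :=
      ((continuous_apply 1).comp continuous_snd).smul ((continuous_apply 1).comp hj)
    exact isClosed_eq (h0.add h1) continuous_const
  have himg := hK.image continuous_fst
  have heq : Prod.fst '' ((Metric.sphere (0 : Fin 4 → ℝ) 1 ×ˢ Metric.sphere (0 : Fin 2 → ℝ) 1) ∩
      {p : (Fin 4 → ℝ) × (Fin 2 → ℝ) | p.2 0 • jv b p.1 0 + p.2 1 • jv b p.1 1 = 0}) =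
      {e : Fin 4 → ℝ | ‖e‖ = 1 ∧ Eig b e} := by
    ext e
    constructor
    · rintro ⟨⟨e', μ⟩, ⟨⟨h1, h2⟩, h3⟩, rfl⟩
      simp only [mem_sphere_iff_norm, sub_zero] at h1 h2
      refine ⟨h1, μ, ?_, h3⟩
      rintro rfl
      simp at h2
    · rintro ⟨h1, μ, hμ, h3⟩
      have hn : ‖μ‖ ≠ 0 := norm_ne_zero_iff.mpr hμ
      refine ⟨(e, ‖μ‖⁻¹ • μ), ⟨⟨by simpa using h1, ?_⟩, ?_⟩, rfl⟩
      · simp only [mem_sphere_iff_norm, sub_zero, norm_smul, norm_inv, norm_norm]
        exact inv_mul_cancel₀ hn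
      · simp only [Set.mem_ofPred_eq, Pi.smul_apply, smul_eq_mul]
        rw [mul_smul, mul_smul, ← smul_add, h3, smul_zero]
  rw [heq] at himg
  exact himg

/-- openness of the quantitative condition -/
theorem unr_open (b : Fin 2 → Matrix (Fin 4) (Fin 4) ℤ) (c : Fin 2 → Matrix (Fin 2) (Fin 2) ℤ)
    (x : Fin 4 → ℝ) (w : Fin 2 → ℝ) (hx : GenR b x) (hw : qv c w ≠ 0) :
    ∃ κ : ℝ, 0 < κ ∧ ∀ᶠ y in nhds x, GenQ b c κ y w := by
  obtain ⟨hlin, heig⟩ := hx
  obtain ⟨k, l, hkl⟩ := unr_minor _ hlin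
  have hE := unr_eig b
  have hdc : ∀ i, Continuous fun p : (Fin 4 → ℝ) × (Fin 4 → ℝ) => jv b p.2 i ⬝ᵥ p.1 := by
    intro i
    have h1 : Continuous fun p : (Fin 4 → ℝ) × (Fin 4 → ℝ) => jv b p.2 i :=
      (continuous_apply i).comp ((unr_jvc b).comp continuous_snd)
    exact h1.dotProduct continuous_fst
  let F : (Fin 4 → ℝ) × (Fin 4 → ℝ) → ℝ := fun p => max |jv b p.2 0 ⬝ᵥ p.1| |jv b p.2 1 ⬝ᵥ p.1|
  have hF : Continuous F := (hdc 0).abs.max (hdc 1).abs
  have hFpos : ∀ e ∈ {e : Fin 4 → ℝ | ‖e‖ = 1 ∧ Eig b e}, 0 < F (x, e) := by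
    rintro e ⟨he1, he2⟩
    have hne : e ≠ 0 := by
      rintro rfl
      simp at he1
    obtain ⟨i, hi⟩ := heig e hne he2
    fin_cases i
    · exact lt_max_of_lt_left (abs_pos.mpr hi)
    · exact lt_max_of_lt_right (abs_pos.mpr hi)
  have hm : ∃ m : ℝ, 0 < m ∧ ∀ e ∈ {e : Fin 4 → ℝ | ‖e‖ = 1 ∧ Eig b e}, m < F (x, e) := by
    rcases Set.eq_empty_or_nonempty {e : Fin 4 → ℝ | ‖e‖ = 1 ∧ Eig b e} with h0 | h0
    · exact ⟨1, one_pos, fun e he => by rw [h0] at he; exact absurd he (Set.notMem_empty e)⟩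
    · have hc : Continuous fun e : Fin 4 → ℝ => F (x, e) :=
        hF.comp (continuous_const.prodMk continuous_id)
      obtain ⟨e0, he0, hmin⟩ := hE.exists_isMinOn h0 hc.continuousOn
      refine ⟨F (x, e0) / 2, half_pos (hFpos e0 he0), fun e he => ?_⟩
      have := hmin he
      have h1 := hFpos e0 he0
      simp only [Set.mem_ofPred_eq] at this
      linarith
  obtain ⟨m, hm0, hm⟩ := hm
  have ev1 : ∀ᶠ y in nhds x, ∀ e ∈ {e : Fin 4 → ℝ | ‖e‖ = 1 ∧ Eig b e}, m < F (y, e) := by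
    apply hE.eventually_forall_of_forall_eventually
    intro e he
    exact hF.continuousAt.eventually (lt_mem_nhds (hm e he))
  have hmc : Continuous fun y : Fin 4 → ℝ => |mnr b y k l| := by
    have h0 : Continuous fun y : Fin 4 → ℝ => jv b y 0 := (continuous_apply 0).comp (unr_jvc b)
    have h1 : Continuous fun y : Fin 4 → ℝ => jv b y 1 := (continuous_apply 1).comp (unr_jvc b)
    unfold mnr
    exact ((((continuous_apply k).comp h0).mul ((continuous_apply l).comp h1)).sub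
      (((continuous_apply l).comp h0).mul ((continuous_apply k).comp h1))).abs
  have hk0 : 0 < |mnr b x k l| := abs_pos.mpr hkl
  have ev2 : ∀ᶠ y in nhds x, |mnr b x k l| / 2 < |mnr b y k l| :=
    hmc.continuousAt.eventually (lt_mem_nhds (half_lt_self hk0))
  have hq0 : 0 < ‖qv c w‖ := norm_pos_iff.mpr hw
  refine ⟨min (|mnr b x k l| / 2) (min ‖qv c w‖ m), lt_min (half_pos hk0) (lt_min hq0 hm0), ?_⟩
  filter_upwards [ev1, ev2] with y h1 h2
  refine ⟨⟨k, l, (min_le_left _ _).trans h2.le⟩, (min_le_right _ _).trans (min_le_left _ _), ?_⟩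
  intro e he hee
  have h3 := h1 e ⟨he, hee⟩
  have h4 : min (|mnr b x k l| / 2) (min ‖qv c w‖ m) ≤ m :=
    (min_le_right _ _).trans (min_le_right _ _)
  rcases lt_max_iff.mp h3 with h5 | h5
  · exact ⟨0, h4.trans h5.le⟩
  · exact ⟨1, h4.trans h5.le⟩

theorem unr_mono {b : Fin 2 → Matrix (Fin 4) (Fin 4) ℤ} {c : Fin 2 → Matrix (Fin 2) (Fin 2) ℤ}
    {κ κ' : ℝ} (h : κ' ≤ κ) {x : Fin 4 → ℝ} {w : Fin 2 → ℝ} (hg : GenQ b c κ x w) :
    GenQ b c κ' x w := by
  obtain ⟨⟨k, l, h1⟩, h2, h3⟩ := hg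
  refine ⟨⟨k, l, h.trans h1⟩, h.trans h2, fun e he hee => ?_⟩
  obtain ⟨i, hi⟩ := h3 e he hee
  exact ⟨i, h.trans hi⟩

theorem p_UNR (hLOC : Stmt_LOC) (hGEN : Stmt_GEN) (hCOI : Stmt_COI) : Stmt_UNR := by
  intro b c hb hc h ε hh hε
  let Z := Matrix (Fin 2) (Fin 2) ℝ × (Fin 4 → ℝ) × (Fin 2 → ℝ)
  let P : Set Z → Prop := fun S => ∃ κ : ℝ, 0 < κ ∧ ∀ z ∈ S,
    ∃ (x' : Fin 4 → ℝ) (w' : Fin 2 → ℝ), Zer b c z.1 x' w' ∧ GenQ b c κ x' w' ∧
        ‖x' - z.2.1‖ < ε ∧ ‖w' - z.2.2‖ < ε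
  let K : Set Z := {z | (∀ i j, |z.1 i j| ≤ 1) ∧ h ≤ |Dl b c z.1| ∧ Zer b c z.1 z.2.1 z.2.2 ∧
    ‖z.2.1‖ ≤ 1 ∧ ‖z.2.2‖ ≤ 1 ∧ (‖z.2.1‖ = 1 ∨ ‖z.2.2‖ = 1)}
  have c1 : Continuous fun z : Z => z.1 := continuous_fst
  have c2 : Continuous fun z : Z => z.2.1 := continuous_fst.comp continuous_snd
  have c3 : Continuous fun z : Z => z.2.2 := continuous_snd.comp continuous_snd
  have hKc : IsCompact K := by
    let B : Set Z := (Set.univ.pi fun _ : Fin 2 => Set.univ.pi fun _ : Fin 2 => Set.Icc (-1 : ℝ) 1) ×ˢ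
      (Metric.closedBall (0 : Fin 4 → ℝ) 1 ×ˢ Metric.closedBall (0 : Fin 2 → ℝ) 1)
    have hB : IsCompact B := by
      refine IsCompact.prod ?_ ((isCompact_closedBall _ _).prod (isCompact_closedBall _ _))
      exact isCompact_univ_pi fun _ => isCompact_univ_pi fun _ => isCompact_Icc
    refine IsCompact.of_isClosed_subset hB ?_ ?_
    · have k1 : IsClosed {z : Z | ∀ i j, |z.1 i j| ≤ 1} := by
        simp only [Set.ofPred_forall]
        exact isClosed_iInter fun i => isClosed_iInter fun j =>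
          isClosed_le (c1.matrix_elem i j).abs continuous_const
      have k2 : IsClosed {z : Z | h ≤ |Dl b c z.1|} :=
        isClosed_le continuous_const ((unr_dlc b c).comp c1).abs
      have k3 : IsClosed {z : Z | Zer b c z.1 z.2.1 z.2.2} :=
        isClosed_eq ((unr_qvc b).comp c2) (c1.matrix_mulVec ((unr_qvc c).comp c3))
      have k4 : IsClosed {z : Z | ‖z.2.1‖ ≤ 1} := isClosed_le c2.norm continuous_const
      have k5 : IsClosed {z : Z | ‖z.2.2‖ ≤ 1} := isClosed_le c3.norm continuous_const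
      have k6 : IsClosed {z : Z | ‖z.2.1‖ = 1 ∨ ‖z.2.2‖ = 1} :=
        (isClosed_eq c2.norm continuous_const).union (isClosed_eq c3.norm continuous_const)
      exact k1.inter (k2.inter (k3.inter (k4.inter (k5.inter k6))))
    · rintro ⟨M, x, w⟩ ⟨h1, -, -, h4, h5, -⟩
      refine ⟨fun i _ => fun j _ => ?_, ?_, ?_⟩
      · exact abs_le.mp (h1 i j)
      · simpa using h4
      · simpa using h5
  have hPK : P K := by
    refine IsCompact.induction_on (p := P) hKc ?_ ?_ ?_ ?_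
    · exact ⟨1, one_pos, fun z hz => absurd hz (Set.notMem_empty z)⟩
    · rintro S T hST ⟨κ, hκ, hT⟩
      exact ⟨κ, hκ, fun z hz => hT z (hST hz)⟩
    · rintro S T ⟨κ, hκ, hS⟩ ⟨κ', hκ', hT⟩
      refine ⟨min κ κ', lt_min hκ hκ', ?_⟩
      rintro z (hz | hz)
      · obtain ⟨x', w', g1, g2, g3⟩ := hS z hz
        exact ⟨x', w', g1, unr_mono (min_le_left _ _) g2, g3⟩
      · obtain ⟨x', w', g1, g2, g3⟩ := hT z hz
        exact ⟨x', w', g1, unr_mono (min_le_right _ _) g2, g3⟩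
    · rintro ⟨M, x, w⟩ ⟨h1, h2, h3, h4, h5, h6⟩
      simp only at h1 h2 h3 h4 h5 h6
      have hD : Dl b c M ≠ 0 := by
        intro h0
        rw [h0, abs_zero] at h2
        linarith
      have hxw : x ≠ 0 ∨ w ≠ 0 := by
        rcases h6 with h6 | h6
        · left
          rintro rfl
          simp at h6
        · right
          rintro rfl
          simp at h6
      obtain ⟨x1, w1, z1, l1, n1, d1, e1⟩ := hLOC b c hb hc ℝ M x w hD h3 hxw (ε / 4) (by linarith)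
      obtain ⟨x2, q2, g2, d2⟩ := hGEN b hb x1 l1 (ε / 4) (by linarith)
      have hres : ((res c : ℤ) : ℝ) ≠ 0 := by exact_mod_cast hc
      have hqw : qv c w1 ≠ 0 := (hCOI c).1 ℝ w1 hres n1
      obtain ⟨κ, hκ, hev⟩ := unr_open b c x2 w1 g2 hqw
      have hev2 : ∀ᶠ y in nhds x2, GenQ b c κ y w1 ∧ ‖y - x2‖ < ε / 4 := by
        refine hev.and ?_
        have : Metric.ball x2 (ε / 4) ∈ nhds x2 := Metric.ball_mem_nhds _ (by linarith)
        filter_upwards [this] with y hy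
        rwa [mem_ball_iff_norm] at hy
      have hmap := unr_deriv b x2 g2.1
      have himg : (fun y : Fin 4 → ℝ => qv b y) '' {y | GenQ b c κ y w1 ∧ ‖y - x2‖ < ε / 4} ∈
          nhds (qv b x2) := by
        rw [← hmap]
        exact Filter.image_mem_map hev2
      have hz2 : qv b x2 = M *ᵥ qv c w1 := q2.trans z1
      have hMc : Continuous fun z : Z => z.1 *ᵥ qv c w1 := c1.matrix_mulVec continuous_const
      have ev3 : ∀ᶠ z : Z in nhds (M, x, w), z.1 *ᵥ qv c w1 ∈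
          (fun y : Fin 4 → ℝ => qv b y) '' {y | GenQ b c κ y w1 ∧ ‖y - x2‖ < ε / 4} := by
        apply hMc.continuousAt.eventually
        rw [hz2] at himg
        exact himg
      have ev4 : ∀ᶠ z : Z in nhds (M, x, w), ‖z.2.1 - x‖ < ε / 4 := by
        have hc4 : Continuous fun z : Z => ‖z.2.1 - x‖ := (c2.sub continuous_const).norm
        refine hc4.continuousAt.eventually (gt_mem_nhds ?_)
        simp only [sub_self, norm_zero]
        linarith
      have ev5 : ∀ᶠ z : Z in nhds (M, x, w), ‖z.2.2 - w‖ < ε / 4 := by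
        have hc5 : Continuous fun z : Z => ‖z.2.2 - w‖ := (c3.sub continuous_const).norm
        refine hc5.continuousAt.eventually (gt_mem_nhds ?_)
        simp only [sub_self, norm_zero]
        linarith
      refine ⟨{z | z.1 *ᵥ qv c w1 ∈
          (fun y : Fin 4 → ℝ => qv b y) '' {y | GenQ b c κ y w1 ∧ ‖y - x2‖ < ε / 4} ∧
          ‖z.2.1 - x‖ < ε / 4 ∧ ‖z.2.2 - w‖ < ε / 4},
        mem_nhdsWithin_of_mem_nhds (ev3.and (ev4.and ev5)), κ, hκ, ?_⟩
      rintro z ⟨⟨y, ⟨hy1, hy2⟩, hy3⟩, hz1, hz2'⟩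
      refine ⟨y, w1, hy3, hy1, ?_, ?_⟩
      · have t1 : y - z.2.1 = (y - x2) + (x2 - x1) + (x1 - x) + (x - z.2.1) := by abel
        rw [t1]
        have t2 := norm_add_le ((y - x2) + (x2 - x1) + (x1 - x)) (x - z.2.1)
        have t3 := norm_add_le ((y - x2) + (x2 - x1)) (x1 - x)
        have t4 := norm_add_le (y - x2) (x2 - x1)
        have t5 : ‖x - z.2.1‖ = ‖z.2.1 - x‖ := norm_sub_rev _ _
        linarith
      · have t1 : w1 - z.2.2 = (w1 - w) + (w - z.2.2) := by abel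
        rw [t1]
        have t2 := norm_add_le (w1 - w) (w - z.2.2)
        have t5 : ‖w - z.2.2‖ = ‖z.2.2 - w‖ := norm_sub_rev _ _
        linarith
  obtain ⟨κ, hκ, hall⟩ := hPK
  exact ⟨κ, hκ, fun M x w h1 h2 h3 h4 h5 h6 => hall (M, x, w) ⟨h1, h2, h3, h4, h5, h6⟩⟩

end Pool.GLU

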