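import Pool.Agent.Work.MP_9fb703_gl.Interface

set_option autoImplicit false

namespace Pool.GLU

open Matrix

theorem WED_main {n : ℕ} (N Y : Matrix (Fin n) (Fin n) ℤ) :
    N.adjugate.trace * Y.det = ∑ i, ((N * Y).updateCol i (fun r => Y r i)).det := by
  have h1 : ((N * Y).adjugate * Y).trace = ∑ i, ((N * Y).updateCol i (fun r => Y r i)).det := by
    rw [Matrix.trace]
    refine Finset.sum_congr rfl fun i _ => ?_
    rw [← Matrix.cramer_apply, Matrix.cramer_eq_adjugate_mulVec]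
    rfl
  rw [← h1, Matrix.adjugate_mul_distrib, Matrix.mul_assoc, Matrix.trace_mul_comm, Matrix.mul_assoc,
    Matrix.mul_adjugate, Matrix.mul_smul, Matrix.mul_one, Matrix.trace_smul, smul_eq_mul, mul_comm]

theorem WED_col {n : ℕ} (M : Matrix (Fin n) (Fin n) ℤ) (g : ℤ) (j : Fin n)
    (h : ∀ i, g ∣ M i j) : g ∣ M.det := by
  choose s hs using h
  have h1 : M = M.updateCol j (g • s) := by
    ext a b
    rw [Matrix.updateCol_apply]
    split_ifs with hb
    · rw [hb, hs, Pi.smul_apply, smul_eq_mul]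
    · rfl
  rw [h1, Matrix.det_updateCol_smul]
  exact dvd_mul_right _ _

theorem WED_gen {n : ℕ} (N Y : Matrix (Fin n) (Fin n) ℤ) (g : ℤ) (k l : Fin n) (hkl : k ≠ l)
    (hk : ∀ i, g ∣ (N * Y) i k) (hl : ∀ i, g ∣ (N * Y) i l) : g ∣ N.adjugate.trace * Y.det := by
  rw [WED_main]
  refine Finset.dvd_sum fun i _ => ?_
  by_cases h : i = k
  · refine WED_col _ g l fun r => ?_
    rw [Matrix.updateCol_apply, if_neg (by rw [h]; exact hkl.symm)]
    exact hl r
  · refine WED_col _ g k fun r => ?_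
    rw [Matrix.updateCol_apply, if_neg (fun h' => h h'.symm)]
    exact hk r

theorem WED_fin {n : ℕ} (N : Matrix (Fin n) (Fin n) ℤ) (g : ℤ) (z z' : Fin n → ℤ)
    (h : ∀ i, g ∣ (N *ᵥ z) i) (h' : ∀ i, g ∣ (N *ᵥ z') i) (k l : Fin n) (hkl : k ≠ l)
    (hd : (((1 : Matrix (Fin n) (Fin n) ℤ).updateCol k z).updateCol l z').det =
      z k * z' l - z l * z' k) : g ∣ N.adjugate.trace * (z k * z' l - z l * z' k) := by
  rw [← hd]
  refine WED_gen N _ g k l hkl (fun i => ?_) (fun i => ?_)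
  · have h1 := h i
    rw [Matrix.mul_apply]
    simp only [Matrix.updateCol_apply, if_neg hkl, if_true]
    exact h1
  · have h1 := h' i
    rw [Matrix.mul_apply]
    simp only [Matrix.updateCol_apply, if_true]
    exact h1

theorem WED_det4 (M : Matrix (Fin 4) (Fin 4) ℤ) : M.det =
    M 0 0 * (M 1 1 * M 2 2 * M 3 3 - M 1 1 * M 2 3 * M 3 2 - M 1 2 * M 2 1 * M 3 3 +
      M 1 2 * M 2 3 * M 3 1 + M 1 3 * M 2 1 * M 3 2 - M 1 3 * M 2 2 * M 3 1) -
    M 0 1 * (M 1 0 * M 2 2 * M 3 3 - M 1 0 * M 2 3 * M 3 2 - M 1 2 * M 2 0 * M 3 3 +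
      M 1 2 * M 2 3 * M 3 0 + M 1 3 * M 2 0 * M 3 2 - M 1 3 * M 2 2 * M 3 0) +
    M 0 2 * (M 1 0 * M 2 1 * M 3 3 - M 1 0 * M 2 3 * M 3 1 - M 1 1 * M 2 0 * M 3 3 +
      M 1 1 * M 2 3 * M 3 0 + M 1 3 * M 2 0 * M 3 1 - M 1 3 * M 2 1 * M 3 0) -
    M 0 3 * (M 1 0 * M 2 1 * M 3 2 - M 1 0 * M 2 2 * M 3 1 - M 1 1 * M 2 0 * M 3 2 +
      M 1 1 * M 2 2 * M 3 0 + M 1 2 * M 2 0 * M 3 1 - M 1 2 * M 2 1 * M 3 0) := by
  rw [Matrix.det_succ_row_zero, Fin.sum_univ_four, Matrix.det_fin_three, Matrix.det_fin_three,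
    Matrix.det_fin_three, Matrix.det_fin_three]
  simp only [Matrix.submatrix_apply, show ((0 : Fin 4).succAbove (0 : Fin 3)) = 1 from rfl,
    show ((0 : Fin 4).succAbove (1 : Fin 3)) = 2 from rfl,
    show ((0 : Fin 4).succAbove (2 : Fin 3)) = 3 from rfl,
    show ((1 : Fin 4).succAbove (0 : Fin 3)) = 0 from rfl,
    show ((1 : Fin 4).succAbove (1 : Fin 3)) = 2 from rfl,
    show ((1 : Fin 4).succAbove (2 : Fin 3)) = 3 from rfl,
    show ((2 : Fin 4).succAbove (0 : Fin 3)) = 0 from rfl,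
    show ((2 : Fin 4).succAbove (1 : Fin 3)) = 1 from rfl,
    show ((2 : Fin 4).succAbove (2 : Fin 3)) = 3 from rfl,
    show ((3 : Fin 4).succAbove (0 : Fin 3)) = 0 from rfl,
    show ((3 : Fin 4).succAbove (1 : Fin 3)) = 1 from rfl,
    show ((3 : Fin 4).succAbove (2 : Fin 3)) = 2 from rfl,
    show (Fin.succ (0 : Fin 3)) = (1 : Fin 4) from rfl,
    show (Fin.succ (1 : Fin 3)) = (2 : Fin 4) from rfl,
    show (Fin.succ (2 : Fin 3)) = (3 : Fin 4) from rfl]
  norm_num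
  ring

theorem p_WED : Stmt_WED := by
  rintro n (rfl | rfl) N g z z' h h' k l
  · by_cases hkl : k = l
    · subst hkl
      simp [mul_comm]
    · refine WED_fin N g z z' h h' k l hkl ?_
      fin_cases k <;> fin_cases l <;>
        first
        | exact absurd rfl hkl
        | (simp [Matrix.det_fin_three]
           done)
        | (simp [Matrix.det_fin_three]
           ring)
  · by_cases hkl : k = l
    · subst hkl
      simp [mul_comm]
    · refine WED_fin N g z z' h h' k l hkl ?_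
      fin_cases k <;> fin_cases l <;>
        first
        | exact absurd rfl hkl
        | (simp [WED_det4]
           done)
        | (simp [WED_det4]
           ring)

end Pool.GLU
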