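import Pool.Agent.Work.MP_9fb703_gl.Final
import Pool.Agent.Work.MP_9fb703_gl.B_PEN
import Pool.Agent.Work.MP_9fb703_gl.B_RES
import Pool.Agent.Work.MP_9fb703_gl.B_COI
import Pool.Agent.Work.MP_9fb703_gl.B_SIM
import Pool.Agent.Work.MP_9fb703_gl.B_DNZ
import Pool.Agent.Work.MP_9fb703_gl.B_CN1
import Pool.Agent.Work.MP_9fb703_gl.B_LFT
import Pool.Agent.Work.MP_9fb703_gl.B_ACN
import Pool.Agent.Work.MP_9fb703_gl.B_DUA
import Pool.Agent.Work.MP_9fb703_gl.B_PAI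
import Pool.Agent.Work.MP_9fb703_gl.B_HEN
import Pool.Agent.Work.MP_9fb703_gl.B_RCF
import Pool.Agent.Work.MP_9fb703_gl.B_RCT
import Pool.Agent.Work.MP_9fb703_gl.B_LPT
import Pool.Agent.Work.MP_9fb703_gl.B_CHA
import Pool.Agent.Work.MP_9fb703_gl.B_SCU
import Pool.Agent.Work.MP_9fb703_gl.B_SCL
import Pool.Agent.Work.MP_9fb703_gl.B_TMX
import Pool.Agent.Work.MP_9fb703_gl.B_WED
import Pool.Agent.Work.MP_9fb703_gl.B_LAB
import Pool.Agent.Work.MP_9fb703_gl.B_CYC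
import Pool.Agent.Work.MP_9fb703_gl.B_GS1
import Pool.Agent.Work.MP_9fb703_gl.B_GSM
import Pool.Agent.Work.MP_9fb703_gl.B_PRI
import Pool.Agent.Work.MP_9fb703_gl.B_REL
import Pool.Agent.Work.MP_9fb703_gl.B_NPR
import Pool.Agent.Work.MP_9fb703_gl.B_DIA
import Pool.Agent.Work.MP_9fb703_gl.B_FMO
import Pool.Agent.Work.MP_9fb703_gl.B_SMO
import Pool.Agent.Work.MP_9fb703_gl.B_DGO
import Pool.Agent.Work.MP_9fb703_gl.B_SEQ
import Pool.Agent.Work.MP_9fb703_gl.B_CSQ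
import Pool.Agent.Work.MP_9fb703_gl.B_CEL
import Pool.Agent.Work.MP_9fb703_gl.B_LOC
import Pool.Agent.Work.MP_9fb703_gl.B_GEN
import Pool.Agent.Work.MP_9fb703_gl.B_UNR
import Pool.Agent.Work.MP_9fb703_gl.B_UNP
import Pool.Agent.Work.MP_9fb703_gl.B_NZP
import Pool.Agent.Work.MP_9fb703_gl.B_NZR
import Pool.Agent.Work.MP_9fb703_gl.B_PAW
import Pool.Agent.Work.MP_9fb703_gl.B_RCV
import Pool.Agent.Work.MP_9fb703_gl.B_AS1
import Pool.Agent.Work.MP_9fb703_gl.B_ASM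
import Pool.Agent.Work.MP_9fb703_gl.B_RED

/-! # MP_9fb703_nt, THEOREM GLUE: all blocks together -/

set_option autoImplicit false

namespace Pool.GLU

theorem f_PEN : Stmt_PEN := p_PEN
theorem f_RES : Stmt_RES := p_RES
theorem f_COI : Stmt_COI := p_COI
theorem f_SIM : Stmt_SIM := p_SIM
theorem f_DNZ : Stmt_DNZ := p_DNZ
theorem f_CN1 : Stmt_CN1 := p_CN1 f_SIM
theorem f_LFT : Stmt_LFT := p_LFT f_CN1 f_SIM
theorem f_ACN : Stmt_ACN := p_ACN f_LFT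
theorem f_DUA : Stmt_DUA := p_DUA
theorem f_PAI : Stmt_PAI := p_PAI f_ACN f_DUA
theorem f_HEN : Stmt_HEN := p_HEN
theorem f_RCF : Stmt_RCF := p_RCF f_HEN f_COI
theorem f_RCT : Stmt_RCT := p_RCT f_HEN f_PAI f_COI
theorem f_LPT : Stmt_LPT := p_LPT
theorem f_CHA : Stmt_CHA := p_CHA
theorem f_SCU : Stmt_SCU := p_SCU
theorem f_SCL : Stmt_SCL := p_SCL
theorem f_TMX : Stmt_TMX := p_TMX
theorem f_WED : Stmt_WED := p_WED
theorem f_LAB : Stmt_LAB := p_LAB f_WED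
theorem f_CYC : Stmt_CYC := p_CYC
theorem f_GS1 : Stmt_GS1 := p_GS1 f_LAB f_CYC
theorem f_GSM : Stmt_GSM := p_GSM f_TMX f_GS1
theorem f_PRI : Stmt_PRI := p_PRI
theorem f_REL : Stmt_REL := p_REL
theorem f_NPR : Stmt_NPR := p_NPR f_GSM f_PRI f_REL
theorem f_DIA : Stmt_DIA := p_DIA f_NPR
theorem f_FMO : Stmt_FMO := p_FMO f_RCF f_LPT f_SCL
theorem f_SMO : Stmt_SMO := p_SMO f_RCT f_LPT f_SCU
theorem f_DGO : Stmt_DGO := p_DGO f_DIA f_COI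
theorem f_SEQ : Stmt_SEQ := p_SEQ
theorem f_CSQ : Stmt_CSQ := p_CSQ
theorem f_CEL : Stmt_CEL := p_CEL f_COI f_CHA f_FMO f_SMO f_DGO f_SEQ f_CSQ
theorem f_LOC : Stmt_LOC := p_LOC f_SIM f_COI
theorem f_GEN : Stmt_GEN := p_GEN f_SIM
theorem f_UNR : Stmt_UNR := p_UNR f_LOC f_GEN f_COI
theorem f_UNP : Stmt_UNP := p_UNP f_LOC f_COI
theorem f_NZP : Stmt_NZP := p_NZP
theorem f_NZR : Stmt_NZR := p_NZR f_LPT
theorem f_PAW : Stmt_PAW := p_PAW f_UNP f_NZP f_DNZ f_COI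
theorem f_RCV : Stmt_RCV := p_RCV f_CEL f_COI
theorem f_AS1 : Stmt_AS1 := p_AS1
theorem f_ASM : Stmt_ASM := p_ASM f_DNZ f_NZR f_UNR f_PAW f_RCV f_AS1
theorem f_RED : Stmt_RED := p_RED

end Pool.GLU
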