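import Pool.Agent.Work.MP_9fb703_gl.Interface2

/-!
# MP_9fb703_nt, THEOREM GLUE, block ASM (helper4)
-/

set_option autoImplicit false

namespace Pool.GLU

open Matrix Polynomial MeasureTheory

/-- index type: (cube, zero cell), (residues of `M`, residues of the zeros) -/
abbrev ASM_T : Type :=
  (Matrix (Fin 2) (Fin 2) ℤ × (Fin 4 → ℤ) × (Fin 2 → ℤ)) ×
    (Matrix (Fin 2) (Fin 2) ℤ × (Fin 4 → ℤ) × (Fin 2 → ℤ))

theorem ASM_pi (S : Finset ℤ) : ∃ I : Finset (Matrix (Fin 2) (Fin 2) ℤ), I.card = S.card ^ 4 ∧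
    ∀ M : Matrix (Fin 2) (Fin 2) ℤ, (∀ i j, M i j ∈ S) → M ∈ I := by
  classical
  have h : ∃ I : Finset (Fin 2 → Fin 2 → ℤ), I.card = S.card ^ 4 ∧
      ∀ M : Fin 2 → Fin 2 → ℤ, (∀ i j, M i j ∈ S) → M ∈ I := by
    refine ⟨Fintype.piFinset fun _ : Fin 2 => Fintype.piFinset fun _ : Fin 2 => S, ?_, ?_⟩
    · simp only [Fintype.card_piFinset, Finset.prod_const, Finset.card_univ, Fintype.card_fin]
      ring
    · intro M hM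
      exact Fintype.mem_piFinset.2 fun i => Fintype.mem_piFinset.2 fun j => hM i j
  exact h

theorem ASM_idx (H K W Q : ℕ) : ∃ I : Finset ASM_T,
    I.card = (2 * H + 1) ^ 4 * (2 * K + 1) ^ 6 * (W ^ 4 * Q ^ 6) ∧
    ∀ (g : Matrix (Fin 2) (Fin 2) ℤ) (k : Fin 4 → ℤ) (l : Fin 2 → ℤ)
      (M₀ : Matrix (Fin 2) (Fin 2) ℤ) (y : Fin 4 → ℤ) (v : Fin 2 → ℤ),
      (∀ i j, -(H : ℤ) ≤ g i j ∧ g i j ≤ H) → (∀ j, -(K : ℤ) ≤ k j ∧ k j ≤ K) →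
      (∀ j, -(K : ℤ) ≤ l j ∧ l j ≤ K) → (∀ i j, 0 ≤ M₀ i j ∧ M₀ i j < W) →
      (∀ j, 0 ≤ y j ∧ y j < Q) → (∀ j, 0 ≤ v j ∧ v j < Q) →
      (((g, k, l), (M₀, y, v)) : ASM_T) ∈ I := by
  classical
  obtain ⟨I1, c1, m1⟩ := ASM_pi (Finset.Icc (-(H : ℤ)) H)
  obtain ⟨I4, c4, m4⟩ := ASM_pi (Finset.Ico (0 : ℤ) W)
  let I2 : Finset (Fin 4 → ℤ) := Fintype.piFinset fun _ : Fin 4 => Finset.Icc (-(K : ℤ)) K
  let I3 : Finset (Fin 2 → ℤ) := Fintype.piFinset fun _ : Fin 2 => Finset.Icc (-(K : ℤ)) K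
  let I5 : Finset (Fin 4 → ℤ) := Fintype.piFinset fun _ : Fin 4 => Finset.Ico (0 : ℤ) Q
  let I6 : Finset (Fin 2 → ℤ) := Fintype.piFinset fun _ : Fin 2 => Finset.Ico (0 : ℤ) Q
  have eH : ((H : ℤ) + 1 - -(H : ℤ)).toNat = 2 * H + 1 := by omega
  have eK : ((K : ℤ) + 1 - -(K : ℤ)).toNat = 2 * K + 1 := by omega
  have eW : ((W : ℤ) - 0).toNat = W := by omega
  have eQ : ((Q : ℤ) - 0).toNat = Q := by omega
  rw [Int.card_Icc, eH] at c1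
  rw [Int.card_Ico, eW] at c4
  have c2 : I2.card = (2 * K + 1) ^ 4 := by
    simp only [I2, Fintype.card_piFinset, Finset.prod_const, Finset.card_univ, Fintype.card_fin,
      Int.card_Icc, eK]
  have c3 : I3.card = (2 * K + 1) ^ 2 := by
    simp only [I3, Fintype.card_piFinset, Finset.prod_const, Finset.card_univ, Fintype.card_fin,
      Int.card_Icc, eK]
  have c5 : I5.card = Q ^ 4 := by
    simp only [I5, Fintype.card_piFinset, Finset.prod_const, Finset.card_univ, Fintype.card_fin,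
      Int.card_Ico, eQ]
  have c6 : I6.card = Q ^ 2 := by
    simp only [I6, Fintype.card_piFinset, Finset.prod_const, Finset.card_univ, Fintype.card_fin,
      Int.card_Ico, eQ]
  refine ⟨(I1 ×ˢ I2 ×ˢ I3) ×ˢ (I4 ×ˢ I5 ×ˢ I6), ?_, ?_⟩
  · simp only [Finset.card_product, c1, c2, c3, c4, c5, c6]
    ring
  · intro g k l M₀ y v hg hk hl hM hy hv
    simp only [Finset.mem_product]
    refine ⟨⟨?_, ?_, ?_⟩, ?_, ?_, ?_⟩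
    · exact m1 g fun i j => Finset.mem_Icc.2 (hg i j)
    · exact Fintype.mem_piFinset.2 fun j => Finset.mem_Icc.2 (hk j)
    · exact Fintype.mem_piFinset.2 fun j => Finset.mem_Icc.2 (hl j)
    · exact m4 M₀ fun i j => Finset.mem_Ico.2 (hM i j)
    · exact Fintype.mem_piFinset.2 fun j => Finset.mem_Ico.2 (hy j)
    · exact Fintype.mem_piFinset.2 fun j => Finset.mem_Ico.2 (hv j)

theorem ASM_finbox (a d : Matrix (Fin 2) (Fin 2) ℤ) :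
    Set.Finite {M : Matrix (Fin 2) (Fin 2) ℤ | ∀ i j, a i j ≤ M i j ∧ M i j ≤ d i j} := by
  have h2 : {M : Matrix (Fin 2) (Fin 2) ℤ | ∀ i j, a i j ≤ M i j ∧ M i j ≤ d i j} ⊆
      Set.pi Set.univ (fun i : Fin 2 => Set.pi Set.univ fun j : Fin 2 =>
        Set.Icc (a i j) (d i j)) := by
    intro M hM i _ j _
    exact hM i j
  exact (Set.Finite.pi fun _ => Set.Finite.pi fun _ => Set.finite_Icc _ _).subset h2

theorem ASM_cbfin (α : Matrix (Fin 2) (Fin 2) ℝ) (θ : ℝ) (W : ℕ)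
    (M₀ : Matrix (Fin 2) (Fin 2) ℤ) (B : ℕ) : (CB α θ W M₀ B).Finite := by
  refine (ASM_finbox (fun i j => ⌈α i j * (B : ℝ) ^ 2⌉)
    (fun i j => ⌊(α i j + θ) * (B : ℝ) ^ 2⌋)).subset ?_
  intro M hM i j
  exact ⟨Int.ceil_le.2 (hM.2 i j).1, Int.le_floor.2 (hM.2 i j).2⟩

/-- count of the bad matrices -/
theorem ASM_bad (Bad : Set (Matrix (Fin 2) (Fin 2) ℤ)) (W R : ℕ) (hW : 0 < W) (hR : W ≤ R)
    (hper : ∀ M M' : Matrix (Fin 2) (Fin 2) ℤ, (∀ i j, (W : ℤ) ∣ M i j - M' i j) →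
      M ∈ Bad → M' ∈ Bad) (ε : ℝ)
    (hB : (Set.ncard {M | M ∈ Bad ∧ ∀ i j, 0 ≤ M i j ∧ M i j < (W : ℤ)} : ℝ) ≤
      ε * (W : ℝ) ^ 4) :
    (Set.ncard {M | M ∈ Bad ∧ ∀ i j, |M i j| ≤ (R : ℤ)} : ℝ) ≤ 256 * ε * (R : ℝ) ^ 4 := by
  classical
  set n : ℕ := R / W with hn
  have hn1 : 1 ≤ n := (Nat.one_le_div_iff hW).2 hR
  have hnR : (n : ℝ) * W ≤ R := by
    have : n * W ≤ R := Nat.div_mul_le_self R W
    exact_mod_cast this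
  obtain ⟨J, cJ, mJ⟩ := ASM_pi (Finset.Icc (-((n : ℤ) + 1)) n)
  have en : ((n : ℤ) + 1 - -((n : ℤ) + 1)).toNat = 2 * n + 2 := by omega
  rw [Int.card_Icc, en] at cJ
  have hW' : (0 : ℤ) < W := by exact_mod_cast hW
  have hfin : Set.Finite {M : Matrix (Fin 2) (Fin 2) ℤ |
      M ∈ Bad ∧ ∀ i j, 0 ≤ M i j ∧ M i j < (W : ℤ)} := by
    refine (ASM_finbox (fun _ _ => 0) (fun _ _ => (W : ℤ))).subset ?_
    intro M hM i j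
    exact ⟨(hM.2 i j).1, (hM.2 i j).2.le⟩
  have key : Set.ncard {M | M ∈ Bad ∧ ∀ i j, |M i j| ≤ (R : ℤ)} ≤
      Set.ncard ({M | M ∈ Bad ∧ ∀ i j, 0 ≤ M i j ∧ M i j < (W : ℤ)} ×ˢ
        (↑J : Set (Matrix (Fin 2) (Fin 2) ℤ))) := by
    refine Set.ncard_le_ncard_of_injOn
      (fun M => ((fun i j => M i j % (W : ℤ) : Matrix (Fin 2) (Fin 2) ℤ),
        (fun i j => M i j / (W : ℤ) : Matrix (Fin 2) (Fin 2) ℤ))) ?_ ?_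
      (hfin.prod J.finite_toSet)
    · intro M hM
      refine Set.mk_mem_prod ⟨?_, ?_⟩ ?_
      · refine hper M _ (fun i j => ?_) hM.1
        exact Int.dvd_self_sub_emod
      · intro i j
        exact ⟨Int.emod_nonneg _ hW'.ne', Int.emod_lt_of_pos _ hW'⟩
      · refine Finset.mem_coe.2 (mJ _ fun i j => Finset.mem_Icc.2 ?_)
        have h1 := abs_le.1 (hM.2 i j)
        have hRn : (R : ℤ) < ((n : ℤ) + 1) * W := by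
          have := Nat.lt_div_mul_add (a := R) hW
          rw [← hn] at this
          have h3 : R < (n + 1) * W := by rw [add_mul, one_mul]; exact this
          exact_mod_cast h3
        constructor
        · refine Int.le_ediv_of_mul_le hW' ?_
          nlinarith [h1.1]
        · refine Int.lt_add_one_iff.1 (Int.ediv_lt_of_lt_mul hW' ?_)
          linarith [h1.2]
    · intro M _ M' _ h
      ext i j
      have h1 := congrFun (congrFun (Prod.ext_iff.1 h).1 i) j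
      have h2 := congrFun (congrFun (Prod.ext_iff.1 h).2 i) j
      simp only at h1 h2
      rw [← Int.emod_add_mul_ediv (M i j) W, ← Int.emod_add_mul_ediv (M' i j) W, h1, h2]
  rw [Set.ncard_prod, Set.ncard_coe_finset, cJ] at key
  have key' : (Set.ncard {M | M ∈ Bad ∧ ∀ i j, |M i j| ≤ (R : ℤ)} : ℝ) ≤
      (Set.ncard {M | M ∈ Bad ∧ ∀ i j, 0 ≤ M i j ∧ M i j < (W : ℤ)} : ℝ) *
        (2 * (n : ℝ) + 2) ^ 4 := by exact_mod_cast key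
  refine key'.trans ?_
  have hWr : (0 : ℝ) < W := by exact_mod_cast hW
  have hε : 0 ≤ ε := by
    have h0 : (0 : ℝ) ≤ ε * (W : ℝ) ^ 4 := (Nat.cast_nonneg _).trans hB
    exact nonneg_of_mul_nonneg_left h0 (by positivity)
  have hn1' : (1 : ℝ) ≤ n := by exact_mod_cast hn1
  calc (Set.ncard {M | M ∈ Bad ∧ ∀ i j, 0 ≤ M i j ∧ M i j < (W : ℤ)} : ℝ) * (2 * (n : ℝ) + 2) ^ 4
      ≤ (ε * (W : ℝ) ^ 4) * (4 * (n : ℝ)) ^ 4 := by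
        refine mul_le_mul hB ?_ (by positivity) (by positivity)
        exact pow_le_pow_left₀ (by positivity) (by linarith) 4
    _ = 256 * ε * (n * W) ^ 4 := by ring
    _ ≤ 256 * ε * (R : ℝ) ^ 4 := by
        refine mul_le_mul_of_nonneg_left ?_ (by positivity)
        exact pow_le_pow_left₀ (by positivity) hnR 4

/-- count of the matrices with small `F` -/
theorem ASM_small (F : MvPolynomial (Fin 2 × Fin 2) ℤ) (h : ℝ) (B : ℕ) :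
    Set.ncard {M : Matrix (Fin 2) (Fin 2) ℤ | (∀ i j, |(M i j : ℝ)| ≤ (B : ℝ) ^ 2) ∧
      |MvPolynomial.aeval (fun z : Fin 2 × Fin 2 => (M z.1 z.2 : ℝ) / (B : ℝ) ^ 2) F| < h} ≤
    Set.ncard {x : Fin 2 × Fin 2 → ℤ | (∀ i, |(x i : ℝ)| ≤ (B : ℝ) ^ 2) ∧
        |MvPolynomial.aeval (fun i => (x i : ℝ) / (B : ℝ) ^ 2) F| < h} := by
  refine Set.ncard_le_ncard_of_injOn (fun M z => M z.1 z.2) ?_ ?_ ?_
  · intro M hM
    exact ⟨fun z => hM.1 z.1 z.2, hM.2⟩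
  · intro M _ M' _ he
    ext i j
    exact congrFun he (i, j)
  · have h2 : {x : Fin 2 × Fin 2 → ℤ | (∀ i, |(x i : ℝ)| ≤ (B : ℝ) ^ 2) ∧
        |MvPolynomial.aeval (fun i => (x i : ℝ) / (B : ℝ) ^ 2) F| < h} ⊆
        Set.pi Set.univ (fun _ : Fin 2 × Fin 2 => Set.Icc (-(B : ℤ) ^ 2) ((B : ℤ) ^ 2)) := by
      intro x hx i _
      have h3 := abs_le.1 (hx.1 i)
      constructor
      · have : (-(B : ℝ) ^ 2) ≤ x i := h3.1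
        exact_mod_cast this
      · exact_mod_cast h3.2
    exact (Set.Finite.pi fun _ => Set.finite_Icc _ _).subset h2

theorem ASM_qv_smul {n : ℕ} (b : Fin 2 → Matrix (Fin n) (Fin n) ℤ) (a : ℝ) (x : Fin n → ℝ) :
    qv b (a • x) = (a ^ 2) • qv b x := by
  funext i
  simp only [qv, Pi.smul_apply, smul_eq_mul, Matrix.mulVec_smul, smul_dotProduct, dotProduct_smul]
  ring

theorem ASM_zer_scale (b : Fin 2 → Matrix (Fin 4) (Fin 4) ℤ)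
    (c : Fin 2 → Matrix (Fin 2) (Fin 2) ℤ) (M : Matrix (Fin 2) (Fin 2) ℝ) (y : Fin 4 → ℝ)
    (v : Fin 2 → ℝ) (s B : ℝ) (h : Zer b c M y v) :
    Zer b c (fun i j => M i j / B ^ 2) ((s * B)⁻¹ • y) (s⁻¹ • v) := by
  have e : (fun i j => M i j / B ^ 2 : Matrix (Fin 2) (Fin 2) ℝ) = (B ^ 2)⁻¹ • M := by
    ext i j
    simp [div_eq_inv_mul]
  rw [Zer, e, ASM_qv_smul, ASM_qv_smul, h, Matrix.mulVec_smul, Matrix.smul_mulVec, smul_smul]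
  congr 1
  rw [mul_inv]
  ring

/-- LD only depends on `M mod W` -/
theorem ASM_ld (b : Fin 2 → Matrix (Fin 4) (Fin 4) ℤ)
    (c : Fin 2 → Matrix (Fin 2) (Fin 2) ℤ) (P₀ m V' : ℕ) (M M₀ : Matrix (Fin 2) (Fin 2) ℤ)
    (x₀ : Fin 4 → ℤ) (w₀ : Fin 2 → ℤ) (h : LD b c P₀ m V' M x₀ w₀)
    (hM : ∀ i j, ((m ^ 2 * V' : ℕ) : ℤ) ∣ M i j - M₀ i j) : LD b c P₀ m V' M₀ x₀ w₀ := by
  refine ⟨h.m0, h.V0, h.small, h.only, h.reg, fun i => ?_, h.con, h.prim⟩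
  have e : qv b x₀ i - (M₀ *ᵥ qv c w₀) i = (qv b x₀ i - (M *ᵥ qv c w₀) i) +
      ((M i 0 - M₀ i 0) * qv c w₀ 0 + (M i 1 - M₀ i 1) * qv c w₀ 1) := by
    simp only [Matrix.mulVec, dotProduct, Fin.sum_univ_two]
    ring
  rw [e]
  exact dvd_add (h.zer i) (dvd_add (Dvd.dvd.mul_right (hM i 0) _) (Dvd.dvd.mul_right (hM i 1) _))

/-- conclusion of RCV for given constants -/
def ASM_R (b : Fin 2 → Matrix (Fin 4) (Fin 4) ℤ) (c : Fin 2 → Matrix (Fin 2) (Fin 2) ℤ)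
    (κ ν ε θ₀ : ℝ) (L P₂ : ℕ) : Prop :=
  ∀ (M' : Matrix (Fin 2) (Fin 2) ℝ) (x : Fin 4 → ℝ) (w : Fin 2 → ℝ), (∀ i j, |M' i j| ≤ 1) →
      Zer b c M' x w → GenQ b c κ x w → ‖x‖ ≤ 2 → ‖w‖ ≤ 2 →
      ∃ (ξ : Fin 4 → ℝ) (ω : Fin 2 → ℝ), ‖ξ - x‖ < ν ∧ ‖ω - w‖ < ν ∧
      ∀ (P₀ m V' : ℕ) (M₀ : Matrix (Fin 2) (Fin 2) ℤ) (x₀ : Fin 4 → ℤ) (w₀ : Fin 2 → ℤ),
        P₂ ≤ P₀ → LD b c P₀ m V' M₀ x₀ w₀ → ∀ (α : Matrix (Fin 2) (Fin 2) ℝ) (θ : ℝ), 0 < θ →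
        θ ≤ θ₀ → (∀ i j, α i j ≤ M' i j ∧ M' i j ≤ α i j + θ) →
        ∃ U B₀ : ℕ, ∀ B : ℕ, B₀ ≤ B →
          (Set.ncard {M | M ∈ CB α θ (m ^ 2 * V') M₀ B ∧
            ¬ Sol b c (m * V') (m ^ 2 * V') x₀ w₀ ξ ω ν L U B M} : ℝ) ≤
          ε * (θ * (B : ℝ) ^ 2 / ((m ^ 2 * V' : ℕ) : ℝ)) ^ 4

/-- a point of the zero set in the cube `g` and in the cell `(k, l)` -/
def ASM_Z (b : Fin 2 → Matrix (Fin 4) (Fin 4) ℤ) (c : Fin 2 → Matrix (Fin 2) (Fin 2) ℤ)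
    (κ : ℝ) (H N : ℕ) (t : Matrix (Fin 2) (Fin 2) ℤ × (Fin 4 → ℤ) × (Fin 2 → ℤ))
    (M' : Matrix (Fin 2) (Fin 2) ℝ) (x : Fin 4 → ℝ) (w : Fin 2 → ℝ) : Prop :=
  (∀ i j, |M' i j| ≤ 1) ∧ Zer b c M' x w ∧ GenQ b c κ x w ∧ ‖x‖ ≤ 2 ∧ ‖w‖ ≤ 2 ∧
    (∀ i j, (t.1 i j : ℝ) / H ≤ M' i j ∧ M' i j ≤ (t.1 i j : ℝ) / H + 1 / H) ∧
    (∀ j, t.2.1 j = ⌊x j * (8 * N)⌋) ∧ ∀ j, t.2.2 j = ⌊w j * (8 * N)⌋

theorem ASM_cellclose {n : ℕ} (N : ℕ) (hN : 1 ≤ N) (k : Fin n → ℤ) (x x' : Fin n → ℝ)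
    (h : ∀ j, k j = ⌊x j * (8 * N)⌋) (h' : ∀ j, k j = ⌊x' j * (8 * N)⌋) :
    ‖x - x'‖ ≤ 1 / (8 * (N : ℝ)) := by
  have hN' : (0 : ℝ) < 8 * N := by
    have : (1 : ℝ) ≤ N := by exact_mod_cast hN
    linarith
  refine (pi_norm_le_iff_of_nonneg (by positivity)).2 fun j => ?_
  rw [Pi.sub_apply, Real.norm_eq_abs, le_div_iff₀ hN']
  have h1 : |x j * (8 * N) - x' j * (8 * N)| < 1 :=
    Int.abs_sub_lt_one_of_floor_eq_floor ((h j).symm.trans (h' j))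
  rw [← sub_mul, abs_mul, abs_of_pos hN'] at h1
  exact h1.le

theorem ASM_choice (b : Fin 2 → Matrix (Fin 4) (Fin 4) ℤ)
    (c : Fin 2 → Matrix (Fin 2) (Fin 2) ℤ) (κ ε θ₀ : ℝ) (L P₂ P₀ m V' N H Q : ℕ) (hN : 1 ≤ N)
    (hR : ASM_R b c κ (1 / (8 * (N : ℝ))) ε θ₀ L P₂) (hP : P₂ ≤ P₀) (hH : 0 < H)
    (hθ : 1 / (H : ℝ) ≤ θ₀) (t : ASM_T) :
    ∃ (ξ : Fin 4 → ℝ) (ω : Fin 2 → ℝ) (x₀ : Fin 4 → ℤ) (w₀ : Fin 2 → ℤ) (U B₀ : ℕ),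
      ∀ (M' : Matrix (Fin 2) (Fin 2) ℝ) (x' : Fin 4 → ℝ) (w' : Fin 2 → ℝ) (x₁ : Fin 4 → ℤ)
        (w₁ : Fin 2 → ℤ), ASM_Z b c κ H N t.1 M' x' w' → LD b c P₀ m V' t.2.1 x₁ w₁ →
        (∀ j, (Q : ℤ) ∣ x₁ j - t.2.2.1 j) → (∀ j, (Q : ℤ) ∣ w₁ j - t.2.2.2 j) →
        ‖ξ - x'‖ ≤ 2 * (1 / (8 * (N : ℝ))) ∧ ‖ω - w'‖ ≤ 2 * (1 / (8 * (N : ℝ))) ∧
        (∀ j, (Q : ℤ) ∣ x₀ j - x₁ j) ∧ (∀ j, (Q : ℤ) ∣ w₀ j - w₁ j) ∧
        ∀ B : ℕ, B₀ ≤ B → (Set.ncard {M | M ∈ CB (fun i j => (t.1.1 i j : ℝ) / H) (1 / (H : ℝ))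
            (m ^ 2 * V') t.2.1 B ∧ ¬ Sol b c (m * V') (m ^ 2 * V') x₀ w₀ ξ ω
              (1 / (8 * (N : ℝ))) L U B M} : ℝ) ≤
          ε * (1 / (H : ℝ) * (B : ℝ) ^ 2 / ((m ^ 2 * V' : ℕ) : ℝ)) ^ 4 := by
  by_cases hZ : ∃ (M' : Matrix (Fin 2) (Fin 2) ℝ) (x' : Fin 4 → ℝ) (w' : Fin 2 → ℝ),
      ASM_Z b c κ H N t.1 M' x' w'
  swap
  · exact ⟨0, 0, 0, 0, 0, 0, fun M' x' w' _ _ h => absurd ⟨M', x', w', h⟩ hZ⟩
  by_cases hL : ∃ (x₁ : Fin 4 → ℤ) (w₁ : Fin 2 → ℤ), LD b c P₀ m V' t.2.1 x₁ w₁ ∧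
      (∀ j, (Q : ℤ) ∣ x₁ j - t.2.2.1 j) ∧ ∀ j, (Q : ℤ) ∣ w₁ j - t.2.2.2 j
  swap
  · exact ⟨0, 0, 0, 0, 0, 0, fun _ _ _ x₁ w₁ _ h1 h2 h3 => absurd ⟨x₁, w₁, h1, h2, h3⟩ hL⟩
  obtain ⟨Mz, xz, wz, z1, z2, z3, z4, z5, z6, z7, z8⟩ := hZ
  obtain ⟨x₀, w₀, l1, l2, l3⟩ := hL
  obtain ⟨ξ, ω, hξ, hω, hR2⟩ := hR Mz xz wz z1 z2 z3 z4 z5
  have hH' : (0 : ℝ) < H := by exact_mod_cast hH
  obtain ⟨U, B₀, hB⟩ := hR2 P₀ m V' t.2.1 x₀ w₀ hP l1 (fun i j => (t.1.1 i j : ℝ) / H)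
    (1 / (H : ℝ)) (by positivity) hθ z6
  refine ⟨ξ, ω, x₀, w₀, U, B₀, ?_⟩
  rintro M' x' w' x₁ w₁ ⟨_, _, _, _, _, _, y7, y8⟩ _ k2 k3
  have q1 := ASM_cellclose N hN t.1.2.1 xz x' z7 y7
  have q2 := ASM_cellclose N hN t.1.2.2 wz w' z8 y8
  refine ⟨?_, ?_, ?_, ?_, hB⟩
  · calc ‖ξ - x'‖ = ‖(ξ - xz) + (xz - x')‖ := by congr 1; abel
      _ ≤ ‖ξ - xz‖ + ‖xz - x'‖ := norm_add_le _ _
      _ ≤ _ := by linarith
  · calc ‖ω - w'‖ = ‖(ω - wz) + (wz - w')‖ := by congr 1; abel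
      _ ≤ ‖ω - wz‖ + ‖wz - w'‖ := norm_add_le _ _
      _ ≤ _ := by linarith
  · intro j
    have := dvd_sub (l2 j) (k2 j)
    rwa [sub_sub_sub_cancel_right] at this
  · intro j
    have := dvd_sub (l3 j) (k3 j)
    rwa [sub_sub_sub_cancel_right] at this

theorem ASM_sol_mono (b : Fin 2 → Matrix (Fin 4) (Fin 4) ℤ)
    (c : Fin 2 → Matrix (Fin 2) (Fin 2) ℤ) (V W : ℕ) (x₀ : Fin 4 → ℤ) (w₀ : Fin 2 → ℤ)
    (ξ : Fin 4 → ℝ) (ω : Fin 2 → ℝ) (ν : ℝ) (L U U' B : ℕ) (M : Matrix (Fin 2) (Fin 2) ℤ)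
    (h : U ≤ U') (hS : Sol b c V W x₀ w₀ ξ ω ν L U B M) : Sol b c V W x₀ w₀ ξ ω ν L U' B M := by
  obtain ⟨S, hL, hz⟩ := hS
  refine ⟨S, hL, fun z hzS => ?_⟩
  obtain ⟨h1, h2, h3, h4, h5, h6⟩ := hz z hzS
  exact ⟨h1, h2, h3, h4, fun j => (h5 j).trans (by exact_mod_cast h), h6⟩

theorem ASM_floor_bd (x : ℝ) (R K : ℕ) (T : ℝ) (hT : 0 ≤ T) (hK : (R : ℝ) * T = K)
    (h : |x| ≤ R) : -(K : ℤ) ≤ ⌊x * T⌋ ∧ ⌊x * T⌋ ≤ K := by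
  have h1 := abs_le.1 h
  constructor
  · refine Int.le_floor.2 ?_
    push_cast
    nlinarith [h1.1]
  · have h2 : x * T ≤ K := by nlinarith [h1.2]
    have h3 : ⌊x * T⌋ ≤ ⌊((K : ℤ) : ℝ)⌋ := Int.floor_le_floor (by exact_mod_cast h2)
    rwa [Int.floor_intCast] at h3

theorem ASM_gd (hAS1 : Stmt_AS1) (b : Fin 2 → Matrix (Fin 4) (Fin 4) ℤ)
    (c : Fin 2 → Matrix (Fin 2) (Fin 2) ℤ) (N L P₀ Um A B m V' H : ℕ) (κ h ε₂ : ℝ)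
    (M : Matrix (Fin 2) (Fin 2) ℤ) (hN : 1 ≤ N) (hA : 1 ≤ A) (hAB : Real.sqrt A ≤ B)
    (hBA : (B : ℝ) ≤ 2 * Real.sqrt A) (hM : ∀ i j, |M i j| ≤ (A : ℤ))
    (hD : h ≤ |Dl b c (fun i j => (M i j : ℝ) / (B : ℝ) ^ 2 : Matrix (Fin 2) (Fin 2) ℝ)|)
    (hU : ∀ (M : Matrix (Fin 2) (Fin 2) ℝ) (x : Fin 4 → ℝ) (w : Fin 2 → ℝ), (∀ i j, |M i j| ≤ 1) →
      h ≤ |Dl b c M| → Zer b c M x w → ‖x‖ ≤ 1 → ‖w‖ ≤ 1 → (‖x‖ = 1 ∨ ‖w‖ = 1) →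
      ∃ (x' : Fin 4 → ℝ) (w' : Fin 2 → ℝ), Zer b c M x' w' ∧ GenQ b c κ x' w' ∧
        ‖x' - x‖ < 1 / (8 * (N : ℝ)) ∧ ‖w' - w‖ < 1 / (8 * (N : ℝ)))
    (hPA : ∀ (x : (p : ℕ) → [Fact p.Prime] → Fin 4 → ℤ_[p])
          (w : (p : ℕ) → [Fact p.Prime] → Fin 2 → ℤ_[p]),
          (∀ (p : ℕ) [Fact p.Prime], p ≤ P₀ → ((∃ j, ‖x p j‖ = 1) ∨ ∃ j, ‖w p j‖ = 1) ∧
            Zer b c (M.map (Int.cast : ℤ → ℤ_[p])) (x p) (w p)) →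
          ∃ (x₀ : Fin 4 → ℤ) (w₀ : Fin 2 → ℤ), LD b c P₀ m V' M x₀ w₀ ∧
            ∀ (p : ℕ) [Fact p.Prime], p ≤ P₀ →
              (∀ j, (p : ℤ_[p]) ^ N ∣ (x₀ j : ℤ_[p]) - x p j) ∧
              ∀ j, (p : ℤ_[p]) ^ N ∣ (w₀ j : ℤ_[p]) - w p j)
    (hpN : ∀ p : ℕ, p.Prime → p ≤ P₀ → p ^ N ∣ m * V') (hNP : N ≤ P₀) (hm : 0 < m) (hV : 0 < V')
    (hH : 0 < H) (ξ : ASM_T → Fin 4 → ℝ) (ω : ASM_T → Fin 2 → ℝ) (x₀ : ASM_T → Fin 4 → ℤ)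
    (w₀ : ASM_T → Fin 2 → ℤ) (U B₀ : ASM_T → ℕ)
    (hch : ∀ (t : ASM_T) (M' : Matrix (Fin 2) (Fin 2) ℝ) (x' : Fin 4 → ℝ) (w' : Fin 2 → ℝ)
        (x₁ : Fin 4 → ℤ) (w₁ : Fin 2 → ℤ), ASM_Z b c κ H N t.1 M' x' w' →
        LD b c P₀ m V' t.2.1 x₁ w₁ →
        (∀ j, ((N.factorial ^ N : ℕ) : ℤ) ∣ x₁ j - t.2.2.1 j) →
        (∀ j, ((N.factorial ^ N : ℕ) : ℤ) ∣ w₁ j - t.2.2.2 j) →
        ‖ξ t - x'‖ ≤ 2 * (1 / (8 * (N : ℝ))) ∧ ‖ω t - w'‖ ≤ 2 * (1 / (8 * (N : ℝ))) ∧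
        (∀ j, ((N.factorial ^ N : ℕ) : ℤ) ∣ x₀ t j - x₁ j) ∧
        (∀ j, ((N.factorial ^ N : ℕ) : ℤ) ∣ w₀ t j - w₁ j) ∧
        ∀ B : ℕ, B₀ t ≤ B → (Set.ncard {M | M ∈ CB (fun i j => (t.1.1 i j : ℝ) / H) (1 / (H : ℝ))
            (m ^ 2 * V') t.2.1 B ∧ ¬ Sol b c (m * V') (m ^ 2 * V') (x₀ t) (w₀ t) (ξ t) (ω t)
              (1 / (8 * (N : ℝ))) L (U t) B M} : ℝ) ≤
          ε₂ * (1 / (H : ℝ) * (B : ℝ) ^ 2 / ((m ^ 2 * V' : ℕ) : ℝ)) ^ 4)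
    (I : Finset ASM_T)
    (mI : ∀ (g : Matrix (Fin 2) (Fin 2) ℤ) (k : Fin 4 → ℤ) (l : Fin 2 → ℤ)
      (M₀ : Matrix (Fin 2) (Fin 2) ℤ) (y : Fin 4 → ℤ) (v : Fin 2 → ℤ),
      (∀ i j, -(H : ℤ) ≤ g i j ∧ g i j ≤ H) →
      (∀ j, -((16 * N : ℕ) : ℤ) ≤ k j ∧ k j ≤ ((16 * N : ℕ) : ℤ)) →
      (∀ j, -((16 * N : ℕ) : ℤ) ≤ l j ∧ l j ≤ ((16 * N : ℕ) : ℤ)) →
      (∀ i j, 0 ≤ M₀ i j ∧ M₀ i j < ((m ^ 2 * V' : ℕ) : ℤ)) →
      (∀ j, 0 ≤ y j ∧ y j < ((N.factorial ^ N : ℕ) : ℤ)) →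
      (∀ j, 0 ≤ v j ∧ v j < ((N.factorial ^ N : ℕ) : ℤ)) →
      (((g, k, l), (M₀, y, v)) : ASM_T) ∈ I)
    (hUI : ∀ t ∈ I, U t ≤ Um)
    (hE : ∀ t ∈ I, (∃ (M' : Matrix (Fin 2) (Fin 2) ℝ) (x' : Fin 4 → ℝ) (w' : Fin 2 → ℝ)
        (x₁ : Fin 4 → ℤ) (w₁ : Fin 2 → ℤ), ASM_Z b c κ H N t.1 M' x' w' ∧
        LD b c P₀ m V' t.2.1 x₁ w₁ ∧ (∀ j, ((N.factorial ^ N : ℕ) : ℤ) ∣ x₁ j - t.2.2.1 j) ∧
        (∀ j, ((N.factorial ^ N : ℕ) : ℤ) ∣ w₁ j - t.2.2.2 j)) →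
      M ∈ CB (fun i j => (t.1.1 i j : ℝ) / H) (1 / (H : ℝ)) (m ^ 2 * V') t.2.1 B →
      Sol b c (m * V') (m ^ 2 * V') (x₀ t) (w₀ t) (ξ t) (ω t) (1 / (8 * (N : ℝ))) L (U t) B M) :
    Gd b c N L P₀ Um A M := by
  intro y v x w hyv hz hp
  have hN' : (1 : ℝ) ≤ N := by exact_mod_cast hN
  have hA' : (1 : ℝ) ≤ A := by exact_mod_cast hA
  have hsA : (1 : ℝ) ≤ Real.sqrt A := Real.one_le_sqrt.2 hA'
  have hB : (1 : ℝ) ≤ B := hsA.trans hAB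
  have hB0 : (0 : ℝ) < B := by linarith
  have hH' : (0 : ℝ) < H := by exact_mod_cast hH
  have hAB2 : (A : ℝ) ≤ (B : ℝ) ^ 2 := by
    have := pow_le_pow_left₀ (Real.sqrt_nonneg _) hAB 2
    rwa [Real.sq_sqrt (by linarith)] at this
  have hν0 : (0 : ℝ) < 1 / (8 * (N : ℝ)) := by positivity
  have hν1 : 1 / (8 * (N : ℝ)) ≤ 1 := by
    rw [div_le_one (by positivity)]
    linarith
  set Q : ℕ := N.factorial ^ N with hQ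
  have hQ0 : (0 : ℤ) < (Q : ℤ) := by
    have : 0 < Q := pow_pos (Nat.factorial_pos N) N
    exact_mod_cast this
  have hW0 : (0 : ℤ) < ((m ^ 2 * V' : ℕ) : ℤ) := by
    have : 0 < m ^ 2 * V' := by positivity
    exact_mod_cast this
  -- scale
  set s : ℝ := max (‖y‖ / B) ‖v‖ with hs_def
  have hs : 0 < s := by
    rcases hyv with h1 | h1
    · exact lt_of_lt_of_le (div_pos (norm_pos_iff.2 h1) hB0) (le_max_left _ _)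
    · exact lt_of_lt_of_le (norm_pos_iff.2 h1) (le_max_right _ _)
  have hsB : s * B = max ‖y‖ (B * ‖v‖) := by
    rw [hs_def, max_mul_of_nonneg _ _ hB0.le, div_mul_cancel₀ _ hB0.ne', mul_comm (B : ℝ) ‖v‖]
  have hsB0 : 0 < s * B := mul_pos hs hB0
  set M' : Matrix (Fin 2) (Fin 2) ℝ := fun i j => (M i j : ℝ) / (B : ℝ) ^ 2 with hM'
  have hz1 : Zer b c M' ((s * B)⁻¹ • y) (s⁻¹ • v) :=
    ASM_zer_scale b c (M.map (Int.cast : ℤ → ℝ)) y v s B hz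
  have hyn : ‖y‖ ≤ s * B := by rw [hsB]; exact le_max_left _ _
  have hvn : ‖v‖ ≤ s := le_max_right _ _
  have hMb : ∀ i j, |M' i j| ≤ 1 := by
    intro i j
    rw [hM']
    simp only
    rw [abs_div, abs_of_pos (by positivity : (0 : ℝ) < (B : ℝ) ^ 2), div_le_one (by positivity)]
    have : |(M i j : ℝ)| ≤ A := by exact_mod_cast hM i j
    linarith
  obtain ⟨x', w', u1, u2, u3, u4⟩ := hU M' ((s * B)⁻¹ • y) (s⁻¹ • v) hMb hD hz1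
    (by rw [norm_smul, Real.norm_eq_abs, abs_of_pos (inv_pos.2 hsB0), inv_mul_le_iff₀ hsB0]
        linarith)
    (by rw [norm_smul, Real.norm_eq_abs, abs_of_pos (inv_pos.2 hs), inv_mul_le_iff₀ hs]
        linarith)
    (by
      rcases max_choice (‖y‖ / B) ‖v‖ with h1 | h1
      · left
        rw [← hs_def] at h1
        have h2 : ‖y‖ = s * B := by rw [h1, div_mul_cancel₀ _ hB0.ne']
        rw [norm_smul, Real.norm_eq_abs, abs_of_pos (inv_pos.2 hsB0), h2,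
          inv_mul_cancel₀ hsB0.ne']
      · right
        rw [← hs_def] at h1
        rw [norm_smul, Real.norm_eq_abs, abs_of_pos (inv_pos.2 hs), ← h1,
          inv_mul_cancel₀ hs.ne'])
  have hx1 : ‖(s * B)⁻¹ • y‖ ≤ 1 := by
    rw [norm_smul, Real.norm_eq_abs, abs_of_pos (inv_pos.2 hsB0), inv_mul_le_iff₀ hsB0]
    linarith
  have hw1 : ‖s⁻¹ • v‖ ≤ 1 := by
    rw [norm_smul, Real.norm_eq_abs, abs_of_pos (inv_pos.2 hs), inv_mul_le_iff₀ hs]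
    linarith
  have hx2 : ‖x'‖ ≤ 2 := by
    have : x' = (x' - (s * B)⁻¹ • y) + (s * B)⁻¹ • y := by abel
    rw [this]
    refine (norm_add_le _ _).trans ?_
    linarith
  have hw2 : ‖w'‖ ≤ 2 := by
    have : w' = (w' - s⁻¹ • v) + s⁻¹ • v := by abel
    rw [this]
    refine (norm_add_le _ _).trans ?_
    linarith
  -- local data
  obtain ⟨xx, ww, l1, l2⟩ := hPA x w fun p _ hpP => hp p hpP
  set g : Matrix (Fin 2) (Fin 2) ℤ := fun i j => ⌊M' i j * H⌋ with hg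
  set M₀ : Matrix (Fin 2) (Fin 2) ℤ := fun i j => M i j % ((m ^ 2 * V' : ℕ) : ℤ) with hM₀
  set t : ASM_T := ((g, fun j => ⌊x' j * (8 * N)⌋, fun j => ⌊w' j * (8 * N)⌋),
    (M₀, fun j => xx j % (Q : ℤ), fun j => ww j % (Q : ℤ))) with ht_def
  have hMM : ∀ i j, ((m ^ 2 * V' : ℕ) : ℤ) ∣ M i j - M₀ i j := fun i j => Int.dvd_self_sub_emod
  have ht : t ∈ I := by
    refine mI _ _ _ _ _ _ ?_ ?_ ?_ ?_ ?_ ?_
    · intro i j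
      exact ASM_floor_bd _ 1 H H hH'.le (by simp) (by simpa using hMb i j)
    · intro j
      refine ASM_floor_bd _ 2 (16 * N) _ (by positivity) (by push_cast; ring) ?_
      exact_mod_cast (norm_le_pi_norm x' j).trans hx2
    · intro j
      refine ASM_floor_bd _ 2 (16 * N) _ (by positivity) (by push_cast; ring) ?_
      exact_mod_cast (norm_le_pi_norm w' j).trans hw2
    · intro i j
      exact ⟨Int.emod_nonneg _ hW0.ne', Int.emod_lt_of_pos _ hW0⟩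
    · intro j
      exact ⟨Int.emod_nonneg _ hQ0.ne', Int.emod_lt_of_pos _ hQ0⟩
    · intro j
      exact ⟨Int.emod_nonneg _ hQ0.ne', Int.emod_lt_of_pos _ hQ0⟩
  have hcube : ∀ i j, (g i j : ℝ) / H ≤ M' i j ∧ M' i j ≤ (g i j : ℝ) / H + 1 / H := by
    intro i j
    have h1 := Int.floor_le (M' i j * H)
    have h2 := (Int.lt_floor_add_one (M' i j * H)).le
    constructor
    · rw [div_le_iff₀ hH']
      exact h1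
    · rw [← add_div, le_div_iff₀ hH']
      exact h2
  have hZt : ASM_Z b c κ H N t.1 M' x' w' :=
    ⟨hMb, u1, u2, hx2, hw2, hcube, fun _ => rfl, fun _ => rfl⟩
  have hLt : LD b c P₀ m V' t.2.1 xx ww := ASM_ld b c P₀ m V' M M₀ xx ww l1 hMM
  have hq1 : ∀ j, (Q : ℤ) ∣ xx j - t.2.2.1 j := fun j => Int.dvd_self_sub_emod
  have hq2 : ∀ j, (Q : ℤ) ∣ ww j - t.2.2.2 j := fun j => Int.dvd_self_sub_emod
  obtain ⟨c1, c2, c3, c4, -⟩ := hch t M' x' w' xx ww hZt hLt hq1 hq2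
  have hcb : M ∈ CB (fun i j => (t.1.1 i j : ℝ) / H) (1 / (H : ℝ)) (m ^ 2 * V') t.2.1 B := by
    refine ⟨hMM, fun i j => ?_⟩
    have hc := hcube i j
    have hB2 : (0 : ℝ) < (B : ℝ) ^ 2 := by positivity
    have e : M' i j * (B : ℝ) ^ 2 = M i j := by
      rw [hM']
      exact div_mul_cancel₀ _ hB2.ne'
    rw [← e]
    exact ⟨mul_le_mul_of_nonneg_right hc.1 hB2.le, mul_le_mul_of_nonneg_right hc.2 hB2.le⟩
  have hSol := ASM_sol_mono b c _ _ _ _ _ _ _ _ _ Um _ M (hUI t ht)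
    (hE t ht ⟨M', x', w', xx, ww, hZt, hLt, hq1, hq2⟩ hcb)
  refine hAS1 b c N L Um A B (m * V') (m ^ 2 * V') M (x₀ t) (w₀ t) (ξ t) y (ω t) v s x w hN hA
    hAB hBA hs hsB ?_ ?_ ?_ ?_ hSol
  · calc ‖ξ t - (s * B)⁻¹ • y‖ = ‖(ξ t - x') + (x' - (s * B)⁻¹ • y)‖ := by congr 1; abel
      _ ≤ ‖ξ t - x'‖ + ‖x' - (s * B)⁻¹ • y‖ := norm_add_le _ _
      _ ≤ _ := by linarith
  · calc ‖ω t - s⁻¹ • v‖ = ‖(ω t - w') + (w' - s⁻¹ • v)‖ := by congr 1; abel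
      _ ≤ ‖ω t - w'‖ + ‖w' - s⁻¹ • v‖ := norm_add_le _ _
      _ ≤ _ := by linarith
  · intro p hpp hpN'
    have h1 := hpN p hpp (hpN'.trans hNP)
    refine ⟨h1, ?_⟩
    have e : m ^ 2 * V' = m * (m * V') := by ring
    rw [e]
    exact Dvd.dvd.mul_left h1 m
  · intro p _ hpN'
    have hpp : p.Prime := Fact.out
    have hpQ : (p : ℤ) ^ N ∣ (Q : ℤ) := by
      have : p ^ N ∣ Q := pow_dvd_pow_of_dvd ((Nat.Prime.dvd_factorial hpp).2 hpN') N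
      exact_mod_cast this
    obtain ⟨l3, l4⟩ := l2 p (hpN'.trans hNP)
    have cast : ∀ a d : ℤ, (Q : ℤ) ∣ a - d → (p : ℤ_[p]) ^ N ∣ (a : ℤ_[p]) - (d : ℤ_[p]) := by
      intro a d hd
      obtain ⟨k, hk⟩ := hpQ.trans hd
      refine ⟨(k : ℤ_[p]), ?_⟩
      have := congrArg (Int.cast : ℤ → ℤ_[p]) hk
      push_cast at this
      exact this
    refine ⟨fun j => ?_, fun j => ?_⟩
    · have h1 := dvd_add (cast _ _ (c3 j)) (l3 j)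
      rwa [sub_add_sub_cancel] at h1
    · have h1 := dvd_add (cast _ _ (c4 j)) (l4 j)
      rwa [sub_add_sub_cancel] at h1

theorem p_ASM (hDNZ : Stmt_DNZ) (hNZR : Stmt_NZR) (hUNR : Stmt_UNR) (hPAW : Stmt_PAW)
    (hRCV : Stmt_RCV) (hAS1 : Stmt_AS1) : Stmt_ASM := by
  classical
  intro b c hb hc N L ε hN hε
  obtain ⟨F, hF, hD⟩ := hDNZ b c hb hc
  have hN' : (1 : ℝ) ≤ N := by exact_mod_cast hN
  set ε' : ℝ := ε / 48 with hε'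
  have hε'0 : 0 < ε' := by positivity
  obtain ⟨h, B₁, hh, hNZ⟩ := hNZR (Fin 2 × Fin 2) F hF ε' hε'0
  have hν : (0 : ℝ) < 1 / (8 * (N : ℝ)) := by positivity
  obtain ⟨κ, hκ, hU⟩ := hUNR b c hb hc h (1 / (8 * (N : ℝ))) hh hν
  set Q : ℕ := N.factorial ^ N with hQ
  have hQ0 : 0 < Q := pow_pos (Nat.factorial_pos N) N
  have hQ0' : (0 : ℝ) < Q := by exact_mod_cast hQ0
  set ε₂ : ℝ := ε' / (81 * (2 * ((16 * N : ℕ) : ℝ) + 1) ^ 6 * (Q : ℝ) ^ 6) with hε₂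
  have hε₂0 : 0 < ε₂ := by positivity
  obtain ⟨θ₀, P₂, hθ₀, hR⟩ := hRCV b c hb hc κ (1 / (8 * (N : ℝ))) ε₂ L hκ hν hε₂0
  obtain ⟨m, V', Bad, hm, hV, hpN, hper, hBad, hPA⟩ :=
    hPAW b c hb hc N (max P₂ N) (ε' / 256) (by positivity)
  obtain ⟨H, hH⟩ := exists_nat_gt (1 / θ₀)
  have hH0 : (0 : ℝ) < H := lt_trans (by positivity) hH
  have hH0' : 0 < H := by exact_mod_cast hH0
  have hθH : 1 / (H : ℝ) ≤ θ₀ := by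
    rw [div_le_iff₀ hH0]
    rw [div_lt_iff₀ hθ₀] at hH
    linarith
  have hW0 : 0 < m ^ 2 * V' := by positivity
  have hW0' : (0 : ℝ) < ((m ^ 2 * V' : ℕ) : ℝ) := by exact_mod_cast hW0
  choose ξ ω x₀ w₀ U B₀ hch using
    ASM_choice b c κ ε₂ θ₀ L P₂ (max P₂ N) m V' N H Q hN hR (le_max_left _ _) hH0' hθH
  obtain ⟨I, cI, mI⟩ := ASM_idx H (16 * N) (m ^ 2 * V') Q
  set B₂ : ℕ := max (max B₁ (I.sup B₀)) (m ^ 2 * V' + 1) with hB₂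
  refine ⟨max P₂ N, I.sup U, B₂ ^ 2, le_max_right _ _, fun A hA => ?_⟩
  have hB₂1 : 1 ≤ B₂ := le_trans (by omega) (le_max_right _ _)
  have hA1 : 1 ≤ A := le_trans (Nat.one_le_pow _ _ hB₂1) hA
  have hA1' : (1 : ℝ) ≤ A := by exact_mod_cast hA1
  have hsA : (1 : ℝ) ≤ Real.sqrt A := Real.one_le_sqrt.2 hA1'
  obtain ⟨B, hAB, hBA⟩ : ∃ B : ℕ, Real.sqrt A ≤ B ∧ (B : ℝ) ≤ 2 * Real.sqrt A := by
    refine ⟨⌈Real.sqrt A⌉₊, Nat.le_ceil _, ?_⟩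
    have := (Nat.ceil_lt_add_one (Real.sqrt_nonneg A)).le
    linarith
  have hB₂B : B₂ ≤ B := by
    have h1 : ((B₂ : ℕ) : ℝ) ≤ Real.sqrt A := by
      rw [← Real.sqrt_sq (Nat.cast_nonneg B₂)]
      refine Real.sqrt_le_sqrt ?_
      exact_mod_cast hA
    exact_mod_cast h1.trans hAB
  have hB1 : (1 : ℝ) ≤ B := hsA.trans hAB
  have hB0 : (0 : ℝ) < B := by linarith
  have hAB2 : (A : ℝ) ≤ (B : ℝ) ^ 2 := by
    have := pow_le_pow_left₀ (Real.sqrt_nonneg _) hAB 2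
    rwa [Real.sq_sqrt (by linarith)] at this
  have hAB2' : A ≤ B ^ 2 := by exact_mod_cast hAB2
  have hB8 : (B : ℝ) ^ 8 ≤ 16 * (2 * (A : ℝ) + 1) ^ 4 := by
    have h1 : (B : ℝ) ^ 2 ≤ 4 * A := by
      have := pow_le_pow_left₀ hB0.le hBA 2
      rw [mul_pow, Real.sq_sqrt (by linarith)] at this
      linarith
    have h2 := pow_le_pow_left₀ (by positivity) h1 4
    have h3 : (2 * (A : ℝ)) ^ 4 ≤ (2 * (A : ℝ) + 1) ^ 4 :=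
      pow_le_pow_left₀ (by positivity) (by linarith) 4
    calc (B : ℝ) ^ 8 = ((B : ℝ) ^ 2) ^ 4 := by ring
      _ ≤ (4 * (A : ℝ)) ^ 4 := h2
      _ = 16 * (2 * (A : ℝ)) ^ 4 := by ring
      _ ≤ _ := by linarith
  -- the three sets
  set E1 : Set (Matrix (Fin 2) (Fin 2) ℤ) := {M | (∀ i j, |(M i j : ℝ)| ≤ (B : ℝ) ^ 2) ∧
      |MvPolynomial.aeval (fun z : Fin 2 × Fin 2 => (M z.1 z.2 : ℝ) / (B : ℝ) ^ 2) F| < h} with hE1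
  set E2 : Set (Matrix (Fin 2) (Fin 2) ℤ) :=
    {M | M ∈ Bad ∧ ∀ i j, |M i j| ≤ ((B ^ 2 : ℕ) : ℤ)} with hE2
  let Cd : ASM_T → Prop := fun t => ∃ (M' : Matrix (Fin 2) (Fin 2) ℝ) (x' : Fin 4 → ℝ)
      (w' : Fin 2 → ℝ) (x₁ : Fin 4 → ℤ) (w₁ : Fin 2 → ℤ), ASM_Z b c κ H N t.1 M' x' w' ∧
        LD b c (max P₂ N) m V' t.2.1 x₁ w₁ ∧ (∀ j, (Q : ℤ) ∣ x₁ j - t.2.2.1 j) ∧
        (∀ j, (Q : ℤ) ∣ w₁ j - t.2.2.2 j)
  set E3 : ASM_T → Set (Matrix (Fin 2) (Fin 2) ℤ) := fun t =>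
    {M | Cd t ∧ M ∈ CB (fun i j => (t.1.1 i j : ℝ) / H) (1 / (H : ℝ))
            (m ^ 2 * V') t.2.1 B ∧ ¬ Sol b c (m * V') (m ^ 2 * V') (x₀ t) (w₀ t) (ξ t) (ω t)
              (1 / (8 * (N : ℝ))) L (U t) B M} with hE3
  have n1 : (E1.ncard : ℝ) ≤ ε' * (B : ℝ) ^ 8 := by
    have h1 := hNZ B (le_trans (le_trans (le_max_left _ _) (le_max_left _ _)) hB₂B)
    have h2 : Fintype.card (Fin 2 × Fin 2) = 4 := by simp
    rw [h2] at h1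
    refine le_trans ?_ h1
    exact Nat.cast_le.2 (ASM_small F h B)
  have n2 : (E2.ncard : ℝ) ≤ ε' * (B : ℝ) ^ 8 := by
    have hWB : m ^ 2 * V' ≤ B ^ 2 := by
      have h1 : m ^ 2 * V' ≤ B := le_trans (Nat.le_succ _) (le_trans (le_max_right _ _) hB₂B)
      have h2 : B ≤ B ^ 2 := Nat.le_self_pow (by norm_num) B
      exact h1.trans h2
    have h1 := ASM_bad Bad (m ^ 2 * V') (B ^ 2) hW0 hWB hper (ε' / 256) hBad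
    refine h1.trans (le_of_eq ?_)
    push_cast
    ring
  have n3 : ∀ t ∈ I, ((E3 t).ncard : ℝ) ≤
      ε₂ * (1 / (H : ℝ) * (B : ℝ) ^ 2 / ((m ^ 2 * V' : ℕ) : ℝ)) ^ 4 := by
    intro t ht
    by_cases hx : Cd t
    · obtain ⟨M', x', w', x₁, w₁, a1, a2, a3, a4⟩ := hx
      obtain ⟨-, -, -, -, h5⟩ := hch t M' x' w' x₁ w₁ a1 a2 a3 a4
      refine le_trans ?_ (h5 B (le_trans (le_trans (Finset.le_sup ht) (le_trans (le_max_right _ _)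
        (le_max_left _ _))) hB₂B))
      refine Nat.cast_le.2 (Set.ncard_le_ncard ?_ ?_)
      · intro M hM
        exact hM.2
      · exact (ASM_cbfin _ _ _ _ _).subset fun M hM => hM.1
    · have : E3 t = ∅ := by
        ext M
        simp only [hE3, Set.mem_ofPred_eq, Set.mem_empty_iff_false, iff_false]
        exact fun hM => hx hM.1
      rw [this, Set.ncard_empty]
      simp only [Nat.cast_zero]
      positivity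
  have hsub : {M : Matrix (Fin 2) (Fin 2) ℤ | (∀ i j, |M i j| ≤ (A : ℤ)) ∧
      ¬ Gd b c N L (max P₂ N) (I.sup U) A M} ⊆ (E1 ∪ E2) ∪ ⋃ t ∈ I, E3 t := by
    rintro M ⟨hM, hG⟩
    by_contra hcon
    rw [Set.mem_union, Set.mem_union] at hcon
    have hc1 : M ∉ E1 := fun h => hcon (Or.inl (Or.inl h))
    have hc2 : M ∉ E2 := fun h => hcon (Or.inl (Or.inr h))
    have hc3 : ∀ t ∈ I, M ∉ E3 t := fun t ht h => hcon (Or.inr (Set.mem_biUnion ht h))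
    have hMb : ∀ i j, |(M i j : ℝ)| ≤ (B : ℝ) ^ 2 := by
      intro i j
      have : |(M i j : ℝ)| ≤ A := by exact_mod_cast hM i j
      linarith
    have hMb' : ∀ i j, |M i j| ≤ ((B ^ 2 : ℕ) : ℤ) := by
      intro i j
      exact (hM i j).trans (by exact_mod_cast hAB2')
    apply hG
    refine ASM_gd hAS1 b c N L (max P₂ N) (I.sup U) A B m V' H κ h ε₂ M hN hA1 hAB hBA hM ?_ hU
      ?_ hpN (le_max_right _ _) hm hV hH0' ξ ω x₀ w₀ U B₀ hch I mI (fun t ht => Finset.le_sup ht) ?_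
    · have e := hD ℝ (fun i j => (M i j : ℝ) / (B : ℝ) ^ 2)
      rw [← e]
      by_contra hlt
      exact hc1 ⟨hMb, not_le.1 hlt⟩
    · exact hPA M fun hMB => hc2 ⟨hMB, hMb'⟩
    · intro t ht hCd hcb
      by_contra hns
      exact hc3 t ht ⟨hCd, hcb, hns⟩
  have hfin : ((E1 ∪ E2) ∪ ⋃ t ∈ I, E3 t).Finite := by
    refine Set.Finite.union (Set.Finite.union ?_ ?_) ?_
    · refine (ASM_finbox (fun _ _ => -((B : ℤ) ^ 2)) (fun _ _ => (B : ℤ) ^ 2)).subset ?_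
      intro M hM i j
      have h3 := abs_le.1 (hM.1 i j)
      constructor
      · have : (-(B : ℝ) ^ 2) ≤ M i j := h3.1
        exact_mod_cast this
      · exact_mod_cast h3.2
    · refine (ASM_finbox (fun _ _ => -((B ^ 2 : ℕ) : ℤ)) (fun _ _ => ((B ^ 2 : ℕ) : ℤ))).subset ?_
      intro M hM i j
      exact abs_le.1 (hM.2 i j)
    · refine Set.Finite.biUnion I.finite_toSet fun t _ => ?_
      exact (ASM_cbfin _ _ _ _ _).subset fun M hM => hM.2.1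
  have hcount : (Set.ncard {M : Matrix (Fin 2) (Fin 2) ℤ | (∀ i j, |M i j| ≤ (A : ℤ)) ∧
      ¬ Gd b c N L (max P₂ N) (I.sup U) A M} : ℝ) ≤ E1.ncard + E2.ncard +
        ∑ t ∈ I, ((E3 t).ncard : ℝ) := by
    have h1 := Set.ncard_le_ncard hsub hfin
    have h2 := Set.ncard_union_le (E1 ∪ E2) (⋃ t ∈ I, E3 t)
    have h3 := Set.ncard_union_le E1 E2
    have h4 := Finset.set_ncard_biUnion_le I E3
    have h5 := h1.trans (h2.trans (add_le_add h3 h4))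
    exact_mod_cast h5
  have hsum : ∑ t ∈ I, ((E3 t).ncard : ℝ) ≤ ε' * (B : ℝ) ^ 8 := by
    refine (Finset.sum_le_sum n3).trans ?_
    rw [Finset.sum_const, nsmul_eq_mul, cI]
    have hH3 : (2 * (H : ℝ) + 1) ^ 4 ≤ 81 * (H : ℝ) ^ 4 := by
      have h1 : (1 : ℝ) ≤ H := by exact_mod_cast hH0'
      calc (2 * (H : ℝ) + 1) ^ 4 ≤ (3 * (H : ℝ)) ^ 4 :=
            pow_le_pow_left₀ (by positivity) (by linarith) 4
        _ = _ := by ring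
    set Wr : ℝ := ((m ^ 2 * V' : ℕ) : ℝ) with hWr
    set Kr : ℝ := 2 * ((16 * N : ℕ) : ℝ) + 1 with hKr
    have hKr0 : 0 < Kr := by positivity
    have e1 : (((2 * H + 1) ^ 4 * (2 * (16 * N) + 1) ^ 6 * ((m ^ 2 * V') ^ 4 * Q ^ 6) : ℕ) : ℝ) =
        (2 * (H : ℝ) + 1) ^ 4 * Kr ^ 6 * (Wr ^ 4 * (Q : ℝ) ^ 6) := by
      rw [hKr, hWr]
      push_cast
      ring
    rw [e1]
    have e2 : (2 * (H : ℝ) + 1) ^ 4 * Kr ^ 6 * (Wr ^ 4 * (Q : ℝ) ^ 6) *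
        (ε₂ * (1 / (H : ℝ) * (B : ℝ) ^ 2 / Wr) ^ 4) =
        (2 * (H : ℝ) + 1) ^ 4 * (ε' * (B : ℝ) ^ 8 / (81 * (H : ℝ) ^ 4)) := by
      rw [hε₂]
      field_simp
    rw [e2]
    have h5 : (81 * (H : ℝ) ^ 4) * (ε' * (B : ℝ) ^ 8 / (81 * (H : ℝ) ^ 4)) = ε' * (B : ℝ) ^ 8 := by
      field_simp
    have h8 := mul_le_mul_of_nonneg_right hH3
      (by positivity : (0 : ℝ) ≤ ε' * (B : ℝ) ^ 8 / (81 * (H : ℝ) ^ 4))
    rwa [h5] at h8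
  refine hcount.trans ?_
  have h6 : ε' * (B : ℝ) ^ 8 ≤ ε' * (16 * (2 * (A : ℝ) + 1) ^ 4) :=
    mul_le_mul_of_nonneg_left hB8 hε'0.le
  have h7 : ε * (2 * (A : ℝ) + 1) ^ 4 = 3 * (ε' * (16 * (2 * (A : ℝ) + 1) ^ 4)) := by
    rw [hε']
    ring
  rw [h7]
  linarith

end Pool.GLU
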