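import Pool.Agent.Work.MP_9fb703_gl.Interface

/-!
# Block CSQ: finite Cauchy-Schwarz
-/

set_option autoImplicit false

namespace Pool.GLU

open Matrix Polynomial MeasureTheory

theorem p_CSQ : Stmt_CSQ := by
  intro α β C T R a s e hR ha hsum hs he hs0 he0 Z hZ hZ0
  classical
  have h1 : (T.card : ℝ) * a ≤ ∑ M ∈ C \ Z, ∑ w ∈ T, R w M := by
    have h2 : ∑ M ∈ C \ Z, ∑ w ∈ T, R w M = ∑ M ∈ C, ∑ w ∈ T, R w M := by
      rw [← Finset.sum_sdiff hZ, left_eq_add]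
      exact Finset.sum_eq_zero fun M hM => Finset.sum_eq_zero fun w hw => hZ0 M hM w hw
    rw [h2, Finset.sum_comm, ← nsmul_eq_mul, ← Finset.sum_const]
    exact Finset.sum_le_sum hsum
  have h3 : (∑ M ∈ C \ Z, ∑ w ∈ T, R w M) ^ 2 ≤
      ((C \ Z).card : ℝ) * ∑ M ∈ C \ Z, (∑ w ∈ T, R w M) ^ 2 := sq_sum_le_card_mul_sum_sq
  have hcard : ((C \ Z).card : ℝ) = (C.card : ℝ) - Z.card := by
    rw [Finset.card_sdiff_of_subset hZ, Nat.cast_sub (Finset.card_le_card hZ)]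
  have h4 : ∑ M ∈ C \ Z, (∑ w ∈ T, R w M) ^ 2 ≤ ∑ M ∈ C, (∑ w ∈ T, R w M) ^ 2 :=
    Finset.sum_le_sum_of_subset_of_nonneg Finset.sdiff_subset fun _ _ _ => sq_nonneg _
  have h5 : ∑ M ∈ C, (∑ w ∈ T, R w M) ^ 2 = ∑ w ∈ T, ∑ w' ∈ T, ∑ M ∈ C, R w M * R w' M := by
    simp_rw [sq, Finset.sum_mul_sum]
    rw [Finset.sum_comm]
    apply Finset.sum_congr rfl
    intro w _
    rw [Finset.sum_comm]
  have h6 : ∑ w ∈ T, ∑ w' ∈ T, ∑ M ∈ C, R w M * R w' M ≤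
      ∑ w ∈ T, ∑ w' ∈ T, (s + if w = w' then e else 0) := by
    apply Finset.sum_le_sum
    intro w hw
    apply Finset.sum_le_sum
    intro w' hw'
    by_cases h : w = w'
    · rw [if_pos h, ← h]
      have h7 := he w hw
      have h8 : ∑ M ∈ C, R w M * R w M = ∑ M ∈ C, R w M ^ 2 :=
        Finset.sum_congr rfl fun M _ => (sq (R w M)).symm
      linarith
    · rw [if_neg h, add_zero]
      exact hs w hw w' hw' h
  have h9 : ∑ w ∈ T, ∑ w' ∈ T, (s + if w = w' then e else 0) =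
      (T.card : ℝ) ^ 2 * s + T.card * e := by
    have h10 : ∀ w ∈ T, ∑ w' ∈ T, (s + if w = w' then e else 0) = T.card * s + e := by
      intro w hw
      rw [Finset.sum_add_distrib, Finset.sum_const, nsmul_eq_mul, Finset.sum_ite_eq, if_pos hw]
    rw [Finset.sum_congr rfl h10, Finset.sum_const, nsmul_eq_mul]
    ring
  have h11 : 0 ≤ (T.card : ℝ) * a := by positivity
  calc ((T.card : ℝ) * a) ^ 2 ≤ (∑ M ∈ C \ Z, ∑ w ∈ T, R w M) ^ 2 :=
        pow_le_pow_left₀ h11 h1 2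
    _ ≤ ((C \ Z).card : ℝ) * ∑ M ∈ C \ Z, (∑ w ∈ T, R w M) ^ 2 := h3
    _ ≤ ((C \ Z).card : ℝ) * ((T.card : ℝ) ^ 2 * s + T.card * e) := by
        apply mul_le_mul_of_nonneg_left _ (Nat.cast_nonneg _)
        rw [← h9]
        exact h4.trans (h5.le.trans h6)
    _ = ((C.card : ℝ) - Z.card) * ((T.card : ℝ) ^ 2 * s + T.card * e) := by rw [hcard]

end Pool.GLU
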