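import Pool.Agent.Work.MP_9fb703_gl.Interface

/-!
# Block CYC (MP_9fb703_nt, THEOREM GLUE): points of `ℤ y₀ + g ℤⁿ` in a box
-/

set_option autoImplicit false

namespace Pool.GLU

open Matrix Polynomial

/-- the powers of `T` act on `y₀` modulo `g` by the powers of `μ` -/
lemma CYC_pow {n : ℕ} (T : Matrix (Fin n) (Fin n) ℤ) (g : ℕ) (y₀ : Fin n → ℤ) (μ : ℤ)
    (h : ∀ i, (g : ℤ) ∣ (T *ᵥ y₀) i - μ * y₀ i) (i : ℕ) :
    ∀ j, (g : ℤ) ∣ ((T ^ i) *ᵥ y₀) j - μ ^ i * y₀ j := by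
  induction i with
  | zero => intro j; simp
  | succ i ih =>
    intro j
    have h1 : ((T ^ (i + 1)) *ᵥ y₀) j - μ ^ (i + 1) * y₀ j
        = ∑ k, T j k * (((T ^ i) *ᵥ y₀) k - μ ^ i * y₀ k)
          + μ ^ i * ((T *ᵥ y₀) j - μ * y₀ j) := by
      rw [pow_succ' T, ← Matrix.mulVec_mulVec]
      simp only [mul_sub, Finset.sum_sub_distrib]
      have h2 : ∑ k, T j k * ((T ^ i) *ᵥ y₀) k = (T *ᵥ ((T ^ i) *ᵥ y₀)) j := by
        simp [Matrix.mulVec, dotProduct]
      have h3 : ∑ k, T j k * (μ ^ i * y₀ k) = μ ^ i * (T *ᵥ y₀) j := by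
        simp only [Matrix.mulVec, dotProduct, Finset.mul_sum]
        exact Finset.sum_congr rfl fun k _ => by ring
      rw [h2, h3]
      ring
    rw [h1]
    exact dvd_add (Finset.dvd_sum fun k _ => (ih k).mul_left _) ((h j).mul_left _)

/-- every integral vector is congruent to a small one modulo `n` independent vectors -/
lemma CYC_red {n : ℕ} (Bm : Matrix (Fin n) (Fin n) ℤ) (hB : Bm.det ≠ 0) (R : ℕ)
    (hR : ∀ i j, |Bm i j| ≤ R) (z : Fin n → ℤ) :
    ∃ m : Fin n → ℤ, ∀ j, |z j - ∑ i, m i * Bm i j| ≤ n * R := by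
  classical
  set Br : Matrix (Fin n) (Fin n) ℝ := Bm.map (Int.cast : ℤ → ℝ) with hBr
  have hdet : Br.det ≠ 0 := by
    have : Br.det = ((Bm.det : ℤ) : ℝ) := by
      rw [hBr]
      have := (Int.castRingHom ℝ).map_det Bm
      simpa using this.symm
    rw [this]
    exact_mod_cast hB
  have hu : IsUnit Br.det := isUnit_iff_ne_zero.2 hdet
  set zr : Fin n → ℝ := fun j => (z j : ℝ) with hzr
  set x : Fin n → ℝ := zr ᵥ* Br⁻¹ with hx
  have hxz : x ᵥ* Br = zr := by
    rw [hx, Matrix.vecMul_vecMul, Matrix.nonsing_inv_mul _ hu, Matrix.vecMul_one]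
  refine ⟨fun i => ⌊x i⌋, fun j => ?_⟩
  have h1 : (z j : ℝ) = ∑ i, x i * (Bm i j : ℝ) := by
    have := congrFun hxz j
    simp only [Matrix.vecMul, dotProduct, hBr, Matrix.map_apply, hzr] at this
    exact this.symm
  have h2 : (z j : ℝ) - ∑ i, (⌊x i⌋ : ℝ) * (Bm i j : ℝ) = ∑ i, Int.fract (x i) * (Bm i j : ℝ) := by
    rw [h1, ← Finset.sum_sub_distrib]
    refine Finset.sum_congr rfl fun i _ => ?_
    rw [Int.fract]; ring
  have h3 : |∑ i, Int.fract (x i) * (Bm i j : ℝ)| ≤ n * (R : ℝ) := by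
    calc |∑ i, Int.fract (x i) * (Bm i j : ℝ)| ≤ ∑ i, |Int.fract (x i) * (Bm i j : ℝ)| :=
          Finset.abs_sum_le_sum_abs _ _
      _ ≤ ∑ i : Fin n, (R : ℝ) := by
          refine Finset.sum_le_sum fun i _ => ?_
          rw [abs_mul, abs_of_nonneg (Int.fract_nonneg _)]
          have h4 : |(Bm i j : ℝ)| ≤ R := by exact_mod_cast hR i j
          calc Int.fract (x i) * |(Bm i j : ℝ)| ≤ 1 * |(Bm i j : ℝ)| :=
                mul_le_mul_of_nonneg_right (Int.fract_lt_one _).le (abs_nonneg _)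
            _ ≤ R := by rw [one_mul]; exact h4
      _ = n * (R : ℝ) := by simp
  rw [← h2] at h3
  exact_mod_cast h3

theorem p_CYC : Stmt_CYC := by
  classical
  intro n T hn
  set C : ℕ := ∑ i : Fin n, ∑ j : Fin n, ∑ k : Fin n, ((T ^ (i : ℕ)) j k).natAbs with hC
  refine ⟨(2 * (1 + n * C) + 1) ^ n, ?_⟩
  intro g Y y₀ μ hg hY hy₀ _ hT hdet
  have : NeZero g := ⟨hg.ne'⟩
  set Bm : Matrix (Fin n) (Fin n) ℤ :=
    Matrix.of fun i j : Fin n => ((T ^ (i : ℕ)) *ᵥ y₀) j with hBm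
  have hCb : ∀ i j : Fin n, ∑ k : Fin n, |(T ^ (i : ℕ)) j k| ≤ (C : ℤ) := by
    intro i j
    have h1 : ∑ k : Fin n, ((T ^ (i : ℕ)) j k).natAbs ≤ C := by
      rw [hC]
      refine le_trans ?_ (Finset.single_le_sum
        (f := fun i : Fin n => ∑ j : Fin n, ∑ k : Fin n, ((T ^ (i : ℕ)) j k).natAbs)
        (fun _ _ => Nat.zero_le _) (Finset.mem_univ i))
      exact Finset.single_le_sum
        (f := fun j : Fin n => ∑ k : Fin n, ((T ^ (i : ℕ)) j k).natAbs)
        (fun _ _ => Nat.zero_le _) (Finset.mem_univ j)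
    have h2 : ((∑ k : Fin n, ((T ^ (i : ℕ)) j k).natAbs : ℕ) : ℤ) = ∑ k : Fin n, |(T ^ (i : ℕ)) j k| := by
      push_cast
      rfl
    rw [← h2]
    exact_mod_cast h1
  have hBb : ∀ i j, |Bm i j| ≤ ((C * Y : ℕ) : ℤ) := by
    intro i j
    have h0 : Bm i j = ∑ k, (T ^ (i : ℕ)) j k * y₀ k := by
      simp [hBm, Matrix.mulVec, dotProduct]
    rw [h0]
    calc |∑ k, (T ^ (i : ℕ)) j k * y₀ k| ≤ ∑ k, |(T ^ (i : ℕ)) j k * y₀ k| :=
          Finset.abs_sum_le_sum_abs _ _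
      _ ≤ ∑ k, |(T ^ (i : ℕ)) j k| * (Y : ℤ) := by
          refine Finset.sum_le_sum fun k _ => ?_
          rw [abs_mul]
          exact mul_le_mul_of_nonneg_left (hy₀ k) (abs_nonneg _)
      _ = (∑ k, |(T ^ (i : ℕ)) j k|) * (Y : ℤ) := by rw [Finset.sum_mul]
      _ ≤ (C : ℤ) * (Y : ℤ) := mul_le_mul_of_nonneg_right (hCb i j) (by positivity)
      _ = ((C * Y : ℕ) : ℤ) := by push_cast; ring
  -- reduction modulo g
  let π : (Fin n → ℤ) → (Fin n → ZMod g) := fun z j => ((z j : ℤ) : ZMod g)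
  have hπadd : ∀ a b, π (a + b) = π a + π b := by
    intro a b; funext j; simp [π]
  let H : AddSubgroup (Fin n → ZMod g) := AddSubgroup.zmultiples (π y₀)
  have hGH : ∀ (y : Fin n → ℤ) (lam : ℤ), (∀ j, (g : ℤ) ∣ y j - lam * y₀ j) → π y ∈ H := by
    intro y lam h
    rw [AddSubgroup.mem_zmultiples_iff]
    refine ⟨lam, ?_⟩
    funext j
    have h1 := (ZMod.intCast_zmod_eq_zero_iff_dvd (y j - lam * y₀ j) g).2 (h j)
    push_cast at h1
    have h2 : ((y j : ℤ) : ZMod g) = (lam : ZMod g) * ((y₀ j : ℤ) : ZMod g) := by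
      linear_combination h1
    simp only [π, Pi.smul_apply, zsmul_eq_mul]
    rw [h2]
  have hbH : ∀ i : Fin n, π (Bm i) ∈ H := by
    intro i
    refine hGH (Bm i) (μ ^ (i : ℕ)) fun j => ?_
    have := CYC_pow T g y₀ μ hT (i : ℕ) j
    simpa [hBm] using this
  -- representatives
  have hrep : ∀ c : (Fin n → ZMod g) ⧸ H, ∃ r : Fin n → ℤ,
      (∀ j, |r j| ≤ ((n * (C * Y) : ℕ) : ℤ)) ∧ (QuotientAddGroup.mk (π r) : (Fin n → ZMod g) ⧸ H) = c := by
    intro c
    induction c using QuotientAddGroup.induction_on with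
    | H v =>
      have hz : ∃ z : Fin n → ℤ, π z = v := by
        refine ⟨fun j => ((v j).val : ℤ), ?_⟩
        funext j
        simp [π]
      obtain ⟨z, hz⟩ := hz
      obtain ⟨m, hm⟩ := CYC_red Bm hdet (C * Y) hBb z
      refine ⟨fun j => z j - ∑ i, m i * Bm i j, ?_, ?_⟩
      · intro j
        have := hm j
        push_cast at this ⊢
        exact this
      · have h1 : π (fun j => z j - ∑ i, m i * Bm i j) = v - ∑ i, m i • π (Bm i) := by
          funext j
          simp only [π, Pi.sub_apply, Finset.sum_apply, zsmul_eq_mul]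
          rw [← hz]
          push_cast
          rfl
        rw [h1, QuotientAddGroup.eq]
        have h2 : -(v - ∑ i, m i • π (Bm i)) + v = ∑ i, m i • π (Bm i) := by abel
        rw [h2]
        exact AddSubgroup.sum_mem _ fun i _ => AddSubgroup.zsmul_mem _ (hbH i) _
  choose r hr1 hr2 using hrep
  set A : Set (Fin n → ℤ) :=
    {y : Fin n → ℤ | (∀ j, |y j| ≤ Y) ∧ ∃ lam : ℤ, ∀ j, (g : ℤ) ∣ y j - lam * y₀ j} with hA
  set R : ℕ := (1 + n * C) * Y with hR
  let box : Finset (Fin n → ℤ) := Finset.Icc (fun _ => -(R : ℤ)) (fun _ => (R : ℤ))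
  have hboxm : ∀ y : Fin n → ℤ, (∀ j, |y j| ≤ (R : ℤ)) → y ∈ box := by
    intro y hy
    simp only [box, Finset.mem_Icc, Pi.le_def]
    exact ⟨fun j => (abs_le.1 (hy j)).1, fun j => (abs_le.1 (hy j)).2⟩
  have hboxc : box.card = (2 * R + 1) ^ n := by
    simp only [box, Pi.card_Icc, Int.card_Icc, Finset.prod_const, Finset.card_univ, Fintype.card_fin]
    congr 1
    omega
  let Φ : A × ((Fin n → ZMod g) ⧸ H) → box := fun p => ⟨p.1.1 + r p.2, by
    refine hboxm _ fun j => ?_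
    have h1 := p.1.2.1 j
    have h2 := hr1 p.2 j
    calc |(p.1.1 + r p.2) j| ≤ |p.1.1 j| + |r p.2 j| := abs_add_le _ _
      _ ≤ (Y : ℤ) + ((n * (C * Y) : ℕ) : ℤ) := add_le_add h1 h2
      _ = (R : ℤ) := by rw [hR]; push_cast; ring⟩
  have hΦ : Function.Injective Φ := by
    rintro ⟨⟨a, ha⟩, c⟩ ⟨⟨b, hb⟩, d⟩ hab
    have h1 : a + r c = b + r d := congrArg Subtype.val hab
    have hcl : ∀ (a : Fin n → ℤ) (_ : a ∈ A) (c : (Fin n → ZMod g) ⧸ H),
        (QuotientAddGroup.mk (π (a + r c)) : (Fin n → ZMod g) ⧸ H) = c := by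
      intro a ha c
      obtain ⟨lam, hlam⟩ := ha.2
      have h2 := hGH a lam hlam
      rw [hπadd, QuotientAddGroup.mk_add, (QuotientAddGroup.eq_zero_iff (π a)).2 h2, zero_add, hr2]
    have hcd : c = d := by rw [← hcl a ha c, h1, hcl b hb d]
    subst hcd
    have hab' : a = b := add_right_cancel h1
    subst hab'
    rfl
  have hcard : Nat.card A * Nat.card ((Fin n → ZMod g) ⧸ H) ≤ (2 * R + 1) ^ n := by
    rw [← Nat.card_prod]
    have h1 := Nat.card_le_card_of_injective Φ hΦ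
    have h2 : Nat.card box = (2 * R + 1) ^ n := by
      rw [Nat.card_eq_fintype_card, Fintype.card_coe, hboxc]
    rw [h2] at h1
    exact h1
  have hQ : g ^ (n - 1) ≤ Nat.card ((Fin n → ZMod g) ⧸ H) := by
    have h1 := AddSubgroup.card_eq_card_quotient_mul_card_addSubgroup H
    have h2 : Nat.card (Fin n → ZMod g) = g ^ n := by
      rw [Nat.card_eq_fintype_card, Fintype.card_fun, ZMod.card, Fintype.card_fin]
    have h3 : Nat.card H ≤ g := by
      have h4 : Nat.card H = addOrderOf (π y₀) := Nat.card_zmultiples (π y₀)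
      rw [h4]
      refine Nat.le_of_dvd hg ?_
      rw [addOrderOf_dvd_iff_nsmul_eq_zero]
      funext j
      simp
    rw [h2] at h1
    have h5 : g ^ (n - 1) * g ≤ Nat.card ((Fin n → ZMod g) ⧸ H) * g := by
      calc g ^ (n - 1) * g = g ^ n := by
            rw [← pow_succ]; congr 1; omega
        _ = _ := h1
        _ ≤ _ := Nat.mul_le_mul_left _ h3
    exact Nat.le_of_mul_le_mul_right h5 hg
  calc A.ncard * g ^ (n - 1) ≤ Nat.card A * Nat.card ((Fin n → ZMod g) ⧸ H) := by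
        rw [← Nat.card_coe_set_eq A]
        exact Nat.mul_le_mul_left _ hQ
    _ ≤ (2 * R + 1) ^ n := hcard
    _ ≤ ((2 * (1 + n * C) + 1) * Y) ^ n := by
        refine Nat.pow_le_pow_left ?_ n
        rw [hR]
        nlinarith
    _ = (2 * (1 + n * C) + 1) ^ n * Y ^ n := by rw [mul_pow]

end Pool.GLU
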