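import Pool.Agent.Work.MP_9fb703_gl.Interface

/-!
# MP_9fb703_nt, THEOREM GLUE, block PAI: pairs with proportional values
-/

set_option autoImplicit false

namespace Pool.GLU

open Matrix

/-- Two values: `jv b (x - y) i ⬝ᵥ (x + y) = 2 (qv b x i - qv b y i)`. -/
theorem PAI_id {n : ℕ} (b : Fin 2 → Matrix (Fin n) (Fin n) ℤ) {R : Type} [CommRing R]
    (x y : Fin n → R) (i : Fin 2) :
    jv b (x - y) i ⬝ᵥ (x + y) = 2 * (qv b x i - qv b y i) := by
  have key : ∀ u v : Fin n → R, jv b u i ⬝ᵥ v =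
      u ⬝ᵥ ((b i).map (Int.cast : ℤ → R) *ᵥ v) + v ⬝ᵥ ((b i).map (Int.cast : ℤ → R) *ᵥ u) := by
    intro u v
    unfold jv
    have h1 : (b i + (b i)ᵀ).map (Int.cast : ℤ → R) =
        (b i).map (Int.cast : ℤ → R) + ((b i).map (Int.cast : ℤ → R))ᵀ := by
      ext k l
      simp
    rw [h1, add_mulVec, add_dotProduct, mulVec_transpose, ← dotProduct_mulVec,
      dotProduct_comm (((b i).map (Int.cast : ℤ → R)) *ᵥ u) v, add_comm]
  rw [key]
  unfold qv
  simp only [mulVec_sub, mulVec_add, dotProduct_sub, dotProduct_add, sub_dotProduct,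
    add_dotProduct]
  ring

theorem p_PAI (hACN : Stmt_ACN) (hDUA : Stmt_DUA) : Stmt_PAI := by
  classical
  intro b hb
  obtain ⟨P, hP⟩ := hACN b hb
  refine ⟨max P 3, fun p hp hPp j lam => ?_⟩
  have hp3 : 3 ≤ p := (le_max_right _ _).trans hPp
  have hA := hP p hp ((le_max_left _ _).trans hPp) j
  have hn0 : p ^ j ≠ 0 := pow_ne_zero _ hp.ne_zero
  have : NeZero (p ^ j) := ⟨hn0⟩
  set R := ZMod (p ^ j) with hR
  have h2 : IsUnit (2 : R) := by
    have : IsUnit ((2 : ℕ) : ZMod (p ^ j)) := by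
      rw [ZMod.isUnit_iff_coprime]
      exact Nat.Coprime.pow_right _ ((Nat.coprime_primes Nat.prime_two hp).2 (by omega))
    simpa using this
  -- the number of representations
  let r : (Fin 2 → R) → ℕ := fun ρ => Fintype.card {x : Fin 4 → R // qv b x = ρ}
  have hcount : ∀ u : Rˣ, Fintype.card {z : (Fin 4 → R) × (Fin 4 → R) //
      qv b z.1 = (u : R) • qv b z.2} = ∑ ρ : Fin 2 → R, r ((u : R) • ρ) * r ρ := by
    intro u
    let e : {z : (Fin 4 → R) × (Fin 4 → R) // qv b z.1 = (u : R) • qv b z.2} ≃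
        (Σ ρ : Fin 2 → R, {x : Fin 4 → R // qv b x = (u : R) • ρ} × {x : Fin 4 → R // qv b x = ρ}) :=
      { toFun := fun z => ⟨qv b z.1.2, ⟨z.1.1, z.2⟩, ⟨z.1.2, rfl⟩⟩
        invFun := fun s => ⟨(s.2.1.1, s.2.2.1), by rw [s.2.1.2, s.2.2.2]⟩
        left_inv := fun z => rfl
        right_inv := by
          rintro ⟨ρ, ⟨x, hx⟩, ⟨y, hy⟩⟩
          subst hy
          rfl }
    rw [Fintype.card_congr e, Fintype.card_sigma]
    refine Finset.sum_congr rfl fun ρ _ => ?_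
    rw [Fintype.card_prod]
  have hsq : ∑ ρ : Fin 2 → R, r ((lam : R) • ρ) * r ρ ≤ ∑ ρ : Fin 2 → R, r ρ * r ρ := by
    have h3 : ∑ ρ : Fin 2 → R, r ((lam : R) • ρ) * r ((lam : R) • ρ) =
        ∑ ρ : Fin 2 → R, r ρ * r ρ := by
      let e : (Fin 2 → R) ≃ (Fin 2 → R) := MulAction.toPerm lam
      exact Equiv.sum_comp e (fun ρ => r ρ * r ρ)
    have h4 : 2 * ∑ ρ : Fin 2 → R, r ((lam : R) • ρ) * r ρ ≤
        ∑ ρ : Fin 2 → R, r ((lam : R) • ρ) * r ((lam : R) • ρ) + ∑ ρ : Fin 2 → R, r ρ * r ρ := by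
      rw [Finset.mul_sum, ← Finset.sum_add_distrib]
      refine Finset.sum_le_sum fun ρ _ => ?_
      have := two_mul_le_add_sq (r ((lam : R) • ρ) : ℤ) (r ρ : ℤ)
      zify
      nlinarith
    omega
  have h1 : Fintype.card {z : (Fin 4 → R) × (Fin 4 → R) // qv b z.1 = (lam : R) • qv b z.2} ≤
      Fintype.card {z : (Fin 4 → R) × (Fin 4 → R) // qv b z.1 = qv b z.2} := by
    rw [hcount lam]
    refine hsq.trans (le_of_eq ?_)
    have := hcount 1
    simp only [Units.val_one, one_smul] at this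
    exact this.symm
  -- the change of variables
  have h5 : Fintype.card {z : (Fin 4 → R) × (Fin 4 → R) // qv b z.1 = qv b z.2} ≤
      Fintype.card (Σ y : Fin 4 → R, {z : Fin 4 → R // jv b y 0 ⬝ᵥ z = 0 ∧ jv b y 1 ⬝ᵥ z = 0}) := by
    refine Fintype.card_le_of_injective (fun z => ⟨z.1.1 - z.1.2, ⟨z.1.1 + z.1.2, ?_, ?_⟩⟩) ?_
    · rw [PAI_id, congrFun z.2 0, sub_self, mul_zero]
    · rw [PAI_id, congrFun z.2 1, sub_self, mul_zero]
    · rintro ⟨⟨x, y⟩, h⟩ ⟨⟨x', y'⟩, h'⟩ heq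
      have e1 : x - y = x' - y' := congrArg Sigma.fst heq
      have e2 : x + y = x' + y' := by
        have := congrArg (fun s : (Σ y : Fin 4 → R, {z : Fin 4 → R // jv b y 0 ⬝ᵥ z = 0 ∧
          jv b y 1 ⬝ᵥ z = 0}) => (s.2 : Fin 4 → R)) heq
        exact this
      have e3 : x = x' := by
        have h6 : (2 : R) • x = (2 : R) • x' := by
          have : (x - y) + (x + y) = (x' - y') + (x' + y') := by rw [e1, e2]
          rw [two_smul, two_smul]
          calc x + x = (x - y) + (x + y) := by abel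
            _ = (x' - y') + (x' + y') := this
            _ = x' + x' := by abel
        funext l
        have := congrFun h6 l
        simp only [Pi.smul_apply, smul_eq_mul] at this
        exact h2.mul_left_cancel this
      have e4 : y = y' := by
        rw [e3] at e2
        exact add_left_cancel e2
      subst e3 e4
      rfl
  have h6 : Fintype.card (Σ y : Fin 4 → R, {z : Fin 4 → R // jv b y 0 ⬝ᵥ z = 0 ∧
      jv b y 1 ⬝ᵥ z = 0}) = (p ^ j) ^ 2 *
        Nat.card {z : (Fin 2 → R) × (Fin 4 → R) // z.1 0 • jv b z.2 0 + z.1 1 • jv b z.2 1 = 0} := by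
    rw [Fintype.card_sigma]
    have h7 : ∀ y : Fin 4 → R, Fintype.card {z : Fin 4 → R // jv b y 0 ⬝ᵥ z = 0 ∧
        jv b y 1 ⬝ᵥ z = 0} = (p ^ j) ^ 2 *
          Fintype.card {μ : Fin 2 → R // μ 0 • jv b y 0 + μ 1 • jv b y 1 = 0} := by
      intro y
      have := hDUA (p ^ j) (jv b y 0) (jv b y 1)
      rw [Nat.card_eq_fintype_card, Nat.card_eq_fintype_card] at this
      exact this
    rw [Finset.sum_congr rfl fun y _ => h7 y, ← Finset.mul_sum, ← Fintype.card_sigma,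
      Nat.card_eq_fintype_card]
    congr 1
    refine Fintype.card_congr
      { toFun := fun s => ⟨(s.2.1, s.1), s.2.2⟩
        invFun := fun z => ⟨z.1.2, ⟨z.1.1, z.2⟩⟩
        left_inv := fun s => rfl
        right_inv := fun z => rfl }
  rw [Nat.card_eq_fintype_card]
  calc Fintype.card {z : (Fin 4 → R) × (Fin 4 → R) // qv b z.1 = (lam : R) • qv b z.2} * p ^ 2
      ≤ ((p ^ j) ^ 2 * Nat.card {z : (Fin 2 → R) × (Fin 4 → R) //
          z.1 0 • jv b z.2 0 + z.1 1 • jv b z.2 1 = 0}) * p ^ 2 :=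
        Nat.mul_le_mul_right _ ((h1.trans h5).trans h6.le)
    _ = (p ^ j) ^ 2 * (Nat.card {z : (Fin 2 → R) × (Fin 4 → R) //
          z.1 0 • jv b z.2 0 + z.1 1 • jv b z.2 1 = 0} * p ^ 2) := by ring
    _ ≤ (p ^ j) ^ 2 * (p ^ (4 * j) * (p ^ 2 + 10)) := Nat.mul_le_mul_left _ hA
    _ = p ^ (6 * j) * (p ^ 2 + 10) := by ring

end Pool.GLU
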