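import Mathlib

/-!
# MP_9fb703_nt, THEOREM GLUE (helper29): definitions

`q = (q₀, q₁)` a pair of integral quadratic forms in 4 variables, `φ` a pair of integral binary
quadratic forms, `X_M : q(x) = M φ(w)` in `P⁵` for `M ∈ M₂(ℤ)`.
-/

set_option autoImplicit false

namespace Pool.GLU

open Matrix Polynomial

/-- the pair of quadratic forms `xᵀ (b i) x` of two integer matrices (not necessarily symmetric),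
over any commutative ring -/
def qv {n : ℕ} (b : Fin 2 → Matrix (Fin n) (Fin n) ℤ) {R : Type} [CommRing R] (x : Fin n → R) :
    Fin 2 → R :=
  fun i => x ⬝ᵥ ((b i).map (Int.cast : ℤ → R) *ᵥ x)

/-- the two gradients: `jv b x i = (b i + (b i)ᵀ) x`; `qv b (x + h) i = qv b x i +
jv b x i ⬝ᵥ h + qv b h i` -/
def jv {n : ℕ} (b : Fin 2 → Matrix (Fin n) (Fin n) ℤ) {R : Type} [CommRing R] (x : Fin n → R) :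
    Fin 2 → Fin n → R :=
  fun i => (b i + (b i)ᵀ).map (Int.cast : ℤ → R) *ᵥ x

/-- the `2 × 2` minors of the Jacobian -/
def mnr {n : ℕ} (b : Fin 2 → Matrix (Fin n) (Fin n) ℤ) {R : Type} [CommRing R] (x : Fin n → R)
    (k l : Fin n) : R :=
  jv b x 0 k * jv b x 1 l - jv b x 0 l * jv b x 1 k

/-- `(x, w)` lies on (the cone over) `X_M` -/
def Zer (b : Fin 2 → Matrix (Fin 4) (Fin 4) ℤ) (c : Fin 2 → Matrix (Fin 2) (Fin 2) ℤ)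
    {R : Type} [CommRing R] (M : Matrix (Fin 2) (Fin 2) R) (x : Fin 4 → R) (w : Fin 2 → R) : Prop :=
  qv b x = M *ᵥ qv c w

/-- the curve `q = 0` in `P³` is smooth -/
def Smo (b : Fin 2 → Matrix (Fin 4) (Fin 4) ℤ) : Prop :=
  ∀ x : Fin 4 → ℂ, x ≠ 0 → qv b x = 0 → LinearIndependent ℂ (jv b x)

/-- the two binary forms have no common zero -/
def Cop (c : Fin 2 → Matrix (Fin 2) (Fin 2) ℤ) : Prop :=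
  ∀ w : Fin 2 → ℂ, w ≠ 0 → qv c w ≠ 0

/-- `det (X S₀ + S₁)`, `S i = b i + (b i)ᵀ` -/
noncomputable def fpol (b : Fin 2 → Matrix (Fin 4) (Fin 4) ℤ) : ℤ[X] :=
  ((X : ℤ[X]) • (b 0 + (b 0)ᵀ).map (C : ℤ → ℤ[X]) + (b 1 + (b 1)ᵀ).map (C : ℤ → ℤ[X])).det

/-- normalized pairs: `S₀` is invertible and `det (X S₀ + S₁)` has four distinct roots -/
structure Nice (b : Fin 2 → Matrix (Fin 4) (Fin 4) ℤ) : Prop where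
  det0 : (b 0 + (b 0)ᵀ).det ≠ 0
  sep : ((fpol b).map (Int.castRingHom ℚ)).Separable

/-- the resultant of the two binary forms -/
def res (c : Fin 2 → Matrix (Fin 2) (Fin 2) ℤ) : ℤ :=
  (c 0 0 0 * c 1 1 1 - c 1 0 0 * c 0 1 1) ^ 2 -
    (c 0 0 0 * (c 1 0 1 + c 1 1 0) - c 1 0 0 * (c 0 0 1 + c 0 1 0)) *
      ((c 0 0 1 + c 0 1 0) * c 1 1 1 - (c 1 0 1 + c 1 1 0) * c 0 1 1)

/-- `Θ = adj(S₀) S₁` -/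
def Th (b : Fin 2 → Matrix (Fin 4) (Fin 4) ℤ) : Matrix (Fin 4) (Fin 4) ℤ :=
  (b 0 + (b 0)ᵀ).adjugate * (b 1 + (b 1)ᵀ)

/-- the matrices `X_j = - M_0j Θ + M_1j det(S₀)` -/
def Xm (b : Fin 2 → Matrix (Fin 4) (Fin 4) ℤ) {R : Type} [CommRing R]
    (M : Matrix (Fin 2) (Fin 2) R) (j : Fin 2) : Matrix (Fin 4) (Fin 4) R :=
  (M 1 j * ((b 0 + (b 0)ᵀ).det : R)) • (1 : Matrix (Fin 4) (Fin 4) R) -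
    M 0 j • (Th b).map (Int.cast : ℤ → R)

/-- `Δ(M) = det M · det (disc (X_0 φ_0 + X_1 φ_1))` -/
def Dl (b : Fin 2 → Matrix (Fin 4) (Fin 4) ℤ) (c : Fin 2 → Matrix (Fin 2) (Fin 2) ℤ)
    {R : Type} [CommRing R] (M : Matrix (Fin 2) (Fin 2) R) : R :=
  M.det * ((((c 0 0 1 + c 0 1 0 : ℤ) : R) • Xm b M 0 + ((c 1 0 1 + c 1 1 0 : ℤ) : R) • Xm b M 1) ^ 2
    - (4 : R) • ((((c 0 0 0 : ℤ) : R) • Xm b M 0 + ((c 1 0 0 : ℤ) : R) • Xm b M 1) *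
      (((c 0 1 1 : ℤ) : R) • Xm b M 0 + ((c 1 1 1 : ℤ) : R) • Xm b M 1))).det

/-- eigenvectors of the pencil -/
def Eig (b : Fin 2 → Matrix (Fin 4) (Fin 4) ℤ) {R : Type} [CommRing R] (e : Fin 4 → R) : Prop :=
  ∃ μ : Fin 2 → R, μ ≠ 0 ∧ μ 0 • jv b e 0 + μ 1 • jv b e 1 = 0

/-- generic real points -/
def GenR (b : Fin 2 → Matrix (Fin 4) (Fin 4) ℤ) (x : Fin 4 → ℝ) : Prop :=
  LinearIndependent ℝ (jv b x) ∧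
    ∀ e : Fin 4 → ℝ, e ≠ 0 → Eig b e → ∃ i, jv b e i ⬝ᵥ x ≠ 0

/-- quantitative form (`κ > 0`) for a pair `(x, w)` -/
def GenQ (b : Fin 2 → Matrix (Fin 4) (Fin 4) ℤ) (c : Fin 2 → Matrix (Fin 2) (Fin 2) ℤ) (κ : ℝ)
    (x : Fin 4 → ℝ) (w : Fin 2 → ℝ) : Prop :=
  (∃ k l, κ ≤ |mnr b x k l|) ∧ κ ≤ ‖qv c w‖ ∧
    ∀ e : Fin 4 → ℝ, ‖e‖ = 1 → Eig b e → ∃ i, κ ≤ |jv b e i ⬝ᵥ x|

/-- regularity of `x₀` at the primes dividing `V'`: `m ℤ² ⊆ J(x₀) ℤ⁴ + m p ℤ²` -/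
def Reg (b : Fin 2 → Matrix (Fin 4) (Fin 4) ℤ) (m V' : ℕ) (x₀ : Fin 4 → ℤ) : Prop :=
  ∀ p : ℕ, p.Prime → p ∣ V' → ∀ ρ : Fin 2 → ℤ, ∃ z : Fin 4 → ℤ,
    ∀ i, ((m * p : ℕ) : ℤ) ∣ jv b x₀ i ⬝ᵥ z - m * ρ i

/-- `κ = #{x mod W : x ≡ x₀ mod V, q(x) ≡ q(x₀) mod W}`, `V = m V'`, `W = m² V'` -/
noncomputable def kap (b : Fin 2 → Matrix (Fin 4) (Fin 4) ℤ) (m V' : ℕ) (x₀ : Fin 4 → ℤ) : ℕ :=
  Set.ncard {x : Fin 4 → ℤ | (∀ j, 0 ≤ x j ∧ x j < ((m ^ 2 * V' : ℕ) : ℤ)) ∧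
    (∀ j, ((m * V' : ℕ) : ℤ) ∣ x j - x₀ j) ∧ ∀ i, ((m ^ 2 * V' : ℕ) : ℤ) ∣ qv b x i - qv b x₀ i}

/-- local data at the primes `≤ P₀`: `V = m V'`, `W = m² V'` -/
structure LD (b : Fin 2 → Matrix (Fin 4) (Fin 4) ℤ) (c : Fin 2 → Matrix (Fin 2) (Fin 2) ℤ)
    (P₀ m V' : ℕ) (M₀ : Matrix (Fin 2) (Fin 2) ℤ) (x₀ : Fin 4 → ℤ) (w₀ : Fin 2 → ℤ) : Prop where
  m0 : 0 < m
  V0 : 0 < V'
  small : ∀ p : ℕ, p.Prime → p ≤ P₀ → p ∣ V'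
  only : ∀ p : ℕ, p.Prime → p ∣ m * V' → p ≤ P₀
  reg : Reg b m V' x₀
  zer : ∀ i, ((m ^ 2 * V' : ℕ) : ℤ) ∣ qv b x₀ i - (M₀ *ᵥ qv c w₀) i
  con : ∀ p : ℕ, p.Prime → p ≤ P₀ →
    ∃ i, ¬ ((p ^ (m ^ 2 * V').factorization p : ℕ) : ℤ) ∣ qv c w₀ i
  prim : ∀ p : ℕ, p.Prime → p ≤ P₀ → (∃ j, ¬ (p : ℤ) ∣ x₀ j) ∨ ∃ j, ¬ (p : ℤ) ∣ w₀ j

/-- admissible `w` -/
def Adm (P₀ W : ℕ) (w₀ w : Fin 2 → ℤ) : Prop :=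
  (∀ j, (W : ℤ) ∣ w j - w₀ j) ∧ ∀ p : ℕ, p.Prime → P₀ < p → ¬ ((p : ℤ) ∣ w 0 ∧ (p : ℤ) ∣ w 1)

/-- `φ(w) ∧ φ(w')` -/
def wdg (c : Fin 2 → Matrix (Fin 2) (Fin 2) ℤ) (w w' : Fin 2 → ℤ) : ℤ :=
  qv c w 0 * qv c w' 1 - qv c w 1 * qv c w' 0

/-- real vector of an integer vector, divided by `t` -/
noncomputable def sc {n : ℕ} (t : ℝ) (x : Fin n → ℤ) : Fin n → ℝ := fun j => (x j : ℝ) / t

/-- a chart of `q` near `ξ`: density of `q` at most `s₁` on the compact set `D`, at least `s₀` on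
the open set `D'`, near `q(ξ)` -/
structure Cht (b : Fin 2 → Matrix (Fin 4) (Fin 4) ℤ) (ξ : Fin 4 → ℝ) (D D' : Set (Fin 4 → ℝ))
    (s₀ s₁ r : ℝ) : Prop where
  cD : IsCompact D
  oD : IsOpen D'
  sub : D' ⊆ D
  s0 : 0 < s₀
  s1 : s₀ ≤ s₁
  r0 : 0 < r
  up : ∀ S : Set (Fin 2 → ℝ), MeasurableSet S →
    MeasureTheory.volume (D ∩ {x | qv b x ∈ S}) ≤ ENNReal.ofReal s₁ * MeasureTheory.volume S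
  lo : ∀ S : Set (Fin 2 → ℝ), MeasurableSet S → S ⊆ Metric.ball (qv b ξ) r →
    ENNReal.ofReal s₀ * MeasureTheory.volume S ≤ MeasureTheory.volume (D' ∩ {x | qv b x ∈ S})

/-- the integral points `x` of the class, with `x / (U B) ∈ D` -/
def Rw (b : Fin 2 → Matrix (Fin 4) (Fin 4) ℤ) (c : Fin 2 → Matrix (Fin 2) (Fin 2) ℤ) (V : ℕ)
    (x₀ : Fin 4 → ℤ) (D : Set (Fin 4 → ℝ)) (t : ℝ) (w : Fin 2 → ℤ)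
    (M : Matrix (Fin 2) (Fin 2) ℤ) : Set (Fin 4 → ℤ) :=
  {x | (∀ j, (V : ℤ) ∣ x j - x₀ j) ∧ sc t x ∈ D ∧ Zer b c M x w}

/-- the matrices of a cell: `M ≡ M₀ mod W`, `M / B²` in the cube of corner `α` and side `θ` -/
def CB (α : Matrix (Fin 2) (Fin 2) ℝ) (θ : ℝ) (W : ℕ) (M₀ : Matrix (Fin 2) (Fin 2) ℤ) (B : ℕ) :
    Set (Matrix (Fin 2) (Fin 2) ℤ) :=
  {M | (∀ i j, (W : ℤ) ∣ M i j - M₀ i j) ∧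
    ∀ i j, α i j * (B : ℝ) ^ 2 ≤ M i j ∧ (M i j : ℝ) ≤ (α i j + θ) * (B : ℝ) ^ 2}

/-- at least `L` good zeros of `X_M` for the real data `(ξ, ω)`, precision `ν` -/
def Sol (b : Fin 2 → Matrix (Fin 4) (Fin 4) ℤ) (c : Fin 2 → Matrix (Fin 2) (Fin 2) ℤ)
    (V W : ℕ) (x₀ : Fin 4 → ℤ) (w₀ : Fin 2 → ℤ) (ξ : Fin 4 → ℝ) (ω : Fin 2 → ℝ) (ν : ℝ)
    (L U B : ℕ) (M : Matrix (Fin 2) (Fin 2) ℤ) : Prop :=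
  ∃ S : Finset ((Fin 4 → ℤ) × (Fin 2 → ℤ)), L ≤ S.card ∧ ∀ z ∈ S,
    Zer b c M z.1 z.2 ∧ (∀ j, (V : ℤ) ∣ z.1 j - x₀ j) ∧ (∀ j, (W : ℤ) ∣ z.2 j - w₀ j) ∧
    z.2 ≠ 0 ∧ (∀ j, |z.2 j| ≤ U) ∧ (∀ d : ℤ, (∀ j, d ∣ z.1 j) → (∀ j, d ∣ z.2 j) → IsUnit d) ∧
    ∃ t : ℝ, 0 < t ∧ (∀ j, |(z.1 j : ℝ) - t * B * ξ j| ≤ t * B * ν) ∧
      ∀ j, |(z.2 j : ℝ) - t * ω j| ≤ t * ν

end Pool.GLU
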