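import Pool.Agent.Work.MP_9fb703_gl.Interface2

/-! # MP_9fb703_nt, THEOREM GLUE: the final statement -/

set_option autoImplicit false

namespace Pool.GLU

open Matrix

theorem main_smooth (hPEN : Stmt_PEN) (hRES : Stmt_RES) (hASM : Stmt_ASM) (hRED : Stmt_RED)
    (b : Fin 2 → Matrix (Fin 4) (Fin 4) ℤ) (c : Fin 2 → Matrix (Fin 2) (Fin 2) ℤ) (hb : Smo b)
    (hc : Cop c) : Main b c := by
  obtain ⟨k, hk⟩ := hPEN b hb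
  exact hRED b c k (hASM _ c hk (hRES c hc))

/-- the hand-in -/
theorem main (hPEN : Stmt_PEN) (hRES : Stmt_RES) (hASM : Stmt_ASM) (hRED : Stmt_RED) :
    ∀ (q : Fin 2 → Matrix (Fin 4) (Fin 4) ℤ) (φ : Fin 2 → Matrix (Fin 2) (Fin 2) ℤ) (N L : ℕ)
      (ε : ℝ), 1 ≤ N → 0 < ε →
      (∀ x : Fin 4 → ℂ, x ≠ 0 → (∀ i, x ⬝ᵥ ((q i).map (Int.cast : ℤ → ℂ) *ᵥ x) = 0) →
        LinearIndependent ℂ fun i => (q i + (q i)ᵀ).map (Int.cast : ℤ → ℂ) *ᵥ x) →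
      (∀ w : Fin 2 → ℂ, w ≠ 0 → ∃ i, w ⬝ᵥ ((φ i).map (Int.cast : ℤ → ℂ) *ᵥ w) ≠ 0) →
      ∃ P U A₀ : ℕ, N ≤ P ∧ ∀ A : ℕ, A₀ ≤ A →
      (Set.ncard {M : Matrix (Fin 2) (Fin 2) ℤ | (∀ i j, |M i j| ≤ A) ∧
        ¬ ∀ (y : Fin 4 → ℝ) (v : Fin 2 → ℝ) (x : (p : ℕ) → [Fact p.Prime] → Fin 4 → ℤ_[p])
            (w : (p : ℕ) → [Fact p.Prime] → Fin 2 → ℤ_[p]),
          ((y ≠ 0 ∨ v ≠ 0) ∧ ∀ i, y ⬝ᵥ ((q i).map (Int.cast : ℤ → ℝ) *ᵥ y) =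
            ∑ j, (M i j : ℝ) * (v ⬝ᵥ ((φ j).map (Int.cast : ℤ → ℝ) *ᵥ v))) →
          (∀ (p : ℕ) [Fact p.Prime], p ≤ P → ((∃ j, ‖x p j‖ = 1) ∨ ∃ j, ‖w p j‖ = 1) ∧
            ∀ i, x p ⬝ᵥ ((q i).map (Int.cast : ℤ → ℤ_[p]) *ᵥ x p) =
              ∑ j, (M i j : ℤ_[p]) * (w p ⬝ᵥ ((φ j).map (Int.cast : ℤ → ℤ_[p]) *ᵥ w p))) →
          ∃ S : Finset ((Fin 4 → ℤ) × (Fin 2 → ℤ)), L ≤ S.card ∧ ∀ z ∈ S,
            (∀ i, z.1 ⬝ᵥ (q i *ᵥ z.1) = ∑ j, M i j * (z.2 ⬝ᵥ (φ j *ᵥ z.2))) ∧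
            z.2 ≠ 0 ∧ (∀ j, |z.2 j| ≤ U) ∧
            (∀ d : ℤ, (∀ j, d ∣ z.1 j) → (∀ j, d ∣ z.2 j) → IsUnit d) ∧
            (∃ t : ℝ, 0 < t ∧
              (∀ j, |t * z.1 j - y j| ≤ 1 / N * max ‖y‖ (Real.sqrt A * ‖v‖)) ∧
              ∀ j, Real.sqrt A * |t * z.2 j - v j| ≤ 1 / N * max ‖y‖ (Real.sqrt A * ‖v‖)) ∧
            ∀ (p : ℕ) [Fact p.Prime], p ≤ N →
              (∀ j, ‖((z.1 j : ℤ) : ℤ_[p]) - x p j‖ ≤ (p : ℝ) ^ (-(N : ℤ))) ∧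
              ∀ j, ‖((z.2 j : ℤ) : ℤ_[p]) - w p j‖ ≤ (p : ℝ) ^ (-(N : ℤ))} : ℝ) ≤
        ε * (2 * (A : ℝ) + 1) ^ 4 := by
  intro q φ N L ε hN hε hq hφ
  have hb : Smo q := fun x hx h0 => hq x hx fun i => congrFun h0 i
  have hc : Cop φ := by
    intro w hw h0
    obtain ⟨i, hi⟩ := hφ w hw
    exact hi (congrFun h0 i)
  obtain ⟨P, U, A₀, hNP, hA⟩ := main_smooth hPEN hRES hASM hRED q φ hb hc N L ε hN hε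
  refine ⟨P, U, A₀, hNP, fun A hAA => ?_⟩
  refine le_trans ?_ (hA A hAA)
  have hfin : Set.Finite {M : Matrix (Fin 2) (Fin 2) ℤ | (∀ i j, |M i j| ≤ (A : ℤ)) ∧
      ¬ Gd q φ N L P U A M} := by
    have h1 : Set.Finite {M : Matrix (Fin 2) (Fin 2) ℤ | ∀ i j, |M i j| ≤ (A : ℤ)} := by
      have h2 : {M : Matrix (Fin 2) (Fin 2) ℤ | ∀ i j, |M i j| ≤ (A : ℤ)} ⊆
          Set.pi Set.univ (fun _ : Fin 2 => Set.pi Set.univ fun _ : Fin 2 =>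
            Set.Icc (-(A : ℤ)) A) := by
        intro M hM i _ j _
        exact abs_le.1 (hM i j)
      exact (Set.Finite.pi fun _ => Set.Finite.pi fun _ => Set.finite_Icc _ _).subset h2
    exact h1.subset fun M hM => hM.1
  refine Nat.cast_le.2 (Set.ncard_le_ncard ?_ hfin)
  rintro M ⟨hM, hG⟩
  refine ⟨hM, fun hgd => hG ?_⟩
  intro y v x w hyv hxw
  have hz1 : Zer q φ (M.map (Int.cast : ℤ → ℝ)) y v := by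
    funext i
    have := hyv.2 i
    rw [qv, this]
    rfl
  have hz2 : ∀ (p : ℕ) [Fact p.Prime], p ≤ P → ((∃ j, ‖x p j‖ = 1) ∨ ∃ j, ‖w p j‖ = 1) ∧
      Zer q φ (M.map (Int.cast : ℤ → ℤ_[p])) (x p) (w p) := by
    intro p _ hp
    refine ⟨(hxw p hp).1, ?_⟩
    funext i
    have := (hxw p hp).2 i
    rw [qv, this]
    rfl
  obtain ⟨S, hS, hz⟩ := hgd y v x w hyv.1 hz1 hz2
  refine ⟨S, hS, fun z hzS => ?_⟩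
  obtain ⟨h1, h2⟩ := hz z hzS
  refine ⟨fun i => ?_, h2⟩
  have h3 := congrFun h1 i
  have e1 : ∀ (n : ℕ) (B : Matrix (Fin n) (Fin n) ℤ), B.map (Int.cast : ℤ → ℤ) = B := by
    intro n B
    ext i j
    simp
  simp only [qv, e1] at h3
  rw [h3]
  rfl

end Pool.GLU
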