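import Pool.Agent.Work.MP_9fb703_gl.Defs

/-!
# MP_9fb703_nt, THEOREM GLUE: statements with complete proofs (helper29)

Paper proof: note 3291.  One block = one file `B_XXX.lean` (namespace `Pool.GLU`) proving
`theorem p_XXX (hYYY : Stmt_YYY) .. : Stmt_XXX` with exactly the hypotheses named uses (in that
order); auxiliary lemmas with the prefix `XXX_`.  Norms are sup norms (`Fin n → ℝ`).
Notation: `S i = b i + (b i)ᵀ`, `q = qv b`, `J = jv b`, `φ = qv c`; `q(x+h) i = q(x) i + J(x) i ⬝ h +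
q(h) i`; `B i (y,z) = J(y) i ⬝ z` is symmetric in `y, z`, and `B(x - x', x + x') = 2 (q(x) - q(x'))`.
-/

set_option autoImplicit false

namespace Pool.GLU

open Matrix Polynomial MeasureTheory

/-! ### A. Algebra -/

/-- PEN (150 lines; uses nothing). Smooth pencils are nice after a shear.  (a) some `k` has
`det (S₀ + k S₁) ≠ 0`: let `N(t) = S₀ + t S₁` over ℂ, suppose `det N(t) = 0` for all `t`.  If
`adj N(t) ≠ 0` for some `t`: derivative `0 = tr (adj N(t) S₁)`; `adj N(t) = a h hᵀ` with `a ≠ 0`,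
`N(t) h = 0` (columns of the adjugate are in the kernel, which is a line as `adj ≠ 0`; symmetric),
so `hᵀ S₁ h = 0`, `q₁(h) = 0`, `hᵀ N h = 0` gives `q₀(h) = 0`, and `J(h)₀ + t J(h)₁ = 0`: not smooth.
If `adj N(0) = 0`: `dim ker N(0) ≥ 2`, the form `q₁` has a zero `h ≠ 0` on the kernel (two
dimensional subspace over ℂ), again `q(h) = 0`, `J(h)₀ = 0`.  (b) `f = det (X S₀' + S₁)` separable
(`S₀' = S₀ + k S₁`): a double complex root `λ`, `N = λ S₀' + S₁`, `f'(λ) = tr (adj N S₀') = 0`;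
the same two cases. (`Smo` is invariant under the shear.) -/
def Stmt_PEN : Prop :=
  ∀ b : Fin 2 → Matrix (Fin 4) (Fin 4) ℤ, Smo b →
    ∃ k : ℤ, Nice (fun i => if i = 0 then b 0 + k • b 1 else b 1)

/-- RES (80 lines; uses nothing). `φ_j(u,v) = a_j u² + b_j u v + c_j v²`.  If `res = 0` there is a
common zero: e.g. the Sylvester matrix is singular; or by hand: if `a₀ = a₁ = 0` take `(1,0)`;
otherwise, after exchanging, `a₀ ≠ 0`, the two roots `u₁, u₂` of `φ_0(u,1)` satisfy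
`a₀² φ_1(u₁,1) φ_1(u₂,1) = res` (identity after `u₁ + u₂ = -b₀/a₀`, `u₁u₂ = c₀/a₀`). -/
def Stmt_RES : Prop :=
  ∀ c : Fin 2 → Matrix (Fin 2) (Fin 2) ℤ, Cop c → res c ≠ 0

/-- COI (60 lines; uses nothing). Bezout: `res · u³` and `res · v³` are combinations of `φ_0(u,v)`,
`φ_1(u,v)` with coefficients linear forms in `(u,v)` (adjugate of the Sylvester matrix; four explicit
linear forms, `ring`).  So for a field `K` with `res ≠ 0` in `K`: `w ≠ 0 → φ(w) ≠ 0`, and a prime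
`p ∤ res` dividing both `φ_j(w)` divides `w`. -/
def Stmt_COI : Prop :=
  ∀ c : Fin 2 → Matrix (Fin 2) (Fin 2) ℤ,
    (∀ (K : Type) [Field K] (w : Fin 2 → K), ((res c : ℤ) : K) ≠ 0 → w ≠ 0 → qv c w ≠ 0) ∧
    ∀ (p : ℕ) (w : Fin 2 → ℤ), p.Prime → ¬ (p : ℤ) ∣ res c → (∀ i, (p : ℤ) ∣ qv c w i) →
      ∀ j, (p : ℤ) ∣ w j

/-- SIM (150 lines; uses nothing). Simple eigenvalues, in characteristic `0` and large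
characteristic.  `a f + a' f' = D` with `a, a' ∈ ℤ[X]`, `D ≠ 0` (separable over ℚ, clear
denominators); `P > |D|, |det S₀|`, `P ≥ 3`.  `N = μ₀ S₀ + μ₁ S₁` singular (`N x = 0`), `μ₁ ≠ 0` as
`det S₀ ≠ 0` in `K`; scale `μ₁ = 1`: `f(μ₀) = 0`, so `f'(μ₀) = tr (adj N S₀) ≠ 0`, `adj N ≠ 0`, so the
kernel of `N` is a line (`K x`), the columns of the symmetric matrix `adj N` are multiples of `x`,
`adj N = a x xᵀ`, and `0 ≠ a xᵀ S₀ x = 2 a q₀(x)`. -/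
def Stmt_SIM : Prop :=
  ∀ b : Fin 2 → Matrix (Fin 4) (Fin 4) ℤ, Nice b → ∃ P : ℕ, ∀ (K : Type) [Field K],
    (ringChar K = 0 ∨ P ≤ ringChar K) → ∀ (μ : Fin 2 → K) (x : Fin 4 → K), μ ≠ 0 → x ≠ 0 →
      μ 0 • jv b x 0 + μ 1 • jv b x 1 = 0 →
      qv b x ≠ 0 ∧ ∀ x' : Fin 4 → K, μ 0 • jv b x' 0 + μ 1 • jv b x' 1 = 0 → ∃ t : K, x' = t • x

/-- DNZ (150 lines; uses nothing). `Δ` is a nonzero polynomial: `Δ` is the value of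
`F = Dl b c (matrix of the variables)` (all operations commute with `aeval`; `map_det`).  `F ≠ 0`:
`δ(z) = (z₀b₀+z₁b₁)² - 4 (z₀a₀+z₁a₁)(z₀c₀+z₁c₁)` is not the zero form (otherwise
`b₀²=4a₀c₀, b₁²=4a₁c₁, b₀b₁=2(a₀c₁+a₁c₀)` and `res = 0` by algebra), so `δ(z*) ≠ 0` for some integral
`z* ≠ 0`; choose `z'` with `z' ∧ z* ≠ 0`; `M` with rows `z'` and `K z*`: `X_j = K det(S₀) z*_j - z'_j Θ`,
the second determinant divided by `K^8` tends to `(det(S₀)² δ(z*))⁴ ≠ 0` as `K → ∞` (or: it is a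
polynomial in `K` with this coefficient of `K^8`), `det M ≠ 0`. -/
def Stmt_DNZ : Prop :=
  ∀ (b : Fin 2 → Matrix (Fin 4) (Fin 4) ℤ) (c : Fin 2 → Matrix (Fin 2) (Fin 2) ℤ), Nice b →
    res c ≠ 0 → ∃ F : MvPolynomial (Fin 2 × Fin 2) ℤ, F ≠ 0 ∧
      ∀ (R : Type) [CommRing R] (M : Matrix (Fin 2) (Fin 2) R),
        MvPolynomial.aeval (fun z : Fin 2 × Fin 2 => M z.1 z.2) F = Dl b c M

/-! ### B. Counting modulo prime powers -/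

/-- CN1 (120 lines; uses SIM). `p ≥ P`: eigenpairs `(μ,x)`, `μ ≠ 0`, `x ≠ 0` over `ZMod p`: `μ₁ ≠ 0`,
`μ₀/μ₁` is one of the at most 4 roots of `f mod p` (leading coefficient `det S₀ ≠ 0 mod p`), for each
`μ` (at most `4 (p-1)` of them) the kernel is a line: at most `p - 1` vectors `x`. -/
def Stmt_CN1 : Prop :=
  ∀ b : Fin 2 → Matrix (Fin 4) (Fin 4) ℤ, Nice b → ∃ P : ℕ, ∀ p : ℕ, p.Prime → P ≤ p →
    Nat.card {z : (Fin 2 → ZMod p) × (Fin 4 → ZMod p) // z.1 ≠ 0 ∧ z.2 ≠ 0 ∧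
      z.1 0 • jv b z.2 0 + z.1 1 • jv b z.2 1 = 0} ≤ 4 * p ^ 2

/-- LFT (250 lines; uses CN1 SIM). Primitive eigenpairs modulo `p ^ j`, `j ≥ 1`: induction, each one
modulo `p ^ j` has at most (exactly) `p²` lifts modulo `p ^ (j+1)`: a lift is `(μ,x) + p^j (σ,η)` with
`(σ,η) ∈ (ZMod p)² × (ZMod p)⁴` and the condition is an inhomogeneous linear system with the
linear map `(σ,η) ↦ σ₀ J(x)₀ + σ₁ J(x)₁ + (μ₀ S₀ + μ₁ S₁) η`, `(ZMod p)⁶ → (ZMod p)⁴`, which is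
surjective: the image of `N = μ₀ S₀ + μ₁ S₁` is `x^⊥` (symmetric of rank 3, kernel the line of `x` by
SIM) and `x · J(x)_i = 2 q(x)_i` is not zero for some `i` (SIM, `p` odd).  So at most one coset of a
subspace of dimension 2. -/
def Stmt_LFT : Prop :=
  ∀ b : Fin 2 → Matrix (Fin 4) (Fin 4) ℤ, Nice b → ∃ P : ℕ, ∀ p : ℕ, p.Prime → P ≤ p →
    ∀ j : ℕ, 1 ≤ j → Nat.card {z : (Fin 2 → ZMod (p ^ j)) × (Fin 4 → ZMod (p ^ j)) //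
      (∃ i, IsUnit (z.1 i)) ∧ (∃ i, IsUnit (z.2 i)) ∧
      z.1 0 • jv b z.2 0 + z.1 1 • jv b z.2 1 = 0} ≤ 4 * p ^ (2 * j)

/-- ACN (200 lines; uses LFT). All pairs.  `A_j` = all pairs, `P_j` = pairs with `μ` primitive,
`A*_j` = both primitive (`≤ 4 p^(2j)`).  `P_j ≤ A*_j + p² P_(j-1)` (`x = p x'`, `x'` modulo
`p^(j-1)`; the condition and primitivity of `μ` only depend on `μ` modulo `p^(j-1)`, which has `p²`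
lifts; `P_0 = 1`, for `j = 1` it is `≤ 4p² + p²`), so `P_j ≤ (1 + 4j) p^(2j)`;
`A_j ≤ P_j + p⁴ A_(j-1)` (`μ = p μ'`, `x` has `p⁴` lifts), `A_0 = 1`, so
`A_j ≤ p^(4j) (1 + Σ_(i≥1) (1+4i) p^(-2i)) ≤ p^(4j) (1 + 10/p²)` for `p` large. -/
def Stmt_ACN : Prop :=
  ∀ b : Fin 2 → Matrix (Fin 4) (Fin 4) ℤ, Nice b → ∃ P : ℕ, ∀ p : ℕ, p.Prime → P ≤ p →
    ∀ j : ℕ, Nat.card {z : (Fin 2 → ZMod (p ^ j)) × (Fin 4 → ZMod (p ^ j)) //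
      z.1 0 • jv b z.2 0 + z.1 1 • jv b z.2 1 = 0} * p ^ 2 ≤ p ^ (4 * j) * (p ^ 2 + 10)

/-- DUA (100 lines; uses nothing). `#{z : u·z = v·z = 0} = n^(4-2) #{μ : μ₀ u + μ₁ v = 0}`:
orthogonality of the additive characters of `ZMod n` (`AddChar`, primitive `ZMod.stdAddChar`):
`n² 1[u·z = v·z = 0] = Σ_μ ψ(μ₀ u·z + μ₁ v·z)`, sum over `z` first. (Or: kernel and image of a
homomorphism and of its transpose.) -/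
def Stmt_DUA : Prop :=
  ∀ (n : ℕ) [NeZero n] (u v : Fin 4 → ZMod n),
    Nat.card {z : Fin 4 → ZMod n // u ⬝ᵥ z = 0 ∧ v ⬝ᵥ z = 0} =
      n ^ 2 * Nat.card {μ : Fin 2 → ZMod n // μ 0 • u + μ 1 • v = 0}

/-- PAI (150 lines; uses ACN DUA). `#{q(x) = λ q(x')} = Σ_ρ r(λ ρ) r(ρ) ≤ Σ r(ρ)² =
#{q(x) = q(x')}` (Cauchy-Schwarz, `ρ ↦ λρ` is a bijection); `(x,x') ↦ (x-x', x+x')` is a bijection
(`p` odd) and `q(x) - q(x') = ½ B(y,z)`, so it is `Σ_y #{z : J(y)₀·z = J(y)₁·z = 0}` (`J(y)·z`),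
`= p^(2j) A_j` by DUA. -/
def Stmt_PAI : Prop :=
  ∀ b : Fin 2 → Matrix (Fin 4) (Fin 4) ℤ, Nice b → ∃ P : ℕ, ∀ p : ℕ, p.Prime → P ≤ p →
    ∀ (j : ℕ) (lam : (ZMod (p ^ j))ˣ),
      Nat.card {z : (Fin 4 → ZMod (p ^ j)) × (Fin 4 → ZMod (p ^ j)) //
        qv b z.1 = (lam : ZMod (p ^ j)) • qv b z.2} * p ^ 2 ≤ p ^ (6 * j) * (p ^ 2 + 10)

/-- HEN (200 lines; uses nothing). Equidistribution.  `W = m² V'`, `V = m V'`.  Induction over the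
prime factors of `k`: `N_k(ρ)` = the count.  `k = 1`: the condition modulo `W` does not depend on
`ρ`, `N_1 = kap`.  `k → k p`, `p ∣ V'`: for `z` with `J(x₀)_i·z ≡ m ρ''_i mod m p` (Reg) the
translation `x ↦ x + V k z` (modulo `W k p`) preserves the class of `x₀` mod `V` and changes `q(x)_i`
by `V k J(x)_i·z + V²k² q(z)_i ≡ V k m ρ''_i = W k ρ''_i` modulo `W k p` (`J(x) ≡ J(x₀) mod V`, and
`V² k = W k V' ≡ 0 mod W k p`), so `N_(kp)(ρ) = N_(kp)(ρ + k ρ'')`; summing over `ρ'' mod p`: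
`p² N_(kp)(ρ) = p⁴ N_k(ρ)`.  (Work with `x` modulo `Wk` i.e. the box `[0, Wk)⁴` of representatives.) -/
def Stmt_HEN : Prop :=
  ∀ (b : Fin 2 → Matrix (Fin 4) (Fin 4) ℤ) (m V' : ℕ) (x₀ : Fin 4 → ℤ), 0 < m → 0 < V' →
    Reg b m V' x₀ → ∀ k : ℕ, 0 < k → (∀ p : ℕ, p.Prime → p ∣ k → p ∣ V') → ∀ ρ : Fin 2 → ℤ,
      Set.ncard {x : Fin 4 → ℤ | (∀ j, 0 ≤ x j ∧ x j < ((m ^ 2 * V' * k : ℕ) : ℤ)) ∧
        (∀ j, ((m * V' : ℕ) : ℤ) ∣ x j - x₀ j) ∧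
        ∀ i, ((m ^ 2 * V' * k : ℕ) : ℤ) ∣ qv b x i - qv b x₀ i - ((m ^ 2 * V' : ℕ) : ℤ) * ρ i}
      = kap b m V' x₀ * k ^ 2

/-- RCF (100 lines; uses HEN COI). `G = gcd (φ(w))`: all its primes are `≤ P₀` (COI and Adm:
`p > P₀ ≥ |res|` does not divide `w`), hence divide `V'`.  HEN with `k = G`,
`ρ = (M₀ φ(w) - q(x₀)) / W` (integral: LD.zer and `w ≡ w₀ mod W`). -/
def Stmt_RCF : Prop :=
  ∀ (b : Fin 2 → Matrix (Fin 4) (Fin 4) ℤ) (c : Fin 2 → Matrix (Fin 2) (Fin 2) ℤ), res c ≠ 0 →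
    ∀ (P₀ m V' : ℕ) (M₀ : Matrix (Fin 2) (Fin 2) ℤ) (x₀ : Fin 4 → ℤ) (w₀ w : Fin 2 → ℤ),
      LD b c P₀ m V' M₀ x₀ w₀ → |res c| ≤ P₀ → Adm P₀ (m ^ 2 * V') w₀ w →
      ∀ G : ℕ, G = Int.gcd (qv c w 0) (qv c w 1) → 0 < G ∧
      Set.ncard {x : Fin 4 → ℤ | (∀ j, 0 ≤ x j ∧ x j < ((m ^ 2 * V' * G : ℕ) : ℤ)) ∧
        (∀ j, ((m * V' : ℕ) : ℤ) ∣ x j - x₀ j) ∧
        ∀ i, ((m ^ 2 * V' * G : ℕ) : ℤ) ∣ qv b x i - (M₀ *ᵥ qv c w) i}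
      = kap b m V' x₀ * G ^ 2

/-- RCT (300 lines; uses HEN PAI COI). The classes `(x, x')` modulo `W |d|`, `d = φ(w) ∧ φ(w')`.
`|d| = d₁ d₂`, the primes of `d₁` are `≤ P₀` (so they divide `V'`), `(d₂, W) = 1`, primes of `d₂` are
`> P₀`.  Chinese remainder theorem for `x mod W d₁ d₂`.  At `W d₁`: `q(x) = q(x₀) + W ρ`,
`q(x') = q(x₀) + W ρ'` modulo `W d₁`, each `(ρ,ρ')` modulo `d₁` has `kap² d₁⁴` pairs (HEN), and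
for each row `i` the pair `(ρ_i,ρ'_i)` modulo `d₁` lies in a coset (shift: `M₀`) of the image of
`ℤ² Φ`, `Φ = (φ(w), φ(w'))`, in `(ℤ/d₁)²`, of `d₁` elements (`ℤ²Φ` has index `|d|` in `ℤ²`), so
`kap² d₁⁴ · d₁²`.  At `p^j ∥ d₂`: `φ(w)`, `φ(w')` are primitive mod `p` (COI, Adm), `φ(w) ≡ λ φ(w')`
mod `p^j` with a unit `λ`, so `q(x) ≡ λ q(x')`: at most `p^(6j) (1 + 10/p²)` pairs (PAI).
Product over `p > P₀` of `1 + 10/p²` is `≤ exp (10/P₀) ≤ 1 + 20/P₀`. -/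
def Stmt_RCT : Prop :=
  ∀ (b : Fin 2 → Matrix (Fin 4) (Fin 4) ℤ) (c : Fin 2 → Matrix (Fin 2) (Fin 2) ℤ), Nice b →
    res c ≠ 0 → ∃ P₁ : ℕ, ∀ (P₀ m V' : ℕ) (M₀ : Matrix (Fin 2) (Fin 2) ℤ) (x₀ : Fin 4 → ℤ)
      (w₀ w w' : Fin 2 → ℤ), P₁ ≤ P₀ → LD b c P₀ m V' M₀ x₀ w₀ → Adm P₀ (m ^ 2 * V') w₀ w →
      Adm P₀ (m ^ 2 * V') w₀ w' → wdg c w w' ≠ 0 →
      ((Set.ncard {z : (Fin 4 → ℤ) × (Fin 4 → ℤ) |
        (∀ j, 0 ≤ z.1 j ∧ z.1 j < ((m ^ 2 * V' : ℕ) : ℤ) * |wdg c w w'|) ∧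
        (∀ j, 0 ≤ z.2 j ∧ z.2 j < ((m ^ 2 * V' : ℕ) : ℤ) * |wdg c w w'|) ∧
        (∀ j, ((m * V' : ℕ) : ℤ) ∣ z.1 j - x₀ j) ∧ (∀ j, ((m * V' : ℕ) : ℤ) ∣ z.2 j - x₀ j) ∧
        ∃ M : Matrix (Fin 2) (Fin 2) ℤ, (∀ i j, ((m ^ 2 * V' : ℕ) : ℤ) ∣ M i j - M₀ i j) ∧
          ∀ i, ((m ^ 2 * V' : ℕ) : ℤ) * wdg c w w' ∣ qv b z.1 i - (M *ᵥ qv c w) i ∧
            ((m ^ 2 * V' : ℕ) : ℤ) * wdg c w w' ∣ qv b z.2 i - (M *ᵥ qv c w') i} : ℕ) : ℝ) ≤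
      (kap b m V' x₀ : ℝ) ^ 2 * |((wdg c w w' : ℤ) : ℝ)| ^ 6 * (1 + 20 / (P₀ : ℝ))

/-! ### C. Geometry -/

/-- LPT (250 lines; uses nothing). Lattice points in dilates, with congruences and a different
scaling `B^(e i)` in each coordinate.  Let `c_B` = volume of a cell `∏ L_i / B^(e i)`.  Compact `R`:
the cells `(x_i + [0, L_i)) / B^(e i)` of the points `x` are disjoint and contained in the closed
`δ`-neighbourhood `R_δ` once `L_i / B^(e i) ≤ δ`; so number `· c_B ≤ vol R_δ`, and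
`vol R_δ → vol R` (`R` compact).  Open bounded `R`: choose `K ⊆ R` compact with
`vol K ≥ vol R - ε`; for `B` large every point of `K` lies in the cell of some `x ≡ a` with
`x / B^e ∈ R` (distance of `K` to the complement), so `vol K ≤` number `· c_B`. -/
def Stmt_LPT : Prop :=
  ∀ (ι : Type) [Fintype ι] (L : ι → ℕ) (a : ι → ℤ) (e : ι → ℕ) (R : Set (ι → ℝ)),
    (∀ i, 0 < L i) → (∀ i, 1 ≤ e i) →
    (IsCompact R → ∀ ε : ℝ, 0 < ε → ∃ B₀ : ℕ, ∀ B : ℕ, B₀ ≤ B →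
      (Set.ncard {x : ι → ℤ | (∀ i, (L i : ℤ) ∣ x i - a i) ∧
        (fun i => (x i : ℝ) / (B : ℝ) ^ e i) ∈ R} : ℝ) * ∏ i, (L i : ℝ) ≤
      ((volume R).toReal + ε) * (B : ℝ) ^ ∑ i, e i) ∧
    (IsOpen R → Bornology.IsBounded R → ∀ ε : ℝ, 0 < ε → ∃ B₀ : ℕ, ∀ B : ℕ, B₀ ≤ B →
      ((volume R).toReal - ε) * (B : ℝ) ^ ∑ i, e i ≤
      (Set.ncard {x : ι → ℤ | (∀ i, (L i : ℤ) ∣ x i - a i) ∧
        (fun i => (x i : ℝ) / (B : ℝ) ^ e i) ∈ R} : ℝ) * ∏ i, (L i : ℝ))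

/-- CHA (250 lines; uses nothing). Charts.  A minor `j(x) = mnr b x k l` is not `0` at `ξ`;
`Ψ(x) = (q_0(x), q_1(x), x_m, x_n)` (`{k,l,m,n}` = all indices) has Jacobian determinant `± j(ξ) ≠ 0`
(permute the coordinates, e.g. the linear map `h ↦ (J(ξ)_0·h, J(ξ)_1·h, h_m, h_n)` is injective),
local diffeomorphism: an open `𝒰 ∋ ξ`, `𝒰 ⊆ 𝒩`, on which `Ψ` is injective and
`(1+δ)^(-1/2) ≤ |j| / |j(ξ)| ≤ (1+δ)^(1/2)`.  A small closed cube `Q` (side `2s` in all four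
coordinates) around `Ψ(ξ)` is in `Ψ(𝒰)`; `D = 𝒰 ∩ Ψ⁻¹ Q` compact, `D' = 𝒰 ∩ Ψ⁻¹ Q°` open.
`vol (Ψ(A)) = ∫_A |j|` (`lintegral_image_eq_lintegral_abs_det_fderiv_mul` or
`lintegral_abs_det_fderiv_eq_addHaar_image`), for `A = D ∩ q⁻¹ S`: `Ψ(A) = Q ∩ (S × ℝ²)` of volume
`≤ vol(S) (2s)²`, and `= vol(S) (2s)²` if `S` is in the ball of radius `r = s`.
`s₁ = (2s)² (1+δ)^(1/2) / |j(ξ)|`, `s₀ = (2s)² (1+δ)^(-1/2) / |j(ξ)|`. -/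
def Stmt_CHA : Prop :=
  ∀ (b : Fin 2 → Matrix (Fin 4) (Fin 4) ℤ) (ξ : Fin 4 → ℝ), LinearIndependent ℝ (jv b ξ) →
    ∀ τ : ℝ, 0 < τ → ∀ δ : ℝ, 0 < δ → ∃ (D D' : Set (Fin 4 → ℝ)) (s₀ s₁ r : ℝ),
      Cht b ξ D D' s₀ s₁ r ∧ s₁ ≤ (1 + δ) * s₀ ∧ D ⊆ Metric.closedBall ξ τ

/-- SCU (150 lines; uses nothing). Upper bound for pairs and scaled charts.  For `t > 0`:
`vol {x : x/t ∈ D, q(x) ∈ S} = t⁴ vol (D ∩ {q ∈ t⁻² S}) ≤ t⁴ s₁ t⁻⁴ vol S = s₁ vol S`; for pairs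
integrate over `z.1` first (`Measure.prod_apply`, for measurable `S` in the product; both bounds are
bounds of measures `map q (vol restricted) ≤ s₁ vol`, so the product measures compare). -/
def Stmt_SCU : Prop :=
  ∀ (b : Fin 2 → Matrix (Fin 4) (Fin 4) ℤ) (ξ : Fin 4 → ℝ) (D D' : Set (Fin 4 → ℝ))
    (s₀ s₁ r : ℝ), Cht b ξ D D' s₀ s₁ r → ∀ t t' : ℝ, 0 < t → 0 < t' →
    ∀ S : Set ((Fin 2 → ℝ) × (Fin 2 → ℝ)), MeasurableSet S →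
      volume {z : (Fin 4 → ℝ) × (Fin 4 → ℝ) | t⁻¹ • z.1 ∈ D ∧ t'⁻¹ • z.2 ∈ D ∧
        (qv b z.1, qv b z.2) ∈ S} ≤ ENNReal.ofReal (s₁ ^ 2) * volume S

/-- SCL (120 lines; uses nothing). Lower bound with a parameter `τ ∈ ℝ²`: same, from `Cht.lo`. -/
def Stmt_SCL : Prop :=
  ∀ (b : Fin 2 → Matrix (Fin 4) (Fin 4) ℤ) (ξ : Fin 4 → ℝ) (D D' : Set (Fin 4 → ℝ))
    (s₀ s₁ r : ℝ), Cht b ξ D D' s₀ s₁ r → ∀ t : ℝ, 0 < t →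
    ∀ S : Set ((Fin 2 → ℝ) × (Fin 2 → ℝ)), MeasurableSet S →
      (∀ z ∈ S, (t ^ 2)⁻¹ • z.1 ∈ Metric.ball (qv b ξ) r) →
      ENNReal.ofReal s₀ * volume S ≤
        volume {z : (Fin 4 → ℝ) × (Fin 2 → ℝ) | t⁻¹ • z.1 ∈ D' ∧ (qv b z.1, z.2) ∈ S}

/-! ### D. The diagonal bound -/

/-- TMX (100 lines; uses nothing). The matrix `T = det(S₀) Θ`, `Θ = adj(S₀) S₁`.  If `g` divides all
the `2 × 2` minors of `(S₀ y, S₁ y)` then it divides those of `(det(S₀) y, Θ y)` (apply `adj(S₀)` to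
both vectors: the minors are integral combinations), hence those of `(y, T y)` (`det(S₀)` times
`y ∧ Θy`).  If `S₀ y, S₁ y` are not proportional neither are `y, T y`.  The characteristic
polynomial of `T` is separable over ℚ: `det(X S₀ + S₁) = det(S₀) det(X + S₀⁻¹S₁)` and
`T = det(S₀)² S₀⁻¹ S₁`, so its roots are `-det(S₀)²` times those of `f`. -/
def Stmt_TMX : Prop :=
  ∀ b : Fin 2 → Matrix (Fin 4) (Fin 4) ℤ, Nice b → ∃ T : Matrix (Fin 4) (Fin 4) ℤ,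
    (T.charpoly.map (Int.castRingHom ℚ)).Separable ∧ ∀ y : Fin 4 → ℤ,
      (∀ g : ℤ, (∀ k l, g ∣ mnr b y k l) → ∀ k l, g ∣ y k * (T *ᵥ y) l - y l * (T *ᵥ y) k) ∧
      ((∃ k l, mnr b y k l ≠ 0) → ∃ k l, y k * (T *ᵥ y) l - y l * (T *ᵥ y) k ≠ 0)

/-- WED (120 lines; uses nothing). `N z ≡ N z' ≡ 0 mod g` implies `e₃(N) (z ∧ z') ≡ 0 mod g`, where
`e₃(N)` is the trace of the adjugate.  `n = 4`: with `u, v` two further vectors,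
`e₃(N) det(z,z',u,v)` is the sum of the four determinants with `N` applied to three of the four
columns, each containing `N z` or `N z'`; take for `u, v` standard basis vectors.  (For fixed
`k, l`: an explicit identity `e₃(N)(z_k z'_l - z_l z'_k) = Σ_i (α_i (N z)_i + β_i (N z')_i)`.)
`n = 3`: `e₂(N)`, the trace of the adjugate again: `e₂(N) det(z,z',u) = det(Nz,Nz',u) + det(Nz,z',Nu)
+ det(z,Nz',Nu)`. -/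
def Stmt_WED : Prop :=
  ∀ n : ℕ, (n = 3 ∨ n = 4) → ∀ (N : Matrix (Fin n) (Fin n) ℤ) (g : ℤ) (z z' : Fin n → ℤ),
    (∀ i, g ∣ (N *ᵥ z) i) → (∀ i, g ∣ (N *ᵥ z') i) →
    ∀ k l, g ∣ N.adjugate.trace * (z k * z' l - z l * z' k)

/-- LAB (250 lines; uses WED). Labels.  `χ` = characteristic polynomial of `T`,
`u χ + u' χ' = D ≠ 0` over ℤ.  `y` primitive, `g ∣ y ∧ Ty`: with `a·y = 1`, `μ = a·Ty`:
`Ty ≡ μ y mod g`, so `χ(μ) y ≡ χ(T) y = 0`, `g ∣ χ(μ)`.  Label of `y` = `μ` modulo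
`h = gcd (g, D rad g)` (coded by numbers): the residues `μ mod h` with `rad g ∣ χ(μ)` are at most
`D · n^ω(g)` (at most `n` roots modulo each prime; `h / rad g ≤ D`).  If `μ ≡ μ' mod h` then
`g ∣ D (μ - μ')`: at `p^j ∥ g`, if `j ≤ v(D) + 1` clear; otherwise `p^(v(D)+1) ∣ μ - μ'`,
`v(χ'(μ)) ≤ v(D)`, `0 ≡ χ(μ') - χ(μ) = (μ'-μ)(χ'(μ) + (μ'-μ)(..))` mod `p^j`.  So with
`N = T - μ`: `N y ≡ 0`, `N (D y') ≡ 0 mod g`; WED: `g ∣ e(N) D (y ∧ y')`, `e(N) = tr adj (T - μ) =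
± χ'(μ)`, and `u' χ'(μ) ≡ D mod g`: `g ∣ D² (y ∧ y')`. -/
def Stmt_LAB : Prop :=
  ∀ n : ℕ, (n = 3 ∨ n = 4) → ∀ T : Matrix (Fin n) (Fin n) ℤ,
    (T.charpoly.map (Int.castRingHom ℚ)).Separable → ∃ K E : ℕ, 0 < E ∧ ∀ g : ℕ, 0 < g →
      ∃ lab : (Fin n → ℤ) → ℕ, ∀ y : Fin n → ℤ, (∀ d : ℤ, (∀ j, d ∣ y j) → IsUnit d) →
        (∀ k l, (g : ℤ) ∣ y k * (T *ᵥ y) l - y l * (T *ᵥ y) k) →
        lab y < K * n ^ g.primeFactors.card ∧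
        (∃ μ : ℤ, ∀ i, (g : ℤ) ∣ (T *ᵥ y) i - μ * y i) ∧
        ∀ y' : Fin n → ℤ, (∀ d : ℤ, (∀ j, d ∣ y' j) → IsUnit d) →
          (∀ k l, (g : ℤ) ∣ y' k * (T *ᵥ y') l - y' l * (T *ᵥ y') k) → lab y' = lab y →
          ∀ k l, (g : ℤ) ∣ (E : ℤ) * (y k * y' l - y l * y' k)

/-- CYC (200 lines; uses nothing). `G = ℤ y₀ + g ℤⁿ` contains `b_i = T^i y₀`, `i < n`,
`‖b_i‖ ≤ C Y`, independent (their determinant is not `0`).  So each class of `ℤⁿ / G` has a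
representative of norm `≤ n C Y` (subtract the integral parts of the coordinates), there are
`g^(n-1)` classes (`y₀` primitive: `ℤⁿ/gℤⁿ` has `gⁿ` elements, the image of `G` has `g`), and the map
`(γ, r) ↦ γ + r`, `γ ∈ G`, `‖γ‖ ≤ Y`, `r` a representative, is injective into the ball of radius
`(1 + n C) Y`. -/
def Stmt_CYC : Prop :=
  ∀ (n : ℕ) (T : Matrix (Fin n) (Fin n) ℤ), 0 < n → ∃ K : ℕ, ∀ (g Y : ℕ) (y₀ : Fin n → ℤ) (μ : ℤ),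
    0 < g → 0 < Y → (∀ j, |y₀ j| ≤ Y) → (∀ d : ℤ, (∀ j, d ∣ y₀ j) → IsUnit d) →
    (∀ i, (g : ℤ) ∣ (T *ᵥ y₀) i - μ * y₀ i) →
    (Matrix.of fun i j : Fin n => ((T ^ (i : ℕ)) *ᵥ y₀) j).det ≠ 0 →
    Set.ncard {y : Fin n → ℤ | (∀ j, |y j| ≤ Y) ∧ ∃ lam : ℤ, ∀ j, (g : ℤ) ∣ y j - lam * y₀ j} *
      g ^ (n - 1) ≤ K * Y ^ n

/-- GS1 (250 lines; uses LAB CYC). `n = 3, 4`: the sum of `g(y) = gcd (y ∧ Ty)` over the primitive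
cyclic `y` (`det (T^i y) ≠ 0`), `|y| ≤ Y`, is `≤ K Y⁴`.  `g(y)^(n-1)` divides `det (T^i y)` (modulo
`g` the rows are `μ^i y`), so `g ≤ C Y^(n/(n-1))`.  `Σ g(y) ≤ Σ_g g #{y : g ∣ y ∧ Ty}`; by LAB the `y`
are in `K n^ω(g)` classes; in a class with a member `y₀` all members are `≡ λ y₀` modulo
`g' = g / gcd(g,E)` (`a·y₀ = 1`, `λ = a·y`), CYC for `g'`: at most `K' Yⁿ / g^(n-1)`.
`n^ω(g) ≤ C g^(1/8)` (`primes < 4^8` give a constant, for the others `n ≤ p^(1/8)`).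
`n = 4`: `Y⁴ Σ g^(1+1/8-3)` converges; `n = 3`: `Y³ Σ_(g ≤ C Y^1.5) g^(1+1/8-2) ≤ C Y^3.2`. -/
def Stmt_GS1 : Prop :=
  ∀ n : ℕ, (n = 3 ∨ n = 4) → ∀ T : Matrix (Fin n) (Fin n) ℤ,
    (T.charpoly.map (Int.castRingHom ℚ)).Separable → ∃ K : ℕ, ∀ Y : ℕ, 0 < Y →
      ∀ (F : Finset (Fin n → ℤ)) (g : (Fin n → ℤ) → ℕ), (∀ y ∈ F, (∀ j, |y j| ≤ Y) ∧
        (∀ d : ℤ, (∀ j, d ∣ y j) → IsUnit d) ∧
        (∀ k l, (g y : ℤ) ∣ y k * (T *ᵥ y) l - y l * (T *ᵥ y) k) ∧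
        (Matrix.of fun i j : Fin n => ((T ^ (i : ℕ)) *ᵥ y) j).det ≠ 0) →
      ∑ y ∈ F, g y ≤ K * Y ^ 4

/-- GSM (300 lines; uses TMX GS1). All primitive `y` with `y ∧ Ty ≠ 0`.  `k(y) = dim ⟨y, Ty, ..⟩`.
`k = 4`: GS1 with `n = 4`.  `k = 3`: the span is `T`-invariant of dimension 3; `χ = ψ (X - θ)` with
`θ ∈ ℤ` and `y ∈ im (T - θ) = e^⊥`, `e T = θ e`, `e ∈ ℤ⁴` primitive (at most 4 such `θ`, `e`).  A
ℤ-basis of `e^⊥ ∩ ℤ⁴` (matrix `U`, `4 × 3`, `T U = U T'`, saturated): `y = U y'`, `‖y'‖ ≤ C‖y‖`, `y'`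
primitive, `y ∧ Ty = Λ²U (y' ∧ T'y')` and `Λ²U` is a saturated embedding, so `g ∣ y' ∧ T'y'`;
`T'` has the separable characteristic polynomial `ψ`: GS1 with `n = 3`.  `k = 2`: finitely many
`T`-invariant planes (`ker ψ(T)`, `ψ ∣ χ` quadratic), at most `C Y²` vectors, `g ≤ C Y²`. -/
def Stmt_GSM : Prop :=
  ∀ b : Fin 2 → Matrix (Fin 4) (Fin 4) ℤ, Nice b → ∃ K : ℕ, ∀ Y : ℕ, 0 < Y →
    ∀ (F : Finset (Fin 4 → ℤ)) (g : (Fin 4 → ℤ) → ℕ), (∀ y ∈ F, (∀ j, |y j| ≤ Y) ∧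
      (∀ d : ℤ, (∀ j, d ∣ y j) → IsUnit d) ∧ (∀ k l, (g y : ℤ) ∣ mnr b y k l) ∧
      ∃ k l, mnr b y k l ≠ 0) →
    ∑ y ∈ F, g y ≤ K * Y ^ 4

/-- PRI (200 lines; uses nothing). Primitive points of the plane `u·z = v·z = 0`.
`n = u ∧ v ≠ 0` (minors `n_kl = u_k v_l - u_l v_k`), `gcd n_kl` divides `g`, `P ≤ max |n_kl|`.  For
`z, z'` in
the plane `z ∧ z'` is proportional to the dual `*n` (`(*n)_01 = n_23`, `(*n)_02 = -n_13`, ...: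
identities `m_ij (*n)_kl = m_kl (*n)_ij` from the four linear relations), and `*n / gcd` is a
primitive integral vector `π`, `|π| ≥ P/g`.  If all `z` are parallel: at most 2.  Otherwise fix
a `v₁` among them; for `z` not parallel `z ∧ v₁ = β π`, `β ∈ ℤ`, `β ≠ 0`, `|β| ≤ 2 Z |v₁| g / P`
(number of `β`: at most `4 Z |v₁| g/P`); for each `β` two such `z` differ by an integral multiple of
`v₁` (primitive), so at most `1 + 2Z/|v₁| ≤ 3Z/|v₁|`.  Total `≤ 2 + 12 Z² g / P`. -/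
def Stmt_PRI : Prop :=
  ∀ (u v : Fin 4 → ℤ) (g P Z : ℕ) (F : Finset (Fin 4 → ℤ)), 0 < g → 0 < P →
    (∀ d : ℤ, (∀ k l, d ∣ u k * v l - u l * v k) → d ∣ (g : ℤ)) →
    (∃ k l, (P : ℤ) ≤ |u k * v l - u l * v k|) →
    (∀ z ∈ F, (∀ j, |z j| ≤ Z) ∧ (∀ d : ℤ, (∀ j, d ∣ z j) → IsUnit d) ∧ u ⬝ᵥ z = 0 ∧ v ⬝ᵥ z = 0) →
    (F.card : ℝ) ≤ 2 + 20 * (Z : ℝ) ^ 2 * g / P

/-- REL (120 lines; uses nothing). Compactness: `ξ` generic; for `z` in a small cone around `ξ` and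
real `y ≠ 0` with `B_i(y,z) = 0`: `|p(y)| ≥ κ|y|²`, and `|p(z)| ≥ κ |z|²` (`p` = minors).
Homogeneous; suppose `|y_n| = 1`, `z_n → ξ` (`z_n` of the form `ξ + o(1)`), `B(y_n,z_n) = 0`,
`p(y_n) → 0`: a limit `y` is an eigenvector (`S₀ y, S₁ y` dependent) with `B_i(y,ξ) = 0`: not
generic. -/
def Stmt_REL : Prop :=
  ∀ (b : Fin 2 → Matrix (Fin 4) (Fin 4) ℤ) (ξ : Fin 4 → ℝ), GenR b ξ → ∃ κ τ : ℝ, 0 < κ ∧ 0 < τ ∧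
    τ < 1 ∧ ∀ (z : Fin 4 → ℝ) (t : ℝ), 0 < t → ‖z - t • ξ‖ ≤ t * τ →
      (∃ k l, κ * ‖z‖ ^ 2 ≤ |mnr b z k l|) ∧ t * κ ≤ ‖z‖ ∧
      ∀ y : Fin 4 → ℝ, y ≠ 0 → (∀ i, jv b y i ⬝ᵥ z = 0) → ∃ k l, κ * ‖y‖ ^ 2 ≤ |mnr b y k l|

/-- NPR (200 lines; uses GSM PRI REL). Primitive pairs.  For `z` in the cone, `|y| < 2Y`,
`|z| < 2Z`, `|y| ≥ Y`, `|z| ≥ Z`.  `Y ≤ Z`: for each `y` (`g(y)` = gcd of the minors,
`|p(y)| ≥ κ Y²` by REL) at most `2 + 20 (2Z)² g(y)/(κY²)` vectors `z` (PRI); sum over `y` (only those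
with a partner) `≤ 2 (4Y+1)⁴ + C Z² Y^(-2) K (2Y)⁴` (GSM) `≤ C' Y² Z²`.  `Z < Y`: symmetric
(`B` symmetric, `|p(z)| ≥ κ Z²`). -/
def Stmt_NPR : Prop :=
  ∀ (b : Fin 2 → Matrix (Fin 4) (Fin 4) ℤ) (ξ : Fin 4 → ℝ), Nice b → GenR b ξ →
    ∃ (τ : ℝ) (K : ℕ), 0 < τ ∧ ∀ (Y Z : ℕ) (F : Finset ((Fin 4 → ℤ) × (Fin 4 → ℤ))), 0 < Y → 0 < Z →
      (∀ z ∈ F, (∀ i, jv b z.1 i ⬝ᵥ z.2 = 0) ∧ (∀ j, |z.1 j| < 2 * Y) ∧ (∃ j, (Y : ℤ) ≤ |z.1 j|) ∧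
        (∀ j, |z.2 j| < 2 * Z) ∧ (∃ j, (Z : ℤ) ≤ |z.2 j|) ∧
        (∀ d : ℤ, (∀ j, d ∣ z.1 j) → IsUnit d) ∧ (∀ d : ℤ, (∀ j, d ∣ z.2 j) → IsUnit d) ∧
        ∃ t : ℝ, 0 < t ∧ ‖sc 1 z.2 - t • ξ‖ ≤ t * τ) →
      F.card ≤ K * Y ^ 2 * Z ^ 2

/-- DIA (200 lines; uses NPR). `#{(x,x') : x, x' ∈ X·ball(ξ,τ), q(x) = q(x')} ≤ K X⁴`.
`y = x - x'`, `z = x + x'` (injective), `B_i(y,z) = 0`; `z` is in the cone (`z ∈ ball (2Xξ, 2Xτ)`), in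
particular `z ≠ 0`.  `y = 0`: `≤ C X⁴`.  Otherwise `y = s y₁`, `z = t z₁`, `s, t ≥ 1` the contents,
dyadic ranges `2^i ≤ |y₁| < 2^(i+1)`, `2^j ≤ |z₁| < 2^(j+1)`, `2^i, 2^j ≤ C X`: at most
`K 4^i 4^j` primitive pairs (NPR) and `(C X/2^i)(C X/2^j)` pairs `(s,t)`; the sum over `i, j` of
`2^i 2^j X²` is `≤ C' X⁴`. -/
def Stmt_DIA : Prop :=
  ∀ (b : Fin 2 → Matrix (Fin 4) (Fin 4) ℤ) (ξ : Fin 4 → ℝ), Nice b → GenR b ξ →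
    ∃ (τ : ℝ) (K : ℝ), 0 < τ ∧ ∀ X : ℝ, 1 ≤ X → ∀ F : Finset ((Fin 4 → ℤ) × (Fin 4 → ℤ)),
      (∀ z ∈ F, ‖sc X z.1 - ξ‖ ≤ τ ∧ ‖sc X z.2 - ξ‖ ≤ τ ∧ qv b z.1 = qv b z.2) →
      (F.card : ℝ) ≤ K * X ^ 4

/-! ### E. Moments and cells -/

/-- FMO (250 lines; uses RCF LPT SCL). First moment.  `G = gcd φ(w)`, `φ(w) = G a₁`,
`[a₁, a₂] ∈ SL₂(ℤ)`.  `(M,x) ↦ (x, τ = M a₂)` is injective on pairs with `q(x) = M φ(w)`, and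
`(x, τ)` comes from `M = [q(x)/G, τ] [a₁,a₂]⁻¹` iff `G ∣ q(x)`; `M ≡ M₀ mod W` iff
`q(x) ≡ M₀ φ(w) mod WG` and `τ ≡ M₀ a₂ mod W`.  So `x` is in `kap G²` classes modulo `WG` (RCF),
`τ` in one class modulo `W`.  LPT (open) in `ℝ⁴ × ℝ²` with the scaling `(B, B²)`,
`R = {(X,T) : X/t ∈ D', [q(X)/G, T][a₁,a₂]⁻¹ ∈ open cube}`: by SCL
`vol R ≥ s₀ vol {(ρ,T) : [ρ/G, T][a₁,a₂]⁻¹ ∈ cube} = s₀ G² θ⁴`.  Total
`kap G² (WG)⁻⁴ W⁻² s₀ G² θ⁴ B⁸ = kap W⁻⁶ s₀ θ⁴ B⁸` up to `ε B⁸`. -/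
def Stmt_FMO : Prop :=
  ∀ (b : Fin 2 → Matrix (Fin 4) (Fin 4) ℤ) (c : Fin 2 → Matrix (Fin 2) (Fin 2) ℤ), res c ≠ 0 →
    ∀ (ξ : Fin 4 → ℝ) (D D' : Set (Fin 4 → ℝ)) (s₀ s₁ r : ℝ), Cht b ξ D D' s₀ s₁ r →
    ∀ (P₀ m V' : ℕ) (M₀ : Matrix (Fin 2) (Fin 2) ℤ) (x₀ : Fin 4 → ℤ) (w₀ w : Fin 2 → ℤ)
      (t θ : ℝ) (α : Matrix (Fin 2) (Fin 2) ℝ), LD b c P₀ m V' M₀ x₀ w₀ → |res c| ≤ P₀ →
      Adm P₀ (m ^ 2 * V') w₀ w → 0 < t → 0 < θ →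
      (∀ M : Matrix (Fin 2) (Fin 2) ℝ, (∀ i j, α i j ≤ M i j ∧ M i j ≤ α i j + θ) →
        M *ᵥ qv c (sc t w) ∈ Metric.ball (qv b ξ) r) →
      ∀ ε : ℝ, 0 < ε → ∃ B₀ : ℕ, ∀ B : ℕ, B₀ ≤ B →
        ((kap b m V' x₀ : ℝ) * s₀ * θ ^ 4 / ((m ^ 2 * V' : ℕ) : ℝ) ^ 6 - ε) * (B : ℝ) ^ 8 ≤
        (Set.ncard {z : Matrix (Fin 2) (Fin 2) ℤ × (Fin 4 → ℤ) | z.1 ∈ CB α θ (m ^ 2 * V') M₀ B ∧
          z.2 ∈ Rw b c (m * V') x₀ D (t * B) w z.1} : ℝ)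

/-- SMO (250 lines; uses RCT LPT SCU). Mixed second moment, `d = φ(w) ∧ φ(w') ≠ 0`: `M` is
determined by `(x,x')` (`M Φ = (q(x), q(x'))`), and `(x,x')` modulo `W|d|` is in one of the classes
of RCT.  LPT (compact) in `ℝ⁸`, `R = {(X,X') : X/t ∈ D, X'/t' ∈ D, (q(X),q(X')) ∈ S}`,
`S = {(Mφ(w), Mφ(w')) : M ∈ cube}`, `vol S = d² θ⁴`, `vol R ≤ s₁² d² θ⁴` (SCU).  Total:
`kap² |d|⁶ (1+20/P₀) (W|d|)⁻⁸ s₁² d² θ⁴ B⁸`. -/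
def Stmt_SMO : Prop :=
  ∀ (b : Fin 2 → Matrix (Fin 4) (Fin 4) ℤ) (c : Fin 2 → Matrix (Fin 2) (Fin 2) ℤ), Nice b →
    res c ≠ 0 → ∃ P₁ : ℕ, ∀ (ξ : Fin 4 → ℝ) (D D' : Set (Fin 4 → ℝ)) (s₀ s₁ r : ℝ),
    Cht b ξ D D' s₀ s₁ r →
    ∀ (P₀ m V' : ℕ) (M₀ : Matrix (Fin 2) (Fin 2) ℤ) (x₀ : Fin 4 → ℤ) (w₀ w w' : Fin 2 → ℤ)
      (t t' θ : ℝ) (α : Matrix (Fin 2) (Fin 2) ℝ), P₁ ≤ P₀ → LD b c P₀ m V' M₀ x₀ w₀ →
      Adm P₀ (m ^ 2 * V') w₀ w → Adm P₀ (m ^ 2 * V') w₀ w' → wdg c w w' ≠ 0 → 0 < t → 0 < t' →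
      0 < θ → ∀ ε : ℝ, 0 < ε → ∃ B₀ : ℕ, ∀ B : ℕ, B₀ ≤ B →
        (Set.ncard {z : Matrix (Fin 2) (Fin 2) ℤ × (Fin 4 → ℤ) × (Fin 4 → ℤ) |
          z.1 ∈ CB α θ (m ^ 2 * V') M₀ B ∧ z.2.1 ∈ Rw b c (m * V') x₀ D (t * B) w z.1 ∧
          z.2.2 ∈ Rw b c (m * V') x₀ D (t' * B) w' z.1} : ℝ) ≤
        ((kap b m V' x₀ : ℝ) ^ 2 * s₁ ^ 2 * (1 + 20 / (P₀ : ℝ)) * θ ^ 4 /
          ((m ^ 2 * V' : ℕ) : ℝ) ^ 8 + ε) * (B : ℝ) ^ 8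

/-- DGO (200 lines; uses DIA COI). Diagonal moment: `Σ_M R_w(M)² ≤ K B⁸` with `K` independent of
`w`.  `D` in the ball of DIA.  Pairs `(x,x')` with `q(x) = q(x')`: `≤ K₁ (tB)⁴`.  For given `x`, the
rows `m` of `M` satisfy `m·φ(w) = q(x)_i`, `|m| ≤ A₀ B²`: solutions differ by multiples of
`(φ₁,-φ₀)/G`, so at most `1 + 2 A₀ B² G / |φ(w)| ≤ 3A₀B²G/|φ(w)|` for `B` large; `G ≤ W` (the primes
of `G` are `≤ P₀`, LD.con: `v_p(G) < v_p(W)`), `|φ(w)| ≥ κ t²` by the hypothesis on `w`.  Total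
`≤ K₁ t⁴B⁴ (3A₀ W B²/(κ t²))²`. -/
def Stmt_DGO : Prop :=
  ∀ (b : Fin 2 → Matrix (Fin 4) (Fin 4) ℤ) (c : Fin 2 → Matrix (Fin 2) (Fin 2) ℤ), Nice b →
    res c ≠ 0 → ∀ ξ : Fin 4 → ℝ, GenR b ξ → ∃ τ : ℝ, 0 < τ ∧
    ∀ (P₀ m V' : ℕ) (M₀ : Matrix (Fin 2) (Fin 2) ℤ) (x₀ : Fin 4 → ℤ) (w₀ : Fin 2 → ℤ)
      (θ κ : ℝ) (α : Matrix (Fin 2) (Fin 2) ℝ), LD b c P₀ m V' M₀ x₀ w₀ → |res c| ≤ P₀ →
      0 < θ → 0 < κ → ∃ K : ℝ, 0 < K ∧ ∀ (w : Fin 2 → ℤ) (t : ℝ), Adm P₀ (m ^ 2 * V') w₀ w →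
        1 ≤ t → κ * t ^ 2 ≤ ‖sc 1 (qv c w)‖ → ∃ B₀ : ℕ, ∀ B : ℕ, B₀ ≤ B →
        (Set.ncard {z : Matrix (Fin 2) (Fin 2) ℤ × (Fin 4 → ℤ) × (Fin 4 → ℤ) |
          z.1 ∈ CB α θ (m ^ 2 * V') M₀ B ∧
          z.2.1 ∈ Rw b c (m * V') x₀ (Metric.closedBall ξ τ) (t * B) w z.1 ∧
          z.2.2 ∈ Rw b c (m * V') x₀ (Metric.closedBall ξ τ) (t * B) w z.1} : ℝ) ≤
        K * (B : ℝ) ^ 8

/-- SEQ (200 lines; uses nothing). Infinitely many admissible `w` near the direction `ω`.  Choose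
an integral vector `a` with positive multiple close to `ω` (relative error `η/4`), `a ≠ 0`, and an
integral `w₁ ≡ w₀ mod W` with `D₀ = w₁ ∧ a ≠ 0` (change `w₁` by multiples of `W`).
(`a` primitive).  `w_n = w₁ + n W a`; a prime `p > P₀` dividing `w_n` divides `w_n ∧ a = D₀`, and
not `W`; for each prime `p ∣ D₀`, `p > P₀`, the congruence `w_n ≡ 0 mod p` holds for at most one class
of `n mod p` (`W a ≢ 0 mod p`): choose another class (CRT).  So there are infinitely many good `n`,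
the `w_n` are pairwise non proportional (`D₀ ≠ 0`), their directions converge to that of `a`.  For fixed `w` the form `w' ↦ φ(w) ∧ φ(w')` is not zero (`φ_0, φ_1` are linearly
independent and `φ(w) ≠ 0`, as `res ≠ 0`), so it has at most 2 zeros up to scaling: choose greedily. -/
def Stmt_SEQ : Prop :=
  ∀ c : Fin 2 → Matrix (Fin 2) (Fin 2) ℤ, res c ≠ 0 → ∀ (P₀ W : ℕ) (w₀ : Fin 2 → ℤ)
    (ω : Fin 2 → ℝ) (η : ℝ) (K : ℕ), 0 < W → (∀ p : ℕ, p.Prime → p ∣ W → p ≤ P₀) → ω ≠ 0 → 0 < η →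
    ∃ T : Finset (Fin 2 → ℤ), K ≤ T.card ∧ (∀ w ∈ T, Adm P₀ W w₀ w ∧ w ≠ 0 ∧
      ∃ t : ℝ, 1 ≤ t ∧ ‖sc t w - ω‖ ≤ η) ∧ ∀ w ∈ T, ∀ w' ∈ T, w ≠ w' → wdg c w w' ≠ 0

/-- CSQ (120 lines; uses nothing). Finite Cauchy-Schwarz: `𝒞` a finite set (`n ≤ N` elements),
functions `R_w ≥ 0`, `w ∈ T`, `#T = K`; `Σ_M R_w ≥ a`, `Σ_M R_w R_w' ≤ c` (`w ≠ w'`),
`Σ_M R_w² ≤ e`.  If `Z` is the set of `M` with all `R_w(M) = 0`: `(K a)² ≤ (Σ_M Σ_w R_w)² ≤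
(n - #Z)(K² c + K e)`. -/
def Stmt_CSQ : Prop :=
  ∀ (α β : Type) (C : Finset α) (T : Finset β) (R : β → α → ℝ) (a s e : ℝ),
    (∀ w ∈ T, ∀ M ∈ C, 0 ≤ R w M) → 0 ≤ a → (∀ w ∈ T, a ≤ ∑ M ∈ C, R w M) →
    (∀ w ∈ T, ∀ w' ∈ T, w ≠ w' → ∑ M ∈ C, R w M * R w' M ≤ s) →
    (∀ w ∈ T, ∑ M ∈ C, R w M ^ 2 ≤ e) → 0 ≤ s → 0 ≤ e → ∀ Z : Finset α, Z ⊆ C →
    (∀ M ∈ Z, ∀ w ∈ T, R w M = 0) →
    ((T.card : ℝ) * a) ^ 2 ≤ ((C.card : ℝ) - Z.card) * ((T.card : ℝ) ^ 2 * s + T.card * e)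

/-- CEL (400 lines; uses COI CHA FMO SMO DGO SEQ CSQ). The cell theorem.  Given the real point
`(M_∞, ξ, ω)`, `ν`, `ε`, `L`.  Constants in this order: `δ` small (in terms of `ε/L`), `τ ≤ ν` from
DGO; CHA: `D ⊆ ball (ξ, τ)`, `s₁ ≤ (1+δ) s₀`, `r`.  `η` so small that `‖M - M_∞‖ ≤ η`,
`‖ω' - ω‖ ≤ η` imply `M φ(ω') ∈ ball (q(ξ), r)` and `‖φ(ω')‖ ≥ κ := ‖φ(ω)‖/2 > 0` (COI), `η ≤ ν`.
`P₂` so large that `20/P₀ ≤ δ`, `P₂ ≥ P₁, |res|`.  Given the local data and the cube: `K` large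
(in terms of everything), SEQ gives `L K` vectors `w` with scales `t_w`; split into `L` sets of
`K`.  For each set, CSQ with `R_w(M) = # Rw`, `a = (kap s₀ θ⁴ W⁻⁶ - δ') B⁸`,
`s = (kap² s₁² (1+δ) θ⁴ W⁻⁸ + δ') B⁸`, `e = K' B⁸`, `n = #CB ≤ (θB²/W + 1)⁴ ≤ (1+δ)(θB²/W)⁴`
(`B` large): the `M` with no zero in the set are at most `(ε/L) (θB²/W)⁴`.  If every set gives a zero,
the `L` zeros `(x,w)` (distinct `w`) have the properties of `Sol`: `x ∈ tB·D`, so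
`|x_j - tBξ_j| ≤ tBτ`; `|w_j - tω_j| ≤ tη`; primitive: a prime `p > P₀` does not divide `w` (Adm),
`p ≤ P₀` divides `V` and `W` and (LD.prim) not all of `x₀, w₀`. `U = max |w|`. -/
def Stmt_CEL : Prop :=
  ∀ (b : Fin 2 → Matrix (Fin 4) (Fin 4) ℤ) (c : Fin 2 → Matrix (Fin 2) (Fin 2) ℤ), Nice b →
    res c ≠ 0 → ∀ (M' : Matrix (Fin 2) (Fin 2) ℝ) (ξ : Fin 4 → ℝ) (ω : Fin 2 → ℝ),
    Zer b c M' ξ ω → GenR b ξ → ω ≠ 0 → ∀ (ν ε : ℝ) (L : ℕ), 0 < ν → 0 < ε →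
    ∃ (η : ℝ) (P₂ : ℕ), 0 < η ∧ ∀ (P₀ m V' : ℕ) (M₀ : Matrix (Fin 2) (Fin 2) ℤ) (x₀ : Fin 4 → ℤ)
      (w₀ : Fin 2 → ℤ), P₂ ≤ P₀ → LD b c P₀ m V' M₀ x₀ w₀ →
      ∀ (α : Matrix (Fin 2) (Fin 2) ℝ) (θ : ℝ), 0 < θ →
      (∀ i j, |α i j - M' i j| ≤ η ∧ |α i j + θ - M' i j| ≤ η) →
      ∃ U B₀ : ℕ, ∀ B : ℕ, B₀ ≤ B →
        (Set.ncard {M | M ∈ CB α θ (m ^ 2 * V') M₀ B ∧
          ¬ Sol b c (m * V') (m ^ 2 * V') x₀ w₀ ξ ω ν L U B M} : ℝ) ≤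
        ε * (θ * (B : ℝ) ^ 2 / ((m ^ 2 * V' : ℕ) : ℝ)) ^ 4

/-! ### F. Local solubility -/

/-- LOC (300 lines; uses SIM COI). Good zeros are dense.  `K = ℝ` or `ℚ_p`.  Zero `(x,w)`.
(1) `J(x)` independent, `w ≠ 0`: nothing to do.  (2) `J(x)` independent, `w = 0`: `q : K⁴ → K²` has a
surjective strict derivative at `x` (`h ↦ J(x)·h`), so it maps neighbourhoods of `x` onto
neighbourhoods of `q(x) = 0` (`HasStrictFDerivAt.map_nhds_eq_of_surj`): take `w'` small,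
`q(x') = M φ(w')`, `x'` near `x` (independence is open).  (3) `μ ≠ 0`, `μ₀ J(x)₀ + μ₁ J(x)₁ = 0`.
`x ≠ 0` (otherwise `M φ(w) = 0`, `det M ≠ 0`, `φ(w) = 0`, `w = 0` by COI).  So `q(x) ≠ 0` (SIM), and
`w ≠ 0`.  `z = μ M` (row); `μ·q(x) = 0` (as `½ x·(μJ(x)) = 0`) so `β(w) := z·φ(w) = 0`.
`disc β = δ(z) ≠ 0`: `Θ x = θ x` with `θ = -μ₀ det S₀/μ₁` (`μ₁ ≠ 0`), `X_j x = (det(S₀)/μ₁) z_j x`, so
the second matrix in `Dl` maps `x` to `(det(S₀)/μ₁)² δ(z) x`, and is invertible.  So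
`dβ(w) ≠ 0` (a binary form with a nonzero double zero has discriminant `0`).  Choose `ν ∈ K²` with
`ν·q(x) ≠ 0` (then `μ, ν` independent), `ξ₀ ∉ K x` with `(νJ(x))·ξ₀ = 0`, `w₁` with `dβ(w) w₁ ≠ 0`.
`Ψ(t,s,e) = (ν·(q(tx+eξ₀) - Mφ(w+s w₁)), μ·(same), e)`: `Ψ(1,0,0) = 0`, derivative
`(2 ν·q(x) dt - (..) ds, - dβ(w)w₁ ds, de)` invertible, so for small `e ≠ 0` there are `(t,s)` near
`(1,0)` with `Ψ = (0,0,e)`: a zero `x' = t x + e ξ₀`, `w' = w + s w₁`.  `J(x')` is independent: if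
`x'` is an eigenvector for `μ'`; the eigenlines are finitely many (at most 4 values `μ₀'/μ₁'`), `x'`
is near `x` and not in `K x` (closed sets). -/
def Stmt_LOC : Prop :=
  ∀ (b : Fin 2 → Matrix (Fin 4) (Fin 4) ℤ) (c : Fin 2 → Matrix (Fin 2) (Fin 2) ℤ), Nice b →
    res c ≠ 0 → ∀ (K : Type) [NontriviallyNormedField K] [CompleteSpace K] [CharZero K]
    (M : Matrix (Fin 2) (Fin 2) K) (x : Fin 4 → K) (w : Fin 2 → K), Dl b c M ≠ 0 →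
    Zer b c M x w → (x ≠ 0 ∨ w ≠ 0) → ∀ ε : ℝ, 0 < ε → ∃ (x' : Fin 4 → K) (w' : Fin 2 → K),
      Zer b c M x' w' ∧ LinearIndependent K (jv b x') ∧ w' ≠ 0 ∧ ‖x' - x‖ < ε ∧ ‖w' - w‖ < ε

/-- GEN (200 lines; uses SIM). Real generic points: `x` regular, `ε > 0`: there is `x'` near `x` with
`q(x') = q(x)`, generic.  The real eigenlines are finitely many `ℝ e_1, .., ℝ e_s`, `s ≤ 4`; put
`ℓ_k(x) = (J(e_k)_0·x, J(e_k)_1·x)`; `J(e_k)_1` and `J(e_k)_0` are proportional, one of them, `a_k`,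
is not `0`; condition `a_k·x ≠ 0`.  One `k` after the other, the earlier conditions and regularity
are open: if `a_k·x = 0` use that the map `h ↦ (q_0, q_1, a_k·)` has surjective derivative at `x`:
`a_k ∉ ⟨J(x)_0, J(x)_1⟩`.  Indeed `S₀` is invertible, `a_k ∼ S₀ e_k`, so otherwise
`e_k ∈ ⟨x, Θx⟩`; a plane containing `e_k` and invariant? `e_k = αx + βΘx`, `β ≠ 0` (`x` is not an
eigenvector), so `Θ x ∈ ⟨x, e_k⟩`, the plane `⟨x,e_k⟩` is `Θ`-invariant and contains a second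
eigenvector `e'` (if `Θ` had the double eigenvalue on it, the kernel of `(Θ-θ)²` would be a plane:
excluded as `f` is separable), `x = α'e_k + β'e'`; `B_0(e_k,e') = 0` (different eigenvalues),
`B_0(e_k,x) = α' B_0(e_k,e_k) = 2α' q_0(e_k) = 0`, with `q_0(e_k) ≠ 0` (SIM, and `q_1(e_k)` is a
multiple of `q_0(e_k)`), so `α' = 0` and `x` is an eigenvector: contradiction. -/
def Stmt_GEN : Prop :=
  ∀ b : Fin 2 → Matrix (Fin 4) (Fin 4) ℤ, Nice b → ∀ x : Fin 4 → ℝ,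
    LinearIndependent ℝ (jv b x) → ∀ ε : ℝ, 0 < ε →
    ∃ x' : Fin 4 → ℝ, qv b x' = qv b x ∧ GenR b x' ∧ ‖x' - x‖ < ε

/-- UNR (250 lines; uses LOC GEN COI). Uniformity, real case.  Suppose not: for `κ = 1/n` there are
`M_n`, `(x_n,w_n)` in the compact sets violating the conclusion; pass to a limit `(M,x,w)`:
`|Dl M| ≥ h`, a zero of norm 1.  LOC, GEN: a zero `(x',w')` of `X_M` near it with `x'` generic,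
`w' ≠ 0`.  `q` maps neighbourhoods of `x'` onto neighbourhoods of `q(x') = Mφ(w')`
(`map_nhds_eq_of_surj`), `M_n φ(w') → M φ(w')`: `x'_n → x'` with `q(x'_n) = M_n φ(w')`.
`GenQ (2κ₀) x' w'` for some `κ₀ > 0` (a minor is not `0`; `φ(w') ≠ 0` by COI; the eigenvectors of norm
1 form a compact set), so `GenQ κ₀ x'_n w'` for large `n` (uniform continuity in `e`):
contradiction for `1/n ≤ κ₀`. -/
def Stmt_UNR : Prop :=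
  ∀ (b : Fin 2 → Matrix (Fin 4) (Fin 4) ℤ) (c : Fin 2 → Matrix (Fin 2) (Fin 2) ℤ), Nice b →
    res c ≠ 0 → ∀ h ε : ℝ, 0 < h → 0 < ε → ∃ κ : ℝ, 0 < κ ∧
    ∀ (M : Matrix (Fin 2) (Fin 2) ℝ) (x : Fin 4 → ℝ) (w : Fin 2 → ℝ), (∀ i j, |M i j| ≤ 1) →
      h ≤ |Dl b c M| → Zer b c M x w → ‖x‖ ≤ 1 → ‖w‖ ≤ 1 → (‖x‖ = 1 ∨ ‖w‖ = 1) →
      ∃ (x' : Fin 4 → ℝ) (w' : Fin 2 → ℝ), Zer b c M x' w' ∧ GenQ b c κ x' w' ∧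
        ‖x' - x‖ < ε ∧ ‖w' - w‖ < ε

/-- UNP (250 lines; uses LOC COI). The same over `ℤ_p` (compact), LOC for `K = ℚ_p`; points of
`ℚ_p^n` near a point of `ℤ_p^n` (distance `≤ p^(-N)`, `N ≥ 1`) are in `ℤ_p^n` and congruent modulo
`p^N`.  `c₀` bounds the valuations of a minor and of `φ(w')`. -/
def Stmt_UNP : Prop :=
  ∀ (b : Fin 2 → Matrix (Fin 4) (Fin 4) ℤ) (c : Fin 2 → Matrix (Fin 2) (Fin 2) ℤ), Nice b →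
    res c ≠ 0 → ∀ (p : ℕ) [Fact p.Prime] (h N : ℕ), ∃ c₀ : ℕ,
    ∀ (M : Matrix (Fin 2) (Fin 2) ℤ_[p]) (x : Fin 4 → ℤ_[p]) (w : Fin 2 → ℤ_[p]),
      ¬ ((p : ℤ_[p]) ^ h ∣ Dl b c M) → Zer b c M x w → ((∃ j, ‖x j‖ = 1) ∨ ∃ j, ‖w j‖ = 1) →
      ∃ (x' : Fin 4 → ℤ_[p]) (w' : Fin 2 → ℤ_[p]), Zer b c M x' w' ∧
        (∃ k l, ¬ ((p : ℤ_[p]) ^ (c₀ + 1) ∣ mnr b x' k l)) ∧
        (∃ i, ¬ ((p : ℤ_[p]) ^ (c₀ + 1) ∣ qv c w' i)) ∧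
        (∀ j, (p : ℤ_[p]) ^ N ∣ x' j - x j) ∧ ∀ j, (p : ℤ_[p]) ^ N ∣ w' j - w j

/-- NZP (200 lines; uses nothing). A nonzero integer polynomial is rarely divisible by `p^h`.
Induction on the number of variables.  One variable, degree `≤ D`, some coefficient not divisible
by `p^h'`: if `D + 1` roots modulo `p^h` are pairwise incongruent modulo `p^a`, Lagrange
interpolation gives that all coefficients are divisible by `p^(h - D(a-1)-..)`, more precisely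
`p^h` divides the coefficients times the product of differences, of valuation `≤ D² a`; so if
`h > h' + D² a` the roots lie in at most `D` classes mod `p^a`: proportion `≤ D/p^a`.  (The
divisibility by `p^h` only depends on the residues modulo `p^h`, so for all `e ≥ h` the proportion in
the box `[0,p^e)^n` is the same.) -/
def Stmt_NZP : Prop :=
  ∀ (ι : Type) [Fintype ι] (F : MvPolynomial ι ℤ), F ≠ 0 → ∀ p : ℕ, p.Prime → ∀ ε : ℝ, 0 < ε →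
    ∃ h : ℕ, ∀ e : ℕ, h ≤ e →
      (Set.ncard {x : ι → ℤ | (∀ i, 0 ≤ x i ∧ x i < (p : ℤ) ^ e) ∧
        (p : ℤ) ^ h ∣ MvPolynomial.eval x F} : ℝ) ≤ ε * ((p : ℝ) ^ e) ^ Fintype.card ι

/-- NZR (150 lines; uses LPT). Real version: the compact sets
`{M ∈ [-1,1]^n : |F(M)| ≤ h}` decrease to the zero set in the cube, of measure zero (`F ≠ 0`: zero
sets of nonzero polynomials are null, induction and Fubini, or Mathlib), so for small `h` the volume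
is `< ε`; LPT (compact) with `L = 1`, `e = 2`. -/
def Stmt_NZR : Prop :=
  ∀ (ι : Type) [Fintype ι] (F : MvPolynomial ι ℤ), F ≠ 0 → ∀ ε : ℝ, 0 < ε → ∃ (h : ℝ) (B₀ : ℕ),
    0 < h ∧ ∀ B : ℕ, B₀ ≤ B →
      (Set.ncard {x : ι → ℤ | (∀ i, |(x i : ℝ)| ≤ (B : ℝ) ^ 2) ∧
        |MvPolynomial.aeval (fun i => (x i : ℝ) / (B : ℝ) ^ 2) F| < h} : ℝ) ≤
      ε * (B : ℝ) ^ (2 * Fintype.card ι)

/-- PAW (300 lines; uses UNP NZP DNZ COI). From `p`-adic zeros to local data, all `p ≤ P₀`.  For each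
`p`: `h_p` from NZP for the polynomial of DNZ with `ε_p = ε / 2^(p+1)`, `N_p = max N 1`,
`c_p` from UNP (`h_p`, `N_p`), `e_p = 2c_p + N_p + h_p + 2`.  `m = ∏ p^(c_p)`,
`V' = ∏ p^(e_p - 2 c_p)`, so `W = ∏ p^(e_p)`, `V = ∏ p^(e_p - c_p)`.  Bad = the `M` with
`p^(h_p) ∣ Dl M` for some `p ≤ P₀` (periodic modulo `W`).  If `M` is not bad and `(x_p,w_p)` are
zeros, UNP gives `(x'_p,w'_p)`; `x₀ ≡ x'_p`, `w₀ ≡ w'_p` modulo `p^(e_p)` for all `p ≤ P₀` by CRT.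
Reg at `p`: a minor of `J(x₀)` has valuation `≤ c_p`, so (Cramer) every `p^(c_p) ρ`, hence every
`m ρ`, is `J(x₀) z` modulo any power of `p`; take `z ≡ 0` modulo `p'^(c_p')` for the other primes
`p'` (which divide `m`).  LD.con: `p^(c_p+1) ∤ φ(w₀)`, `c_p + 1 ≤ e_p`.  LD.prim: `N_p ≥ 1`. -/
def Stmt_PAW : Prop :=
  ∀ (b : Fin 2 → Matrix (Fin 4) (Fin 4) ℤ) (c : Fin 2 → Matrix (Fin 2) (Fin 2) ℤ), Nice b →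
    res c ≠ 0 → ∀ (N P₀ : ℕ) (ε : ℝ), 0 < ε → ∃ (m V' : ℕ) (Bad : Set (Matrix (Fin 2) (Fin 2) ℤ)),
      0 < m ∧ 0 < V' ∧ (∀ p : ℕ, p.Prime → p ≤ P₀ → p ^ N ∣ m * V') ∧
      (∀ M M' : Matrix (Fin 2) (Fin 2) ℤ, (∀ i j, ((m ^ 2 * V' : ℕ) : ℤ) ∣ M i j - M' i j) →
        M ∈ Bad → M' ∈ Bad) ∧
      (Set.ncard {M | M ∈ Bad ∧ ∀ i j, 0 ≤ M i j ∧ M i j < ((m ^ 2 * V' : ℕ) : ℤ)} : ℝ) ≤
        ε * ((m ^ 2 * V' : ℕ) : ℝ) ^ 4 ∧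
      ∀ M : Matrix (Fin 2) (Fin 2) ℤ, M ∉ Bad →
        ∀ (x : (p : ℕ) → [Fact p.Prime] → Fin 4 → ℤ_[p])
          (w : (p : ℕ) → [Fact p.Prime] → Fin 2 → ℤ_[p]),
          (∀ (p : ℕ) [Fact p.Prime], p ≤ P₀ → ((∃ j, ‖x p j‖ = 1) ∨ ∃ j, ‖w p j‖ = 1) ∧
            Zer b c (M.map (Int.cast : ℤ → ℤ_[p])) (x p) (w p)) →
          ∃ (x₀ : Fin 4 → ℤ) (w₀ : Fin 2 → ℤ), LD b c P₀ m V' M x₀ w₀ ∧
            ∀ (p : ℕ) [Fact p.Prime], p ≤ P₀ →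
              (∀ j, (p : ℤ_[p]) ^ N ∣ (x₀ j : ℤ_[p]) - x p j) ∧
              ∀ j, (p : ℤ_[p]) ^ N ∣ (w₀ j : ℤ_[p]) - w p j

/-- RCV (150 lines; uses CEL COI). Uniform cells (Lebesgue number).  The set
`Z = {(M,x,w) : |M_ij| ≤ 1, Zer, GenQ κ, ‖x‖, ‖w‖ ≤ 2}` is compact, its points satisfy the
hypotheses of CEL (`GenQ κ`: `J(x)` independent, generic, `w ≠ 0`).  For `a ∈ Z` let `η(a)`, `P₂(a)` be
the constants of CEL.  Finitely many of the sets `{(M,x,w) : ‖M - M_a‖ < η(a)/2, ‖x - x_a‖ < ν,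
‖w - w_a‖ < ν}` cover `Z`.  `θ₀ = min η(a)/4`, `P₂ = max`.  For `(M,x,w) ∈ Z` in the set of `a` and a
cube of side `θ ≤ θ₀` containing `M`: it is in the ball `η(a)` of `M_a`. -/
def Stmt_RCV : Prop :=
  ∀ (b : Fin 2 → Matrix (Fin 4) (Fin 4) ℤ) (c : Fin 2 → Matrix (Fin 2) (Fin 2) ℤ), Nice b →
    res c ≠ 0 → ∀ (κ ν ε : ℝ) (L : ℕ), 0 < κ → 0 < ν → 0 < ε → ∃ (θ₀ : ℝ) (P₂ : ℕ), 0 < θ₀ ∧
    ∀ (M' : Matrix (Fin 2) (Fin 2) ℝ) (x : Fin 4 → ℝ) (w : Fin 2 → ℝ), (∀ i j, |M' i j| ≤ 1) →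
      Zer b c M' x w → GenQ b c κ x w → ‖x‖ ≤ 2 → ‖w‖ ≤ 2 →
      ∃ (ξ : Fin 4 → ℝ) (ω : Fin 2 → ℝ), ‖ξ - x‖ < ν ∧ ‖ω - w‖ < ν ∧
      ∀ (P₀ m V' : ℕ) (M₀ : Matrix (Fin 2) (Fin 2) ℤ) (x₀ : Fin 4 → ℤ) (w₀ : Fin 2 → ℤ),
        P₂ ≤ P₀ → LD b c P₀ m V' M₀ x₀ w₀ → ∀ (α : Matrix (Fin 2) (Fin 2) ℝ) (θ : ℝ), 0 < θ →
        θ ≤ θ₀ → (∀ i j, α i j ≤ M' i j ∧ M' i j ≤ α i j + θ) →
        ∃ U B₀ : ℕ, ∀ B : ℕ, B₀ ≤ B →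
          (Set.ncard {M | M ∈ CB α θ (m ^ 2 * V') M₀ B ∧
            ¬ Sol b c (m * V') (m ^ 2 * V') x₀ w₀ ξ ω ν L U B M} : ℝ) ≤
          ε * (θ * (B : ℝ) ^ 2 / ((m ^ 2 * V' : ℕ) : ℝ)) ^ 4

end Pool.GLU
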