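import Pool.Agent.Work.MP_9fb703_gl.Interface

/-!
# MP_9fb703_nt, THEOREM GLUE, part 2: assembly
-/

set_option autoImplicit false

namespace Pool.GLU

open Matrix Polynomial MeasureTheory

/-- conclusion of the theorem for one matrix -/
def Gd (b : Fin 2 → Matrix (Fin 4) (Fin 4) ℤ) (c : Fin 2 → Matrix (Fin 2) (Fin 2) ℤ)
    (N L P U A : ℕ) (M : Matrix (Fin 2) (Fin 2) ℤ) : Prop :=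
  ∀ (y : Fin 4 → ℝ) (v : Fin 2 → ℝ) (x : (p : ℕ) → [Fact p.Prime] → Fin 4 → ℤ_[p])
    (w : (p : ℕ) → [Fact p.Prime] → Fin 2 → ℤ_[p]), (y ≠ 0 ∨ v ≠ 0) →
    Zer b c (M.map (Int.cast : ℤ → ℝ)) y v →
    (∀ (p : ℕ) [Fact p.Prime], p ≤ P → ((∃ j, ‖x p j‖ = 1) ∨ ∃ j, ‖w p j‖ = 1) ∧
      Zer b c (M.map (Int.cast : ℤ → ℤ_[p])) (x p) (w p)) →
    ∃ S : Finset ((Fin 4 → ℤ) × (Fin 2 → ℤ)), L ≤ S.card ∧ ∀ z ∈ S,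
      Zer b c M z.1 z.2 ∧ z.2 ≠ 0 ∧ (∀ j, |z.2 j| ≤ U) ∧
      (∀ d : ℤ, (∀ j, d ∣ z.1 j) → (∀ j, d ∣ z.2 j) → IsUnit d) ∧
      (∃ t : ℝ, 0 < t ∧ (∀ j, |t * z.1 j - y j| ≤ 1 / N * max ‖y‖ (Real.sqrt A * ‖v‖)) ∧
        ∀ j, Real.sqrt A * |t * z.2 j - v j| ≤ 1 / N * max ‖y‖ (Real.sqrt A * ‖v‖)) ∧
      ∀ (p : ℕ) [Fact p.Prime], p ≤ N →
        (∀ j, ‖((z.1 j : ℤ) : ℤ_[p]) - x p j‖ ≤ (p : ℝ) ^ (-(N : ℤ))) ∧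
        ∀ j, ‖((z.2 j : ℤ) : ℤ_[p]) - w p j‖ ≤ (p : ℝ) ^ (-(N : ℤ))

/-- the theorem -/
def Main (b : Fin 2 → Matrix (Fin 4) (Fin 4) ℤ) (c : Fin 2 → Matrix (Fin 2) (Fin 2) ℤ) : Prop :=
  ∀ (N L : ℕ) (ε : ℝ), 1 ≤ N → 0 < ε → ∃ P U A₀ : ℕ, N ≤ P ∧ ∀ A : ℕ, A₀ ≤ A →
    (Set.ncard {M : Matrix (Fin 2) (Fin 2) ℤ | (∀ i j, |M i j| ≤ A) ∧ ¬ Gd b c N L P U A M} : ℝ) ≤
      ε * (2 * (A : ℝ) + 1) ^ 4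

/-- AS1 (200 lines; uses nothing). From `Sol` to the conclusion for one matrix.  `ν = 1/(8N)`,
`s B = max ‖y‖ (B‖v‖)`, `√A ≤ B ≤ 2√A`.  For `z ∈ S` with the scale `t`:
`|z.1 j/(tB) - y j/(sB)| ≤ ν + 3ν`, so with `t' = s/t`: `|t' z.1 j - y j| ≤ 4ν sB ≤ 8ν h = h/N`,
`h = max ‖y‖ (√A‖v‖)` (`sB ≤ 2h` as `B ≤ 2√A`); `√A |t' z.2 j - v j| ≤ √A s 4ν ≤ 4ν sB`.
`p`-adic: `p^N` divides `V`, `W`, so `z ≡ (x₀,w₀) ≡ (x_p,w_p)`. -/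
def Stmt_AS1 : Prop :=
  ∀ (b : Fin 2 → Matrix (Fin 4) (Fin 4) ℤ) (c : Fin 2 → Matrix (Fin 2) (Fin 2) ℤ)
    (N L U A B V W : ℕ) (M : Matrix (Fin 2) (Fin 2) ℤ) (x₀ : Fin 4 → ℤ) (w₀ : Fin 2 → ℤ)
    (ξ y : Fin 4 → ℝ) (ω v : Fin 2 → ℝ) (s : ℝ) (x : (p : ℕ) → [Fact p.Prime] → Fin 4 → ℤ_[p])
    (w : (p : ℕ) → [Fact p.Prime] → Fin 2 → ℤ_[p]), 1 ≤ N → 1 ≤ A → Real.sqrt A ≤ B →
    (B : ℝ) ≤ 2 * Real.sqrt A → 0 < s → s * B = max ‖y‖ (B * ‖v‖) →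
    ‖ξ - (s * B)⁻¹ • y‖ ≤ 3 * (1 / (8 * (N : ℝ))) → ‖ω - s⁻¹ • v‖ ≤ 3 * (1 / (8 * (N : ℝ))) →
    (∀ p : ℕ, p.Prime → p ≤ N → p ^ N ∣ V ∧ p ^ N ∣ W) →
    (∀ (p : ℕ) [Fact p.Prime], p ≤ N → (∀ j, (p : ℤ_[p]) ^ N ∣ (x₀ j : ℤ_[p]) - x p j) ∧
      ∀ j, (p : ℤ_[p]) ^ N ∣ (w₀ j : ℤ_[p]) - w p j) →
    Sol b c V W x₀ w₀ ξ ω (1 / (8 * (N : ℝ))) L U B M →
    ∃ S : Finset ((Fin 4 → ℤ) × (Fin 2 → ℤ)), L ≤ S.card ∧ ∀ z ∈ S,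
      Zer b c M z.1 z.2 ∧ z.2 ≠ 0 ∧ (∀ j, |z.2 j| ≤ U) ∧
      (∀ d : ℤ, (∀ j, d ∣ z.1 j) → (∀ j, d ∣ z.2 j) → IsUnit d) ∧
      (∃ t : ℝ, 0 < t ∧ (∀ j, |t * z.1 j - y j| ≤ 1 / N * max ‖y‖ (Real.sqrt A * ‖v‖)) ∧
        ∀ j, Real.sqrt A * |t * z.2 j - v j| ≤ 1 / N * max ‖y‖ (Real.sqrt A * ‖v‖)) ∧
      ∀ (p : ℕ) [Fact p.Prime], p ≤ N →
        (∀ j, ‖((z.1 j : ℤ) : ℤ_[p]) - x p j‖ ≤ (p : ℝ) ^ (-(N : ℤ))) ∧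
        ∀ j, ‖((z.2 j : ℤ) : ℤ_[p]) - w p j‖ ≤ (p : ℝ) ^ (-(N : ℤ))

/-- ASM (400 lines; uses DNZ NZR UNR PAW RCV AS1). Assembly.  `ν = 1/(8N)`.  `F` from DNZ; `h` from
NZR (`F`, `ε₁ = ε`); `κ` from UNR (`h`, `ν`).  `Λ` = number of cubes of side `ν` covering
`[-2,2]⁶` (zero cells), `Q = ∏_(p ≤ N) p^N`.  RCV with `κ, ν, ε₂ = ε / (256 Λ Q⁶)`, `L`: `θ₀`, `P₂`.
`P = P₀ = max P₂ N`.  PAW with `N, P₀, ε₃ = ε / 81`: `m, V', Bad`.  `H ≥ 1/θ₀`, `θ = 1/H`, the cubes with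
corner `α = g/H`, `g ∈ ([-H-1, H] ∩ ℤ)⁴` cover `[-1,1]⁴`, `(2H+2)⁴ θ⁴ ≤ 256`.  For a cube and a zero
cell which contain a point `(M',x',w')` of `Z` (`Zer`, `GenQ κ`, norms `≤ 2`, `|M'_ij| ≤ 1`), choose
one such point and then `(ξ,ω)` by RCV.  For `M₀ ∈ [0,W)⁴`, `ȳ ∈ [0,Q)⁶` choose `(x₀,w₀)` with LD for
`M₀` and `≡ ȳ mod p^N`, `p ≤ N`, if there is one.  `U`, `B₀` = maxima over the finitely many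
choices.  For `A` large, `B = ⌈√A⌉`, `B⁸ ≤ (2A+1)⁴/8`.  Let `M` be exceptional: `|M_ij| ≤ A ≤ B²`, with a
real zero `(y,v)` and `p`-adic zeros.  Either `|F(M/B²)| < h` (at most `ε₁ B⁸`), or `M ∈ Bad` (at most
`ε₃ W⁴ (2B²/W + 2)⁴ ≤ 81 ε₃ B⁸`), or: `s = max (‖y‖/B) ‖v‖`, `(y/(sB), v/s)` is a zero of `X_(M/B²)` of
norm 1 (`q` is homogeneous), UNR gives `(x',w')`; `M/B²` lies in a cube, `(x',w')` in a zero cell;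
the chosen `(ξ,ω)` is at distance `≤ ν + ν` from `(x',w')`, so `≤ 3ν` from `(y/(sB), v/s)`.  PAW gives
local data for `M`; `M₀ = M mod W` (LD only depends on `M mod W`), `ȳ` the residues: the chosen
`(x₀,w₀)` exists and is `≡ (x_p,w_p) mod p^N`.  If `Sol` holds, AS1 contradicts that `M` is
exceptional.  So `M` is in the set of RCV for this cube, zero cell, `M₀`, `ȳ`: in total at most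
`(2H+2)⁴ Λ W⁴ Q⁶ ε₂ θ⁴ B⁸ / W⁴ ≤ 256 Λ Q⁶ ε₂ B⁸ = ε B⁸`.  Sum `≤ 3 ε B⁸ ≤ ε (2A+1)⁴`. -/
def Stmt_ASM : Prop :=
  ∀ (b : Fin 2 → Matrix (Fin 4) (Fin 4) ℤ) (c : Fin 2 → Matrix (Fin 2) (Fin 2) ℤ), Nice b →
    res c ≠ 0 → Main b c

/-- RED (150 lines; uses nothing). Shear: `q' = (q₀ + k q₁, q₁)`, `M' = g M`, `g = (1 k; 0 1)`:
`q = M φ ↔ q' = M' φ` over every ring.  Apply the theorem for `b'` with `N' = N (1+|k|)`, the same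
`L` and `ε' = ε / (1+|k|)⁴`; `A' = (1+|k|) A`: `M ↦ M'` is injective from the exceptional `M`, `|M_ij| ≤ A`,
to the exceptional `M'`, `|M'_ij| ≤ A'` (`P`, `U` the same, `A₀` the same).  If `Gd b' c N' L P U A' M'`
then `Gd b c N L P U A M`: `√A' ≤ (1+|k|) √A`, so
`1/N' max ‖y‖ (√A'‖v‖) ≤ 1/N max ‖y‖ (√A‖v‖)`, `√A ≤ √A'`, `p^(-N') ≤ p^(-N)`, `N ≤ N'`. -/
def Stmt_RED : Prop :=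
  ∀ (b : Fin 2 → Matrix (Fin 4) (Fin 4) ℤ) (c : Fin 2 → Matrix (Fin 2) (Fin 2) ℤ) (k : ℤ),
    Main (fun i => if i = 0 then b 0 + k • b 1 else b 1) c → Main b c

end Pool.GLU
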